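import Pool.Agent.P.MP_7a6434d8_pr.QL.C.Stmts

/-! Laws of realisations and their limits. -/

open MeasureTheory ProbabilityTheory Set Filter Topology Metric
open scoped ENNReal unitInterval NNReal BoundedContinuousFunction

namespace Pool.Agent.QL.LC

open Pool.Agent.LGD Pool.Agent.P.MP_7a6434d8_pr Pool.Agent.P.MP_7a6434d8_pr.Mp

theorem measurable_rz {Y : Type} [MeasurableSpace Y] {f : RZ → Y}
    (h : ∀ n (q : Quad n), Measurable fun p => f (RZ.mk' q p)) : Measurable f := fun _ hs =>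
  MeasurableSpace.measurableSet_iInf.2 fun a => h a.1 a.2 hs

theorem measurable_mk' {n : ℕ} (q : Quad n) : Measurable (RZ.mk' q) := fun _ hs =>
  MeasurableSpace.measurableSet_iInf.1 hs ⟨n, q⟩

theorem measurable_rho : Measurable RZ.ρ := measurable_rz fun _ _ => measurable_fst

theorem measurable_rn : Measurable RZ.n := measurable_rz fun _ _ => measurable_const

/-- a function of finitely many discrete coordinates is measurable -/
theorem api_dep {X Y : Type} [MeasurableSpace X] [Countable X] [DiscreteMeasurableSpace X]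
    [Nonempty X] [MeasurableSpace Y] (J : List ℕ) {f : (ℕ → X) → Y}
    (h : ∀ S S', (∀ i ∈ J, S i = S' i) → f S = f S') : Measurable f := by
  classical
  have e : f = (fun y : J.toFinset → X => f fun i =>
      if h : i ∈ J.toFinset then y ⟨i, h⟩ else Classical.arbitrary X) ∘ J.toFinset.restrict :=
    funext fun S => h _ _ fun i hi => by simp [hi]
  rw [e]
  exact Measurable.of_discrete.comp (Finset.measurable_restrict _)

theorem api_bset (G : GM) {S S' : ℕ → G.X} {l : List (ℕ × ℕ)} (h : ∀ c ∈ l, S c.1 = S' c.1) :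
    G.bset S l = G.bset S' l := by
  ext d
  exact exists_congr fun c => and_congr_right fun hc => by rw [h c hc]

theorem api_ballE (G : GM) {S S' : ℕ → G.X} (pr : Bool) {j : BDat ℕ}
    (h : ∀ c ∈ j.balls, S c.1 = S' c.1) : G.ballE S pr j = G.ballE S' pr j := by
  unfold GM.ballE
  rw [api_bset G fun c hc => h c (List.mem_append_left _ hc)]
  congr 1
  refine List.map_congr_left fun e he => ?_
  rw [api_bset G fun c hc => h c (List.mem_append_right _ (List.mem_flatMap.2 ⟨e, he, hc⟩))]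

theorem measurable_gcd0 (δ : ℝ) : Measurable (gcd0 δ) := by
  refine Measurable.prodMk ((measurable_from_nat (f := fun n => ENNReal.ofReal (δ ^ 4 * n))).comp
    measurable_rn) (measurable_pi_lambda _ fun i => measurable_pi_lambda _ fun j =>
      measurable_rz fun n q => ?_)
  exact (api_dep [i, j] (f := fun S : ℕ → q.Vertex =>
    ENNReal.ofReal (δ * q.graph.dist (S i) (S j)))
      fun S S' h => by rw [h i (by simp), h j (by simp)]).comp measurable_snd

theorem measurable_ecd0 (δ κ : ℝ) : Measurable (ecd0 δ κ) := measurable_rz fun _ q =>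
  measurable_pi_lambda _ fun x =>
    (api_dep ((x.2.toN δ).balls.map Prod.fst)
      (f := fun S : ℕ → q.Vertex => nrm κ x.1 * (gmQ q).ballE S x.1 (x.2.toN δ))
      fun _ _ h => congrArg _ (api_ballE (gmQ q) _ fun _ hc =>
        h _ (List.mem_map_of_mem hc))).comp measurable_snd

theorem measurable_aux0 (δ : ℝ) : Measurable (aux0 δ) := measurable_rz fun n q =>
  measurable_pi_lambda _ fun x => by
    rcases x with N | l
    · refine (api_dep (List.range (N + 1)) (f := fun S : ℕ → q.Vertex =>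
        ⨆ v, ⨅ (i : ℕ) (_ : i ≤ N), ENNReal.ofReal (δ * q.graph.dist (S i) v))
        fun S S' h => ?_).comp measurable_snd
      refine iSup_congr fun v => iInf_congr fun i => iInf_congr fun hi => ?_
      rw [h i (by simp; omega)]
    · refine (api_dep l (f := fun S : ℕ → q.Vertex => aux0 δ (RZ.mk' q (0, S)) (.inr l))
        fun S S' h => ?_).comp measurable_snd
      refine congrArg (fun t => ENNReal.ofReal (t / _)) (Finset.sum_congr rfl fun v _ => ?_)
      refine congrArg List.prod (List.map_congr_left fun i hi => ?_)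
      exact congrArg (fun z : q.Vertex => Real.exp (-(δ * q.graph.dist z v))) (h i hi)

theorem measurable_code0 (b : Base) (k : ℕ) : Measurable (code0 b k) :=
  (measurable_gcd0 _).prodMk ((measurable_ecd0 _ _).prodMk (measurable_aux0 _))

instance smpl_prob (X : Type) [MeasurableSpace X] [Finite X] [Nonempty X] :
    IsProbabilityMeasure (smpl X) := by
  unfold smpl; infer_instance

theorem lintegral_lawN' (n : ℕ) {G : RZ → ℝ≥0∞} (hG : Measurable G) :
    ∫⁻ r, G r ∂lawN n = ∑' q : Quad n, (Nat.card (Quad n) : ℝ≥0∞)⁻¹ *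
      ∫⁻ p, G (RZ.mk' q p) ∂(volume : Measure I).prod (smpl q.Vertex) := by
  rw [lawN, lintegral_sum_measure]
  refine tsum_congr fun q => ?_
  rw [lintegral_smul_measure, lintegral_map hG (measurable_mk' q), smul_eq_mul]

theorem lintegral_lawN (n : ℕ) {G : RZ → ℝ≥0∞} (hG : Measurable G) :
    ∫⁻ r, G r ∂lawN n = ∫⁻ ρ : I, EQS n fun q S => G (RZ.mk' q (ρ, S)) := by
  have m : ∀ q : Quad n, Measurable fun p => G (RZ.mk' q p) := fun q => hG.comp (measurable_mk' q)
  have m' : ∀ q : Quad n, Measurable fun ρ : I => ∫⁻ S, G (RZ.mk' q (ρ, S)) ∂smpl q.Vertex :=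
    fun q => (m q).lintegral_prod_right'
  simp only [EQS, div_eq_mul_inv]
  rw [lintegral_lawN' n hG, lintegral_mul_const _ (Measurable.tsum m'),
    lintegral_tsum fun q => (m' q).aemeasurable, ENNReal.tsum_mul_left, mul_comm]
  congr 1
  exact tsum_congr fun q => lintegral_prod _ (m q).aemeasurable

theorem api_card_pos {n : ℕ} (hn : 1 ≤ n) : 0 < Nat.card (Quad n) := by
  obtain ⟨c⟩ := (Nat.card_pos_iff.1 (xmain_pos n hn)).1
  have : Nonempty (Quad n) := ⟨Quot.out c⟩
  exact Nat.card_pos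

theorem lawN_prob {n : ℕ} (hn : 1 ≤ n) : IsProbabilityMeasure (lawN n) := by
  constructor
  have := Fintype.ofFinite (Quad n)
  rw [← lintegral_one, lintegral_lawN' n measurable_const]
  simp only [lintegral_const, measure_univ, mul_one, tsum_fintype, Finset.sum_const,
    Finset.card_univ, nsmul_eq_mul, Fintype.card_eq_nat_card]
  exact ENNReal.mul_inv_cancel (by exact_mod_cast (api_card_pos hn).ne') (by simp)

theorem ae_lawN_n (n : ℕ) : ∀ᵐ r ∂lawN n, r.n = n := by
  rw [lawN, Measure.ae_sum_iff]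
  intro q
  refine Measure.ae_smul_measure ((ae_map_iff (measurable_mk' q).aemeasurable
    (measurable_rn (measurableSet_singleton n))).2 (.of_forall fun _ => rfl)) _

variable {b : Base} (w : World b)

theorem World.measurable_lawN (k : ℕ) : Measurable fun s => lawN (w.N k s) :=
  (measurable_from_nat (f := lawN)).comp (w.N_meas k)

theorem World.lintegral_law (k : ℕ) {G : RZ → ℝ≥0∞} (hG : Measurable G) :
    ∫⁻ r, G r ∂w.law k = ∫⁻ s, ∫⁻ r, G r ∂lawN (w.N k s) ∂w.ϑ :=
  Measure.lintegral_bind (w.measurable_lawN k).aemeasurable hG.aemeasurable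

instance World.law_prob (k : ℕ) : IsProbabilityMeasure (w.law k) := by
  constructor
  have := fun s => lawN_prob (w.N_pos k s)
  rw [← lintegral_one, w.lintegral_law k measurable_const]
  simp

/-- with high probability the size is comparable to `δ⁻⁴` -/
theorem World.size_tight {η : ℝ≥0∞} (hη : 0 < η) : ∃ B : ℝ, 1 ≤ B ∧ ∀ᶠ k in (b.U : Filter ℕ),
    w.ϑ {s | ¬ (1 / B ≤ b.δ k ^ 4 * w.N k s ∧ b.δ k ^ 4 * w.N k s ≤ B)} ≤ η := by
  have h1 := tendsto_measure_iInter_atTop (μ := w.ϑ) (s := fun T : ℕ => {s : ℝ | (T : ℝ) < |s|})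
    (fun T => (measurableSet_lt measurable_const measurable_abs).nullMeasurableSet)
    (fun T T' h s (hs : (T' : ℝ) < |s|) => lt_of_le_of_lt (by exact_mod_cast h) hs)
    ⟨0, measure_ne_top _ _⟩
  have h2 : ⋂ T : ℕ, {s : ℝ | (T : ℝ) < |s|} = ∅ := by
    refine eq_empty_of_forall_notMem fun s hs => ?_
    obtain ⟨T, hT⟩ := exists_nat_gt |s|
    exact lt_asymm hT (mem_iInter.1 hs T)
  rw [h2, measure_empty] at h1
  obtain ⟨T, hT⟩ := (h1.eventually (ge_mem_nhds hη)).exists
  have h3 : 1 ≤ Real.exp (gam * T) := Real.one_le_exp (by have := gam_pos; positivity)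
  have h4 : (Real.exp (gam * T))⁻¹ ≤ 1 := inv_le_one_of_one_le₀ h3
  have h5 : 0 < (Real.exp (gam * T))⁻¹ := by positivity
  refine ⟨2 * Real.exp (gam * T), by linarith, ?_⟩
  filter_upwards [w.N_lim T ((Real.exp (gam * T))⁻¹ / 8) (by positivity)] with k hk
  refine le_trans (measure_mono_ae ?_) hT
  filter_upwards [hk] with s hs hn
  by_contra hc
  have hc' : |s| ≤ T := not_lt.1 hc
  have h6 := abs_le.1 (hs hc')
  have h7 : Real.exp (gam * s) ≤ Real.exp (gam * T) :=
    Real.exp_le_exp.2 (mul_le_mul_of_nonneg_left (abs_le.1 hc').2 gam_pos.le)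
  have h8 : (Real.exp (gam * T))⁻¹ ≤ Real.exp (gam * s) := by
    rw [← Real.exp_neg]
    exact Real.exp_le_exp.2 (by nlinarith [(abs_le.1 hc').1, gam_pos])
  refine hn ⟨?_, by linarith [h6.2]⟩
  rw [one_div, mul_inv]
  linarith [h6.1]

theorem Base.le_atTop (b : Base) : (b.U : Filter ℕ) ≤ atTop := by
  rcases b.U.le_cofinite_or_eq_pure with h | ⟨k, h⟩
  · rwa [← Nat.cofinite_eq_atTop]
  · have h1 := b.δ_lim
    rw [h] at h1
    exact absurd (tendsto_nhds_unique h1 (tendsto_pure_nhds _ _)) (b.δ_pos k).ne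

section Lim

variable {Y Y' : Type} [TopologicalSpace Y] [PolishSpace Y] [CompactSpace Y] [MeasurableSpace Y]
  [BorelSpace Y] [TopologicalSpace Y'] [PolishSpace Y'] [CompactSpace Y'] [MeasurableSpace Y']
  [BorelSpace Y'] {f : ℕ → RZ → Y}

theorem World.exists_lim (hf : ∀ k, Measurable (f k)) :
    ∃ Q : Measure Y, IsProbabilityMeasure Q ∧ w.Lim f Q := by
  let P : ℕ → ProbabilityMeasure Y := fun k =>
    ⟨(w.law k).map (f k), Measure.isProbabilityMeasure_map (hf k).aemeasurable⟩
  obtain ⟨Q, -, hQ⟩ := isCompact_univ.ultrafilter_le_nhds (b.U.map P) (by simp)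
  refine ⟨Q, inferInstance, fun G hG => ?_⟩
  have fin : ∀ y, G y ≠ ⊤ := fun y => ne_top_of_le_ne_top ENNReal.one_ne_top (hG y)
  have hc : Continuous fun y => (G y).toNNReal :=
    ENNReal.continuousOn_toNNReal.comp_continuous G.continuous fin
  have h := ProbabilityMeasure.tendsto_iff_forall_lintegral_tendsto.1
    (show Tendsto P b.U (𝓝 Q) from hQ) (BoundedContinuousFunction.mkOfCompact ⟨_, hc⟩)
  simp only [BoundedContinuousFunction.mkOfCompact_apply, ContinuousMap.coe_mk,
    ENNReal.coe_toNNReal (fin _)] at h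
  refine h.congr fun k => ?_
  exact lintegral_map G.continuous.measurable (hf k)

variable {w} {Q : Measure Y} [IsProbabilityMeasure Q]

omit [PolishSpace Y] [CompactSpace Y] [BorelSpace Y] [IsProbabilityMeasure Q] in
theorem World.Lim.bdd (h : w.Lim f Q) {G : Y → ℝ≥0∞} (hG : Continuous G) {c : ℝ≥0∞} (hc : c ≠ ⊤)
    (hb : ∀ y, G y ≤ c) :
    Tendsto (fun k => ∫⁻ r, G (f k r) ∂w.law k) b.U (𝓝 (∫⁻ y, G y ∂Q)) := by
  have h0 : c + 1 ≠ 0 := by simp
  have h1 : c + 1 ≠ ⊤ := by simpa
  have e : ∀ y, G y = (c + 1) * ((c + 1)⁻¹ * G y) := fun y => by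
    rw [← mul_assoc, ENNReal.mul_inv_cancel h0 h1, one_mul]
  have h2 := ENNReal.Tendsto.const_mul (a := c + 1) (h ⟨fun y => (c + 1)⁻¹ * G y,
    (ENNReal.continuous_const_mul (by simp)).comp hG⟩ fun y => by
      show (c + 1)⁻¹ * G y ≤ 1
      exact (mul_le_mul_right ((hb y).trans le_self_add) _).trans_eq
        (ENNReal.inv_mul_cancel h0 h1)) (Or.inr h1)
  simpa only [ContinuousMap.coe_mk, ← lintegral_const_mul' _ _ h1, ← e] using h2

theorem World.Lim.unique {Q' : Measure Y} [IsProbabilityMeasure Q'] (h : w.Lim f Q)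
    (h' : w.Lim f Q') : Q = Q' := by
  refine ext_of_forall_lintegral_eq_of_IsFiniteMeasure fun G => ?_
  have hc : Continuous fun y => (G y : ℝ≥0∞) := ENNReal.continuous_coe.comp G.continuous
  have hb := fun y => (ENNReal.coe_le_coe.2 (BoundedContinuousFunction.NNReal.upper_bound G y))
  exact tendsto_nhds_unique (h.bdd hc ENNReal.coe_ne_top hb) (h'.bdd hc ENNReal.coe_ne_top hb)

theorem World.Lim.map (h : w.Lim f Q) {φ : Y → Y'} (hφ : Continuous φ) :
    w.Lim (fun k r => φ (f k r)) (Q.map φ) := fun G hG => by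
  rw [lintegral_map G.continuous.measurable hφ.measurable]
  exact h (G.comp ⟨φ, hφ⟩) fun y => hG _

theorem World.Lim.lsc_le (h : w.Lim f Q) (hf : ∀ k, Measurable (f k)) {G : Y → ℝ≥0∞}
    (hG : LowerSemicontinuous G) :
    ∫⁻ y, G y ∂Q ≤ liminf (fun k => ∫⁻ r, G (f k r) ∂w.law k) b.U := by
  let _ := TopologicalSpace.metrizableSpaceMetric Y
  let g : ℕ → Y → ℝ≥0∞ := fun n y => ⨅ z, (min (G z) n + n * edist y z)
  have hc : ∀ n, Continuous (g n) := fun n =>
    continuous_of_le_add_edist n (by simp) fun y y' => by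
      rw [ENNReal.iInf_add]
      refine le_iInf fun z => (iInf_le _ z).trans ?_
      rw [add_assoc, ← mul_add, add_comm (edist y' z)]
      gcongr
      exact edist_triangle _ _ _
  have hm : ∀ n y, g n y ≤ min (G y) n := fun n y => (iInf_le _ y).trans (by simp)
  have mono : Monotone g := fun n n' hn y => iInf_mono fun z => by gcongr
  have hs : ∀ y, G y ≤ ⨆ n, g n y := fun y => by
    refine le_of_forall_lt_imp_le_of_dense fun c hc => ?_
    obtain ⟨ε, hε, h1⟩ := EMetric.mem_nhds_iff.1 (hG y c hc)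
    have ct : c ≠ ⊤ := hc.ne_top
    obtain ⟨n, hn⟩ := ENNReal.exists_nat_gt (r := max c (c / ε))
      (max_ne_top ct (ENNReal.div_ne_top ct hε.ne'))
    refine le_iSup_of_le n (le_iInf fun z => ?_)
    by_cases hz : edist z y < ε
    · exact le_add_right (le_min (h1 hz).le (le_of_max_le_left hn.le))
    · refine le_add_left ?_
      rw [edist_comm]
      rcases eq_or_ne ε ⊤ with h2 | h2
      · exact absurd (h2 ▸ edist_lt_top z y) hz
      · calc c = c / ε * ε := (ENNReal.div_mul_cancel hε.ne' h2).symm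
          _ ≤ _ := mul_le_mul' (le_of_max_le_right hn.le) (not_lt.1 hz)
  refine (lintegral_mono hs).trans ?_
  rw [lintegral_iSup (fun n => (hc n).measurable) mono]
  refine iSup_le fun n => ?_
  rw [← (h.bdd (hc n) (ENNReal.natCast_ne_top n) fun y => (hm n y).trans (min_le_right _ _)).liminf_eq]
  exact liminf_le_liminf (.of_forall fun k => lintegral_mono fun r =>
    (hm n _).trans (min_le_left _ _))

theorem World.Lim.le_usc (h : w.Lim f Q) (hf : ∀ k, Measurable (f k)) {G : Y → ℝ≥0∞}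
    (hG : UpperSemicontinuous G) (h1 : ∀ y, G y ≤ 1) :
    limsup (fun k => ∫⁻ r, G (f k r) ∂w.law k) b.U ≤ ∫⁻ y, G y ∂Q := by
  have h2 := h.lsc_le hf (G := fun y => 1 - G y) ((ENNReal.continuous_sub_left
    ENNReal.one_ne_top).comp_upperSemicontinuous_antitone hG fun _ _ hab => tsub_le_tsub_left hab _)
  have e : ∀ {Z : Type} [MeasurableSpace Z] (m : Measure Z) [IsProbabilityMeasure m]
      (g : Z → ℝ≥0∞), Measurable g → (∀ z, g z ≤ 1) →
      ∫⁻ z, 1 - g z ∂m = 1 - ∫⁻ z, g z ∂m ∧ ∫⁻ z, g z ∂m ≤ 1 := fun m _ g hg hb => by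
    have : ∫⁻ z, g z ∂m ≤ 1 := (lintegral_mono hb).trans (by simp)
    refine ⟨?_, this⟩
    rw [lintegral_sub hg (ne_top_of_le_ne_top ENNReal.one_ne_top this) (.of_forall hb)]
    simp
  have e1 := fun k => e (w.law k) (fun r => G (f k r)) (hG.measurable.comp (hf k)) fun _ => h1 _
  have e2 := e Q G hG.measurable h1
  simp only [e2.1, (e1 _).1] at h2
  obtain ⟨L, -, hL⟩ := isCompact_univ.ultrafilter_le_nhds
    (b.U.map fun k => ∫⁻ r, G (f k r) ∂w.law k) (by simp)
  have hL' : Tendsto (fun k => ∫⁻ r, G (f k r) ∂w.law k) b.U (𝓝 L) := hL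
  have h3 : Tendsto (fun k => 1 - ∫⁻ r, G (f k r) ∂w.law k) b.U (𝓝 (1 - L)) :=
    ((ENNReal.continuous_sub_left ENNReal.one_ne_top).tendsto L).comp hL'
  rw [h3.liminf_eq] at h2
  rw [hL'.limsup_eq]
  exact (ENNReal.sub_le_sub_iff_left (le_of_tendsto' hL' fun k => (e1 k).2)
    ENNReal.one_ne_top).1 h2

theorem World.Lim.open_le (h : w.Lim f Q) (hf : ∀ k, Measurable (f k)) {O : Set Y}
    (hO : IsOpen O) {c : ℝ≥0∞} (hc : ∀ᶠ k in (b.U : Filter ℕ), w.law k (f k ⁻¹' O) ≤ c) :
    Q O ≤ c := by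
  have h1 := h.lsc_le hf (hO.lowerSemicontinuous_indicator (zero_le_one (α := ℝ≥0∞)))
  rw [lintegral_indicator_const hO.measurableSet, one_mul] at h1
  refine h1.trans (liminf_le_of_frequently_le' (hc.mono fun k hk => le_of_eq_of_le ?_ hk).frequently)
  rw [← one_mul (w.law k _), ← lintegral_indicator_const (hf k hO.measurableSet)]
  rfl

theorem World.Lim.le_closed (h : w.Lim f Q) (hf : ∀ k, Measurable (f k)) {C : Set Y}
    (hC : IsClosed C) {c : ℝ≥0∞} (hc : ∀ᶠ k in (b.U : Filter ℕ), c ≤ w.law k (f k ⁻¹' C)) :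
    c ≤ Q C := by
  have h1 := h.le_usc hf (hC.upperSemicontinuous_indicator (zero_le_one (α := ℝ≥0∞)))
    fun y => indicator_le (fun _ _ => le_rfl) y
  rw [lintegral_indicator_const hC.measurableSet, one_mul] at h1
  refine (le_limsup_of_frequently_le' (hc.mono fun k hk => hk.trans_eq ?_).frequently).trans h1
  rw [← one_mul (w.law k _), ← lintegral_indicator_const (hf k hC.measurableSet)]
  rfl

theorem World.Lim.of_mem_support (h : w.Lim f Q) (hf : ∀ k, Measurable (f k)) (A : ℕ → Set RZ)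
    (hA : ∀ k, ∀ᵐ r ∂w.law k, r ∈ A k) {y : Y} (hy : y ∈ Q.support) :
    ∃ r : ℕ → RZ, (∀ k, r k ∈ A k) ∧ Tendsto (fun k => f k (r k)) b.U (𝓝 y) := by
  let _ := TopologicalSpace.metrizableSpaceMetric Y
  have ne : ∀ k, (f k '' A k).Nonempty := fun k => Set.Nonempty.image _ (hA k).exists
  have h1 : ∀ k, ∃ r ∈ A k, dist y (f k r) < infDist y (f k '' A k) + b.δ k := fun k => by
    obtain ⟨_, ⟨r, hr, rfl⟩, h2⟩ := (infDist_lt_iff (ne k)).1 (lt_add_of_pos_right _ (b.δ_pos k))
    exact ⟨r, hr, h2⟩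
  choose r hr h2 using h1
  refine ⟨r, hr, Metric.tendsto_nhds.2 fun ε hε => ?_⟩
  have h3 : ∀ᶠ k in (b.U : Filter ℕ), ¬ w.law k (f k ⁻¹' ball y (ε / 2)) ≤ 0 := by
    rw [Ultrafilter.eventually_not]
    exact fun hc => (h.open_le hf isOpen_ball hc).not_gt
      ((Measure.mem_support_iff_forall y).1 hy _ (ball_mem_nhds y (half_pos hε)))
  filter_upwards [h3, b.δ_lim.eventually (gt_mem_nhds (half_pos hε))] with k h4 h5
  obtain ⟨r', h6, h7⟩ := Measure.exists_mem_of_measure_ne_zero_of_ae (fun h0 => h4 h0.le)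
    (ae_restrict_of_ae (hA k))
  have h8 := infDist_le_dist_of_mem (x := y) (mem_image_of_mem (f k) h7)
  have h9 : dist (f k r') y < ε / 2 := h6
  rw [dist_comm] at h9 ⊢
  linarith [h2 k]

theorem World.Lim.supp (h : w.Lim f Q) (hf : ∀ k, Measurable (f k)) (A : ℕ → Set RZ)
    (hA : ∀ k, ∀ᵐ r ∂w.law k, r ∈ A k) :
    ∀ᵐ y ∂Q, ∃ r : ℕ → RZ, (∀ k, r k ∈ A k) ∧ Tendsto (fun k => f k (r k)) b.U (𝓝 y) := by
  filter_upwards [Q.support_mem_ae] with y hy
  exact h.of_mem_support hf A hA hy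

/-- a closed set `C` of full measure all of whose points are limits (the support) -/
theorem World.Lim.supp_closed (h : w.Lim f Q) (hf : ∀ k, Measurable (f k)) :
    ∃ C : Set Y, IsClosed C ∧ Q Cᶜ = 0 ∧
      ∀ y ∈ C, ∃ r : ℕ → RZ, Tendsto (fun k => f k (r k)) b.U (𝓝 y) :=
  ⟨_, Measure.isClosed_support, Measure.measure_compl_support, fun _ hy =>
    (h.of_mem_support hf (fun _ => univ) (fun _ => .of_forall fun _ => trivial) hy).imp
      fun _ hr => hr.2⟩

theorem World.Lim.prod_rho (h : w.Lim f Q) (hf : ∀ k, Measurable (f k))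
    (hρ : ∀ k n (q : Quad n) ρ ρ' S, f k (RZ.mk' q (ρ, S)) = f k (RZ.mk' q (ρ', S))) :
    w.Lim (fun k r => (f k r, r.ρ)) (Q.prod volume) := fun G hG => by
  have mG := G.continuous.measurable
  have hc : Continuous fun y => ∫⁻ ρ : I, G (y, ρ) := continuous_iff_continuousAt.2 fun y =>
    tendsto_lintegral_filter_of_dominated_convergence (fun _ => 1)
      (.of_forall fun _ => mG.comp measurable_prodMk_left) (.of_forall fun _ => .of_forall fun _ =>
        hG _) (by simp) (.of_forall fun ρ => (G.continuous.comp (.prodMk_left ρ)).tendsto y)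
  rw [lintegral_prod _ mG.aemeasurable]
  refine (h ⟨_, hc⟩ fun y => (lintegral_mono fun ρ => hG _).trans (by simp)).congr fun k => ?_
  have m1 : Measurable fun r => ∫⁻ ρ : I, G (f k r, ρ) := hc.measurable.comp (hf k)
  have m2 : Measurable fun r => G (f k r, r.ρ) := mG.comp ((hf k).prodMk measurable_rho)
  simp only [ContinuousMap.coe_mk]
  rw [w.lintegral_law k m1, w.lintegral_law k m2]
  refine lintegral_congr fun s => ?_
  rw [lintegral_lawN' _ m1, lintegral_lawN' _ m2]
  refine tsum_congr fun q => congrArg _ ?_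
  have m3 : Measurable fun p => ∫⁻ ρ : I, G (f k (RZ.mk' q p), ρ) := m1.comp (measurable_mk' q)
  have m4 : Measurable fun p => G (f k (RZ.mk' q p), (RZ.mk' q p).ρ) := m2.comp (measurable_mk' q)
  rw [lintegral_prod_symm' _ m3, lintegral_prod_symm' _ m4]
  refine lintegral_congr fun S => ?_
  simp only [fun ρ => hρ k _ q ρ 0 S, lintegral_const, measure_univ, mul_one]
  rfl

end Lim

/-- the world with level law `ϑ` and the natural sizes -/
theorem exists_world (b : Base) (ϑ : Measure ℝ) [IsProbabilityMeasure ϑ] :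
    ∃ w : World b, w.ϑ = ϑ := by
  refine ⟨⟨ϑ, inferInstance, fun k s => max 1 ⌊9 / 8 * Real.exp (gam * s) / b.δ k ^ 4⌋₊,
    fun k => ?_, fun k s => le_max_left _ _, fun T ε hε => ?_⟩, rfl⟩
  · exact (measurable_from_nat (f := fun n => max 1 n)).comp (Nat.measurable_floor.comp (by fun_prop))
  · have h0 : Tendsto (fun k => b.δ k ^ 4) b.U (𝓝 0) := by simpa using b.δ_lim.pow 4
    filter_upwards [h0.eventually (ge_mem_nhds hε)] with k hk
    refine .of_forall fun s _ => le_trans ?_ hk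
    have h1 : 0 < b.δ k ^ 4 := pow_pos (b.δ_pos k) 4
    set x := 9 / 8 * Real.exp (gam * s) / b.δ k ^ 4 with hx
    have h2 : 0 ≤ x := by positivity
    have h3 : 9 / 8 * Real.exp (gam * s) = b.δ k ^ 4 * x := (mul_div_cancel₀ _ h1.ne').symm
    rw [h3, ← mul_sub, abs_mul, abs_of_pos h1]
    refine mul_le_of_le_one_right h1.le (abs_le.2 ?_)
    have h4 := Nat.floor_le h2
    have h5 := Nat.lt_floor_add_one x
    rw [Nat.cast_max, Nat.cast_one]
    rcases le_total (1 : ℝ) ⌊x⌋₊ with h6 | h6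
    · rw [max_eq_right h6]; constructor <;> linarith
    · rw [max_eq_left h6]; constructor <;> linarith

/-- the world with prescribed sizes -/
theorem exists_fixWorld (b : Base) (n : ℕ → ℕ) (hn : ∀ k, 1 ≤ n k) (c : ℝ)
    (h : Tendsto (fun k => b.δ k ^ 4 * n k) b.U (𝓝 (9 / 8 * Real.exp (gam * c)))) :
    ∃ w : World b, w.ϑ = Measure.dirac c ∧ ∀ k, w.law k = lawN (n k) := by
  refine ⟨⟨Measure.dirac c, inferInstance, fun k _ => n k, fun _ => measurable_const,
    fun k _ => hn k, fun T ε hε => ?_⟩, rfl, fun k =>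
      Measure.dirac_bind (f := fun _ => lawN (n k)) measurable_const c⟩
  filter_upwards [Metric.tendsto_nhds.1 h ε hε] with k hk
  rw [ae_dirac_eq]
  exact fun _ => (Real.dist_eq _ _ ▸ hk).le

theorem del_log {n : ℕ} (hn : 1 ≤ n) : del (Real.log n / gam) = cn n := by
  have h0 : (0 : ℝ) < n := by exact_mod_cast hn
  have h1 : -(gam / 4 * (Real.log n / gam)) = Real.log (n : ℝ)⁻¹ * (1 / 4) := by
    have := gam_pos.ne'
    rw [Real.log_inv]; field_simp
  rw [del, cn, h1, ← Real.rpow_def_of_pos (inv_pos.2 h0), div_eq_mul_inv _ (n : ℝ),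
    Real.mul_rpow (by norm_num) (inv_pos.2 h0).le]

end Pool.Agent.QL.LC
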