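import Pool.Agent.P.MP_7a6434d8_pr.QL.C.Stmts

/-! Measurability of the objects read from the codes. -/

open MeasureTheory ProbabilityTheory Set Filter Topology Metric
open scoped ENNReal unitInterval

namespace Pool.Agent.QL.LC

open Pool.Agent.LGD Pool.Agent.P.MP_7a6434d8_pr Pool.Agent.P.MP_7a6434d8_pr.Mp

/-- Substitution of finitely many discrete random coordinates. -/
theorem meas_dep {Ω ι X Y : Type} [MeasurableSpace Ω] [MeasurableSpace X] [MeasurableSpace Y]
    [Countable X] [MeasurableSingletonClass X] [Nonempty X] {s : Set ι} (hs : s.Finite)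
    {n : Ω → ι → X} (hn : ∀ i, Measurable fun z => n z i) {F : Ω → (ι → X) → Y}
    (hF : ∀ u, Measurable fun z => F z u)
    (hdep : ∀ z u v, (∀ i ∈ s, u i = v i) → F z u = F z v) :
    Measurable fun z => F z (n z) := by
  classical
  have := hs.to_subtype
  let ext : (s → X) → ι → X := fun v i => if h : i ∈ s then v ⟨i, h⟩ else Classical.arbitrary X
  have hG : Measurable fun p : Ω × (s → X) => F p.1 (ext p.2) :=
    measurable_from_prod_countable_left fun v => hF (ext v)
  have h2 : Measurable fun z : Ω => (z, fun i : s => n z i) :=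
    measurable_id.prodMk (measurable_pi_lambda _ fun i => hn i)
  have e : (fun z => F z (n z)) = (fun p : Ω × (s → X) => F p.1 (ext p.2)) ∘
      fun z : Ω => (z, fun i : s => n z i) := by
    funext z
    exact hdep z _ _ fun i hi => by simp only [ext, hi, dif_pos]
  rw [e]
  exact hG.comp h2

theorem meas_iSup_prop {Ω : Type} [MeasurableSpace Ω] {p : Ω → Prop} {f : Ω → ℝ≥0∞}
    (hp : MeasurableSet {z | p z}) (hf : Measurable f) : Measurable fun z => ⨆ _ : p z, f z := by
  classical
  have e : (fun z => ⨆ _ : p z, f z) = fun z => if p z then f z else 0 := by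
    funext z
    by_cases h : p z <;> simp [h]
  rw [e]
  exact Measurable.ite hp hf measurable_const

theorem meas_rtg {Ω T : Type} [MeasurableSpace Ω] [Countable T] {R : Ω → T → T → Prop}
    (hR : ∀ a b, Measurable fun z => R z a b) (a b : T) :
    Measurable fun z => Relation.ReflTransGen (R z) a b := by
  let P : ℕ → Ω → T → Prop := fun n z =>
    Nat.rec (fun c => a = c) (fun _ ih c => ∃ c', ih c' ∧ R z c' c) n
  have h1 : ∀ n c, Measurable fun z => P n z c := by
    intro n
    induction n with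
    | zero => exact fun c => measurable_const
    | succ n ih => exact fun c => Measurable.exists fun c' => (ih c').and (hR c' c)
  have e : (fun z => Relation.ReflTransGen (R z) a b) = fun z => ∃ n, P n z b := by
    funext z
    refine propext ⟨fun h => ?_, ?_⟩
    · induction h with
      | refl => exact ⟨0, rfl⟩
      | tail _ h ih =>
        obtain ⟨n, hn⟩ := ih
        exact ⟨n + 1, _, hn, h⟩
    · rintro ⟨n, hn⟩
      induction n generalizing b with
      | zero =>
        obtain rfl : a = b := hn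
        exact Relation.ReflTransGen.refl
      | succ n ih =>
        obtain ⟨c, h2, h3⟩ := hn
        exact (ih c h2).tail h3
  rw [e]
  exact Measurable.exists fun n => h1 n b

theorem meas_lt {Ω : Type} [MeasurableSpace Ω] {f g : Ω → ℝ≥0∞} (hf : Measurable f)
    (hg : Measurable g) : Measurable fun z => f z < g z :=
  measurableSet_setOfPred.1 (measurableSet_lt hf hg)

theorem meas_le {Ω : Type} [MeasurableSpace Ω] {f g : Ω → ℝ≥0∞} (hf : Measurable f)
    (hg : Measurable g) : Measurable fun z => f z ≤ g z :=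
  measurableSet_setOfPred.1 (measurableSet_le hf hg)

theorem isClosed_ball_subset (K : Set ℂ) (η : ℝ) : IsClosed {z : ℂ | ball z η ⊆ K} := by
  have e : {z : ℂ | ball z η ⊆ K} = ⋂ y ∈ Kᶜ, (ball y η)ᶜ := by
    ext z
    simp only [mem_ofPred_eq, mem_iInter, mem_compl_iff]
    exact ⟨fun h y hy hz => hy (h (mem_ball_comm.1 hz)),
      fun h y hy => by_contra fun hK => h y hK (mem_ball_comm.1 hy)⟩
  rw [e]
  exact isClosed_biInter fun y _ => isOpen_ball.isClosed_compl

theorem meas_InB {Ω : Type} [MeasurableSpace Ω] {x : Ω → ℕ → ℂ} {𝒟 : Ω → ℕ → ℕ → ℝ≥0∞}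
    (hx : Measurable x) (hD : Measurable 𝒟) (K : Set ℂ) (c : ℕ × ℚ) :
    Measurable fun z => InB (x z) (𝒟 z) K c := by
  refine measurable_const.and (Measurable.exists fun m => Measurable.forall fun a =>
    Measurable.imp (meas_lt (by fun_prop) measurable_const) ?_)
  exact measurableSet_setOfPred.1 ((measurable_pi_iff.1 hx a)
    (isClosed_ball_subset K _).measurableSet)

theorem meas_Ins {Ω : Type} [MeasurableSpace Ω] {x : Ω → ℕ → ℂ} {𝒟 : Ω → ℕ → ℕ → ℝ≥0∞}
    (hx : Measurable x) (hD : Measurable 𝒟) (y : Data) (j : BDat ℚ) :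
    Measurable fun z => Ins (x z) (𝒟 z) y j := by
  refine (Measurable.forall fun c => measurable_const.imp (meas_InB hx hD _ c)).and
    (Measurable.forall fun e => measurable_const.imp ?_)
  have e1 : ∀ z, (∃ e' ∈ y.2, (∀ c ∈ e.1, InB (x z) (𝒟 z) (e'.1 ∩ y.1) c) ∧
      (e.2.1 : ℝ) ≤ e'.2.1 ∧ e'.2.2 ≤ (e.2.2 : ℝ)) = ∃ i : Fin y.2.length,
      (∀ c ∈ e.1, InB (x z) (𝒟 z) ((y.2.get i).1 ∩ y.1) c) ∧
      (e.2.1 : ℝ) ≤ (y.2.get i).2.1 ∧ (y.2.get i).2.2 ≤ (e.2.2 : ℝ) := by
    intro z
    refine propext ⟨?_, fun ⟨i, h⟩ => ⟨_, List.get_mem _ i, h⟩⟩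
    rintro ⟨e', he', h⟩
    obtain ⟨i, rfl⟩ := List.get_of_mem he'
    exact ⟨i, h⟩
  simp only [e1]
  exact Measurable.exists fun i => (Measurable.forall fun c =>
    measurable_const.imp (meas_InB hx hD _ c)).and measurable_const

theorem measurable_sys : Measurable fun z : (ℕ → ℂ) × (ℕ → ℕ → ℝ≥0∞) × EC =>
    sys z.1 z.2.1 z.2.2 := by
  refine Measurable.prodMk (measurable_pi_lambda _ fun i => Measurable.iSup fun j => ?_)
    (measurable_pi_lambda _ fun i => Measurable.iSup fun j => ?_) <;>
  exact meas_iSup_prop (measurableSet_setOfPred.2 (meas_Ins measurable_fst measurable_snd.fst _ j))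
    (by fun_prop)

theorem Setup.measurable_sysOf (S : Setup) : Measurable fun z : S.X × C0 => S.sysOf z.1 z.2 :=
  measurable_sys.comp (f := fun z : S.X × C0 => (z.1.2, z.2.1.2, z.2.2.1)) (by fun_prop)

theorem Setup.measurable_fld (S : Setup) (F : Fr) : Measurable (S.fld F) :=
  measurable_lev.comp (((S.O.kt_meas F).comp measurable_snd).prodMk measurable_fst)

theorem inB_iff {x : ℕ → ℂ} {𝒟 : ℕ → ℕ → ℝ≥0∞} {K : Set ℂ} {c : ℕ × ℚ} :
    InB x 𝒟 K c ↔ 0 < c.2 ∧ ∃ η : ℝ, 0 < η ∧
      ∀ a, 𝒟 c.1 a < ENNReal.ofReal (4 * c.2) → ball (x a) η ⊆ K := by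
  refine and_congr_right fun _ => ⟨fun ⟨m, h⟩ => ⟨_, by positivity, h⟩, fun ⟨η, h0, h⟩ => ?_⟩
  obtain ⟨m, hm⟩ := exists_nat_one_div_lt h0
  exact ⟨m, fun a ha => (ball_subset_ball hm.le).trans (h a ha)⟩

theorem dist_frInv (F : Fr) (u v : ℂ) : dist (F.inv u) (F.inv v) = dist u v / ‖F.a‖ := by
  rw [dist_eq_norm, dist_eq_norm, Fr.inv, unaff, unaff, ← sub_div, norm_div]
  congr 2
  ring

theorem inB_pre (F : Fr) (x : ℕ → ℂ) (𝒟 : ℕ → ℕ → ℝ≥0∞) (K : Set ℂ) (c : ℕ × ℚ) :
    InB x 𝒟 (F.inv ⁻¹' K) c ↔ InB (fun i => F.inv (x i)) 𝒟 K c := by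
  have ha : 0 < ‖F.a‖ := norm_pos_iff.2 F.a_ne
  rw [inB_iff, inB_iff]
  refine and_congr_right fun _ => ⟨fun ⟨η, h0, h⟩ => ⟨η / ‖F.a‖, by positivity, fun a hc y hy => ?_⟩,
    fun ⟨η, h0, h⟩ => ⟨η * ‖F.a‖, by positivity, fun a hc y hy => h a hc ?_⟩⟩
  · rw [← F.inv_map y] at hy ⊢
    rw [mem_ball, dist_frInv, div_lt_div_iff_of_pos_right ha] at hy
    exact h a hc hy
  · rw [mem_ball, dist_frInv, div_lt_iff₀ ha]
    exact hy

theorem ins_pre (F : Fr) (x : ℕ → ℂ) (𝒟 : ℕ → ℕ → ℝ≥0∞) (y : Data) (j : BDat ℚ) :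
    Ins x 𝒟 (y.pre F.inv) j ↔ Ins (fun i => F.inv (x i)) 𝒟 y j := by
  simp only [Ins, Data.pre, List.mem_map, exists_exists_and_eq_and, ← preimage_inter, inB_pre]

theorem pull_sys (F : Fr) (x : ℕ → ℂ) (𝒟 : ℕ → ℕ → ℝ≥0∞) (E : EC) :
    pull F (sys x 𝒟 E) = sys (fun i => F.inv (x i)) 𝒟 E := by
  simp only [pull, sys, ← ins_pre]
  rfl

theorem measurable_rd (c : ℕ × ℚ) : Measurable fun ρ : I => rd ρ c := by
  unfold rd
  fun_prop

theorem measurable_fB (J : List (ℕ × ℚ)) :
    Measurable fun z : (ℕ → ℕ → ℝ≥0∞) × I => fB z.1 J z.2 := by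
  refine measurable_pi_lambda _ fun i => Measurable.iInf fun c => Measurable.iInf fun _ => ?_
  exact Measurable.sub (by fun_prop) ((measurable_rd c).comp measurable_snd)

theorem measurable_cost (a : ℕ) (l : List ℕ) (b : ℕ) :
    Measurable fun z : (ℕ → ℕ → ℝ≥0∞) × (ℕ → ℝ≥0∞) => cost z.1 z.2 a l b := by
  induction l generalizing a with
  | nil => exact measurable_const
  | cons i l ih =>
    simp only [cost]
    exact Measurable.ite (measurableSet_lt (by fun_prop) (by fun_prop))
      (Measurable.add (by fun_prop) (ih i)) measurable_const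

theorem measurable_cd :
    Measurable fun z : (ℕ → ℕ → ℝ≥0∞) × (ℕ → ℝ≥0∞) => cd z.1 z.2 :=
  measurable_pi_lambda _ fun a => measurable_pi_lambda _ fun b =>
    Measurable.iInf fun l => measurable_cost a l b

theorem measurable_cd_fB (J : List (ℕ × ℚ)) :
    Measurable fun z : (ℕ → ℕ → ℝ≥0∞) × I => cd z.1 (fB z.1 J z.2) :=
  measurable_cd.comp (measurable_fst.prodMk (measurable_fB J))

theorem measurableSet_inW (α : Rg) (a : ℕ) :
    MeasurableSet {z : (ℕ → ℕ → ℝ≥0∞) × I | inW z.1 α z.2 a} :=
  measurableSet_lt (measurable_pi_iff.1 (measurable_pi_iff.1 (measurable_cd_fB α.1) α.2) a)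
    measurable_const

theorem measurable_idx (α : Rg) :
    Measurable fun z : (ℕ → ℕ → ℝ≥0∞) × I => idx z.1 α z.2 :=
  measurable_pi_lambda _ fun i => measurable_nth (measurableSet_inW α) i

open Classical in
theorem measurable_count {A : Type} [MeasurableSpace A] {p : A → ℕ → Prop}
    (hp : ∀ a, MeasurableSet {z | p z a}) (M : ℕ) : Measurable fun z => Nat.count (p z) M := by
  induction M with
  | zero => simp only [Nat.count_zero]; exact measurable_const
  | succ M ih =>
    simp only [Nat.count_succ]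
    exact ih.add (Measurable.ite (hp M) measurable_const measurable_const)

theorem measurable_freq {A : Type} [MeasurableSpace A] {p : A → ℕ → Prop}
    (hp : ∀ a, MeasurableSet {z | p z a}) : Measurable fun z => freq (p z) := by
  refine Measurable.limsup fun M => Measurable.div_const ?_ _
  exact (measurable_of_countable fun n : ℕ => (n : ℝ≥0∞)).comp (measurable_count hp M)

theorem measurableSet_EvI (α : Rg) :
    MeasurableSet {z : (ℕ → ℕ → ℝ≥0∞) × I | EvI z.1 α z.2} := by
  refine measurableSet_setOfPred.2 (measurable_const.and (measurable_const.and (Measurable.and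
    (Measurable.forall fun c => measurable_const.imp (Measurable.forall fun c' =>
      measurable_const.imp (meas_rtg (fun a a' => measurable_const.and (Measurable.or
        (meas_lt (by fun_prop) ((measurable_rd a).comp measurable_snd))
        (meas_lt (by fun_prop) ((measurable_rd a').comp measurable_snd)))) c c'))) ?_)))
  exact meas_lt measurable_const (measurable_pi_iff.1 (measurable_fB α.1) α.2)

theorem measurable_idx_at (α : Rg) (i : ℕ) :
    Measurable fun z : (ℕ → ℕ → ℝ≥0∞) × I => idx z.1 α z.2 i :=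
  measurable_pi_iff.1 (measurable_idx α) i

theorem measurable_fB_idx (α : Rg) (i : ℕ) :
    Measurable fun z : (ℕ → ℕ → ℝ≥0∞) × I => fB z.1 α.1 z.2 (idx z.1 α z.2 i) :=
  measurable_at (measurable_fB α.1) (measurable_idx_at α i)

theorem measurable_cd_idx (α : Rg) (i j : ℕ) : Measurable fun z : (ℕ → ℕ → ℝ≥0∞) × I =>
    cd z.1 (fB z.1 α.1 z.2) (idx z.1 α z.2 i) (idx z.1 α z.2 j) :=
  measurable_at (S := fun z : (ℕ → ℕ → ℝ≥0∞) × I => cd z.1 (fB z.1 α.1 z.2) (idx z.1 α z.2 i))
    (measurable_at (measurable_cd_fB α.1) (measurable_idx_at α i)) (measurable_idx_at α j)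

theorem measurable_Gam (α : Rg) : Measurable fun z : GC × I => Gam z.1 α z.2 := by
  have h : Measurable fun z : GC × I => (z.1.2, z.2) := by fun_prop
  have h1 : Measurable fun z : (ℕ → ℕ → ℝ≥0∞) × I => freq (inW z.1 α z.2) :=
    measurable_freq (measurableSet_inW α)
  have h2 := (measurable_pi_lambda _ fun i => measurable_pi_lambda _ fun j =>
    measurable_cd_idx α i j).prodMk (measurable_pi_lambda _ fun i => measurable_fB_idx α i)
  exact (measurable_fst.fst.mul (h1.comp h)).prodMk (h2.comp h)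

theorem measurable_cut (r : ℚ) : Measurable (cut r) := by
  unfold cut
  by_cases h : 0 < r
  · simp only [h, if_true]
    fun_prop
  · simp only [h, if_false]
    exact measurable_const

theorem continuous_squash : Continuous squash :=
  (ENNReal.continuous_sub_left ENNReal.one_ne_top).comp
    (continuous_inv.comp (continuous_const_add 1))

theorem squash_inv (x : ℝ≥0∞) : (1 - squash x)⁻¹ - 1 = x := by
  rw [squash, ENNReal.sub_sub_cancel ENNReal.one_ne_top (ENNReal.inv_le_one.2 le_self_add),
    inv_inv, ENNReal.add_sub_cancel_left ENNReal.one_ne_top]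

theorem meas_list_prod {Ω T : Type} [MeasurableSpace Ω] (l : List T) {f : T → Ω → ℝ≥0∞}
    (hf : ∀ c, Measurable (f c)) : Measurable fun z => (l.map fun c => f c z).prod := by
  induction l with
  | nil => exact measurable_const
  | cons c l ih =>
    simp only [List.map_cons, List.prod_cons]
    exact (hf c).mul ih

theorem mem_balls_left {R : Type} {j : BDat R} {c : ℕ × R} (h : c ∈ j.1) : c ∈ j.balls :=
  List.mem_append_left _ h

theorem mem_balls_right {R : Type} {j : BDat R} {e : List (ℕ × R) × ℚ × ℚ} (he : e ∈ j.2)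
    {c : ℕ × R} (h : c ∈ e.1) : c ∈ j.balls :=
  List.mem_append_right _ (List.mem_flatMap.2 ⟨e, he, h⟩)

theorem bdat_map_congr {R R' : Type} {g g' : ℕ × R → ℕ × R'} {j : BDat R}
    (h : ∀ c ∈ j.balls, g c = g' c) : j.map g = j.map g' :=
  Prod.ext (List.map_congr_left fun c hc => h c (mem_balls_left hc))
    (List.map_congr_left fun _ he => Prod.ext
      (List.map_congr_left fun c hc => h c (mem_balls_right he hc)) rfl)

theorem finite_fst {R : Type} (l : List (ℕ × R)) : (Prod.fst '' {c | c ∈ l}).Finite :=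
  (List.finite_toSet l).image _

theorem measurable_inE (α : Rg) :
    Measurable fun z : GC × EC × I => inE z.1 z.2.1 α z.2.2 := by
  have h : Measurable fun z : GC × EC × I => (z.1.2, z.2.2) := by fun_prop
  refine measurable_pi_lambda _ fun x => Measurable.mul (meas_list_prod _ fun c => ?_) ?_
  · exact (measurable_cut c.2).comp ((measurable_fB_idx α c.1).comp h).ennreal_toReal
  · refine continuous_squash.measurable.comp ?_
    exact meas_dep (finite_fst x.2.balls) (n := fun z : GC × EC × I => idx z.1.2 α z.2.2)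
      (fun i => (measurable_idx_at α i).comp h)
      (F := fun z u => z.2.1 (x.1, x.2.map fun c => (u c.1, c.2))) (fun u => by fun_prop)
      fun z u v huv => by rw [bdat_map_congr fun c hc => by rw [huv c.1 ⟨c, hc, rfl⟩]]

theorem measurable_outE (α : Rg) :
    Measurable fun z : GC × EC × I => outE z.1 z.2.1 α z.2.2 := by
  have h : Measurable fun z : GC × EC × I => (z.1.2, z.2.2) := by fun_prop
  refine measurable_pi_lambda _ fun x => Measurable.ite (measurableSet_setOfPred.2
    (Measurable.forall fun c => measurable_const.imp (measurable_const.and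
      (Measurable.forall fun a => Measurable.imp ?_ ?_)))) (by fun_prop) measurable_const
  · exact measurableSet_setOfPred.1 (h (measurableSet_inW α a))
  · exact meas_le measurable_const (by fun_prop)

theorem measurable_g0 : Measurable g0 := by
  unfold g0
  fun_prop

instance : Countable GIdx := by
  let g : ℕ × ℕ × ℕ × ℚ × ℚ → GIdx := fun p =>
    match p.1 with
    | 0 => .len
    | 1 => .area
    | 2 => .d p.2.1 p.2.2.1
    | 3 => .f p.2.1
    | 4 => .b p.2.1 p.2.2.2.1
    | _ => .e p.2.2.2.1 p.2.2.2.2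
  refine Function.Surjective.countable (f := g) fun c => ?_
  cases c with
  | len => exact ⟨(0, 0, 0, 0, 0), rfl⟩
  | area => exact ⟨(1, 0, 0, 0, 0), rfl⟩
  | d i j => exact ⟨(2, i, j, 0, 0), rfl⟩
  | f i => exact ⟨(3, i, 0, 0, 0), rfl⟩
  | b i x => exact ⟨(4, i, 0, x, 0), rfl⟩
  | e x y => exact ⟨(5, 0, 0, x, y), rfl⟩

theorem measurableSet_dense3 : MeasurableSet {c | Dense3 c} := by
  refine measurableSet_setOfPred.2 (Measurable.and (Measurable.forall fun x => ?_)
    (Measurable.forall fun i => Measurable.forall fun j => Measurable.not ?_))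
  · exact measurableSet_setOfPred.1 (measurableSet_eq_fun
      (Measurable.iInf fun i => measurable_pi_apply _) measurable_const)
  · exact measurableSet_setOfPred.1 (measurableSet_eq_fun (measurable_pi_apply _) measurable_const)

theorem bset_congr (G : GM) {S S' : ℕ → G.X} {l : List (ℕ × ℕ)} (h : ∀ c ∈ l, S c.1 = S' c.1) :
    G.bset S l = G.bset S' l := by
  ext d
  exact exists_congr fun c => and_congr_right fun hc => by rw [h c hc]

theorem ballE_congr (G : GM) {S S' : ℕ → G.X} (pr : Bool) {j : BDat ℕ}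
    (h : ∀ c ∈ j.balls, S c.1 = S' c.1) : G.ballE S pr j = G.ballE S' pr j := by
  unfold GM.ballE
  rw [bset_congr G fun c hc => h c (mem_balls_left hc), List.map_congr_left fun e he => by
    rw [bset_congr G fun c hc => h c (mem_balls_right he hc)]]

theorem measurable_ballE (G : GM) [MeasurableSpace G.X] [Countable G.X]
    [MeasurableSingletonClass G.X] [Nonempty G.X] (pr : Bool) (j : BDat ℕ) :
    Measurable fun S : ℕ → G.X => G.ballE S pr j :=
  meas_dep (finite_fst j.balls) (n := fun S : ℕ → G.X => S) (fun i => measurable_pi_apply i)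
    (F := fun _ u => G.ballE u pr j) (fun _ => measurable_const)
    fun _ _ _ huv => ballE_congr G pr fun c hc => huv c.1 ⟨c, hc, rfl⟩

theorem meas_two {X Y : Type} [MeasurableSpace X] [Countable X] [MeasurableSingletonClass X]
    [MeasurableSpace Y] (f : X → X → Y) (i j : ℕ) : Measurable fun s : ℕ → X => f (s i) (s j) :=
  (measurable_of_countable fun p : X × X => f p.1 p.2).comp
    (f := fun s : ℕ → X => (s i, s j)) ((measurable_pi_apply i).prodMk (measurable_pi_apply j))

theorem measurable_gcode (δ : ℝ) (t : Mp) : Measurable (gcode δ t) := by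
  refine measurable_pi_lambda _ fun c => ?_
  cases c with
  | len => exact measurable_const
  | area => exact measurable_const
  | d i j => exact meas_two (fun x y => ENNReal.ofReal (δ * dW t x y)) i j
  | f i => exact meas_two (fun x _ => ENNReal.ofReal (δ * dB t x)) i i
  | b i x =>
    exact meas_two (fun y _ => ENNReal.ofReal (δ * dW t y (bv t (bpos (per t) x)))) i i
  | e x y => exact measurable_const

theorem measurable_ocode (δ κ : ℝ) (t : Mp) : Measurable (ocode δ κ t) := by
  refine (measurable_gcode δ t).prodMk (measurable_pi_lambda _ fun x =>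
    Measurable.mul (meas_list_prod _ fun c => ?_) (continuous_squash.measurable.comp ?_))
  · exact meas_two (fun p _ => cut c.2 (δ * dB t p)) c.1 c.1
  · exact Measurable.const_mul (@measurable_ballE (gmT t) (instMSV t)
      (inferInstanceAs (Countable (V t))) (inferInstanceAs (MeasurableSingletonClass (V t)))
      (instNonemptyV t) x.1 (x.2.toN δ)) _

theorem VO_congr {n : ℕ} (q : Quad n) {S S' : ℕ → q.Vertex} {J : List (ℕ × ℕ)} {t₀ : ℕ}
    (h : ∀ c ∈ J, S c.1 = S' c.1) (h0 : S t₀ = S' t₀) : VO q S J t₀ = VO q S' J t₀ := by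
  have e : InBall q S J = InBall q S' J := by
    funext x
    exact propext (exists_congr fun c => and_congr_right fun hc => by rw [h c hc])
  rw [VO, VO, e, h0]

theorem measurable_rz' {Y : Type} [MeasurableSpace Y] {f : RZ → Y}
    (h : ∀ n (q : Quad n), Measurable fun p => f (RZ.mk' q p)) : Measurable f :=
  fun _ hs => MeasurableSpace.measurableSet_iInf.2 fun a => h a.1 a.2 hs

/-- a function of the hole data is measurable on realisations -/
theorem measurable_hole {Y : Type} [MeasurableSpace Y] (δ : ℝ) (α : Rg)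
    (G : ∀ (n : ℕ) (q : Quad n), Set q.Vertex → List (ℕ × ℕ) → I × (ℕ → q.Vertex) → Y)
    (hG : ∀ n q A J, Measurable (G n q A J)) :
    Measurable fun r : RZ => G r.n r.q (r.A δ α) (Jd δ r.ρ α.1) (r.ρ, r.S) := by
  refine measurable_rz' fun n q => ?_
  have h1 : ∀ J : List (ℕ × ℕ), Measurable fun z : I × (ℕ → q.Vertex) =>
      G n q (VO q z.2 J α.2) J z := fun J =>
    meas_dep ((finite_fst J).insert α.2) (n := fun z : I × (ℕ → q.Vertex) => z.2)
      (fun i => by fun_prop) (F := fun z u => G n q (VO q u J α.2) J z) (fun u => hG _ _ _ _)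
      fun z u v huv => by
        rw [VO_congr q (fun c hc => huv c.1 (Or.inr ⟨c, hc, rfl⟩)) (huv _ (Or.inl rfl))]
  exact meas_dep (List.finite_toSet α.1)
    (n := fun (z : I × (ℕ → q.Vertex)) (c : ℕ × ℚ) => ⌊(c.2 : ℝ) * (1 + (z.1 : ℝ)) / δ⌋₊)
    (fun c => Measurable.nat_floor (by fun_prop))
    (F := fun z u => G n q (VO q z.2 (α.1.map fun c => (c.1, u c)) α.2)
      (α.1.map fun c => (c.1, u c)) z) (fun u => h1 _)
    fun z u v huv => by rw [List.map_congr_left fun c hc => by rw [huv c hc]]

theorem measurableSet_ev (δ : ℝ) (α : Rg) : MeasurableSet {r : RZ | r.ev δ α} := by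
  refine measurableSet_setOfPred.2 (measurable_hole δ α (fun n q A J z => J ≠ [] ∧
    (∀ c ∈ J, ∀ c' ∈ J, Relation.ReflTransGen (fun a b : ℕ × ℕ => b ∈ J ∧
      (q.graph.dist (z.2 a.1) (z.2 b.1) ≤ a.2 ∨ q.graph.dist (z.2 a.1) (z.2 b.1) ≤ b.2)) c c') ∧
    ∃ d, q.tail d ∈ A ∧ q.head d ∈ A) fun n q A J => ?_)
  refine measurable_const.and (Measurable.and (Measurable.forall fun c => measurable_const.imp
    (Measurable.forall fun c' => measurable_const.imp
      (meas_rtg (fun a b => measurable_const.and ?_) c c'))) measurable_const)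
  exact (measurable_of_countable fun p : q.Vertex × q.Vertex =>
    q.graph.dist p.1 p.2 ≤ a.2 ∨ q.graph.dist p.1 p.2 ≤ b.2).comp
      (f := fun z : I × (ℕ → q.Vertex) => (z.2 a.1, z.2 b.1)) (by fun_prop)

end Pool.Agent.QL.LC
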