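import Pool.Agent.P.MP_7a6434d8_pr.QL.C.DDefs
import Pool.Agent.P.MP_7a6434d8_pr.QL.C.Api
import Pool.Agent.P.MP_7a6434d8_pr.QL.C.Meas
import Pool.Agent.P.MP_7a6434d8_pr.QL.M1.Inc

/-! Averages over discs, convergence to the limit law, cyclic boundary positions. -/

open MeasureTheory ProbabilityTheory Set Filter Topology
open scoped ENNReal NNReal BoundedContinuousFunction

namespace Pool.Agent.QL.LC

open Pool.Agent.P.MP_7a6434d8_pr Pool.Agent.P.MP_7a6434d8_pr.Mp Pool.Agent.QL.M1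

/-! ### averages -/

theorem db_nonempty : ∀ (m L : ℕ), 1 ≤ L → (countaT L m).Nonempty
  | 0, L, _ => by
    have h : ∀ L : ℕ, ∃ t, ok t ∧ per t = L ∧ size t = 0 := fun L => by
      induction L with
      | zero => exact ⟨pt, trivial, rfl, rfl⟩
      | succ L ih =>
        obtain ⟨t, h1, h2, h3⟩ := ih
        exact ⟨bridge t pt, ⟨h1, trivial⟩, by simp [per, h2], by simp [size, h3]⟩
    obtain ⟨t, ht⟩ := h L
    exact ⟨t, (counta_mem _ _ _).2 ht⟩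
  | m + 1, L, hL => by
    obtain ⟨t, ht⟩ := db_nonempty m (L + 1) (by omega)
    obtain ⟨h1, h2, h3⟩ := (counta_mem _ _ _).1 ht
    exact ⟨face t, (counta_mem _ _ _).2 ⟨⟨h1, by omega⟩, by simp [per, h2], by simp [size, h3]⟩⟩

theorem db_nonempty_zero : (countaT 0 0).Nonempty :=
  ⟨pt, (counta_mem _ _ _).2 ⟨trivial, rfl, rfl⟩⟩

theorem avs_mono {L m : ℕ} {G G' : (t : Mp) → (ℕ → V t) → ℝ≥0∞}
    (h : ∀ t, ok t → per t = L → size t = m → ∀ s, G t s ≤ G' t s) : AVS L m G ≤ AVS L m G' := by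
  refine ENNReal.div_le_div_right (Finset.sum_le_sum fun t ht => lintegral_mono fun s => ?_) _
  have := (counta_mem L m t).1 ht
  exact h t this.1 this.2.1 this.2.2 s

theorem avs_const (L m : ℕ) (F : Mp → ℝ≥0∞) : AVS L m (fun t _ => F t) = AV L m F := by
  unfold AVS
  simp

theorem avs_zero (L m : ℕ) : AVS L m (fun _ _ => 0) = 0 := by
  simp [AVS, AV]

theorem av_one_le (L m : ℕ) (c : ℝ≥0∞) : AV L m (fun _ => c) ≤ c := by
  unfold AV
  rw [Finset.sum_const, nsmul_eq_mul]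
  exact ENNReal.div_le_of_le_mul (mul_comm _ _).le

theorem avs_add (L m : ℕ) (F : Mp → ℝ≥0∞) (G : (t : Mp) → (ℕ → V t) → ℝ≥0∞) :
    AVS L m (fun t s => F t + G t s) = AV L m F + AVS L m G := by
  unfold AVS AV
  rw [← ENNReal.add_div, ← Finset.sum_add_distrib]
  congr 1
  refine Finset.sum_congr rfl fun t _ => ?_
  show ∫⁻ s, F t + G t s ∂smpl (V t) = _
  rw [lintegral_add_left measurable_const]
  simp

/-! ### sizes along the base -/

theorem db_floor {ι : Type} {l : Filter ι} {e : ι → ℝ} (he : ∀ k, 0 < e k)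
    (h0 : Tendsto e l (𝓝 0)) {x : ℝ} (hx : 0 ≤ x) :
    Tendsto (fun k => e k * (⌊x / e k⌋₊ : ℝ)) l (𝓝 x) := by
  have h1 : Tendsto (fun k => x - e k) l (𝓝 x) := by simpa using h0.const_sub x
  refine tendsto_of_tendsto_of_tendsto_of_le_of_le h1 tendsto_const_nhds (fun k => ?_) fun k => ?_
  · have h2 := Nat.lt_floor_add_one (x / e k)
    rw [div_lt_iff₀ (he k)] at h2
    show x - e k ≤ e k * _
    nlinarith
  · have h2 := Nat.floor_le (div_nonneg hx (he k).le)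
    rw [le_div_iff₀ (he k)] at h2
    show e k * _ ≤ x
    nlinarith

/-- half-perimeter at step `k` -/
noncomputable def Base.fL (b : Base) (p : ℝ × ℝ) (k : ℕ) : ℕ := ⌊p.1 / b.δ k ^ 2⌋₊

/-- size at step `k` -/
noncomputable def Base.fM (b : Base) (p : ℝ × ℝ) (k : ℕ) : ℕ := ⌊p.2 / b.δ k ^ 4⌋₊

namespace Base

variable (b : Base) {p : ℝ × ℝ}

theorem pow_lim {n : ℕ} (hn : n ≠ 0) : Tendsto (fun k => b.δ k ^ n) b.U (𝓝 0) := by
  simpa [hn] using b.δ_lim.pow n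

theorem fL_lim (h : 0 < p.1) : Tendsto (fun k => b.δ k ^ 2 * (b.fL p k : ℝ)) b.U (𝓝 p.1) :=
  db_floor (fun k => pow_pos (b.δ_pos k) 2) (b.pow_lim two_ne_zero) h.le

theorem fM_lim (h : 0 < p.2) : Tendsto (fun k => b.δ k ^ 4 * (b.fM p k : ℝ)) b.U (𝓝 p.2) :=
  db_floor (fun k => pow_pos (b.δ_pos k) 4) (b.pow_lim four_ne_zero) h.le

theorem fL_top (h : 0 < p.1) : Tendsto (b.fL p) b.U atTop := by
  refine tendsto_nat_floor_atTop.comp ?_
  have h1 : Tendsto (fun k => b.δ k ^ 2) b.U (𝓝[>] 0) :=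
    tendsto_nhdsWithin_iff.2 ⟨b.pow_lim two_ne_zero, .of_forall fun k => pow_pos (b.δ_pos k) 2⟩
  simpa [div_eq_mul_inv] using (tendsto_inv_nhdsGT_zero.comp h1).const_mul_atTop h

theorem box {L m : ℕ → ℕ}
    (hL : Tendsto (fun k => b.δ k ^ 2 * (L k : ℝ)) b.U (𝓝 p.1))
    (hm : Tendsto (fun k => b.δ k ^ 4 * (m k : ℝ)) b.U (𝓝 p.2)) {B : ℝ} (k1 : 1 / B < p.1)
    (k2 : p.1 < B) (k3 : 1 / B < p.2) (k4 : p.2 < B) :
    ∀ᶠ k in (b.U : Filter ℕ), MBox B (b.δ k) (L k) (m k) := by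
  filter_upwards [hL.eventually (Icc_mem_nhds k1 k2), hm.eventually (Icc_mem_nhds k3 k4)]
    with k a1 a2
  exact ⟨a1.1, a1.2, a2.1, a2.2⟩

theorem exists_B (h1 : 0 < p.1) (h2 : 0 < p.2) :
    ∃ B : ℝ, 0 < B ∧ 1 / B < p.1 ∧ p.1 < B ∧ 1 / B < p.2 ∧ p.2 < B := by
  have a1 : 0 < 1 / p.1 := by positivity
  have a2 : 0 < 1 / p.2 := by positivity
  refine ⟨p.1 + p.2 + 1 / p.1 + 1 / p.2, by positivity, ?_, by linarith, ?_, by linarith⟩
  · exact (one_div_lt (by positivity) h1).2 (by linarith)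
  · exact (one_div_lt (by positivity) h2).2 (by linarith)

theorem exists_box (h1 : 0 < p.1) (h2 : 0 < p.2) :
    ∃ B : ℝ, 0 < B ∧ ∀ᶠ k in (b.U : Filter ℕ), MBox B (b.δ k) (b.fL p k) (b.fM p k) := by
  obtain ⟨B, h0, k1, k2, k3, k4⟩ := exists_B h1 h2
  exact ⟨B, h0, b.box (b.fL_lim h1) (b.fM_lim h2) k1 k2 k3 k4⟩

end Base

theorem db_close {ι : Type} {l : Filter ι} {x y : ι → ℝ≥0∞} {a : ℝ≥0∞} (ha : a ≠ ⊤)
    (hy : Tendsto y l (𝓝 a)) (h : ∀ η > 0, ∀ᶠ k in l, x k ≤ y k + η ∧ y k ≤ x k + η) :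
    Tendsto x l (𝓝 a) := by
  refine (ENNReal.tendsto_nhds ha).2 fun ε hε => ?_
  have h2 : 0 < ε / 2 := ENNReal.half_pos hε.ne'
  filter_upwards [h _ h2, (ENNReal.tendsto_nhds ha).1 hy _ h2] with k k1 k2
  refine ⟨tsub_le_iff_right.2 ?_, ?_⟩
  · calc a ≤ y k + ε / 2 := tsub_le_iff_right.1 k2.1
      _ ≤ x k + ε / 2 + ε / 2 := by gcongr; exact k1.2
      _ = x k + ε := by rw [add_assoc, ENNReal.add_halves]
  · calc x k ≤ y k + ε / 2 := k1.1
      _ ≤ a + ε / 2 + ε / 2 := by gcongr; exact k2.2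
      _ = a + ε := by rw [add_assoc, ENNReal.add_halves]

theorem db_lint_le {Y : Type} [MeasurableSpace Y] (μ : Measure Y) [IsProbabilityMeasure μ]
    {G : Y → ℝ≥0∞} (hG : ∀ c, G c ≤ 1) : ∫⁻ c, G c ∂μ ≤ 1 :=
  (lintegral_mono hG).trans (by simp)

namespace DiscLim

variable {b : Base} (D : DiscLim b) {p : ℝ × ℝ}

instance (p : ℝ × ℝ) : IsProbabilityMeasure (D.Λ p) := D.markov.1 p

theorem tendsto (h1 : 0 < p.1) (h2 : 0 < p.2) (G : C(OCode, ℝ≥0∞)) (hG : ∀ c, G c ≤ 1) :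
    Tendsto (fun k => AVS (b.fL p k) (b.fM p k) fun t s => G (ocode (b.δ k) (b.κ k) t s)) b.U
      (𝓝 (∫⁻ c, G c ∂D.Λ p)) := by
  obtain ⟨B, -, hB⟩ := b.exists_box h1 h2
  have ho : Ioi (0 : ℝ) ×ˢ Ioi (0 : ℝ) ∈ 𝓝 p := (isOpen_Ioi.prod isOpen_Ioi).mem_nhds ⟨h1, h2⟩
  have h3 := ((D.cont G hG).continuousAt ho).tendsto.comp
    ((b.fL_lim h1).prodMk_nhds (b.fM_lim h2))
  refine db_close (ne_top_of_le_ne_top ENNReal.one_ne_top (db_lint_le _ hG)) h3 fun η hη => ?_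
  filter_upwards [D.lim G B η hG hη, hB] with k k1 k2
  exact k1 _ _ k2

/-- Portmanteau inequality for open sets. -/
theorem open_le (h1 : 0 < p.1) (h2 : 0 < p.2) {O : Set OCode} (hO : IsOpen O) {η : ℝ≥0∞}
    (h : ∀ᶠ k in (b.U : Filter ℕ), ∃ E : (t : Mp) → (ℕ → V t) → ℝ≥0∞,
      AVS (b.fL p k) (b.fM p k) E ≤ η ∧ ∀ t, ok t → per t = b.fL p k → size t = b.fM p k →
        ∀ s, ocode (b.δ k) (b.κ k) t s ∈ O → 1 ≤ E t s) : D.Λ p O ≤ η := by
  have hF : IsClosed Oᶜ := hO.isClosed_compl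
  have h3 : ∀ n, 1 ≤ ∫⁻ c, hF.apprSeq n c ∂D.Λ p + η := fun n => by
    have hc : Continuous fun c => (hF.apprSeq n c : ℝ≥0∞) :=
      ENNReal.continuous_coe.comp (hF.apprSeq n).continuous
    let G : C(OCode, ℝ≥0∞) := ⟨fun c => 1 - hF.apprSeq n c,
      (ENNReal.continuous_sub_left ENNReal.one_ne_top).comp hc⟩
    have h4 : ∫⁻ c, G c ∂D.Λ p ≤ η := by
      refine le_of_tendsto (D.tendsto h1 h2 G fun _ => tsub_le_self) ?_
      filter_upwards [h] with k ⟨E, k1, k2⟩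
      refine (avs_mono fun t a1 a2 a3 s => ?_).trans k1
      by_cases hs : ocode (b.δ k) (b.κ k) t s ∈ O
      · exact tsub_le_self.trans (k2 t a1 a2 a3 s hs)
      · show (1 : ℝ≥0∞) - (hF.apprSeq n _ : ℝ≥0∞) ≤ _
        rw [HasOuterApproxClosed.apprSeq_apply_eq_one hF n hs]
        simp
    calc (1 : ℝ≥0∞) = ∫⁻ _, 1 ∂D.Λ p := by simp
      _ ≤ ∫⁻ c, (hF.apprSeq n c + G c) ∂D.Λ p := lintegral_mono fun c => le_add_tsub
      _ = _ := lintegral_add_left hc.measurable _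
      _ ≤ _ := by gcongr
  have h5 := ge_of_tendsto' ((HasOuterApproxClosed.tendsto_lintegral_apprSeq hF (D.Λ p)).add_const
    η) h3
  rw [← compl_compl O, prob_compl_eq_one_sub hF.measurableSet]
  exact tsub_le_iff_left.2 h5

/-- A closed condition that holds for all large discs holds in the limit. -/
theorem ae_closed (h1 : 0 < p.1) (h2 : 0 < p.2) {F : Set OCode} (hF : IsClosed F)
    (h : ∀ᶠ k in (b.U : Filter ℕ), ∀ t, ok t → per t = b.fL p k → size t = b.fM p k →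
      ∀ s, ocode (b.δ k) (b.κ k) t s ∈ F) : ∀ᵐ c ∂D.Λ p, c ∈ F := by
  refine nonpos_iff_eq_zero.1 (D.open_le h1 h2 hF.isOpen_compl ?_)
  filter_upwards [h] with k hk
  exact ⟨fun _ _ => 0, (avs_zero _ _).le, fun t a1 a2 a3 s hs => absurd (hk t a1 a2 a3 s) hs⟩

/-- A union of closed conditions of arbitrarily large probability holds in the limit. -/
theorem ae_exists (h1 : 0 < p.1) (h2 : 0 < p.2) {ι : Type} {F : ι → Set OCode}
    (hF : ∀ i, IsClosed (F i))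
    (h : ∀ η : ℝ≥0∞, 0 < η → ∃ i, ∀ᶠ k in (b.U : Filter ℕ), ∃ E : Mp → ℝ≥0∞,
      AV (b.fL p k) (b.fM p k) E ≤ η ∧ ∀ t, ok t → per t = b.fL p k → size t = b.fM p k →
        E t < 1 → ∀ s, ocode (b.δ k) (b.κ k) t s ∈ F i) : ∀ᵐ c ∂D.Λ p, ∃ i, c ∈ F i := by
  refine nonpos_iff_eq_zero.1 (le_of_forall_gt_imp_ge_of_dense fun η hη => ?_)
  obtain ⟨i, hi⟩ := h η hη
  refine le_trans (measure_mono fun c hc hi => hc ⟨i, hi⟩)
    (D.open_le h1 h2 (hF i).isOpen_compl ?_)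
  filter_upwards [hi] with k ⟨E, k1, k2⟩
  exact ⟨fun t _ => E t, (avs_const _ _ _).le.trans k1,
    fun t a1 a2 a3 s hs => not_lt.1 fun h => hs (k2 t a1 a2 a3 h s)⟩

end DiscLim

/-! ### cyclic positions -/

/-- boundary vertex at an integer position -/
def bz (t : Mp) (z : ℤ) : V t := bv t (z % (2 * per t : ℕ)).toNat

theorem bpos_eq {L : ℕ} (hL : 1 ≤ L) (x : ℚ) :
    bpos L x = (⌊2 * (L : ℚ) * x⌋ % (2 * L : ℕ)).toNat := by
  have h0 : (0 : ℚ) < 2 * L := by positivity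
  have h1 : 0 ≤ 2 * (L : ℚ) * Int.fract x := mul_nonneg h0.le (Int.fract_nonneg x)
  have h2 : 2 * (L : ℚ) * Int.fract x < ((2 * L : ℕ) : ℤ) := by
    have := Int.fract_lt_one x
    push_cast
    nlinarith
  have h3 : 2 * (L : ℚ) * x = 2 * (L : ℚ) * Int.fract x + (((2 * L : ℕ) : ℤ) * ⌊x⌋ : ℤ) := by
    rw [Int.fract]
    push_cast
    ring
  rw [h3, Int.floor_add_intCast, Int.add_mul_emod_self_left,
    Int.emod_eq_of_lt (Int.floor_nonneg.2 h1) (Int.floor_lt.2 h2), bpos, Int.floor_toNat]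

theorem bv_bpos {t : Mp} (hL : 1 ≤ per t) (x : ℚ) :
    bv t (bpos (per t) x) = bz t ⌊2 * (per t : ℚ) * x⌋ := by
  rw [bpos_eq hL, bz]

theorem bz_nat {t : Mp} (ht : ok t) {p : ℕ} (hp : p ≤ 2 * per t) : bz t p = bv t p := by
  unfold bz
  rcases hp.lt_or_eq with h | h
  · rw [Int.emod_eq_of_lt (by positivity) (by exact_mod_cast h), Int.toNat_natCast]
  · rw [h, Int.emod_self, bv_end t ht]
    rfl

theorem bz_add (t : Mp) (z j : ℤ) : bz t (z + 2 * per t * j) = bz t z := by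
  unfold bz
  push_cast
  rw [Int.add_mul_emod_self_left]

theorem bz_red {t : Mp} (hL : 1 ≤ per t) (z : ℤ) :
    ∃ (p : ℕ) (j : ℤ), p < 2 * per t ∧ z = p + 2 * per t * j := by
  have h0 : (0 : ℤ) < 2 * per t := by positivity
  have h1 := Int.emod_nonneg z h0.ne'
  have h2 := Int.emod_lt_of_pos z h0
  refine ⟨(z % (2 * per t)).toNat, z / (2 * per t), by omega, ?_⟩
  rw [Int.toNat_of_nonneg h1]
  exact (Int.emod_add_mul_ediv _ _).symm

theorem dW_bz_succ {t : Mp} (ht : ok t) (hL : 1 ≤ per t) (z : ℤ) :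
    dW t (bz t z) (bz t (z + 1)) ≤ 1 := by
  obtain ⟨p, j, hp, rfl⟩ := bz_red hL z
  rw [add_right_comm, bz_add, bz_add, bz_nat ht hp.le, ← Nat.cast_succ, bz_nat ht hp]
  have h := (dW_spec ht (bv t p)).1 _ _ (adj_bv t ht p hp)
  rw [dW_self] at h
  show dW t (bv t p) (bv t (p + 1)) ≤ 1
  omega

theorem dW_bz_near {t : Mp} (ht : ok t) (hL : 1 ≤ per t) {z z' : ℤ} (h1 : z ≤ z' + 1)
    (h2 : z' ≤ z + 1) : dW t (bz t z) (bz t z') ≤ 1 := by
  rcases (by omega : z' = z ∨ z' = z + 1 ∨ z = z' + 1) with h | h | h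
  · rw [h, dW_self]; omega
  · rw [h]; exact dW_bz_succ ht hL z
  · rw [h, dW_comm ht]; exact dW_bz_succ ht hL z'

theorem gcode_b (δ : ℝ) {t : Mp} (hL : 1 ≤ per t) (s : ℕ → V t) (i : ℕ) (x : ℚ) :
    gcode δ t s (.b i x) = ENNReal.ofReal (δ * dW t (s i) (bz t ⌊2 * (per t : ℚ) * x⌋)) := by
  rw [← bv_bpos hL]; rfl

theorem gcode_e (δ : ℝ) {t : Mp} (hL : 1 ≤ per t) (s : ℕ → V t) (x y : ℚ) :
    gcode δ t s (.e x y) = ENNReal.ofReal
      (δ * dW t (bz t ⌊2 * (per t : ℚ) * x⌋) (bz t ⌊2 * (per t : ℚ) * y⌋)) := by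
  rw [← bv_bpos hL, ← bv_bpos hL]; rfl

theorem db_ofReal {δ : ℝ} (hδ : 0 ≤ δ) {a b c : ℕ} (h : a ≤ b + c) :
    ENNReal.ofReal (δ * a) ≤ ENNReal.ofReal (δ * b) + ENNReal.ofReal (δ * c) := by
  rw [← ENNReal.ofReal_add (by positivity) (by positivity), ← mul_add]
  exact ENNReal.ofReal_le_ofReal (mul_le_mul_of_nonneg_left (by exact_mod_cast h) hδ)

end Pool.Agent.QL.LC
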