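import Pool.Agent.P.MP_7a6434d8_pr.QL.C.DGood

/-! The quadratic variation of the limit of the distances to the boundary. -/

open MeasureTheory ProbabilityTheory Set Filter Topology
open scoped ENNReal NNReal

namespace Pool.Agent.QL.LC

open Pool.Agent.P.MP_7a6434d8_pr Pool.Agent.P.MP_7a6434d8_pr.Mp Pool.Agent.QL.M1

/-- `N` consecutive intervals in `[0, W]`, each containing a pair related by `R`. -/
def ChR (R : ℕ → ℕ → Prop) (N W : ℕ) : Prop :=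
  ∃ s : ℕ → ℕ, Monotone s ∧ s N ≤ W ∧ ∀ i < N, ∃ x y, s i ≤ x ∧ x ≤ s (i + 1) ∧ s i ≤ y ∧
    y ≤ s (i + 1) ∧ R x y

theorem ChR.map {R R' : ℕ → ℕ → Prop} {N W W' : ℕ} (h : ChR R N W) {g : ℕ → ℕ} (hg : Monotone g)
    (hW : g W ≤ W') (hR : ∀ x ≤ W, ∀ y ≤ W, R x y → R' (g x) (g y)) : ChR R' N W' := by
  obtain ⟨s, h1, h2, h3⟩ := h
  refine ⟨g ∘ s, hg.comp h1, (hg h2).trans hW, fun i hi => ?_⟩
  obtain ⟨x, y, a1, a2, a3, a4, a5⟩ := h3 i hi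
  have h4 : s (i + 1) ≤ W := (h1 hi).trans h2
  exact ⟨g x, g y, hg a1, hg a2, hg a3, hg a4, hR x (a2.trans h4) y (a4.trans h4) a5⟩

theorem ChR.of_le {R : ℕ → ℕ → Prop} {N N' W : ℕ} (h : ChR R N W) (hN : N' ≤ N) : ChR R N' W := by
  obtain ⟨s, h1, h2, h3⟩ := h
  exact ⟨s, h1, (h1 hN).trans h2, fun i hi => h3 i (hi.trans_le hN)⟩

theorem isClosed_chR {X : Type} [TopologicalSpace X] {R : X → ℕ → ℕ → Prop}
    (hR : ∀ x y, IsClosed {c | R c x y}) (N W : ℕ) : IsClosed {c | ChR (R c) N W} := by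
  refine isOpen_compl_iff.1 (isOpen_iff_mem_nhds.2 fun c₀ h₀ => ?_)
  have h : ∀ᶠ c in 𝓝 c₀, ∀ x ∈ Iic W, ∀ y ∈ Iic W, R c x y → R c₀ x y := by
    refine (eventually_all_finite (finite_Iic W)).2 fun x _ =>
      (eventually_all_finite (finite_Iic W)).2 fun y _ => ?_
    by_cases k : R c₀ x y
    · exact .of_forall fun _ _ => k
    · filter_upwards [(hR x y).isOpen_compl.mem_nhds k] with c hc h' using absurd h' hc
  filter_upwards [h] with c hc h'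
  exact h₀ (ChR.map h' monotone_id le_rfl hc)

theorem le_NR {l : ℕ → ℕ} {h : ℕ} (hh : 1 ≤ h) (N W : ℕ) :
    N ≤ NR l h 0 W ↔ ChR (fun x y => l x + h ≤ l y) N W := by
  have e : NR l h 0 W = sSup {N | ChR (fun x y => l x + h ≤ l y) N W} := by
    simp only [NR, ChR, Nat.zero_le, true_and]
  have hb : BddAbove {N | ChR (fun x y => l x + h ≤ l y) N W} := by
    refine ⟨W, fun N ⟨s, h1, h2, h3⟩ => le_trans ?_ h2⟩
    have : ∀ i ≤ N, i ≤ s i := fun i hi => by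
      induction i with
      | zero => exact Nat.zero_le _
      | succ i ih =>
        obtain ⟨x, y, a1, a2, a3, a4, a5⟩ := h3 i hi
        have := ih (by omega)
        have : x ≠ y := fun k => by subst k; omega
        omega
    exact this N le_rfl
  rw [e]
  have h0 : ChR (fun x y => l x + h ≤ l y) 0 W :=
    ⟨fun _ => 0, monotone_const, Nat.zero_le _, fun i hi => absurd hi (Nat.not_lt_zero i)⟩
  exact ⟨fun k => ChR.of_le (Nat.sSup_mem ⟨0, h0⟩ hb) k, fun k => le_csSup hb k⟩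

theorem Ch.shift {β : ℚ → ℝ≥0∞} {N : ℕ} {h : ℝ≥0∞} {x y : ℚ} (r : ℚ)
    (k : Ch (fun u => β (u + r)) N h x y) : Ch β N h (x + r) (y + r) := by
  obtain ⟨s, h1, h2, h3, h4⟩ := k
  refine ⟨fun i => s i + r, h1.add_const r, by simpa, by simpa, fun i hi => ?_⟩
  obtain ⟨u, v, a1, a2, a3, a4, a5⟩ := h4 i hi
  exact ⟨u + r, v + r, by simpa, by simpa, by simpa, by simpa, a5⟩

theorem Clock.shift {β : ℚ → ℝ≥0∞} {ℓ : ℝ} {x y : ℚ}
    (k : Clock (fun u => β (u + x)) ℓ 0 (y - x)) : Clock β ℓ x y := fun q => by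
  have e : ((y - x : ℚ) : ℝ) - (0 : ℚ) = y - x := by simp
  have := k q
  rw [e] at this
  refine ⟨fun h => (this.1 h).mono fun n hn hc => hn ?_, fun h => (this.2 h).mono fun n hn => ?_⟩
  · have := Ch.shift (β := fun u => β (u + x)) (-x) (by simpa using hc)
    simpa [sub_eq_add_neg] using this
  · simpa using hn.shift x

theorem dc_bc {Y : Type} [MeasurableSpace Y] {μ : Measure Y} {S : ℕ → Set Y} {A : ℝ}
    (h : ∀ᶠ n in atTop, μ (S n) ≤ ENNReal.ofReal (A * ((1 / 2) ^ n) ^ 2)) :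
    ∀ᵐ c ∂μ, ∀ᶠ n in atTop, c ∉ S n := by
  obtain ⟨n₀, h0⟩ := eventually_atTop.1 h
  have h1 : Summable fun n : ℕ => A * ((1 / 2 : ℝ) ^ n) ^ 2 := by
    refine ((summable_geometric_of_lt_one (r := (1 / 2 : ℝ) ^ 2) (by norm_num)
      (by norm_num)).mul_left A).congr fun n => ?_
    rw [← pow_mul, ← pow_mul, mul_comm 2 n]
  have h2 := ae_eventually_notMem (μ := μ) (s := fun n => if n₀ ≤ n then S n else ∅)
    (ne_top_of_le_ne_top h1.tsum_ofReal_ne_top (ENNReal.tsum_le_tsum fun n => by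
      split_ifs with k
      exacts [h0 n k, by simp]))
  filter_upwards [h2] with c hc
  filter_upwards [hc, eventually_ge_atTop n₀] with n a1 a2
  rwa [if_pos a2] at a1

theorem dc_pow (n : ℕ) : (2⁻¹ : ℝ≥0∞) ^ n = ENNReal.ofReal ((1 / 2) ^ n) := by
  rw [ENNReal.ofReal_pow (by norm_num), one_div, ENNReal.ofReal_inv_of_pos two_pos,
    ENNReal.ofReal_ofNat]

theorem dc_ceil (q : ℚ) (n : ℕ) : (q : ℝ) ≤ ⌈q * 4 ^ n⌉₊ * ((1 / 2) ^ n) ^ 2 ∧
    (0 ≤ q → (⌈q * 4 ^ n⌉₊ : ℝ) * ((1 / 2) ^ n) ^ 2 ≤ q + ((1 / 2) ^ n) ^ 2) := by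
  have e : (4 : ℝ) ^ n * ((1 / 2) ^ n) ^ 2 = 1 := by
    rw [← pow_mul, mul_comm n 2, pow_mul, ← mul_pow]
    norm_num
  have h0 : (0 : ℝ) ≤ ((1 / 2) ^ n) ^ 2 := by positivity
  have h1 := (Rat.cast_le (K := ℝ)).2 (Nat.le_ceil (q * 4 ^ n))
  push_cast at h1
  have e' : (q : ℝ) * 4 ^ n * ((1 / 2) ^ n) ^ 2 = q := by rw [mul_assoc, e, mul_one]
  refine ⟨by linarith [mul_le_mul_of_nonneg_right h1 h0], fun hq => ?_⟩
  have h2 := (Rat.cast_le (K := ℝ)).2 (Nat.ceil_lt_add_one (a := q * 4 ^ n) (by positivity)).le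
  push_cast at h2
  linarith [mul_le_mul_of_nonneg_right h2 h0]

theorem bpos_of {L : ℕ} {x : ℚ} (h0 : 0 ≤ x) (h1 : x < 1) : bpos L x = ⌊2 * (L : ℚ) * x⌋₊ := by
  rw [bpos, Int.fract_eq_self.2 ⟨h0, h1⟩]

theorem dc_small {c : ℝ} (hc : 0 < c) (A : ℝ) :
    ∀ᶠ n : ℕ in atTop, A * ((1 / 2) ^ n) ^ 2 < c := by
  have h := ((tendsto_pow_atTop_nhds_zero_of_lt_one (r := (1 / 2 : ℝ)) (by norm_num)
    (by norm_num)).pow 2).const_mul A
  exact h.eventually (gt_mem_nhds (by simpa))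

namespace Base

variable (b : Base) {p : ℝ × ℝ}

theorem pos_lim (h1 : 0 < p.1) {y : ℚ} (hy : 0 ≤ y) :
    Tendsto (fun k => b.δ k ^ 2 * (⌊2 * (b.fL p k : ℚ) * y⌋₊ : ℝ)) b.U (𝓝 (2 * p.1 * y)) := by
  have a1 : Tendsto (fun k => 2 * (b.δ k ^ 2 * (b.fL p k : ℝ)) * y) b.U (𝓝 (2 * p.1 * y)) :=
    ((b.fL_lim h1).const_mul 2).mul_const _
  have a2 := a1.sub (b.pow_lim two_ne_zero)
  rw [sub_zero] at a2
  refine tendsto_of_tendsto_of_tendsto_of_le_of_le a2 a1 (fun k => ?_) fun k => ?_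
  · have h := (Rat.cast_le (K := ℝ)).2 (Nat.lt_floor_add_one (2 * (b.fL p k : ℚ) * y)).le
    push_cast at h
    have := mul_le_mul_of_nonneg_left h (sq_nonneg (b.δ k))
    simp only
    linarith
  · have h := (Rat.cast_le (K := ℝ)).2 (Nat.floor_le (a := 2 * (b.fL p k : ℚ) * y) (by positivity))
    push_cast at h
    have := mul_le_mul_of_nonneg_left h (sq_nonneg (b.δ k))
    simp only
    linarith

/-- the quantities of the discrete estimate and their limits -/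
theorem qv_lim (h1 : 0 < p.1) {y : ℚ} (hy : 0 ≤ y) {C h η : ℝ} (hC : 0 < C) (hh : 0 < h)
    (hη : 0 < η) (N : ℝ) :
    (∀ᶠ k in (b.U : Filter ℕ), 1 ≤ ⌊h / b.δ k⌋₊ ∧ 1 ≤ b.fL p k ∧
      C * (⌊h / b.δ k⌋₊ : ℝ) ^ 2 / (η ^ 2 * b.fL p k) ≤ 2 * C / (η ^ 2 * p.1) * h ^ 2) ∧
    Tendsto (fun k => b.δ k ^ 2 * (η * b.fL p k + C * (⌊h / b.δ k⌋₊ : ℝ) ^ 2)) b.U
      (𝓝 (η * p.1 + C * h ^ 2)) ∧
    Tendsto (fun k => b.δ k ^ 2 * (N * ((⌊h / b.δ k⌋₊ : ℝ) * (⌊h / b.δ k⌋₊ + 1) / 2) -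
      ⌊2 * (b.fL p k : ℚ) * y⌋₊)) b.U (𝓝 (N * (h ^ 2 / 2) - 2 * p.1 * y)) := by
  have a1 := db_floor b.δ_pos b.δ_lim hh.le
  have a2 := b.fL_lim h1
  refine ⟨?_, ?_, ?_⟩
  · have a3 := ((a1.pow 2).const_mul C).div (a2.const_mul (η ^ 2)) (by positivity)
    have a4 : C * h ^ 2 / (η ^ 2 * p.1) < 2 * C / (η ^ 2 * p.1) * h ^ 2 := by
      rw [div_mul_eq_mul_div, div_lt_div_iff_of_pos_right (by positivity)]
      nlinarith [mul_pos hC (pow_pos hh 2)]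
    filter_upwards [a3.eventually (ge_mem_nhds a4), b.δ_lim.eventually (ge_mem_nhds hh),
      (b.fL_top h1).eventually_ge_atTop 1] with k k1 k2 k3
    refine ⟨Nat.le_floor (by rwa [Nat.cast_one, one_le_div (b.δ_pos k)]), k3,
      le_of_eq_of_le ?_ k1⟩
    have := (b.δ_pos k).ne'
    have : (b.fL p k : ℝ) ≠ 0 := Nat.cast_ne_zero.2 (by omega)
    simp only [Pi.div_apply]
    field_simp
  · refine ((a2.const_mul η).add ((a1.pow 2).const_mul C)).congr fun k => by ring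
  · have a3 := (((a1.mul (a1.add b.δ_lim)).div_const 2).const_mul N).sub (b.pos_lim h1 hy)
    rw [add_zero, ← sq] at a3
    exact a3.congr fun k => by ring

end Base

theorem dc_half {L : ℕ} {y : ℚ} (hy : y ≤ 1 / 2) : ⌊2 * (L : ℚ) * y⌋₊ ≤ L := by
  refine Nat.floor_le_of_le ?_
  nlinarith [Nat.cast_nonneg (α := ℚ) L]

namespace DiscLim

variable {b : Base} (D : DiscLim b) {p : ℝ × ℝ} (h1 : 0 < p.1) (h2 : 0 < p.2)

include h1 h2

theorem ae_up (hQ : QVStmt) {y : ℚ} (hy : 0 ≤ y) (hy' : y ≤ 1 / 2) {q : ℚ}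
    (hq : 4 * p.1 * y < q) : ∀ᵐ c ∂D.Λ p, ∀ᶠ n : ℕ in atTop,
      ¬ Ch (fun u => c.1 (.b 0 u)) ⌈q * 4 ^ n⌉₊ (2⁻¹ ^ n) 0 y := by
  classical
  obtain ⟨C, hC, H⟩ := hQ
  obtain ⟨g, hg, eg⟩ : ∃ g : ℝ, 0 < g ∧ q = 4 * p.1 * y + g := ⟨_, sub_pos.2 hq, by ring⟩
  have e0 : 0 < min 1 (g / (8 * p.1)) := lt_min one_pos (by positivity)
  have e1 : min 1 (g / (8 * p.1)) * p.1 ≤ g / 8 := by
    refine (mul_le_mul_of_nonneg_right (min_le_right _ _) h1.le).trans_eq ?_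
    field_simp
  have e2 := min_le_left 1 (g / (8 * p.1))
  generalize min 1 (g / (8 * p.1)) = η at e0 e1 e2
  refine dc_bc (S := fun n => {c : OCode | Ch (fun u => c.1 (.b 0 u)) ⌈q * 4 ^ n⌉₊ (2⁻¹ ^ n) 0 y})
    (A := 2 * C / (η ^ 2 * p.1)) ?_
  filter_upwards [dc_small (show 0 < g / 8 by positivity) C] with n hn
  have a0 := (dc_ceil q n).1
  rw [dc_pow]
  have hh : (0 : ℝ) < (1 / 2) ^ n := by positivity
  generalize ((1 / 2) ^ n : ℝ) = h at *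
  generalize ⌈q * 4 ^ n⌉₊ = N at *
  obtain ⟨a1, a2, a3⟩ := b.qv_lim h1 hy hC hh e0 N
  refine D.open_le h1 h2 ((isOpen_ch _ _ _ _).preimage continuous_fst) ?_
  filter_upwards [a1, a2.eventually_lt a3 (by linarith)] with k ⟨k1, k2, k3⟩ k4
  have k5 := dc_half (L := b.fL p k) hy'
  refine ⟨_, ((H _ _ k2).1 _ 0 _ η k1 (Nat.zero_le _) (k5.trans (by omega))
    (k5.trans (by omega)) e0 e2).trans (ENNReal.ofReal_le_ofReal k3), fun t c1 c2 _ s hs => ?_⟩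
  have hδ := b.δ_pos k
  have k6 : N ≤ NR (fun x => dW t (s 0) (bv t x)) ⌊h / b.δ k⌋₊ 0 ⌊2 * (b.fL p k : ℚ) * y⌋₊ := by
    obtain ⟨ς, d1, d2, d3, d4⟩ := hs
    have m : Monotone fun u : ℚ => ⌊2 * (b.fL p k : ℚ) * u⌋₊ := fun u v huv =>
      Nat.floor_mono (by gcongr)
    refine (le_NR k1 _ _).2 ⟨_, m.comp d1, m d3, fun i hi => ?_⟩
    obtain ⟨u, v, f1, f2, f3, f4, f5⟩ := d4 i hi
    refine ⟨_, _, m f1, m f2, m f3, m f4, ?_⟩
    have g1 : 0 ≤ ς i := d2.trans (d1 (Nat.zero_le i))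
    have g2 : ς (i + 1) < 1 := ((d1 hi).trans (d3.trans hy')).trans_lt (by norm_num)
    simp only [ocode, gcode] at f5
    rw [bpos_of (g1.trans f1) (f2.trans_lt g2), bpos_of (g1.trans f3) (f4.trans_lt g2), c2,
      ← ENNReal.ofReal_add (by positivity) hh.le,
      ENNReal.ofReal_lt_ofReal_iff_of_nonneg (by positivity)] at f5
    have g3 := Nat.floor_le (a := h / b.δ k) (by positivity)
    rw [le_div_iff₀ hδ] at g3
    have g4 : (dW t (s 0) (bv t ⌊2 * (b.fL p k : ℚ) * u⌋₊) : ℝ) + ⌊h / b.δ k⌋₊ ≤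
        dW t (s 0) (bv t ⌊2 * (b.fL p k : ℚ) * v⌋₊) :=
      le_of_mul_le_mul_left (by linarith) hδ
    exact_mod_cast g4
  rw [if_pos]
  refine (lt_of_mul_lt_mul_left k4 (sq_nonneg _)).trans_le (le_trans ?_ (le_abs_self _))
  rw [Nat.cast_zero, sub_zero]
  exact sub_le_sub_right (mul_le_mul_of_nonneg_right (Nat.cast_le.2 k6) (by positivity)) _

theorem ae_lo (hE : E1Stmt) (hQ : QVStmt) {y : ℚ} (hy : 0 ≤ y) (hy' : y ≤ 1 / 2) {q : ℚ}
    (hq : (q : ℝ) < 4 * p.1 * y) : ∀ᵐ c ∂D.Λ p, (∀ u, c.1 (.b 0 u) ≠ ⊤) → ∀ᶠ n : ℕ in atTop,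
      Ch (fun u => c.1 (.b 0 u)) ⌈q * 4 ^ n⌉₊ (2⁻¹ ^ n) 0 y := by
  classical
  rcases le_or_gt q 0 with hq0 | hq0
  · refine .of_forall fun c _ => .of_forall fun n => ?_
    rw [Nat.ceil_eq_zero.2 (mul_nonpos_of_nonpos_of_nonneg hq0 (by positivity))]
    exact ⟨fun _ => 0, monotone_const, le_rfl, hy, fun i hi => absurd hi (Nat.not_lt_zero i)⟩
  have hq1 : (0 : ℝ) < q := by exact_mod_cast hq0
  obtain ⟨C, hC, H⟩ := hQ
  obtain ⟨g, hg, eg⟩ : ∃ g : ℝ, 0 < g ∧ 4 * p.1 * y = q + g := ⟨_, sub_pos.2 hq, by ring⟩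
  have e0 : 0 < min 1 (g / (8 * p.1)) := lt_min one_pos (by positivity)
  have e1 : min 1 (g / (8 * p.1)) * p.1 ≤ g / 8 := by
    refine (mul_le_mul_of_nonneg_right (min_le_right _ _) h1.le).trans_eq ?_
    field_simp
  have e2 := min_le_left 1 (g / (8 * p.1))
  generalize min 1 (g / (8 * p.1)) = η at e0 e1 e2
  have e3 : 0 < min 1 (g / (12 * q)) := lt_min one_pos (by positivity)
  have e4 : min 1 (g / (12 * q)) * q ≤ g / 12 := by
    refine (mul_le_mul_of_nonneg_right (min_le_right _ _) hq1.le).trans_eq ?_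
    field_simp
  have e5 := min_le_left 1 (g / (12 * q))
  generalize min 1 (g / (12 * q)) = γ at e3 e4 e5
  have key := dc_bc (μ := D.Λ p) (S := fun n => {c | (∀ u, c.1 (.b 0 u) ≠ ⊤) ∧
    ¬ Ch (fun u => c.1 (.b 0 u)) ⌈q * 4 ^ n⌉₊ (2⁻¹ ^ n) 0 y})
    (A := 1 + 2 * C / (η ^ 2 * p.1) * (1 + γ) ^ 2) ?_
  · filter_upwards [key] with c hc hf
    exact hc.mono fun n hn => by_contra fun h => hn ⟨hf, h⟩
  filter_upwards [dc_small (show 0 < g / 4 by positivity) (2 + 4 * C)] with n hn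
  have a0 := (dc_ceil q n).2 hq0.le
  rw [dc_pow]
  have hh : (0 : ℝ) < (1 / 2) ^ n := by positivity
  generalize ((1 / 2) ^ n : ℝ) = h at *
  generalize ⌈q * 4 ^ n⌉₊ = N at *
  obtain ⟨a1, a2, a3⟩ := b.qv_lim h1 hy hC (h := (1 + γ) * h) (by positivity) e0 N
  obtain ⟨θ, r1, r2⟩ := e1_av hE b h1 h2 (ε := γ * h / 4) (by positivity)
    (ENNReal.ofReal_pos.2 (pow_pos hh 2))
  obtain ⟨M, hM⟩ := exists_nat_ge (4 / θ)
  have hM0 : (0 : ℚ) < M := by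
    have : (0 : ℝ) < M := lt_of_lt_of_le (by positivity) hM
    exact_mod_cast this
  have hF : IsClosed {c : OCode | ChR (fun x z : ℕ => c.1 (.b 0 (x / M)) +
      ENNReal.ofReal (h + γ * h / 4) ≤ c.1 (.b 0 (z / M))) N ⌊y * M⌋₊} :=
    isClosed_chR (fun x z => isClosed_le (by fun_prop) (by fun_prop)) _ _
  refine le_trans (measure_mono ?_) (D.open_le h1 h2 hF.isOpen_compl ?_)
  · refine fun c hc hc' => hc.2 ?_
    obtain ⟨ς, d1, d2, d3⟩ := hc'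
    have m : Monotone fun u : ℕ => (u : ℚ) / M := fun u v huv => by
      simp only
      gcongr
    refine ⟨_, m.comp d1, by simp only [Function.comp]; positivity, (m d2).trans ?_,
      fun i hi => ?_⟩
    · exact (div_le_iff₀ hM0).2 (Nat.floor_le (by positivity))
    · obtain ⟨u, v, f1, f2, f3, f4, f5⟩ := d3 i hi
      refine ⟨_, _, m f1, m f2, m f3, m f4, lt_of_lt_of_le ?_ f5⟩
      refine ENNReal.add_lt_add_left (hc.1 _) ?_
      rw [ENNReal.ofReal_lt_ofReal_iff_of_nonneg hh.le]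
      nlinarith [mul_pos e3 hh]
  have a4 : η * p.1 + C * ((1 + γ) * h) ^ 2 < -(N * (((1 + γ) * h) ^ 2 / 2) - 2 * p.1 * y) := by
    have u1 : (1 + γ) ^ 2 ≤ 1 + 3 * γ := by nlinarith
    have u2 : (1 + γ) ^ 2 ≤ 4 := by nlinarith
    have u3 := mul_le_mul_of_nonneg_left u2 (show 0 ≤ C * h ^ 2 by positivity)
    have u4 := mul_le_mul_of_nonneg_left a0 (sq_nonneg (1 + γ))
    have u5 := mul_le_mul_of_nonneg_left u1 hq1.le
    have u6 := mul_le_mul_of_nonneg_left u2 (sq_nonneg h)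
    nlinarith
  filter_upwards [a1, a2.eventually_lt a3.neg a4, r2,
    b.δ_lim.eventually (ge_mem_nhds (show 0 < γ * h / 4 by positivity))]
    with k ⟨k1, k2, k3⟩ k4 ⟨_, k7, E, k8, k9⟩ k10
  have k5 := dc_half (L := b.fL p k) hy'
  have k6 := ((H _ (b.fM p k) k2).1 _ 0 _ η k1 (Nat.zero_le _) (k5.trans (by omega))
    (k5.trans (by omega)) e0 e2).trans (ENNReal.ofReal_le_ofReal k3)
  refine ⟨_, (avs_add _ _ E _).le.trans ((add_le_add k8 k6).trans_eq ?_),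
    fun t c1 c2 _ s hs => ?_⟩
  · rw [← ENNReal.ofReal_add (by positivity) (by positivity)]
    congr 1
    ring
  by_contra hc
  have c4 : E t < 1 := lt_of_le_of_lt le_self_add (not_le.1 hc)
  have c5 := lt_of_le_of_lt le_add_self (not_le.1 hc)
  have hδ := b.δ_pos k
  have l1 : 1 ≤ per t := c2 ▸ k2
  have c6 : N ≤ NR (fun x => dW t (s 0) (bv t x)) ⌊(1 + γ) * h / b.δ k⌋₊ 0
      ⌊2 * (b.fL p k : ℚ) * y⌋₊ := by
    by_contra c7
    rw [if_pos] at c5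
    · exact lt_irrefl _ c5
    rw [← mul_neg] at k4
    refine (lt_of_mul_lt_mul_left k4 (sq_nonneg _)).trans_le (le_trans ?_ (neg_le_abs _))
    rw [Nat.cast_zero, sub_zero]
    exact neg_le_neg (sub_le_sub_right (mul_le_mul_of_nonneg_right
      (Nat.cast_le.2 (not_le.1 c7).le) (by positivity)) _)
  refine hs (((le_NR k1 _ _).1 c6).map (g := fun x => x * M / (2 * per t))
    (fun x z hxz => Nat.div_le_div_right (by gcongr)) ?_ fun x hx z hz hxz => ?_)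
  · refine Nat.le_floor (Nat.cast_div_le.trans ?_)
    have u1 := Nat.floor_le (a := 2 * (b.fL p k : ℚ) * y) (by positivity)
    have u2 : (0 : ℚ) < per t := by exact_mod_cast l1
    push_cast
    rw [div_le_iff₀ (by positivity), c2]
    nlinarith
  · have u1 := dg_near c1 l1 (k9 t c1 c2 c4) hM r1 (c2 ▸ k7) (q := x) (by omega)
    have u2 := dg_near c1 l1 (k9 t c1 c2 c4) hM r1 (c2 ▸ k7) (q := z) (by omega)
    show gcode _ t s (.b 0 _) + _ ≤ gcode _ t s (.b 0 _)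
    rw [gcode_b _ l1, gcode_b _ l1, ← ENNReal.ofReal_add (by positivity) (by positivity)]
    refine ENNReal.ofReal_le_ofReal ?_
    generalize bz t ⌊2 * (per t : ℚ) * (((x * M / (2 * per t) : ℕ) : ℚ) / M)⌋ = v at *
    generalize bz t ⌊2 * (per t : ℚ) * (((z * M / (2 * per t) : ℕ) : ℚ) / M)⌋ = w at *
    have u3 : (dW t (s 0) v : ℝ) ≤ dW t (s 0) (bv t x) + dW t v (bv t x) := by
      rw [dW_comm c1 v]
      exact_mod_cast dW_triangle c1 _ _ _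
    have u4 : (dW t (s 0) (bv t z) : ℝ) ≤ dW t (s 0) w + dW t w (bv t z) := by
      exact_mod_cast dW_triangle c1 _ _ _
    have u5 : (dW t (s 0) (bv t x) : ℝ) + ⌊(1 + γ) * h / b.δ k⌋₊ ≤ dW t (s 0) (bv t z) := by
      exact_mod_cast hxz
    have u6 := (Nat.lt_floor_add_one ((1 + γ) * h / b.δ k)).le
    rw [div_le_iff₀ hδ] at u6
    nlinarith [mul_le_mul_of_nonneg_left u3 hδ.le, mul_le_mul_of_nonneg_left u4 hδ.le,
      mul_le_mul_of_nonneg_left u5 hδ.le]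

theorem ae_clock (hE : E1Stmt) (hQ : QVStmt) {y : ℚ} (hy : 0 ≤ y) (hy' : y ≤ 1 / 2) :
    ∀ᵐ c ∂D.Λ p, (∀ u, c.1 (.b 0 u) ≠ ⊤) → Clock (fun u => c.1 (.b 0 u)) p.1 0 y := by
  have a1 : ∀ᵐ c ∂D.Λ p, ∀ q : ℚ, 4 * p.1 * y < q → ∀ᶠ n : ℕ in atTop,
      ¬ Ch (fun u => c.1 (.b 0 u)) ⌈q * 4 ^ n⌉₊ (2⁻¹ ^ n) 0 y :=
    ae_all_iff.2 fun q => by
      by_cases hq : 4 * p.1 * y < q
      · exact (D.ae_up h1 h2 hQ hy hy' hq).mono fun c hc _ => hc
      · exact .of_forall fun c h => absurd h hq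
  have a2 : ∀ᵐ c ∂D.Λ p, ∀ q : ℚ, (q : ℝ) < 4 * p.1 * y → (∀ u, c.1 (.b 0 u) ≠ ⊤) →
      ∀ᶠ n : ℕ in atTop, Ch (fun u => c.1 (.b 0 u)) ⌈q * 4 ^ n⌉₊ (2⁻¹ ^ n) 0 y :=
    ae_all_iff.2 fun q => by
      by_cases hq : (q : ℝ) < 4 * p.1 * y
      · exact (D.ae_lo h1 h2 hE hQ hy hy' hq).mono fun c hc _ => hc
      · exact .of_forall fun c h => absurd h hq
  filter_upwards [a1, a2] with c k1 k2 hf q
  rw [Rat.cast_zero, sub_zero]
  exact ⟨k1 q, fun h => k2 q h hf⟩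

end DiscLim

theorem good_stmt (hE : E1Stmt) (hE' : E2Stmt) (hQ : QVStmt) (hI : InvStmt) : GoodStmt := by
  intro b D p h1 h2 hd
  have a1 : ∀ᵐ c ∂D.Λ p, ∀ x y : ℚ, x ≤ y → y ≤ x + 1 / 2 → (∀ u, c.1 (.b 0 u) ≠ ⊤) →
      Clock (fun u => c.1 (.b 0 u)) p.1 x y := by
    refine ae_all_iff.2 fun x => ae_all_iff.2 fun y => ?_
    by_cases k : x ≤ y ∧ y ≤ x + 1 / 2
    · have a2 := D.ae_clock h1 h2 hE hQ (y := y - x) (by linarith [k.1]) (by linarith [k.2])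
      rw [← (hI b D p h1 h2).1 x] at a2
      have hT : Continuous fun c : OCode => ((rep (fun u => u + x) c.1, c.2) : OCode) :=
        ((continuous_rep _).comp continuous_fst).prodMk continuous_snd
      filter_upwards [ae_of_ae_map hT.measurable.aemeasurable a2] with c hc _ _ hf
      exact Clock.shift (hc fun u => hf (u + x))
    · exact .of_forall fun c k1 k2 => absurd ⟨k1, k2⟩ k
  filter_upwards [a1, D.ae_goodM h1 h2 hE hE', hd] with c k1 ⟨k2, k3, k4⟩ k5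
  refine ⟨⟨k4 k5, fun x y d1 d2 => ?_⟩, k2, k3⟩
  rw [k2, ENNReal.toReal_ofReal h1.le]
  refine k1 x y d1 d2 fun u => ?_
  obtain ⟨j, hj⟩ := iInf_lt_iff.1 ((k5.1 u).trans_lt zero_lt_one)
  exact ne_top_of_le_ne_top
    (ENNReal.add_ne_top.2 ⟨k5.2 0 j, (hj.trans ENNReal.one_lt_top).ne⟩) ((k4 k5).tri2 0 j u)

end Pool.Agent.QL.LC
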