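import Pool.Agent.P.MP_7a6434d8_pr.QL.C.Stmts

/-! Good geometric codes of discs, shifts and mirror image of the boundary. -/

open MeasureTheory ProbabilityTheory Set Filter Topology
open scoped ENNReal

namespace Pool.Agent.QL.LC

instance dcGIdxCountable : Countable GIdx := by
  let g : ℕ ⊕ (ℕ × ℕ) ⊕ ℕ ⊕ (ℕ × ℚ) ⊕ (ℚ × ℚ) → GIdx := fun
    | .inl 0 => .len
    | .inl (_ + 1) => .area
    | .inr (.inl p) => .d p.1 p.2
    | .inr (.inr (.inl i)) => .f i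
    | .inr (.inr (.inr (.inl p))) => .b p.1 p.2
    | .inr (.inr (.inr (.inr p))) => .e p.1 p.2
  refine Function.Surjective.countable (f := g) fun x => ?_
  cases x with
  | len => exact ⟨.inl 0, rfl⟩
  | area => exact ⟨.inl 1, rfl⟩
  | d i j => exact ⟨.inr (.inl (i, j)), rfl⟩
  | f i => exact ⟨.inr (.inr (.inl i)), rfl⟩
  | b i x => exact ⟨.inr (.inr (.inr (.inl (i, x)))), rfl⟩
  | e x y => exact ⟨.inr (.inr (.inr (.inr (x, y)))), rfl⟩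

/-- geometric codes -/
abbrev GG : Type := GIdx → ℝ≥0∞

/-- `N` consecutive intervals in `[x, y]` on each of which `β` has range more than `h`. -/
def Ch {T : Type} [Preorder T] (β : T → ℝ≥0∞) (N : ℕ) (h : ℝ≥0∞) (x y : T) : Prop :=
  ∃ s : ℕ → T, Monotone s ∧ x ≤ s 0 ∧ s N ≤ y ∧ ∀ i < N, ∃ u v, s i ≤ u ∧ u ≤ s (i + 1) ∧
    s i ≤ v ∧ v ≤ s (i + 1) ∧ β u + h < β v

/-- The quadratic variation of `β` on `[x, y]` is `2 ℓ (y - x)`. -/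
def Clock (β : ℚ → ℝ≥0∞) (ℓ : ℝ) (x y : ℚ) : Prop :=
  ∀ q : ℚ, (4 * ℓ * ((y : ℝ) - x) < q → ∀ᶠ n : ℕ in atTop, ¬ Ch β ⌈q * 4 ^ n⌉₊ (2⁻¹ ^ n) x y) ∧
    ((q : ℝ) < 4 * ℓ * ((y : ℝ) - x) → ∀ᶠ n : ℕ in atTop, Ch β ⌈q * 4 ^ n⌉₊ (2⁻¹ ^ n) x y)

/-- The metric properties of a good code. -/
structure GoodM (c : GG) : Prop where
  len_pos : c .len ≠ 0
  len_fin : c .len ≠ ⊤
  dense : Dense3 c
  tri1 : ∀ i j x, c (.d i j) ≤ c (.b i x) + c (.b j x)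
  tri2 : ∀ i j x, c (.b i x) ≤ c (.d i j) + c (.b j x)
  tri3 : ∀ i x y, c (.b i y) ≤ c (.b i x) + c (.e x y)
  tri4 : ∀ i x y, c (.e x y) ≤ c (.b i x) + c (.b i y)
  per : ∀ i x, c (.b i (x + 1)) = c (.b i x)
  f_eq : ∀ i, c (.f i) = ⨅ x, c (.b i x)
  e1 : ∀ n : ℕ, ∃ m : ℕ, ∀ x y : ℚ, |x - y| ≤ 1 / (m + 1) → c (.e x y) ≤ (n + 1 : ℝ≥0∞)⁻¹
  e2 : ∀ m : ℕ, ∃ n : ℕ, ∀ x y : ℚ, (∀ z : ℤ, 1 / (m + 1 : ℚ) ≤ |x - y - z|) →
    (n + 1 : ℝ≥0∞)⁻¹ ≤ c (.e x y)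

/-- Good codes. -/
structure Good (c : GG) : Prop extends GoodM c where
  clock : ∀ x y : ℚ, x ≤ y → y ≤ x + 1 / 2 → Clock (fun u => c (.b 0 u)) (c .len).toReal x y

/-- Reparametrisation of the boundary by `g`. -/
def rep (g : ℚ → ℚ) (c : GG) : GG
  | .b i x => c (.b i (g x))
  | .e x y => c (.e (g x) (g y))
  | j => c j

/-- Block GOOD. -/
def GoodStmt : Prop :=
  ∀ (b : Base) (D : DiscLim b) (p : ℝ × ℝ), 0 < p.1 → 0 < p.2 → (∀ᵐ c ∂D.Λ p, Dense3 c.1) →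
    ∀ᵐ c ∂D.Λ p, Good c.1 ∧ c.1 .len = ENNReal.ofReal p.1 ∧ c.1 .area = ENNReal.ofReal p.2

/-- Block INV. -/
def InvStmt : Prop :=
  ∀ (b : Base) (D : DiscLim b) (p : ℝ × ℝ), 0 < p.1 → 0 < p.2 →
    (∀ θ : ℚ, (D.Λ p).map (fun c => (rep (fun x => x + θ) c.1, c.2)) = D.Λ p) ∧
      (D.Λ p).map (fun c => (rep (fun x => -x) c.1, c.2)) = D.Λ p

theorem continuous_rep (g : ℚ → ℚ) : Continuous (rep g) :=
  continuous_pi fun j => by cases j <;> exact continuous_apply _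

theorem isOpen_ch (N : ℕ) (h : ℝ≥0∞) (x y : ℚ) :
    IsOpen {c : GG | Ch (fun u => c (.b 0 u)) N h x y} := by
  have : {c : GG | Ch (fun u => c (.b 0 u)) N h x y} =
      ⋃ (s : ℕ → ℚ) (_ : Monotone s ∧ x ≤ s 0 ∧ s N ≤ y), ⋂ i ∈ Finset.range N,
        ⋃ (u : ℚ) (v : ℚ) (_ : s i ≤ u ∧ u ≤ s (i + 1) ∧ s i ≤ v ∧ v ≤ s (i + 1)),
          {c : GG | c (.b 0 u) + h < c (.b 0 v)} := by
    ext c
    simp only [Ch, mem_ofPred_eq, mem_iUnion, mem_iInter, Finset.mem_range, exists_prop,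
      and_assoc]
  rw [this]
  refine isOpen_iUnion fun s => isOpen_iUnion fun _ => isOpen_biInter_finset fun i _ =>
    isOpen_iUnion fun u => isOpen_iUnion fun v => isOpen_iUnion fun _ => ?_
  exact isOpen_lt ((continuous_apply _).add continuous_const) (continuous_apply _)

end Pool.Agent.QL.LC
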