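import Pool.Agent.P.MP_7a6434d8_pr.QL.C.DDefs

/-! Continuous extension of the boundary distances of a good code. -/

open MeasureTheory ProbabilityTheory Set Filter Topology
open scoped ENNReal

namespace Pool.Agent.QL.LC

/-- rational approximation from below -/
noncomputable def rn (n : ℕ) (t : ℝ) : ℚ := (⌊t * (n + 1)⌋ : ℚ) / (n + 1)

theorem rn_le (n : ℕ) (t : ℝ) : (rn n t : ℝ) ≤ t := by
  have h : (0 : ℝ) < n + 1 := by positivity
  simp only [rn]
  push_cast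
  rw [div_le_iff₀ h]
  exact Int.floor_le _

theorem le_rn (n : ℕ) (t : ℝ) : t - 1 / (n + 1) ≤ rn n t := by
  have h : (0 : ℝ) < n + 1 := by positivity
  simp only [rn]
  push_cast
  rw [le_div_iff₀ h, sub_mul, one_div_mul_cancel h.ne']
  exact (Int.sub_one_lt_floor _).le

theorem rn_mono (n : ℕ) : Monotone (rn n) := fun s t h => by
  have h1 : (0 : ℝ) < n + 1 := by positivity
  have h2 : (0 : ℚ) < n + 1 := by positivity
  refine div_le_div_of_nonneg_right ?_ h2.le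
  exact_mod_cast Int.floor_mono (mul_le_mul_of_nonneg_right h h1.le)

theorem tendsto_rn (t : ℝ) : Tendsto (fun n => (rn n t : ℝ)) atTop (𝓝 t) := by
  refine tendsto_of_tendsto_of_tendsto_of_le_of_le ?_ tendsto_const_nhds (fun n => le_rn n t)
    fun n => rn_le n t
  simpa using tendsto_const_nhds.sub (tendsto_one_div_add_atTop_nhds_zero_nat (𝕜 := ℝ))

theorem measurable_rn' (n : ℕ) : Measurable (rn n) :=
  (measurable_of_countable fun z : ℤ => (z : ℚ) / (n + 1)).comp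
    (Int.measurable_floor.comp (measurable_id.mul_const _))

/-- distance from the sample `i` to the boundary point `t` -/
noncomputable def bb (c : GG) (i : ℕ) (t : ℝ) : ℝ≥0∞ :=
  limsup (fun n => c (.b i (rn n t))) atTop

/-- distance between two boundary points -/
noncomputable def ee (c : GG) (s t : ℝ) : ℝ≥0∞ := ⨅ i, (bb c i s + bb c i t)

theorem measurable_bb (i : ℕ) : Measurable fun p : GG × ℝ => bb p.1 i p.2 := by
  refine Measurable.limsup fun n => ?_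
  have h : Measurable fun p : GG × ℚ => p.1 (.b i p.2) :=
    measurable_from_prod_countable_left fun x => measurable_pi_apply (GIdx.b i x)
  exact h.comp (measurable_fst.prodMk ((measurable_rn' n).comp measurable_snd))

theorem dc_le_of_inv {a b : ℝ≥0∞} (h : ∀ n : ℕ, a ≤ b + (n + 1 : ℝ≥0∞)⁻¹) : a ≤ b := by
  have h1 : Tendsto (fun n : ℕ => b + ((n + 1 : ℕ) : ℝ≥0∞)⁻¹) atTop (𝓝 (b + 0)) :=
    tendsto_const_nhds.add (ENNReal.tendsto_inv_nat_nhds_zero.comp (tendsto_add_atTop_nat 1))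
  rw [add_zero] at h1
  exact ge_of_tendsto' h1 fun n => by simpa using h n

theorem dc_exists_inv {ε : ℝ≥0∞} (hε : 0 < ε) : ∃ n : ℕ, (n + 1 : ℝ≥0∞)⁻¹ ≤ ε := by
  obtain ⟨n, hn⟩ := ENNReal.exists_inv_nat_lt hε.ne'
  exact ⟨n, le_trans (ENNReal.inv_le_inv.2 le_self_add) hn.le⟩

theorem dc_cont {X : Type} [PseudoMetricSpace X] {f : X → ℝ≥0∞}
    (h : ∀ ε : ℝ≥0∞, 0 < ε → ∃ θ > 0, ∀ s t, dist s t ≤ θ → f s ≤ f t + ε) : Continuous f := by
  refine continuous_iff_continuousAt.2 fun t => tendsto_order.2 ⟨fun a ha => ?_, fun a ha => ?_⟩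
  · obtain ⟨r, hr, hlt⟩ := ENNReal.lt_iff_exists_add_pos_lt.1 ha
    obtain ⟨θ, hθ, h1⟩ := h r (by exact_mod_cast hr)
    filter_upwards [Metric.closedBall_mem_nhds t hθ] with s hs
    have := hlt.trans_le (h1 t s (by rw [dist_comm]; exact hs))
    exact lt_of_add_lt_add_right this
  · obtain ⟨r, hr, hlt⟩ := ENNReal.lt_iff_exists_add_pos_lt.1 ha
    obtain ⟨θ, hθ, h1⟩ := h r (by exact_mod_cast hr)
    filter_upwards [Metric.closedBall_mem_nhds t hθ] with s hs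
    exact (h1 s t hs).trans_lt hlt

namespace GoodM

variable {c : GG} (h : GoodM c)

include h

theorem near {ε : ℝ≥0∞} (hε : 0 < ε) : ∃ θ : ℝ, 0 < θ ∧ ∀ (i : ℕ) (t : ℝ) (x : ℚ), |t - x| ≤ θ →
    bb c i t ≤ c (.b i x) + ε ∧ c (.b i x) ≤ bb c i t + ε := by
  obtain ⟨n, hn⟩ := dc_exists_inv hε
  obtain ⟨m, hm⟩ := h.e1 n
  refine ⟨1 / (m + 1) / 2, by positivity, fun i t x hx => ?_⟩
  have hev : ∀ᶠ k in atTop, |rn k t - x| ≤ 1 / (m + 1) := by
    filter_upwards [(tendsto_rn t).eventually (Metric.closedBall_mem_nhds t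
      (show (0 : ℝ) < 1 / (m + 1) / 2 by positivity))] with k hk
    have h1 : |(rn k t : ℝ) - t| ≤ 1 / (m + 1) / 2 := hk
    have h2 : |(rn k t : ℝ) - x| ≤ 1 / (m + 1) := by
      have := abs_sub_le (rn k t : ℝ) t x
      linarith
    rw [← Rat.cast_le (K := ℝ)]
    push_cast
    exact h2
  constructor
  · refine limsup_le_of_le (by isBoundedDefault) (hev.mono fun k hk => ?_)
    refine (h.tri3 i x _).trans (add_le_add le_rfl ((hm _ _ ?_).trans hn))
    rwa [abs_sub_comm]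
  · rw [← tsub_le_iff_right]
    refine le_limsup_of_frequently_le (hev.mono fun k hk => ?_).frequently
    rw [tsub_le_iff_right]
    exact (h.tri3 i _ x).trans (add_le_add le_rfl ((hm _ _ hk).trans hn))

theorem bb_rat (i : ℕ) (x : ℚ) : bb c i x = c (.b i x) := by
  refine le_antisymm (dc_le_of_inv fun n => ?_) (dc_le_of_inv fun n => ?_)
  · obtain ⟨θ, h1, h2⟩ := h.near (ε := (n + 1 : ℝ≥0∞)⁻¹) (by simp)
    exact (h2 i x x (by simpa using h1.le)).1
  · obtain ⟨θ, h1, h2⟩ := h.near (ε := (n + 1 : ℝ≥0∞)⁻¹) (by simp)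
    exact (h2 i x x (by simpa using h1.le)).2

theorem unif {ε : ℝ≥0∞} (hε : 0 < ε) : ∃ θ : ℝ, 0 < θ ∧ ∀ i s t, |s - t| ≤ θ →
    bb c i s ≤ bb c i t + ε := by
  obtain ⟨θ, h1, h2⟩ := h.near (ENNReal.half_pos hε.ne')
  refine ⟨θ / 2, half_pos h1, fun i s t hst => ?_⟩
  obtain ⟨x, hx⟩ := exists_rat_near t (half_pos h1)
  have h3 : |s - x| ≤ θ := by
    have := abs_sub_le s t x
    linarith
  calc bb c i s ≤ c (.b i x) + ε / 2 := (h2 i s x h3).1
    _ ≤ bb c i t + ε / 2 + ε / 2 := add_le_add (h2 i t x (by linarith)).2 le_rfl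
    _ = bb c i t + ε := by rw [add_assoc, ENNReal.add_halves]

theorem cont (i : ℕ) : Continuous (bb c i) :=
  dc_cont fun _ hε => (h.unif hε).imp fun _ h1 => ⟨h1.1, fun s t hst => h1.2 i s t hst⟩

theorem cont_ee : Continuous fun p : ℝ × ℝ => ee c p.1 p.2 := by
  refine dc_cont fun ε hε => ?_
  obtain ⟨θ, h1, h2⟩ := h.unif (ENNReal.half_pos hε.ne')
  refine ⟨θ, h1, fun p q hpq => ?_⟩
  rw [Prod.dist_eq, max_le_iff] at hpq
  rw [ee, ee, ENNReal.iInf_add]
  refine iInf_mono fun i => ?_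
  calc _ ≤ (bb c i q.1 + ε / 2) + (bb c i q.2 + ε / 2) :=
        add_le_add (h2 i _ _ hpq.1) (h2 i _ _ hpq.2)
    _ = _ := by rw [add_add_add_comm, ENNReal.add_halves]

theorem tri1R (i j : ℕ) (t : ℝ) : c (.d i j) ≤ bb c i t + bb c j t := by
  refine Rat.denseRange_cast.induction_on (p := fun t : ℝ => c (.d i j) ≤ bb c i t + bb c j t) t
    (isClosed_le continuous_const ((h.cont i).add (h.cont j))) fun x => ?_
  rw [h.bb_rat, h.bb_rat]
  exact h.tri1 i j x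

theorem tri2R (i j : ℕ) (t : ℝ) : bb c i t ≤ c (.d i j) + bb c j t := by
  refine Rat.denseRange_cast.induction_on (p := fun t : ℝ => bb c i t ≤ c (.d i j) + bb c j t) t
    (isClosed_le (h.cont i) (continuous_const.add (h.cont j))) fun x => ?_
  rw [h.bb_rat, h.bb_rat]
  exact h.tri2 i j x

theorem f_le (i : ℕ) (t : ℝ) : c (.f i) ≤ bb c i t := by
  refine Rat.denseRange_cast.induction_on (p := fun t : ℝ => c (.f i) ≤ bb c i t) t
    (isClosed_le continuous_const (h.cont i)) fun x => ?_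
  rw [h.bb_rat, h.f_eq]
  exact iInf_le _ x

theorem perR (i : ℕ) : Function.Periodic (bb c i) 1 := fun t => by
  refine Rat.denseRange_cast.induction_on (p := fun t : ℝ => bb c i (t + 1) = bb c i t) t
    (isClosed_eq ((h.cont i).comp (continuous_id.add continuous_const)) (h.cont i)) fun x => ?_
  have : (x : ℝ) + 1 = ((x + 1 : ℚ) : ℝ) := by push_cast; ring
  rw [this, h.bb_rat, h.bb_rat, h.per]

theorem per_int (i : ℕ) (t : ℝ) (z : ℤ) : bb c i (t + z) = bb c i t := by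
  simpa using (h.perR i).int_mul z t

theorem denseR (t : ℝ) {ε : ℝ≥0∞} (hε : 0 < ε) : ∃ i, bb c i t ≤ ε := by
  obtain ⟨θ, h1, h2⟩ := h.near (ENNReal.half_pos hε.ne')
  obtain ⟨x, hx⟩ := exists_rat_near t h1
  have h3 : ⨅ i, c (.b i x) < ε / 2 := by
    rw [h.dense.1 x]
    exact ENNReal.half_pos hε.ne'
  obtain ⟨i, hi⟩ := iInf_lt_iff.1 h3
  refine ⟨i, (h2 i t x hx.le).1.trans ?_⟩
  rw [← ENNReal.add_halves ε, ENNReal.add_halves]
  calc _ ≤ ε / 2 + ε / 2 := add_le_add hi.le le_rfl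
    _ = ε := ENNReal.add_halves ε

theorem ee_rat (x y : ℚ) : ee c x y = c (.e x y) := by
  refine le_antisymm (dc_le_of_inv fun n => ?_) (le_iInf fun i => ?_)
  · obtain ⟨i, hi⟩ := h.denseR x (ε := (n + 1 : ℝ≥0∞)⁻¹ / 2) (ENNReal.half_pos (by simp))
    refine (iInf_le _ i).trans ?_
    rw [h.bb_rat] at hi
    rw [h.bb_rat, h.bb_rat]
    calc _ ≤ c (.b i x) + (c (.b i x) + c (.e x y)) := add_le_add le_rfl (h.tri3 i x y)
      _ ≤ (n + 1 : ℝ≥0∞)⁻¹ / 2 + ((n + 1 : ℝ≥0∞)⁻¹ / 2 + c (.e x y)) :=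
          add_le_add hi (add_le_add hi le_rfl)
      _ = _ := by rw [← add_assoc, ENNReal.add_halves, add_comm]
  · rw [h.bb_rat, h.bb_rat]
    exact h.tri4 i x y

theorem inj {s t : ℝ} (hst : ∀ i, bb c i s = bb c i t) : ∃ z : ℤ, s = t + z := by
  by_contra hne
  push Not at hne
  have h0 : ee c s t = 0 := by
    refine le_antisymm (dc_le_of_inv fun n => ?_) bot_le
    obtain ⟨i, hi⟩ := h.denseR t (ε := (n + 1 : ℝ≥0∞)⁻¹ / 2) (ENNReal.half_pos (by simp))
    refine (iInf_le _ i).trans ?_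
    rw [hst i, zero_add, ← ENNReal.add_halves (n + 1 : ℝ≥0∞)⁻¹]
    exact add_le_add hi hi
  have h1 : 0 < |s - t - round (s - t)| := abs_pos.2 fun h2 => hne (round (s - t)) (by linarith)
  obtain ⟨m, hm⟩ := exists_nat_one_div_lt (half_pos h1)
  obtain ⟨n, hn⟩ := h.e2 m
  have h2 : Tendsto (fun k => ee c (rn k s) (rn k t)) atTop (𝓝 0) := by
    have h2 := (h.cont_ee.tendsto (s, t)).comp ((tendsto_rn s).prodMk_nhds (tendsto_rn t))
    rw [← h0]
    simpa only [Function.comp_def] using h2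
  have h3 : Tendsto (fun k => (rn k s : ℝ) - rn k t) atTop (𝓝 (s - t)) :=
    (tendsto_rn s).sub (tendsto_rn t)
  have h4 : ∀ᶠ k in atTop, ee c (rn k s) (rn k t) < (n + 1 : ℝ≥0∞)⁻¹ :=
    h2.eventually (gt_mem_nhds (show (0 : ℝ≥0∞) < (n + 1 : ℝ≥0∞)⁻¹ by simp))
  have h5 : ∀ᶠ k in atTop, dist ((rn k s : ℝ) - rn k t) (s - t) < |s - t - round (s - t)| / 2 :=
    Metric.tendsto_nhds.1 h3 _ (half_pos h1)
  obtain ⟨k, h4, h5⟩ := (h4.and h5).exists
  rw [h.ee_rat] at h4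
  refine absurd (hn _ _ fun z => ?_) (not_le.2 h4)
  have h6 : |(rn k s : ℝ) - rn k t - (s - t)| ≤ |s - t - round (s - t)| / 2 := h5.le
  have h7 := round_le (s - t) z
  have h8 := abs_sub_le (s - t) ((rn k s : ℝ) - rn k t) z
  rw [abs_sub_comm (s - t) ((rn k s : ℝ) - rn k t)] at h8
  have h9 : (1 : ℝ) / (m + 1) ≤ |(rn k s : ℝ) - rn k t - z| := by linarith
  rw [← Rat.cast_le (K := ℝ)]
  push_cast
  exact h9

theorem exists_f (i : ℕ) {ε : ℝ≥0∞} (hε : c (.f i) < ε) : ∃ t ∈ Icc (0 : ℝ) 1, bb c i t < ε := by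
  rw [h.f_eq] at hε
  obtain ⟨x, hx⟩ := iInf_lt_iff.1 hε
  refine ⟨Int.fract (x : ℝ), ⟨Int.fract_nonneg _, (Int.fract_lt_one _).le⟩, ?_⟩
  rw [← h.per_int i _ ⌊(x : ℝ)⌋, Int.fract_add_floor, h.bb_rat]
  exact hx

end GoodM

end Pool.Agent.QL.LC
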