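import Pool.Agent.P.MP_7a6434d8_pr.QL.C.DBase

/-! Metric properties of the limit of the geometric codes. -/

open MeasureTheory ProbabilityTheory Set Filter Topology
open scoped ENNReal NNReal

namespace Pool.Agent.QL.LC

open Pool.Agent.P.MP_7a6434d8_pr Pool.Agent.P.MP_7a6434d8_pr.Mp Pool.Agent.QL.M1

/-- Modulus of continuity of the boundary at integer positions. -/
def E1z (t : Mp) (δ θ ε : ℝ) : Prop :=
  ∀ z z' : ℤ, z ≤ z' → (z' : ℝ) - z ≤ θ * per t → δ * dW t (bz t z) (bz t z') ≤ ε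

theorem e1z_of {t : Mp} (ht : ok t) (hL : 1 ≤ per t) {δ θ ε : ℝ} (hδ : 0 ≤ δ) (hε : 0 ≤ ε)
    (hθ : θ ≤ 1) (h : ∀ p p' : ℕ, p ≤ p' → p' ≤ 2 * per t → (p' : ℝ) - p ≤ θ * per t →
      δ * dW t (bv t p) (bv t p') ≤ ε) : E1z t δ θ (2 * ε) := by
  intro z z' h1 h2
  obtain ⟨p, j, hp, rfl⟩ := bz_red hL z
  obtain ⟨w, rfl⟩ := Int.le.dest h1
  have h3 : (w : ℝ) ≤ θ * per t := by
    push_cast at h2
    linarith
  have h4 : w ≤ per t := by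
    have : (w : ℝ) ≤ per t := h3.trans (mul_le_of_le_one_left (Nat.cast_nonneg _) hθ)
    exact_mod_cast this
  rw [add_right_comm, bz_add, bz_add, bz_nat ht hp.le, ← Nat.cast_add]
  rcases le_or_gt (p + w) (2 * per t) with k | k
  · rw [bz_nat ht k]
    have := h p (p + w) (by omega) k (by push_cast; linarith)
    linarith
  · obtain ⟨r, hr⟩ := Nat.le.dest k.le
    have e : ((p + w : ℕ) : ℤ) = (r : ℕ) + 2 * per t * 1 := by omega
    have e' : 2 * (per t : ℝ) + r = p + w := by exact_mod_cast hr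
    have hp' : (p : ℝ) ≤ 2 * per t := by exact_mod_cast hp.le
    have hr' : (0 : ℝ) ≤ r := Nat.cast_nonneg r
    rw [e, bz_add, bz_nat ht (by omega)]
    have a1 := h p (2 * per t) hp.le le_rfl (by push_cast; linarith)
    have a2 := h 0 r (Nat.zero_le r) (by omega) (by push_cast; linarith)
    rw [bv_end t ht] at a1
    have a3 : (dW t (bv t p) (bv t r) : ℝ) ≤ dW t (bv t p) (bv t 0) + dW t (bv t 0) (bv t r) := by
      exact_mod_cast dW_triangle ht _ _ _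
    nlinarith

theorem e1_av (hE : E1Stmt) (b : Base) {p : ℝ × ℝ} (h1 : 0 < p.1) (h2 : 0 < p.2) {ε : ℝ}
    (hε : 0 < ε) {η : ℝ≥0∞} (hη : 0 < η) : ∃ θ : ℝ, 0 < θ ∧ ∀ᶠ k in (b.U : Filter ℕ),
      1 ≤ b.fL p k ∧ 2 ≤ θ * b.fL p k ∧ ∃ E : Mp → ℝ≥0∞, AV (b.fL p k) (b.fM p k) E ≤ η ∧
        ∀ t, ok t → per t = b.fL p k → E t < 1 → E1z t (b.δ k) θ ε := by
  classical
  obtain ⟨B, -, hB⟩ := b.exists_box h1 h2
  obtain ⟨θ, δ₀, k1, k2, H⟩ := hE B (ε / 2) η (half_pos hε) hη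
  have k3 : 0 < min θ 1 := lt_min k1 one_pos
  refine ⟨min θ 1, k3, ?_⟩
  filter_upwards [hB, b.δ_lim.eventually (ge_mem_nhds k2), (b.fL_top h1).eventually_ge_atTop 1,
    ((tendsto_natCast_atTop_atTop.comp (b.fL_top h1)).const_mul_atTop k3).eventually_ge_atTop 2]
    with k a1 a2 a3 a4
  refine ⟨a3, a4, _, H _ (b.δ_pos k) a2 _ _ a1, fun t c1 c2 c3 => ?_⟩
  rw [show ε = 2 * (ε / 2) by ring]
  refine e1z_of c1 (c2 ▸ a3) (b.δ_pos k).le (half_pos hε).le (min_le_right _ _)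
    fun q q' d1 d2 d3 => not_lt.1 fun d4 => ?_
  rw [if_pos ⟨q, q', d1, c2 ▸ d2, c2 ▸ d3.trans (by gcongr; exact min_le_left _ _), d4⟩] at c3
  exact lt_irrefl _ c3

/-- rounding of a position to a grid of fractions -/
theorem dg_grid {L M : ℕ} (hL : 1 ≤ L) (hM : 1 ≤ M) (q : ℕ) :
    ⌊2 * (L : ℚ) * (((q * M / (2 * L) : ℕ) : ℚ) / M)⌋ ≤ q ∧
      (q : ℝ) - ⌊2 * (L : ℚ) * (((q * M / (2 * L) : ℕ) : ℚ) / M)⌋ ≤ 2 * L / M + 1 := by
  generalize hj : q * M / (2 * L) = j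
  have h1 : j * (2 * L) ≤ q * M := hj ▸ Nat.div_mul_le_self _ _
  have h2 : q * M < (j + 1) * (2 * L) := by
    rw [← hj]
    exact (Nat.div_lt_iff_lt_mul (by omega)).1 (Nat.lt_succ_self _)
  have hM' : (0 : ℚ) < M := by exact_mod_cast hM
  have h3 : (j : ℚ) * (2 * L) ≤ q * M := by exact_mod_cast h1
  have h4 : (q : ℚ) * M < (j + 1) * (2 * L) := by exact_mod_cast h2
  have h5 : 2 * (L : ℚ) * (j / M) ≤ q := by
    rw [← mul_div_assoc, div_le_iff₀ hM']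
    linarith
  have h6 : (q : ℚ) ≤ 2 * (L : ℚ) * (j / M) + 2 * L / M := by
    rw [← mul_div_assoc, ← add_div, le_div_iff₀ hM']
    linarith
  have h7 := Int.lt_floor_add_one (2 * (L : ℚ) * (j / M))
  refine ⟨by exact_mod_cast (Int.floor_le _).trans h5, ?_⟩
  have h8 : (q : ℚ) - ⌊2 * (L : ℚ) * (j / M)⌋ ≤ 2 * L / M + 1 := by linarith
  have h9 := (Rat.cast_le (K := ℝ)).2 h8
  push_cast at h9
  exact h9

theorem dg_near {t : Mp} (ht : ok t) (hL : 1 ≤ per t) {δ θ ε : ℝ} (h : E1z t δ θ ε) {M : ℕ}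
    (hM : 4 / θ ≤ M) (hθ : 0 < θ) (h2 : 2 ≤ θ * per t) {q : ℕ} (hq : q ≤ 2 * per t) :
    δ * dW t (bz t ⌊2 * (per t : ℚ) * (((q * M / (2 * per t) : ℕ) : ℚ) / M)⌋) (bv t q) ≤ ε := by
  have h0 : (0 : ℝ) < M := lt_of_lt_of_le (by positivity) hM
  obtain ⟨a1, a2⟩ := dg_grid hL (M := M) (by exact_mod_cast h0) q
  rw [← bz_nat ht hq]
  refine h _ _ a1 (le_trans a2 ?_)
  have h3 : 2 * (per t : ℝ) / M ≤ θ * per t / 2 := by
    rw [div_le_iff₀ hθ] at hM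
    rw [div_le_iff₀ h0]
    nlinarith [Nat.cast_nonneg (α := ℝ) (per t)]
  linarith

theorem dg_inv (n : ℕ) : (n + 1 : ℝ≥0∞)⁻¹ = ENNReal.ofReal (1 / (n + 1)) := by
  rw [one_div, ENNReal.ofReal_inv_of_pos (by positivity), ENNReal.ofReal_add (by positivity)
    zero_le_one, ENNReal.ofReal_natCast, ENNReal.ofReal_one]

namespace DiscLim

variable {b : Base} (D : DiscLim b) {p : ℝ × ℝ} (h1 : 0 < p.1) (h2 : 0 < p.2)

include h1 h2

theorem ae_coord (j : GIdx) {x : ℕ → ℝ} {a : ℝ} (hx : Tendsto x b.U (𝓝 a))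
    (h : ∀ k t s, per t = b.fL p k → size t = b.fM p k →
      gcode (b.δ k) t s j = ENNReal.ofReal (x k)) : ∀ᵐ c ∂D.Λ p, c.1 j = ENNReal.ofReal a := by
  have h3 : ∀ n : ℕ, ∀ᵐ c ∂D.Λ p, c ∈ (fun c : OCode => c.1 j) ⁻¹'
      Icc (ENNReal.ofReal (a - 1 / (n + 1))) (ENNReal.ofReal (a + 1 / (n + 1))) := fun n => by
    have h4 : (0 : ℝ) < 1 / (n + 1) := by positivity
    refine D.ae_closed h1 h2 (isClosed_Icc.preimage (by fun_prop)) ?_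
    filter_upwards [hx.eventually (Icc_mem_nhds (sub_lt_self a h4) (lt_add_of_pos_right a h4))]
      with k hk t _ a2 a3 s
    show gcode (b.δ k) t s j ∈ Icc _ _
    rw [h k t s a2 a3]
    exact ⟨ENNReal.ofReal_le_ofReal hk.1, ENNReal.ofReal_le_ofReal hk.2⟩
  filter_upwards [ae_all_iff.2 h3] with c hc
  have h5 := tendsto_one_div_add_atTop_nhds_zero_nat (𝕜 := ℝ)
  refine le_antisymm ?_ ?_
  · simpa using ge_of_tendsto' (ENNReal.tendsto_ofReal (h5.const_add a)) fun n => (hc n).2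
  · simpa using le_of_tendsto' (ENNReal.tendsto_ofReal (h5.const_sub a)) fun n => (hc n).1

theorem ae_tri : ∀ᵐ c ∂D.Λ p, (∀ i j x, c.1 (.d i j) ≤ c.1 (.b i x) + c.1 (.b j x)) ∧
    (∀ i j x, c.1 (.b i x) ≤ c.1 (.d i j) + c.1 (.b j x)) ∧
    (∀ i x y, c.1 (.b i y) ≤ c.1 (.b i x) + c.1 (.e x y)) ∧
    (∀ i x y, c.1 (.e x y) ≤ c.1 (.b i x) + c.1 (.b i y)) ∧
    (∀ i x, c.1 (.b i (x + 1)) = c.1 (.b i x)) ∧ ∀ i x, c.1 (.f i) ≤ c.1 (.b i x) := by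
  refine D.ae_closed h1 h2 (F := {c | (∀ i j x, c.1 (.d i j) ≤ c.1 (.b i x) + c.1 (.b j x)) ∧
    (∀ i j x, c.1 (.b i x) ≤ c.1 (.d i j) + c.1 (.b j x)) ∧
    (∀ i x y, c.1 (.b i y) ≤ c.1 (.b i x) + c.1 (.e x y)) ∧
    (∀ i x y, c.1 (.e x y) ≤ c.1 (.b i x) + c.1 (.b i y)) ∧
    (∀ i x, c.1 (.b i (x + 1)) = c.1 (.b i x)) ∧ ∀ i x, c.1 (.f i) ≤ c.1 (.b i x)}) ?_ ?_
  · simp only [ofPred_and, ofPred_forall]
    refine IsClosed.inter ?_ (IsClosed.inter ?_ (IsClosed.inter ?_ (IsClosed.inter ?_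
      (IsClosed.inter ?_ ?_))))
    all_goals
      repeat refine isClosed_iInter fun _ => ?_
      first
        | exact isClosed_eq (by fun_prop) (by fun_prop)
        | exact isClosed_le (by fun_prop) (by fun_prop)
  · filter_upwards [(b.fL_top h1).eventually_ge_atTop 1] with k hk t ht a2 _ s
    have hδ := (b.δ_pos k).le
    refine ⟨fun i j x => db_ofReal hδ ?_, fun i j x => db_ofReal hδ (dW_triangle ht _ _ _),
      fun i x y => db_ofReal hδ (dW_triangle ht _ _ _), fun i x y => db_ofReal hδ ?_,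
      fun i x => ?_, fun i x => ?_⟩
    · rw [dW_comm ht (s j)]
      exact dW_triangle ht _ _ _
    · rw [dW_comm ht (s i)]
      exact dW_triangle ht _ _ _
    · simp only [ocode, gcode, bpos, Int.fract_add_one]
    · show ENNReal.ofReal _ ≤ gcode _ t s (.b i x)
      rw [gcode_b _ (a2 ▸ hk)]
      obtain ⟨q, j, hq, e⟩ := bz_red (a2 ▸ hk) ⌊2 * (per t : ℚ) * x⌋
      rw [e, bz_add, bz_nat ht hq.le]
      refine ENNReal.ofReal_le_ofReal (mul_le_mul_of_nonneg_left ?_ hδ)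
      exact Nat.cast_le.2 (Nat.sInf_le (s := {k | ∃ q, q ≤ 2 * per t ∧ dW t (s i) (bv t q) = k})
        ⟨q, hq.le, rfl⟩)

theorem ae_e1 (hE : E1Stmt) (n : ℕ) : ∀ᵐ c ∂D.Λ p, ∃ m : ℕ, ∀ x y : ℚ, |x - y| ≤ 1 / (m + 1) →
    c.1 (.e x y) ≤ (n + 1 : ℝ≥0∞)⁻¹ := by
  refine D.ae_exists h1 h2 (F := fun m : ℕ => {c | ∀ x y : ℚ, |x - y| ≤ 1 / (m + 1) →
    c.1 (.e x y) ≤ (n + 1 : ℝ≥0∞)⁻¹}) (fun m => ?_) fun η hη => ?_
  · simp only [ofPred_forall]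
    repeat refine isClosed_iInter fun _ => ?_
    exact isClosed_le (by fun_prop) (by fun_prop)
  obtain ⟨θ, k1, H⟩ := e1_av hE b h1 h2 (ε := 1 / (n + 1)) (by positivity) hη
  obtain ⟨m, hm⟩ := exists_nat_ge (4 / θ)
  refine ⟨m, H.mono fun k ⟨a1, a2, E, a3, a4⟩ => ⟨E, a3, fun t c1 c2 _ c4 s => ?_⟩⟩
  have key : ∀ x y : ℚ, x ≤ y → y - x ≤ 1 / (m + 1) → b.δ k *
      dW t (bz t ⌊2 * (per t : ℚ) * x⌋) (bz t ⌊2 * (per t : ℚ) * y⌋) ≤ 1 / (n + 1) := by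
    intro x y d1 d2
    refine a4 t c1 c2 c4 _ _ (Int.floor_mono (by gcongr)) ?_
    have e1 := Int.floor_le (2 * (per t : ℚ) * y)
    have e2 := Int.lt_floor_add_one (2 * (per t : ℚ) * x)
    have e3 : (⌊2 * (per t : ℚ) * y⌋ : ℚ) - ⌊2 * (per t : ℚ) * x⌋ ≤
        2 * per t * (1 / (m + 1)) + 1 := by
      have := mul_le_mul_of_nonneg_left d2 (show (0 : ℚ) ≤ 2 * per t by positivity)
      linarith
    have e4 := (Rat.cast_le (K := ℝ)).2 e3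
    push_cast at e4
    have e5 : (1 : ℝ) / (m + 1) ≤ θ / 4 := by
      rw [div_le_iff₀ k1] at hm
      rw [div_le_iff₀ (by positivity)]
      nlinarith
    rw [← c2] at a2
    nlinarith [Nat.cast_nonneg (α := ℝ) (per t)]
  intro x y hxy
  show gcode _ t s (.e x y) ≤ _
  rw [gcode_e _ (c2 ▸ a1), dg_inv]
  refine ENNReal.ofReal_le_ofReal ?_
  rcases le_total x y with h | h
  · exact key x y h (by linarith [(abs_le.1 hxy).1])
  · rw [dW_comm c1]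
    exact key y x h (abs_le.1 hxy).2

theorem ae_f (hE : E1Stmt) (n : ℕ) : ∀ᵐ c ∂D.Λ p, ∀ i,
    ⨅ x, c.1 (.b i x) ≤ c.1 (.f i) + (n + 1 : ℝ≥0∞)⁻¹ := by
  have h := D.ae_exists h1 h2 (F := fun M : ℕ => ⋂ i, ⋃ j ∈ Iic M,
    {c | c.1 (.b i ((j : ℚ) / M)) ≤ c.1 (.f i) + (n + 1 : ℝ≥0∞)⁻¹})
    (fun M => isClosed_iInter fun i => (finite_Iic M).isClosed_biUnion fun j _ =>
      isClosed_le (by fun_prop) (by fun_prop)) fun η hη => ?_
  · filter_upwards [h] with c ⟨M, hc⟩ i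
    obtain ⟨j, -, hj⟩ := mem_iUnion₂.1 (mem_iInter.1 hc i)
    exact (iInf_le _ _).trans hj
  obtain ⟨θ, k1, H⟩ := e1_av hE b h1 h2 (ε := 1 / (n + 1)) (by positivity) hη
  obtain ⟨M, hM⟩ := exists_nat_ge (4 / θ)
  refine ⟨M, H.mono fun k ⟨a1, a2, E, a3, a4⟩ => ⟨E, a3, fun t c1 c2 _ c4 s => ?_⟩⟩
  refine mem_iInter.2 fun i => ?_
  obtain ⟨q, hq, e⟩ : ∃ q, q ≤ 2 * per t ∧ dW t (s i) (bv t q) = dB t (s i) :=
    Nat.sInf_mem (s := {k | ∃ q, q ≤ 2 * per t ∧ dW t (s i) (bv t q) = k})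
      ⟨_, 0, Nat.zero_le _, rfl⟩
  have l1 : 1 ≤ per t := c2 ▸ a1
  refine mem_iUnion₂.2 ⟨q * M / (2 * per t), Nat.div_le_of_le_mul (by gcongr), ?_⟩
  show gcode _ t s (.b i _) ≤ ENNReal.ofReal (b.δ k * dB t (s i)) + _
  have d1 := dg_near c1 l1 (a4 t c1 c2 c4) hM k1 (c2 ▸ a2) hq
  rw [dW_comm c1] at d1
  rw [gcode_b _ l1, ← e, dg_inv]
  exact (db_ofReal (b.δ_pos k).le (dW_triangle c1 _ (bv t q) _)).trans
    (add_le_add_right (ENNReal.ofReal_le_ofReal d1) _)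

theorem ae_e2 (hE : E2Stmt) (m : ℕ) : ∀ᵐ c ∂D.Λ p, ∃ n : ℕ, ∀ x y : ℚ,
    (∀ z : ℤ, 1 / (m + 1 : ℚ) ≤ |x - y - z|) → (n + 1 : ℝ≥0∞)⁻¹ ≤ c.1 (.e x y) := by
  classical
  refine D.ae_exists h1 h2 (F := fun n : ℕ => {c | ∀ x y : ℚ,
    (∀ z : ℤ, 1 / (m + 1 : ℚ) ≤ |x - y - z|) → (n + 1 : ℝ≥0∞)⁻¹ ≤ c.1 (.e x y)})
    (fun m => ?_) fun η hη => ?_
  · simp only [ofPred_forall]
    repeat refine isClosed_iInter fun _ => ?_
    exact isClosed_le (by fun_prop) (by fun_prop)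
  obtain ⟨B, hB0, hB⟩ := b.exists_box h1 h2
  obtain ⟨ε, δ₀, k1, k2, H⟩ := hE B (1 / (m + 1)) η hB0 (by positivity) hη
  obtain ⟨n, hn⟩ := exists_nat_one_div_lt k1
  refine ⟨n, ?_⟩
  filter_upwards [hB, b.δ_lim.eventually (ge_mem_nhds k2),
    (b.fL_top h1).eventually_ge_atTop (m + 1)] with k a1 a2 a3
  refine ⟨_, H _ (b.δ_pos k) a2 _ _ a1, fun t c1 c2 _ c4 s x y hxy => ?_⟩
  have l1 : 1 ≤ per t := by omega
  rw [← c2] at c4 a3
  have key : ∀ q q' : ℕ, q ≤ q' → q' ≤ 2 * per t →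
      1 / (m + 1 : ℚ) * per t ≤ (q' : ℚ) - q → (q' : ℚ) - q ≤ (2 - 1 / (m + 1 : ℚ)) * per t →
      1 / (n + 1 : ℝ) ≤ b.δ k * dW t (bv t q) (bv t q') := fun q q' d1 d2 d3 d4 => by
    refine hn.le.trans (not_lt.1 fun d5 => ?_)
    replace d3 := (Rat.cast_le (K := ℝ)).2 d3
    replace d4 := (Rat.cast_le (K := ℝ)).2 d4
    push_cast at d3 d4
    rw [if_pos ⟨q, q', d1, d2, d3, d4, d5.le⟩] at c4
    exact lt_irrefl _ c4
  show _ ≤ gcode _ t s (.e x y)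
  rw [gcode_e _ l1, dg_inv]
  refine ENNReal.ofReal_le_ofReal ?_
  obtain ⟨q, i, hq, e⟩ := bz_red l1 ⌊2 * (per t : ℚ) * x⌋
  obtain ⟨q', j, hq', e'⟩ := bz_red l1 ⌊2 * (per t : ℚ) * y⌋
  have f1 := Int.floor_le (2 * (per t : ℚ) * x)
  have f2 := Int.lt_floor_add_one (2 * (per t : ℚ) * x)
  have f3 := Int.floor_le (2 * (per t : ℚ) * y)
  have f4 := Int.lt_floor_add_one (2 * (per t : ℚ) * y)
  rw [e] at f1 f2
  rw [e'] at f3 f4
  rw [e, e', bz_add, bz_add, bz_nat c1 hq.le, bz_nat c1 hq'.le]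
  push_cast at f1 f2 f3 f4
  have g0 : (0 : ℚ) < per t := by exact_mod_cast l1
  have g1 : (1 : ℚ) ≤ 1 / (m + 1) * per t := by
    rw [one_div, ← div_eq_inv_mul, one_le_div (by positivity)]
    exact_mod_cast a3
  have g2 : ∀ z : ℤ, 1 / (m + 1 : ℚ) * per t ≤ |(q : ℚ) - q' - 2 * per t * z| := fun z => by
    have u1 := mul_le_mul_of_nonneg_right (hxy (i - j + z)) (show (0 : ℚ) ≤ 2 * per t by positivity)
    rw [← abs_of_nonneg (show (0 : ℚ) ≤ 2 * per t by positivity), ← abs_mul,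
      abs_of_nonneg (show (0 : ℚ) ≤ 2 * per t by positivity)] at u1
    push_cast at u1
    have u2 := abs_sub_abs_le_abs_sub ((x - y - (i - j + z)) * (2 * per t))
      ((q : ℚ) - q' - 2 * per t * z)
    have u3 : |(x - y - (i - j + z)) * (2 * per t) - ((q : ℚ) - q' - 2 * per t * z)| ≤ 1 :=
      abs_le.2 ⟨by linarith, by linarith⟩
    linarith
  have g3 : (q : ℚ) ≤ 2 * per t := by exact_mod_cast hq.le
  have g4 : (q' : ℚ) ≤ 2 * per t := by exact_mod_cast hq'.le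
  have g5 : (0 : ℚ) ≤ q := Nat.cast_nonneg q
  have g6 : (0 : ℚ) ≤ q' := Nat.cast_nonneg q'
  have u0 := g2 0
  rcases le_total q q' with h | h
  · have h' : (q : ℚ) ≤ q' := by exact_mod_cast h
    have u1 := g2 (-1)
    push_cast at u0 u1
    rw [abs_of_nonpos (by linarith)] at u0
    rw [abs_of_nonneg (by linarith)] at u1
    exact key q q' h hq'.le (by linarith) (by linarith)
  · have h' : (q' : ℚ) ≤ q := by exact_mod_cast h
    have u1 := g2 1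
    push_cast at u0 u1
    rw [abs_of_nonneg (by linarith)] at u0
    rw [abs_of_nonpos (by linarith)] at u1
    rw [dW_comm c1]
    exact key q' q h hq.le (by linarith) (by linarith)

theorem ae_goodM (hE : E1Stmt) (hE' : E2Stmt) : ∀ᵐ c ∂D.Λ p, c.1 .len = ENNReal.ofReal p.1 ∧
    c.1 .area = ENNReal.ofReal p.2 ∧ (Dense3 c.1 → GoodM c.1) := by
  filter_upwards [D.ae_coord h1 h2 .len (b.fL_lim h1) fun k t s a _ => by rw [← a]; rfl,
    D.ae_coord h1 h2 .area (b.fM_lim h2) fun k t s _ a => by rw [← a]; rfl, D.ae_tri h1 h2,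
    ae_all_iff.2 (D.ae_e1 h1 h2 hE), ae_all_iff.2 (D.ae_f h1 h2 hE),
    ae_all_iff.2 (D.ae_e2 h1 h2 hE')] with c a1 a2 ⟨t1, t2, t3, t4, t5, t6⟩ a4 a5 a6
  refine ⟨a1, a2, fun hd => ⟨a1 ▸ (ENNReal.ofReal_pos.2 h1).ne', a1 ▸ ENNReal.ofReal_ne_top, hd,
    t1, t2, t3, t4, t5, fun i => le_antisymm (le_iInf (t6 i)) ?_, a4, a6⟩⟩
  have h3 : Tendsto (fun n : ℕ => (n + 1 : ℝ≥0∞)⁻¹) atTop (𝓝 0) := by
    simpa [Function.comp_def] using
      ENNReal.tendsto_inv_nat_nhds_zero.comp (tendsto_add_atTop_nat 1)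
  simpa using ge_of_tendsto' (h3.const_add (c.1 (.f i))) fun n => a5 n i

end DiscLim

end Pool.Agent.QL.LC
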