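import Pool.Agent.P.MP_7a6434d8_pr.QL.C.DBase

/-! Invariance of the limit law of the inner code under rational rotations and the reflection. -/

open MeasureTheory ProbabilityTheory Set Filter Topology
open scoped ENNReal NNReal BoundedContinuousFunction

namespace Pool.Agent.QL.LC

open Pool.Agent.P.MP_7a6434d8_pr Pool.Agent.P.MP_7a6434d8_pr.Mp Pool.Agent.QL.M1

theorem di_unif (G : C(OCode, ℝ≥0∞)) (hG : ∀ c, G c ≤ 1) {η : ℝ≥0∞} (hη : 0 < η) :
    ∃ n : ℕ, ∀ c c' : OCode, c.2 = c'.2 →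
      (∀ j, c.1 j ≤ c'.1 j + (n : ℝ≥0∞)⁻¹ ∧ c'.1 j ≤ c.1 j + (n : ℝ≥0∞)⁻¹) → G c ≤ η + G c' := by
  by_contra hc
  push Not at hc
  let K : ℕ → Set (OCode × OCode) := fun n => {z | z.1.2 = z.2.2} ∩
    ((⋂ j, {z | z.1.1 j ≤ z.2.1 j + (n : ℝ≥0∞)⁻¹} ∩ {z | z.2.1 j ≤ z.1.1 j + (n : ℝ≥0∞)⁻¹}) ∩
      {z | η + G z.2 ≤ G z.1})
  have h1 : ∀ n, IsClosed (K n) := fun n =>
    (isClosed_eq (by fun_prop) (by fun_prop)).inter ((isClosed_iInter fun j =>
      (isClosed_le (by fun_prop) (by fun_prop)).inter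
        (isClosed_le (by fun_prop) (by fun_prop))).inter (isClosed_le (by fun_prop) (by fun_prop)))
  obtain ⟨z, hz⟩ := IsCompact.nonempty_iInter_of_sequence_nonempty_isCompact_isClosed K
    (fun n z hz => by
      have e : ((n + 1 : ℕ) : ℝ≥0∞)⁻¹ ≤ (n : ℝ≥0∞)⁻¹ :=
        ENNReal.inv_le_inv.2 (by exact_mod_cast n.le_succ)
      refine ⟨hz.1, mem_iInter.2 fun j => ?_, hz.2.2⟩
      have := mem_iInter.1 hz.2.1 j
      exact ⟨le_trans this.1 (add_le_add_right e _), le_trans this.2 (add_le_add_right e _)⟩)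
    (fun n => by
      obtain ⟨c, c', a1, a2, a3⟩ := hc n
      exact ⟨(c, c'), a1, mem_iInter.2 a2, a3.le⟩) (h1 0).isCompact h1
  have h2 : ∀ a c : ℝ≥0∞, (∀ n : ℕ, a ≤ c + (n : ℝ≥0∞)⁻¹) → a ≤ c := fun a c h => by
    simpa using ge_of_tendsto' (ENNReal.tendsto_inv_nat_nhds_zero.const_add c) h
  have h3 : z.1 = z.2 := by
    refine Prod.ext (funext fun j => le_antisymm (h2 _ _ fun n => ?_) (h2 _ _ fun n => ?_))
      (mem_iInter.1 hz 0).1
    · exact (mem_iInter.1 (mem_iInter.1 hz n).2.1 j).1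
    · exact (mem_iInter.1 (mem_iInter.1 hz n).2.1 j).2
  have h4 : η + G z.2 ≤ G z.1 := (mem_iInter.1 hz 0).2.2
  rw [h3, add_comm] at h4
  exact absurd h4 (not_le.2 (ENNReal.lt_add_right
    (ne_top_of_le_ne_top ENNReal.one_ne_top (hG _)) hη.ne'))

theorem di_ext {μ ν : Measure OCode} [IsProbabilityMeasure μ] [IsProbabilityMeasure ν]
    (h : ∀ G : C(OCode, ℝ≥0∞), (∀ c, G c ≤ 1) → ∫⁻ c, G c ∂μ = ∫⁻ c, G c ∂ν) : μ = ν := by
  refine ext_of_generate_finite {F | IsClosed F}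
    (by rw [BorelSpace.measurable_eq (α := OCode), borel_eq_generateFrom_isClosed])
    isPiSystem_isClosed (fun F hF => ?_) (by simp)
  refine tendsto_nhds_unique (HasOuterApproxClosed.tendsto_lintegral_apprSeq hF μ)
    ((HasOuterApproxClosed.tendsto_lintegral_apprSeq hF ν).congr fun n => ?_)
  exact (h ⟨_, ENNReal.continuous_coe.comp (IsClosed.apprSeq hF n).continuous⟩ fun c =>
    ENNReal.coe_le_one_iff.2 (HasOuterApproxClosed.apprSeq_apply_le_one hF n c)).symm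

theorem smpl_equiv {t t' : Mp} (e : V t ≃ V t') {F : (ℕ → V t') → ℝ≥0∞} (hF : Measurable F) :
    ∫⁻ s, F s ∂smpl (V t') = ∫⁻ s, F (fun i => e (s i)) ∂smpl (V t) := by
  have h1 : (uniformOn univ : Measure (V t)).map e = uniformOn univ := by
    refine Measure.ext_of_singleton fun y => ?_
    have : e ⁻¹' {y} = {e.symm y} := by
      ext x
      simp [Equiv.eq_symm_apply]
    rw [Measure.map_apply Measurable.of_discrete (measurableSet_singleton y), this,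
      uniformOn_univ, uniformOn_univ, Measure.count_singleton, Measure.count_singleton,
      Fintype.card_congr e]
  have h2 := iid_map (uniformOn univ : Measure (V t)) (f := e) Measurable.of_discrete
  rw [h1] at h2
  have h3 : Measurable fun (S : ℕ → V t) i => e (S i) :=
    measurable_pi_lambda _ fun i => Measurable.of_discrete.comp (measurable_pi_apply i)
  exact (congrArg (fun μ => ∫⁻ s, F s ∂μ) h2.symm).trans (lintegral_map hF h3)

theorem avs_iso {L m : ℕ} {R : Mp → Mp} (hR : BijOn R (countaT L m) (countaT L m))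
    {H H' : (t : Mp) → (ℕ → V t) → ℝ≥0∞} (hH : ∀ t, Measurable (H t)) {η : ℝ≥0∞}
    (h : ∀ t ∈ countaT L m, ∃ e : V t ≃ V (R t), ∀ s,
      H (R t) (fun i => e (s i)) ≤ η + H' t s ∧ H' t s ≤ η + H (R t) fun i => e (s i)) :
    AVS L m H ≤ AVS L m H' + η ∧ AVS L m H' ≤ AVS L m H + η := by
  have h1 : AVS L m H = AV L m fun t => ∫⁻ s, H (R t) s ∂smpl (V (R t)) := by
    unfold AVS AV
    congr 1
    exact (Finset.sum_nbij R hR.1 hR.2.1 hR.2.2 fun _ _ => rfl).symm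
  have h2 : ∀ A A' : Mp → ℝ≥0∞, (∀ t ∈ countaT L m, A t ≤ η + A' t) →
      AV L m A ≤ AV L m A' + η := fun A A' hA => by
    rw [← avs_const]
    refine (avs_mono (G' := fun t _ => η + A' t) fun t a1 a2 a3 _ =>
      hA t ((counta_mem _ _ _).2 ⟨a1, a2, a3⟩)).trans ?_
    rw [avs_add L m (fun _ => η) fun t _ => A' t, avs_const, add_comm]
    exact add_le_add_right (av_one_le _ _ _) _
  rw [h1]
  refine ⟨h2 _ _ fun t ht => ?_, h2 _ _ fun t ht => ?_⟩
  all_goals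
    obtain ⟨e, he⟩ := h t ht
    rw [smpl_equiv e (hH _)]
  · refine (lintegral_mono fun s => (he s).1).trans ?_
    rw [lintegral_add_left measurable_const]
    simp
  · refine (lintegral_mono fun s => (he s).2).trans ?_
    rw [lintegral_add_left measurable_const]
    simp

/-- `t'` is `t` with the integer boundary positions relabelled by `π`. -/
def IsoZ (π : ℤ → ℤ) (t t' : Mp) : Prop :=
  ∃ e : V t ≃ V t', (∀ x y, dW t' (e x) (e y) = dW t x y) ∧ (∀ z, bz t' z = e (bz t (π z))) ∧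
    ∀ s pr j, (gmT t').ballE (fun i => e (s i)) pr j = (gmT t).ballE s pr j

theorem isoZ_rot {L : ℕ} (hL : 1 ≤ L) {t t' : Mp} (ht : ok t) (ht' : ok t') (h1 : per t = L)
    (h2 : per t' = L) {K j : ℤ} {k : ℕ} (hk : K = k + 2 * L * j)
    (h : IsoB (fun p => (p + k) % (2 * L)) t t') : IsoZ (fun z => z + K) t t' := by
  obtain ⟨e, a1, a2, a3⟩ := h
  refine ⟨e, a1, fun z => ?_, a3⟩
  obtain ⟨p, i, hp, rfl⟩ := bz_red (h2 ▸ hL) z
  rw [bz_add, bz_nat ht' hp.le, a2 p (by omega)]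
  congr 1
  have e1 : (p : ℤ) + 2 * per t' * i + K = ((p + k : ℕ) : ℤ) + 2 * per t * (i + j) := by
    rw [hk, h1, h2]; push_cast; ring
  show _ = bz t (_ + K)
  rw [e1, bz_add, bz, h1, ← Int.natCast_mod, Int.toNat_natCast]

theorem isoZ_mir {L : ℕ} (hL : 1 ≤ L) {t t' : Mp} (ht : ok t) (ht' : ok t') (h1 : per t = L)
    (h2 : per t' = L) (h : IsoB (fun p => 2 * L - p) t t') : IsoZ (fun z => -z) t t' := by
  obtain ⟨e, a1, a2, a3⟩ := h
  refine ⟨e, a1, fun z => ?_, a3⟩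
  obtain ⟨p, i, hp, rfl⟩ := bz_red (h2 ▸ hL) z
  rw [bz_add, bz_nat ht' hp.le, a2 p (by omega)]
  congr 1
  have e1 : -((p : ℤ) + 2 * per t' * i) = ((2 * L - p : ℕ) : ℤ) + 2 * per t * (-i - 1) := by
    rw [Nat.cast_sub (by omega), h1, h2]; push_cast; ring
  show _ = bz t (-_)
  rw [e1, bz_add, bz_nat ht (by omega)]

theorem dB_eq {t : Mp} (ht : ok t) (hL : 1 ≤ per t) (x : V t) :
    dB t x = sInf {k | ∃ z, dW t x (bz t z) = k} := by
  unfold dB
  congr 1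
  ext k
  constructor
  · rintro ⟨p, hp, h⟩
    exact ⟨p, by rwa [bz_nat ht hp]⟩
  · rintro ⟨z, h⟩
    obtain ⟨p, j, hp, rfl⟩ := bz_red hL z
    rw [bz_add, bz_nat ht hp.le] at h
    exact ⟨p, hp.le, h⟩

theorem di_code {L m : ℕ} (hL : 1 ≤ L) {t t' : Mp} (ht : t ∈ countaT L m) (ht' : t' ∈ countaT L m)
    {π : ℤ → ℤ} (hπ : Function.Surjective π) (h : IsoZ π t t') {g : ℚ → ℚ}
    (hg : ∀ x : ℚ, π ⌊2 * (L : ℚ) * x⌋ ≤ ⌊2 * (L : ℚ) * g x⌋ + 1 ∧
      ⌊2 * (L : ℚ) * g x⌋ ≤ π ⌊2 * (L : ℚ) * x⌋ + 1) {δ : ℝ} (hδ : 0 ≤ δ) (κ : ℝ) :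
    ∃ e : V t ≃ V t', ∀ s, ecode δ κ t' (fun i => e (s i)) = ecode δ κ t s ∧ ∀ j,
      gcode δ t' (fun i => e (s i)) j ≤ rep g (gcode δ t s) j + ENNReal.ofReal (δ * (2 : ℕ)) ∧
      rep g (gcode δ t s) j ≤ gcode δ t' (fun i => e (s i)) j + ENNReal.ofReal (δ * (2 : ℕ)) := by
  obtain ⟨a1, a2, a3⟩ := (counta_mem _ _ _).1 ht
  obtain ⟨b1, b2, b3⟩ := (counta_mem _ _ _).1 ht'
  obtain ⟨e, c1, c2, c3⟩ := h
  have l1 : 1 ≤ per t := a2 ▸ hL
  have l2 : 1 ≤ per t' := b2 ▸ hL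
  have hB : ∀ x, dB t' (e x) = dB t x := fun x => by
    rw [dB_eq b1 l2, dB_eq a1 l1]
    congr 1
    ext k
    simp only [mem_ofPred_eq, c2, c1]
    exact (hπ.exists (p := fun z => dW t x (bz t z) = k)).symm
  have hn : ∀ x : ℚ, dW t (bz t (π ⌊2 * (L : ℚ) * x⌋)) (bz t ⌊2 * (L : ℚ) * g x⌋) ≤ 1 :=
    fun x => dW_bz_near a1 l1 (hg x).1 (hg x).2
  refine ⟨e, fun s => ⟨funext fun x => ?_, fun j => ?_⟩⟩
  · simp only [ecode, hB, c3]
  · have triv : ∀ {x y : ℝ≥0∞} (c : ℝ≥0∞), x = y → x ≤ y + c ∧ y ≤ x + c := fun c h =>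
      ⟨h.le.trans le_self_add, h.ge.trans le_self_add⟩
    cases j with
    | len => exact triv _ (by simp only [gcode, rep, a2, b2])
    | area => exact triv _ (by simp only [gcode, rep, a3, b3])
    | d i j => exact triv _ (by simp only [gcode, rep, c1])
    | f i => exact triv _ (by simp only [gcode, rep, hB])
    | b i x =>
      show _ ≤ gcode δ t s (.b i (g x)) + _ ∧ gcode δ t s (.b i (g x)) ≤ _
      rw [gcode_b δ l1, gcode_b δ l2, c2, c1, a2, b2]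
      have k1 := hn x
      have k2 := dW_triangle a1 (s i) (bz t (π ⌊2 * (L : ℚ) * x⌋)) (bz t ⌊2 * (L : ℚ) * g x⌋)
      have k3 := dW_triangle a1 (s i) (bz t ⌊2 * (L : ℚ) * g x⌋) (bz t (π ⌊2 * (L : ℚ) * x⌋))
      rw [dW_comm a1 (bz t ⌊2 * (L : ℚ) * g x⌋)] at k3
      exact ⟨db_ofReal hδ (by omega), db_ofReal hδ (by omega)⟩
    | e x y =>
      show _ ≤ gcode δ t s (.e (g x) (g y)) + _ ∧ gcode δ t s (.e (g x) (g y)) ≤ _
      rw [gcode_e δ l1, gcode_e δ l2, c2, c2, c1, a2, b2]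
      have k1 := hn x
      have k2 := hn y
      generalize bz t (π ⌊2 * (L : ℚ) * x⌋) = u at *
      generalize bz t (π ⌊2 * (L : ℚ) * y⌋) = v at *
      generalize bz t ⌊2 * (L : ℚ) * g x⌋ = u' at *
      generalize bz t ⌊2 * (L : ℚ) * g y⌋ = v' at *
      have k3 := dW_triangle a1 u u' v
      have k4 := dW_triangle a1 u' v' v
      have k5 := dW_triangle a1 u' u v'
      have k6 := dW_triangle a1 u v v'
      have k7 := dW_comm a1 u u'
      have k8 := dW_comm a1 v v'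
      exact ⟨db_ofReal hδ (by omega), db_ofReal hδ (by omega)⟩

theorem di_main {b : Base} (D : DiscLim b) {p : ℝ × ℝ} (h1 : 0 < p.1) (h2 : 0 < p.2) (g : ℚ → ℚ)
    (h : ∀ L m : ℕ, 1 ≤ L → ∃ (R : Mp → Mp) (π : ℤ → ℤ), BijOn R (countaT L m) (countaT L m) ∧
      Function.Surjective π ∧ (∀ t ∈ countaT L m, IsoZ π t (R t)) ∧
      ∀ x : ℚ, π ⌊2 * (L : ℚ) * x⌋ ≤ ⌊2 * (L : ℚ) * g x⌋ + 1 ∧
        ⌊2 * (L : ℚ) * g x⌋ ≤ π ⌊2 * (L : ℚ) * x⌋ + 1) :
    (D.Λ p).map (fun c => (rep g c.1, c.2)) = D.Λ p := by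
  have hT : Continuous fun c : OCode => ((rep g c.1, c.2) : OCode) :=
    ((continuous_rep g).comp continuous_fst).prodMk continuous_snd
  have := Measure.isProbabilityMeasure_map (μ := D.Λ p) hT.measurable.aemeasurable
  refine di_ext fun G hG => ?_
  rw [lintegral_map G.continuous.measurable hT.measurable]
  refine tendsto_nhds_unique (D.tendsto h1 h2 (G.comp ⟨_, hT⟩) fun c => hG _)
    (db_close (ne_top_of_le_ne_top ENNReal.one_ne_top (db_lint_le _ hG)) (D.tendsto h1 h2 G hG)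
      fun η hη => ?_)
  obtain ⟨n, hn⟩ := di_unif G hG hη
  have h3 : Tendsto (fun k => ENNReal.ofReal (b.δ k * (2 : ℕ))) b.U (𝓝 0) := by
    simpa using ENNReal.tendsto_ofReal (b.δ_lim.mul_const ((2 : ℕ) : ℝ))
  filter_upwards [(b.fL_top h1).eventually_ge_atTop 1,
    h3.eventually (ge_mem_nhds (ENNReal.inv_pos.2 (ENNReal.natCast_ne_top n)))] with k k1 k2
  obtain ⟨R, π, r1, r2, r3, r4⟩ := h _ (b.fM p k) k1
  refine (avs_iso r1 (H := fun t s => G (ocode (b.δ k) (b.κ k) t s))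
    (fun t => G.continuous.measurable.comp (measurable_ocode _ _ t)) fun t ht => ?_).symm
  obtain ⟨e, he⟩ := di_code k1 ht (r1.1 ht) r2 (r3 t ht) r4 (b.δ_pos k).le (b.κ k)
  refine ⟨e, fun s => ⟨hn _ _ (he s).1 fun j => ?_, hn _ _ (he s).1.symm fun j => ?_⟩⟩
  · exact ⟨((he s).2 j).1.trans (add_le_add_right k2 _),
      ((he s).2 j).2.trans (add_le_add_right k2 _)⟩
  · exact ⟨((he s).2 j).2.trans (add_le_add_right k2 _),
      ((he s).2 j).1.trans (add_le_add_right k2 _)⟩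

theorem inv_stmt (hS : SymStmt) : InvStmt := by
  refine fun b D p h1 h2 => ⟨fun θ => di_main D h1 h2 _ fun L m hL => ?_,
    di_main D h1 h2 _ fun L m hL => ?_⟩
  · have h0 : (0 : ℤ) < 2 * L := by positivity
    obtain ⟨R, r1, r2⟩ := (hS L m hL).1 (⌊2 * (L : ℚ) * θ⌋ % (2 * L)).toNat
    refine ⟨R, fun z => z + ⌊2 * (L : ℚ) * θ⌋, r1, add_right_surjective _, fun t ht => ?_,
      fun x => ?_⟩
    · obtain ⟨a1, a2, -⟩ := (counta_mem _ _ _).1 ht
      obtain ⟨b1, b2, -⟩ := (counta_mem _ _ _).1 (r1.1 ht)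
      refine isoZ_rot hL a1 b1 a2 b2 (j := ⌊2 * (L : ℚ) * θ⌋ / (2 * L)) ?_ (r2 t ht)
      rw [Int.toNat_of_nonneg (Int.emod_nonneg _ h0.ne')]
      exact (Int.emod_add_mul_ediv _ _).symm
    · rw [mul_add]
      have k1 := Int.le_floor_add (2 * (L : ℚ) * x) (2 * (L : ℚ) * θ)
      have k2 := Int.le_floor_add_floor (2 * (L : ℚ) * x) (2 * (L : ℚ) * θ)
      constructor <;> simp only <;> omega
  · obtain ⟨R, r1, r2⟩ := (hS L m hL).2
    refine ⟨R, fun z => -z, r1, neg_surjective, fun t ht => ?_, fun x => ?_⟩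
    · obtain ⟨a1, a2, -⟩ := (counta_mem _ _ _).1 ht
      obtain ⟨b1, b2, -⟩ := (counta_mem _ _ _).1 (r1.1 ht)
      exact isoZ_mir hL a1 b1 a2 b2 (r2 t ht)
    · rw [mul_neg, Int.floor_neg]
      have k1 := Int.floor_le_ceil (2 * (L : ℚ) * x)
      have k2 := Int.ceil_le_floor_add_one (2 * (L : ℚ) * x)
      constructor <;> simp only <;> omega

end Pool.Agent.QL.LC
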