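import Mathlib

/-! Two simple loops with the same image differ by a monotone change of parameter. -/

open Set Filter Topology

namespace Pool.Agent.QL.LC

theorem dl_coe_eq {s t : ℝ} : (s : UnitAddCircle) = t ↔ ∃ z : ℤ, s = t + z := by
  rw [← sub_eq_zero, ← AddCircle.coe_sub, AddCircle.coe_eq_zero_iff]
  simp only [zsmul_eq_mul, mul_one]
  exact ⟨fun ⟨z, h⟩ => ⟨z, by linarith⟩, fun ⟨z, h⟩ => ⟨z, by linarith⟩⟩

theorem dl_lift {Z : Type} [TopologicalSpace Z] [T2Space Z] {β β' : ℝ → Z} (hβ : Continuous β)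
    (hβ' : Continuous β') (hp : Function.Periodic β 1)
    (hi : ∀ s t, β s = β t → ∃ z : ℤ, s = t + z) (hr : ∀ t', ∃ t, β t = β' t') :
    ∃ φ : ℝ → ℝ, Continuous φ ∧ ∀ t, β (φ t) = β' t := by
  let B : UnitAddCircle → Z := hp.lift
  have hB : ∀ t : ℝ, B t = β t := hp.lift_coe
  have hBc : Continuous B :=
    (QuotientAddGroup.isQuotientMap_mk _).continuous_iff.2 (by
      have : B ∘ QuotientAddGroup.mk = β := funext hB
      rw [this]
      exact hβ)
  have hBi : Function.Injective B := by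
    intro a b hab
    induction a using QuotientAddGroup.induction_on with
    | H s =>
      induction b using QuotientAddGroup.induction_on with
      | H t => exact dl_coe_eq.2 (hi s t (by rw [← hB, ← hB]; exact hab))
  have he := (hBc.isClosedEmbedding hBi).isEmbedding
  choose g hg using hr
  have hψ : Continuous fun t => (g t : UnitAddCircle) := he.continuous_iff.2 (by
    have : B ∘ (fun t => (g t : UnitAddCircle)) = β' := funext fun t => (hB _).trans (hg t)
    rw [this]
    exact hβ')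
  obtain ⟨F, ⟨-, hF⟩, -⟩ := (AddCircle.isCoveringMap_coe (1 : ℝ)).existsUnique_continuousMap_lifts
    ⟨_, hψ⟩ 0 (g 0) rfl
  refine ⟨F, F.continuous, fun t => ?_⟩
  have h1 : ((F t : ℝ) : UnitAddCircle) = g t := congrFun hF t
  rw [← hB, h1, hB, hg]

theorem dl_mono {φ : ℝ → ℝ} (hφ : Continuous φ)
    (h1 : ∀ s t, (∃ z : ℤ, φ s = φ t + z) ↔ ∃ z : ℤ, s = t + z) :
    (StrictMono φ ∧ ∀ t, φ (t + 1) = φ t + 1) ∨ (StrictAnti φ ∧ ∀ t, φ (t + 1) = φ t - 1) := by
  have hc : Continuous fun t => φ (t + 1) - φ t :=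
    (hφ.comp (continuous_id.add continuous_const)).sub hφ
  have hz : ∀ t, ∃ z : ℤ, φ (t + 1) - φ t = z := fun t =>
    ((h1 (t + 1) t).2 ⟨1, by simp⟩).imp fun z h => by linarith
  obtain ⟨n, hn⟩ := hz 0
  have hconst : ∀ t, φ (t + 1) = φ t + n := by
    intro t
    obtain ⟨k, hk⟩ := hz t
    have key : ∀ (s s' : ℝ) (a b : ℤ), φ (s + 1) - φ s = a → φ (s' + 1) - φ s' = b → b ≤ a := by
      intro s s' a b ha hb
      by_contra hlt
      have h2 : (a : ℝ) + 1 ≤ b := by exact_mod_cast not_le.1 hlt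
      obtain ⟨u, hu⟩ := intermediate_value_univ s s' hc
        (show (a : ℝ) + 1 / 2 ∈ Icc (φ (s + 1) - φ s) (φ (s' + 1) - φ s') by
          rw [ha, hb]
          constructor <;> linarith)
      obtain ⟨w, hw⟩ := hz u
      have h3 : (w : ℝ) = a + 1 / 2 := hw.symm.trans hu
      have h4 : (2 * w : ℤ) = 2 * a + 1 := by
        have : (2 * w : ℝ) = 2 * a + 1 := by linarith
        exact_mod_cast this
      omega
    have := le_antisymm (key _ _ _ _ hn hk) (key _ _ _ _ hk hn)
    rw [← this]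
    linarith
  have hloc : ∀ s t, |s - t| < 1 → φ s = φ t → s = t := by
    intro s t hst he
    obtain ⟨z, hz⟩ := (h1 s t).1 ⟨0, by simpa using he⟩
    have h2 : |(z : ℝ)| < 1 := by rwa [hz, add_sub_cancel_left] at hst
    have h3 : z = 0 := Int.abs_lt_one_iff.1 (by exact_mod_cast h2)
    simpa [h3] using hz
  have hmid : ∀ (k : ℤ) (u : ℝ), u ∈ Ioo (0 : ℝ) 1 → φ u ≠ φ 0 + k := by
    intro k u hu he
    obtain ⟨z, hz⟩ := (h1 u 0).1 ⟨k, he⟩
    rw [zero_add] at hz
    have h2 : (0 : ℤ) < z := by exact_mod_cast hz ▸ hu.1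
    have h3 : z < 1 := by exact_mod_cast hz ▸ hu.2
    omega
  have h01 : φ 1 = φ 0 + n := by simpa using hconst 0
  have hn0 : n ≠ 0 := by
    rintro rfl
    obtain ⟨u, hu, hex⟩ := exists_Ioo_extr_on_Icc zero_lt_one hφ.continuousOn
      (show φ 0 = φ 1 by simpa using h01.symm)
    have hinj : ∀ a, InjOn φ (Icc a (a + 1 / 2)) := fun a s hs t ht =>
      hloc s t (by rw [abs_lt]; constructor <;> linarith [hs.1, hs.2, ht.1, ht.2])
    obtain ⟨r, hr0, hr1, hr2, hr3⟩ : ∃ r : ℝ, 0 < r ∧ r ≤ u ∧ r ≤ 1 - u ∧ r ≤ 1 / 4 :=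
      ⟨min (min u (1 - u)) (1 / 4), lt_min (lt_min hu.1 (sub_pos.2 hu.2)) (by norm_num),
        (min_le_left _ _).trans (min_le_left _ _), (min_le_left _ _).trans (min_le_right _ _),
        min_le_right _ _⟩
    have m1 : u - r ∈ Icc (u - r) (u - r + 1 / 2) := ⟨le_rfl, by linarith⟩
    have m2 : u ∈ Icc (u - r) (u - r + 1 / 2) := ⟨by linarith, by linarith⟩
    have m3 : u + r ∈ Icc (u - r) (u - r + 1 / 2) := ⟨by linarith, by linarith⟩
    have n1 : u - r ∈ Icc (0 : ℝ) 1 := ⟨by linarith, by linarith [hu.2]⟩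
    have n3 : u + r ∈ Icc (0 : ℝ) 1 := ⟨by linarith [hu.1], by linarith⟩
    rcases hφ.continuousOn.strictMonoOn_of_injOn_Icc' (by linarith) (hinj (u - r)) with hm | hm
    · have a1 := hm m1 m2 (by linarith)
      have a2 := hm m2 m3 (by linarith)
      rcases hex with he | he
      · exact absurd (he n1) (not_le.2 a1)
      · exact absurd (he n3) (not_le.2 a2)
    · have a1 := hm m1 m2 (by linarith)
      have a2 := hm m2 m3 (by linarith)
      rcases hex with he | he
      · exact absurd (he n3) (not_le.2 a2)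
      · exact absurd (he n1) (not_le.2 a1)
  have hn1 : n = 1 ∨ n = -1 := by
    by_contra hne
    rcases (by omega : 2 ≤ n ∨ n ≤ -2) with h2 | h2
    · have h3 : (2 : ℝ) ≤ n := by exact_mod_cast h2
      obtain ⟨u, hu, he⟩ := intermediate_value_Ioo zero_le_one hφ.continuousOn
        (show φ 0 + 1 ∈ Ioo (φ 0) (φ 1) by rw [h01]; constructor <;> linarith)
      exact hmid 1 u hu (by simpa using he)
    · have h3 : (n : ℝ) ≤ -2 := by exact_mod_cast h2
      obtain ⟨u, hu, he⟩ := intermediate_value_Ioo' zero_le_one hφ.continuousOn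
        (show φ 0 - 1 ∈ Ioo (φ 1) (φ 0) by rw [h01]; constructor <;> linarith)
      exact hmid (-1) u hu (by rw [he]; push_cast; ring)
  have hint : ∀ (z : ℤ) (t : ℝ), φ (t + z) = φ t + z * n := by
    intro z
    induction z using Int.induction_on with
    | zero => simp
    | succ k ih => intro t; push_cast at ih ⊢; rw [← add_assoc, hconst, ih]; ring
    | pred k ih =>
      intro t
      have h2 := hconst (t + (-k - 1))
      have h3 := ih t
      push_cast at h3 ⊢
      rw [show t + (-k - 1) + 1 = t + -k by ring, h3] at h2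
      linarith
  have hinj : Function.Injective φ := by
    intro s t he
    obtain ⟨z, hz⟩ := (h1 s t).1 ⟨0, by simpa using he⟩
    rw [hz, hint] at he
    have h2 : (z : ℝ) * n = 0 := by linarith
    have h3 : (z : ℝ) = 0 := (mul_eq_zero.1 h2).resolve_right (by exact_mod_cast hn0)
    rw [hz, h3, add_zero]
  rcases hφ.strictMono_of_inj hinj with hm | hm
  · have := hm zero_lt_one
    rcases hn1 with rfl | rfl
    · exact Or.inl ⟨hm, by simpa using hconst⟩
    · rw [h01] at this
      norm_num at this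
  · have := hm zero_lt_one
    rcases hn1 with rfl | rfl
    · rw [h01] at this
      norm_num at this
    · exact Or.inr ⟨hm, fun t => by rw [hconst]; push_cast; ring⟩

theorem dl_surj {φ : ℝ → ℝ} (hφ : Continuous φ) (hm : Monotone φ)
    (h1 : ∀ t, φ (t + 1) = φ t + 1) : Function.Surjective φ := by
  have hn : ∀ (n : ℕ) (t : ℝ), φ (t + n) = φ t + n := by
    intro n
    induction n with
    | zero => simp
    | succ k ih => intro t; push_cast; rw [← add_assoc, h1, ih]; ring
  refine hφ.surjective (hm.tendsto_atTop_atTop fun b => ?_) (hm.tendsto_atBot_atBot fun b => ?_)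
  · obtain ⟨n, h⟩ := exists_nat_ge (b - φ 0)
    exact ⟨0 + n, by rw [hn]; linarith⟩
  · obtain ⟨n, h⟩ := exists_nat_ge (φ 0 - b)
    have := hn n (-n)
    rw [neg_add_cancel] at this
    exact ⟨-n, by linarith⟩

end Pool.Agent.QL.LC
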