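import Pool.Agent.P.MP_7a6434d8_pr.QL.C.DExt
import Pool.Agent.P.MP_7a6434d8_pr.QL.C.DLift

/-! Rigidity: the inner geometry determines a good code up to an isometry of the boundary. -/

open MeasureTheory ProbabilityTheory Set Filter Topology
open scoped ENNReal

namespace Pool.Agent.QL.LC

theorem Ch.map {T T' : Type} [Preorder T] [Preorder T'] {β : T → ℝ≥0∞} {β' : T' → ℝ≥0∞}
    {g : T → T'} (hg : Monotone g) (he : ∀ t, β' (g t) = β t) {N : ℕ} {h : ℝ≥0∞} {x y : T}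
    {x' y' : T'} (hx : x' ≤ g x) (hy : g y ≤ y') (H : Ch β N h x y) : Ch β' N h x' y' := by
  obtain ⟨s, h1, h2, h3, h4⟩ := H
  refine ⟨fun i => g (s i), hg.comp h1, hx.trans (hg h2), (hg h3).trans hy, fun i hi => ?_⟩
  obtain ⟨u, v, a1, a2, a3, a4, a5⟩ := h4 i hi
  exact ⟨g u, g v, hg a1, hg a2, hg a3, hg a4, by rw [he, he]; exact a5⟩

theorem Ch.neg {β : ℝ → ℝ≥0∞} {N : ℕ} {h : ℝ≥0∞} {x y : ℝ} (H : Ch β N h x y) :
    Ch (fun t => β (-t)) N h (-y) (-x) := by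
  obtain ⟨s, h1, h2, h3, h4⟩ := H
  refine ⟨fun i => -s (N - i), fun i j hij => neg_le_neg (h1 (by omega)), neg_le_neg h3, ?_,
    fun i hi => ?_⟩
  · simpa using h2
  · obtain ⟨u, v, a1, a2, a3, a4, a5⟩ := h4 (N - (i + 1)) (by omega)
    rw [show N - (i + 1) + 1 = N - i by omega] at a2 a4
    exact ⟨-u, -v, neg_le_neg a2, neg_le_neg a1, neg_le_neg a4, neg_le_neg a3, by simpa using a5⟩

theorem Ch.rat {β : ℝ → ℝ≥0∞} (hβ : Continuous β) {N : ℕ} {h : ℝ≥0∞} {s t : ℝ} {x y : ℚ}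
    (hx : (x : ℝ) < s) (hy : t ≤ y) (H : Ch β N h s t) : Ch (fun u : ℚ => β u) N h x y := by
  obtain ⟨σ, h1, h2, h3, h4⟩ := H
  choose! u v h4 using h4
  have e1 : ∀ᶠ M in atTop, ∀ i ∈ Finset.range N, β (rn M (u i)) + h < β (rn M (v i)) :=
    (Finset.eventually_all _).2 fun i hi =>
      (((hβ.tendsto _).comp (tendsto_rn (u i))).add tendsto_const_nhds).eventually_lt
        ((hβ.tendsto _).comp (tendsto_rn (v i))) (h4 i (Finset.mem_range.1 hi)).2.2.2.2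
  have e2 : ∀ᶠ M in atTop, (x : ℝ) < rn M (σ 0) :=
    (tendsto_rn (σ 0)).eventually (lt_mem_nhds (hx.trans_le h2))
  obtain ⟨M, a1, a2⟩ := (e1.and e2).exists
  refine ⟨fun i => rn M (σ i), (rn_mono M).comp h1, by exact_mod_cast a2.le, ?_, fun i hi => ?_⟩
  · have := ((rn_le M (σ N)).trans h3).trans hy
    exact_mod_cast this
  · obtain ⟨b1, b2, b3, b4, -⟩ := h4 i hi
    exact ⟨rn M (u i), rn M (v i), rn_mono M b1, rn_mono M b2, rn_mono M b3, rn_mono M b4,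
      a1 i (Finset.mem_range.2 hi)⟩

/-- The clock property on short real intervals. -/
def RClock (β : ℝ → ℝ≥0∞) (ℓ : ℝ) : Prop :=
  ∀ s t : ℝ, s < t → t - s < 1 / 2 → ∀ q : ℚ,
    (4 * ℓ * (t - s) < q → ∀ᶠ n : ℕ in atTop, ¬ Ch β ⌈q * 4 ^ n⌉₊ (2⁻¹ ^ n) s t) ∧
    ((q : ℝ) < 4 * ℓ * (t - s) → ∀ᶠ n : ℕ in atTop, Ch β ⌈q * 4 ^ n⌉₊ (2⁻¹ ^ n) s t)

theorem Good.rclock {c : GG} (h : Good c) : RClock (bb c 0) (c .len).toReal := by
  intro s t hst hlt q
  set ℓ := (c .len).toReal with hℓ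
  have hℓ0 : 0 ≤ ℓ := ENNReal.toReal_nonneg
  have hb : (fun u : ℚ => bb c 0 u) = fun u => c (.b 0 u) := funext fun u => h.toGoodM.bb_rat 0 u
  constructor
  · intro hq
    have c1 : Continuous fun η : ℝ => t - s + 2 * η := by fun_prop
    have c2 : Continuous fun η : ℝ => 4 * ℓ * (t - s + 2 * η) := by fun_prop
    have e1 : ∀ᶠ η in 𝓝 (0 : ℝ), t - s + 2 * η < 1 / 2 :=
      (c1.tendsto 0).eventually (gt_mem_nhds (by simpa using hlt))
    have e2 : ∀ᶠ η in 𝓝 (0 : ℝ), 4 * ℓ * (t - s + 2 * η) < q :=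
      (c2.tendsto 0).eventually (gt_mem_nhds (by simpa using hq))
    obtain ⟨η, ⟨a1, a2⟩, a3⟩ := (((e1.and e2).filter_mono nhdsWithin_le_nhds).and
      (self_mem_nhdsWithin (s := Ioi (0 : ℝ)))).exists
    have a4 : 0 < η := a3
    obtain ⟨x, x1, x2⟩ := exists_rat_btwn (show s - η < s by linarith)
    obtain ⟨y, y1, y2⟩ := exists_rat_btwn (show t < t + η by linarith)
    have hxy : x ≤ y := by
      have : (x : ℝ) ≤ y := by linarith
      exact_mod_cast this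
    have hyx : y ≤ x + 1 / 2 := by
      rw [← Rat.cast_le (K := ℝ)]
      push_cast
      linarith
    refine ((h.clock x y hxy hyx q).1 (by nlinarith)).mono fun n hn H => hn ?_
    rw [← hb]
    exact H.rat (h.toGoodM.cont 0) x2 y1.le
  · intro hq
    have c1 : Continuous fun η : ℝ => t - s - 2 * η := by fun_prop
    have c2 : Continuous fun η : ℝ => 4 * ℓ * (t - s - 2 * η) := by fun_prop
    have e1 : ∀ᶠ η in 𝓝 (0 : ℝ), 0 < t - s - 2 * η :=
      (c1.tendsto 0).eventually (lt_mem_nhds (by simpa using hst))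
    have e2 : ∀ᶠ η in 𝓝 (0 : ℝ), (q : ℝ) < 4 * ℓ * (t - s - 2 * η) :=
      (c2.tendsto 0).eventually (lt_mem_nhds (by simpa using hq))
    obtain ⟨η, ⟨a1, a2⟩, a3⟩ := (((e1.and e2).filter_mono nhdsWithin_le_nhds).and
      (self_mem_nhdsWithin (s := Ioi (0 : ℝ)))).exists
    have a4 : 0 < η := a3
    obtain ⟨x, x1, x2⟩ := exists_rat_btwn (show s < s + η by linarith)
    obtain ⟨y, y1, y2⟩ := exists_rat_btwn (show t - η < t by linarith)
    have hxy : x ≤ y := by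
      have : (x : ℝ) ≤ y := by linarith
      exact_mod_cast this
    have hyx : y ≤ x + 1 / 2 := by
      rw [← Rat.cast_le (K := ℝ)]
      push_cast
      linarith
    refine ((h.clock x y hxy hyx q).2 (by nlinarith)).mono fun n hn => ?_
    exact hn.map (g := fun u : ℚ => (u : ℝ)) Rat.cast_mono (h.toGoodM.bb_rat 0) x1.le y2.le

theorem RClock.neg {β : ℝ → ℝ≥0∞} {ℓ : ℝ} (h : RClock β ℓ) : RClock (fun t => β (-t)) ℓ := by
  intro s t hst hlt q
  have h1 := h (-t) (-s) (by linarith) (by linarith) q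
  rw [show -s - -t = t - s by ring] at h1
  refine ⟨fun hq => (h1.1 hq).mono fun n hn H => hn ?_, fun hq => (h1.2 hq).mono fun n hn => ?_⟩
  · simpa using H.neg
  · simpa using hn.neg

theorem RClock.affine {β β' : ℝ → ℝ≥0∞} {ℓ ℓ' : ℝ} (h : RClock β ℓ) (h' : RClock β' ℓ')
    (φ : ℝ ≃o ℝ) (he : ∀ t, β (φ t) = β' t) (t : ℝ) : ℓ * φ t - ℓ' * t = ℓ * φ 0 := by
  have loc : ∀ s t, s < t → t - s < 1 / 2 → φ t - φ s < 1 / 2 →
      ℓ * φ t - ℓ' * t = ℓ * φ s - ℓ' * s := by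
    intro s t hst h1 h2
    have H := h (φ s) (φ t) (φ.strictMono hst) h2
    have H' := h' s t hst h1
    rcases lt_trichotomy (4 * ℓ * (φ t - φ s)) (4 * ℓ' * (t - s)) with hl | hl | hl
    · obtain ⟨q, q1, q2⟩ := exists_rat_btwn hl
      obtain ⟨n, a1, a2⟩ := (((H q).1 q1).and ((H' q).2 q2)).exists
      exact absurd (a2.map φ.monotone he le_rfl le_rfl) a1
    · linarith
    · obtain ⟨q, q1, q2⟩ := exists_rat_btwn hl
      obtain ⟨n, a1, a2⟩ := (((H' q).1 q1).and ((H q).2 q2)).exists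
      exact absurd (a2.map φ.symm.monotone (fun u => by rw [← he, φ.apply_symm_apply])
        (by simp) (by simp)) a1
  have hlc : IsLocallyConstant fun t => ℓ * φ t - ℓ' * t := by
    refine (IsLocallyConstant.iff_eventually_eq _).2 fun s => ?_
    filter_upwards [Metric.ball_mem_nhds s (show (0 : ℝ) < 1 / 2 by norm_num),
      (φ.continuous.tendsto s).eventually
        (Metric.ball_mem_nhds (φ s) (show (0 : ℝ) < 1 / 2 by norm_num))] with u h1 h2
    have h3 : |u - s| < 1 / 2 := h1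
    have h4 : |φ u - φ s| < 1 / 2 := h2
    rw [abs_lt] at h3 h4
    rcases lt_trichotomy s u with hl | hl | hl
    · exact loc s u hl h3.2 h4.2
    · rw [hl]
    · exact (loc u s hl (by linarith [h3.1]) (by linarith [h4.1])).symm
  simpa using hlc.apply_eq_of_preconnectedSpace t 0

theorem GoodM.range_sub {c c' : GG} (h : GoodM c) (h' : GoodM c') (hg : g0 c = g0 c') (t' : ℝ) :
    ∃ t, (fun i => bb c i t) = fun i => bb c' i t' := by
  have hd : ∀ i j, c (.d i j) = c' (.d i j) := fun i j =>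
    congrFun (congrFun (congrArg (fun g : G0 => g.2.1) hg) i) j
  have hf : ∀ i, c (.f i) = c' (.f i) := fun i => congrFun (congrArg (fun g : G0 => g.2.2) hg) i
  have h1 : ∀ n : ℕ, ∃ k, ∃ t ∈ Icc (0 : ℝ) 1, bb c' k t' ≤ (n + 1 : ℝ≥0∞)⁻¹ ∧
      bb c k t ≤ (n + 1 : ℝ≥0∞)⁻¹ := by
    intro n
    have hp : (0 : ℝ≥0∞) < (n + 1 : ℝ≥0∞)⁻¹ := by simp
    have hlt := ENNReal.half_lt_self hp.ne' (by simp)
    obtain ⟨k, hk⟩ := h'.denseR t' (ENNReal.half_pos hp.ne')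
    obtain ⟨t, ht, h2⟩ := h.exists_f k (ε := (n + 1 : ℝ≥0∞)⁻¹) (by
      rw [hf]
      exact ((h'.f_le k t').trans hk).trans_lt hlt)
    exact ⟨k, t, ht, hk.trans hlt.le, h2.le⟩
  choose k τ hτ h2 h3 using h1
  obtain ⟨t, -, ψ, hψ, hlim⟩ := isCompact_Icc.tendsto_subseq hτ
  have key : ∀ ε : ℝ≥0∞, 0 < ε → ∃ k, bb c' k t' ≤ ε / 2 ∧ bb c k t ≤ ε / 2 := by
    intro ε hε
    have hp := ENNReal.half_pos (ENNReal.half_pos hε.ne').ne'
    obtain ⟨θ, a1, a2⟩ := h.unif hp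
    obtain ⟨m, hm⟩ := dc_exists_inv hp
    obtain ⟨n, b1, b2⟩ := ((Metric.tendsto_nhds.1 hlim θ a1).and (eventually_ge_atTop m)).exists
    have b3 : (ψ n + 1 : ℝ≥0∞)⁻¹ ≤ ε / 2 / 2 := by
      refine le_trans (ENNReal.inv_le_inv.2 (add_le_add ?_ le_rfl)) hm
      exact_mod_cast b2.trans (hψ.id_le n)
    refine ⟨k (ψ n), ((h2 _).trans b3).trans ENNReal.half_le_self, ?_⟩
    refine (a2 _ t (τ (ψ n)) (by rw [abs_sub_comm]; exact le_of_lt b1)).trans ?_
    rw [← ENNReal.add_halves (ε / 2), ENNReal.add_halves]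
    calc _ ≤ ε / 2 / 2 + ε / 2 / 2 := add_le_add ((h3 _).trans b3) le_rfl
      _ = ε / 2 := ENNReal.add_halves _
  refine ⟨t, funext fun j => le_antisymm (dc_le_of_inv fun n => ?_) (dc_le_of_inv fun n => ?_)⟩
  · obtain ⟨k, a1, a2⟩ := key (n + 1 : ℝ≥0∞)⁻¹ (by simp)
    calc bb c j t ≤ c (.d j k) + bb c k t := h.tri2R j k t
      _ ≤ bb c' j t' + bb c' k t' + bb c k t := add_le_add (hd j k ▸ h'.tri1R j k t') le_rfl
      _ ≤ bb c' j t' + (n + 1 : ℝ≥0∞)⁻¹ / 2 + (n + 1 : ℝ≥0∞)⁻¹ / 2 :=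
          add_le_add (add_le_add le_rfl a1) a2
      _ = _ := by rw [add_assoc, ENNReal.add_halves]
  · obtain ⟨k, a1, a2⟩ := key (n + 1 : ℝ≥0∞)⁻¹ (by simp)
    calc bb c' j t' ≤ c' (.d j k) + bb c' k t' := h'.tri2R j k t'
      _ ≤ bb c j t + bb c k t + bb c' k t' := add_le_add (hd j k ▸ h.tri1R j k t) le_rfl
      _ ≤ bb c j t + (n + 1 : ℝ≥0∞)⁻¹ / 2 + (n + 1 : ℝ≥0∞)⁻¹ / 2 :=
          add_le_add (add_le_add le_rfl a2) a1
      _ = _ := by rw [add_assoc, ENNReal.add_halves]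

/-- orientation -/
def sg (σ : Bool) : ℝ := if σ then -1 else 1

theorem rig {c c' : GG} (h : Good c) (h' : Good c') (hg : g0 c = g0 c') :
    c' .len = c .len ∧ ∃ (σ : Bool) (τ : ℝ), ∀ i t, bb c' i t = bb c i (τ + sg σ * t) := by
  have H := h.toGoodM
  have H' := h'.toGoodM
  obtain ⟨φ, hφ, he⟩ := dl_lift (β := fun t i => bb c i t) (β' := fun t i => bb c' i t)
    (continuous_pi H.cont) (continuous_pi H'.cont) (fun t => funext fun i => H.perR i t)
    (fun s t hst => H.inj fun i => congrFun hst i) (H.range_sub H' hg)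
  have he' : ∀ i t, bb c i (φ t) = bb c' i t := fun i t => congrFun (he t) i
  have hℓ : 0 < (c .len).toReal := ENNReal.toReal_pos H.len_pos H.len_fin
  have main : ∀ (ψ : ℝ → ℝ) (β' : ℝ → ℝ≥0∞), Continuous ψ → StrictMono ψ →
      (∀ t, ψ (t + 1) = ψ t + 1) → RClock β' (c' .len).toReal → (∀ t, bb c 0 (ψ t) = β' t) →
      c' .len = c .len ∧ ∀ t, ψ t = ψ 0 + t := by
    intro ψ β' a1 a2 a3 a4 a5
    have b1 := h.rclock.affine a4 (a2.orderIsoOfSurjective ψ (dl_surj a1 a2.monotone a3)) a5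
    simp only [StrictMono.coe_orderIsoOfSurjective] at b1
    have b2 : (c' .len).toReal = (c .len).toReal := by
      have b3 := b1 1
      have b4 := a3 0
      rw [zero_add] at b4
      rw [b4] at b3
      linarith
    refine ⟨(ENNReal.toReal_eq_toReal_iff' H'.len_fin H.len_fin).1 b2, fun t => ?_⟩
    have b3 := b1 t
    rw [b2] at b3
    exact mul_left_cancel₀ hℓ.ne' (by linarith)
  rcases dl_mono hφ (fun s t => ⟨fun ⟨z, hz⟩ => H'.inj fun i => by
      rw [← he', ← he', hz, H.per_int], fun ⟨z, hz⟩ => H.inj fun i => by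
      rw [he', he', hz, H'.per_int]⟩) with ⟨a1, a2⟩ | ⟨a1, a2⟩
  · obtain ⟨b1, b2⟩ := main φ _ hφ a1 a2 h'.rclock (he' 0)
    exact ⟨b1, false, φ 0, fun i t => by rw [← he', b2 t]; simp [sg]⟩
  · obtain ⟨b1, b2⟩ := main (fun t => φ (-t)) _ (hφ.comp continuous_neg)
      (fun s t hst => a1 (neg_lt_neg hst)) (fun t => by
        have := a2 (-(t + 1))
        rw [show -(t + 1) + 1 = -t by ring] at this
        linarith) h'.rclock.neg fun t => he' 0 (-t)
    refine ⟨b1, true, φ 0, fun i t => ?_⟩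
    have := b2 (-t)
    simp only [neg_neg, neg_zero] at this
    rw [← he', this]
    simp [sg]

end Pool.Agent.QL.LC
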