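import Mathlib

/-! Thinning of a sequence of independent samples. -/

open MeasureTheory ProbabilityTheory Set Filter Topology
open scoped ENNReal

namespace Pool.Agent.QL

/-- Independent samples. -/
noncomputable def iid {X : Type} [MeasurableSpace X] (μ : Measure X) : Measure (ℕ → X) :=
  Measure.infinitePi fun _ : ℕ => μ

instance {X : Type} [MeasurableSpace X] (μ : Measure X) [IsProbabilityMeasure μ] :
    IsProbabilityMeasure (iid μ) := by
  unfold iid; infer_instance

/-- The samples that fall in `A`, enumerated. -/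
noncomputable def thinIn {X : Type} (A : Set X) (S : ℕ → X) (i : ℕ) : X :=
  S (Nat.nth (fun a => S a ∈ A) i)

theorem measurable_nat_sInf {Ω : Type} [MeasurableSpace Ω] {q : Ω → ℕ → Prop}
    (hq : ∀ a, MeasurableSet {ω | q ω a}) : Measurable fun ω => sInf {a | q ω a} := by
  refine measurable_to_countable' fun k => ?_
  have : (fun ω => sInf {a | q ω a}) ⁻¹' {k} =
      ({ω | q ω k} ∩ ⋂ j : ℕ, ⋂ _ : j < k, {ω | q ω j}ᶜ) ∪
        ((⋂ _ : k ≠ 0, ∅) ∩ ⋂ j : ℕ, {ω | q ω j}ᶜ) := by
    ext ω
    simp only [mem_preimage, mem_singleton_iff, mem_union, mem_inter_iff, mem_ofPred_eq,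
      mem_iInter, mem_compl_iff, mem_empty_iff_false]
    constructor
    · intro h
      by_cases hne : {a | q ω a}.Nonempty
      · left
        refine ⟨?_, fun j hj hqj => ?_⟩
        · have := Nat.sInf_mem hne
          rwa [h] at this
        · have := Nat.sInf_le (s := {a | q ω a}) hqj
          omega
      · right
        rw [not_nonempty_iff_eq_empty] at hne
        refine ⟨fun hk => hk ?_, fun j hj => ?_⟩
        · rw [← h, hne, Nat.sInf_empty]
        · have : j ∈ {a | q ω a} := hj
          rw [hne] at this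
          exact this
    · rintro (⟨h1, h2⟩ | ⟨h1, h2⟩)
      · refine le_antisymm (Nat.sInf_le h1) ?_
        by_contra hlt
        exact h2 _ (not_le.1 hlt) (Nat.sInf_mem (s := {a | q ω a}) ⟨k, h1⟩)
      · have e : {a | q ω a} = ∅ := eq_empty_of_forall_notMem h2
        rw [e, Nat.sInf_empty]
        by_contra hk
        exact h1 fun h => hk h.symm
  rw [this]
  exact ((hq k).inter (MeasurableSet.iInter fun j => MeasurableSet.iInter fun _ =>
    (hq j).compl)).union ((MeasurableSet.iInter fun _ => MeasurableSet.empty).inter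
      (MeasurableSet.iInter fun j => (hq j).compl))

theorem measurable_nth {Ω : Type} [MeasurableSpace Ω] {p : Ω → ℕ → Prop}
    (hp : ∀ a, MeasurableSet {ω | p ω a}) (i : ℕ) : Measurable fun ω => Nat.nth (p ω) i := by
  induction i using Nat.strong_induction_on with
  | _ i ih =>
    simp only [Nat.nth_eq_sInf _ i]
    refine measurable_nat_sInf fun a => (hp a).inter ?_
    have : {ω | ∀ k < i, Nat.nth (p ω) k < a} =
        ⋂ k, ⋂ _ : k < i, (fun ω => Nat.nth (p ω) k) ⁻¹' Iio a := by
      ext ω; simp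
    show MeasurableSet {ω | ∀ k < i, Nat.nth (p ω) k < a}
    rw [this]
    exact MeasurableSet.iInter fun k => MeasurableSet.iInter fun hk =>
      ih k hk measurableSet_Iio

/-- evaluation at a measurable index -/
theorem measurable_at {Ω X : Type} [MeasurableSpace Ω] [MeasurableSpace X] {S : Ω → ℕ → X}
    (hS : Measurable S) {n : Ω → ℕ} (hn : Measurable n) : Measurable fun ω => S ω (n ω) := by
  have h : Measurable fun p : (ℕ → X) × ℕ => p.1 p.2 :=
    measurable_from_prod_countable_left fun k => measurable_pi_apply k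
  exact h.comp (hS.prodMk hn)

variable {X : Type} [MeasurableSpace X]

theorem measurable_thinIn {A : Set X} (hA : MeasurableSet A) : Measurable (thinIn A) :=
  measurable_pi_iff.2 fun i => measurable_at measurable_id
    (measurable_nth (p := fun (S : ℕ → X) a => S a ∈ A) (fun a => measurable_pi_apply a hA) i)

theorem iid_comp_inj (μ : Measure X) [IsProbabilityMeasure μ] {f : ℕ → ℕ}
    (hf : Function.Injective f) : (iid μ).map (fun S i => S (f i)) = iid μ :=
  Measure.map_infinitePi_infinitePi_of_inj (P := fun _ : ℕ => μ) hf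

theorem iid_map {Y : Type} [MeasurableSpace Y] (μ : Measure X) [IsProbabilityMeasure μ]
    {f : X → Y} (hf : Measurable f) : (iid μ).map (fun S i => f (S i)) = iid (μ.map f) :=
  Measure.infinitePi_map_pi (μ := fun _ : ℕ => μ) (f := fun _ => f) fun _ => hf

theorem iid_ae (μ : Measure X) [IsProbabilityMeasure μ] {p : X → Prop} (h : ∀ᵐ x ∂μ, p x) :
    ∀ᵐ S ∂iid μ, ∀ i, p (S i) :=
  ae_all_iff.2 fun i =>
    (measurePreserving_eval_infinitePi (fun _ : ℕ => μ) i).quasiMeasurePreserving.ae h

theorem iid_infinite (μ : Measure X) [IsProbabilityMeasure μ] {A : Set X} (hA : MeasurableSet A)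
    (h0 : μ A ≠ 0) : ∀ᵐ S ∂iid μ, {a | S a ∈ A}.Infinite := by
  have hlt : μ Aᶜ < 1 := by
    rw [prob_compl_eq_one_sub hA]
    exact ENNReal.sub_lt_self ENNReal.one_ne_top one_ne_zero h0
  have key : ∀ n : ℕ, ∀ᵐ S ∂iid μ, ∃ a, n ≤ a ∧ S a ∈ A := by
    intro n
    rw [ae_iff]
    refine le_antisymm ?_ bot_le
    refine ge_of_tendsto' (ENNReal.tendsto_pow_atTop_nhds_zero_of_lt_one hlt) fun k => ?_
    calc iid μ {S | ¬∃ a, n ≤ a ∧ S a ∈ A}
        ≤ iid μ (Set.pi (Finset.Ico n (n + k)) fun _ => Aᶜ) := by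
          refine measure_mono fun S hS a ha hSa => hS ⟨a, ?_, hSa⟩
          exact (Finset.mem_Ico.1 ha).1
      _ = μ Aᶜ ^ k := by
          rw [iid, Measure.infinitePi_pi _ fun _ _ => hA.compl]
          simp
  filter_upwards [ae_all_iff.2 key] with S hS
  refine Set.infinite_of_forall_exists_gt fun n => ?_
  obtain ⟨a, h1, h2⟩ := hS (n + 1)
  exact ⟨a, h2, h1⟩

/-- two independent sequences are a sequence of independent pairs -/
theorem iid_zip {Y : Type} [MeasurableSpace Y] (μ : Measure X) (ν : Measure Y)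
    [IsProbabilityMeasure μ] [IsProbabilityMeasure ν] :
    ((iid μ).prod (iid ν)).map (fun p i => (p.1 i, p.2 i)) = iid (μ.prod ν) := by
  have hm : Measurable fun (p : (ℕ → X) × (ℕ → Y)) (i : ℕ) => (p.1 i, p.2 i) := by fun_prop
  refine Measure.eq_infinitePi (fun _ : ℕ => μ.prod ν) fun s t ht => ?_
  have hs : MeasurableSet (Set.pi (s : Set ℕ) t) := .pi s.countable_toSet fun _ _ => ht _
  rw [Measure.map_apply hm hs, Measure.prod_apply (hm hs)]
  have e1 : ∀ S : ℕ → X, iid ν (Prod.mk S ⁻¹' ((fun (p : (ℕ → X) × (ℕ → Y)) (i : ℕ) =>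
      (p.1 i, p.2 i)) ⁻¹' Set.pi (s : Set ℕ) t)) = ∏ i ∈ s, ν (Prod.mk (S i) ⁻¹' t i) := by
    intro S
    rw [iid, ← Measure.infinitePi_pi (fun _ : ℕ => ν) fun i _ => measurable_prodMk_left (ht i)]
    rfl
  simp only [e1]
  have hX : ∀ i, Measurable fun x : X => ν (Prod.mk x ⁻¹' t i) := fun i =>
    measurable_measure_prodMk_left (ht i)
  rw [iid, lintegral_prod_eq_prod_lintegral_of_indepFun s
    (fun i (S : ℕ → X) => ν (Prod.mk (S i) ⁻¹' t i))
    (iIndepFun_infinitePi (P := fun _ : ℕ => μ) hX) fun i => (hX i).comp (measurable_pi_apply i)]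
  refine Finset.prod_congr rfl fun i _ => ?_
  rw [Measure.prod_apply (ht i)]
  exact (measurePreserving_eval_infinitePi (fun _ : ℕ => μ) i).lintegral_comp (hX i)

open Classical in
theorem thin_one (μ : Measure X) [IsProbabilityMeasure μ] {A : Set X} (hA : MeasurableSet A)
    (h0 : μ A ≠ 0) :
    (μ.prod (μ[|A])).map (fun p => if p.1 ∈ A then p.2 else p.1) = μ := by
  have := cond_isProbabilityMeasure (μ := μ) h0
  have hm : Measurable fun p : X × X => if p.1 ∈ A then p.2 else p.1 :=
    Measurable.ite (measurable_fst hA) measurable_snd measurable_fst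
  ext t ht
  rw [Measure.map_apply hm ht]
  have e : (fun p : X × X => if p.1 ∈ A then p.2 else p.1) ⁻¹' t =
      A ×ˢ t ∪ (t \ A) ×ˢ univ := by
    ext p
    by_cases h : p.1 ∈ A <;> simp [h]
  rw [e, measure_union _ ((ht.diff hA).prod .univ), Measure.prod_prod, Measure.prod_prod,
    measure_univ, mul_one, cond_apply hA, ← mul_assoc,
    ENNReal.mul_inv_cancel h0 (measure_ne_top _ _), one_mul, inter_comm,
    measure_inter_add_sdiff _ hA]
  exact Set.disjoint_left.2 fun p h1 h2 => h2.1.2 h1.1

/-- Thinning, two-variable form: `H` depends on its first variable only through the pattern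
of the samples in `A` and the samples outside `A`. -/
theorem thin₂ (μ : Measure X) [IsProbabilityMeasure μ] {A : Set X} (hA : MeasurableSet A)
    (h0 : μ A ≠ 0) (H : (ℕ → X) → (ℕ → X) → ℝ≥0∞) (hH : Measurable (Function.uncurry H))
    (hinv : ∀ S S' T, (∀ a, S' a ∈ A ↔ S a ∈ A) → (∀ a, S a ∉ A → S' a = S a) →
      H S' T = H S T) :
    ∫⁻ S, H S (thinIn A S) ∂iid μ = ∫⁻ S, ∫⁻ T, H S T ∂iid (μ[|A]) ∂iid μ := by
  classical
  have := cond_isProbabilityMeasure (μ := μ) h0
  have hm : Measurable fun p : X × X => if p.1 ∈ A then p.2 else p.1 :=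
    Measurable.ite (measurable_fst hA) measurable_snd measurable_fst
  have hz : Measurable fun (p : (ℕ → X) × (ℕ → X)) (i : ℕ) => (p.1 i, p.2 i) := by fun_prop
  have hc : Measurable fun (Z : ℕ → X × X) (i : ℕ) =>
      if (Z i).1 ∈ A then (Z i).2 else (Z i).1 :=
    measurable_pi_iff.2 fun i => hm.comp (measurable_pi_apply i)
  have hF : Measurable fun S => H S (thinIn A S) :=
    hH.comp (measurable_id.prodMk (measurable_thinIn hA))
  have e1 : iid μ = (((iid μ).prod (iid (μ[|A]))).map fun p i => (p.1 i, p.2 i)).map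
      fun (Z : ℕ → X × X) (i : ℕ) => if (Z i).1 ∈ A then (Z i).2 else (Z i).1 := by
    rw [iid_zip, iid_map _ hm, thin_one μ hA h0]
  conv_lhs => rw [e1]
  rw [Measure.map_map hc hz, lintegral_map hF (hc.comp hz)]
  refine (lintegral_prod _ (hF.comp (hc.comp hz)).aemeasurable).trans ?_
  refine lintegral_congr_ae ?_
  filter_upwards [iid_infinite μ hA h0] with S hS
  have hinj := Nat.nth_injective (p := fun a => S a ∈ A) hS
  have hT : Measurable (H S) := hH.comp measurable_prodMk_left
  conv_rhs => rw [← iid_comp_inj (μ[|A]) hinj]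
  rw [lintegral_map hT (by fun_prop)]
  refine lintegral_congr_ae ?_
  filter_upwards [iid_ae (μ[|A]) (ae_cond_mem hA)] with T hTA
  have h1 : ∀ a, (if S a ∈ A then T a else S a) ∈ A ↔ S a ∈ A := by
    intro a
    by_cases h : S a ∈ A <;> simp [h, hTA a]
  have h2 : thinIn A (fun a => if S a ∈ A then T a else S a) =
      fun i => T (Nat.nth (fun a => S a ∈ A) i) := by
    funext i
    simp only [thinIn, h1]
    rw [if_pos (Nat.nth_mem_of_infinite (p := fun a => S a ∈ A) hS i)]
  show H (fun a => if S a ∈ A then T a else S a)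
    (thinIn A fun a => if S a ∈ A then T a else S a) = _
  rw [h2]
  exact hinv _ _ _ h1 fun a ha => if_neg ha

/-- Thinning: the samples in `A` are independent with the conditional law, and independent of the
pattern and of the samples outside `A`. -/
theorem thin (μ : Measure X) [IsProbabilityMeasure μ] {A : Set X} (hA : MeasurableSet A)
    (h0 : μ A ≠ 0) (F G : (ℕ → X) → ℝ≥0∞) (hF : Measurable F) (hG : Measurable G)
    (hinv : ∀ S S', (∀ a, S' a ∈ A ↔ S a ∈ A) → (∀ a, S a ∉ A → S' a = S a) → F S' = F S) :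
    ∫⁻ S, F S * G (thinIn A S) ∂iid μ = (∫⁻ S, F S ∂iid μ) * ∫⁻ T, G T ∂iid (μ[|A]) := by
  rw [thin₂ μ hA h0 (fun S T => F S * G T) ((hF.comp measurable_fst).mul (hG.comp measurable_snd))
    fun S S' T h1 h2 => by rw [hinv S S' h1 h2]]
  simp only [lintegral_const_mul _ hG]
  rw [lintegral_mul_const _ hF]

theorem thin_law (μ : Measure X) [IsProbabilityMeasure μ] {A : Set X} (hA : MeasurableSet A)
    (h0 : μ A ≠ 0) : (iid μ).map (thinIn A) = iid (μ[|A]) := by
  ext t ht
  have := thin μ hA h0 (fun _ => 1) (t.indicator 1) measurable_const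
    (measurable_one.indicator ht) fun _ _ _ _ => rfl
  rw [lintegral_one, measure_univ, one_mul, lintegral_indicator_one ht] at this
  rw [← this, ← lintegral_indicator_one ht,
    lintegral_map (measurable_one.indicator ht) (measurable_thinIn hA)]
  simp

end Pool.Agent.QL
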