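import Pool.Agent.P.MP_7a6434d8_pr.QL.Disc
import Pool.Agent.P.MP_7a6434d8_pr.QL.Sph.Defs2
import Pool.Agent.P.MP_7a6434d8_pr.QL.Hom.Defs
import Pool.Agent.P.MP_7a6434d8_pr.QL.Frames
import Pool.Agent.P.MP_7a6434d8_pr.QL.GT.Basic
import Pool.Agent.P.MP_7a6434d8_pr.QL.ND.Defs
import Pool.Agent.P.MP_7a6434d8_pr.QL.C.Thin
import Pool.Agent.P.MP_7a6434d8_pr.XMain

/-! Limits of codes of sampled maps: worlds, recoupling, systems, holes. -/

open MeasureTheory ProbabilityTheory Set Filter Topology Metric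
open scoped ENNReal unitInterval

namespace Pool.Agent.QL.LC

open Pool.Agent.LGD Pool.Agent.P.MP_7a6434d8_pr Pool.Agent.P.MP_7a6434d8_pr.Mp

/-! ### bases, realisations, worlds -/

/-- Edge lengths and resistance scales along an ultrafilter. -/
structure Base where
  U : Ultrafilter ℕ
  δ : ℕ → ℝ
  κ : ℕ → ℝ
  δ_pos : ∀ k, 0 < δ k
  κ_pos : ∀ k, 0 < κ k
  δ_lim : Tendsto δ U (𝓝 0)

/-- Labelled quadrangulations of any size. -/
abbrev QN : Type := Σ n : ℕ, Quad n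

/-- A map, a number in `[0, 1]` and a sequence of vertices. -/
def RZ : Type := Σ a : QN, I × (ℕ → a.2.Vertex)

instance : MeasurableSpace RZ := Sigma.instMeasurableSpace

/-- number of faces -/
def RZ.n (r : RZ) : ℕ := r.1.1
/-- the map -/
def RZ.q (r : RZ) : Quad r.n := r.1.2
/-- the dilation of the radii -/
def RZ.ρ (r : RZ) : I := r.2.1
/-- the samples -/
def RZ.S (r : RZ) : ℕ → r.q.Vertex := r.2.2
/-- constructor -/
def RZ.mk' {n : ℕ} (q : Quad n) (p : I × (ℕ → q.Vertex)) : RZ := ⟨⟨n, q⟩, p⟩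

/-- Uniform map with `n` faces, uniform `ρ`, independent uniform samples. -/
noncomputable def lawN (n : ℕ) : Measure RZ :=
  Measure.sum fun q : Quad n =>
    (Nat.card (Quad n) : ℝ≥0∞)⁻¹ • ((volume : Measure I).prod (smpl q.Vertex)).map (RZ.mk' q)

/-- Sizes depending on a random level. -/
structure World (b : Base) where
  ϑ : Measure ℝ
  prob : IsProbabilityMeasure ϑ
  N : ℕ → ℝ → ℕ
  N_meas : ∀ k, Measurable (N k)
  N_pos : ∀ k s, 1 ≤ N k s
  N_lim : ∀ T ε : ℝ, 0 < ε → ∀ᶠ k in (b.U : Filter ℕ), ∀ᵐ s ∂ϑ, |s| ≤ T →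
    |b.δ k ^ 4 * N k s - 9 / 8 * Real.exp (gam * s)| ≤ ε

attribute [instance] World.prob

/-- The law of the realisation. -/
noncomputable def World.law {b : Base} (w : World b) (k : ℕ) : Measure RZ :=
  w.ϑ.bind fun s => lawN (w.N k s)

/-- `Q` is the limit law of the code `f`. -/
def World.Lim {b : Base} (w : World b) {Y : Type} [TopologicalSpace Y] [MeasurableSpace Y]
    (f : ℕ → RZ → Y) (Q : Measure Y) : Prop :=
  ∀ G : C(Y, ℝ≥0∞), (∀ y, G y ≤ 1) →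
    Tendsto (fun k => ∫⁻ r, G (f k r) ∂w.law k) b.U (𝓝 (∫⁻ y, G y ∂Q))

/-! ### the basic code -/

/-- total mass and distance matrix -/
abbrev GC : Type := ℝ≥0∞ × (ℕ → ℕ → ℝ≥0∞)
/-- energies of ball data -/
abbrev EC : Type := Bool × BDat ℚ → ℝ≥0∞
/-- the basic code space -/
abbrev C0 : Type := GC × EC × (ℕ ⊕ List ℕ → ℝ≥0∞)

/-- scaled size and distances of the samples -/
noncomputable def gcd0 (δ : ℝ) (r : RZ) : GC :=
  (ENNReal.ofReal (δ ^ 4 * r.n), fun i j => ENNReal.ofReal (δ * r.q.graph.dist (r.S i) (r.S j)))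

/-- normalised energies of ball data -/
noncomputable def ecd0 (δ κ : ℝ) (r : RZ) : EC :=
  fun x => nrm κ x.1 * (gmQ r.q).ballE r.S x.1 (x.2.toN δ)

/-- covering radii and averages of products of exponentials -/
noncomputable def aux0 (δ : ℝ) (r : RZ) : ℕ ⊕ List ℕ → ℝ≥0∞
  | .inl N => ⨆ v, ⨅ (i : ℕ) (_ : i ≤ N), ENNReal.ofReal (δ * r.q.graph.dist (r.S i) v)
  | .inr l => ENNReal.ofReal ((∑ v, (l.map fun i =>
      Real.exp (-(δ * r.q.graph.dist (r.S i) v))).prod) / Nat.card r.q.Vertex)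

/-- the basic code -/
noncomputable def code0 (b : Base) (k : ℕ) (r : RZ) : C0 :=
  (gcd0 (b.δ k) r, ecd0 (b.δ k) (b.κ k) r, aux0 (b.δ k) r)

/-! ### the sphere with samples -/

/-- The data of the statement. -/
structure Setup where
  Ω : Type
  mΩ : MeasurableSpace Ω
  P : Measure Ω
  prob : IsProbabilityMeasure P
  d : Ω → Sph → Sph → ℝ
  μ : Ω → Measure ℂ
  hd : ∀ x y, Measurable fun ω => d ω x y
  O : SphOut2 P d μ
  atomless : ∀ᵐ ω ∂P, ∀ z, μ ω {z} = 0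
  conv : ConvLaw (fun n => (uniformOn univ : Measure (RootedQuad n))) P fun _ c ω =>
    gh (mdist (Quot.out c)) (vmeas (Quot.out c)) (d ω) ((μ ω).map (↑)) fun _ => 0

attribute [instance] Setup.mΩ Setup.prob

theorem measurable_iid {A X : Type} [MeasurableSpace A] [MeasurableSpace X] {m : A → Measure X}
    (hm : Measurable m) (hp : ∀ a, IsProbabilityMeasure (m a)) : Measurable fun a => iid (m a) := by
  refine Measure.measurable_of_measurable_coe _ fun s hs => ?_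
  refine MeasurableSpace.induction_on_inter (C := fun s _ => Measurable fun a => iid (m a) s)
    generateFrom_squareCylinders.symm (isPiSystem_squareCylinders
      (fun _ => MeasurableSpace.isPiSystem_measurableSet) fun _ => MeasurableSet.univ) ?_ ?_ ?_ ?_ s hs
  · simp
  · rintro _ ⟨J, t, ht, rfl⟩
    have : (fun a => iid (m a) ((J : Set ℕ).pi t)) = fun a => ∏ i ∈ J, m a (t i) := by
      funext a
      exact Measure.infinitePi_pi _ fun i _ => ht i (mem_univ i)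
    rw [this]
    exact Finset.measurable_prod _ fun i _ => (Measure.measurable_coe (ht i (mem_univ i))).comp hm
  · intro t ht h
    have : (fun a => iid (m a) tᶜ) = fun a => 1 - iid (m a) t := by
      funext a
      exact prob_compl_eq_one_sub ht
    rw [this]
    exact h.const_sub 1
  · intro f hd hf h
    simp only [measure_iUnion hd hf]
    exact Measurable.tsum h

/-- The kernel of independent samples. -/
noncomputable def iidK {A X : Type} [MeasurableSpace A] [MeasurableSpace X] (κ : Kernel A X)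
    [IsMarkovKernel κ] : Kernel A (ℕ → X) :=
  ⟨fun a => iid (κ a), measurable_iid κ.measurable fun _ => inferInstance⟩

instance {A X : Type} [MeasurableSpace A] [MeasurableSpace X] (κ : Kernel A X)
    [IsMarkovKernel κ] : IsMarkovKernel (iidK κ) :=
  ⟨fun a => inferInstanceAs (IsProbabilityMeasure (iid (κ a)))⟩

namespace Setup

variable (S : Setup)

instance : IsMarkovKernel S.O.κ := S.O.markov

/-- level, sphere, sample points -/
abbrev X : Type := (ℝ × S.Ω) × (ℕ → ℂ)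

/-- The law of level, sphere and sample points. -/
noncomputable def M (ϑ : Measure ℝ) : Measure S.X :=
  (ϑ.prod S.P) ⊗ₘ (iidK S.O.κ).comap Prod.snd measurable_snd

instance (ϑ : Measure ℝ) [IsProbabilityMeasure ϑ] : IsProbabilityMeasure (S.M ϑ) := by
  unfold M; infer_instance

/-- total mass and distance matrix of the sampled sphere -/
noncomputable def ginf (m : S.X) : GC :=
  (9 / 8 * ex (gam * m.1.1), fun i j => ex (gam / 4 * m.1.1) * S.O.dJ m.1.2 (m.2 i) (m.2 j))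

theorem measurable_ginf : Measurable S.ginf := by
  have h1 : ∀ c : ℝ, Measurable fun m : S.X => ex (c * m.1.1) := fun c =>
    (Real.measurable_exp.comp (measurable_fst.fst.const_mul c)).ennreal_ofReal
  refine ((h1 _).const_mul _).prodMk (measurable_pi_lambda _ fun i =>
    measurable_pi_lambda _ fun j => (h1 _).mul ?_)
  exact S.O.dJ_meas.comp (f := fun m : S.X => (m.1.2, m.2 i, m.2 j)) (by fun_prop)

/-- The metric at the level of `m`. -/
noncomputable def D (m : S.X) (y y' : Sph) : ℝ := Real.exp (gam / 4 * m.1.1) * S.d m.1.2 y y'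

/-- The field seen in the frame `F` at the level of `m`. -/
noncomputable def fld (F : Fr) (p : ℝ × S.Ω) : Dist := lev (S.O.kt F p.2) p.1

/-- Recoupling of a limit law with the sampled sphere, conditionally independent given the
distance matrix. -/
noncomputable def hat (ϑ : Measure ℝ) {Y : Type} [MeasurableSpace Y] [StandardBorelSpace Y]
    [Nonempty Y] (Q : Measure Y) [IsFiniteMeasure Q] (π : Y → GC) : Measure (S.X × Y) :=
  S.M ϑ ⊗ₘ (condDistrib id π Q).comap S.ginf S.measurable_ginf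

/-- Almost sure properties of the sampled sphere. -/
structure GoodPt (m : S.X) : Prop where
  geo : IsGeoMetric (S.d m.1.2)
  prob : IsProbabilityMeasure (S.μ m.1.2)
  supp : ∀ V : Set ℂ, IsOpen V → V.Nonempty → 0 < S.μ m.1.2 V
  atom : ∀ z, S.μ m.1.2 {z} = 0
  dJ : ∀ x y : ℂ, S.O.dJ m.1.2 x y = ENNReal.ofReal (S.d m.1.2 x y)
  dense : DenseRange m.2

/-- The code `c` is compatible with the sampled sphere. -/
structure GoodC (m : S.X) (c : C0) : Prop where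
  g : c.1 = S.ginf m
  cov : ⨅ N, c.2.2 (.inl N) = 0
  mass : ∀ l, c.2.2 (.inr l) = ∫⁻ z : ℂ, ENNReal.ofReal
    (l.map fun i => Real.exp (-S.D m (m.2 i) z)).prod ∂S.μ m.1.2

end Setup

/-! ### nets -/

/-- Positions of the vertices. -/
structure Pos (b : Base) (r : ℕ → RZ) (D : Sph → Sph → ℝ) (x : ℕ → ℂ)
    (p : ∀ k, (r k).q.Vertex → ℂ) : Prop where
  met : IsMet D
  dense : DenseRange x
  dist : ∀ ε > 0, ∀ᶠ k in (b.U : Filter ℕ), ∀ v v',
    |b.δ k * (r k).q.graph.dist v v' - D (p k v) (p k v')| ≤ ε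
  smp : ∀ i, Tendsto (fun k => D (x i) (p k ((r k).S i))) b.U (𝓝 0)

namespace Pos

variable {b : Base} {r : ℕ → RZ} {D : Sph → Sph → ℝ} {x : ℕ → ℂ}
  {p : ∀ k, (r k).q.Vertex → ℂ} (h : Pos b r D x p)

include h

theorem mesh (R η : ℝ) (hη : 0 < η) : ∀ᶠ k in (b.U : Filter ℕ), ∀ e e',
    ‖p k ((r k).q.tail e)‖ ≤ R → (toFMap (r k).q).Adj e e' →
    ‖p k ((r k).q.tail e') - p k ((r k).q.tail e)‖ ≤ η := by
  obtain ⟨θ, h1, h2⟩ := h.met.to_eucl R hη
  filter_upwards [b.δ_lim.eventually (ge_mem_nhds (show (0 : ℝ) < θ / 4 by positivity)),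
    h.dist _ (half_pos h1)] with k h3 h4 e e' he ha
  refine h2 _ _ he ?_
  have h5 : (((r k).q.graph.dist ((r k).q.tail e) ((r k).q.tail e') : ℕ) : ℝ) ≤ 2 := by
    exact_mod_cast adj_dist _ ha
  have h6 := (abs_le.1 (h4 ((r k).q.tail e) ((r k).q.tail e'))).1
  nlinarith [b.δ_pos k]

theorem near (z : ℂ) (η : ℝ) (hη : 0 < η) : ∀ᶠ k in (b.U : Filter ℕ),
    ∃ e, ‖p k ((r k).q.tail e) - z‖ ≤ η := by
  obtain ⟨i, hi⟩ := h.dense.exists_dist_lt z (half_pos hη)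
  obtain ⟨θ, h1, h2⟩ := h.met.to_eucl ‖x i‖ (half_pos hη)
  filter_upwards [(h.smp i).eventually (ge_mem_nhds h1)] with k h3
  refine ⟨Quotient.out ((r k).S i), ?_⟩
  rw [tail_out]
  have h4 := h2 _ _ le_rfl h3
  rw [dist_comm, dist_eq_norm] at hi
  calc _ = ‖(p k ((r k).S i) - x i) + (x i - z)‖ := by congr 1; ring
    _ ≤ η / 2 + η / 2 := (norm_add_le _ _).trans (add_le_add h4 hi.le)
    _ = η := by ring

theorem lift (R η : ℝ) (hη : 0 < η) : ∃ η' : ℝ, 0 < η' ∧ ∀ᶠ k in (b.U : Filter ℕ), ∀ e e',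
    ‖p k ((r k).q.tail e)‖ ≤ R → ‖p k ((r k).q.tail e') - p k ((r k).q.tail e)‖ ≤ η' →
    Relation.ReflTransGen (fun a c => (toFMap (r k).q).Adj a c ∧
      ‖p k ((r k).q.tail c) - p k ((r k).q.tail e)‖ ≤ η) e e' := by
  obtain ⟨θ, h1, h2⟩ := h.met.to_eucl R hη
  obtain ⟨η', h3, h4⟩ := h.met.of_eucl R (ε := θ / 4) (by positivity)
  refine ⟨η', h3, ?_⟩
  filter_upwards [h.dist (θ / 4) (by positivity)] with k h5 e e' he hee
  obtain ⟨w, hw⟩ := (graph_connected (r k).q).exists_walk_length_eq_dist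
    ((r k).q.tail e) ((r k).q.tail e')
  refine walk_chain (r k).q (fun z => ‖p k z - p k ((r k).q.tail e)‖ ≤ η) w (fun z hz => ?_)
    e e' rfl rfl
  classical
  refine h2 _ _ he ?_
  have h6 : (((r k).q.graph.dist ((r k).q.tail e) z : ℕ) : ℝ) ≤
      (r k).q.graph.dist ((r k).q.tail e) ((r k).q.tail e') := by
    rw [← hw]
    exact_mod_cast (SimpleGraph.dist_le _).trans (w.length_takeUntil_le_length hz)
  have h7 := (abs_le.1 (h5 ((r k).q.tail e) z)).1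
  have h8 := (abs_le.1 (h5 ((r k).q.tail e) ((r k).q.tail e'))).2
  have h9 := h4 _ _ he hee
  nlinarith [b.δ_pos k]

/-- The net of finite maps, with darts positioned at their tails. -/
noncomputable def toF : FNet where
  U := b.U
  M k := toFMap (r k).q
  p k e := p k ((r k).q.tail e)
  κ := b.κ
  κ_pos := b.κ_pos
  mesh := h.mesh
  dense := h.near
  lift := h.lift

end Pos

/-- The net of quadrangulations with speeds `a`. -/
noncomputable def qnet (b : Base) (r : ℕ → RZ) (p : ∀ k, (r k).q.Vertex → ℂ) (a : ℕ → ℝ) : Net :=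
  ⟨b.U, fun k => (r k).n, fun k => (r k).q, fun k v => (p k v : Sph), a⟩

/-- The samples within `4 r` of the centre are well inside `K`. -/
def InB (x : ℕ → ℂ) (𝒟 : ℕ → ℕ → ℝ≥0∞) (K : Set ℂ) (c : ℕ × ℚ) : Prop :=
  0 < c.2 ∧ ∃ m : ℕ, ∀ a, 𝒟 c.1 a < ENNReal.ofReal (4 * c.2) → ball (x a) (1 / (m + 1)) ⊆ K

/-- The ball data `j` are inside the data `y`. -/
def Ins (x : ℕ → ℂ) (𝒟 : ℕ → ℕ → ℝ≥0∞) (y : Data) (j : BDat ℚ) : Prop :=
  (∀ c ∈ j.1, InB x 𝒟 y.1 c) ∧ ∀ e ∈ j.2, ∃ e' ∈ y.2, (∀ c ∈ e.1, InB x 𝒟 (e'.1 ∩ y.1) c) ∧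
    (e.2.1 : ℝ) ≤ e'.2.1 ∧ e'.2.2 ≤ (e.2.2 : ℝ)

/-- The system read from positions, distances and energies. -/
noncomputable def sys (x : ℕ → ℂ) (𝒟 : ℕ → ℕ → ℝ≥0∞) (E : EC) : Sys :=
  (fun i => ⨆ (j : BDat ℚ) (_ : Ins x 𝒟 i.1 j), E (true, j),
   fun i => ⨆ (j : BDat ℚ) (_ : Ins x 𝒟 i.1 j), E (false, j))

/-- The system of a point of a recoupled world. -/
noncomputable def Setup.sysOf (S : Setup) (m : S.X) (c : C0) : Sys := sys m.2 c.1.2 c.2.1

/-! ### rings and holes in the limit -/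

/-- A family of balls and a target. -/
abbrev Rg : Type := List (ℕ × ℚ) × ℕ

/-- dilated radius -/
noncomputable def rd (ρ : I) (c : ℕ × ℚ) : ℝ≥0∞ := ENNReal.ofReal (c.2 * (1 + (ρ : ℝ)))

/-- distance of a sample to the union of the balls -/
noncomputable def fB (𝒟 : ℕ → ℕ → ℝ≥0∞) (J : List (ℕ × ℚ)) (ρ : I) (i : ℕ) : ℝ≥0∞ :=
  ⨅ (c : ℕ × ℚ) (_ : c ∈ J), 𝒟 i c.1 - rd ρ c

open Classical in
/-- length of a chain of samples whose steps are shorter than `f` -/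
noncomputable def cost (𝒟 : ℕ → ℕ → ℝ≥0∞) (f : ℕ → ℝ≥0∞) : ℕ → List ℕ → ℕ → ℝ≥0∞
  | a, [], b => if a = b then 0 else ⊤
  | a, i :: l, b => if 𝒟 a i < f a then 𝒟 a i + cost 𝒟 f i l b else ⊤

/-- chain distance -/
noncomputable def cd (𝒟 : ℕ → ℕ → ℝ≥0∞) (f : ℕ → ℝ≥0∞) (a b : ℕ) : ℝ≥0∞ := ⨅ l, cost 𝒟 f a l b

/-- the sample is in the hole -/
def inW (𝒟 : ℕ → ℕ → ℝ≥0∞) (α : Rg) (ρ : I) (a : ℕ) : Prop := cd 𝒟 (fB 𝒟 α.1 ρ) α.2 a < ⊤

/-- enumeration of the samples in the hole -/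
noncomputable def idx (𝒟 : ℕ → ℕ → ℝ≥0∞) (α : Rg) (ρ : I) (i : ℕ) : ℕ := Nat.nth (inW 𝒟 α ρ) i

open Classical in
/-- upper density -/
noncomputable def freq (p : ℕ → Prop) : ℝ≥0∞ :=
  limsup (fun M : ℕ => (Nat.count p M : ℝ≥0∞) / M) atTop

/-- The balls form a strictly connected family and the target is outside. -/
def EvI (𝒟 : ℕ → ℕ → ℝ≥0∞) (α : Rg) (ρ : I) : Prop :=
  α.1 ≠ [] ∧ (∀ c ∈ α.1, 0 < c.2) ∧ (∀ c ∈ α.1, ∀ c' ∈ α.1, Relation.ReflTransGen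
    (fun a a' : ℕ × ℚ => a' ∈ α.1 ∧ (𝒟 a.1 a'.1 < rd ρ a ∨ 𝒟 a.1 a'.1 < rd ρ a')) c c') ∧
  0 < fB 𝒟 α.1 ρ α.2

/-- area, inner distances, distances to the boundary -/
abbrev G0 : Type := ℝ≥0∞ × (ℕ → ℕ → ℝ≥0∞) × (ℕ → ℝ≥0∞)

/-- The part of the geometric code that does not see the parametrisation of the boundary. -/
def g0 (c : GIdx → ℝ≥0∞) : G0 := (c .area, fun i j => c (.d i j), fun i => c (.f i))

/-- The geometry of the hole read from the distance matrix. -/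
noncomputable def Gam (g : GC) (α : Rg) (ρ : I) : G0 :=
  (g.1 * freq (inW g.2 α ρ), fun i j => cd g.2 (fB g.2 α.1 ρ) (idx g.2 α ρ i) (idx g.2 α ρ j),
    fun i => fB g.2 α.1 ρ (idx g.2 α ρ i))

/-- The energy code of the hole read from the basic code. -/
noncomputable def inE (g : GC) (E : EC) (α : Rg) (ρ : I) : EC := fun x =>
  (x.2.balls.map fun c => cut c.2 (fB g.2 α.1 ρ (idx g.2 α ρ c.1)).toReal).prod *
    squash (E (x.1, x.2.map fun c => (idx g.2 α ρ c.1, c.2)))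

open Classical in
/-- The energies of the ball data away from the hole. -/
noncomputable def outE (g : GC) (E : EC) (α : Rg) (ρ : I) : EC := fun x =>
  if ∀ c ∈ x.2.balls, 0 < c.2 ∧ ∀ a, inW g.2 α ρ a → ENNReal.ofReal (2 * c.2) ≤ g.2 c.1 a
  then E x else 0

/-- Systems of holes for all sizes. -/
def HS : Type := {H : ∀ n, HoleSys n // ∀ n, (H n).Spec}

/-- integer radii -/
noncomputable def Jd (δ : ℝ) (ρ : I) (J : List (ℕ × ℚ)) : List (ℕ × ℕ) :=
  J.map fun c => (c.1, ⌊(c.2 : ℝ) * (1 + (ρ : ℝ)) / δ⌋₊)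

namespace RZ

variable (r : RZ) (H : HS) (δ : ℝ) (α : Rg)

/-- vertex set of the hole -/
def A : Set r.q.Vertex := VO r.q r.S (Jd δ r.ρ α.1) α.2
/-- the hole exists -/
def ev : Prop := Ev r.q r.S (Jd δ r.ρ α.1) α.2
/-- the hole -/
def W : Mp := (H.1 r.n).W r.q (r.A δ α)
/-- its vertices in the map -/
def ι : V (r.W H δ α) → r.q.Vertex := (H.1 r.n).ι r.q (r.A δ α)
/-- its samples -/
noncomputable def inn : ℕ → V (r.W H δ α) := (H.1 r.n).inner r.q (r.A δ α) r.S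

end RZ

/-- Properties of the holes along a net. -/
structure HoleOK (b : Base) (r : ℕ → RZ) (H : HS) (α : Rg) (g : GC) (ρ : I) (ℓ a : ℝ) : Prop where
  ev : ∀ᶠ k in (b.U : Filter ℕ), (r k).ev (b.δ k) α
  rho : Tendsto (fun k => (r k).ρ) b.U (𝓝 ρ)
  len_pos : 0 < ℓ
  len : Tendsto (fun k => b.δ k ^ 2 * per ((r k).W H (b.δ k) α)) b.U (𝓝 ℓ)
  area_pos : 0 < a
  area : Tendsto (fun k => b.δ k ^ 4 * size ((r k).W H (b.δ k) α)) b.U (𝓝 a)
  area_eq : ENNReal.ofReal a = (Gam g α ρ).1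
  e1 : ∀ ε > 0, ∃ θ > 0, ∀ᶠ k in (b.U : Filter ℕ), ∀ p p' : ℕ, p ≤ p' →
    p' ≤ 2 * per ((r k).W H (b.δ k) α) → (p' : ℝ) - p ≤ θ * per ((r k).W H (b.δ k) α) →
    b.δ k * dW ((r k).W H (b.δ k) α) (bv _ p) (bv _ p') ≤ ε
  e2 : ∀ θ > 0, ∃ ε > 0, ∀ᶠ k in (b.U : Filter ℕ), ∀ p p' : ℕ, p ≤ p' →
    p' ≤ 2 * per ((r k).W H (b.δ k) α) → θ * per ((r k).W H (b.δ k) α) ≤ (p' : ℝ) - p →
    (p' : ℝ) - p ≤ (2 - θ) * per ((r k).W H (b.δ k) α) →
    ε < b.δ k * dW ((r k).W H (b.δ k) α) (bv _ p) (bv _ p')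
  cover : ∀ ε > 0, ∃ N : ℕ, ∀ᶠ k in (b.U : Filter ℕ), ∀ v, ∃ i ≤ N,
    b.δ k * dW ((r k).W H (b.δ k) α) v ((r k).inn H (b.δ k) α i) ≤ ε
  pat : ∀ i, ∀ᶠ k in (b.U : Filter ℕ), ((r k).S i ∈ (r k).A (b.δ k) α ↔ inW g.2 α ρ i)
  inf : {i | inW g.2 α ρ i}.Infinite
  inn : ∀ i, ∀ᶠ k in (b.U : Filter ℕ),
    (r k).ι H (b.δ k) α ((r k).inn H (b.δ k) α i) = (r k).S (idx g.2 α ρ i)
  dist : ∀ i j, Tendsto (fun k => ENNReal.ofReal (b.δ k * dW ((r k).W H (b.δ k) α)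
    ((r k).inn H (b.δ k) α i) ((r k).inn H (b.δ k) α j))) b.U (𝓝 ((Gam g α ρ).2.1 i j))
  dist_fin : ∀ i j, (Gam g α ρ).2.1 i j ≠ ⊤
  bdry : ∀ i, Tendsto (fun k => ENNReal.ofReal (b.δ k * dB ((r k).W H (b.δ k) α)
    ((r k).inn H (b.δ k) α i))) b.U (𝓝 ((Gam g α ρ).2.2 i))
  inj : ∀ ε > 0, ∃ η > 0, ∀ᶠ k in (b.U : Filter ℕ), ∀ v v',
    b.δ k * (r k).q.graph.dist ((r k).ι H (b.δ k) α v) ((r k).ι H (b.δ k) α v') ≤ η →
    b.δ k * dW ((r k).W H (b.δ k) α) v v' ≤ ε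

/-! ### limit laws of discs -/

/-- The samples are dense up to the boundary and at finite distance. -/
def Dense3 (c : GIdx → ℝ≥0∞) : Prop := (∀ x, ⨅ i, c (.b i x) = 0) ∧ ∀ i j, c (.d i j) ≠ ⊤

/-- The limit law of the inner code. -/
structure DiscLim (b : Base) where
  Λ : Kernel (ℝ × ℝ) OCode
  markov : IsMarkovKernel Λ
  lim : ∀ (G : C(OCode, ℝ≥0∞)) (B : ℝ) (η : ℝ≥0∞), (∀ c, G c ≤ 1) → 0 < η →
    ∀ᶠ k in (b.U : Filter ℕ), ∀ L m : ℕ, MBox B (b.δ k) L m →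
      AVS L m (fun t s => G (ocode (b.δ k) (b.κ k) t s)) ≤
        ∫⁻ c, G c ∂Λ (b.δ k ^ 2 * L, b.δ k ^ 4 * m) + η ∧
      ∫⁻ c, G c ∂Λ (b.δ k ^ 2 * L, b.δ k ^ 4 * m) ≤
        AVS L m (fun t s => G (ocode (b.δ k) (b.κ k) t s)) + η
  cont : ∀ G : C(OCode, ℝ≥0∞), (∀ c, G c ≤ 1) →
    ContinuousOn (fun p => ∫⁻ c, G c ∂Λ p) (Ioi 0 ×ˢ Ioi 0)

/-- The energies are independent of the parametrisation of the boundary, with a universal
conditional law. -/
def DiscLim.Fact {b : Base} (D : DiscLim b) (K : Kernel G0 EC) : Prop :=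
  ∀ p : ℝ × ℝ, 0 < p.1 → 0 < p.2 → (∀ᵐ c ∂D.Λ p, Dense3 c.1) →
    ∀ (F : (GIdx → ℝ≥0∞) → ℝ≥0∞) (G : EC → ℝ≥0∞), Measurable F → Measurable G →
      ∫⁻ c, F c.1 * G c.2 ∂D.Λ p = ∫⁻ c, F c.1 * ∫⁻ e, G e ∂K (g0 c.1) ∂D.Λ p

/-! ### levels -/

/-- edge length at level `t` -/
noncomputable def del (t : ℝ) : ℝ := (9 / 8 : ℝ) ^ (1 / 4 : ℝ) * Real.exp (-(gam / 4 * t))

theorem del_pos (t : ℝ) : 0 < del t := mul_pos (by positivity) (Real.exp_pos _)

theorem gam_pos : 0 < gam := Real.sqrt_pos.2 (by norm_num)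

/-- The base of levels `t` and logarithmic normalisations `lk`. -/
noncomputable def mkBase (t lk : ℕ → ℝ) (𝒰 : Ultrafilter ℕ) (ht : Tendsto t 𝒰 atTop) : Base where
  U := 𝒰
  δ k := del (t k)
  κ k := Real.exp (lk k)
  δ_pos _ := del_pos _
  κ_pos _ := Real.exp_pos _
  δ_lim := by
    have h : Tendsto (fun k => Real.exp (-(gam / 4 * t k))) 𝒰 (𝓝 0) :=
      Real.tendsto_exp_neg_atTop_nhds_zero.comp
        (ht.const_mul_atTop (div_pos gam_pos (by norm_num)))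
    simpa [del] using h.const_mul ((9 / 8 : ℝ) ^ (1 / 4 : ℝ))

/-- `u` is locally bounded and flat at infinity. -/
def Slow (u : ℝ → ℝ) : Prop :=
  (∀ T : ℝ, ∃ B : ℝ, ∀ t, |t| ≤ T → |u t| ≤ B) ∧
    ∃ B : ℝ, ∀ m : ℝ, ∀ᶠ t in atTop, ∀ s, |s - t| ≤ m → |u s - u t| ≤ B

/-- resistance scale at boundary scale `a` -/
noncomputable def kapOf (u : ℝ → ℝ) (a : ℕ) : ℝ := Real.exp (u (2 * Real.log a / gam))

/-- resistance scale at size `n` -/
noncomputable def kapN (u : ℝ → ℝ) (n : ℕ) : ℝ := Real.exp (u (Real.log n / gam))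

end Pool.Agent.QL.LC
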