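import Pool.Agent.P.MP_7a6434d8_pr.QL.C.DBase

/-! Existence of the limit law of the inner code. -/

open MeasureTheory ProbabilityTheory Set Filter Topology
open scoped ENNReal NNReal BoundedContinuousFunction

namespace Pool.Agent.QL.LC

open Pool.Agent.P.MP_7a6434d8_pr Pool.Agent.P.MP_7a6434d8_pr.Mp Pool.Agent.QL.M1

/-- The law of the inner code of a uniform disc. -/
noncomputable def dlaw (δ κ : ℝ) (L m : ℕ) : Measure OCode :=
  ((countaT L m).card : ℝ≥0∞)⁻¹ • ∑ t ∈ countaT L m, (smpl (V t)).map (ocode δ κ t)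

theorem lintegral_dlaw (δ κ : ℝ) (L m : ℕ) {G : OCode → ℝ≥0∞} (hG : Measurable G) :
    ∫⁻ c, G c ∂dlaw δ κ L m = AVS L m fun t s => G (ocode δ κ t s) := by
  unfold dlaw AVS AV
  rw [lintegral_smul_measure, lintegral_finsetSum_measure, smul_eq_mul, div_eq_mul_inv, mul_comm]
  congr 1
  exact Finset.sum_congr rfl fun t _ => lintegral_map hG (measurable_ocode _ _ _)

theorem dlaw_prob (δ κ : ℝ) {L m : ℕ} (h : (countaT L m).Nonempty) :
    IsProbabilityMeasure (dlaw δ κ L m) := by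
  constructor
  rw [← lintegral_one, lintegral_dlaw _ _ _ _ measurable_const, avs_const, AV, Finset.sum_const,
    nsmul_eq_mul, mul_one]
  exact ENNReal.div_self (Nat.cast_ne_zero.2 h.card_pos.ne') (ENNReal.natCast_ne_top _)

theorem d1_exists (b : Base) (z : ℕ → ℕ × ℕ) (hz : ∀ k, (countaT (z k).1 (z k).2).Nonempty) :
    ∃ μ : Measure OCode, IsProbabilityMeasure μ ∧ ∀ G : C(OCode, ℝ≥0∞), (∀ c, G c ≤ 1) →
      Tendsto (fun k => AVS (z k).1 (z k).2 fun t s => G (ocode (b.δ k) (b.κ k) t s)) b.U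
        (𝓝 (∫⁻ c, G c ∂μ)) := by
  let P : ℕ → ProbabilityMeasure OCode := fun k => ⟨_, dlaw_prob (b.δ k) (b.κ k) (hz k)⟩
  obtain ⟨Q, -, hQ⟩ := isCompact_univ.ultrafilter_le_nhds (b.U.map P) (by simp)
  refine ⟨Q, inferInstance, fun G hG => ?_⟩
  have fin : ∀ y, G y ≠ ⊤ := fun y => ne_top_of_le_ne_top ENNReal.one_ne_top (hG y)
  have hc : Continuous fun y => (G y).toNNReal :=
    ENNReal.continuousOn_toNNReal.comp_continuous G.continuous fin
  have h := ProbabilityMeasure.tendsto_iff_forall_lintegral_tendsto.1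
    (show Tendsto P b.U (𝓝 Q) from hQ) (BoundedContinuousFunction.mkOfCompact ⟨_, hc⟩)
  simp only [BoundedContinuousFunction.mkOfCompact_apply, ContinuousMap.coe_mk,
    ENNReal.coe_toNNReal (fin _)] at h
  refine h.congr fun k => ?_
  exact lintegral_dlaw _ _ _ _ G.continuous.measurable

/-- strict membership in the box -/
def InB' (B : ℝ) (p : ℝ × ℝ) : Prop := 1 / B < p.1 ∧ p.1 < B ∧ 1 / B < p.2 ∧ p.2 < B

/-- the sizes `z` have the scaling limit `p` -/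
def Base.Sz (b : Base) (z : ℕ → ℕ × ℕ) (p : ℝ × ℝ) : Prop :=
  Tendsto (fun k => b.δ k ^ 2 * ((z k).1 : ℝ)) b.U (𝓝 p.1) ∧
    Tendsto (fun k => b.δ k ^ 4 * ((z k).2 : ℝ)) b.U (𝓝 p.2)

theorem d1_cmp (hS : SHStmt) (b : Base) (B : ℝ) (G : C(OCode, ℝ≥0∞)) (hG : ∀ c, G c ≤ 1)
    {η : ℝ≥0∞} (hη : 0 < η) : ∃ ζ > 0, ∀ z z' p p', b.Sz z p → b.Sz z' p' → InB' B p →
      InB' B p' → |p.1 - p'.1| < ζ → |p.2 - p'.2| < ζ → ∀ᶠ k in (b.U : Filter ℕ),
      (AVS (z k).1 (z k).2 fun t s => G (ocode (b.δ k) (b.κ k) t s)) ≤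
        (AVS (z' k).1 (z' k).2 fun t s => G (ocode (b.δ k) (b.κ k) t s)) + η := by
  obtain ⟨ζ, δ₀, h1, h2, H⟩ := hS B G η hG hη
  refine ⟨ζ, h1, fun z z' p p' a a' c c' d1 d2 => ?_⟩
  filter_upwards [b.δ_lim.eventually (ge_mem_nhds h2),
    b.box a.1 a.2 c.1 c.2.1 c.2.2.1 c.2.2.2, b.box a'.1 a'.2 c'.1 c'.2.1 c'.2.2.1 c'.2.2.2,
    (a.1.sub a'.1).abs.eventually (ge_mem_nhds d1), (a.2.sub a'.2).abs.eventually (ge_mem_nhds d2)]
    with k k1 k2 k3 k4 k5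
  refine H _ _ (b.δ_pos k) k1 (b.κ_pos k) _ _ _ _ k2 k3 ?_ ?_
  · rwa [← mul_sub, abs_mul, abs_of_nonneg (by positivity)] at k4
  · rwa [← mul_sub, abs_mul, abs_of_nonneg (by positivity)] at k5

theorem d1_near {ι : Type} {l : Filter ι} {x y : ι → ℝ≥0∞} {a : ℝ≥0∞} (ha : a ≠ ⊤)
    (hx : Tendsto x l (𝓝 a)) (hy : Tendsto y l (𝓝 a)) {η : ℝ≥0∞} (hη : 0 < η) :
    ∀ᶠ k in l, x k ≤ y k + η := by
  have h2 : 0 < η / 2 := ENNReal.half_pos hη.ne'
  filter_upwards [(ENNReal.tendsto_nhds ha).1 hx _ h2, (ENNReal.tendsto_nhds ha).1 hy _ h2]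
    with k k1 k2
  calc x k ≤ a + η / 2 := k1.2
    _ ≤ y k + η / 2 + η / 2 := by gcongr; exact tsub_le_iff_right.1 k2.1
    _ = y k + η := by rw [add_assoc, ENNReal.add_halves]

theorem disc1 (hS : SHStmt) : Disc1Stmt := fun b => by
  classical
  let Q : Set (ℝ × ℝ) := Ioi 0 ×ˢ Ioi 0
  have hQ : IsOpen Q := isOpen_Ioi.prod isOpen_Ioi
  let sz : ℝ × ℝ → ℕ → ℕ × ℕ := fun p k =>
    if p ∈ Q then (max 1 (b.fL p k), b.fM p k) else (0, 0)
  have hne : ∀ p k, (countaT (sz p k).1 (sz p k).2).Nonempty := fun p k => by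
    by_cases h : p ∈ Q
    · simp only [sz, if_pos h]
      exact db_nonempty _ _ (le_max_left _ _)
    · simp only [sz, if_neg h]
      exact db_nonempty_zero
  have hsz : ∀ p ∈ Q, b.Sz (sz p) p := fun p h => by
    simp only [Base.Sz, sz, if_pos h]
    refine ⟨(b.fL_lim h.1).congr' ?_, b.fM_lim h.2⟩
    filter_upwards [(b.fL_top h.1).eventually_ge_atTop 1] with k hk
    rw [max_eq_right hk]
  choose Λ hp hΛ using fun p => d1_exists b (sz p) (hne p)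
  have fin : ∀ (G : C(OCode, ℝ≥0∞)), (∀ c, G c ≤ 1) → ∀ p, ∫⁻ c, G c ∂Λ p ≠ ⊤ := fun G hG p =>
    ne_top_of_le_ne_top ENNReal.one_ne_top (db_lint_le _ hG)
  have hA : ∀ (G : C(OCode, ℝ≥0∞)), (∀ c, G c ≤ 1) → ∀ p ∈ Q, ∀ z, b.Sz z p →
      Tendsto (fun k => AVS (z k).1 (z k).2 fun t s => G (ocode (b.δ k) (b.κ k) t s)) b.U
        (𝓝 (∫⁻ c, G c ∂Λ p)) := fun G hG p h z hz => by
    obtain ⟨B, -, hB⟩ := Base.exists_B h.1 h.2
    refine db_close (fin G hG p) (hΛ p G hG) fun η hη => ?_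
    obtain ⟨ζ, h1, H⟩ := d1_cmp hS b B G hG hη
    exact (H _ _ p p hz (hsz p h) hB hB (by simpa) (by simpa)).and
      (H _ _ p p (hsz p h) hz hB hB (by simpa) (by simpa))
  have hC : ∀ (G : C(OCode, ℝ≥0∞)), (∀ c, G c ≤ 1) →
      ContinuousOn (fun p => ∫⁻ c, G c ∂Λ p) Q := fun G hG p h => by
    obtain ⟨B, -, hB⟩ := Base.exists_B h.1 h.2
    refine ContinuousAt.continuousWithinAt
      (db_close (fin G hG p) tendsto_const_nhds fun η hη => ?_)
    obtain ⟨ζ, h1, H⟩ := d1_cmp hS b B G hG hη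
    have e1 : Tendsto (fun p' : ℝ × ℝ => |p'.1 - p.1|) (𝓝 p) (𝓝 |p.1 - p.1|) :=
      (continuous_fst.continuousAt.tendsto.sub_const _).abs
    have e2 : Tendsto (fun p' : ℝ × ℝ => |p'.2 - p.2|) (𝓝 p) (𝓝 |p.2 - p.2|) :=
      (continuous_snd.continuousAt.tendsto.sub_const _).abs
    filter_upwards [hQ.mem_nhds h, e1.eventually (gt_mem_nhds (show _ < ζ by simpa)),
      e2.eventually (gt_mem_nhds (show _ < ζ by simpa)),
      continuous_fst.continuousAt.eventually (Ioo_mem_nhds hB.1 hB.2.1),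
      continuous_snd.continuousAt.eventually (Ioo_mem_nhds hB.2.2.1 hB.2.2.2)]
      with p' k0 k1 k2 k3 k4
    have hB' : InB' B p' := ⟨k3.1, k3.2, k4.1, k4.2⟩
    exact ⟨le_of_tendsto_of_tendsto (hΛ p' G hG) ((hΛ p G hG).add_const η)
        (H _ _ p' p (hsz p' k0) (hsz p h) hB' hB k1 k2),
      le_of_tendsto_of_tendsto (hΛ p G hG) ((hΛ p' G hG).add_const η)
        (H _ _ p p' (hsz p h) (hsz p' k0) hB hB' (by rwa [abs_sub_comm]) (by rwa [abs_sub_comm]))⟩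
  have h0 : ((0, 0) : ℝ × ℝ) ∉ Q := fun h => lt_irrefl (0 : ℝ) h.1
  have hM : ∀ (G : C(OCode, ℝ≥0∞)), (∀ c, G c ≤ 1) → Measurable fun p => ∫⁻ c, G c ∂Λ p :=
    fun G hG => by
    have e : (fun p => ∫⁻ c, G c ∂Λ p) =
        Q.piecewise (fun p => ∫⁻ c, G c ∂Λ p) fun _ => ∫⁻ c, G c ∂Λ (0, 0) := by
      funext p
      by_cases h : p ∈ Q
      · rw [piecewise_eq_of_mem _ _ _ h]
      · rw [piecewise_eq_of_notMem _ _ _ h]
        have a1 := hΛ p G hG
        have a2 := hΛ (0, 0) G hG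
        simp only [sz, if_neg h, if_neg h0] at a1 a2
        exact tendsto_nhds_unique a1 a2
    rw [e]
    exact (hC G hG).measurable_piecewise continuousOn_const hQ.measurableSet
  have hm : Measurable Λ := by
    refine Measurable.measure_of_isPiSystem_of_isProbabilityMeasure (S := {F | IsClosed F})
      (by rw [BorelSpace.measurable_eq (α := OCode), borel_eq_generateFrom_isClosed])
      isPiSystem_isClosed fun F hF => ?_
    refine ENNReal.measurable_of_tendsto (f := fun n p => ∫⁻ c, IsClosed.apprSeq hF n c ∂Λ p)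
      (fun n => hM ⟨_, ENNReal.continuous_coe.comp (IsClosed.apprSeq hF n).continuous⟩ fun c => ?_)
      (tendsto_pi_nhds.2 fun p => HasOuterApproxClosed.tendsto_lintegral_apprSeq hF (Λ p))
    exact ENNReal.coe_le_one_iff.2 (HasOuterApproxClosed.apprSeq_apply_le_one hF n c)
  refine ⟨⟨⟨Λ, hm⟩, ⟨hp⟩, fun G B η hG hη => ?_, hC⟩⟩
  rcases le_or_gt B 0 with hB | hB
  · have a2 := hΛ (0, 0) G hG
    simp only [sz, if_neg h0] at a2
    filter_upwards [d1_near (fin G hG _) a2 tendsto_const_nhds hη,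
      d1_near (fin G hG _) tendsto_const_nhds a2 hη] with k k1 k2 L m hb
    have d2 := pow_pos (b.δ_pos k) 2
    have d4 := pow_pos (b.δ_pos k) 4
    have hL : L = 0 := by
      have := nonpos_of_mul_nonpos_right (hb.2.1.trans hB) d2
      exact_mod_cast le_antisymm this (Nat.cast_nonneg L)
    have hm : m = 0 := by
      have := nonpos_of_mul_nonpos_right (hb.2.2.2.trans hB) d4
      exact_mod_cast le_antisymm this (Nat.cast_nonneg m)
    subst hL hm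
    simpa using And.intro k1 k2
  · by_contra hc
    have h1 : ∀ᶠ k in (b.U : Filter ℕ), ∃ z : ℕ × ℕ, MBox B (b.δ k) z.1 z.2 ∧
        ¬ ((AVS z.1 z.2 fun t s => G (ocode (b.δ k) (b.κ k) t s)) ≤
          ∫⁻ c, G c ∂Λ (b.δ k ^ 2 * z.1, b.δ k ^ 4 * z.2) + η ∧
        ∫⁻ c, G c ∂Λ (b.δ k ^ 2 * z.1, b.δ k ^ 4 * z.2) ≤
          (AVS z.1 z.2 fun t s => G (ocode (b.δ k) (b.κ k) t s)) + η) := by
      filter_upwards [Ultrafilter.eventually_not.2 hc] with k hk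
      by_contra h
      exact hk fun L m hb => by_contra fun h' => h ⟨(L, m), hb, h'⟩
    obtain ⟨z, hz⟩ := h1.choice
    obtain ⟨p, h2, h3⟩ := ((isCompact_Icc (a := 1 / B) (b := B)).prod
      (isCompact_Icc (a := 1 / B) (b := B))).ultrafilter_le_nhds
      (b.U.map fun k => (b.δ k ^ 2 * ((z k).1 : ℝ), b.δ k ^ 4 * ((z k).2 : ℝ))) (by
        rw [Ultrafilter.coe_map, le_principal_iff, mem_map]
        filter_upwards [hz] with k hk
        exact ⟨⟨hk.1.1, hk.1.2.1⟩, hk.1.2.2.1, hk.1.2.2.2⟩)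
    have h4 : Tendsto (fun k => (b.δ k ^ 2 * ((z k).1 : ℝ), b.δ k ^ 4 * ((z k).2 : ℝ))) b.U
      (𝓝 p) := h3
    have h5 : 0 < 1 / B := by positivity
    have hp' : p ∈ Q := ⟨h5.trans_le h2.1.1, h5.trans_le h2.2.1⟩
    have h6 := hA G hG p hp' z ⟨h4.fst_nhds, h4.snd_nhds⟩
    have h7 := ((hC G hG).continuousAt (hQ.mem_nhds hp')).tendsto.comp h4
    obtain ⟨k, k1, k2, k3⟩ := (hz.and ((d1_near (fin G hG p) h6 h7 hη).and
      (d1_near (fin G hG p) h7 h6 hη))).exists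
    exact k1.2 ⟨k2, k3⟩

end Pool.Agent.QL.LC
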