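import Pool.Agent.P.MP_7a6434d8_pr.QL.C.Haar

/-! A universal conditional law given the reduced code. -/

open MeasureTheory ProbabilityTheory Set Filter Topology
open scoped ENNReal

namespace Pool.Agent.QL

theorem haar_ext {G E : Type} [MeasurableSpace G] [MeasurableSpace E] (Λ : Measure (G × E))
    (K : Kernel G E) {F : G → ℝ≥0∞} (hF : Measurable F)
    (h : ∀ B, MeasurableSet B →
      ∫⁻ c, F c.1 * B.indicator 1 c.2 ∂Λ = ∫⁻ c, F c.1 * K c.1 B ∂Λ)
    {H : E → ℝ≥0∞} (hH : Measurable H) :
    ∫⁻ c, F c.1 * H c.2 ∂Λ = ∫⁻ c, F c.1 * ∫⁻ e, H e ∂K c.1 ∂Λ := by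
  have hF1 : Measurable fun c : G × E => F c.1 := hF.comp measurable_fst
  have hK : Measurable fun c : G × E => K c.1 := K.measurable.comp measurable_fst
  have e1 : ∀ H : E → ℝ≥0∞, Measurable H → ∫⁻ c, F c.1 * H c.2 ∂Λ =
      ∫⁻ e, H e ∂(Λ.withDensity fun c => F c.1).map Prod.snd := fun H hH => by
    have h2 : Measurable fun c : G × E => H c.2 := hH.comp measurable_snd
    rw [lintegral_map hH measurable_snd, lintegral_withDensity_eq_lintegral_mul _ hF1 h2]
    rfl
  have e2 : ∀ H : E → ℝ≥0∞, Measurable H → ∫⁻ c, F c.1 * ∫⁻ e, H e ∂K c.1 ∂Λ =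
      ∫⁻ e, H e ∂(Λ.withDensity fun c => F c.1).bind fun c => K c.1 := fun H hH => by
    have h2 : Measurable fun c : G × E => ∫⁻ e, H e ∂K c.1 :=
      (hH.lintegral_kernel (κ := K)).comp measurable_fst
    rw [Measure.lintegral_bind hK.aemeasurable hH.aemeasurable,
      lintegral_withDensity_eq_lintegral_mul _ hF1 h2]
    rfl
  rw [e1 H hH, e2 H hH]
  congr 1
  ext B hB
  rw [← lintegral_indicator_one hB, ← lintegral_indicator_one hB,
    ← e1 _ (measurable_one.indicator hB), ← e2 _ (measurable_one.indicator hB), h B hB]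
  simp only [lintegral_indicator_one hB]

theorem haar_kernel {P G E R Θ : Type} [MeasurableSpace P] [MeasurableSpace G]
    [StandardBorelSpace G] [MeasurableSpace E] [StandardBorelSpace E] [Nonempty E]
    [MeasurableSpace R] [StandardBorelSpace R] [MeasurableSpace Θ] (Λ : Kernel P (G × E))
    [IsMarkovKernel Λ] (m : Measure Θ) [IsProbabilityMeasure m] {act : Θ → G → G}
    (hact : Measurable (Function.uncurry act)) {red : G → R} (hred : Measurable red)
    {par : R → P} (hpar : Measurable par) {S : Set G} (hS : MeasurableSet S)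
    (hrig : ∀ g ∈ S, ∀ g' ∈ S, red g = red g' →
      m.map (fun θ => act θ g) = m.map fun θ => act θ g') :
    ∃ K : Kernel R E, IsMarkovKernel K ∧ ∀ p, (∀ᵐ c ∂Λ p, c.1 ∈ S ∧ par (red c.1) = p) →
      (∀ᵐ θ ∂m, (Λ p).map (fun c => (act θ c.1, c.2)) = Λ p) →
      ∀ (F : G → ℝ≥0∞) (H : E → ℝ≥0∞), Measurable F → Measurable H →
        ∫⁻ c, F c.1 * H c.2 ∂Λ p = ∫⁻ c, F c.1 * ∫⁻ e, H e ∂K (red c.1) ∂Λ p := by
  have hm : Measurable fun c : G × E => (red c.1, c.2) := by fun_prop
  have hm1 : Measurable fun c : G × E => red c.1 := by fun_prop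
  set κ : Kernel P (R × E) := Λ.map fun c => (red c.1, c.2) with hκ
  have : IsMarkovKernel κ := Kernel.IsMarkovKernel.map _ hm
  have hpr : Measurable fun r : R => (par r, r) := by fun_prop
  refine ⟨κ.condKernel.comap _ hpr, inferInstance, fun p hp hinv F H hF hH => ?_⟩
  refine haar_ext (Λ p) ((κ.condKernel.comap _ hpr).comap red hred) hF (fun B hB => ?_) hH
  have hφ : Measurable fun c : G × E => B.indicator (1 : E → ℝ≥0∞) c.2 :=
    (measurable_one.indicator hB).comp measurable_snd
  obtain ⟨h, hh, -, hc⟩ := haar_factor (Λ p) m hact hinv hred hS (hp.mono fun _ h => h.1) hrig hφ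
    (fun c => indicator_le_self' (fun _ _ => zero_le_one) c.2)
    fun θ => Eventually.of_forall fun _ => rfl
  have hk : Measurable fun r => κ.condKernel (p, r) B :=
    (κ.condKernel.measurable_coe hB).comp measurable_prodMk_left
  have e0 : κ.fst p = (Λ p).map fun c => red c.1 := by
    rw [Kernel.fst_apply, hκ, Kernel.map_apply _ hm, Measure.map_map measurable_fst hm]
    rfl
  have key : h =ᵐ[(Λ p).map fun c => red c.1] fun r => κ.condKernel (p, r) B := by
    refine ae_eq_of_forall_setLIntegral_eq_of_sigmaFinite hh hk fun T hT _ => ?_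
    have hi : Measurable (T.indicator (1 : R → ℝ≥0∞)) := measurable_one.indicator hT
    have h1 := hc (fun g => T.indicator 1 (red g)) (hi.comp hred)
    have h2 : Measurable fun r => T.indicator (1 : R → ℝ≥0∞) r * h r := hi.mul hh
    have h3 : Measurable fun x : R × E =>
        T.indicator (1 : R → ℝ≥0∞) x.1 * B.indicator (1 : E → ℝ≥0∞) x.2 :=
      (hi.comp measurable_fst).mul ((measurable_one.indicator hB).comp measurable_snd)
    have h4 := lintegral_condKernel (κ := κ) h3 p
    have e1 : κ p = (Λ p).map fun c => (red c.1, c.2) := Kernel.map_apply _ hm p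
    rw [e1, lintegral_map h3 hm, h1, ← lintegral_map h2 hm1, e0] at h4
    have h5 : ∀ g : R → ℝ≥0∞, (fun r => T.indicator (1 : R → ℝ≥0∞) r * g r) = T.indicator g := by
      intro g
      funext r
      by_cases hr : r ∈ T <;> simp [hr]
    simp only [lintegral_const_mul _ (measurable_one.indicator hB),
      lintegral_indicator_one hB] at h4
    rw [h5, h5, lintegral_indicator hT, lintegral_indicator hT] at h4
    exact h4.symm
  rw [hc F hF]
  refine lintegral_congr_ae ?_
  filter_upwards [ae_of_ae_map hm1.aemeasurable key, hp] with c h1 h2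
  rw [h1, Kernel.comap_apply, Kernel.comap_apply, h2.2]

end Pool.Agent.QL
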