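import Pool.Agent.P.MP_7a6434d8_pr.QL.C.DRig
import Pool.Agent.P.MP_7a6434d8_pr.QL.C.HaarK

/-! The universal conditional law of the energies given the inner geometry. -/

open MeasureTheory ProbabilityTheory Set Filter Topology
open scoped ENNReal

namespace Pool.Agent.QL.LC

/-- Isometries of the boundary act on good codes. -/
noncomputable def actR (σ : Bool) (θ : ℝ) (c : GG) : GG
  | .b i x => bb c i (θ + sg σ * x)
  | .e x y => ee c (θ + sg σ * x) (θ + sg σ * y)
  | j => c j

theorem measurable_actR (σ : Bool) : Measurable fun p : ℝ × GG => actR σ p.1 p.2 := by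
  have h : ∀ i (a : ℝ), Measurable fun p : ℝ × GG => bb p.2 i (p.1 + a) := fun i a =>
    (measurable_bb i).comp (measurable_snd.prodMk (measurable_fst.add_const a))
  refine measurable_pi_iff.2 fun j => ?_
  cases j with
  | b i x => exact h i _
  | e x y => exact Measurable.iInf fun i => (h i _).add (h i _)
  | len => exact (measurable_pi_apply GIdx.len).comp measurable_snd
  | area => exact (measurable_pi_apply GIdx.area).comp measurable_snd
  | d i j => exact (measurable_pi_apply (GIdx.d i j)).comp measurable_snd
  | f i => exact (measurable_pi_apply (GIdx.f i)).comp measurable_snd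

theorem GoodM.cont_actR {c : GG} (h : GoodM c) (σ : Bool) : Continuous fun θ => actR σ θ c := by
  refine continuous_pi fun j => ?_
  cases j with
  | b i x => exact (h.cont i).comp (continuous_id.add continuous_const)
  | e x y =>
    have h1 : Continuous fun θ : ℝ => (θ + sg σ * x, θ + sg σ * y) := by fun_prop
    have h2 := h.cont_ee.comp h1
    simpa only [Function.comp_def, actR] using h2
  | len => exact continuous_const
  | area => exact continuous_const
  | d i j => exact continuous_const
  | f i => exact continuous_const

theorem GoodM.actR_int {c : GG} (h : GoodM c) (σ : Bool) (θ : ℝ) (z : ℤ) :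
    actR σ (θ + z) c = actR σ θ c := by
  funext j
  cases j with
  | b i x => simp only [actR]; rw [add_right_comm, h.per_int]
  | e x y => simp only [actR, ee, add_right_comm θ (z : ℝ), h.per_int]
  | _ => rfl

theorem GoodM.actR_false {c : GG} (h : GoodM c) (q : ℚ) :
    actR false q c = rep (fun x => x + q) c := by
  have e : ∀ x : ℚ, (q : ℝ) + sg false * x = ((x + q : ℚ) : ℝ) := fun x => by
    simp [sg, add_comm]
  funext j
  cases j with
  | b i x => simp only [actR, rep, e, h.bb_rat]
  | e x y => simp only [actR, rep, e, h.ee_rat]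
  | _ => rfl

theorem GoodM.actR_true {c : GG} (h : GoodM c) (q : ℚ) :
    actR true q c = rep (fun x => -x) (rep (fun x => x + q) c) := by
  have e : ∀ x : ℚ, (q : ℝ) + sg true * x = ((-x + q : ℚ) : ℝ) := fun x => by
    simp [sg, add_comm]
  funext j
  cases j with
  | b i x => simp only [actR, rep, e, h.bb_rat]
  | e x y => simp only [actR, rep, e, h.ee_rat]
  | _ => rfl

theorem actR_inv (Λ : Measure OCode) [IsProbabilityMeasure Λ] (hg : ∀ᵐ c ∂Λ, GoodM c.1)
    (h1 : ∀ θ : ℚ, Λ.map (fun c => (rep (fun x => x + θ) c.1, c.2)) = Λ)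
    (h2 : Λ.map (fun c => (rep (fun x => -x) c.1, c.2)) = Λ) (σ : Bool) (θ : ℝ) :
    Λ.map (fun c => (actR σ θ c.1, c.2)) = Λ := by
  have hm : ∀ θ : ℝ, Measurable fun c : OCode => (actR σ θ c.1, c.2) := fun θ =>
    ((measurable_actR σ).comp (measurable_const.prodMk measurable_fst)).prodMk measurable_snd
  have hr : ∀ g, Measurable fun c : OCode => (rep g c.1, c.2) := fun g =>
    ((continuous_rep g).measurable.comp measurable_fst).prodMk measurable_snd
  have hq : ∀ q : ℚ, Λ.map (fun c => (actR σ q c.1, c.2)) = Λ := by
    intro q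
    cases σ with
    | false =>
      exact (Measure.map_congr (hg.mono fun c hc => by simp only [hc.actR_false])).trans (h1 q)
    | true =>
      have e : Λ.map (fun c => (actR true q c.1, c.2)) =
          (Λ.map fun c => (rep (fun x => x + q) c.1, c.2)).map
            fun c => (rep (fun x => -x) c.1, c.2) := by
        rw [Measure.map_map (hr _) (hr _)]
        exact Measure.map_congr (hg.mono fun c hc => by
          simp only [hc.actR_true, Function.comp_apply])
      rw [e, h1, h2]
  refine ext_of_forall_integral_eq_of_IsFiniteMeasure fun f => ?_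
  have hf := f.continuous.measurable
  rw [integral_map (hm θ).aemeasurable hf.aestronglyMeasurable]
  have lim := tendsto_integral_of_dominated_convergence (μ := Λ)
    (F := fun n c => f (actR σ (rn n θ) c.1, c.2)) (f := fun c => f (actR σ θ c.1, c.2))
    (fun _ => ‖f‖) (fun n => (hf.comp (hm _)).aestronglyMeasurable) (integrable_const _)
    (fun n => Eventually.of_forall fun c => f.norm_coe_le_norm _)
    (hg.mono fun c hc => (f.continuous.tendsto _).comp
      ((((hc.cont_actR σ).tendsto θ).comp (tendsto_rn θ)).prodMk_nhds tendsto_const_nhds))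
  have e : ∀ n, ∫ c, f (actR σ (rn n θ) c.1, c.2) ∂Λ = ∫ c, f c ∂Λ := fun n => by
    conv_rhs => rw [← hq (rn n θ)]
    rw [integral_map (hm _).aemeasurable hf.aestronglyMeasurable]
  simp only [e] at lim
  exact tendsto_nhds_unique lim tendsto_const_nhds

/-- representative of a point of the circle -/
noncomputable def crep (a : UnitAddCircle) : ℝ := AddCircle.equivIco 1 0 a

theorem measurable_crep : Measurable crep :=
  measurable_subtype_coe.comp (AddCircle.measurableEquivIco 1 0).measurable

theorem coe_crep (a : UnitAddCircle) : (crep a : UnitAddCircle) = a :=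
  (AddCircle.equivIco 1 0).symm_apply_apply a

/-- the action of the isometry group of the circle -/
noncomputable def act (a : Bool × UnitAddCircle) (c : GG) : GG := actR a.1 (crep a.2) c

theorem measurable_act : Measurable (Function.uncurry act) := by
  have h : Measurable fun p : (ℝ × GG) × Bool => actR p.2 p.1.1 p.1.2 :=
    measurable_from_prod_countable_left fun σ => measurable_actR σ
  exact h.comp (f := fun p : (Bool × UnitAddCircle) × GG => ((crep p.1.2, p.2), p.1.1))
    (((measurable_crep.comp (measurable_snd.comp measurable_fst)).prodMk measurable_snd).prodMk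
      (measurable_fst.comp measurable_fst))

/-- fair coin -/
noncomputable def coin : Measure Bool := (2⁻¹ : ℝ≥0∞) • (Measure.dirac true + Measure.dirac false)

instance : IsProbabilityMeasure coin := ⟨by
  simp only [coin, Measure.smul_apply, Measure.add_apply, measure_univ, smul_eq_mul,
    one_add_one_eq_two]
  exact ENNReal.inv_mul_cancel two_ne_zero ENNReal.ofNat_ne_top⟩

instance dcCircleProb : IsProbabilityMeasure (volume : Measure UnitAddCircle) :=
  ⟨UnitAddCircle.measure_univ⟩

theorem coin_not : MeasurePreserving (fun σ : Bool => !σ) coin coin := by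
  have h : Measurable fun σ : Bool => !σ := measurable_of_countable _
  refine ⟨h, ?_⟩
  rw [coin, Measure.map_smul, Measure.map_add _ _ h, Measure.map_dirac' h, Measure.map_dirac' h,
    add_comm]
  rfl

theorem act_rig {c c' : GG} (h : Good c) (h' : Good c') (hg : g0 c = g0 c') :
    (coin.prod volume).map (fun a => act a c) = (coin.prod volume).map fun a => act a c' := by
  obtain ⟨hl, σ, τ, he⟩ := rig h h' hg
  have hd : ∀ i j, c (.d i j) = c' (.d i j) := fun i j =>
    congrFun (congrFun (congrArg (fun g : G0 => g.2.1) hg) i) j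
  have hf : ∀ i, c (.f i) = c' (.f i) := fun i => congrFun (congrArg (fun g : G0 => g.2.2) hg) i
  have ha : c .area = c' .area := congrArg (fun g : G0 => g.1) hg
  have key : ∀ σ' θ, actR σ' θ c' = actR (xor σ σ') (τ + sg σ * θ) c := by
    intro σ' θ
    have e : ∀ x : ℝ, τ + sg σ * (θ + sg σ' * x) = τ + sg σ * θ + sg (xor σ σ') * x := by
      intro x
      cases σ <;> cases σ' <;> simp [sg] <;> ring
    funext j
    cases j with
    | b i x => simp only [actR, he, e]
    | e x y => simp only [actR, ee, he, e]
    | len => exact hl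
    | area => exact ha.symm
    | d i j => exact (hd i j).symm
    | f i => exact (hf i).symm
  have hm : Measurable fun a => act a c := measurable_act.comp measurable_prodMk_right
  have fin : ∀ T : Bool × UnitAddCircle → Bool × UnitAddCircle,
      MeasurePreserving T (coin.prod volume) (coin.prod volume) →
      (∀ a, (T a).1 = xor σ a.1 ∧ (T a).2 = ((τ + sg σ * crep a.2 : ℝ) : UnitAddCircle)) →
      (coin.prod volume).map (fun a => act a c) = (coin.prod volume).map fun a => act a c' := by
    intro T hT h1
    conv_lhs => rw [← hT.map_eq]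
    rw [Measure.map_map hm hT.measurable]
    congr 1
    funext a
    obtain ⟨z, hz⟩ := dl_coe_eq.1 ((coe_crep (T a).2).trans (h1 a).2)
    simp only [Function.comp_apply, act]
    rw [key, hz, h.toGoodM.actR_int, (h1 a).1]
  cases σ with
  | false =>
    refine fin _ ((MeasurePreserving.id coin).prod
      (measurePreserving_add_left volume (τ : UnitAddCircle))) fun a => ⟨by simp, ?_⟩
    simp [sg, coe_crep]
  | true =>
    refine fin _ (coin_not.prod ((measurePreserving_add_left volume (τ : UnitAddCircle)).comp
      (Measure.measurePreserving_neg volume))) fun a => ⟨by simp, ?_⟩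
    simp [sg, coe_crep]

theorem measurableSet_good : MeasurableSet {c | Good c} := by
  have e : ∀ c : GG, Good c ↔ (c .len ≠ 0 ∧ c .len ≠ ⊤ ∧
      ((∀ x, ⨅ i, c (.b i x) = 0) ∧ ∀ i j, c (.d i j) ≠ ⊤) ∧
      (∀ i j x, c (.d i j) ≤ c (.b i x) + c (.b j x)) ∧
      (∀ i j x, c (.b i x) ≤ c (.d i j) + c (.b j x)) ∧
      (∀ i x y, c (.b i y) ≤ c (.b i x) + c (.e x y)) ∧
      (∀ i x y, c (.e x y) ≤ c (.b i x) + c (.b i y)) ∧
      (∀ i x, c (.b i (x + 1)) = c (.b i x)) ∧ (∀ i, c (.f i) = ⨅ x, c (.b i x)) ∧
      (∀ n : ℕ, ∃ m : ℕ, ∀ x y : ℚ, |x - y| ≤ 1 / (m + 1) → c (.e x y) ≤ (n + 1 : ℝ≥0∞)⁻¹) ∧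
      (∀ m : ℕ, ∃ n : ℕ, ∀ x y : ℚ, (∀ z : ℤ, 1 / (m + 1 : ℚ) ≤ |x - y - z|) →
        (n + 1 : ℝ≥0∞)⁻¹ ≤ c (.e x y)) ∧
      ∀ x y : ℚ, x ≤ y → y ≤ x + 1 / 2 →
        Clock (fun u => c (.b 0 u)) (c .len).toReal x y) := fun c =>
    ⟨fun h => ⟨h.len_pos, h.len_fin, h.dense, h.tri1, h.tri2, h.tri3, h.tri4, h.per, h.f_eq,
      h.e1, h.e2, h.clock⟩, fun ⟨a1, a2, a3, a4, a5, a6, a7, a8, a9, a10, a11, a12⟩ =>
      ⟨⟨a1, a2, a3, a4, a5, a6, a7, a8, a9, a10, a11⟩, a12⟩⟩
  have hp : ∀ j, Measurable fun c : GG => c j := fun j => measurable_pi_apply j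
  have hle : ∀ {f g : GG → ℝ≥0∞}, Measurable f → Measurable g → Measurable fun c => f c ≤ g c :=
    fun hf hg => measurableSet_setOfPred.1 (measurableSet_le hf hg)
  have heq : ∀ {f g : GG → ℝ≥0∞}, Measurable f → Measurable g → Measurable fun c => f c = g c :=
    fun hf hg => measurableSet_setOfPred.1 (measurableSet_eq_fun hf hg)
  have hch : ∀ N h x y, Measurable fun c : GG => Ch (fun u => c (.b 0 u)) N h x y :=
    fun N h x y => measurableSet_setOfPred.1 (isOpen_ch N h x y).measurableSet
  have hl : ∀ a : ℝ, Measurable fun c : GG => 4 * (c .len).toReal * a := fun a =>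
    ((hp _).ennreal_toReal.const_mul 4).mul_const a
  simp only [e, Clock, eventually_atTop]
  refine measurableSet_setOfPred.2 ((heq (hp _) measurable_const).not.and
    ((heq (hp _) measurable_const).not.and (((Measurable.forall fun x =>
      heq (Measurable.iInf fun i => hp _) measurable_const).and (Measurable.forall fun i =>
      Measurable.forall fun j => (heq (hp _) measurable_const).not)).and
    ((Measurable.forall fun i => Measurable.forall fun j => Measurable.forall fun x =>
      hle (hp _) ((hp _).add (hp _))).and
    ((Measurable.forall fun i => Measurable.forall fun j => Measurable.forall fun x =>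
      hle (hp _) ((hp _).add (hp _))).and
    ((Measurable.forall fun i => Measurable.forall fun j => Measurable.forall fun x =>
      hle (hp _) ((hp _).add (hp _))).and
    ((Measurable.forall fun i => Measurable.forall fun j => Measurable.forall fun x =>
      hle (hp _) ((hp _).add (hp _))).and
    ((Measurable.forall fun i => Measurable.forall fun x => heq (hp _) (hp _)).and
    ((Measurable.forall fun i => heq (hp _) (Measurable.iInf fun x => hp _)).and
    ((Measurable.forall fun n => Measurable.exists fun m => Measurable.forall fun x =>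
      Measurable.forall fun y => measurable_const.imp (hle (hp _) measurable_const)).and
    ((Measurable.forall fun n => Measurable.exists fun m => Measurable.forall fun x =>
      Measurable.forall fun y => measurable_const.imp (hle measurable_const (hp _))).and
    (Measurable.forall fun x => Measurable.forall fun y => measurable_const.imp
      (measurable_const.imp (Measurable.forall fun q => Measurable.and
        ((measurableSet_setOfPred.1 (measurableSet_lt (hl _) measurable_const)).imp
          (Measurable.exists fun a => Measurable.forall fun n =>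
            measurable_const.imp (hch _ _ _ _).not))
        ((measurableSet_setOfPred.1 (measurableSet_lt measurable_const (hl _))).imp
          (Measurable.exists fun a => Measurable.forall fun n =>
            measurable_const.imp (hch _ _ _ _)))))))))))))))))

theorem disc2_of (hG : GoodStmt) (hI : InvStmt) : Disc2Stmt := by
  intro b D
  have := D.markov
  have hg0 : Measurable g0 := by
    unfold g0
    fun_prop
  obtain ⟨lh, hlh, hl⟩ := haar_blackwell hg0 measurableSet_good (measurable_pi_apply GIdx.len)
    fun c hc c' hc' he => (rig hc hc' he).1.symm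
  obtain ⟨K, hK, h⟩ := haar_kernel D.Λ (coin.prod volume) measurable_act hg0
    (par := fun g => ((lh g).toReal, g.1.toReal))
    (hlh.ennreal_toReal.prodMk measurable_fst.ennreal_toReal) measurableSet_good
    fun c hc c' hc' he => act_rig hc hc' he
  refine ⟨K, hK, fun p h1 h2 h3 => h p ?_ (Eventually.of_forall fun a => ?_)⟩
  · filter_upwards [hG b D p h1 h2 h3] with c hc
    refine ⟨hc.1, Prod.ext ?_ ?_⟩
    · show (lh (g0 c.1)).toReal = p.1
      rw [← hl _ hc.1, hc.2.1, ENNReal.toReal_ofReal h1.le]
    · show (c.1 .area).toReal = p.2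
      rw [hc.2.2, ENNReal.toReal_ofReal h2.le]
  · exact actR_inv (D.Λ p) ((hG b D p h1 h2 h3).mono fun c hc => hc.1.toGoodM)
      (hI b D p h1 h2).1 (hI b D p h1 h2).2 a.1 (crep a.2)

end Pool.Agent.QL.LC
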