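import Pool.Agent.P.MP_7a6434d8_pr.QL.C.Stmts
import Pool.Agent.P.MP_7a6434d8_pr.QL.I.Act

/-! Finite resistance of the bars of a homogeneous system. -/

namespace Pool.Agent.QL.LC

theorem fin_stmt : FinStmt := fun _ _ _ _ ha' h hH _ hF =>
  (id_Rp_le h ha'.le hH.2 hF).trans_lt ENNReal.ofReal_lt_top

end Pool.Agent.QL.LC
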