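import Pool.Agent.P.MP_7a6434d8_pr.QL.C.GHC
import Pool.Agent.P.MP_7a6434d8_pr.QL.C.Api
import Pool.Agent.P.MP_7a6434d8_pr.QL.W.CBasic

/-! Block GH: the limit law of the geometric code, and nets. -/

open MeasureTheory ProbabilityTheory Set Filter Topology Metric
open scoped ENNReal unitInterval

namespace Pool.Agent.QL.LC

open Pool.Agent.LGD Pool.Agent.P.MP_7a6434d8_pr Pool.Agent.P.MP_7a6434d8_pr.Mp

/-- the geometric code of a realisation -/
noncomputable def ycd (δ : ℝ) (r : RZ) : YY := (gcd0 δ r, aux0 δ r)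

theorem gh_tail {Z : Type} [MeasurableSpace Z] (ν : Measure Z) [IsFiniteMeasure ν]
    {A : ℕ → Set Z} (hm : ∀ K, MeasurableSet (A K)) (ha : Antitone A)
    (h0 : ∀ᵐ z ∂ν, ∃ K, z ∉ A K) {η : ℝ≥0∞} (hη : 0 < η) : ∃ K, ν (A K) ≤ η := by
  have h := tendsto_measure_iInter_atTop (μ := ν) (fun K => (hm K).nullMeasurableSet) ha
    ⟨0, measure_ne_top _ _⟩
  have e : ν (⋂ K, A K) = 0 := by
    rw [ae_iff] at h0
    rw [← h0]
    congr 1
    ext z
    simp
  rw [e] at h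
  exact (h.eventually (ge_mem_nhds hη)).exists

theorem gh_rooted {n : ℕ} (f : RootedQuad n → ℝ≥0∞) :
    (∑' q : Quad n, f (Quot.mk _ q)) / Nat.card (Quad n) = ∫⁻ c, f c ∂uniformOn univ := by
  have : Fintype (Quad n) := Fintype.ofFinite _
  have : Fintype (RootedQuad n) := Fintype.ofFinite _
  have h : (uniformOn univ : Measure (RootedQuad n)) =
      (Fintype.card (RootedQuad n) : ℝ≥0∞)⁻¹ • Measure.count := by
    simp [uniformOn, ProbabilityTheory.cond]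
  have h1 := grer_labelled (n := n) fun _ => 1
  simp only [tsum_fintype, Finset.sum_const, Finset.card_univ, nsmul_eq_mul, mul_one] at h1
  rw [h, lintegral_smul_measure, lintegral_count, grer_labelled, Nat.card_eq_fintype_card, h1,
    ENNReal.mul_div_mul_left _ _ (by exact_mod_cast Nat.factorial_ne_zero _)
      (ENNReal.natCast_ne_top _), smul_eq_mul, ENNReal.div_eq_inv_mul]

theorem gh_scale {c c' c₀ θ : ℝ} (hc : 0 ≤ c) (h0 : 0 < c₀) (h1 : c₀ ≤ c')
    (h : |9 / 8 * c ^ 4 - 9 / 8 * c' ^ 4| ≤ θ * c₀ ^ 3) : |c - c'| ≤ θ := by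
  have hc' : 0 ≤ c' := h0.le.trans h1
  have e : 9 / 8 * c ^ 4 - 9 / 8 * c' ^ 4 =
      (c - c') * (9 / 8 * (c ^ 3 + c ^ 2 * c' + c * c' ^ 2 + c' ^ 3)) := by ring
  have h2 : c₀ ^ 3 ≤ 9 / 8 * (c ^ 3 + c ^ 2 * c' + c * c' ^ 2 + c' ^ 3) := by
    have h3 : c₀ ^ 3 ≤ c' ^ 3 := pow_le_pow_left₀ h0.le h1 3
    have h4 : 0 ≤ c ^ 3 + c ^ 2 * c' + c * c' ^ 2 := by positivity
    have h5 : 0 ≤ c' ^ 3 := by positivity
    linarith
  have h3 : 0 < c₀ ^ 3 := by positivity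
  rw [e, abs_mul, abs_of_nonneg (h3.le.trans h2)] at h
  exact le_of_mul_le_mul_right ((mul_le_mul_of_nonneg_left h2 (abs_nonneg _)).trans h) h3

theorem gh_cn_pos {n : ℕ} (hn : 1 ≤ n) : 0 < cn n :=
  Real.rpow_pos_of_pos (by have : (0 : ℝ) < n := by exact_mod_cast hn
                           positivity) _

theorem gh_cn_pow {n : ℕ} (hn : 1 ≤ n) : cn n ^ 4 * n = 9 / 8 := by
  have h : (0 : ℝ) < n := by exact_mod_cast hn
  rw [cn, ← Real.rpow_natCast, ← Real.rpow_mul (by positivity)]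
  norm_num
  field_simp

namespace Setup

variable (S : Setup) (G : C(YY, ℝ≥0∞))

/-- mean of a test function given the level and the sphere -/
noncomputable def ghPhi (p : ℝ × S.Ω) : ℝ≥0∞ := ∫⁻ x, G (S.yinf (p, x)) ∂iid (S.O.κ p.2)

theorem measurable_ghPhi : Measurable (S.ghPhi G) :=
  Measurable.lintegral_kernel_prod_right' (κ := (iidK S.O.κ).comap Prod.snd measurable_snd)
    (G.continuous.measurable.comp S.measurable_yinf)

/-- spheres of large diameter -/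
def big (K : ℕ) : Set S.Ω := ⋃ i, ⋃ j, {ω | (K : ℝ) < S.d ω (dz i) (dz j)}

theorem le_of_not_big {K : ℕ} {ω : S.Ω} (h : IsMet (S.d ω)) (hK : ω ∉ S.big K) (x y : Sph) :
    S.d ω x y ≤ K := by
  refine le_of_forall_pos_le_add fun ε hε => ?_
  obtain ⟨i, hi⟩ := h.dense_dz x (half_pos hε)
  obtain ⟨j, hj⟩ := h.dense_dz y (half_pos hε)
  have h1 : S.d ω (dz i) (dz j) ≤ K := not_lt.1 fun h => hK (mem_iUnion₂.2 ⟨i, j, h⟩)
  have h2 := h.triangle x (dz i) y
  have h3 := h.triangle (dz i) (dz j) y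
  rw [h.symm x (dz i)] at h2
  linarith

theorem exists_big {η : ℝ≥0∞} (hη : 0 < η) : ∃ K, S.P (S.big K) ≤ η := by
  refine gh_tail S.P (fun K => MeasurableSet.iUnion fun i => MeasurableSet.iUnion fun j =>
    measurableSet_lt measurable_const (S.hd _ _)) (fun K K' h ω hω => ?_) ?_ hη
  · obtain ⟨i, j, h1⟩ := mem_iUnion₂.1 hω
    exact mem_iUnion₂.2 ⟨i, j, lt_of_le_of_lt (Nat.cast_le (α := ℝ).2 h) h1⟩
  · filter_upwards [S.ae_goodO] with ω hω
    obtain ⟨C, hC⟩ := hω.met.bdd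
    refine ⟨⌈C⌉₊, fun h => ?_⟩
    obtain ⟨i, j, h1⟩ := mem_iUnion₂.1 h
    exact absurd ((hC _ _).trans (Nat.le_ceil C)) (not_le.2 h1)

variable (h1 : ∀ y, G y ≤ 1) {N : ℕ} {η : ℝ≥0∞}
  (hG : ∀ y y', GCl N ((N : ℝ≥0∞) + 1)⁻¹ y y' → G y ≤ G y' + η)

include h1 hG

theorem gh_one {n : ℕ} (q : Quad n) {δ ε s : ℝ} {ω : S.Ω} (hω : S.GoodO ω)
    {R : q.Vertex → Sph → Prop}
    (h : Corr q δ (fun x y => Real.exp (gam / 4 * s) * S.d ω x y) (S.μ ω) ε R) (hδ : 0 ≤ δ)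
    (hm : Measurable (ycd δ)) (hε : 0 < ε) (hN : (N + 2) * ε ≤ 1 / (N + 1))
    (hl : |δ ^ 4 * n - 9 / 8 * Real.exp (gam * s)| ≤ ε) (ρ : I) :
    ∫⁻ T, G (ycd δ (RZ.mk' q (ρ, T))) ∂smpl q.Vertex ≤
      S.ghPhi G (s, ω) + η + (N + 1 : ℕ) * ENNReal.ofReal ε := by
  have := hω.prob
  have hτ : ENNReal.ofReal ((N + 2) * ε) ≤ ((N : ℝ≥0∞) + 1)⁻¹ := by
    refine (ENNReal.ofReal_le_ofReal hN).trans (le_of_eq ?_)
    rw [one_div, ENNReal.ofReal_inv_of_pos (by positivity), ENNReal.ofReal_add (by positivity)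
      zero_le_one, ENNReal.ofReal_natCast, ENNReal.ofReal_one]
  rw [ghPhi, hω.ker]
  refine h.hall.many (N + 1) (G.continuous.measurable.comp
    (hm.comp ((measurable_mk' q).comp measurable_prodMk_left)))
    (G.continuous.measurable.comp (S.measurable_yinf.comp measurable_prodMk_left))
    (fun _ => h1 _) fun T x hT => hG _ _ ?_
  rw [yinf_eq (m := ((s, ω), x)) hω]
  have h2 := h.cl (isMet_D (S := S) (m := ((s, ω), x)) hω.met) hδ hε hl N (ρ, T) x hT
  exact ⟨h2.1.mono hτ, fun i hi j hj => (h2.2 i hi j hj).mono hτ,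
    fun M hM => (h2.3 M hM).mono hτ, fun l a b => (h2.4 l a b).mono hτ⟩

theorem gh_two {n K : ℕ} {c ε e s : ℝ} (hc : 0 ≤ c) (hm : Measurable (ycd (c * cn n)))
    (hε : 0 < ε) (he : 0 < e) (hN : (N + 2) * ε ≤ 1 / (N + 1))
    (hl : |(c * cn n) ^ 4 * n - 9 / 8 * Real.exp (gam * s)| ≤ ε)
    (h2 : c * (2 * e + 6 * cn n) + |c - Real.exp (gam / 4 * s)| * K ≤ ε)
    (h3 : 2 * e + 6 * cn n ≤ ε) (Γ : Measure (RootedQuad n × S.Ω)) (f1 : Γ.fst = uniformOn univ)
    (f2 : Γ.snd = S.P) (f3 : Γ {p | ENNReal.ofReal (e / 2) < gh (mdist (Quot.out p.1))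
      (vmeas (Quot.out p.1)) (S.d p.2) ((S.μ p.2).map (↑)) fun _ => 0} ≤ ENNReal.ofReal (e / 2)) :
    ∫⁻ r, G (ycd (c * cn n) r) ∂lawN n ≤ ∫⁻ ω, S.ghPhi G (s, ω) ∂S.P +
      (η + (N + 1 : ℕ) * ENNReal.ofReal ε) + (ENNReal.ofReal (e / 2) + S.P (S.big K)) := by
  obtain ⟨Ψ, hΨ⟩ : ∃ Ψ : RootedQuad n → ℝ≥0∞, Ψ = fun a => ⨆ (q : Quad n) (_ : Quot.mk _ q = a)
    (ρ : I), ∫⁻ T, G (ycd (c * cn n) (RZ.mk' q (ρ, T))) ∂smpl q.Vertex := ⟨_, rfl⟩
  have s1 : ∫⁻ r, G (ycd (c * cn n) r) ∂lawN n ≤ ∫⁻ a, Ψ a ∂uniformOn univ := by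
    rw [lintegral_lawN n (G := fun r => G (ycd (c * cn n) r)) (G.continuous.measurable.comp hm),
      ← gh_rooted]
    refine (lintegral_mono (g := fun _ => (∑' q : Quad n, Ψ (Quot.mk _ q)) / Nat.card (Quad n))
      fun ρ => ENNReal.div_le_div_right (ENNReal.tsum_le_tsum fun q => ?_) _).trans
        (le_of_eq ((lintegral_const _).trans (by rw [measure_univ, mul_one])))
    rw [hΨ]
    exact le_iSup₂_of_le q rfl (le_iSup (fun ρ : I =>
      ∫⁻ T, G (ycd (c * cn n) (RZ.mk' q (ρ, T))) ∂smpl q.Vertex) ρ)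
  obtain ⟨B, hB⟩ : ∃ B : Set (RootedQuad n × S.Ω), B = {p | ENNReal.ofReal (e / 2) <
    gh (mdist (Quot.out p.1)) (vmeas (Quot.out p.1)) (S.d p.2) ((S.μ p.2).map (↑)) fun _ => 0} ∪
      Prod.snd ⁻¹' S.big K ∪ Prod.snd ⁻¹' {ω | ¬ S.GoodO ω} := ⟨_, rfl⟩
  have s2 : Γ B ≤ ENNReal.ofReal (e / 2) + S.P (S.big K) := by
    have k : ∀ A : Set S.Ω, Γ (Prod.snd ⁻¹' A) ≤ S.P A := fun A =>
      f2 ▸ Measure.le_map_apply measurable_snd.aemeasurable A
    rw [hB]
    refine (measure_union_le _ _).trans ((add_le_add ((measure_union_le _ _).trans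
      (add_le_add f3 (k _))) (k _)).trans ?_)
    rw [ae_iff.1 S.ae_goodO, add_zero]
  have hP : Measurable fun ω => S.ghPhi G (s, ω) :=
    (S.measurable_ghPhi G).comp measurable_prodMk_left
  have s3 : ∀ p : RootedQuad n × S.Ω, Ψ p.1 ≤ S.ghPhi G (s, p.2) +
      (η + (N + 1 : ℕ) * ENNReal.ofReal ε) + (toMeasurable Γ B).indicator 1 p := by
    intro p
    rw [hΨ]
    refine iSup₂_le fun q hq => iSup_le fun ρ => ?_
    by_cases hp : p ∈ toMeasurable Γ B
    · rw [indicator_of_mem hp]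
      refine le_trans ?_ le_add_self
      have : IsProbabilityMeasure (smpl q.Vertex) := by unfold smpl; infer_instance
      exact (lintegral_mono fun _ => h1 _).trans (by simp)
    · have hp' : p ∉ B := fun h => hp (subset_toMeasurable _ _ h)
      rw [hB] at hp'
      have a1 : gh (mdist (Quot.out p.1)) (vmeas (Quot.out p.1)) (S.d p.2) ((S.μ p.2).map (↑))
          (fun _ => 0) ≤ ENNReal.ofReal (e / 2) := not_lt.1 fun h => hp' (Or.inl (Or.inl h))
      have a2 : p.2 ∉ S.big K := fun h => hp' (Or.inl (Or.inr h))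
      have a3 : S.GoodO p.2 := not_not.1 fun h => hp' (Or.inr h)
      obtain ⟨R, hR⟩ := corr_of_gh _ a3.met _ he (a1.trans_lt
        ((ENNReal.ofReal_lt_ofReal_iff he).2 (half_lt_self he)))
      obtain ⟨R', hR'⟩ := hR.iso ((xcount_mk_eq _ _).1 (hq.trans (Quot.out_eq _).symm))
      rw [← add_assoc]
      exact (S.gh_one G h1 hG q a3 (hR'.scale hc a3.met.nonneg (S.le_of_not_big a3.met a2) h2 h3)
        (mul_nonneg hc gmd_cn) hm hε hN hl ρ).trans le_self_add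
  have s4 : Γ univ = 1 := by rw [← Measure.snd_univ, f2, measure_univ]
  refine s1.trans ?_
  rw [← f1, Measure.fst, lintegral_map (measurable_of_finite Ψ) measurable_fst]
  refine (lintegral_mono s3).trans ?_
  rw [lintegral_add_right _ (measurable_one.indicator (measurableSet_toMeasurable _ _)),
    lintegral_add_right _ measurable_const, lintegral_const, s4, mul_one,
    lintegral_indicator_one (measurableSet_toMeasurable _ _), measure_toMeasurable, ← f2,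
    Measure.snd, lintegral_map hP measurable_snd, ← Measure.snd, f2]
  exact add_le_add le_rfl s2

omit hG in
theorem gh_upper {b : Base} (w : World b) {a : ℝ} (ha : 0 < a) : ∀ᶠ k in (b.U : Filter ℕ),
    ∫⁻ r, G (ycd (b.δ k) r) ∂w.law k ≤ ∫⁻ m, G (S.yinf m) ∂S.M w.ϑ + 5 * ENNReal.ofReal a := by
  have ha' : 0 < ENNReal.ofReal a := ENNReal.ofReal_pos.2 ha
  obtain ⟨N, hG⟩ := exists_cl G h1 ha'
  obtain ⟨K, hK⟩ := S.exists_big ha'
  obtain ⟨T, hT⟩ := gh_tail w.ϑ (A := fun T : ℕ => {s | (T : ℝ) < |s|})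
    (fun T => measurableSet_lt measurable_const measurable_abs)
    (fun T T' h s hs => lt_of_le_of_lt (Nat.cast_le (α := ℝ).2 h) hs)
    (.of_forall fun s => ⟨⌈|s|⌉₊, fun h => not_lt.2 (Nat.le_ceil |s|) h⟩) ha'
  have hg : 0 < gam / 4 := div_pos gam_pos (by norm_num)
  obtain ⟨ε, hε, e1, e2⟩ : ∃ ε : ℝ, 0 < ε ∧ (N + 1) * ε ≤ a ∧ (N + 2) * ε ≤ 1 / (N + 1) := by
    refine ⟨min (a / (N + 1)) (1 / (N + 1) / (N + 2)), by positivity, ?_, ?_⟩
    · exact (le_div_iff₀' (by positivity)).1 (min_le_left _ _)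
    · exact (le_div_iff₀' (by positivity)).1 (min_le_right _ _)
  obtain ⟨c₀, hc₀⟩ : ∃ c₀, c₀ = Real.exp (-(gam / 4 * T)) := ⟨_, rfl⟩
  obtain ⟨C, hC⟩ : ∃ C, C = Real.exp (gam / 4 * T) + 1 := ⟨_, rfl⟩
  have c1 : 0 < c₀ := hc₀ ▸ Real.exp_pos _
  have c2 : 1 ≤ C := by rw [hC]; linarith [Real.exp_pos (gam / 4 * T)]
  obtain ⟨θ, hθ, t1, t2⟩ : ∃ θ : ℝ, 0 < θ ∧ θ ≤ 1 ∧ θ * K ≤ ε / 2 := by
    refine ⟨min 1 (ε / 2 / (K + 1)), by positivity, min_le_left _ _, ?_⟩
    have h := (le_div_iff₀ (by positivity)).1 (min_le_right 1 (ε / 2 / ((K : ℝ) + 1)))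
    have : 0 < min 1 (ε / 2 / ((K : ℝ) + 1)) := by positivity
    nlinarith
  obtain ⟨e, he, u1, u2⟩ : ∃ e : ℝ, 0 < e ∧ e ≤ a ∧ C * (2 * e) ≤ ε / 4 := by
    refine ⟨min a (ε / 8 / C), by positivity, min_le_left _ _, ?_⟩
    have h := (le_div_iff₀ (by positivity)).1 (min_le_right a (ε / 8 / C))
    nlinarith
  obtain ⟨n₀, hn₀⟩ := eventually_atTop.1 ((S.conv _ (ENNReal.ofReal_pos.2 (half_pos he))).and
    (cn_tendsto.eventually (ge_mem_nhds (show 0 < ε / 24 / C by positivity))))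
  have hδ : ∀ᶠ k in (b.U : Filter ℕ), b.δ k ^ 4 * n₀ ≤ c₀ ^ 4 := by
    have h := (b.δ_lim.pow 4).mul_const (n₀ : ℝ)
    norm_num at h
    exact h.eventually (ge_mem_nhds (by positivity))
  filter_upwards [hδ, w.N_lim T (min ε (min (θ * c₀ ^ 3) (c₀ ^ 4 / 8))) (by positivity)]
    with k hk hN
  have hm : Measurable (ycd (b.δ k)) :=
    (measurable_code0 b k).fst.prodMk (measurable_code0 b k).snd.snd
  have hP : Measurable fun s => ∫⁻ ω, S.ghPhi G (s, ω) ∂S.P :=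
    (S.measurable_ghPhi G).lintegral_prod_right'
  have hs : MeasurableSet {s : ℝ | (T : ℝ) < |s|} := measurableSet_lt measurable_const measurable_abs
  have key : ∀ᵐ s ∂w.ϑ, ∫⁻ r, G (ycd (b.δ k) r) ∂lawN (w.N k s) ≤
      ∫⁻ ω, S.ghPhi G (s, ω) ∂S.P + 4 * ENNReal.ofReal a + {s : ℝ | (T : ℝ) < |s|}.indicator 1 s := by
    filter_upwards [hN] with s hN
    have hn := w.N_pos k s
    by_cases hsT : (T : ℝ) < |s|
    · rw [indicator_of_mem (show s ∈ {s : ℝ | (T : ℝ) < |s|} from hsT)]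
      have := lawN_prob hn
      exact le_trans ((lintegral_mono fun _ => h1 _).trans (by simp)) le_add_self
    obtain ⟨n, hn'⟩ : ∃ n, n = w.N k s := ⟨_, rfl⟩
    rw [← hn'] at hN hn ⊢
    have hs' := abs_le.1 (not_lt.1 hsT)
    replace hN := hN (not_lt.1 hsT)
    obtain ⟨c, hc⟩ : ∃ c, c = b.δ k / cn n := ⟨_, rfl⟩
    have p1 := gh_cn_pos hn
    have p2 : b.δ k = c * cn n := by rw [hc]; field_simp
    have p3 : 0 ≤ c := hc ▸ (div_pos (b.δ_pos k) p1).le
    have p4 : Real.exp (gam * s) = Real.exp (gam / 4 * s) ^ 4 := by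
      rw [← Real.exp_nat_mul]; congr 1; push_cast; ring
    have p5 : c₀ ≤ Real.exp (gam / 4 * s) := hc₀ ▸ Real.exp_le_exp.2 (by nlinarith [hs'.1])
    have p6 : Real.exp (gam / 4 * s) ≤ C - 1 := by
      rw [hC, add_sub_cancel_right]; exact Real.exp_le_exp.2 (by nlinarith [hs'.2])
    have p7 : |c - Real.exp (gam / 4 * s)| ≤ θ := by
      refine gh_scale p3 c1 p5 (le_trans (le_of_eq ?_)
        (hN.trans ((min_le_right _ _).trans (min_le_left _ _))))
      rw [p2, mul_pow, mul_assoc, gh_cn_pow hn, p4, mul_comm (c ^ 4)]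
    have p8 : n₀ ≤ n := by
      have q1 := (abs_le.1 (hN.trans ((min_le_right _ _).trans (min_le_right _ _)))).1
      have q2 : c₀ ^ 4 ≤ Real.exp (gam * s) := p4 ▸ pow_le_pow_left₀ c1.le p5 4
      have q3 : b.δ k ^ 4 * n₀ ≤ b.δ k ^ 4 * n := by linarith
      exact_mod_cast le_of_mul_le_mul_left q3 (pow_pos (b.δ_pos k) 4)
    obtain ⟨⟨Γ, f1, f2, f3⟩, f4⟩ := hn₀ n p8
    have p9 : C * (6 * cn n) ≤ ε / 4 := by
      have := (le_div_iff₀ (by positivity)).1 f4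
      nlinarith
    have p10 : c ≤ C := by linarith [(abs_le.1 p7).2]
    have p11 : 0 ≤ 2 * e + 6 * cn n := by positivity
    rw [p2] at hm hN ⊢
    refine (S.gh_two G h1 hG (K := K) p3 hm hε he e2 (hN.trans (min_le_left _ _)) ?_ ?_ Γ f1 f2
      f3).trans (le_trans ?_ le_self_add)
    · nlinarith [mul_le_mul_of_nonneg_right p10 p11,
        mul_le_mul_of_nonneg_right p7 (Nat.cast_nonneg (α := ℝ) K)]
    · nlinarith [mul_le_mul_of_nonneg_right c2 p11]
    · have r1 : ((N + 1 : ℕ) : ℝ≥0∞) * ENNReal.ofReal ε ≤ ENNReal.ofReal a := by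
        rw [← ENNReal.ofReal_natCast, ← ENNReal.ofReal_mul (Nat.cast_nonneg _)]
        exact ENNReal.ofReal_le_ofReal (by push_cast; exact e1)
      have r2 : ENNReal.ofReal (e / 2) ≤ ENNReal.ofReal a := ENNReal.ofReal_le_ofReal (by linarith)
      refine (add_le_add (add_le_add le_rfl (add_le_add le_rfl r1)) (add_le_add r2 hK)).trans
        (le_of_eq ?_)
      ring
  rw [w.lintegral_law k (G := fun r => G (ycd (b.δ k) r)) (G.continuous.measurable.comp hm),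
    S.lintegral_M w.ϑ (G := fun m => G (S.yinf m))
      (G.continuous.measurable.comp S.measurable_yinf)]
  refine (lintegral_mono_ae key).trans ?_
  rw [lintegral_add_right _ (measurable_one.indicator hs), lintegral_add_right _ measurable_const,
    lintegral_indicator_one hs, lintegral_const, measure_univ, mul_one,
    ← lintegral_prod _ (S.measurable_ghPhi G).aemeasurable]
  refine (add_le_add le_rfl hT).trans (le_of_eq ?_)
  rw [add_assoc]
  congr 1
  ring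

end Setup

/-- the projection to the geometric code -/
def ypr (c : C0) : YY := (c.1, c.2.2)

theorem continuous_ypr : Continuous ypr := by unfold ypr; fun_prop

theorem gh_law (S : Setup) {b : Base} (w : World b) (Q : Measure C0) [IsProbabilityMeasure Q]
    (h : w.Lim (code0 b) Q) : Q.map ypr = (S.M w.ϑ).map S.yinf := by
  have := Measure.isProbabilityMeasure_map (μ := Q) continuous_ypr.measurable.aemeasurable
  have := Measure.isProbabilityMeasure_map (μ := S.M w.ϑ) S.measurable_yinf.aemeasurable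
  have h' := h.map continuous_ypr
  have k1 : ∀ G : C(YY, ℝ≥0∞), (∀ y, G y ≤ 1) →
      ∫⁻ y, G y ∂Q.map ypr ≤ ∫⁻ y, G y ∂(S.M w.ϑ).map S.yinf := fun G h1 => by
    rw [lintegral_map G.continuous.measurable S.measurable_yinf]
    refine ENNReal.le_of_forall_pos_le_add fun a ha _ => ?_
    refine (le_of_tendsto (h' G h1) (S.gh_upper G h1 w (a := a / 5) (by positivity))).trans
      (add_le_add le_rfl (le_of_eq ?_))
    rw [← ENNReal.ofReal_ofNat, ← ENNReal.ofReal_mul (by norm_num), mul_div_cancel₀ _ (by norm_num),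
      ENNReal.ofReal_coe_nnreal]
  refine h'.unique fun G h1 => ?_
  have k2 := k1 ⟨fun y => 1 - G y, (ENNReal.continuous_sub_left ENNReal.one_ne_top).comp
    G.continuous⟩ fun _ => tsub_le_self
  have k3 := gh_flip (c := 0) (gh_compl (Q.map ypr) G.continuous.measurable h1)
    (gh_compl ((S.M w.ϑ).map S.yinf) G.continuous.measurable h1) (by simpa using k2)
  rw [add_zero] at k3
  rw [le_antisymm k3 (k1 G h1)]
  exact h' G h1

theorem gh_stmt (S : Setup) : GHStmt S := by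
  intro b w Q _ h
  have hy := gh_law S w Q h
  have hm := continuous_ypr.measurable
  have h1 : Q.map Prod.fst = (S.M w.ϑ).map S.ginf := by
    have := congrArg (Measure.map Prod.fst) hy
    rwa [Measure.map_map measurable_fst hm, Measure.map_map measurable_fst S.measurable_yinf] at this
  refine ⟨h1, ?_⟩
  have m1 : MeasurableSet {y : YY | ⨅ N, y.2 (.inl N) = 0} :=
    measurableSet_eq_fun (Measurable.iInf fun N => by fun_prop) measurable_const
  have m2 : MeasurableSet {y : YY | ∀ l, y.2 (.inr l) = emp l y.1} := by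
    rw [ofPred_forall]
    exact MeasurableSet.iInter fun l =>
      measurableSet_eq_fun (by fun_prop) ((measurable_emp l).comp measurable_fst)
  have a0 := S.ae_M_of_ae w.ϑ S.ae_goodO
  have a1 : ∀ᵐ m ∂S.M w.ϑ, ⨅ N, (S.yinf m).2 (.inl N) = 0 := by
    filter_upwards [a0, S.ae_goodPt w.ϑ] with m h1 h2
    rw [Setup.yinf_eq h1]
    exact daux_cov (Setup.isMet_D h1.met) (S.μ m.1.2) h2.dense
  have a2 : ∀ᵐ m ∂S.M w.ϑ, ∀ l, (S.yinf m).2 (.inr l) = emp l (S.yinf m).1 := by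
    refine Measure.ae_compProd_of_ae_ae (S.measurable_yinf m2) ?_
    filter_upwards [(Measure.quasiMeasurePreserving_snd (μ := w.ϑ)).ae S.ae_goodO] with p hp
    have := hp.prob
    have h3 := daux_emp (Setup.isMet_D (S := S) (m := (p, zq)) hp.met) (S.μ p.2)
      (9 / 8 * Real.exp (gam * p.1))
    rw [← hp.ker] at h3
    filter_upwards [h3] with x hx
    rw [Setup.yinf_eq (m := (p, x)) hp, ← hp.ker]
    exact hx
  have b1 : ∀ᵐ c ∂Q, ⨅ N, (ypr c).2 (.inl N) = 0 := ae_of_ae_map hm.aemeasurable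
    (hy ▸ (ae_map_iff S.measurable_yinf.aemeasurable m1).2 a1)
  have b2 : ∀ᵐ c ∂Q, ∀ l, (ypr c).2 (.inr l) = emp l (ypr c).1 := ae_of_ae_map hm.aemeasurable
    (hy ▸ (ae_map_iff S.measurable_yinf.aemeasurable m2).2 a2)
  filter_upwards [S.ae_hat_of_ae w.ϑ Q (S.ae_goodPt w.ϑ), S.ae_hat_of_ae w.ϑ Q a0,
    S.ae_hat_of_ae w.ϑ Q a2, S.hat_ae_eq w.ϑ Q measurable_fst h1,
    S.ae_hat_of_ae_snd w.ϑ Q measurable_fst h1 b1, S.ae_hat_of_ae_snd w.ϑ Q measurable_fst h1 b2]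
    with z z1 z2 z3 z4 z5 z6
  refine ⟨z1, z4, z5, fun l => ?_⟩
  have e : z.2.2.2 (.inr l) = (S.yinf z.1).2 (.inr l) := by
    rw [z3 l]
    exact (z6 l).trans (congrArg (emp l) z4)
  rw [e, Setup.yinf_eq z2]
  rfl

theorem netAE (S : Setup) (hG : GHStmt S) (hP : PosStmt) : NetAE S := by
  intro b w X _ _ _ _ _ _ ξ hξ Q _ h A hA
  have := Measure.isProbabilityMeasure_map (μ := Q) (f := Prod.fst) measurable_fst.aemeasurable
  obtain ⟨h1, h2⟩ := hG b w (Q.map Prod.fst) (h.map continuous_fst)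
  have hπ : Measurable fun y : C0 × X => y.1.1 := measurable_fst.fst
  rw [Measure.map_map measurable_fst measurable_fst] at h1
  rw [← S.hat_map w.ϑ Q hπ h1 measurable_fst measurable_fst fun _ => rfl] at h2
  filter_upwards [ae_of_ae_map (measurable_id.prodMap measurable_fst).aemeasurable h2,
    S.ae_hat_of_ae_snd w.ϑ Q hπ h1 (h.supp (fun k => (measurable_code0 b k).prodMk (hξ k)) A hA)]
    with z z1 ⟨r, r1, r2⟩
  obtain ⟨p, hp⟩ := hP b r (S.D z.1) z.1.2 z.2.1 (Setup.isMet_D z1.1.geo.isMet) z1.1.dense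
    (fun i j => by rw [show z.2.1.1 = S.ginf z.1 from z1.2.g]; exact Setup.ex_mul_dJ z1.1.dJ _ _)
    z1.2.cov
    ((continuous_fst.tendsto _).comp r2)
  exact ⟨z1.1, z1.2, r, p, r1, r2, hp⟩

end Pool.Agent.QL.LC
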