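import Pool.Agent.P.MP_7a6434d8_pr.QL.C.HoleBase

/-! Block HOLE: size, area and frequency of the hole. -/

open MeasureTheory ProbabilityTheory Set Filter Topology Metric
open scoped ENNReal unitInterval

namespace Pool.Agent.QL.LC

open Pool.Agent.LGD Pool.Agent.P.MP_7a6434d8_pr Pool.Agent.P.MP_7a6434d8_pr.Mp Pool.Agent.QL.M2

/-- There are at most twice as many inner vertices as faces. -/
theorem hla_inner (t : Mp) (ht : ok t) :
    {v : V t | ∀ p ≤ 2 * per t, v ≠ bv t p}.ncard ≤ 2 * size t := by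
  induction t with
  | pt =>
    rw [show {v : V pt | ∀ p ≤ 2 * per pt, v ≠ bv pt p} = ∅ from
      eq_empty_of_forall_notMem fun v hv => hv 0 (Nat.zero_le _) rfl, ncard_empty]
    exact Nat.zero_le _
  | face t ih =>
    have h1 := ih ht.1
    have h2 := ht.2
    have h3 : {v : V t | ∀ p ≤ 2 * per (face t), v ≠ bv (face t) p} ⊆
        insert (bv t 1) (insert (bv t 2) {v : V t | ∀ p ≤ 2 * per t, v ≠ bv t p}) := by
      intro v hv
      by_cases e1 : v = bv t 1
      · exact Or.inl e1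
      by_cases e2 : v = bv t 2
      · exact Or.inr (Or.inl e2)
      refine Or.inr (Or.inr fun p hp => ?_)
      rcases p with _ | _ | _ | p
      · exact hv 0 (Nat.zero_le _)
      · exact e1
      · exact e2
      · exact hv (p + 1) (by simp only [per]; omega)
    have h4 := (ncard_le_ncard h3 (toFinite _)).trans ((ncard_insert_le _ _).trans
      (Nat.add_le_add_right (ncard_insert_le _ _) 1))
    refine h4.trans ?_
    simp only [size]
    omega
  | bridge a b iha ihb =>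
    have h1 := iha ht.1
    have h2 := ihb ht.2
    have h3 : {v : V a ⊕ V b | ∀ p ≤ 2 * per (bridge a b), v ≠ bv (bridge a b) p} ⊆
        Sum.inl '' {v : V a | ∀ p ≤ 2 * per a, v ≠ bv a p} ∪
          Sum.inr '' {v : V b | ∀ p ≤ 2 * per b, v ≠ bv b p} := by
      rintro (v | v) hv
      · refine Or.inl ⟨v, fun p hp e => hv (p + 2 * per b + 2) (by simp only [per]; omega) ?_, rfl⟩
        rw [bv, if_neg (by omega), if_neg (by omega), e,
          show p + 2 * per b + 2 - 2 * per b - 2 = p by omega]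
      · refine Or.inr ⟨v, fun p hp e => hv (p + 1) (by simp only [per]; omega) ?_, rfl⟩
        rw [bv, if_neg (by omega), if_pos (by omega), e, Nat.add_sub_cancel]
    have h4 := (ncard_le_ncard h3 (toFinite _)).trans ((ncard_union_le _ _).trans
      (Nat.add_le_add (ncard_image_le (toFinite _)) (ncard_image_le (toFinite _))))
    refine h4.trans ?_
    simp only [size]
    omega

theorem hla_card {H : HS} {δ : ℝ} {α : Rg} {r : RZ} (h : r.ev δ α) :
    Nat.card (r.A δ α) = size (r.W H δ α) + per (r.W H δ α) + 1 := by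
  rw [← card_V _ (h.ok H), ← Nat.card_eq_fintype_card, ← (h.sub H).ι_range,
    Nat.card_range_of_injective (h.sub H).ι_inj]

variable {H : HS} {b : Base} {r : ℕ → RZ} {α : Rg} {h : ℕ → ℝ≥0∞}

theorem hl_size (hev : ∀ᶠ k in (b.U : Filter ℕ), (r k).ev (b.δ k) α) (hm : BallMass b r) {s : ℝ}
    (hs : 0 < s) (hf : ∀ᶠ k in (b.U : Filter ℕ), ∀ x, (r k).ι H (b.δ k) α x = (r k).S α.2 →
      s ≤ b.δ k * dB _ x) :
    ∃ β : ℝ, 0 < β ∧ ∀ᶠ k in (b.U : Filter ℕ), β * (r k).n ≤ size ((r k).W H (b.δ k) α) := by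
  obtain ⟨β, hβ, h1⟩ := hm α.2 (s / 2) (half_pos hs)
  refine ⟨β / 2, half_pos hβ, ?_⟩
  filter_upwards [hev, hf, h1] with k h2 h3 h4
  obtain ⟨x, hx⟩ := (h2.sub H).ex h2.target
  have h5 := h3 x hx
  have h6 : {v | (r k).sd (b.δ k) ((r k).S α.2) v ≤ s / 2} ⊆ (r k).ι H (b.δ k) α ''
      {v | ∀ p ≤ 2 * per ((r k).W H (b.δ k) α), v ≠ bv _ p} := by
    intro z hz
    rw [mem_ofPred_eq, ← hx] at hz
    obtain ⟨y, e1, e2⟩ := h2.lift (b.δ_pos k) x z (by linarith)
    refine ⟨y, fun p hp => ne_bv_of_lt (x := x) ?_ hp, e1⟩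
    exact_mod_cast lt_of_mul_lt_mul_left (a := b.δ k) (by linarith : _ * ((dW _ x y : ℕ) : ℝ) <
      _ * ((dB _ x : ℕ) : ℝ)) (b.δ_pos k).le
  have h7 := (ncard_le_ncard h6 (toFinite _)).trans ((ncard_image_le (toFinite _)).trans
    (hla_inner _ (h2.ok H)))
  have h8 : ((Nat.card {v | (r k).sd (b.δ k) ((r k).S α.2) v ≤ s / 2} : ℕ) : ℝ) ≤
      2 * size ((r k).W H (b.δ k) α) := by exact_mod_cast h7
  rw [hl_card] at h4
  push_cast at h4
  linarith

theorem hl_area (hev : ∀ᶠ k in (b.U : Filter ℕ), (r k).ev (b.δ k) α) {lam : ℝ≥0∞}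
    (hl : Tendsto (fun k => ENNReal.ofReal (b.δ k ^ 4 * (r k).n)) b.U (𝓝 lam)) (hl' : lam ≠ ⊤)
    (hh : Tendsto (fun k => hlC H b α k (r k)) b.U (𝓝 h)) (hlen : hx h 1 0 ≠ ⊤) :
    hx h 2 0 = lam * hx h 7 0 ∧ hx h 7 0 ≤ 1 := by
  have hc : ∀ i, Tendsto (fun k => hlI H (b.δ k) α (r k) i 0) b.U (𝓝 (hx h i 0)) := fun i => by
    simpa only [Function.comp_def, hx_hlC] using ((continuous_hx i 0).tendsto h).comp hh
  have h1 : Tendsto (fun k => ENNReal.ofReal (b.δ k ^ 2 * per ((r k).W H (b.δ k) α))) b.U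
    (𝓝 (hx h 1 0)) := hc 1
  have h2 : Tendsto (fun k => ENNReal.ofReal (b.δ k ^ 4 * size ((r k).W H (b.δ k) α))) b.U
    (𝓝 (hx h 2 0)) := hc 2
  have h7 : Tendsto (fun k => (Nat.card ((r k).A (b.δ k) α) : ℝ≥0∞) / Nat.card (r k).q.Vertex)
    b.U (𝓝 (hx h 7 0)) := hc 7
  have hle : hx h 7 0 ≤ 1 := le_of_tendsto' h7 fun k => ENNReal.div_le_of_le_mul (by
    rw [one_mul]
    exact_mod_cast Nat.card_le_card_of_injective _ Subtype.val_injective)
  refine ⟨?_, hle⟩
  have hd : Tendsto (fun k => ENNReal.ofReal (b.δ k ^ 2)) b.U (𝓝 0) := by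
    simpa using ENNReal.tendsto_ofReal (b.δ_lim.pow 2)
  have hd2 := ENNReal.Tendsto.mul hd (Or.inr ENNReal.zero_ne_top) hd (Or.inr ENNReal.zero_ne_top)
  have hL := (h2.add (ENNReal.Tendsto.mul hd (Or.inr hlen) h1 (Or.inr ENNReal.zero_ne_top))).add
    hd2
  have hR := ENNReal.Tendsto.mul ((hl.add hd2).add hd2)
    (Or.inr (hle.trans_lt ENNReal.one_lt_top).ne) h7 (Or.inr (by simpa using hl'))
  simp only [zero_mul, add_zero] at hL hR
  refine tendsto_nhds_unique_of_eventuallyEq hL hR ?_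
  filter_upwards [hev] with k hk
  have e4 : b.δ k ^ 4 = b.δ k ^ 2 * b.δ k ^ 2 := by ring
  simp only [e4, mul_assoc, ENNReal.ofReal_mul (sq_nonneg (b.δ k)), ENNReal.ofReal_natCast,
    ← mul_add]
  rw [hla_card (H := H) hk, hl_card]
  generalize ENNReal.ofReal (b.δ k ^ 2) = d
  have e5 : d * (d * ((r k).n : ℝ≥0∞) + d + d) = d * d * (((r k).n + 2 : ℕ) : ℝ≥0∞) := by
    push_cast
    ring
  rw [← mul_assoc, e5, mul_assoc (d * d),
    ENNReal.mul_div_cancel (by simp) (ENNReal.natCast_ne_top _)]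
  push_cast
  ring

theorem hl_freq {p : ℕ → Prop} [DecidablePred p] (hG : HGood h)
    (hp : ∀ a, hx h 6 a = if p a then 1 else 0) (h7 : hx h 7 0 ≠ ⊤) : freq p = hx h 7 0 := by
  have e : ∀ M, ∑ a ∈ Finset.range M, hx h 6 a = Nat.count p M := fun M => by
    simp only [hp, Finset.sum_boole, Nat.count_eq_card_filter_range]
  have key : Tendsto (fun M : ℕ => (Nat.count p M : ℝ≥0∞) / M) atTop (𝓝 (hx h 7 0)) := by
    refine (ENNReal.tendsto_nhds h7).2 fun ε hε => ?_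
    obtain ⟨j, hj⟩ := ENNReal.exists_inv_nat_lt hε.ne'
    have h1 : (j + 1 : ℝ≥0∞)⁻¹ ≤ ε := (ENNReal.inv_le_inv.2 le_self_add).trans hj.le
    obtain ⟨M₀, h2⟩ := hG.freq j
    filter_upwards [eventually_ge_atTop M₀, eventually_ge_atTop 1] with M h3 h4
    obtain ⟨h5, h6⟩ := h2 M h3
    rw [e] at h5 h6
    have h0 : (M : ℝ≥0∞) ≠ 0 := by exact_mod_cast (by omega : M ≠ 0)
    refine ⟨tsub_le_iff_right.2 ?_, ENNReal.div_le_of_le_mul' (h5.trans (by gcongr))⟩
    refine (ENNReal.mul_le_mul_iff_right h0 (ENNReal.natCast_ne_top M)).1 (h6.trans ?_)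
    rw [mul_add, ENNReal.mul_div_cancel h0 (ENNReal.natCast_ne_top M)]
    gcongr
  rw [freq, ← key.limsup_eq]
  have hi : (fun a => Classical.propDecidable (p a)) = ‹DecidablePred p› :=
    funext fun a => Subsingleton.elim _ _
  rw [hi]

end Pool.Agent.QL.LC
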