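import Pool.Agent.P.MP_7a6434d8_pr.QL.C.HoleDefs

/-! Block HOLE: no point disconnects the limit. -/

open MeasureTheory ProbabilityTheory Set Filter Topology Metric
open scoped ENNReal unitInterval

namespace Pool.Agent.QL.LC

open Pool.Agent.LGD Pool.Agent.P.MP_7a6434d8_pr Pool.Agent.P.MP_7a6434d8_pr.Mp

theorem hlc_lim {b : Base} {r : ℕ → RZ} {D : Sph → Sph → ℝ} {x : ℕ → ℂ}
    {p : ∀ k, (r k).q.Vertex → ℂ} (h : Pos b r D x p) (v : ∀ k, (r k).q.Vertex) {z : Sph}
    (hz : Tendsto (fun k => (p k (v k) : Sph)) b.U (𝓝 z)) (i : ℕ) :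
    Tendsto (fun k => (r k).sd (b.δ k) ((r k).S i) (v k)) b.U (𝓝 (D (x i) z)) := by
  have h1 : Tendsto (fun k => D (x i) (p k (v k))) b.U (𝓝 (D (x i) z)) :=
    (h.met.cont.tendsto (_, _)).comp (tendsto_const_nhds.prodMk_nhds hz)
  refine h1.congr_dist (Metric.tendsto_nhds.2 fun ε hε => ?_)
  filter_upwards [h.dist (ε / 4) (by positivity),
    (h.smp i).eventually (gt_mem_nhds (show 0 < ε / 4 by positivity))] with k h2 h3
  have h4 := abs_le.1 (h2 ((r k).S i) (v k))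
  have h5 := h.met.triangle (x i) (p k ((r k).S i)) (p k (v k))
  have h6 := h.met.triangle (p k ((r k).S i)) (x i) (p k (v k))
  rw [h.met.symm _ (x i)] at h6
  rw [dist_zero_right, Real.norm_of_nonneg dist_nonneg, Real.dist_eq, RZ.sd, abs_lt]
  constructor <;> linarith [h4.1, h4.2]

theorem hl_noCut {b : Base} {r : ℕ → RZ} {D : Sph → Sph → ℝ} {x : ℕ → ℂ}
    {p : ∀ k, (r k).q.Vertex → ℂ} (h : Pos b r D x p) {𝒟 : ℕ → ℕ → ℝ≥0∞}
    (hD : ∀ i j, 𝒟 i j = ENNReal.ofReal (D (x i) (x j))) : NoCut b r 𝒟 := by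
  intro v a a' e he ha ha'
  obtain ⟨z, -, hz⟩ := isCompact_univ.ultrafilter_le_nhds
    (b.U.map fun k => (p k (v k) : Sph)) (by simp)
  have hl := hlc_lim h v hz
  have h0 : ∀ y, D y y = 0 := fun y => (h.met.eq_iff y y).2 rfl
  have h1 : ∀ y y', 0 ≤ D y y' := fun y y' => by
    have := h.met.triangle y y' y
    rw [h0, h.met.symm y' y] at this
    linarith
  have h2 : ∀ i, (∀ᶠ k in (b.U : Filter ℕ), e ≤ (r k).sd (b.δ k) ((r k).S i) (v k)) →
      x i ∈ {y : ℂ | (y : Sph) = z}ᶜ := fun i hi (e' : (x i : Sph) = z) => by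
    have := ge_of_tendsto (hl i) hi
    rw [e', h0] at this
    exact this.not_gt he
  obtain ⟨γ, hγ⟩ := (Set.Countable.isPathConnected_compl_of_one_lt_rank
    (by rw [Complex.rank_real_complex]; norm_num) (Set.Subsingleton.countable
      fun y hy y' hy' => OnePoint.coe_injective (hy.trans hy'.symm))).joinedIn _ (h2 a ha) _
      (h2 a' ha')
  have hc : ∀ y : Sph, Continuous fun w : ℂ => D y w := fun y =>
    h.met.cont.comp (continuous_const.prodMk OnePoint.continuous_coe)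
  obtain ⟨t₀, -, h3⟩ := isCompact_univ.exists_isMinOn univ_nonempty
    ((hc z).comp γ.continuous).continuousOn
  obtain ⟨η, h4⟩ : ∃ η, 4 * η = D z (γ t₀) := ⟨D z (γ t₀) / 4, by ring⟩
  have h5 : 0 < η := by
    have := (h1 z (γ t₀)).lt_of_ne' fun e' => hγ t₀ ((h.met.eq_iff _ _).1 e').symm
    linarith
  refine ⟨η, h5, ?_⟩
  generalize hR : (fun i j => (𝒟 i j).toReal < η ∧
    ∀ᶠ k in (b.U : Filter ℕ), 2 * η ≤ (r k).sd (b.δ k) ((r k).S i) (v k)) = R
  have h6 : ∀ s t i j, D (γ s) (γ t) < η / 4 → D (γ s) (x i) < η / 4 → D (γ t) (x j) < η / 4 →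
      Relation.ReflTransGen R i j := fun s t i j a1 a2 a3 => by
    have a4 : D z (γ t₀) ≤ D z (γ s) := h3 (mem_univ s)
    have a5 := h.met.triangle z (x i) (γ s)
    have a6 := h.met.triangle (x i) (γ s) (x j)
    have a7 := h.met.triangle (γ s) (γ t) (x j)
    rw [h.met.symm (x i) (γ s)] at a5 a6
    rw [h.met.symm z (x i)] at a5
    rw [← hR]
    refine .single ⟨?_, (hl i).eventually (le_mem_nhds (by linarith))⟩
    rw [hD, ENNReal.toReal_ofReal (h1 _ _)]
    linarith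
  have h7 := PreconnectedSpace.induction₂' (fun s t : I => ∀ i j, D (γ s) (x i) < η / 4 →
      D (γ t) (x j) < η / 4 → Relation.ReflTransGen R i j) (fun s => ?_)
    ⟨fun s t u a1 a2 i j a3 a4 => ?_⟩ 0 1 a a'
  · exact h7 (by rw [γ.source, h0]; positivity) (by rw [γ.target, h0]; positivity)
  · filter_upwards [(((hc (γ s)).comp γ.continuous).tendsto s).eventually
      (gt_mem_nhds (show D (γ s) (γ s) < η / 4 by rw [h0]; positivity))] with t ht
    exact ⟨fun i j => h6 s t i j ht, fun i j => h6 t s i j (h.met.symm _ _ ▸ ht)⟩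
  · obtain ⟨m, hm⟩ := h.dense.exists_mem_open (isOpen_lt (hc (γ t)) (continuous_const (y := η / 4)))
      ⟨γ t, show D (γ t) (γ t) < η / 4 by rw [h0]; positivity⟩
    exact (a1 i m a3 hm).trans (a2 m j hm a4)

end Pool.Agent.QL.LC
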