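import Pool.Agent.P.MP_7a6434d8_pr.QL.C.HoleBase

/-! Block HOLE: the event that the hole exists. -/

open MeasureTheory ProbabilityTheory Set Filter Topology Metric
open scoped ENNReal unitInterval

namespace Pool.Agent.QL.LC

open Pool.Agent.LGD Pool.Agent.P.MP_7a6434d8_pr Pool.Agent.P.MP_7a6434d8_pr.Mp Pool.Agent.QL.M2

variable {b : Base} {r : ℕ → RZ} {𝒟 : ℕ → ℕ → ℝ≥0∞} {ρ : I} {α : Rg}

theorem hle_in (h : NC b r 𝒟 ρ) {c : ℕ × ℚ} (hc : 0 < c.2) {a : ℕ} (ha : 𝒟 c.1 a < rd ρ c) :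
    ∀ᶠ k in (b.U : Filter ℕ),
      (r k).q.graph.dist ((r k).S c.1) ((r k).S a) ≤ rN (b.δ k) (r k).ρ c := by
  filter_upwards [(h.dist c.1 a).eventually_lt (h.rad hc)
    ((ENNReal.lt_ofReal_iff_toReal_lt (h.fin _ _)).1 ha)] with k hk
  exact_mod_cast (lt_of_mul_lt_mul_left hk (b.δ_pos k).le).le

theorem hle_out (h : NC b r 𝒟 ρ) {c : ℕ × ℚ} (hc : 0 < c.2) {a : ℕ} (ha : rd ρ c < 𝒟 c.1 a) :
    ∀ᶠ k in (b.U : Filter ℕ),
      rN (b.δ k) (r k).ρ c + 1 < (r k).q.graph.dist ((r k).S c.1) ((r k).S a) := by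
  filter_upwards [((h.rad hc).add b.δ_lim).eventually_lt (h.dist c.1 a) (by
    simpa using (ENNReal.ofReal_lt_iff_lt_toReal (rR_pos ρ hc).le (h.fin _ _)).1 ha)] with k hk
  rw [← mul_add_one] at hk
  exact_mod_cast lt_of_mul_lt_mul_left hk (b.δ_pos k).le

theorem NC.ev (h : NC b r 𝒟 ρ) (hE : EvI 𝒟 α ρ) :
    ∀ᶠ k in (b.U : Filter ℕ), (r k).ev (b.δ k) α := by
  obtain ⟨h1, h2, h3, h4⟩ := hE
  have h5 : ∀ᶠ k in (b.U : Filter ℕ), ∀ c ∈ α.1, ∀ c' ∈ α.1, 𝒟 c.1 c'.1 < rd ρ c →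
      (r k).q.graph.dist ((r k).S c.1) ((r k).S c'.1) ≤ rN (b.δ k) (r k).ρ c :=
    (eventually_all_finite α.1.finite_toSet).2 fun c hc =>
      (eventually_all_finite α.1.finite_toSet).2 fun c' _ =>
        eventually_imp_distrib_left.2 fun h5 => hle_in h (h2 c hc) h5
  have h6 : ∀ᶠ k in (b.U : Filter ℕ), ∀ c ∈ α.1,
      rN (b.δ k) (r k).ρ c + 1 < (r k).q.graph.dist ((r k).S c.1) ((r k).S α.2) :=
    (eventually_all_finite α.1.finite_toSet).2 fun c hc => hle_out h (h2 c hc)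
      (h.symm _ _ ▸ tsub_pos_iff_lt.1 (h4.trans_le (fB_le hc _)))
  filter_upwards [h5, h6] with k h5 h6
  refine ⟨fun h7 => h1 (by simpa [Jd] using h7), fun a ha a' ha' => ?_,
    Quotient.out ((r k).S α.2), ?_⟩
  · obtain ⟨c, hc, rfl⟩ := mem_Jd.1 ha
    obtain ⟨c', hc', rfl⟩ := mem_Jd.1 ha'
    have h7 := h3 c hc c' hc'
    clear ha ha'
    induction h7 with
    | refl => exact .refl
    | @tail u v h7 h8 ih =>
      have hu : u ∈ α.1 := by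
        rcases h7.cases_tail with rfl | ⟨_, -, h9⟩
        · exact hc
        · exact h9.1
      refine (ih hu).tail ⟨mem_Jd.2 ⟨v, hc', rfl⟩, h8.2.imp (h5 u hu v hc') fun h9 => ?_⟩
      rw [SimpleGraph.dist_comm]
      exact h5 v hc' u hu (h.symm _ _ ▸ h9)
  · have h7 : ∀ v, (r k).q.graph.dist ((r k).S α.2) v ≤ 1 →
        ¬ InBall (r k).q (r k).S (Jd (b.δ k) (r k).ρ α.1) v := fun v hv h7 => by
      obtain ⟨c, hc, h8⟩ := (r k).inBall_iff.1 h7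
      have h9 := hl_tri (r k).q ((r k).S c.1) v ((r k).S α.2)
      rw [SimpleGraph.dist_comm] at hv
      have := h6 c hc
      omega
    have h8 := h7 _ (by simp : (r k).q.graph.dist ((r k).S α.2) ((r k).S α.2) ≤ 1)
    have h9 := hl_head_dist (r k).q (Quotient.out ((r k).S α.2))
    have h10 := hl_head (r k).q (Quotient.out ((r k).S α.2))
    rw [tail_out] at h9 h10 ⊢
    refine ⟨⟨h8, .refl⟩, h8, ?_⟩
    rcases h10 with h10 | h10
    · rw [h10]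
    · exact .single ⟨h10, h7 _ h9⟩

theorem NC.not_ev (h : NC b r 𝒟 ρ) (hpos : ∀ c ∈ α.1, 0 < c.2)
    (htie : ∀ a, ∀ c ∈ α.1, 0 < c.2 → 𝒟 a c.1 ≠ rd ρ c) (hE : ¬ EvI 𝒟 α ρ) :
    ∀ᶠ k in (b.U : Filter ℕ), ¬ (r k).ev (b.δ k) α := by
  have key : ∀ a, ∀ᶠ k in (b.U : Filter ℕ), ∀ c ∈ α.1,
      ((r k).q.graph.dist ((r k).S c.1) ((r k).S a) ≤ rN (b.δ k) (r k).ρ c ↔ 𝒟 a c.1 < rd ρ c) := by
    refine fun a => (eventually_all_finite α.1.finite_toSet).2 fun c hc => ?_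
    rcases (htie a c hc (hpos c hc)).lt_or_gt with h1 | h1
    · exact (hle_in h (hpos c hc) (h.symm _ _ ▸ h1)).mono fun k hk => iff_of_true hk h1
    · exact (hle_out h (hpos c hc) (h.symm _ _ ▸ h1)).mono fun k hk =>
        iff_of_false (by omega) h1.not_gt
  filter_upwards [key α.2, (eventually_all_finite α.1.finite_toSet).2
    fun (c : ℕ × ℚ) _ => key c.1] with k h1 h2 hk
  refine hE ⟨hk.ne_nil, hpos, fun c hc c' hc' => ?_, ?_⟩
  · have h3 := hk.2.1 _ (mem_Jd.2 ⟨c, hc, rfl⟩) _ (mem_Jd.2 ⟨c', hc', rfl⟩)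
    generalize ha : (c'.1, rN (b.δ k) (r k).ρ c') = a at h3
    induction h3 generalizing c' with
    | refl =>
      refine .single ⟨hc', Or.inl ?_⟩
      rw [(Prod.ext_iff.1 ha).1, h.self]
      exact ENNReal.ofReal_pos.2 (rR_pos ρ (hpos c hc))
    | @tail u v h3 h4 ih =>
      obtain ⟨c₁, hc₁, rfl⟩ : ∃ c₁ ∈ α.1, (c₁.1, rN (b.δ k) (r k).ρ c₁) = u := by
        rcases h3.cases_tail with rfl | ⟨_, -, h9⟩
        · exact ⟨c, hc, rfl⟩
        · exact mem_Jd.1 h9.1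
      subst ha
      refine (ih c₁ hc₁ rfl).tail ⟨hc', h4.2.imp (fun h5 => ?_) fun h5 => ?_⟩
      · exact h.symm _ _ ▸ (h2 c' hc' c₁ hc₁).1 h5
      · exact (h2 c₁ hc₁ c' hc').1 (SimpleGraph.dist_comm ▸ h5)
  · obtain ⟨c, hc, h3⟩ := fB_ex (𝒟 := 𝒟) (ρ := ρ) hk.ne_nil α.2
    rw [h3, tsub_pos_iff_lt]
    exact (htie _ c hc (hpos c hc)).lt_or_gt.resolve_left fun h4 =>
      absurd ((h1 c hc).2 h4) (not_le.2 (RZ.lt_of_mem hk.target hc))

end Pool.Agent.QL.LC
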