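import Pool.Agent.P.MP_7a6434d8_pr.QL.C.HoleLift

/-! Block HOLE: the boundary of a hole does not collapse to a point. -/

open MeasureTheory ProbabilityTheory Set Filter Topology Metric
open scoped ENNReal unitInterval

namespace Pool.Agent.QL.LC

open Pool.Agent.LGD Pool.Agent.P.MP_7a6434d8_pr Pool.Agent.P.MP_7a6434d8_pr.Mp Pool.Agent.QL.M2

theorem hll_rng {δ e : ℝ} (he : 0 ≤ e) {t : Mp} {v : V t} (h : hlRng δ t v ≤ ENNReal.ofReal e)
    {p : ℕ} (hp : p ≤ 2 * per t) : δ * dW t v (bv t p) ≤ δ * dB t v + e := by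
  obtain ⟨p0, hp0, h0⟩ := dB_ex v
  have h1 : ENNReal.ofReal (δ * dW t v (bv t p) - δ * dW t v (bv t p0)) ≤ hlRng δ t v :=
    le_iSup_of_le p0 (le_iSup_of_le p (le_iSup_of_le ⟨hp0, hp⟩ le_rfl))
  have h2 := (ENNReal.ofReal_le_ofReal_iff he).1 (h1.trans h)
  rw [h0] at h2
  linarith

theorem hll_dB_le {r : RZ} {H : HS} {δ : ℝ} {α : Rg} (h : r.ev δ α) (hδ : 0 < δ)
    (x : V (r.W H δ α)) {p : ℕ} (hp : p ≤ 2 * per (r.W H δ α)) :
    δ * dB _ x ≤ r.sd δ (r.ι H δ α x) (r.ι H δ α (bv _ p)) := by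
  rcases le_total (r.sd δ (r.ι H δ α x) (r.ι H δ α (bv _ p))) (δ * dB _ x) with h1 | h1
  · obtain ⟨y, h2, h3⟩ := h.lift hδ x _ h1
    rw [← h3, (h.sub H).ι_inj h2]
    exact mul_le_mul_of_nonneg_left (by exact_mod_cast dB_le x hp) hδ.le
  · exact h1

open Classical in
theorem hll_det {r : RZ} {H : HS} {δ : ℝ} {α : Rg} (h : r.ev δ α) (hδ : 0 < δ) {e f : ℝ} {N : ℕ}
    (hδe : δ ≤ e) (hef : e ≤ f) (hcov : ∀ v, ∃ i ≤ N, r.sd δ (r.S i) v ≤ e)
    (hrng : ∀ j ≤ N, hlRng δ (r.W H δ α) (r.inn H δ α j) ≤ ENNReal.ofReal e)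
    (hf : ∀ x, r.ι H δ α x = r.S α.2 → f ≤ δ * dB _ x) {c : ℕ × ℚ} (hc : c ∈ α.1)
    (hd : r.sd δ (r.S α.2) (r.S c.1) - δ * rN δ r.ρ c ≤ f + 2 * e) {p p' : ℕ}
    (hp : p ≤ 2 * per (r.W H δ α)) (hp' : p' ≤ 2 * per (r.W H δ α)) :
    r.sd δ (r.ι H δ α (bv _ p)) (r.ι H δ α (bv _ p')) ≤ 12 * e := by
  obtain ⟨x0, hx0⟩ := (h.sub H).ex h.target
  have hx0' : r.ι H δ α x0 = r.S α.2 := hx0
  have h1 := hf x0 hx0'
  have h2 := Nat.floor_le (div_nonneg (sub_nonneg.2 hef) hδ.le)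
  have h3 := Nat.lt_floor_add_one ((f - e) / δ)
  rw [le_div_iff₀ hδ] at h2
  rw [div_lt_iff₀ hδ] at h3
  set s := ⌊(f - e) / δ⌋₊
  obtain ⟨z, h4, h5⟩ := hl_mid r.q (r.S α.2) (r.S c.1) s
  obtain ⟨i, hi, h6⟩ := hcov z
  have h7 : r.sd δ (r.S α.2) z ≤ δ * s :=
    mul_le_mul_of_nonneg_left (by exact_mod_cast h4) hδ.le
  have h8 := r.sd_tri hδ.le (r.S α.2) z (r.S i)
  rw [r.sd_comm z] at h8
  obtain ⟨y, h9, -⟩ := h.lift hδ x0 (r.S i) (by rw [hx0']; linarith)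
  have h10 : s ≤ r.q.graph.dist (r.S α.2) (r.S c.1) := by
    have h11 := h.dB_lt x0 hc
    rw [hx0', SimpleGraph.dist_comm] at h11
    have h12 : δ * s ≤ δ * dB _ x0 := by linarith
    have h13 : s ≤ dB _ x0 := by exact_mod_cast le_of_mul_le_mul_left h12 hδ
    omega
  have h11 : r.sd δ z (r.S c.1) + δ * s ≤ r.sd δ (r.S α.2) (r.S c.1) := by
    rw [RZ.sd, RZ.sd, ← mul_add]
    exact mul_le_mul_of_nonneg_left (by exact_mod_cast (by omega)) hδ.le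
  have h12 : δ * dB _ y + δ * rN δ r.ρ c ≤ r.sd δ (r.S c.1) (r.S i) := by
    have h13 := (h.dB_lt y hc).le
    rw [h9] at h13
    rw [RZ.sd, ← mul_add]
    exact mul_le_mul_of_nonneg_left (by exact_mod_cast h13) hδ.le
  have h13 := r.sd_tri hδ.le (r.S c.1) z (r.S i)
  rw [r.sd_comm (r.S c.1) z, r.sd_comm z (r.S i)] at h13
  have h14 : δ * dB _ y ≤ 5 * e := by linarith
  have hA : r.S i ∈ r.A δ α := h9 ▸ (h.sub H).mem y
  have h15 : r.inn H δ α (Nat.count (fun i => r.S i ∈ r.A δ α) i) = y :=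
    (h.sub H).ι_inj ((h.inn_count H hA).trans h9.symm)
  have h16 := hrng _ ((Nat.count_le (p := fun i => r.S i ∈ r.A δ α) (n := i)).trans hi)
  rw [h15] at h16
  have he : 0 ≤ e := hδ.le.trans hδe
  have h17 := hll_rng he h16 hp
  have h18 := hll_rng he h16 hp'
  have h19 := hl_dW_tri (h.ok H) hδ.le (bv _ p) y (bv _ p')
  rw [dW_comm (h.ok H) (bv _ p) y] at h19
  exact (h.sd_le hδ.le _ _).trans (by linarith)

theorem hl_len {H : HS} {b : Base} {r : ℕ → RZ} {𝒟 : ℕ → ℕ → ℝ≥0∞} {ρ : I} {α : Rg}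
    (h : NC b r 𝒟 ρ) (hc : NoCut b r 𝒟) (hE : EvI 𝒟 α ρ)
    (hev : ∀ᶠ k in (b.U : Filter ℕ), (r k).ev (b.δ k) α)
    (hr : ∀ i, Tendsto (fun k => hlRng (b.δ k) ((r k).W H (b.δ k) α) ((r k).inn H (b.δ k) α i))
      b.U (𝓝 0)) : False := by
  obtain ⟨hJ, hpos, -, hf⟩ := hE
  obtain ⟨c, hcm, h1⟩ := fB_ex (𝒟 := 𝒟) (ρ := ρ) hJ α.2
  have hf0 : 0 < (fB 𝒟 α.1 ρ α.2).toReal := ENNReal.toReal_pos hf.ne' (h.fB_ne_top hJ ρ _)
  have hR := rR_pos ρ (hpos c hcm)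
  have h2 : (𝒟 α.2 c.1).toReal - rR ρ c ≤ (fB 𝒟 α.1 ρ α.2).toReal := by
    rw [h1, ← ENNReal.ofReal_toReal (h.fin α.2 c.1), rd_eq, ← ENNReal.ofReal_sub _ hR.le,
      ENNReal.toReal_ofReal ENNReal.toReal_nonneg, ENNReal.toReal_ofReal']
    exact le_max_left _ _
  set f0 := (fB 𝒟 α.1 ρ α.2).toReal with hf0d
  have step1 : ∀ ε : ℝ, 0 < ε → ∀ᶠ k in (b.U : Filter ℕ), ∀ p,
      p ≤ 2 * per ((r k).W H (b.δ k) α) → (r k).sd (b.δ k) ((r k).ι H (b.δ k) α (bv _ p))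
        ((r k).ι H (b.δ k) α (bv _ 0)) ≤ ε := by
    intro ε hε
    set e := min (ε / 12) (f0 / 2) with he
    have e0 : 0 < e := lt_min (by positivity) (by positivity)
    have e1 : e ≤ ε / 12 := min_le_left _ _
    have e2 : e ≤ f0 / 2 := min_le_right _ _
    obtain ⟨N, hN⟩ := h.cov e e0
    have h3 : ∀ᶠ k in (b.U : Filter ℕ), ∀ j ≤ N,
        hlRng (b.δ k) ((r k).W H (b.δ k) α) ((r k).inn H (b.δ k) α j) ≤ ENNReal.ofReal e :=
      (eventually_all_finite (finite_le_nat N)).2 fun j _ =>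
        (hr j).eventually (ge_mem_nhds (ENNReal.ofReal_pos.2 e0))
    filter_upwards [hN, h3, hev, b.small e0, h.f_low hpos hev H α.2 (s := f0 - e) (by linarith),
      ((h.dist α.2 c.1).sub (h.rad (hpos c hcm))).eventually
        (ge_mem_nhds (show (𝒟 α.2 c.1).toReal - rR ρ c < f0 - e + 2 * e by linarith))]
      with k k1 k2 k3 k4 k5 k6 p hp
    exact (hll_det k3 (b.δ_pos k) k4 (by linarith) k1 k2 k5 hcm k6 hp (Nat.zero_le _)).trans
      (by linarith)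
  obtain ⟨η, hη, hch⟩ := hc (fun k => (r k).ι H (b.δ k) α (bv _ 0)) α.2 c.1
    (min (f0 / 2) (rR ρ c / 2)) (lt_min (by positivity) (by positivity)) (by
      filter_upwards [hev, h.f_low hpos hev H α.2 (s := f0 / 2) (by linarith)] with k k1 k2
      obtain ⟨x0, hx0⟩ := (k1.sub H).ex k1.target
      have hx0' : (r k).ι H (b.δ k) α x0 = (r k).S α.2 := hx0
      have h3 := hll_dB_le k1 (b.δ_pos k) x0 (Nat.zero_le _)
      rw [hx0'] at h3
      exact (min_le_left _ _).trans ((k2 x0 hx0').trans h3)) (by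
      filter_upwards [hev, (h.rad (hpos c hcm)).eventually
        (le_mem_nhds (show rR ρ c / 2 < rR ρ c by linarith))] with k k1 k2
      refine (min_le_right _ _).trans (k2.trans ?_)
      exact mul_le_mul_of_nonneg_left
        (by exact_mod_cast (RZ.lt_of_mem ((k1.sub H).mem (bv _ 0)) hcm).le) (b.δ_pos k).le)
  have key : ∀ j, Relation.ReflTransGen (fun i j => (𝒟 i j).toReal < η ∧
      ∀ᶠ k in (b.U : Filter ℕ), 2 * η ≤ (r k).sd (b.δ k) ((r k).S i)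
        ((r k).ι H (b.δ k) α (bv _ 0))) α.2 j →
      ∀ᶠ k in (b.U : Filter ℕ), (r k).S j ∈ (r k).A (b.δ k) α := by
    intro j hj
    induction hj with
    | refl => exact hev.mono fun k hk => hk.target
    | @tail i j _ hij ih =>
      filter_upwards [ih, hij.2, hev, step1 η hη, (h.dist i j).eventually (ge_mem_nhds hij.1)]
        with k k1 k2 k3 k4 k5
      obtain ⟨x, hx⟩ := (k3.sub H).ex k1
      have hx' : (r k).ι H (b.δ k) α x = (r k).S i := hx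
      obtain ⟨p, hp, h3⟩ := dB_ex x
      have h4 := k3.sd_le (b.δ_pos k).le x (bv _ p)
      have h5 := (r k).sd_tri (b.δ_pos k).le ((r k).S i) ((r k).ι H (b.δ k) α (bv _ p))
        ((r k).ι H (b.δ k) α (bv _ 0))
      rw [h3, hx'] at h4
      have h6 := k4 p hp
      obtain ⟨y, h7, -⟩ := k3.lift (b.δ_pos k) x ((r k).S j) (by rw [hx']; linarith)
      exact h7 ▸ (k3.sub H).mem y
  obtain ⟨k, hk⟩ := (key _ hch).exists
  have h3 := RZ.lt_of_mem hk hcm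
  rw [SimpleGraph.dist_self] at h3
  exact Nat.not_lt_zero _ h3

end Pool.Agent.QL.LC
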