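import Pool.Agent.P.MP_7a6434d8_pr.QL.C.HoleDefs

/-! Block HOLE: the distances converge and balls have a positive fraction of the vertices. -/

open MeasureTheory ProbabilityTheory Set Filter Topology Metric
open scoped ENNReal unitInterval

namespace Pool.Agent.QL.LC

open Pool.Agent.LGD Pool.Agent.P.MP_7a6434d8_pr Pool.Agent.P.MP_7a6434d8_pr.Mp

theorem hlm_sum {V : Type} [Fintype V] (f : V → ℝ) (hf : ∀ v, 0 ≤ f v) (e : ℝ) (j : ℕ) :
    ∑ v, Real.exp (-f v) ^ j ≤ Nat.card {v | f v ≤ e} + Nat.card V * Real.exp (-e) ^ j := by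
  classical
  have h1 : ∀ v, Real.exp (-f v) ^ j ≤ (if f v ≤ e then 1 else 0) + Real.exp (-e) ^ j := by
    intro v
    split_ifs with h
    · have : Real.exp (-f v) ^ j ≤ 1 :=
        pow_le_one₀ (Real.exp_pos _).le (Real.exp_le_one_iff.2 (neg_nonpos.2 (hf v)))
      have : 0 ≤ Real.exp (-e) ^ j := by positivity
      linarith
    · rw [zero_add]
      exact pow_le_pow_left₀ (Real.exp_pos _).le
        (Real.exp_le_exp.2 (neg_le_neg (not_le.1 h).le)) j
  refine (Finset.sum_le_sum fun v _ => h1 v).trans (le_of_eq ?_)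
  rw [Finset.sum_add_distrib, Finset.sum_boole, Finset.sum_const, Finset.card_univ, nsmul_eq_mul,
    Nat.card_eq_fintype_card, Nat.card_eq_fintype_card, Fintype.card_subtype]
  rfl

variable (S : Setup) {b : Base} {r : ℕ → RZ} {m : S.X} {c : C0}

theorem hl_lam (hm : S.GoodPt m) (hc : S.GoodC m c) :
    c.1.1 ≠ 0 ∧ c.1.1 ≠ ⊤ ∧ ∀ i j, c.1.2 i j = ENNReal.ofReal (S.D m (m.2 i) (m.2 j)) := by
  rw [hc.g]
  refine ⟨?_, ?_, fun i j => ?_⟩
  · exact mul_ne_zero (by simp) (ENNReal.ofReal_pos.2 (Real.exp_pos _)).ne'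
  · exact ENNReal.mul_ne_top (ENNReal.div_ne_top (by simp) (by simp)) ENNReal.ofReal_ne_top
  · change ex _ * S.O.dJ m.1.2 (m.2 i) (m.2 j) = _
    rw [hm.dJ, Setup.D, ENNReal.ofReal_mul (Real.exp_pos _).le]
    rfl

theorem hlm_aux (h : Tendsto (fun k => code0 b k (r k)) b.U (𝓝 c)) (x : ℕ ⊕ List ℕ) :
    Tendsto (fun k => aux0 (b.δ k) (r k) x) b.U (𝓝 (c.2.2 x)) :=
  (((continuous_apply x).comp (continuous_snd.comp continuous_snd)).tendsto c).comp h

theorem hlm_sd_nonneg (k : ℕ) (v v' : (r k).q.Vertex) : 0 ≤ (r k).sd (b.δ k) v v' :=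
  mul_nonneg (b.δ_pos k).le (Nat.cast_nonneg _)

theorem hl_nc (hm : S.GoodPt m) (hc : S.GoodC m c)
    (h : Tendsto (fun k => code0 b k (r k)) b.U (𝓝 c)) {ρ : I}
    (hρ : Tendsto (fun k => (r k).ρ) b.U (𝓝 ρ)) : NC b r c.1.2 ρ := by
  have hfin : ∀ i j, c.1.2 i j ≠ ⊤ := fun i j => by
    rw [(hl_lam S hm hc).2.2]
    exact ENNReal.ofReal_ne_top
  refine ⟨hfin, fun i j => ?_, fun e he => ?_, hρ⟩
  · have h1 : Tendsto (fun k => (code0 b k (r k)).1.2 i j) b.U (𝓝 (c.1.2 i j)) :=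
      ((show Continuous fun c : C0 => c.1.2 i j by fun_prop).tendsto c).comp h
    refine ((ENNReal.tendsto_toReal (hfin i j)).comp h1).congr fun k => ?_
    exact ENNReal.toReal_ofReal (hlm_sd_nonneg k _ _)
  · have h1 : ⨅ N, c.2.2 (.inl N) < ENNReal.ofReal e := by
      rw [hc.cov]
      exact ENNReal.ofReal_pos.2 he
    obtain ⟨N, hN⟩ := iInf_lt_iff.1 h1
    refine ⟨N, ?_⟩
    filter_upwards [(hlm_aux h (.inl N)).eventually (gt_mem_nhds hN)] with k hk v
    have h2 : ⨅ (i : ℕ) (_ : i ≤ N),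
        ENNReal.ofReal (b.δ k * (r k).q.graph.dist ((r k).S i) v) < ENNReal.ofReal e :=
      lt_of_le_of_lt (le_iSup (fun v => ⨅ (i : ℕ) (_ : i ≤ N),
        ENNReal.ofReal (b.δ k * (r k).q.graph.dist ((r k).S i) v)) v) hk
    obtain ⟨i, hi⟩ := iInf_lt_iff.1 h2
    obtain ⟨hiN, hi⟩ := iInf_lt_iff.1 hi
    exact ⟨i, hiN, ((ENNReal.ofReal_lt_ofReal_iff he).1 hi).le⟩

theorem hl_ballMass (hm : S.GoodPt m) (hc : S.GoodC m c)
    (h : Tendsto (fun k => code0 b k (r k)) b.U (𝓝 c)) : BallMass b r := by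
  intro a e he
  have := hm.prob
  set B : Set ℂ := {z | S.D m (m.2 a) z < e / 2} with hB
  have hcont : Continuous fun z : ℂ => S.D m (m.2 a) z :=
    continuous_const.mul (hm.geo.cont.comp (continuous_const.prodMk OnePoint.continuous_coe))
  have hBo : IsOpen B := isOpen_lt hcont continuous_const
  have hBn : B.Nonempty := ⟨m.2 a, by
    change Real.exp _ * S.d m.1.2 _ _ < e / 2
    rw [(hm.geo.eq_iff _ _).2 rfl, mul_zero]
    exact half_pos he⟩
  have hμ : 0 < (S.μ m.1.2 B).toReal :=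
    ENNReal.toReal_pos (hm.supp B hBo hBn).ne' (measure_ne_top _ _)
  set p : ℝ := (S.μ m.1.2 B).toReal with hp
  obtain ⟨j, hj⟩ := exists_nat_ge (2 / p / (e / 2))
  have hj2 : 2 < Real.exp (e / 2) ^ j * p := by
    rw [← Real.exp_nat_mul, ← div_lt_iff₀ hμ]
    have h1 := (div_le_iff₀ (half_pos he)).1 hj
    have h2 := Real.add_one_le_exp (j * (e / 2))
    linarith
  have hj3 : 2 * Real.exp (-e) ^ j < Real.exp (-(e / 2)) ^ j * p := by
    have h1 : Real.exp (-(e / 2)) ^ j = Real.exp (-e) ^ j * Real.exp (e / 2) ^ j := by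
      rw [← mul_pow, ← Real.exp_add]
      congr 2
      ring
    rw [h1, mul_assoc, mul_comm 2]
    exact mul_lt_mul_of_pos_left hj2 (by positivity)
  have hlim : ENNReal.ofReal (2 * Real.exp (-e) ^ j) < c.2.2 (.inr (List.replicate j a)) := by
    rw [hc.mass]
    simp only [List.map_replicate, List.prod_replicate]
    calc ENNReal.ofReal (2 * Real.exp (-e) ^ j)
        < ENNReal.ofReal (Real.exp (-(e / 2)) ^ j * p) :=
          (ENNReal.ofReal_lt_ofReal_iff (by positivity)).2 hj3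
      _ = ∫⁻ _ in B, ENNReal.ofReal (Real.exp (-(e / 2)) ^ j) ∂S.μ m.1.2 := by
          rw [setLIntegral_const, ENNReal.ofReal_mul (by positivity), hp,
            ENNReal.ofReal_toReal (measure_ne_top _ _)]
      _ ≤ ∫⁻ z in B, ENNReal.ofReal (Real.exp (-S.D m (m.2 a) z) ^ j) ∂S.μ m.1.2 :=
          setLIntegral_mono' hBo.measurableSet fun z hz => ENNReal.ofReal_le_ofReal
            (pow_le_pow_left₀ (Real.exp_pos _).le
              (Real.exp_le_exp.2 (neg_le_neg (le_of_lt hz))) j)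
      _ ≤ _ := setLIntegral_le_lintegral _ _
  refine ⟨Real.exp (-e) ^ j, by positivity, ?_⟩
  filter_upwards [(hlm_aux h (.inr (List.replicate j a))).eventually (lt_mem_nhds hlim)] with k hk
  simp only [aux0, List.map_replicate, List.prod_replicate] at hk
  have h1 := (ENNReal.ofReal_lt_ofReal_iff_of_nonneg (by positivity)).1 hk
  have : Nonempty (r k).q.Vertex := ⟨(r k).S a⟩
  have hV : (0 : ℝ) < Nat.card (r k).q.Vertex := Nat.cast_pos.2 Nat.card_pos
  have h2 := hlm_sum (fun v => (r k).sd (b.δ k) ((r k).S a) v) (hlm_sd_nonneg k _) e j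
  rw [lt_div_iff₀ hV] at h1
  have h3 := h1.trans_le h2
  linarith

end Pool.Agent.QL.LC
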