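import Pool.Agent.P.MP_7a6434d8_pr.QL.C.HoleDefs
import Pool.Agent.P.MP_7a6434d8_pr.QL.C.Meas

/-! Block HOLE: the dilation of the radii is almost surely generic. -/

open MeasureTheory ProbabilityTheory Set Filter Topology Metric
open scoped ENNReal unitInterval

namespace Pool.Agent.QL.LC

theorem hlp_cost_anti (𝒟 : ℕ → ℕ → ℝ≥0∞) {f f' : ℕ → ℝ≥0∞} (h : ∀ i, f i ≤ f' i) (l : List ℕ) :
    ∀ a b, cost 𝒟 f' a l b ≤ cost 𝒟 f a l b := by
  induction l with
  | nil => exact fun a b => le_rfl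
  | cons i l ih =>
    intro a b
    unfold cost
    by_cases h1 : 𝒟 a i < f a
    · rw [if_pos h1, if_pos (h1.trans_le (h a))]
      exact add_le_add le_rfl (ih i b)
    · rw [if_neg h1]
      exact le_top

theorem hlp_cd_anti (𝒟 : ℕ → ℕ → ℝ≥0∞) {f f' : ℕ → ℝ≥0∞} (h : ∀ i, f i ≤ f' i) (a b : ℕ) :
    cd 𝒟 f' a b ≤ cd 𝒟 f a b :=
  iInf_mono fun l => hlp_cost_anti 𝒟 h l a b

theorem hlp_rd_strictMono {c : ℕ × ℚ} (hc : 0 < c.2) : StrictMono fun ρ : I => rd ρ c := by
  intro ρ ρ' h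
  have h1 : (0 : ℝ) < c.2 := by exact_mod_cast hc
  have h2 : (ρ : ℝ) < ρ' := h
  have h3 := ρ.2.1
  exact (ENNReal.ofReal_lt_ofReal_iff (by nlinarith)).2 (by nlinarith)

theorem hlp_fB_anti (𝒟 : ℕ → ℕ → ℝ≥0∞) {J : List (ℕ × ℚ)} (hJ : ∀ c ∈ J, 0 < c.2) {ρ ρ' : I}
    (h : ρ ≤ ρ') (i : ℕ) : fB 𝒟 J ρ' i ≤ fB 𝒟 J ρ i :=
  iInf_mono fun c => iInf_mono fun hc =>
    tsub_le_tsub_left ((hlp_rd_strictMono (hJ c hc)).monotone h) _

theorem hlp_cd_mono (𝒟 : ℕ → ℕ → ℝ≥0∞) {J : List (ℕ × ℚ)} (hJ : ∀ c ∈ J, 0 < c.2) (a a' : ℕ) :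
    Monotone fun ρ : I => cd 𝒟 (fB 𝒟 J ρ) a a' :=
  fun _ _ h => hlp_cd_anti 𝒟 (hlp_fB_anti 𝒟 hJ h) a a'

theorem hlp_ae_pos : ∀ᵐ ρ ∂(volume : Measure I), 0 < ρ := by
  filter_upwards [(countable_singleton (0 : I)).ae_notMem volume] with ρ h
  exact lt_of_le_of_ne ρ.2.1 (Ne.symm h)

/-- A monotone family is left-continuous at almost every parameter. -/
theorem hlp_left {A : Type} [MeasurableSpace A] (Q : Measure A) [SFinite Q] {F : A × I → ℝ≥0∞}
    (hF : Measurable F) (hm : ∀ x, Monotone fun ρ => F (x, ρ)) :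
    ∀ᵐ z ∂Q.prod (volume : Measure I), ∀ t, (∀ ρ' < z.2, F (z.1, ρ') ≤ t) → F z ≤ t := by
  classical
  set u := TopologicalSpace.denseSeq I with hu
  have hd : DenseRange u := TopologicalSpace.denseRange_denseSeq I
  set G : A × I → ℝ≥0∞ := fun z => ⨆ n, if u n < z.2 then F (z.1, u n) else 0 with hG
  have mG : Measurable G := Measurable.iSup fun n =>
    Measurable.ite (measurableSet_lt measurable_const measurable_snd)
      (hF.comp (measurable_fst.prodMk measurable_const)) measurable_const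
  have key : ∀ᵐ z ∂Q.prod (volume : Measure I), F z ≤ G z := by
    refine (Measure.ae_prod_iff_ae_ae (measurableSet_le hF mG)).2 (ae_of_all _ fun x => ?_)
    filter_upwards [(hm x).countable_not_continuousAt.ae_notMem volume, hlp_ae_pos] with ρ h1 h2
    have h3 : ContinuousAt (fun ρ => F (x, ρ)) ρ := not_not.1 h1
    have : (𝓝[<] ρ).NeBot := nhdsLT_neBot_of_exists_lt ⟨0, h2⟩
    refine le_of_tendsto (h3.continuousWithinAt (s := Iio ρ)).tendsto ?_
    filter_upwards [self_mem_nhdsWithin] with ρ' h4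
    obtain ⟨_, ⟨n, rfl⟩, h5⟩ := Dense.exists_between hd (show ρ' < ρ from h4)
    refine (hm x h5.1.le).trans (le_iSup_of_le n ?_)
    rw [if_pos h5.2]
  filter_upwards [key] with z hz t ht
  refine hz.trans (iSup_le fun n => ?_)
  split_ifs with h
  · exact ht _ h
  · exact zero_le

theorem rGoodAE : RGoodAE := by
  classical
  intro α hα Q _
  have mF : ∀ a a', Measurable fun z : (ℕ → ℕ → ℝ≥0∞) × I => cd z.1 (fB z.1 α.1 z.2) a a' :=
    fun a a' => (measurable_pi_apply a').comp ((measurable_pi_apply a).comp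
      (measurable_cd.comp (measurable_fst.prodMk (measurable_fB α.1))))
  have h1 : ∀ᵐ z ∂Q.prod (volume : Measure I), 0 < z.2 :=
    (Measure.ae_prod_iff_ae_ae (measurableSet_lt measurable_const measurable_snd)).2
      (ae_of_all _ fun _ => hlp_ae_pos)
  have h2 : ∀ (a : ℕ) (c : ℕ × ℚ), ∀ᵐ z ∂Q.prod (volume : Measure I),
      0 < c.2 → z.1 a c.1 ≠ rd z.2 c := by
    intro a c
    by_cases hc : 0 < c.2
    · have m1 : Measurable fun z : (ℕ → ℕ → ℝ≥0∞) × I => z.1 a c.1 := by fun_prop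
      have m2 : Measurable fun z : (ℕ → ℕ → ℝ≥0∞) × I => rd z.2 c :=
        ((measurable_subtype_coe.comp measurable_snd).const_add 1).const_mul _ |>.ennreal_ofReal
      have : ∀ᵐ z ∂Q.prod (volume : Measure I), z.1 a c.1 ≠ rd z.2 c := by
        refine (Measure.ae_prod_iff_ae_ae (measurableSet_eq_fun m1 m2).compl).2
          (ae_of_all _ fun x => ?_)
        have hs : {ρ : I | x a c.1 = rd ρ c}.Subsingleton := fun ρ h ρ' h' =>
          (hlp_rd_strictMono hc).injective (h.symm.trans h')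
        exact hs.countable.ae_notMem volume
      exact this.mono fun z hz _ => hz
    · exact ae_of_all _ fun z h => absurd h hc
  have h3 := fun a a' => hlp_left Q (mF a a') fun x => hlp_cd_mono x hα a a'
  have h4 := fun a a' => hlp_left Q
    (F := fun z => if cd z.1 (fB z.1 α.1 z.2) a a' < ⊤ then 0 else 1)
    (Measurable.ite (measurableSet_lt (mF a a') measurable_const) measurable_const
      measurable_const) fun x ρ ρ' h => by
    show (if cd x (fB x α.1 ρ) a a' < ⊤ then (0 : ℝ≥0∞) else 1) ≤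
      if cd x (fB x α.1 ρ') a a' < ⊤ then 0 else 1
    by_cases h' : cd x (fB x α.1 ρ') a a' < ⊤
    · rw [if_pos h', if_pos ((hlp_cd_mono x hα a a' h).trans_lt h')]
    · rw [if_neg h']
      split_ifs <;> simp
  filter_upwards [h1, ae_all_iff.2 fun a => ae_all_iff.2 (h2 a),
    ae_all_iff.2 fun a => ae_all_iff.2 (h3 a), ae_all_iff.2 fun a => ae_all_iff.2 (h4 a)]
    with z k1 k2 k3 k4
  refine ⟨k1, fun a c _ hc => k2 a c hc, k3, fun a a' h => ?_⟩
  by_contra hn
  have := k4 a a' 0 fun ρ' h' => (if_pos (h ρ' h')).le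
  rw [if_neg hn] at this
  exact absurd this (by simp)

end Pool.Agent.QL.LC
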