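import Pool.Agent.P.MP_7a6434d8_pr.QL.C.HoleP2

/-! Block HOLE: the frequency of the samples in the hole. -/

open MeasureTheory ProbabilityTheory Set Filter Topology Metric
open scoped ENNReal unitInterval

namespace Pool.Agent.QL.LC

open Pool.Agent.P.MP_7a6434d8_pr Pool.Agent.P.MP_7a6434d8_pr.Mp

section General

variable {X : Type} [MeasurableSpace X] (μ : Measure X) [IsProbabilityMeasure μ]

open Classical in
/-- number of samples in `A` -/
noncomputable def hlpCnt {X : Type} (A : Set X) (M : ℕ) (S : ℕ → X) : ℝ :=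
  ∑ a ∈ Finset.range M, if S a ∈ A then 1 else 0

theorem hlp_hoeff {A : Set X} (hA : MeasurableSet A) (M : ℕ) {ε : ℝ} (hε : 0 ≤ ε) :
    iid μ {S | ε * M ≤ |hlpCnt A M S - M * μ.real A|} ≤
      ENNReal.ofReal (2 * Real.exp (M * (-2 * ε ^ 2))) := by
  classical
  set f : X → ℝ := fun x => if x ∈ A then 1 else 0 with hf
  have mf : Measurable f := Measurable.ite hA measurable_const measurable_const
  have e1 : ∫ x, f x ∂μ = μ.real A := by
    rw [← integral_indicator_one hA]
    rfl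
  have sg : ∀ i : ℕ, HasSubgaussianMGF (fun S : ℕ → X => f (S i) - μ.real A)
      ((‖(1 : ℝ) - 0‖₊ / 2) ^ 2) (iid μ) := by
    intro i
    have h := hasSubgaussianMGF_of_mem_Icc (μ := μ) (a := 0) (b := 1) mf.aemeasurable
      (ae_of_all _ fun x => by
        simp only [hf]
        split_ifs <;> simp)
    rw [e1] at h
    have hm : (iid μ).map (fun S : ℕ → X => S i) = μ :=
      Measure.infinitePi_map_eval (fun _ : ℕ => μ) i
    exact HasSubgaussianMGF.of_map (Y := fun S : ℕ → X => S i) (X := fun x => f x - μ.real A)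
      (measurable_pi_apply i).aemeasurable (hm.symm ▸ h)
  have i1 : iIndepFun (fun i (S : ℕ → X) => f (S i) - μ.real A) (iid μ) :=
    iIndepFun_infinitePi (X := fun _ x => f x - μ.real A) fun _ => mf.sub_const _
  have i2 : iIndepFun (fun i (S : ℕ → X) => -(f (S i) - μ.real A)) (iid μ) :=
    iIndepFun_infinitePi (X := fun _ x => -(f x - μ.real A)) fun _ => (mf.sub_const _).neg
  have hM : 0 ≤ ε * M := by positivity
  have b1 := HasSubgaussianMGF.measure_sum_range_ge_le_of_iIndepFun i1 (n := M)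
    (fun i _ => sg i) hM
  have b2 := HasSubgaussianMGF.measure_sum_range_ge_le_of_iIndepFun i2 (n := M)
    (fun i _ => (sg i).neg) hM
  have e2 : -(ε * M) ^ 2 / (2 * M * (((‖(1 : ℝ) - 0‖₊ / 2) ^ 2 : NNReal) : ℝ)) =
      M * (-2 * ε ^ 2) := by
    rcases Nat.eq_zero_or_pos M with rfl | h
    · simp
    · have : (0 : ℝ) < M := by exact_mod_cast h
      push_cast
      rw [sub_zero, norm_one]
      field_simp
  rw [e2] at b1 b2
  have e3 : ∀ S : ℕ → X, ∑ i ∈ Finset.range M, (f (S i) - μ.real A) =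
      hlpCnt A M S - M * μ.real A := fun S => by
    rw [Finset.sum_sub_distrib, Finset.sum_const, Finset.card_range, nsmul_eq_mul]
    rfl
  simp only [Finset.sum_neg_distrib, e3] at b1 b2
  rw [two_mul, ENNReal.ofReal_add (Real.exp_pos _).le (Real.exp_pos _).le]
  refine (measure_mono ?_).trans ((measure_union_le _ _).trans (add_le_add
    ((ENNReal.le_ofReal_iff_toReal_le (measure_ne_top _ _) (Real.exp_pos _).le).2 b1)
    ((ENNReal.le_ofReal_iff_toReal_le (measure_ne_top _ _) (Real.exp_pos _).le).2 b2)))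
  intro S hS
  have hS' : ε * M ≤ |hlpCnt A M S - M * μ.real A| := hS
  exact le_abs.1 hS'

theorem hlp_resample (K : ℕ) : ((iid μ).prod (iid μ)).map
    (fun p a => if a < K then p.1 a else p.2 a) = iid μ := by
  have m : ∀ a : ℕ, Measurable fun z : X × X => if a < K then z.1 else z.2 := fun a => by
    split_ifs
    · exact measurable_fst
    · exact measurable_snd
  have h1 := Measure.infinitePi_map_pi (μ := fun _ : ℕ => μ.prod μ)
    (f := fun a (z : X × X) => if a < K then z.1 else z.2) m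
  have h2 : ∀ a : ℕ, (μ.prod μ).map (fun z : X × X => if a < K then z.1 else z.2) = μ := by
    intro a
    split_ifs
    · exact Measure.fst_prod
    · exact Measure.snd_prod
  simp only [h2] at h1
  have h3 := iid_zip μ μ
  unfold iid at h3 ⊢
  have m2 : Measurable fun (x : ℕ → X × X) i => if i < K then (x i).1 else (x i).2 :=
    measurable_pi_lambda _ fun a => (m a).comp (measurable_pi_apply a)
  rw [← h3, Measure.map_map m2 (by fun_prop)] at h1
  exact h1

theorem hlp_cnt_near {X : Type} (A : Set X) (M K : ℕ) (S S' : ℕ → X) :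
    |hlpCnt A M (fun a => if a < K then S a else S' a) - hlpCnt A M S'| ≤ K := by
  classical
  unfold hlpCnt
  rw [← Finset.sum_sub_distrib]
  refine (Finset.abs_sum_le_sum_abs _ _).trans ?_
  calc _ ≤ ∑ a ∈ Finset.range M, if a < K then (1 : ℝ) else 0 := by
        refine Finset.sum_le_sum fun a _ => ?_
        by_cases h : a < K
        · simp only [if_pos h]
          split_ifs <;> simp
        · simp [if_neg h]
    _ ≤ K := by
        rw [Finset.sum_boole]
        refine Nat.cast_le.2 ((Finset.card_le_card (t := Finset.range K) fun a ha => ?_).trans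
          (Finset.card_range K).le)
        exact Finset.mem_range.2 (Finset.mem_filter.1 ha).2

theorem hlp_cond [DiscreteMeasurableSpace X] (K M : ℕ) (A : (ℕ → X) → Set X)
    (hA : ∀ S S', (∀ a < K, S a = S' a) → A S = A S') {ε : ℝ} (hε : 0 ≤ ε)
    (hK : K ≤ ε * M) {E : Set (ℕ → X)} (hE : MeasurableSet E)
    (h : ∀ S ∈ E, 2 * ε * M ≤ |hlpCnt (A S) M S - M * μ.real (A S)|) :
    iid μ E ≤ ENNReal.ofReal (2 * Real.exp (M * (-2 * ε ^ 2))) := by
  have m : Measurable fun (p : (ℕ → X) × (ℕ → X)) a => if a < K then p.1 a else p.2 a :=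
    measurable_pi_lambda _ fun a => by
      split_ifs <;> fun_prop
  rw [← hlp_resample μ K, Measure.map_apply m hE, Measure.prod_apply (m hE)]
  refine (lintegral_mono (g := fun _ => ENNReal.ofReal (2 * Real.exp (M * (-2 * ε ^ 2))))
    fun S => ?_).trans (by simp)
  refine (measure_mono fun S' hS => ?_).trans
    (hlp_hoeff μ (A := A S) MeasurableSet.of_discrete M hε)
  have h1 := h _ hS
  rw [hA (fun a => if a < K then S a else S' a) S fun a ha => if_pos ha] at h1
  have h2 := hlp_cnt_near (A S) M K S S'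
  have h3 := abs_sub_le (hlpCnt (A S) M fun a => if a < K then S a else S' a)
    (hlpCnt (A S) M S') (M * μ.real (A S))
  show ε * M ≤ _
  linarith

end General

theorem hlp_VO_congr {n : ℕ} (q : Quad n) {S S' : ℕ → q.Vertex} {J : List (ℕ × ℕ)} {t₀ : ℕ}
    (h1 : ∀ c ∈ J, S c.1 = S' c.1) (h2 : S t₀ = S' t₀) : VO q S J t₀ = VO q S' J t₀ := by
  have : InBall q S J = InBall q S' J := by
    funext x
    refine propext (exists_congr fun c => and_congr_right fun hc => ?_)
    rw [h1 c hc]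
  unfold VO
  rw [this, h2]

theorem hlp_frac {n : ℕ} (q : Quad n) (A : Set q.Vertex) :
    (Nat.card A : ℝ≥0∞) / Nat.card q.Vertex =
      ENNReal.ofReal ((uniformOn univ : Measure q.Vertex).real A) := by
  have := Fintype.ofFinite q.Vertex
  rw [ofReal_measureReal, uniformOn_univ, Measure.count_apply_finite A (toFinite A),
    Nat.card_eq_fintype_card (α := q.Vertex), Nat.card_eq_card_finite_toFinset (toFinite A)]

open Classical in
theorem hlp_sum {X : Type} (A : Set X) (M : ℕ) (S : ℕ → X) :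
    ∑ a ∈ Finset.range M, (if S a ∈ A then (1 : ℝ≥0∞) else 0) = ENNReal.ofReal (hlpCnt A M S) := by
  unfold hlpCnt
  rw [ENNReal.ofReal_sum_of_nonneg fun a _ => by split_ifs <;> simp]
  refine Finset.sum_congr rfl fun a _ => ?_
  split_ifs <;> simp

theorem hlp_real {c φ : ℝ} {M j : ℕ} (hc : 0 ≤ c) (hφ : 0 ≤ φ)
    (h : |c - M * φ| ≤ 1 / ((j : ℝ) + 1) * M) :
    ENNReal.ofReal c ≤ M * (ENNReal.ofReal φ + (j + 1 : ℝ≥0∞)⁻¹) ∧
      M * ENNReal.ofReal φ ≤ ENNReal.ofReal c + M * (j + 1 : ℝ≥0∞)⁻¹ := by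
  have e : (j + 1 : ℝ≥0∞)⁻¹ = ENNReal.ofReal (1 / ((j : ℝ) + 1)) := by
    rw [one_div, ENNReal.ofReal_inv_of_pos (by positivity), ENNReal.ofReal_add (by positivity)
      zero_le_one, ENNReal.ofReal_natCast, ENNReal.ofReal_one]
  have h0 : (0 : ℝ) ≤ 1 / ((j : ℝ) + 1) := by positivity
  obtain ⟨h1, h2⟩ := abs_le.1 h
  rw [e, ← ENNReal.ofReal_natCast M, ← ENNReal.ofReal_add hφ h0,
    ← ENNReal.ofReal_mul (Nat.cast_nonneg M), ← ENNReal.ofReal_mul (Nat.cast_nonneg M),
    ← ENNReal.ofReal_mul (Nat.cast_nonneg M), ← ENNReal.ofReal_add hc (by positivity)]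
  exact ⟨ENNReal.ofReal_le_ofReal (by linarith), ENNReal.ofReal_le_ofReal (by linarith)⟩

variable {H : HS} {b : Base} {α : Rg} {w : World b} {Q : Measure (ℕ → ℝ≥0∞)}
  [IsProbabilityMeasure Q]

theorem hlp_freq (hQ : w.Lim (hlC H b α) Q) :
    ∀ᵐ h ∂Q, ∀ j : ℕ, ∃ M₀ : ℕ, ∀ M : ℕ, M₀ ≤ M →
      ∑ a ∈ Finset.range M, hx h 6 a ≤ M * (hx h 7 0 + (j + 1 : ℝ≥0∞)⁻¹) ∧
      M * hx h 7 0 ≤ ∑ a ∈ Finset.range M, hx h 6 a + M * (j + 1 : ℝ≥0∞)⁻¹ := by
  classical
  refine ae_all_iff.2 fun j => ?_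
  obtain ⟨K, hK⟩ : ∃ K : ℕ, α.2 < K ∧ ∀ c ∈ α.1, c.1 < K :=
    ⟨α.2 + (α.1.map Prod.fst).sum + 1, by omega, fun c hc => by
      have := List.single_le_sum (l := α.1.map Prod.fst) (fun _ _ => Nat.zero_le _) c.1
        (List.mem_map.2 ⟨c, hc, rfl⟩)
      omega⟩
  set ε : ℝ := 1 / ((j : ℝ) + 1) / 2 with hε
  have hε0 : 0 < ε := by positivity
  set C : ℕ → Set (ℕ → ℝ≥0∞) := fun M => {h |
    ∑ a ∈ Finset.range M, hx h 6 a ≤ M * (hx h 7 0 + (j + 1 : ℝ≥0∞)⁻¹) ∧
      M * hx h 7 0 ≤ ∑ a ∈ Finset.range M, hx h 6 a + M * (j + 1 : ℝ≥0∞)⁻¹} with hC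
  have cC : ∀ M, IsClosed (C M) := fun M => by
    have c1 : Continuous fun h => ∑ a ∈ Finset.range M, hx h 6 a :=
      continuous_finsetSum _ fun a _ => continuous_hx 6 a
    have c2 := ENNReal.continuous_const_mul (ENNReal.natCast_ne_top M)
    exact (isClosed_le c1 (c2.comp ((continuous_hx 7 0).add continuous_const))).inter
      (isClosed_le (c2.comp (continuous_hx 7 0)) (c1.add continuous_const))
  have key : ∀ M : ℕ, Q {h | K ≤ ε * M ∧ h ∉ C M} ≤
      ENNReal.ofReal (2 * Real.exp (M * (-2 * ε ^ 2))) := by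
    intro M
    by_cases hM : K ≤ ε * M
    swap
    · simp [hM]
    refine (measure_mono fun h hh => hh.2).trans (hQ.open_le (measurable_hlC H b α)
      (cC M).isOpen_compl (Eventually.of_forall fun k => ?_))
    have mE := measurable_hlC H b α k (cC M).isOpen_compl.measurableSet
    refine hlp_law_le' w k mE fun n _ => ?_
    rw [← lintegral_indicator_one mE, lintegral_lawN n (measurable_one.indicator mE)]
    refine (lintegral_mono (g := fun _ => ENNReal.ofReal (2 * Real.exp (M * (-2 * ε ^ 2))))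
      fun ρ => hlp_EQS_le' n fun q => ?_).trans (by simp)
    have m2 : Measurable fun S : ℕ → q.Vertex => RZ.mk' q (ρ, S) :=
      (measurable_mk' q).comp measurable_prodMk_left
    refine (le_of_eq (lintegral_indicator_one (m2 mE))).trans ?_
    refine hlp_cond (uniformOn univ) K M (fun S => VO q S (Jd (b.δ k) ρ α.1) α.2)
      (fun S S' h => hlp_VO_congr q (fun c hc => ?_) (h _ hK.1)) hε0.le hM (m2 mE) fun S hS => ?_
    · obtain ⟨c, hc', rfl⟩ := List.mem_map.1 hc
      exact h _ (hK.2 c hc')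
    · by_contra hn
      refine hS ?_
      have h1 := hlp_real (c := hlpCnt (VO q S (Jd (b.δ k) ρ α.1) α.2) M S) (M := M) (j := j)
        (φ := (uniformOn univ : Measure q.Vertex).real (VO q S (Jd (b.δ k) ρ α.1) α.2))
        (Finset.sum_nonneg fun a _ => by split_ifs <;> simp) measureReal_nonneg
        ((not_le.1 hn).le.trans (le_of_eq (by rw [hε]; ring)))
      rw [← hlp_frac, ← hlp_sum] at h1
      simp only [hC, mem_ofPred_eq, hx_hlC]
      exact h1
  have hs : Summable fun M : ℕ => 2 * Real.exp (M * (-2 * ε ^ 2)) :=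
    (Real.summable_exp_nat_mul_iff.2 (by nlinarith [pow_pos hε0 2])).mul_left 2
  filter_upwards [ae_eventually_notMem (ne_top_of_le_ne_top hs.tsum_ofReal_ne_top
    (ENNReal.tsum_le_tsum key))] with h hh
  have h2 : ∀ᶠ M : ℕ in atTop, (K : ℝ) ≤ ε * M :=
    (tendsto_natCast_atTop_atTop.const_mul_atTop hε0).eventually_ge_atTop _
  refine eventually_atTop.1 ?_
  filter_upwards [hh, h2] with M k1 k2
  exact not_not.1 fun hn => k1 ⟨k2, hn⟩

theorem hGoodAE (h1 : CrossStmt) (h2 : E1Stmt) (h3 : E2Stmt) (h4 : QVStmt) : HGoodAE := by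
  intro H b w α Q _ hQ
  filter_upwards [hlp_om h2 hQ, hlp_inj h3 hQ, hlp_cross h1 hQ, hlp_rng h4 hQ, hlp_freq hQ]
    with h k1 k2 k3 k4 k5
  exact ⟨k1, k2, k3, k4, k5⟩

end Pool.Agent.QL.LC
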