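import Pool.Agent.P.MP_7a6434d8_pr.QL.C.HoleBase

/-! Block HOLE: the boundary is approached by inner vertices. -/

open MeasureTheory ProbabilityTheory Set Filter Topology Metric
open scoped ENNReal unitInterval

namespace Pool.Agent.QL.LC

open Pool.Agent.LGD Pool.Agent.P.MP_7a6434d8_pr Pool.Agent.P.MP_7a6434d8_pr.Mp Pool.Agent.QL.M2

theorem hlt_mod {n p u : ℕ} (hp : p < n) (hu : u ≤ n) :
    (p + u) % n < n ∧ ((p + u) % n = p + u ∨ (p + u) % n + n = p + u) := by
  refine ⟨Nat.mod_lt _ (by omega), ?_⟩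
  rcases lt_or_ge (p + u) n with h | h
  · exact Or.inl (Nat.mod_eq_of_lt h)
  · rw [Nat.mod_eq_sub_mod h, Nat.mod_eq_of_lt (by omega)]
    omega

theorem hlt_shift {n : ℕ} (g : ℕ → ℝ) (hg : ∀ u, g (u + n) = g u) (p : ℕ) :
    ∑ u ∈ Finset.range n, g (p + u) = ∑ u ∈ Finset.range n, g u := by
  induction p with
  | zero => simp
  | succ p ih =>
    have h1 := Finset.sum_range_succ (fun u => g (p + u)) n
    have h2 := Finset.sum_range_succ' (fun u => g (p + u)) n
    simp only [hg, Nat.add_zero] at h1 h2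
    simp only [Nat.add_right_comm p 1, Nat.add_assoc]
    linarith

theorem hlt_far {t : Mp} (ht : ok t) {δ θ ε : ℝ} {p₀ : ℕ} (hp : p₀ < 2 * per t)
    (H : ∀ p p' : ℕ, p ≤ p' → p' ≤ 2 * per t → θ * per t ≤ (p' : ℝ) - p →
      (p' : ℝ) - p ≤ (2 - θ) * per t → ε < δ * dW t (bv t p) (bv t p')) {u v : ℕ} (huv : u ≤ v)
    (hv : v ≤ 2 * per t) (h1 : θ * per t ≤ (v : ℝ) - u) (h2 : (v : ℝ) - u ≤ (2 - θ) * per t) :
    ε < δ * dW t (bv t ((p₀ + u) % (2 * per t))) (bv t ((p₀ + v) % (2 * per t))) := by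
  obtain ⟨h3, h4⟩ := hlt_mod hp (huv.trans hv)
  obtain ⟨h5, h6⟩ := hlt_mod hp hv
  generalize (p₀ + u) % (2 * per t) = a at *
  generalize (p₀ + v) % (2 * per t) = c at *
  by_cases h7 : c + u = a + v
  · have h8 : (c : ℝ) + u = a + v := by exact_mod_cast h7
    exact H a c (by omega) h5.le (by linarith) (by linarith)
  · have h8 : (c : ℝ) + u + 2 * per t = a + v := by exact_mod_cast (by omega)
    rw [dW_comm ht]
    exact H c a (by omega) h3.le (by linarith) (by linarith)

theorem hlt_near {t : Mp} (ht : ok t) {δ θ ε : ℝ} (hδ : 0 < δ) {p₀ : ℕ} (hp : p₀ < 2 * per t)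
    (H : ∀ p p' : ℕ, p ≤ p' → p' ≤ 2 * per t → (p' : ℝ) - p ≤ θ →
      δ * dW t (bv t p) (bv t p') ≤ ε) {u v : ℕ} (huv : u ≤ v)
    (hv : v ≤ 2 * per t) (h1 : (v : ℝ) - u ≤ θ) :
    δ * dW t (bv t ((p₀ + u) % (2 * per t))) (bv t ((p₀ + v) % (2 * per t))) ≤ 2 * ε := by
  obtain ⟨h3, h4⟩ := hlt_mod hp (huv.trans hv)
  obtain ⟨h5, h6⟩ := hlt_mod hp hv
  generalize (p₀ + u) % (2 * per t) = a at *
  generalize (p₀ + v) % (2 * per t) = c at *
  by_cases h7 : c + u = a + v
  · have h8 : (c : ℝ) + u = a + v := by exact_mod_cast h7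
    have h9 := H a c (by omega) h5.le (by linarith)
    have h10 : 0 ≤ δ * dW t (bv t a) (bv t c) := by positivity
    linarith
  · have h8 : (c : ℝ) + u + 2 * per t = a + v := by exact_mod_cast (by omega)
    have h9 : (a : ℝ) ≤ 2 * per t := by exact_mod_cast h3.le
    have h10 : (0 : ℝ) ≤ c := Nat.cast_nonneg c
    have h11 := H a _ h3.le le_rfl (by push_cast; linarith)
    have h12 := H 0 c (Nat.zero_le _) h5.le (by push_cast; linarith)
    rw [bv_end t ht] at h11
    linarith [hl_dW_tri ht hδ.le (bv t a) (bv t 0) (bv t c)]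

theorem thickStmt : ThickStmt := by
  classical
  intro t ht δ θ ε₁ ε₂ ε₃ ε e hδ hθ hθ' hL he n1 n2 n3 H1 H2 H3 p hp
  have hL0 : (0 : ℝ) ≤ per t := Nat.cast_nonneg _
  have hL8 : θ * per t ≤ 1 / 8 * per t := by gcongr
  have hL1 : 8 ≤ per t := by exact_mod_cast (by linarith : (8 : ℝ) ≤ per t)
  rw [← m2c_bv_mod t ht p hp]
  have hp₀ : p % (2 * per t) < 2 * per t := Nat.mod_lt _ (by omega)
  generalize p % (2 * per t) = p₀ at hp₀
  by_contra hcon
  simp only [not_exists, not_and, not_lt] at hcon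
  set β : ℕ → V t := fun u => bv t ((p₀ + u) % (2 * per t)) with hβ
  have β0 : β 0 = bv t p₀ := by simp only [hβ, Nat.add_zero, Nat.mod_eq_of_lt hp₀]
  have βn : β (2 * per t) = β 0 := by simp only [hβ, Nat.add_mod_right, Nat.add_zero]
  have hu : ∀ w, ∃ u < 2 * per t, dW t w (β u) = dB t w := fun w => by
    obtain ⟨q, hq, h⟩ := dB_ex w
    refine ⟨(q + (2 * per t - p₀)) % (2 * per t), Nat.mod_lt _ (by omega), ?_⟩
    simp only [hβ, Nat.add_mod_mod]
    rw [show p₀ + (q + (2 * per t - p₀)) = q + 2 * per t by omega, Nat.add_mod_right,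
      m2c_bv_mod t ht q hq, h]
  choose u hu hu' using hu
  have c1 : ∀ v ≤ 2 * per t, (v : ℝ) ≤ 2 * θ * per t ∨ 2 * per t - 2 * θ * per t ≤ (v : ℝ) →
      δ * dW t (β 0) (β v) ≤ 2 * ε₁ := by
    rintro v hv (h | h)
    · exact hlt_near ht hδ hp₀ H1 (Nat.zero_le v) hv (by simpa using h)
    · rw [← βn, dW_comm ht]
      exact hlt_near ht hδ hp₀ H1 hv le_rfl (by push_cast; linarith)
  have c2 : ∀ v ≤ 2 * per t, ∀ v' ≤ 2 * per t, δ * dW t (β v) (β v') ≤ ε₂ →
      |(v : ℝ) - v'| < θ * per t ∨ (2 - θ) * per t < |(v : ℝ) - v'| := by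
    intro v hv v' hv' h
    by_contra h1
    simp only [not_or, not_lt] at h1
    rcases le_total v v' with h2 | h2
    · rw [abs_sub_comm, abs_of_nonneg (sub_nonneg.2 (by exact_mod_cast h2))] at h1
      exact absurd (hlt_far ht hp₀ H2 h2 hv' h1.1 h1.2) (not_lt.2 h)
    · rw [abs_of_nonneg (sub_nonneg.2 (by exact_mod_cast h2))] at h1
      rw [dW_comm ht] at h
      exact absurd (hlt_far ht hp₀ H2 h2 hv h1.1 h1.2) (not_lt.2 h)
  have c3 : ∀ v ≤ 2 * per t, δ * dW t (β 0) (β v) ≤ ε₃ →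
      (v : ℝ) < 1 / 4 * per t ∨ (2 - 1 / 4) * per t < (v : ℝ) := by
    intro v hv h
    by_contra h1
    simp only [not_or, not_lt] at h1
    exact absurd (hlt_far ht hp₀ H3 (Nat.zero_le v) hv (by simpa using h1.1) (by simpa using h1.2))
      (not_lt.2 h)
  set a : V t → ℝ := fun v => if δ * dW t (β 0) v ≤ ε then 1 else 0 with ha
  set b : V t → ℝ := fun v => if u v < per t then 1 else 0 with hb
  have hcl := classStmt t ht a b fun x => by
    refine or_iff_not_imp_left.2 fun h y hy => ?_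
    simp only [not_forall] at h
    obtain ⟨z, hz, h⟩ := h
    have d2 : ∀ y, Within t 2 x y → δ * dW t x y ≤ 2 * δ := fun y hy => by
      rw [mul_comm 2]
      exact mul_le_mul_of_nonneg_left (by exact_mod_cast dW_le hy) hδ.le
    have h1 : ε - 2 * δ < δ * dW t (β 0) x ∧ δ * dW t (β 0) x ≤ ε + 2 * δ := by
      have h2 := hl_dW_tri ht hδ.le (β 0) x z
      have h3 := hl_dW_tri ht hδ.le (β 0) z x
      have h4 := d2 z hz
      rw [dW_comm ht z x] at h3
      simp only [ha] at h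
      split_ifs at h with h5 h6 h6
      · exact absurd rfl h
      · constructor <;> linarith
      · constructor <;> linarith
      · exact absurd rfl h
    have h2 : ∀ y, Within t 2 x y → δ * dW t y (β (u y)) ≤ e ∧
        ((2 * θ * per t < u y ∧ (u y : ℝ) < 1 / 4 * per t) ∨
          ((2 - 1 / 4) * per t < (u y : ℝ) ∧ (u y : ℝ) < 2 * per t - 2 * θ * per t)) := by
      intro y hy
      have h3 := hl_dW_tri ht hδ.le (β 0) x y
      have h4 := hl_dW_tri ht hδ.le (β 0) y x
      have h5 := d2 y hy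
      rw [dW_comm ht y x] at h4
      have h6 := hcon y (by rw [← β0]; linarith [h1.2])
      rw [← hu'] at h6
      have h7 := hl_dW_tri ht hδ.le (β 0) y (β (u y))
      have h8 := hl_dW_tri ht hδ.le (β 0) (β (u y)) y
      rw [dW_comm ht (β (u y)) y] at h8
      have h9 := mt (c1 _ (hu y).le) (by linarith [h1.1])
      simp only [not_or, not_le] at h9
      exact ⟨h6, (c3 _ (hu y).le (by linarith [h1.2])).imp (fun h => ⟨h9.1, h⟩) fun h => ⟨h, h9.2⟩⟩
    obtain ⟨h3, h4⟩ := h2 x (Within.refl t 2 x)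
    obtain ⟨h5, h6⟩ := h2 y hy
    have h7 := hl_dW_tri ht hδ.le (β (u x)) x (β (u y))
    have h8 := hl_dW_tri ht hδ.le x y (β (u y))
    rw [dW_comm ht (β (u x)) x] at h7
    have h9 := c2 _ (hu x).le _ (hu y).le (by linarith [d2 y hy])
    refine if_congr ?_ rfl rfl
    rw [← Nat.cast_lt (α := ℝ), ← Nat.cast_lt (α := ℝ)]
    rcases h4 with h4 | h4 <;> rcases h6 with h6 | h6
    · exact iff_of_true (by linarith) (by linarith)
    · rw [abs_of_nonpos (by linarith)] at h9
      rcases h9 with h9 | h9 <;> exfalso <;> linarith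
    · rw [abs_of_nonneg (by linarith)] at h9
      rcases h9 with h9 | h9 <;> exfalso <;> linarith
    · exact iff_of_false (by linarith) (by linarith)
  have hsum : ∑ v ∈ Finset.range (2 * per t),
      (a (β v) + a (β (v + 1))) * (b (β (v + 1)) - b (β v)) = 0 := by
    rw [← hcl]
    refine (hlt_shift (fun v => (a (bv t (v % (2 * per t))) + a (bv t ((v + 1) % (2 * per t)))) *
      (b (bv t ((v + 1) % (2 * per t))) - b (bv t (v % (2 * per t))))) (fun v => ?_) p₀).trans
      (Finset.sum_congr rfl fun v hv => ?_)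
    · simp only [Nat.add_mod_right, Nat.add_right_comm v _ 1]
    · have := Finset.mem_range.1 hv
      simp only [m2c_bv_mod t ht v this.le, m2c_bv_mod t ht (v + 1) this]
  have c4 : ∀ v ≤ 2 * per t, |(v : ℝ) - u (β v)| < θ * per t ∨
      (2 - θ) * per t < |(v : ℝ) - u (β v)| := fun v hv => c2 v hv _ (hu _).le (by
    have h1 := dB_le (β v) (Nat.mod_lt (p₀ + v) (by omega : 0 < 2 * per t)).le
    rw [hu', Nat.le_zero.1 (h1.trans (dW_self _).le)]
    push_cast
    linarith)
  have hun : ∀ w, (u w : ℝ) < 2 * per t := fun w => by exact_mod_cast hu w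
  have b1 : ∀ v : ℕ, θ * per t ≤ v → (v : ℝ) ≤ per t - θ * per t → b (β v) = 1 := fun v h1 h2 => by
    have h3 := c4 v (by exact_mod_cast (by linarith : (v : ℝ) ≤ 2 * per t))
    refine if_pos (Nat.cast_lt (α := ℝ).1 ?_)
    have h4 := hun (β v)
    have h5 : (0 : ℝ) ≤ u (β v) := Nat.cast_nonneg _
    rcases h3 with h3 | h3
    · linarith [(abs_lt.1 h3).1]
    · rcases lt_abs.1 h3 with h3 | h3 <;> linarith
  have b0 : ∀ v : ℕ, per t + θ * per t ≤ v → (v : ℝ) ≤ 2 * per t - θ * per t → b (β v) = 0 :=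
    fun v h1 h2 => by
    have h3 := c4 v (by exact_mod_cast (by linarith : (v : ℝ) ≤ 2 * per t))
    refine if_neg fun h6 => ?_
    rw [← Nat.cast_lt (α := ℝ)] at h6
    have h5 : (0 : ℝ) ≤ u (β v) := Nat.cast_nonneg _
    rcases h3 with h3 | h3
    · linarith [(abs_lt.1 h3).2]
    · rcases lt_abs.1 h3 with h3 | h3 <;> linarith
  have a1 : ∀ v ≤ 2 * per t, (v : ℝ) ≤ 2 * θ * per t ∨ 2 * per t - 2 * θ * per t ≤ (v : ℝ) →
      a (β v) = 1 := fun v hv h => if_pos (by linarith [c1 v hv h])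
  have a0 : ∀ v ≤ 2 * per t, 1 / 4 * per t ≤ (v : ℝ) → (v : ℝ) ≤ (2 - 1 / 4) * per t →
      a (β v) = 0 := fun v hv h1 h2 => if_neg fun h => by
    rcases c3 v hv (by linarith) with h3 | h3 <;> linarith
  obtain ⟨m, hm1, hm2⟩ : ∃ m : ℕ, 2 * m ≤ per t ∧ per t ≤ 2 * m + 1 := ⟨per t / 2, by omega, by omega⟩
  have hm3 : 2 * (m : ℝ) ≤ per t := by exact_mod_cast hm1
  have hm4 : (per t : ℝ) ≤ 2 * m + 1 := by exact_mod_cast hm2
  have term : ∀ v < 2 * per t, (a (β v) + a (β (v + 1))) * (b (β (v + 1)) - b (β v)) =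
      (if v < m ∨ m + per t ≤ v then 2 else 0) * (b (β (v + 1)) - b (β v)) := by
    intro v hv
    have hv' : (v : ℝ) + 1 ≤ 2 * per t := by exact_mod_cast hv
    rcases lt_or_ge (v : ℝ) (θ * per t) with h1 | h1
    · rw [a1 v hv.le (Or.inl (by linarith)), a1 (v + 1) hv (Or.inl (by push_cast; linarith)),
        if_pos (Or.inl (Nat.cast_lt (α := ℝ).1 (by linarith)))]
      norm_num
    rcases le_or_gt ((v : ℝ) + 1) (per t - θ * per t) with h2 | h2
    · rw [b1 v h1 (by linarith), b1 (v + 1) (by push_cast; linarith) (by push_cast; linarith)]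
      simp
    rcases lt_or_ge (v : ℝ) (per t + θ * per t) with h3 | h3
    · rw [a0 v hv.le (by linarith) (by linarith),
        a0 (v + 1) hv (by push_cast; linarith) (by push_cast; linarith), if_neg, add_zero]
      rw [← Nat.cast_lt (α := ℝ), ← Nat.cast_le (α := ℝ)]
      push_cast
      rintro (h | h) <;> linarith
    rcases le_or_gt ((v : ℝ) + 1) (2 * per t - θ * per t) with h4 | h4
    · rw [b0 v h3 (by linarith), b0 (v + 1) (by push_cast; linarith) (by push_cast; linarith)]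
      simp
    · rw [a1 v hv.le (Or.inr (by linarith)), a1 (v + 1) hv (Or.inr (by push_cast; linarith)),
        if_pos (Or.inr (Nat.cast_le (α := ℝ).1 (by push_cast; linarith)))]
      norm_num
  rw [Finset.sum_congr rfl fun v hv => term v (Finset.mem_range.1 hv), Finset.range_eq_Ico,
    ← Finset.sum_Ico_consecutive _ (Nat.zero_le m) (by omega : m ≤ 2 * per t),
    ← Finset.sum_Ico_consecutive _ (Nat.le_add_right m (per t)) (by omega : m + per t ≤ 2 * per t),
    Finset.sum_congr rfl fun v hv => by rw [if_pos (Or.inl (Finset.mem_Ico.1 hv).2)],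
    Finset.sum_eq_zero (s := Finset.Ico m (m + per t)) fun v hv => by
      rw [if_neg (by have := Finset.mem_Ico.1 hv; omega), zero_mul],
    Finset.sum_congr (s₁ := Finset.Ico (m + per t) (2 * per t)) rfl fun v hv => by
      rw [if_pos (Or.inr (Finset.mem_Ico.1 hv).1)],
    ← Finset.mul_sum, ← Finset.mul_sum, Finset.sum_Ico_sub (fun v => b (β v)) (Nat.zero_le m),
    Finset.sum_Ico_sub (fun v => b (β v)) (by omega : m + per t ≤ 2 * per t), βn,
    b1 m (by linarith) (by linarith),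
    b0 (m + per t) (by push_cast; linarith) (by push_cast; linarith)] at hsum
  linarith

end Pool.Agent.QL.LC
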