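import Pool.Agent.P.MP_7a6434d8_pr.QL.C.HolePat
import Pool.Agent.P.MP_7a6434d8_pr.QL.C.HoleMass
import Pool.Agent.P.MP_7a6434d8_pr.QL.C.HoleCut
import Pool.Agent.P.MP_7a6434d8_pr.QL.C.HoleEv
import Pool.Agent.P.MP_7a6434d8_pr.QL.C.HoleArea
import Pool.Agent.P.MP_7a6434d8_pr.QL.C.HoleLen
import Pool.Agent.P.MP_7a6434d8_pr.QL.C.HoleThick
import Pool.Agent.P.MP_7a6434d8_pr.QL.C.HoleP1
import Pool.Agent.P.MP_7a6434d8_pr.QL.C.HoleP3
import Pool.Agent.P.MP_7a6434d8_pr.QL.C.HoleP4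

/-! Block HOLE: the deterministic part and the reduction to the probabilistic part. -/

open MeasureTheory ProbabilityTheory Set Filter Topology Metric
open scoped ENNReal unitInterval

namespace Pool.Agent.QL.LC

open Pool.Agent.LGD Pool.Agent.P.MP_7a6434d8_pr Pool.Agent.P.MP_7a6434d8_pr.Mp Pool.Agent.QL.M2

theorem hl_freq_finite {p : ℕ → Prop} (hp : {i | p i}.Finite) : freq p = 0 := by
  classical
  refine Tendsto.limsup_eq (tendsto_of_tendsto_of_tendsto_of_le_of_le tendsto_const_nhds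
    (h := fun M : ℕ => (hp.toFinset.card : ℝ≥0∞) * (M : ℝ≥0∞)⁻¹) ?_ (fun _ => zero_le) fun M => ?_)
  · simpa using ENNReal.Tendsto.const_mul ENNReal.tendsto_inv_nat_nhds_zero
      (Or.inr (ENNReal.natCast_ne_top _))
  · exact mul_le_mul_left (by exact_mod_cast Nat.count_le_card hp M) _

theorem hl_real {U : Filter ℕ} {u : ℕ → ℝ} {c : ℝ≥0∞} (hu : ∀ k, 0 ≤ u k) (hc : c ≠ ⊤)
    (h : Tendsto (fun k => ENNReal.ofReal (u k)) U (𝓝 c)) : Tendsto u U (𝓝 c.toReal) :=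
  ((ENNReal.tendsto_toReal hc).comp h).congr fun k => ENNReal.toReal_ofReal (hu k)

theorem holeDet : HoleDet := by
  classical
  intro H b r α g ρ h hN hm hc g0 gT hl hh hG hR hE
  have hpos := hE.2.1
  have hev := hN.ev hE
  have co : ∀ i j, Tendsto (fun k => hlI H (b.δ k) α (r k) i j) b.U (𝓝 (hx h i j)) := fun i j => by
    simpa only [Function.comp_def, hx_hlC] using ((continuous_hx i j).tendsto h).comp hh
  have h0 : hx h 0 0 ≠ 0 := by
    rw [tendsto_nhds_unique (co 0 0) (tendsto_const_nhds.congr'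
      (hev.mono fun k hk => (if_pos hk).symm))]
    exact one_ne_zero
  obtain ⟨s, hs, hs'⟩ := exists_between (ENNReal.toReal_pos hE.2.2.2.ne' (hN.fB_ne_top hE.1 ρ α.2))
  obtain ⟨β, hβ, h1⟩ := hl_size hev hm hs (hN.f_low hpos hev H α.2 hs')
  have h2 : hx h 2 0 ≠ 0 := by
    refine (lt_of_lt_of_le (ENNReal.mul_pos (ENNReal.ofReal_pos.2 hβ).ne' g0) ?_).ne'
    refine le_of_tendsto_of_tendsto (ENNReal.Tendsto.const_mul hl (Or.inl g0)) (co 2 0) ?_
    filter_upwards [h1] with k hk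
    rw [← ENNReal.ofReal_mul hβ.le]
    refine ENNReal.ofReal_le_ofReal ?_
    rw [mul_left_comm]
    exact mul_le_mul_of_nonneg_left hk (pow_pos (b.δ_pos k) 4).le
  have h3 := hG.cross h0 h2
  obtain ⟨h4, h5⟩ := hl_area hev hl gT hh h3
  have h6 : hx h 7 0 ≠ ⊤ := (h5.trans_lt ENNReal.one_lt_top).ne
  have h7 : hx h 2 0 ≠ ⊤ := h4 ▸ ENNReal.mul_ne_top gT h6
  have h8 : hx h 1 0 ≠ 0 := fun h8 => hl_len hN hc hE hev fun i => hG.rng h0 h8 i ▸ co 5 i
  have hB : HBox h := ⟨h0, h8, h3, h2, h7⟩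
  have h9 : freq (inW g.2 α ρ) = hx h 7 0 := hl_freq hG (fun a => tendsto_nhds_unique (co 6 a)
    (tendsto_const_nhds.congr' ((hN.pat hpos hev hR a H).mono fun k hk =>
      (if_congr hk rfl rfl).symm))) h6
  have hinf : {i | inW g.2 α ρ i}.Infinite := fun hf => h2 (by
    rw [h4, ← h9, hl_freq_finite hf, mul_zero])
  have hL := hl_real (fun k => mul_nonneg (pow_pos (b.δ_pos k) 2).le (Nat.cast_nonneg _)) h3 (co 1 0)
  have hℓ := ENNReal.toReal_pos h8 h3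
  have e1 : ∀ ε > 0, ∃ θ > 0, ∀ᶠ k in (b.U : Filter ℕ), ∀ p p' : ℕ, p ≤ p' →
      p' ≤ 2 * per ((r k).W H (b.δ k) α) → (p' : ℝ) - p ≤ θ * per ((r k).W H (b.δ k) α) →
      b.δ k * dW ((r k).W H (b.δ k) α) (bv _ p) (bv _ p') ≤ ε := by
    intro ε hε
    obtain ⟨M, hM⟩ := iInf_lt_iff.1 ((hG.om hB).trans_lt (ENNReal.ofReal_pos.2 hε))
    refine ⟨1 / (M + 1), by positivity, ?_⟩
    filter_upwards [(co 3 M).eventually (gt_mem_nhds hM)] with k hk p p' h1 h2 h3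
    refine (ENNReal.ofReal_le_ofReal_iff hε.le).1 (le_trans ?_ hk.le)
    exact le_iSup₂_of_le p p' (le_iSup_of_le ⟨h1, h2, h3⟩ le_rfl)
  have e2 : ∀ θ > 0, ∃ ε > 0, ∀ᶠ k in (b.U : Filter ℕ), ∀ p p' : ℕ, p ≤ p' →
      p' ≤ 2 * per ((r k).W H (b.δ k) α) → θ * per ((r k).W H (b.δ k) α) ≤ (p' : ℝ) - p →
      (p' : ℝ) - p ≤ (2 - θ) * per ((r k).W H (b.δ k) α) →
      ε < b.δ k * dW ((r k).W H (b.δ k) α) (bv _ p) (bv _ p') := by
    intro θ hθ
    obtain ⟨M, hM⟩ := exists_nat_one_div_lt hθ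
    obtain ⟨ε, h1, h2, h3⟩ := ENNReal.lt_iff_exists_real_btwn.1 (pos_iff_ne_zero.2 (hG.inj hB M))
    refine ⟨ε, ENNReal.ofReal_pos.1 h2, ?_⟩
    filter_upwards [(co 4 M).eventually (lt_mem_nhds h3)] with k hk p p' h4 h5 h6 h7
    have h8 : (0 : ℝ) ≤ per ((r k).W H (b.δ k) α) := Nat.cast_nonneg _
    exact (ENNReal.ofReal_lt_ofReal_iff_of_nonneg h1).1 (hk.trans_le (iInf₂_le_of_le p p'
      (iInf_le_of_le ⟨h4, h5, le_trans (by gcongr) h6, h7.trans (by gcongr)⟩ le_rfl)))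
  have hcov := NC.cover hN hpos hev H thickStmt hℓ hL e1 e2
  exact ⟨_, _, hev, hN.rho, hℓ, hL, ENNReal.toReal_pos h2 h7,
    hl_real (fun k => mul_nonneg (pow_pos (b.δ_pos k) 4).le (Nat.cast_nonneg _)) h7 (co 2 0),
    by rw [ENNReal.ofReal_toReal h7, h4, ← h9]; rfl, e1, e2, hcov,
    fun i => hN.pat hpos hev hR i H, hinf, hN.inn hpos hev hR hinf H,
    hN.dist_lim hpos hev hR hinf H, hN.dist_fin hpos hev hR hinf H, hN.bdry hpos hev hR hinf H,
    hN.inj hpos hev hR hinf H hcov⟩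

theorem holeAE_of (S : Setup) (hN : NetAE S) (hG : GHStmt S)
    (hm : ∀ H b α k, Measurable (hlC H b α k)) (h1 : HGoodAE) (h2 : RGoodAE) : HoleAE S := by
  intro H b w α
  refine ⟨hlC H b α, hm H b α, fun X _ _ _ _ _ _ ξ hξ Q _ hQ => ?_⟩
  have hπ : Measurable fun y : C0 × I × (ℕ → ℝ≥0∞) × X => y.1.1 := measurable_fst.fst
  have hQ0 := hQ.map continuous_fst
  have i0 : IsProbabilityMeasure (Q.map Prod.fst) :=
    Measure.isProbabilityMeasure_map measurable_fst.aemeasurable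
  have hmap : Q.map (fun y => y.1.1) = (S.M w.ϑ).map S.ginf := by
    rw [← (hG b w _ hQ0).1, Measure.map_map measurable_fst measurable_fst]
    rfl
  have c1 : Continuous fun y : C0 × I × (ℕ → ℝ≥0∞) × X => y.2.2.1 := by fun_prop
  have i1 : IsProbabilityMeasure (Q.map fun y => y.2.2.1) :=
    Measure.isProbabilityMeasure_map c1.measurable.aemeasurable
  have a1 : ∀ᵐ y ∂Q, HGood y.2.2.1 :=
    ae_of_ae_map c1.measurable.aemeasurable (h1 H b w α _ (hQ.map c1))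
  have a2 : ∀ᵐ y ∂Q, (∀ c ∈ α.1, 0 < c.2) → RGood y.1.1.2 α y.2.1 := by
    by_cases hpos : ∀ c ∈ α.1, 0 < c.2
    swap
    · exact Eventually.of_forall fun _ h => absurd h hpos
    have c2 : Continuous fun y : C0 × I × (ℕ → ℝ≥0∞) × X => y.1.1.2 := by fun_prop
    have c3 : Continuous fun y : C0 × I × (ℕ → ℝ≥0∞) × X => (y.1.1.2, y.2.1) := by fun_prop
    have i2 : IsProbabilityMeasure (Q.map fun y => y.1.1.2) :=
      Measure.isProbabilityMeasure_map c2.measurable.aemeasurable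
    have i3 : IsProbabilityMeasure (Q.map fun y => (y.1.1.2, y.2.1)) :=
      Measure.isProbabilityMeasure_map c3.measurable.aemeasurable
    have h3 := (hQ.map c3).unique ((hQ.map c2).prod_rho
      (fun k => (measurable_code0 b k).fst.snd) fun _ _ _ _ _ _ => rfl)
    have h4 := h2 α hpos (Q.map fun y => y.1.1.2)
    rw [← h3] at h4
    exact (ae_of_ae_map c3.measurable.aemeasurable h4).mono fun _ h _ => h
  have a3 := a1.and a2
  rw [← S.hat_snd w.ϑ Q hπ hmap] at a3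
  filter_upwards [ae_of_ae_map measurable_snd.aemeasurable a3,
    hN b w (I × (ℕ → ℝ≥0∞) × X) (fun k r => (r.ρ, hlC H b α k r, ξ k r))
      (fun k => measurable_rho.prodMk ((hm H b α k).prodMk (hξ k))) Q hQ (fun _ => univ)
      fun _ => Eventually.of_forall fun _ => mem_univ _]
    with z ⟨b1, b2⟩ ⟨b3, b4, r, p, _, b5, b6⟩
  have t0 := (continuous_fst.tendsto _).comp b5
  have t1 := (continuous_snd.fst.tendsto _).comp b5
  have t2 := (c1.tendsto _).comp b5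
  obtain ⟨l1, l2, l3⟩ := hl_lam S b3 b4
  have hC := hl_nc S b3 b4 t0 t1
  exact ⟨b3, b4, r, p, b5, b6, fun hE => holeDet H b r α _ _ _ hC (hl_ballMass S b3 b4 t0)
    (hl_noCut b6 l3) l1 l2 ((continuous_fst.fst.tendsto _).comp t0) t2 b1 (b2 hE.2.1) hE,
    fun hpos hE => hC.not_ev hpos (b2 hpos).tie hE⟩

theorem holeAE (S : Setup) (hN : NetAE S) (hG : GHStmt S) (h1 : CrossStmt) (h2 : E1Stmt)
    (h3 : E2Stmt) (h4 : QVStmt) : HoleAE S :=
  holeAE_of S hN hG measurable_hlC (hGoodAE h1 h2 h3 h4) rGoodAE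

end Pool.Agent.QL.LC
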