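import Pool.Agent.P.MP_7a6434d8_pr.QL.C.Stmts

/-! The recoupling of a limit law with the sampled sphere. -/

open MeasureTheory ProbabilityTheory Set Filter Topology Metric
open scoped ENNReal unitInterval

namespace Pool.Agent.QL.LC

open Pool.Agent.LGD Pool.Agent.P.MP_7a6434d8_pr Pool.Agent.P.MP_7a6434d8_pr.Mp

theorem measurableSet_denseRange : MeasurableSet {x : ℕ → ℂ | DenseRange x} := by
  have : {x : ℕ → ℂ | DenseRange x} =
      ⋂ V ∈ TopologicalSpace.countableBasis ℂ, ⋃ a, (fun x : ℕ → ℂ => x a) ⁻¹' V := by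
    ext x
    simp only [mem_ofPred_eq, mem_iInter, mem_iUnion, mem_preimage]
    refine (TopologicalSpace.isBasis_countableBasis ℂ).dense_iff.trans ⟨fun h V hV => ?_,
      fun h V hV _ => ?_⟩
    · obtain ⟨_, h1, a, rfl⟩ := h V hV (TopologicalSpace.nonempty_of_mem_countableBasis hV)
      exact ⟨a, h1⟩
    · obtain ⟨a, ha⟩ := h V hV
      exact ⟨_, ha, a, rfl⟩
  rw [this]
  exact MeasurableSet.biInter (TopologicalSpace.countable_countableBasis ℂ) fun V hV =>
    MeasurableSet.iUnion fun a => measurable_pi_apply a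
      (TopologicalSpace.isOpen_of_mem_countableBasis hV).measurableSet

theorem iid_dense (m : Measure ℂ) [IsProbabilityMeasure m]
    (h : ∀ V : Set ℂ, IsOpen V → V.Nonempty → 0 < m V) : ∀ᵐ x ∂iid m, DenseRange x := by
  have := (ae_ball_iff (TopologicalSpace.countable_countableBasis ℂ)).2 fun V hV =>
    iid_infinite m (TopologicalSpace.isOpen_of_mem_countableBasis hV).measurableSet
      (h V (TopologicalSpace.isOpen_of_mem_countableBasis hV)
        (TopologicalSpace.nonempty_of_mem_countableBasis hV)).ne'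
  filter_upwards [this] with x hx
  refine (TopologicalSpace.isBasis_countableBasis ℂ).dense_iff.2 fun V hV _ => ?_
  obtain ⟨a, ha⟩ := (hx V hV).nonempty
  exact ⟨_, ha, a, rfl⟩

section Hat

variable (S : Setup) (ϑ : Measure ℝ) [IsProbabilityMeasure ϑ] {Y Y' : Type} [MeasurableSpace Y]
  [StandardBorelSpace Y] [Nonempty Y] [MeasurableSpace Y'] [StandardBorelSpace Y'] [Nonempty Y']
  (Q : Measure Y) [IsProbabilityMeasure Q] {π : Y → GC}

instance Setup.hat_prob : IsProbabilityMeasure (S.hat ϑ Q π) := by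
  unfold Setup.hat; infer_instance

theorem Setup.hat_fst : (S.hat ϑ Q π).map Prod.fst = S.M ϑ := Measure.fst_compProd _ _

theorem Setup.M_fst : (S.M ϑ).map Prod.fst = ϑ.prod S.P := Measure.fst_compProd _ _

theorem Setup.lintegral_M {G : S.X → ℝ≥0∞} (hG : Measurable G) :
    ∫⁻ m, G m ∂S.M ϑ = ∫⁻ p, ∫⁻ x, G (p, x) ∂iid (S.O.κ p.2) ∂ϑ.prod S.P :=
  Measure.lintegral_compProd hG

theorem Setup.lintegral_hat {G : S.X × Y → ℝ≥0∞} (hG : Measurable G) :
    ∫⁻ z, G z ∂S.hat ϑ Q π = ∫⁻ m, ∫⁻ y, G (m, y) ∂condDistrib id π Q (S.ginf m) ∂S.M ϑ :=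
  Measure.lintegral_compProd hG

theorem Setup.ae_M_of_ae {p : S.Ω → Prop} (h : ∀ᵐ ω ∂S.P, p ω) : ∀ᵐ m ∂S.M ϑ, p m.1.2 := by
  have h1 : ∀ᵐ q ∂ϑ.prod S.P, p q.2 := Measure.quasiMeasurePreserving_snd.ae h
  rw [← S.M_fst ϑ] at h1
  exact ae_of_ae_map measurable_fst.aemeasurable h1

theorem Setup.ae_hat_of_ae {p : S.X → Prop} (h : ∀ᵐ m ∂S.M ϑ, p m) :
    ∀ᵐ z ∂S.hat ϑ Q π, p z.1 := by
  rw [← S.hat_fst ϑ Q (π := π)] at h
  exact ae_of_ae_map measurable_fst.aemeasurable h

theorem Setup.ae_goodPt : ∀ᵐ m ∂S.M ϑ, S.GoodPt m := by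
  have hd : ∀ᵐ m ∂S.M ϑ, DenseRange m.2 := by
    refine Measure.ae_compProd_of_ae_ae (measurable_snd measurableSet_denseRange) ?_
    refine Measure.quasiMeasurePreserving_snd.ae (p := fun ω => ∀ᵐ x ∂iid (S.O.κ ω), DenseRange x) ?_
    filter_upwards [S.O.κ_eq, S.O.supp] with ω h1 h2
    exact iid_dense _ (by rwa [h1])
  filter_upwards [S.ae_M_of_ae ϑ S.O.geoM, S.ae_M_of_ae ϑ S.O.prob, S.ae_M_of_ae ϑ S.O.supp,
    S.ae_M_of_ae ϑ S.atomless, S.ae_M_of_ae ϑ S.O.dJ_eq, hd] with m h1 h2 h3 h4 h5 h6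
  exact ⟨h1, h2, h3, h4, h5, h6⟩

/-- disintegration of `Q` along `π` -/
theorem lintegral_condQ (hπ : Measurable π) {G : GC × Y → ℝ≥0∞} (hG : Measurable G) :
    ∫⁻ g, ∫⁻ y, G (g, y) ∂condDistrib id π Q g ∂Q.map π = ∫⁻ y, G (π y, y) ∂Q := by
  rw [← Measure.lintegral_compProd hG, compProd_map_condDistrib aemeasurable_id,
    lintegral_map hG (hπ.prodMk measurable_id)]
  rfl

variable (hπ : Measurable π) (hm : Q.map π = (S.M ϑ).map S.ginf)

include hπ hm

theorem Setup.lintegral_hat_geo {G : GC × Y → ℝ≥0∞} (hG : Measurable G) :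
    ∫⁻ z, G (S.ginf z.1, z.2) ∂S.hat ϑ Q π = ∫⁻ y, G (π y, y) ∂Q := by
  have m : Measurable fun z : S.X × Y => G (S.ginf z.1, z.2) :=
    hG.comp ((S.measurable_ginf.comp measurable_fst).prodMk measurable_snd)
  rw [S.lintegral_hat ϑ Q m, ← lintegral_condQ Q hπ hG, hm,
    lintegral_map hG.lintegral_kernel_prod_right' S.measurable_ginf]

theorem Setup.hat_pair :
    (S.hat ϑ Q π).map (fun z => (S.ginf z.1, z.2)) = Q.map fun y => (π y, y) := by
  have h1 : Measurable fun z : S.X × Y => (S.ginf z.1, z.2) :=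
    (S.measurable_ginf.comp measurable_fst).prodMk measurable_snd
  have h2 : Measurable fun y : Y => (π y, y) := hπ.prodMk measurable_id
  ext s hs
  rw [← lintegral_indicator_one hs, ← lintegral_indicator_one hs,
    lintegral_map (measurable_one.indicator hs) h1, lintegral_map (measurable_one.indicator hs) h2]
  exact S.lintegral_hat_geo ϑ Q hπ hm (measurable_one.indicator hs)

theorem Setup.hat_snd : (S.hat ϑ Q π).map Prod.snd = Q := by
  have h := congrArg (Measure.map Prod.snd) (S.hat_pair ϑ Q hπ hm)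
  have h1 : Measurable fun z : S.X × Y => (S.ginf z.1, z.2) :=
    (S.measurable_ginf.comp measurable_fst).prodMk measurable_snd
  have h2 : Measurable fun y : Y => (π y, y) := hπ.prodMk measurable_id
  rw [Measure.map_map measurable_snd h1, Measure.map_map measurable_snd h2] at h
  exact h.trans Measure.map_id

theorem Setup.ae_hat_of_ae_snd {p : Y → Prop} (h : ∀ᵐ y ∂Q, p y) :
    ∀ᵐ z ∂S.hat ϑ Q π, p z.2 := by
  have e := S.hat_snd ϑ Q hπ hm
  exact ae_of_ae_map measurable_snd.aemeasurable (by rwa [e])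

theorem Setup.hat_ae_eq : ∀ᵐ z ∂S.hat ϑ Q π, π z.2 = S.ginf z.1 := by
  have hs : MeasurableSet {p : GC × Y | π p.2 = p.1} :=
    measurableSet_eq_fun (hπ.comp measurable_snd) measurable_fst
  refine ae_of_ae_map (p := fun p : GC × Y => π p.2 = p.1)
    ((S.measurable_ginf.comp measurable_fst).prodMk measurable_snd).aemeasurable ?_
  have e := S.hat_pair ϑ Q hπ hm
  erw [e]
  exact (ae_map_iff (hπ.prodMk measurable_id).aemeasurable hs).2 (.of_forall fun _ => rfl)

theorem Setup.hat_map {φ : Y → Y'} (hφ : Measurable φ) {π' : Y' → GC} (hπ' : Measurable π')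
    (h : ∀ y, π' (φ y) = π y) [IsProbabilityMeasure (Q.map φ)] :
    (S.hat ϑ Q π).map (Prod.map id φ) = S.hat ϑ (Q.map φ) π' := by
  have e : π' ∘ φ = π := funext h
  have h1 := condDistrib_map (ν := Q) (X := π') (Y := id) hπ'.aemeasurable aemeasurable_id
    hφ.aemeasurable
  have h2 : condDistrib (φ ∘ id) π Q =ᵐ[Q.map π] (condDistrib id π Q).map φ :=
    condDistrib_comp π aemeasurable_id hφ
  rw [e] at h1
  have h3 : condDistrib id π' (Q.map φ) =ᵐ[(S.M ϑ).map S.ginf] (condDistrib id π Q).map φ :=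
    hm ▸ h1.trans h2
  have := Kernel.IsMarkovKernel.map (condDistrib id π Q) hφ
  unfold Setup.hat
  rw [← Measure.compProd_map hφ]
  have := Kernel.IsMarkovKernel.map ((condDistrib id π Q).comap S.ginf S.measurable_ginf) hφ
  refine Measure.compProd_congr ?_
  filter_upwards [ae_of_ae_map S.measurable_ginf.aemeasurable h3] with m hm'
  rw [Kernel.map_apply _ hφ, Kernel.comap_apply, Kernel.comap_apply, hm', Kernel.map_apply _ hφ]

/-- an identity for all test functions of the geometry passes to the recoupled world -/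
theorem Setup.hat_transfer {T : Type} [MeasurableSpace T] (τ : Measure T) [IsProbabilityMeasure τ]
    {A B : Y × T → ℝ≥0∞} (hA : Measurable A) (hB : Measurable B) (hA1 : ∀ z, A z ≤ 1)
    (hB1 : ∀ z, B z ≤ 1)
    (h : ∀ Φ : GC × T → ℝ≥0∞, Measurable Φ →
      ∫⁻ z, Φ (π z.1, z.2) * A z ∂Q.prod τ = ∫⁻ z, Φ (π z.1, z.2) * B z ∂Q.prod τ) :
    ∀ᵐ u ∂(S.M ϑ).prod τ, ∫⁻ y, A (y, u.2) ∂condDistrib id π Q (S.ginf u.1) =
      ∫⁻ y, B (y, u.2) ∂condDistrib id π Q (S.ginf u.1) := by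
  have := Measure.isProbabilityMeasure_map (μ := Q) hπ.aemeasurable
  have ms : ∀ {C : Y × T → ℝ≥0∞}, Measurable C →
      Measurable fun u : GC × T => ∫⁻ y, C (y, u.2) ∂condDistrib id π Q u.1 := fun hC =>
    Measurable.lintegral_kernel_prod_right' (κ := (condDistrib id π Q).comap Prod.fst measurable_fst)
      (hC.comp (measurable_snd.prodMk measurable_fst.snd))
  have key : ∀ {C : Y × T → ℝ≥0∞}, Measurable C → ∀ Φ : GC × T → ℝ≥0∞, Measurable Φ →
      ∫⁻ u, Φ u * ∫⁻ y, C (y, u.2) ∂condDistrib id π Q u.1 ∂(Q.map π).prod τ =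
        ∫⁻ z, Φ (π z.1, z.2) * C z ∂Q.prod τ := fun {C} hC Φ hΦ => by
    have n1 : Measurable fun u : GC × T => Φ u * ∫⁻ y, C (y, u.2) ∂condDistrib id π Q u.1 :=
      hΦ.mul (ms hC)
    have n2 : Measurable fun z : Y × T => Φ (π z.1, z.2) * C z :=
      (hΦ.comp ((hπ.comp measurable_fst).prodMk measurable_snd)).mul hC
    rw [lintegral_prod_symm' _ n1, lintegral_prod_symm' _ n2]
    refine lintegral_congr fun t => ?_
    have m1 : Measurable fun y => C (y, t) := hC.comp measurable_prodMk_right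
    simp only [← lintegral_const_mul _ m1]
    exact lintegral_condQ Q hπ (G := fun p => Φ (p.1, t) * C (p.2, t))
      ((hΦ.comp (measurable_fst.prodMk measurable_const)).mul (m1.comp measurable_snd))
  have k : ∀ᵐ u ∂(Q.map π).prod τ, ∫⁻ y, A (y, u.2) ∂condDistrib id π Q u.1 =
      ∫⁻ y, B (y, u.2) ∂condDistrib id π Q u.1 := by
    refine ae_eq_of_forall_setLIntegral_eq_of_sigmaFinite (ms hA) (ms hB) fun s hs _ => ?_
    have e := (key hA _ (measurable_one.indicator hs)).trans ((h _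
      (measurable_one.indicator hs)).trans (key hB _ (measurable_one.indicator hs)).symm)
    have i : ∀ f : GC × T → ℝ≥0∞, ∫⁻ u in s, f u ∂(Q.map π).prod τ =
        ∫⁻ u, s.indicator 1 u * f u ∂(Q.map π).prod τ := fun f => by
      rw [← lintegral_indicator hs]
      refine lintegral_congr fun u => ?_
      by_cases hu : u ∈ s <;> simp [hu]
    rw [i, i]
    exact e
  have e : (Q.map π).prod τ = ((S.M ϑ).prod τ).map (Prod.map S.ginf id) := by
    rw [← Measure.map_prod_map _ _ S.measurable_ginf measurable_id, Measure.map_id, hm]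
  rw [e] at k
  exact ae_of_ae_map (S.measurable_ginf.prodMap measurable_id).aemeasurable k

/-- weights on the sphere side can be replaced by functions of the geometry -/
theorem Setup.hat_weight {Φ : S.X → ℝ≥0∞} (hΦ : Measurable Φ) (hfin : ∫⁻ m, Φ m ∂S.M ϑ ≠ ⊤) :
    ∃ ψ : GC → ℝ≥0∞, Measurable ψ ∧ ∀ H : Y → ℝ≥0∞, Measurable H →
      ∫⁻ z, Φ z.1 * H z.2 ∂S.hat ϑ Q π = ∫⁻ y, ψ (π y) * H y ∂Q := by
  have := isFiniteMeasure_withDensity hfin
  have ac : ((S.M ϑ).withDensity Φ).map S.ginf ≪ (S.M ϑ).map S.ginf :=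
    (withDensity_absolutelyContinuous _ _).map S.measurable_ginf
  have mr := Measure.measurable_rnDeriv (((S.M ϑ).withDensity Φ).map S.ginf) ((S.M ϑ).map S.ginf)
  refine ⟨_, mr, fun H hH => ?_⟩
  have mk : Measurable fun g => ∫⁻ y, H y ∂condDistrib id π Q g := hH.lintegral_kernel
  have n1 : Measurable fun z : S.X × Y => Φ z.1 * H z.2 :=
    (hΦ.comp measurable_fst).mul (hH.comp measurable_snd)
  have n2 : Measurable fun p : GC × Y => (((S.M ϑ).withDensity Φ).map S.ginf).rnDeriv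
      ((S.M ϑ).map S.ginf) p.1 * H p.2 := (mr.comp measurable_fst).mul (hH.comp measurable_snd)
  have n3 : Measurable fun m : S.X => ∫⁻ y, H y ∂condDistrib id π Q (S.ginf m) :=
    mk.comp S.measurable_ginf
  rw [S.lintegral_hat ϑ Q n1, ← lintegral_condQ Q hπ n2, hm]
  simp only [lintegral_const_mul _ hH]
  have i1 : IsFiniteMeasure (((S.M ϑ).withDensity Φ).map S.ginf) := Measure.isFiniteMeasure_map _ _
  have i2 : IsFiniteMeasure ((S.M ϑ).map S.ginf) := Measure.isFiniteMeasure_map _ _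
  have i3 := Measure.haveLebesgueDecomposition_of_sigmaFinite
    (((S.M ϑ).withDensity Φ).map S.ginf) ((S.M ϑ).map S.ginf)
  rw [lintegral_rnDeriv_mul ac mk.aemeasurable, lintegral_map mk S.measurable_ginf,
    lintegral_withDensity_eq_lintegral_mul _ hΦ n3]
  rfl

end Hat

end Pool.Agent.QL.LC
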