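import Pool.Agent.P.MP_7a6434d8_pr.QL.C.Api
import Pool.Agent.P.MP_7a6434d8_pr.QL.W.GRer

/-! The basic code is invariant under isomorphisms; labelled versus rooted maps. -/

open MeasureTheory ProbabilityTheory Set Filter Topology Metric
open scoped ENNReal unitInterval

namespace Pool.Agent.QL.LC

open Pool.Agent.LGD Pool.Agent.P.MP_7a6434d8_pr Pool.Agent.P.MP_7a6434d8_pr.Mp

theorem inp_dEg_le {D : Type} [Fintype D] (α π α' π' : D → D) (ψ : D ≃ D)
    (hα : ∀ d, ψ (α d) = α' (ψ d)) (hπ : ∀ d, ψ (π d) = π' (ψ d)) {ι : Type} (l : List ι)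
    (K K' : Set D) (A A' : ι → Set D) (lo : ι → ℝ × ℝ) (hK : ∀ d, d ∈ K ↔ ψ d ∈ K')
    (hA : ∀ c d, d ∈ A c ↔ ψ d ∈ A' c) :
    dEg α π K (l.map fun c => (A c, lo c)) ≤ dEg α' π' K' (l.map fun c => (A' c, lo c)) := by
  classical
  refine le_iInf fun f => le_iInf fun h1 => le_iInf fun h2 => ?_
  refine iInf_le_of_le (fun d => f (ψ d)) (iInf_le_of_le
    (fun d => (congrArg f (hπ d)).trans (h1 _))
    (iInf_le_of_le ?_ (le_of_eq ?_)))
  · intro c hc d hd
    obtain ⟨c', hc', rfl⟩ := List.mem_map.1 hc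
    exact h2 (A' c', lo c') (List.mem_map.2 ⟨c', hc', rfl⟩) (ψ d) ((hA c' d).1 hd)
  · congr 2
    refine Fintype.sum_equiv ψ _ _ fun d => ?_
    rw [← hα]
    exact if_congr (and_congr (hK d) (hK _)) rfl rfl

theorem inp_dEg_eq {D : Type} [Fintype D] (α π α' π' : D → D) (ψ : D ≃ D)
    (hα : ∀ d, ψ (α d) = α' (ψ d)) (hπ : ∀ d, ψ (π d) = π' (ψ d)) {ι : Type} (l : List ι)
    (K K' : Set D) (A A' : ι → Set D) (lo : ι → ℝ × ℝ) (hK : ∀ d, d ∈ K ↔ ψ d ∈ K')
    (hA : ∀ c d, d ∈ A c ↔ ψ d ∈ A' c) :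
    dEg α π K (l.map fun c => (A c, lo c)) = dEg α' π' K' (l.map fun c => (A' c, lo c)) := by
  refine le_antisymm (inp_dEg_le α π α' π' ψ hα hπ l K K' A A' lo hK hA)
    (inp_dEg_le α' π' α π ψ.symm (fun d => ?_) (fun d => ?_) l K' K A' A lo (fun d => ?_)
      fun c d => ?_)
  · rw [Equiv.symm_apply_eq, hα, Equiv.apply_symm_apply]
  · rw [Equiv.symm_apply_eq, hπ, Equiv.apply_symm_apply]
  · rw [hK, Equiv.apply_symm_apply]
  · rw [hA, Equiv.apply_symm_apply]

variable {n : ℕ} {q q' : Quad n} {ψ : Equiv.Perm (Fin (4 * n))}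

theorem inp_dist (h : UIso q q' ψ) (x y : q.Vertex) :
    q'.graph.dist (xrerootV q q' ψ h.1 h.2 x) (xrerootV q q' ψ h.1 h.2 y) = q.graph.dist x y :=
  xreroot_dist (xrerootG q q' ψ h.1 h.2) x y

theorem inp_ballE (h : UIso q q' ψ) (S : ℕ → q.Vertex) (pr : Bool) (j : BDat ℕ) :
    (gmQ q').ballE (fun i => xrerootV q q' ψ h.1 h.2 (S i)) pr j = (gmQ q).ballE S pr j := by
  have hb : ∀ (l : List (ℕ × ℕ)) (d : Fin (4 * n)), d ∈ (gmQ q).bset S l ↔
      ψ d ∈ (gmQ q').bset (fun i => xrerootV q q' ψ h.1 h.2 (S i)) l := fun l d =>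
    exists_congr fun c => and_congr_right fun _ =>
      (congrArg (· ≤ c.2) (inp_dist h (S c.1) (q.tail d))).symm.to_iff
  refine (inp_dEg_eq (D := Fin (4 * n)) q.α _ q'.α _ ψ h.1 (fun d => ?_) j.2 _ _
    (fun c => (gmQ q).bset S c.1)
    (fun c => (gmQ q').bset (fun i => xrerootV q q' ψ h.1 h.2 (S i)) c.1)
    (fun c => ((c.2.1 : ℝ), (c.2.2 : ℝ))) (hb j.1) fun c => hb c.1).symm
  cases pr
  · exact h.2 d
  · exact (h.2 _).trans (congrArg q'.φ (h.1 d))

theorem inp_code (h : UIso q q' ψ) (b : Base) (k : ℕ) (ρ : I) (S : ℕ → q.Vertex) :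
    code0 b k (RZ.mk' q' (ρ, fun i => xrerootV q q' ψ h.1 h.2 (S i))) =
      code0 b k (RZ.mk' q (ρ, S)) := by
  refine Prod.ext (Prod.ext rfl ?_) (Prod.ext ?_ ?_)
  · funext i j
    exact congrArg (fun t : ℕ => ENNReal.ofReal (b.δ k * t)) (inp_dist h (S i) (S j))
  · funext x
    exact congrArg (fun t => nrm (b.κ k) x.1 * t) (inp_ballE h S x.1 _)
  · funext x
    rcases x with N | l
    · refine ((xrerootV q q' ψ h.1 h.2).iSup_congr fun v => ?_).symm
      exact iInf_congr fun i => iInf_congr fun _ =>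
        congrArg (fun t : ℕ => ENNReal.ofReal (b.δ k * t)) (inp_dist h (S i) v)
    · change ENNReal.ofReal ((∑ v : q'.Vertex, (l.map fun i => Real.exp (-(b.δ k *
          q'.graph.dist (xrerootV q q' ψ h.1 h.2 (S i)) v))).prod) / Nat.card q'.Vertex) =
        ENNReal.ofReal ((∑ v : q.Vertex, (l.map fun i =>
          Real.exp (-(b.δ k * q.graph.dist (S i) v))).prod) / Nat.card q.Vertex)
      rw [← Equiv.sum_comp (xrerootV q q' ψ h.1 h.2), Nat.card_congr (xrerootV q q' ψ h.1 h.2)]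
      simp only [inp_dist h]

theorem inp_smpl (e : q.Vertex ≃ q'.Vertex) :
    (smpl q.Vertex).map (fun S i => e (S i)) = smpl q'.Vertex := by
  have h : (uniformOn univ : Measure q.Vertex).map e = uniformOn univ := by
    refine Measure.ext_of_singleton fun y => ?_
    rw [Measure.map_apply .of_discrete .of_discrete]
    have : e ⁻¹' {y} = {e.symm y} := by
      ext x
      simp [Equiv.eq_symm_apply]
    rw [this, grer_unif, grer_unif, Nat.card_congr e]
  unfold smpl
  rw [← h]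
  exact Measure.infinitePi_map_pi _ fun _ => Measurable.of_discrete

/-- average of a function of the code over the samples -/
noncomputable def inpW (b : Base) (k : ℕ) (G : C0 → ℝ≥0∞) (q : Quad n) : ℝ≥0∞ :=
  ∫⁻ p, G (code0 b k (RZ.mk' q p)) ∂(volume : Measure I).prod (smpl q.Vertex)

theorem inpW_iso (h : UIso q q' ψ) (b : Base) (k : ℕ) {G : C0 → ℝ≥0∞} (hG : Measurable G) :
    inpW b k G q' = inpW b k G q := by
  have hm : Measurable fun (S : ℕ → q.Vertex) i => xrerootV q q' ψ h.1 h.2 (S i) :=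
    measurable_pi_lambda _ fun i => Measurable.of_discrete.comp (measurable_pi_apply i)
  have : IsProbabilityMeasure (smpl q.Vertex) := by unfold smpl; infer_instance
  unfold inpW
  rw [← inp_smpl (xrerootV q q' ψ h.1 h.2), ← Measure.map_id (μ := (volume : Measure I)),
    Measure.map_prod_map _ _ measurable_id hm, lintegral_map
      ((hG.fun_comp (measurable_code0 b k)).fun_comp (measurable_mk' q')) (measurable_id.prodMap hm),
    Measure.map_id]
  exact lintegral_congr fun p => congrArg G (inp_code h b k p.1 p.2)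

theorem inp_law (b : Base) (k n : ℕ) {G : C0 → ℝ≥0∞} (hG : Measurable G) :
    ∫⁻ r, G (code0 b k r) ∂lawN n =
      ∫⁻ c : RootedQuad n, inpW b k G (Quot.out c) ∂uniformOn univ := by
  have h1 : ∫⁻ r, G (code0 b k r) ∂lawN n =
      (Nat.card (Quad n) : ℝ≥0∞)⁻¹ * ∑' q : Quad n, inpW b k G q := by
    rw [lawN, lintegral_sum_measure, ← ENNReal.tsum_mul_left]
    refine tsum_congr fun q => ?_
    rw [lintegral_smul_measure,
      lintegral_map (hG.fun_comp (measurable_code0 b k)) (measurable_mk' q)]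
    rfl
  have h2 : ∀ q : Quad n, inpW b k G q =
      inpW b k G (Quot.out (Quot.mk _ q : RootedQuad n) : Quad n) := fun q => by
    obtain ⟨ψ, h1, h2, -⟩ : Quad.Iso (Quot.out (Quot.mk _ q : RootedQuad n)) q :=
      (xcount_mk_eq _ _).1 (Quot.out_eq _)
    exact inpW_iso ⟨h1, h2⟩ b k hG
  have h3 := grer_labelled (fun c : RootedQuad n => inpW b k G (Quot.out c))
  have hf0 : ((4 * n).factorial : ℝ≥0∞) ≠ 0 := by exact_mod_cast Nat.factorial_ne_zero _
  have h5 : (Nat.card (Quad n) : ℝ≥0∞) =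
      ((4 * n).factorial : ℝ≥0∞) * Nat.card (RootedQuad n) := by
    have h4 := card_labelled (n := n) fun _ => True
    rw [Nat.card_congr (Equiv.subtypeUnivEquiv fun _ => trivial),
      Nat.card_congr (Equiv.subtypeUnivEquiv fun _ => trivial)] at h4
    rw [h4, Nat.cast_mul, mul_comm]
  rw [h1, tsum_congr h2, h3, h5, lintegral_countable', ENNReal.mul_inv (Or.inl hf0)
    (Or.inl (ENNReal.natCast_ne_top _)), mul_mul_mul_comm,
    ENNReal.inv_mul_cancel hf0 (ENNReal.natCast_ne_top _), one_mul, ← ENNReal.tsum_mul_left]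
  exact tsum_congr fun c => by rw [grer_unif, mul_comm]

end Pool.Agent.QL.LC
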