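import Pool.Agent.P.MP_7a6434d8_pr.QL.C.Stmts
import Pool.Agent.P.MP_7a6434d8_pr.QL.Hom.Main

/-! The deterministic part of block INP. -/

open MeasureTheory ProbabilityTheory Set Filter Topology Metric
open scoped ENNReal unitInterval

namespace Pool.Agent.QL.LC

open Pool.Agent.LGD Pool.Agent.P.MP_7a6434d8_pr Pool.Agent.P.MP_7a6434d8_pr.Mp

theorem inp_isMet (S : Setup) {m : S.X} (h : S.GoodPt m) : IsMet (S.D m) := by
  have hd := h.geo.isMet
  have he := Real.exp_pos (gam / 4 * m.1.1)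
  refine ⟨fun x y => ?_, fun x y z => ?_, fun x y => ?_, continuous_const.mul hd.cont⟩
  · rw [Setup.D, Setup.D, hd.symm]
  · rw [Setup.D, Setup.D, Setup.D, ← mul_add]
    exact mul_le_mul_of_nonneg_left (hd.triangle x y z) he.le
  · rw [Setup.D, mul_eq_zero, hd.eq_iff]
    exact or_iff_right he.ne'

theorem inp_ginf (S : Setup) {m : S.X} (h : S.GoodPt m) (x : ℕ → ℂ) (i j : ℕ) :
    (S.ginf (m.1, x)).2 i j = ENNReal.ofReal (S.D m (x i) (x j)) := by
  change ex (gam / 4 * m.1.1) * S.O.dJ m.1.2 (x i) (x j) = _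
  rw [h.dJ, Setup.D, ENNReal.ofReal_mul (Real.exp_pos _).le]
  rfl

theorem inp_prod_le {D : Sph → Sph → ℝ} (hD : IsMet D) (l : List ℕ) (x : ℕ → ℂ) (z : ℂ) :
    0 ≤ (l.map fun i => Real.exp (-D (x i) z)).prod ∧
      (l.map fun i => Real.exp (-D (x i) z)).prod ≤ 1 := by
  induction l with
  | nil => simp
  | cons i l ih =>
    rw [List.map_cons, List.prod_cons]
    exact ⟨mul_nonneg (Real.exp_pos _).le ih.1, mul_le_one₀
      (Real.exp_le_one_iff.2 (neg_nonpos.2 (hD.nonneg _ _))) ih.1 ih.2⟩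

theorem inp_mass_cont {D : Sph → Sph → ℝ} (hD : IsMet D) (μ : Measure ℂ) [IsFiniteMeasure μ]
    (l : List ℕ) : Continuous fun x : ℕ → ℂ =>
      ∫⁻ z : ℂ, ENNReal.ofReal (l.map fun i => Real.exp (-D (x i) z)).prod ∂μ := by
  have hc : Continuous fun z : ℂ => (z : Sph) := OnePoint.continuous_coe
  have h : Continuous fun p : (ℕ → ℂ) × ℂ =>
      ENNReal.ofReal (l.map fun i => Real.exp (-D (p.1 i) p.2)).prod :=
    ENNReal.continuous_ofReal.comp (continuous_list_prod l fun i _ =>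
      Real.continuous_exp.comp (hD.cont.comp (f := fun p : (ℕ → ℂ) × ℂ =>
        (((p.1 i : ℂ) : Sph), ((p.2 : ℂ) : Sph))) ((hc.comp ((continuous_apply i).comp
          continuous_fst)).prodMk (hc.comp continuous_snd))).neg)
  refine continuous_iff_continuousAt.2 fun x₀ => ?_
  refine tendsto_lintegral_filter_of_dominated_convergence (fun _ => 1)
    (.of_forall fun x => (h.comp (Continuous.prodMk_right x)).measurable)
    (.of_forall fun x => .of_forall fun z => ENNReal.ofReal_le_one.2 (inp_prod_le hD l x z).2)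
    (by simp) (.of_forall fun z => (h.comp (Continuous.prodMk_left z)).continuousAt)

theorem inp_goodC_lim (S : Setup) {m : S.X} (hP : S.GoodPt m) {l : Filter ℕ} [l.NeBot]
    {x : ℕ → ℕ → ℂ} {c : ℕ → C0} {x₀ : ℕ → ℂ} {c₀ : C0} (hC : ∀ k, S.GoodC (m.1, x k) (c k))
    (hx : Tendsto x l (𝓝 x₀)) (hc : Tendsto c l (𝓝 c₀)) (hcov : ⨅ N, c₀.2.2 (.inl N) = 0) :
    S.GoodC (m.1, x₀) c₀ := by
  have hD := inp_isMet S hP
  have hco : Continuous fun z : ℂ => (z : Sph) := OnePoint.continuous_coe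
  refine ⟨?_, hcov, fun L => ?_⟩
  · have h1 : Continuous fun y : ℕ → ℂ => S.ginf (m.1, y) := by
      refine Continuous.prodMk (f := fun _ : ℕ → ℂ => (S.ginf m).1)
        (g := fun y : ℕ → ℂ => (S.ginf (m.1, y)).2) continuous_const
        (continuous_pi fun i => continuous_pi fun j => ?_)
      simp only [inp_ginf S hP]
      exact ENNReal.continuous_ofReal.comp (hD.cont.comp (f := fun y : ℕ → ℂ =>
        (((y i : ℂ) : Sph), ((y j : ℂ) : Sph))) ((hco.comp (continuous_apply i)).prodMk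
          (hco.comp (continuous_apply j))))
    exact tendsto_nhds_unique ((continuous_fst.tendsto c₀).comp hc)
      (((h1.tendsto x₀).comp hx).congr fun k => (hC k).g.symm)
  · have := hP.prob
    have h2 : Continuous fun y : C0 => y.2.2 (.inr L) := by fun_prop
    exact tendsto_nhds_unique ((h2.tendsto c₀).comp hc)
      ((((inp_mass_cont hD (S.μ m.1.2) L).tendsto x₀).comp hx).congr fun k =>
        ((hC k).mass L).symm)

theorem inp_net (S : Setup) (hPos : PosStmt) (hSys : SysStmt) (hGeo : GeoStmt S) (b : Base)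
    (r : ℕ → RZ) (m : S.X) (c : C0) (hP : S.GoodPt m) (hC : S.GoodC m c)
    (hl : Tendsto (fun k => code0 b k (r k)) b.U (𝓝 c)) {a a' : ℝ} (ha : 0 < a) (ha' : 0 ≤ a')
    (H : ∀ F : Fr, F.Adm → Homog a a' (pull F (S.sysOf m c))) (sp : ℕ → ℝ)
    (hsp : ∀ k, sp k = 2 * (r k).n * b.κ k / a) : ∃ p : ∀ k, (r k).q.Vertex → ℂ,
      (qnet b r p sp).Geo (S.d m.1.2) (S.μ m.1.2) ∧ (qnet b r p sp).En (S.d m.1.2) := by
  have hd : ∀ i j, c.1.2 i j = ENNReal.ofReal (S.D m (m.2 i) (m.2 j)) := fun i j => by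
    rw [hC.g]
    exact inp_ginf S hP m.2 i j
  obtain ⟨p, hp⟩ := hPos b r (S.D m) m.2 c (inp_isMet S hP) hP.dense hd hC.cov hl
  have hG := hGeo b r m c p hP hC hl hp sp
  have h2 : Continuous fun y : C0 => y.2.1 := by fun_prop
  have hR := hSys b r (S.D m) m.2 p hp c.1.2 c.2.1 hd ((h2.tendsto c).comp hl)
  exact ⟨p, hG, (qnet b r p sp).en_of_homog hP.geo.isMet hG p (fun _ _ => rfl) b.κ b.κ_pos
    hR ha ha' H hsp⟩

end Pool.Agent.QL.LC
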