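import Pool.Agent.P.MP_7a6434d8_pr.QL.C.InpCell
import Pool.Agent.P.MP_7a6434d8_pr.QL.C.InpIso
import Pool.Agent.P.MP_7a6434d8_pr.QL.C.InpLim
import Pool.Agent.P.MP_7a6434d8_pr.QL.C.Hat
import Pool.Agent.P.MP_7a6434d8_pr.QL.C.Meas
import Pool.Agent.P.MP_7a6434d8_pr.QL.I.Lin

/-! Block INP: the inputs of the walk side. -/

open MeasureTheory ProbabilityTheory Set Filter Topology Metric
open scoped ENNReal unitInterval

namespace Pool.Agent.QL.LC

open Pool.Agent.LGD Pool.Agent.P.MP_7a6434d8_pr Pool.Agent.P.MP_7a6434d8_pr.Mp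

/-- The law of the samples and of the code given the sphere, at level zero. -/
noncomputable def inpK (S : Setup) (Q : Measure C0) [IsProbabilityMeasure Q] :
    Kernel S.Ω ((ℕ → ℂ) × C0) :=
  iidK S.O.κ ⊗ₖ (condDistrib id Prod.fst Q).comap
    (fun p : S.Ω × (ℕ → ℂ) => S.ginf ((0, p.1), p.2)) (S.measurable_ginf.comp (by fun_prop))

instance (S : Setup) (Q : Measure C0) [IsProbabilityMeasure Q] : IsMarkovKernel (inpK S Q) := by
  unfold inpK; infer_instance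

/-- The point of the recoupled world. -/
def inpE (S : Setup) (p : S.Ω × (ℕ → ℂ) × C0) : S.X × C0 := (((0, p.1), p.2.1), p.2.2)

theorem inpE_meas (S : Setup) : Measurable (inpE S) := by
  unfold inpE; fun_prop

theorem inp_hat (S : Setup) (Q : Measure C0) [IsProbabilityMeasure Q] :
    (S.P ⊗ₘ inpK S Q).map (inpE S) = S.hat (Measure.dirac 0) Q Prod.fst := by
  refine Measure.ext_of_lintegral _ fun f hf => ?_
  have m1 : Measurable fun m : S.X => ∫⁻ y, f (m, y) ∂condDistrib id Prod.fst Q (S.ginf m) :=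
    hf.lintegral_kernel_prod_right' (κ := (condDistrib id Prod.fst Q).comap S.ginf S.measurable_ginf)
  have m2 : Measurable fun p : ℝ × S.Ω => ∫⁻ x, ∫⁻ y, f ((p, x), y)
      ∂condDistrib id Prod.fst Q (S.ginf (p, x)) ∂iid (S.O.κ p.2) :=
    m1.lintegral_kernel_prod_right' (κ := (iidK S.O.κ).comap Prod.snd measurable_snd)
  rw [lintegral_map hf (inpE_meas S), Measure.lintegral_compProd (hf.fun_comp (inpE_meas S)),
    S.lintegral_hat _ Q hf, S.lintegral_M _ m1, Measure.dirac_prod,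
    lintegral_map m2 measurable_prodMk_left]
  refine lintegral_congr fun ω => ?_
  exact Kernel.lintegral_compProd _ _ ω
    ((hf.fun_comp (inpE_meas S)).fun_comp measurable_prodMk_left)

/-- The Borel set of good pairs of positions and codes. -/
def inpB (a a' : ℝ) : Set ((ℕ → ℂ) × C0) :=
  {z | DenseRange z.1 ∧ ⨅ N, z.2.2.2 (.inl N) = 0 ∧
    ∀ F : Fr, F.Adm → Homog a a' (pull F (sys z.1 z.2.1.2 z.2.2.1))}

theorem inpB_meas (a a' : ℝ) : MeasurableSet (inpB a a') := by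
  have := id_countable_fr
  have h1 : Measurable fun z : (ℕ → ℂ) × C0 => ⨅ N, z.2.2.2 (.inl N) :=
    Measurable.iInf fun N => by fun_prop
  have h2 : Measurable fun z : (ℕ → ℂ) × C0 => sys z.1 z.2.1.2 z.2.2.1 :=
    measurable_sys.comp (f := fun z : (ℕ → ℂ) × C0 => (z.1, z.2.1.2, z.2.2.1)) (by fun_prop)
  refine (measurable_fst measurableSet_denseRange).inter
    ((h1 (measurableSet_singleton 0)).inter ?_)
  have e : {z : (ℕ → ℂ) × C0 | ∀ F : Fr, F.Adm → Homog a a' (pull F (sys z.1 z.2.1.2 z.2.2.1))} =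
      ⋂ (F : Fr) (_ : F.Adm), (fun z : (ℕ → ℂ) × C0 => pull F (sys z.1 z.2.1.2 z.2.2.1)) ⁻¹'
        {s | Homog a a' s} := by
    ext z
    simp only [mem_iInter]
    rfl
  refine (congrArg MeasurableSet e).mpr
    (MeasurableSet.iInter fun F => MeasurableSet.iInter fun _ => ?_)
  exact ((measurable_pull F).comp h2) (SS_le _ _ (measurableSet_homog a a'))

theorem inp_unif (b : Base) {n : ℕ} (hn : 1 ≤ n) :
    IsProbabilityMeasure (uniformOn univ : Measure (RootedQuad n)) := by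
  have := lawN_prob hn
  have h := inp_law b 0 n (G := fun _ => 1) measurable_const
  have h2 : ∀ q : Quad n, inpW b 0 (fun _ => 1) q = 1 := fun q => by
    have : IsProbabilityMeasure (smpl q.Vertex) := by unfold smpl; infer_instance
    simp [inpW]
  simp only [h2, lintegral_const, measure_univ, one_mul] at h
  exact ⟨h.symm⟩

theorem inpW_sum (b : Base) (m : ℕ) {n k : ℕ} (φ : Fin k → C(C0, ℝ≥0∞))
    (h : ∀ y, ∑ i, φ i y = 1) (q : Quad n) : ∑ i, inpW b m (φ i) q = 1 := by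
  have : IsProbabilityMeasure (smpl q.Vertex) := by unfold smpl; infer_instance
  unfold inpW
  rw [← lintegral_finsetSum _ fun i _ => (((φ i).continuous.measurable.fun_comp
    (measurable_code0 b m)).fun_comp (measurable_mk' q))]
  simp [h]

theorem inp_set (S : Setup) (Q : Measure C0) [IsProbabilityMeasure Q] {a a' : ℝ}
    (g2 : ∀ᵐ z ∂S.hat (Measure.dirac 0) Q Prod.fst, S.GoodPt z.1 ∧ S.GoodC z.1 z.2)
    (g3 : ∀ᵐ z ∂S.hat (Measure.dirac 0) Q Prod.fst,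
      ∀ F : Fr, F.Adm → Homog a a' (pull F (S.sysOf z.1 z.2))) {η : ℝ≥0∞} (hη : η ≠ 0) :
    ∃ (K : Set ((ℕ → ℂ) × C0)) (T : Set (S.Ω × (ℕ → ℂ) × C0)), IsCompact K ∧ K ⊆ inpB a a' ∧
      MeasurableSet T ∧ (S.P ⊗ₘ inpK S Q) Tᶜ ≤ η ∧
      ∀ p ∈ T, p.2 ∈ K ∧ S.GoodPt (inpE S p).1 ∧ S.GoodC (inpE S p).1 (inpE S p).2 := by
  have hC0 : BorelSpace C0 := inferInstance
  have : BorelSpace ((ℕ → ℂ) × C0) := Prod.borelSpace
  rw [← inp_hat] at g2 g3
  have f2 := ae_of_ae_map (inpE_meas S).aemeasurable g2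
  have f3 := ae_of_ae_map (inpE_meas S).aemeasurable g3
  have f4 : ∀ᵐ z ∂(S.P ⊗ₘ inpK S Q).map Prod.snd, z ∈ inpB a a' := by
    refine (ae_map_iff measurable_snd.aemeasurable (inpB_meas a a')).2 ?_
    filter_upwards [f2, f3] with p h2 h3
    exact ⟨h2.1.dense, h2.2.cov, h3⟩
  obtain ⟨K, k1, k2, k3⟩ := (inpB_meas a a').exists_isCompact_sdiff_lt
    (μ := (S.P ⊗ₘ inpK S Q).map Prod.snd) (measure_ne_top _ _) hη
  obtain ⟨N, n1, n2, n3⟩ := exists_measurable_superset_of_null (ae_iff.1 f2)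
  have mK := k2.isClosed.measurableSet
  refine ⟨K, Nᶜ ∩ Prod.snd ⁻¹' K, k2, k1, n2.compl.inter (measurable_snd mK), ?_,
    fun p hp => ⟨hp.2, not_not.1 fun h => hp.1 (n1 h)⟩⟩
  rw [compl_inter, compl_compl]
  refine (measure_union_le _ _).trans ?_
  rw [n3, zero_add, ← preimage_compl, ← Measure.map_apply measurable_snd mK.compl]
  refine le_trans (measure_mono_ae ?_) k3.le
  filter_upwards [f4] with z hz h
  exact ⟨hz, h⟩

/-- The conclusion of `Inputs` for one sequence of sizes. -/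
def InpOne {Ω : Type} [MeasurableSpace Ω] (P : Measure Ω) (d : Ω → Sph → Sph → ℝ)
    (μ : Ω → Measure ℂ) (n₀ : ℕ → ℕ) : Prop :=
  ∃ (sg : ℕ → ℕ) (a : ℕ → ℝ)
    (Γ : ∀ k, Measure (RootedQuad (n₀ (sg k)) × Ω)), StrictMono sg ∧ (∀ k, 0 < a k) ∧
    (∀ k, (Γ k).fst = uniformOn univ ∧ (Γ k).snd = P) ∧
    (∀ ε > 0, ∀ η : ℝ≥0∞, 0 < η → ∃ r > 0, ∀ᶠ k in atTop,
      uniformOn univ {c : RootedQuad (n₀ (sg k)) |
        ¬ NoTrap (Quot.out c) (a k) ε r ((Quot.out c).tail (Quot.out c).root)} ≤ η) ∧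
    ∀ η : ℝ≥0∞, 0 < η → ∃ G : ∀ k, Set (RootedQuad (n₀ (sg k)) × Ω),
      (∀ᶠ k in atTop, Γ k (G k)ᶜ ≤ η) ∧
      ∀ᵐ ω ∂P, ∀ (k : ℕ → ℕ) (c : ∀ m, RootedQuad (n₀ (sg (k m)))), StrictMono k →
        (∀ m, (c m, ω) ∈ G (k m)) →
        ∃ (U : Ultrafilter ℕ) (p : ∀ m, (Quot.out (c m) : Quad _).Vertex → Sph),
          (U : Filter ℕ) ≤ atTop ∧
          Net.Geo ⟨U, fun m => n₀ (sg (k m)), fun m => Quot.out (c m), p, fun m => a (k m)⟩
            (d ω) (μ ω) ∧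
          Net.En ⟨U, fun m => n₀ (sg (k m)), fun m => Quot.out (c m), p, fun m => a (k m)⟩ (d ω)

theorem inp_one (S : Setup) (hGH : GHStmt S) (hPos : PosStmt) (hSys : SysStmt)
    (hGeo : GeoStmt S) {u : ℝ → ℝ} (hu : TameU S u) (hN : NDQ u) (n : ℕ → ℕ)
    (n1 : ∀ k, 1 ≤ n k) (nt : Tendsto n atTop atTop) : InpOne S.P S.d S.μ n := by
  have hU : ((hyperfilter ℕ : Ultrafilter ℕ) : Filter ℕ) ≤ atTop := Nat.hyperfilter_le_atTop
  have ht : Tendsto (fun k => Real.log (n k) / gam) atTop atTop :=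
    (Real.tendsto_log_atTop.comp (tendsto_natCast_atTop_atTop.comp nt)).atTop_div_const gam_pos
  obtain ⟨a, a', ha, ha', hT⟩ := hu.2 _ (hyperfilter ℕ) (ht.mono_left hU)
  set b := mkBase (fun k => Real.log (n k) / gam) (fun k => u (Real.log (n k) / gam))
    (hyperfilter ℕ) (ht.mono_left hU) with hb
  obtain ⟨w, hw, hlaw⟩ := exists_fixWorld b n n1 0 (by
    refine tendsto_const_nhds.congr fun k => ?_
    have h0 : (0 : ℝ) < n k := by exact_mod_cast n1 k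
    have h1 : b.δ k = cn (n k) := del_log (n1 k)
    have h2 : cn (n k) ^ 4 = 9 / 8 / n k := by
      rw [cn, ← Real.rpow_natCast, ← Real.rpow_mul (by positivity)]
      norm_num
    rw [h1, h2, mul_zero, Real.exp_zero]
    field_simp)
  obtain ⟨Q, hQ, hlim⟩ := w.exists_lim (measurable_code0 b)
  obtain ⟨g1, g2⟩ := hGH b w Q hlim
  have g3 := hT w Q hlim
  rw [hw] at g1 g2 g3
  obtain ⟨R, hR1, hR2⟩ := inp_cells C0
  choose κ φ φ1 φR using hR1
  have φm : ∀ j i, Measurable (φ j i) := fun j i => (φ j i).continuous.measurable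
  have φle : ∀ j i y, φ j i y ≤ 1 := fun j i y => (φ1 j y) ▸
    Finset.single_le_sum (f := fun i => φ j i y) (fun _ _ => zero_le) (Finset.mem_univ i)
  have hsnd : ∀ j i, ∫⁻ p, φ j i p.2.2 ∂S.P ⊗ₘ inpK S Q = ∫⁻ y, φ j i y ∂Q := fun j i => by
    have e := S.hat_snd (Measure.dirac 0) Q measurable_fst g1
    rw [← inp_hat, Measure.map_map measurable_snd (inpE_meas S)] at e
    exact (lintegral_map (φm j i) (measurable_snd.comp (inpE_meas S))).symm.trans (by rw [e])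
  have hfr : ∀ j, ∃ᶠ m in atTop, ∑ i, (∫⁻ r, φ j i (code0 b m r) ∂lawN (n m) -
      ∫⁻ y, φ j i y ∂Q) ≤ ((j : ℝ≥0∞) + 1)⁻¹ := fun j => by
    have h1 : Tendsto (fun m => ∑ i, (∫⁻ r, φ j i (code0 b m r) ∂lawN (n m) -
        ∫⁻ y, φ j i y ∂Q)) b.U (𝓝 (∑ i, (∫⁻ y, φ j i y ∂Q - ∫⁻ y, φ j i y ∂Q))) := by
      refine tendsto_finsetSum _ fun i _ => ENNReal.Tendsto.sub ?_ tendsto_const_nhds
        (Or.inl (ne_top_of_le_ne_top ENNReal.one_ne_top
          ((lintegral_mono (φle j i)).trans (by simp))))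
      simpa only [hlaw] using hlim (φ j i) (φle j i)
    simp only [tsub_self, Finset.sum_const_zero] at h1
    exact (h1.eventually (ge_mem_nhds (ENNReal.inv_pos.2 (by simp)))).frequently.filter_mono hU
  obtain ⟨sg, hsg, hsg'⟩ := extraction_forall_of_frequently hfr
  have hcp := fun j => @inp_couple (RootedQuad (n (sg j))) S.Ω ((ℕ → ℂ) × C0) _ _ _
    (uniformOn univ) (inp_unif b (n1 _)) S.P _ (inpK S Q) _ (κ j)
    (fun i c => inpW b (sg j) (φ j i) (Quot.out c)) (fun _ => .of_discrete)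
    (fun c => inpW_sum b _ _ (φ1 j) _) (fun i z => φ j i z.2)
    (fun i => (φm j i).comp measurable_snd) fun z => φ1 j z.2
  choose Γ Γ1 Γ2 Γ3 using hcp
  refine ⟨sg, fun j => 2 / a * n (sg j) * kapN u (n (sg j)), Γ, hsg, fun j => ?_,
    fun j => ⟨Γ1 j, Γ2 j⟩, fun ε hε η hη => ?_, fun η hη => ?_⟩
  · have h0 : (0 : ℝ) < n (sg j) := by exact_mod_cast n1 _
    exact mul_pos (by positivity) (Real.exp_pos _)
  · obtain ⟨r, hr, h⟩ := hN (2 / a) (by positivity) ε hε η hη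
    exact ⟨r, hr, (nt.comp hsg.tendsto_atTop).eventually h⟩
  have hη2 : η / 2 ≠ 0 := (ENNReal.half_pos hη.ne').ne'
  obtain ⟨K, T, k1, k2, t1, t2, t3⟩ := inp_set S Q g2 g3 hη2
  refine ⟨fun j => {p | ∃ i, inpW b (sg j) (φ j i) (Quot.out p.1) ≠ 0 ∧
    ∃ z, (p.2, z) ∈ T ∧ φ j i z.2 ≠ 0}, ?_, .of_forall fun ω k c hk hc => ?_⟩
  · have h1 : Tendsto (fun j : ℕ => ((j : ℝ≥0∞) + 1)⁻¹) atTop (𝓝 0) := by
      simpa [Function.comp_def] using
        ENNReal.tendsto_inv_nat_nhds_zero.comp (tendsto_add_atTop_nat 1)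
    filter_upwards [h1.eventually (ge_mem_nhds (pos_iff_ne_zero.2 hη2))] with j hj
    refine (Γ3 j T t1).trans ((add_le_add ?_ t2).trans_eq (ENNReal.add_halves η))
    refine le_trans (le_of_eq (Finset.sum_congr rfl fun i _ => ?_)) ((hsg' j).trans hj)
    rw [hsnd, inp_law b _ _ (φm j i)]
  have hex : ∀ m, ∃ (p : I × (ℕ → (Quot.out (c m) : Quad _).Vertex)) (z : (ℕ → ℂ) × C0),
      (ω, z) ∈ T ∧ R (k m) (code0 b (sg (k m)) (RZ.mk' (Quot.out (c m)) p)) z.2 := fun m => by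
    obtain ⟨i, h1, z, h2, h3⟩ := hc m
    have h4 : ∃ p, φ (k m) i (code0 b (sg (k m)) (RZ.mk' (Quot.out (c m)) p)) ≠ 0 := by
      by_contra h
      exact h1 ((lintegral_congr fun p => not_not.1 fun h' => h ⟨p, h'⟩).trans lintegral_zero)
    obtain ⟨p, h4⟩ := h4
    exact ⟨p, z, h2, φR _ i _ _ h4 h3⟩
  choose p z hz hRz using hex
  obtain ⟨z₀, z1, z2⟩ := k1.ultrafilter_le_nhds' ((hyperfilter ℕ).map z)
    (Ultrafilter.mem_map.2 (univ_mem' fun m => (t3 _ (hz m)).1))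
  have z3 : Tendsto z (hyperfilter ℕ : Ultrafilter ℕ) (𝓝 z₀) := z2
  have z4 := (continuous_snd.tendsto z₀).comp z3
  obtain ⟨b1, b2, b3⟩ := k2 z1
  have hP := (t3 _ (hz 0)).2.1
  have hP' : S.GoodPt ((0, ω), z₀.1) := ⟨hP.geo, hP.prob, hP.supp, hP.atom, hP.dJ, b1⟩
  have hC : S.GoodC ((0, ω), z₀.1) z₀.2 := inp_goodC_lim S hP' (x := fun m => (z m).1)
    (fun m => (t3 _ (hz m)).2.2) ((continuous_fst.tendsto z₀).comp z3) z4 b2
  obtain ⟨x, x1, x2⟩ := inp_net S hPos hSys hGeo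
    (mkBase (fun m => Real.log (n (sg (k m))) / gam) (fun m => u (Real.log (n (sg (k m))) / gam))
      (hyperfilter ℕ) ((ht.comp (hsg.comp hk).tendsto_atTop).mono_left hU))
    (fun m => RZ.mk' (Quot.out (c m)) (p m)) ((0, ω), z₀.1) z₀.2 hP' hC
    (hR2 _ k _ _ _ (hk.tendsto_atTop.mono_left hU) hRz z4) ha ha'.le b3
    (fun m => 2 / a * n (sg (k m)) * kapN u (n (sg (k m)))) (fun m => by
      change _ = 2 * (n (sg (k m)) : ℝ) * kapN u (n (sg (k m))) / a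
      ring)
  exact ⟨hyperfilter ℕ, fun m v => (x m v : Sph), hU, x1, x2⟩

/-- Block INP. -/
theorem inp_stmt (S : Setup) (hGH : GHStmt S) (hPos : PosStmt) (hSys : SysStmt)
    (hGeo : GeoStmt S) : InpStmt S := by
  intro u hu hN n₀ hn₀
  obtain ⟨sg, a, Γ, h1, h2⟩ := inp_one S hGH hPos hSys hGeo hu hN (fun k => n₀ (k + 1))
    (fun k => (Nat.le_add_left 1 k).trans (hn₀.le_apply (x := k + 1)))
    (hn₀.tendsto_atTop.comp (tendsto_add_atTop_nat 1))
  exact ⟨fun k => sg k + 1, a, Γ, fun _ _ h => Nat.succ_lt_succ (h1 h), h2⟩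

end Pool.Agent.QL.LC
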