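import Pool.Agent.P.MP_7a6434d8_pr.QL.C.Defs

/-! Statements of the blocks of the locality argument. -/

open MeasureTheory ProbabilityTheory Set Filter Topology Metric
open scoped ENNReal unitInterval

namespace Pool.Agent.QL.LC

open Pool.Agent.LGD Pool.Agent.P.MP_7a6434d8_pr Pool.Agent.P.MP_7a6434d8_pr.Mp

/-- Block GH: the limit law of the geometric part of the code. -/
def GHStmt (S : Setup) : Prop :=
  ∀ (b : Base) (w : World b) (Q : Measure C0) [IsProbabilityMeasure Q], w.Lim (code0 b) Q →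
    Q.map Prod.fst = (S.M w.ϑ).map S.ginf ∧
      ∀ᵐ z ∂S.hat w.ϑ Q Prod.fst, S.GoodPt z.1 ∧ S.GoodC z.1 z.2

/-- Block NET: positions exist. -/
def PosStmt : Prop :=
  ∀ (b : Base) (r : ℕ → RZ) (D : Sph → Sph → ℝ) (x : ℕ → ℂ) (c : C0), IsMet D → DenseRange x →
    (∀ i j, c.1.2 i j = ENNReal.ofReal (D (x i) (x j))) → ⨅ N, c.2.2 (.inl N) = 0 →
    Tendsto (fun k => code0 b k (r k)) b.U (𝓝 c) → ∃ p, Pos b r D x p

/-- Block NET: the net realises the system. -/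
def SysStmt : Prop :=
  ∀ (b : Base) (r : ℕ → RZ) (D : Sph → Sph → ℝ) (x : ℕ → ℂ) (p : ∀ k, (r k).q.Vertex → ℂ)
    (h : Pos b r D x p) (𝒟 : ℕ → ℕ → ℝ≥0∞) (E : EC),
    (∀ i j, 𝒟 i j = ENNReal.ofReal (D (x i) (x j))) →
    Tendsto (fun k => ecd0 (b.δ k) (b.κ k) (r k)) b.U (𝓝 E) → h.toF.Real (sys x 𝒟 E)

/-- Block NET: convergence of the metric measure spaces along the net. -/
def GeoStmt (S : Setup) : Prop :=
  ∀ (b : Base) (r : ℕ → RZ) (m : S.X) (c : C0) (p : ∀ k, (r k).q.Vertex → ℂ), S.GoodPt m →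
    S.GoodC m c → Tendsto (fun k => code0 b k (r k)) b.U (𝓝 c) → Pos b r (S.D m) m.2 p →
    ∀ a, (qnet b r p a).Geo (S.d m.1.2) (S.μ m.1.2)

/-- Almost every point of a recoupled world is the limit of a net. -/
def NetAE (S : Setup) : Prop :=
  ∀ (b : Base) (w : World b) (X : Type) [TopologicalSpace X] [PolishSpace X] [CompactSpace X]
    [MeasurableSpace X] [BorelSpace X] [Nonempty X] (ξ : ℕ → RZ → X), (∀ k, Measurable (ξ k)) →
    ∀ (Q : Measure (C0 × X)) [IsProbabilityMeasure Q],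
    w.Lim (fun k r => (code0 b k r, ξ k r)) Q →
    ∀ A : ℕ → Set RZ, (∀ k, ∀ᵐ r ∂w.law k, r ∈ A k) →
    ∀ᵐ z ∂S.hat w.ϑ Q (fun y => y.1.1), S.GoodPt z.1 ∧ S.GoodC z.1 z.2.1 ∧
      ∃ (r : ℕ → RZ) (p : ∀ k, (r k).q.Vertex → ℂ), (∀ k, r k ∈ A k) ∧
        Tendsto (fun k => (code0 b k (r k), ξ k (r k))) b.U (𝓝 z.2) ∧
        Pos b r (S.D z.1) z.1.2 p

/-- Block NET: a measurable set of realised systems carries the law of the system. -/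
def RealStmt (S : Setup) : Prop :=
  ∀ (b : Base) (w : World b) (Q : Measure C0) [IsProbabilityMeasure Q], w.Lim (code0 b) Q →
    ∀ F : Fr, ∃ R : Set Sys, MeasurableSet R ∧ (∀ s ∈ R, Realized s) ∧
      ∀ᵐ z ∂S.hat w.ϑ Q Prod.fst, pull F (S.sysOf z.1 z.2) ∈ R

/-- Block DISC, first part. -/
def Disc1Stmt : Prop := ∀ b : Base, Nonempty (DiscLim b)

/-- Block DISC, second part. -/
def Disc2Stmt : Prop :=
  ∀ (b : Base) (D : DiscLim b), ∃ K : Kernel G0 EC, IsMarkovKernel K ∧ D.Fact K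

/-- Block HOLE. -/
def HoleAE (S : Setup) : Prop :=
  ∀ (H : HS) (b : Base) (w : World b) (α : Rg), ∃ hc : ℕ → RZ → ℕ → ℝ≥0∞,
    (∀ k, Measurable (hc k)) ∧
    ∀ (X : Type) [TopologicalSpace X] [PolishSpace X] [CompactSpace X]
      [MeasurableSpace X] [BorelSpace X] [Nonempty X] (ξ : ℕ → RZ → X), (∀ k, Measurable (ξ k)) →
      ∀ (Q : Measure (C0 × I × (ℕ → ℝ≥0∞) × X)) [IsProbabilityMeasure Q],
      w.Lim (fun k r => (code0 b k r, r.ρ, hc k r, ξ k r)) Q →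
      ∀ᵐ z ∂S.hat w.ϑ Q (fun y => y.1.1), S.GoodPt z.1 ∧ S.GoodC z.1 z.2.1 ∧
        ∃ (r : ℕ → RZ) (p : ∀ k, (r k).q.Vertex → ℂ),
          Tendsto (fun k => (code0 b k (r k), (r k).ρ, hc k (r k), ξ k (r k))) b.U (𝓝 z.2) ∧
          Pos b r (S.D z.1) z.1.2 p ∧
          (EvI z.2.1.1.2 α z.2.2.1 → ∃ ℓ a, HoleOK b r H α z.2.1.1 z.2.2.1 ℓ a) ∧
          ((∀ c ∈ α.1, 0 < c.2) → ¬ EvI z.2.1.1.2 α z.2.2.1 →
            ∀ᶠ k in (b.U : Filter ℕ), ¬ (r k).ev (b.δ k) α)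

/-- One ball around the sample `1`, target the sample `0`. -/
def one (r₀ : ℚ) : Rg := ([(1, r₀)], 0)

/-- The hole of a small ball is macroscopic. -/
def PBStmt : Prop :=
  ∀ (H : HS) (η : ℝ≥0∞), 0 < η → ∃ (r₀ : ℚ) (B : ℝ), 0 < r₀ ∧ 1 ≤ B ∧ ∀ᶠ n in atTop,
    lawN n {z | ¬ (3 * (r₀ : ℝ) < cn n * z.q.graph.dist (z.S 0) (z.S 1) ∧ z.ev (cn n) (one r₀) ∧
      MBox B (cn n) (per (z.W H (cn n) (one r₀))) (size (z.W H (cn n) (one r₀))))} ≤ η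

open Classical in
/-- Conditional law of the inner energies given the geometry and the outer energies. -/
def LocA (b : Base) (K : Kernel G0 EC) : Prop :=
  ∀ (w : World b) (Q : Measure C0) [IsProbabilityMeasure Q], w.Lim (code0 b) Q →
    ∀ (α : Rg) (Φ : GC × I → ℝ≥0∞) (F G : EC → ℝ≥0∞), Measurable Φ → Measurable F →
      Measurable G →
      ∫⁻ z : C0 × I, (if EvI z.1.1.2 α z.2 then Φ (z.1.1, z.2) *
        F (outE z.1.1 z.1.2.1 α z.2) * G (inE z.1.1 z.1.2.1 α z.2) else 0) ∂Q.prod volume =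
      ∫⁻ z : C0 × I, (if EvI z.1.1.2 α z.2 then Φ (z.1.1, z.2) *
        F (outE z.1.1 z.1.2.1 α z.2) * ∫⁻ e, G e ∂K (Gam z.1.1 α z.2) else 0) ∂Q.prod volume

/-- Block LOC. -/
def LocStmt : Prop :=
  ∀ (b : Base) (D : DiscLim b) (K : Kernel G0 EC), IsMarkovKernel K → D.Fact K → LocA b K

/-- The regime `R` describes the conditional law of the system in every world and frame. -/
def Transfer (S : Setup) (b : Base) (R : Regime S.O.ν) : Prop :=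
  ∀ E : Set Sys, MeasurableSet[SS U0] E → ∃ G : Dist → ℝ≥0∞, Loc U0 G ∧
    (∀ᵐ k ∂nuh S.O.ν, R.K k E = G k) ∧
    ∀ (w : World b) (Q : Measure C0) [IsProbabilityMeasure Q], w.Lim (code0 b) Q →
      ∀ F : Fr, F.Adm → ∀ Φ : ℝ × S.Ω → ℝ≥0∞, Measurable Φ →
        ∫⁻ z, Φ z.1.1 * E.indicator 1 (pull F (S.sysOf z.1 z.2)) ∂S.hat w.ϑ Q Prod.fst =
          ∫⁻ p, Φ p * G (S.fld F p) ∂w.ϑ.prod S.P

/-- Block REG. -/
def RegStmt (S : Setup) : Prop :=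
  ∀ (b : Base) (K : Kernel G0 EC), IsMarkovKernel K → LocA b K →
    ∃ R : Regime S.O.ν, Transfer S b R

/-- Block LINK. -/
def LinkStmt (S : Setup) : Prop :=
  ∀ ε₀ : ℝ, 0 < ε₀ → ε₀ ≤ 1 / 10 → ∃ u v : ℝ → ℝ,
    (∀ T : ℝ, ∃ B : ℝ, ∀ t, |t| ≤ T → |u t| ≤ B ∧ |v t| ≤ B) ∧
    ∀ (t lk : ℕ → ℝ) (𝒰 : Ultrafilter ℕ) (ht : Tendsto t 𝒰 atTop) (R : Regime S.O.ν),
      Transfer S (mkBase t lk 𝒰 ht) R →
      Lk R ε₀ u t lk 𝒰 Prod.fst ∧ Lk R ε₀ v t (fun k => -lk k) 𝒰 Prod.snd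

/-- In every world the system is homogeneous in every admissible frame. -/
def Tame (S : Setup) (b : Base) (a a' : ℝ) : Prop :=
  ∀ (w : World b) (Q : Measure C0) [IsProbabilityMeasure Q], w.Lim (code0 b) Q →
    ∀ᵐ z ∂S.hat w.ϑ Q Prod.fst, ∀ F : Fr, F.Adm → Homog a a' (pull F (S.sysOf z.1 z.2))

/-- The normalisation `u` is slowly varying and gives homogeneous limits. -/
def TameU (S : Setup) (u : ℝ → ℝ) : Prop :=
  Slow u ∧ ∀ (t : ℕ → ℝ) (𝒰 : Ultrafilter ℕ) (ht : Tendsto t 𝒰 atTop), ∃ a a' : ℝ, 0 < a ∧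
    0 < a' ∧ Tame S (mkBase t (fun k => u (t k)) 𝒰 ht) a a'

/-- Finite resistance of the bars of a homogeneous system (block ID). -/
def FinStmt : Prop :=
  ∀ (a a' : ℝ) (s : Sys), 0 < a → 0 < a' → Realized s → Homog a a' s →
    ∀ F : Fr, MapsTo F.map U0 U0 → Rp (pull F s).1 < ⊤

/-- Block N1. -/
def N1Stmt (S : Setup) : Prop := ∀ u, TameU S u → ND.N1fix (kapOf u)

/-- Slow variation. -/
def SVStmt : Prop := ∀ u, Slow u → ND.SlowVar (kapOf u)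

/-- No trap at the root. -/
def NDQ (u : ℝ → ℝ) : Prop :=
  ∀ A : ℝ, 0 < A → ∀ ε : ℝ, 0 < ε → ∀ η : ℝ≥0∞, 0 < η → ∃ r > 0, ∀ᶠ n : ℕ in atTop,
    uniformOn univ {c : RootedQuad n | ¬ NoTrap (Quot.out c) (A * n * kapN u n) ε r
      ((Quot.out c).tail (Quot.out c).root)} ≤ η

/-- Block NDQ. -/
def NDQStmt : Prop := ∀ u, Slow u → ND.NDdisc (kapOf u) → NDQ u

/-- Block INP. -/
def InpStmt (S : Setup) : Prop := ∀ u, TameU S u → NDQ u → Inputs S.P S.d S.μ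

end Pool.Agent.QL.LC
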