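import Pool.Agent.P.MP_7a6434d8_pr.QL.C.LinkU
import Pool.Agent.P.MP_7a6434d8_pr.QL.C.Stmts

/-! Block LINK. -/

open MeasureTheory ProbabilityTheory Set Filter Topology Metric
open scoped ENNReal unitInterval

namespace Pool.Agent.QL.LC

open Pool.Agent.LGD Pool.Agent.P.MP_7a6434d8_pr

theorem lk_sum_le {N : ℕ} {f g : ℕ → ℝ≥0∞} {η : ℝ≥0∞} (h : ∀ n < N, f n ≤ g n + η / N) :
    ∑ n ∈ Finset.range N, f n ≤ ∑ n ∈ Finset.range N, g n + η := by
  refine (Finset.sum_le_sum fun n hn => h n (Finset.mem_range.1 hn)).trans ?_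
  rw [Finset.sum_add_distrib, Finset.sum_const, Finset.card_range, nsmul_eq_mul]
  exact add_le_add le_rfl ENNReal.mul_div_le

theorem lk_mul_le {a b e h : ℝ≥0∞} (h1 : a ≤ b + e) (h2 : h ≤ 1) : a * h ≤ b * h + e :=
  (mul_le_mul_left h1 _).trans ((add_mul _ _ _).le.trans
    (add_le_add le_rfl (mul_le_of_le_one_right' h2)))

theorem lk_lint_le {μ : Measure RZ} [IsProbabilityMeasure μ] {f g : RZ → ℝ≥0∞} {e : ℝ≥0∞}
    (h : ∀ r, f r ≤ g r + e) : ∫⁻ r, f r ∂μ ≤ ∫⁻ r, g r ∂μ + e :=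
  (lintegral_mono h).trans_eq ((lintegral_add_right _ measurable_const).trans (by simp))

theorem World.Lim.le_usc' {b : Base} {w : World b} {Q : Measure C0} [IsProbabilityMeasure Q]
    (h : w.Lim (code0 b) Q) {G : C0 → ℝ≥0∞} (hG : UpperSemicontinuous G) {C a : ℝ≥0∞}
    (hC : C ≠ ⊤) (h1 : ∀ y, G y ≤ C)
    (ha : ∀ᶠ k in (b.U : Filter ℕ), a ≤ ∫⁻ r, G (code0 b k r) ∂w.law k) : a ≤ ∫⁻ y, G y ∂Q := by
  have h2 : (C + 1)⁻¹ ≠ ⊤ := by simp
  have h3 := h.le_usc (measurable_code0 b) ((ENNReal.continuous_const_mul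
    h2).comp_upperSemicontinuous hG fun _ _ h => mul_le_mul_right h _) fun y =>
      (mul_le_mul_right ((h1 y).trans le_self_add) _).trans (ENNReal.inv_mul_le_one _)
  simp only [Function.comp_def, lintegral_const_mul' _ _ h2] at h3
  exact (ENNReal.mul_le_mul_iff_right (by simp [hC]) h2).1 ((le_limsup_of_frequently_le'
    (ha.mono fun k hk => mul_le_mul_right hk _).frequently).trans h3)

theorem exists_adm : ∃ F : Fr, F.Adm := by
  refine ⟨⟨(10, 1), ⟨10, 0, by simp⟩, ⟨1, 0, by simp⟩, one_ne_zero⟩, ?_, ?_⟩ <;>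
  · rintro ⟨x, hx, h⟩
    have h1 := congrArg Complex.re h
    have h2 := (abs_le.1 ((Complex.abs_re_le_norm x).trans (mem_closedBall_zero_iff.1 hx))).1
    simp [Fr.map, Fr.z, Fr.a, aff] at h1
    linarith

theorem Setup.bet_hat (S : Setup) {F : Fr} (hF : F.Adm) {Φ : ℝ × S.Ω → ℝ≥0∞} (hΦ : Measurable Φ)
    (h : ∀ G : Dist → ℝ≥0∞, Measurable G → ∫⁻ p, Φ p * G (S.fld F p) ∂(gaussianReal 0 1).prod S.P =
      ∫⁻ s in Icc (0 : ℝ) 1, ∫⁻ k, G (lev k s) ∂S.O.ν) {b : Base} {R : Regime S.O.ν}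
    (hT : Transfer S b R) {E : Set Sys} (hE : MeasurableSet[SS U0] E) {w : World b} {c : ℝ}
    (hw : w.ϑ = (gaussianReal 0 1).map (· + c)) {Q : Measure C0} [IsProbabilityMeasure Q]
    (hQ : w.Lim (code0 b) Q) : R.bet c E = ∫⁻ z, Φ (S.sft (-c) z.1).1 *
      {z : S.X × C0 | pull F (S.sysOf z.1 z.2) ∈ E}.indicator 1 z ∂S.hat w.ϑ Q Prod.fst := by
  obtain ⟨G, hG, h1, h2⟩ := hT E hE
  have h3 : Measurable fun p : ℝ × S.Ω => Φ (p.1 + -c, p.2) := hΦ.comp (by fun_prop)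
  refine Eq.trans ?_ (h2 w Q hQ F hF _ h3).symm
  rw [hw, S.lint_sft _ _ (G := fun p => Φ (p.1 + -c, p.2) * G (S.fld F p))
    (h3.mul (hG.measurable.comp (S.measurable_fld F))),
    R.bet_eq S.O.canon h1]
  simp only [add_comm c, ← lev_lev, ← h _ (hG.lev c).measurable, Setup.fld, add_neg_cancel_right]

namespace Setup.Wts

variable {S : Setup} {Φ : S.X → ℝ≥0∞} (hΦ : Measurable Φ) {p : T3 → S.X → Prop} {η : ℝ≥0∞}
  (W : S.Wts (gaussianReal 0 1) Φ p η) {t lk : ℕ → ℝ} {𝒰 : Ultrafilter ℕ}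
  {ht : Tendsto t 𝒰 atTop} {t' : ℕ → ℝ} {c : ℝ} {w : World (mkBase t lk 𝒰 ht)}
  (hw : w.ϑ = (gaussianReal 0 1).map (· + c)) {Q : Measure C0} [IsProbabilityMeasure Q]
  (hm : Q.map Prod.fst = (S.M w.ϑ).map S.ginf)

include hΦ hw hm in
theorem cmpQ {O : ℕ → Set C0} (hO : ∀ n, MeasurableSet (O n)) :
    ∫⁻ z, ∑ n ∈ Finset.range W.N, (W.A n).indicator Φ (S.sft (-c) z.1) * (O n).indicator 1 z.2
      ∂S.hat w.ϑ Q Prod.fst ≤
      ∫⁻ y, ∑ n ∈ Finset.range W.N, W.w n (resc (-c) y.1) * (O n).indicator 1 y ∂Q + η ∧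
    ∫⁻ y, ∑ n ∈ Finset.range W.N, W.w n (resc (-c) y.1) * (O n).indicator 1 y ∂Q ≤
      ∫⁻ z, ∑ n ∈ Finset.range W.N, (W.A n).indicator Φ (S.sft (-c) z.1) * (O n).indicator 1 z.2
        ∂S.hat w.ϑ Q Prod.fst + η := by
  have h1 : ∀ n, Measurable ((O n).indicator (1 : C0 → ℝ≥0∞)) := fun n =>
    measurable_one.indicator (hO n)
  have h2 : ∀ n, Measurable fun g => W.w n (resc (-c) g) := fun n =>
    ((W.cont n).comp (continuous_resc' _)).measurable
  rw [lintegral_finsetSum _ fun n _ => ((hΦ.indicator (W.meas n)).fun_comp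
    ((S.measurable_sft _).fun_comp measurable_fst)).fun_mul ((h1 n).fun_comp measurable_snd),
    lintegral_finsetSum _ fun n _ => ((h2 n).fun_comp measurable_fst).fun_mul (h1 n)]
  have h3 := fun n => S.hat_sft (gaussianReal 0 1) c Q (h1 n)
    (indicator_le_self' fun _ _ => zero_le_one)
  choose H h3 h4 h5 using h3
  have h6 : ∀ n, ∫⁻ y, W.w n (resc (-c) y.1) * (O n).indicator 1 y ∂Q =
      ∫⁻ m, W.w n (S.ginf m) * H n (S.ginf m) ∂S.M (gaussianReal 0 1) := fun n => by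
    rw [← h5 n _ ((W.cont n).measurable.fun_comp S.measurable_ginf), ← hw, ← S.lintegral_hat_geo w.ϑ Q
      measurable_fst hm (G := fun u => W.w n (resc (-c) u.1) * (O n).indicator 1 u.2)
      (((h2 n).comp measurable_fst).fun_mul ((h1 n).comp measurable_snd))]
    simp only [Function.comp_def, S.ginf_sft]
  simp only [Function.comp_def, h6, hw, h5 _ _ (hΦ.indicator (W.meas _))]
  exact ⟨lk_sum_le fun n _ => (W.cmp n _ (h3 n) (h4 n)).2,
    lk_sum_le fun n _ => (W.cmp n _ (h3 n) (h4 n)).1⟩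

theorem cmpK (hη : η ≠ 0) (h : Tendsto (fun k => t' k - t k) 𝒰 (𝓝 c)) :
    ∀ᶠ k in (𝒰 : Filter ℕ), ∀ n < W.N, ∀ r,
      W.w n (gcd0 (del (t' k)) r) ≤ W.w n (resc (-c) (gcd0 (del (t k)) r)) + η / W.N ∧
      W.w n (resc (-c) (gcd0 (del (t k)) r)) ≤ W.w n (gcd0 (del (t' k)) r) + η / W.N := by
  refine (eventually_all_finite (finite_lt_nat W.N)).2 fun n _ => ?_
  obtain ⟨C, h1, h2⟩ := W.bdd n
  filter_upwards [h.neg.eventually (ev_resc (W.cont n) (fun g => ne_top_of_le_ne_top h1 (h2 g))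
    (-c) (ENNReal.div_ne_zero.2 ⟨hη, ENNReal.natCast_ne_top W.N⟩))] with k hk r
  rw [gcd0_resc (t k) (t' k), ← neg_sub]
  exact ⟨(hk _).1.le, (hk _).2.le⟩

variable (hη : η ≠ 0) (h : Tendsto (fun k => t' k - t k) 𝒰 (𝓝 c))
  (hl : ∀ k, w.law k = lawT (t' k)) (hQ : w.Lim (code0 (mkBase t lk 𝒰 ht)) Q)

include hΦ hw hm hη h hl hQ

theorem gen_up {O : ℕ → Set C0} (hO : ∀ n, IsOpen (O n)) {E : Set (S.X × C0)}
    (h1 : ∀ᵐ z ∂S.hat w.ϑ Q Prod.fst, z ∈ E → ∀ n, S.sft (-c) z.1 ∈ W.A n → z.2 ∈ O n)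
    {B : ℕ → ℕ → Set RZ} {a : ℝ≥0∞} (h2 : ∀ᶠ k in (𝒰 : Filter ℕ),
      (∀ n r, code0 (mkBase t lk 𝒰 ht) k r ∈ O n → r ∈ B k n) ∧ W.Ph (t' k) (B k) ≤ a) :
    ∫⁻ z, Φ (S.sft (-c) z.1) * E.indicator 1 z ∂S.hat w.ϑ Q Prod.fst ≤ a + η + η + η := by
  have hU := (Finset.measurableSet_biUnion (Finset.range W.N) fun n _ => W.meas n).compl
  have h3 := hΦ.indicator hU
  obtain ⟨H, -, h4, h5⟩ := S.hat_sft (gaussianReal 0 1) c Q (measurable_const (a := 1))
    fun _ => le_rfl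
  refine le_trans (lintegral_mono_ae (h1.mono fun z hz => ?_)) ((lintegral_add_right _ ((h3.comp
    ((S.measurable_sft (-c)).comp measurable_fst)).mul_const 1)).trans_le (add_le_add
      ((W.cmpQ hΦ hw hm fun n => (hO n).measurableSet).1.trans (add_le_add ?_ le_rfl)) ?_))
  · by_cases h6 : z ∈ E
    swap
    · simp [h6]
    by_cases h7 : S.sft (-c) z.1 ∈ ⋃ n ∈ Finset.range W.N, W.A n
    · obtain ⟨n, hn, h8⟩ := mem_iUnion₂.1 h7
      refine le_trans (le_trans (by simp [h6, h8, hz h6 n h8]) (Finset.single_le_sum (f := fun n =>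
        (W.A n).indicator Φ (S.sft (-c) z.1) * (O n).indicator 1 z.2) (fun _ _ => zero_le) hn))
        le_self_add
    · refine le_trans ?_ le_add_self
      simp only [Function.comp_def, indicator_of_mem (mem_compl h7), indicator_of_mem h6]
      rfl
  · refine (hQ.lsc_le (measurable_code0 _) (lowerSemicontinuous_sum fun n _ => lsc_ind
      ((W.cont n).comp ((continuous_resc' _).comp continuous_fst)) (hO n))).trans
      (liminf_le_of_frequently_le' (Eventually.frequently ?_))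
    filter_upwards [h2, W.cmpK hη h] with k h6 h7
    refine le_trans ?_ (add_le_add h6.2 le_rfl)
    rw [Ph, ← hl]
    refine lk_lint_le fun r => lk_sum_le fun n hn => le_trans ?_
      (lk_mul_le (h7 n hn r).2 (indicator_le_self' (fun _ _ => zero_le_one) r))
    refine mul_le_mul_right ?_ _
    by_cases h8 : code0 (mkBase t lk 𝒰 ht) k r ∈ O n
    · simp [h8, h6.1 n r h8]
    · simp [h8]
  · refine (hw ▸ h5 _ h3).trans_le (le_trans ?_ W.rest)
    rw [← lintegral_indicator hU]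
    exact lintegral_mono fun m => mul_le_of_le_one_right' (h4 _)

theorem gen_low {C : ℕ → Set C0} (hC : ∀ n, IsClosed (C n)) {E : Set (S.X × C0)}
    (h1 : ∀ᵐ z ∂S.hat w.ϑ Q Prod.fst, ∀ n, S.sft (-c) z.1 ∈ W.A n → z.2 ∈ C n → z ∈ E)
    {B : ℕ → ℕ → Set RZ} {a : ℝ≥0∞} (h2 : ∀ᶠ k in (𝒰 : Filter ℕ),
      (∀ n r, r ∈ B k n → code0 (mkBase t lk 𝒰 ht) k r ∈ C n) ∧ a + η ≤ W.Ph (t' k) (B k))
    (hη' : η ≠ ⊤) :
    a ≤ ∫⁻ z, Φ (S.sft (-c) z.1) * E.indicator 1 z ∂S.hat w.ϑ Q Prod.fst + η := by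
  choose K h3 h4 using W.bdd
  refine le_trans (hQ.le_usc' (upperSemicontinuous_sum fun n _ => usc_ind
    ((W.cont n).comp ((continuous_resc' _).comp continuous_fst)) (hC n))
    (ENNReal.sum_ne_top.2 fun n _ => h3 n) (fun y => Finset.sum_le_sum fun n _ =>
      (mul_le_of_le_one_right' (indicator_le_self' (fun _ _ => zero_le_one) y)).trans (h4 n _)) ?_)
    ((W.cmpQ hΦ hw hm fun n => (hC n).measurableSet).2.trans
      (add_le_add (lintegral_mono_ae (h1.mono fun z hz => ?_)) le_rfl))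
  · filter_upwards [h2, W.cmpK hη h] with k h6 h7
    refine (ENNReal.add_le_add_iff_right hη').1 (h6.2.trans ?_)
    rw [Ph, ← hl]
    refine lk_lint_le fun r => lk_sum_le fun n hn => le_trans ?_
      (lk_mul_le (h7 n hn r).1 (indicator_le_self' (fun _ _ => zero_le_one) _))
    refine mul_le_mul_right ?_ _
    by_cases h8 : r ∈ B k n
    · simp [h8, h6.1 n r h8]
    · simp [h8]
  · by_cases h6 : ∃ n, S.sft (-c) z.1 ∈ W.A n ∧ z.2 ∈ C n
    · obtain ⟨n, h7, h8⟩ := h6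
      refine le_trans (Finset.sum_le_sum (g := fun n' => if n = n' then Φ (S.sft (-c) z.1) else 0)
        fun n' _ => ?_) ?_
      · split_ifs with h9
        · simp [← h9, h7, h8]
        · simp [disjoint_left.1 (W.disj h9) h7]
      · rw [Finset.sum_ite_eq]
        split_ifs <;> simp [hz n h7 h8]
    · refine (Finset.sum_eq_zero fun n _ => ?_).trans_le zero_le
      by_cases h7 : S.sft (-c) z.1 ∈ W.A n
      · simp [not_and.1 (not_exists.1 h6 n) h7]
      · simp [h7]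

end Setup.Wts

theorem nrm_exp (l : ℝ) (pr : Bool) : nrm (Real.exp l) pr = ex (bif pr then l else -l) := by
  cases pr <;> simp [nrm, ex, Real.exp_neg]

theorem meas_prj (pr : Bool) :
    @Measurable Sys Sys (SS U0) (SS U0) fun s => (prj pr s, prj (!pr) s) := by
  cases pr
  · exact measurable_swap_SS U0
  · exact @measurable_id _ (SS U0)

theorem link_pr (S : Setup) (hG : GHStmt S) {ε₀ : ℝ} (h0 : 0 < ε₀) (h1 : ε₀ ≤ 1 / 10) :
    ∃ u : Bool → ℝ → ℝ, (∀ pr T, ∃ B : ℝ, ∀ t, |t| ≤ T → |u pr t| ≤ B) ∧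
      ∀ pr (t lk : ℕ → ℝ) (𝒰 : Ultrafilter ℕ) (ht : Tendsto t 𝒰 atTop) (R : Regime S.O.ν),
        Transfer S (mkBase t lk 𝒰 ht) R →
        Lk R ε₀ (u pr) t (fun k => bif pr then lk k else -lk k) 𝒰 (prj pr) := by
  have := S.O.canon.prob
  obtain ⟨F, hF⟩ := exists_adm
  obtain ⟨Φ, hΦ, hv⟩ := S.exists_vp hF
  obtain ⟨i, hi, hi'⟩ := exists_idx F
  have hΦ' : Measurable fun m : S.X => Φ m.1 := hΦ.comp measurable_fst
  have hη : ENNReal.ofReal (ε₀ / 4) ≠ 0 := by simpa using h0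
  obtain ⟨W⟩ := S.exists_wts (gaussianReal 0 1) hΦ' (by
    have h2 := hv _ (measurable_const (a := 1))
    rw [← lintegral_map hΦ measurable_fst, S.M_fst]
    simp_all) F i.1 (hi' S) hη
  set a := ENNReal.ofReal (ε₀ / 2) + ENNReal.ofReal (ε₀ / 4) + ENNReal.ofReal (ε₀ / 4) with ha
  have ha' : a + ENNReal.ofReal (ε₀ / 4) + ENNReal.ofReal (ε₀ / 4) + ENNReal.ofReal (ε₀ / 4) ≤
      ENNReal.ofReal (2 * ε₀) := by
    rw [ha]
    repeat rw [← ENNReal.ofReal_add (by positivity) (by positivity)]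
    exact ENNReal.ofReal_le_ofReal (by linarith)
  refine ⟨fun pr => W.uu pr a, fun pr => W.uu_bdd pr a, fun pr t lk 𝒰 ht R hT => ?_⟩
  have key : ∀ (t' : ℕ → ℝ) (c : ℝ), Tendsto (fun k => t' k - t k) 𝒰 (𝓝 c) →
      ∃ (w : World (mkBase t lk 𝒰 ht)) (Q : Measure C0) (_ : IsProbabilityMeasure Q),
        w.ϑ = (gaussianReal 0 1).map (· + c) ∧ (∀ k, w.law k = lawT (t' k)) ∧
        w.Lim (code0 (mkBase t lk 𝒰 ht)) Q ∧ Q.map Prod.fst = (S.M w.ϑ).map S.ginf ∧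
        Tendsto t' 𝒰 atTop ∧
        Tendsto (fun k => del (t k) / del (t' k)) 𝒰 (𝓝 (Real.exp (gam / 4 * c))) ∧
        ∀ᵐ z ∂S.hat w.ϑ Q Prod.fst, z.2.1.2 = (fun a b => ex (gam / 4 * c) *
          (S.ginf (S.sft (-c) z.1)).2 a b) ∧ ⨅ N, z.2.2.2 (.inl N) = 0 ∧
          ∃ r : ℕ → RZ, Tendsto (fun k => code0 (mkBase t lk 𝒰 ht) k (r k)) 𝒰 (𝓝 z.2) := by
    intro t' c h
    obtain ⟨w, hw, hl⟩ := exists_wld (lk := lk) ht h
    obtain ⟨Q, hQ, hQ'⟩ := w.exists_lim (measurable_code0 _)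
    obtain ⟨hm, h2⟩ := hG _ w Q hQ'
    refine ⟨w, Q, hQ, hw, hl, hQ', hm, by simpa using ht.atTop_add h,
      (h.const_mul (gam / 4)).rexp.congr fun k => ?_, ?_⟩
    · rw [del_eq (t' k) (t k), mul_div_cancel_right₀ _ (del_pos _).ne']
    filter_upwards [h2, S.ae_hat_of_ae_snd w.ϑ Q measurable_fst hm (hQ'.supp (measurable_code0 _)
      (fun _ => univ) fun _ => .of_forall fun _ => trivial)] with z h3 ⟨r, _, h4⟩
    refine ⟨?_, h3.2.cov, r, h4⟩
    change _ = (resc c (S.ginf _)).2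
    rw [← S.ginf_sft, h3.2.g]
    simp [Setup.sft]
  have hc : ∀ x j, Continuous fun y : C0 => ex x * y.2.1 j := fun x j =>
    (ENNReal.continuous_const_mul ENNReal.ofReal_ne_top).comp (by fun_prop)
  have he : ∀ x k r j, ex x * (code0 (mkBase t lk 𝒰 ht) k r).2.1 (pr, j) =
      ex (x + bif pr then lk k else -lk k) * bE r (del (t k)) pr j := fun x k r j => by
    rw [lk_ex_add, mul_assoc, ← nrm_exp]
    rfl
  refine ⟨fun t' c x h hx => ?_, fun t' c x h hx => ?_⟩ <;>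
    obtain ⟨w, Q, hQ, hw, hl, hQ', hm, h2, h3, h4⟩ := key t' c h
  · obtain ⟨q, h5, h6⟩ := exists_rat_btwn (lt_two_mul_self (Real.exp_pos (gam / 4 * c)))
    rw [S.bet_hat hF hΦ hv hT (E := {s | ex x < Rp (prj pr s)}) (meas_prj pr (SS_mono
      (Tp_subset.trans ann_subset_U0) _ (measurable_Rp_SS measurableSet_Ioi))) hw hQ']
    refine (W.gen_up hΦ' hw hm hη h hl hQ' (fun n => isOpen_lt (hc x (pr, dat q (W.j n)))
      (continuous_const (y := 1))) (h4.mono fun z hz h7 n hn => ?_)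
      (B := fun k => W.Bs pr (t' k) (x + bif pr then lk k else -lk k)) ?_).trans ha'
    · have h8 := sand_up hi (W.sub n _ hn) (Rat.cast_pos.1 ((Real.exp_pos _).trans h5)) h6.le pr
        z.2.2.1
      rw [← hz.1] at h8
      have h9 := lt_of_lt_of_le h7 ((congrArg (fun s => Rp (prj pr s)) (pull_sys ..)).trans_le h8)
      exact ENNReal.mul_lt_of_lt_div (h9.trans_eq (one_div _).symm)
    · filter_upwards [hx, h2.eventually (W.Ph_le pr a), h3.eventually (ge_mem_nhds h5)]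
        with k h7 h8 h9
      refine ⟨fun n r hr => lt_of_le_of_lt (mul_le_mul_right (dat_mono r pr _
        (div_nonneg (by simp) (del_pos _).le) ?_) _) (he .. ▸ hr), h8 _ (by linarith)⟩
      rwa [le_div_iff₀ (del_pos _), Rat.cast_one, one_div_mul_eq_div]
  · obtain ⟨q, h5, h6⟩ := exists_rat_btwn (half_lt_self (Real.exp_pos (gam / 4 * c)))
    have h10 : ∀ᶠ k in (𝒰 : Filter ℕ), a < W.Ph (t' k) fun _ => univ := by
      by_contra hn
      have h7 := (S.bet_hat hF hΦ hv hT (@MeasurableSet.univ _ (SS U0)) hw hQ').trans_le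
        ((W.gen_up hΦ' hw hm hη h hl hQ' (fun _ => isOpen_univ) (.of_forall fun _ _ _ _ => trivial)
          (B := fun _ _ => univ) ((Ultrafilter.eventually_not.2 hn).mono fun k hk =>
            ⟨fun _ _ _ => trivial, not_lt.1 hk⟩)).trans ha')
      have := R.markov
      refine h7.not_gt ((ENNReal.ofReal_lt_one.2 (by linarith)).trans_eq ?_)
      simp [Regime.bet]
    rw [S.bet_hat hF hΦ hv hT (E := {s | ex x ≤ Rm (prj pr s)}) (meas_prj pr (SS_mono
      (Tn_subset.trans (Tp_subset.trans ann_subset_U0)) _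
        (measurable_Rm_SS measurableSet_Ici))) hw hQ']
    refine (ENNReal.add_le_add_iff_right ENNReal.ofReal_ne_top).1 (W.gen_low hΦ' hw hm hη h hl hQ'
      (fun n => isClosed_le (hc x (pr, dat q (W.j n))) (continuous_const (y := 1)))
      (h4.mono fun z hz n hn h7 => ?_)
      (B := fun k => W.Bs pr (t' k) (x + bif pr then lk k else -lk k)) ?_ ENNReal.ofReal_ne_top)
    · obtain ⟨r, hr⟩ := hz.2.2
      exact (ENNReal.le_inv_iff_mul_le.2 h7).trans ((sand_low (W.sub n _ hn) (by linarith) pr hr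
        hz.2.1 hz.1).trans_eq (congrArg (fun s => Rm (prj pr s)) (pull_sys ..)).symm)
    · filter_upwards [hx, h2.eventually (W.lt_Ph pr a), h3.eventually (le_mem_nhds h6), h10]
        with k h7 h8 h9 h11
      refine ⟨fun n r hr => (he ..).trans_le (le_trans (mul_le_mul_right (dat_mono r pr _
        (div_nonneg (by linarith [Real.exp_pos (gam / 4 * c)]) (del_pos _).le) ?_) _) hr.le),
        (h8 h11 _ (by linarith)).le⟩
      rwa [div_le_iff₀ (del_pos _), Rat.cast_one, one_div_mul_eq_div]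

/-- Block LINK. -/
theorem link_stmt (S : Setup) (hG : GHStmt S) : LinkStmt S := fun _ h0 h1 => by
  obtain ⟨u, h2, h3⟩ := link_pr S hG h0 h1
  refine ⟨u true, u false, fun T => ?_, fun t lk 𝒰 ht R hT =>
    ⟨h3 true t lk 𝒰 ht R hT, h3 false t lk 𝒰 ht R hT⟩⟩
  obtain ⟨B, h4⟩ := h2 true T
  obtain ⟨B', h5⟩ := h2 false T
  exact ⟨max B B', fun t ht => ⟨le_max_of_le_left (h4 t ht), le_max_of_le_right (h5 t ht)⟩⟩

end Pool.Agent.QL.LC
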