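import Pool.Agent.P.MP_7a6434d8_pr.QL.C.LocDefs
import Pool.Agent.P.MP_7a6434d8_pr.QL.C.Meas
import Pool.Agent.P.MP_7a6434d8_pr.QL.M2.Dist

open MeasureTheory ProbabilityTheory Set Filter Topology Metric
open scoped ENNReal unitInterval

namespace Pool.Agent.QL.LC

open Pool.Agent.LGD Pool.Agent.P.MP_7a6434d8_pr Pool.Agent.P.MP_7a6434d8_pr.Mp

variable {b : Base} {r : ℕ → RZ} {H : HS} {α : Rg} {g : GC} {E : EC} {ρ : I} {ℓ a : ℝ} {u : CI}
  {c : OCode}

theorem locdet_sub (hev : ∀ᶠ k in (b.U : Filter ℕ), (r k).ev (b.δ k) α) :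
    ∀ᶠ k in (b.U : Filter ℕ), SubQ (r k).q ((r k).A (b.δ k) α) ((r k).W H (b.δ k) α)
      ((H.1 (r k).n).θ (r k).q ((r k).A (b.δ k) α)) ((r k).ι H (b.δ k) α) :=
  hev.mono fun k hk => (H.2 (r k).n).sub (r k).q (r k).S _ α.2 hk

theorem locdet_len (h : LocNet b r H α g E ρ ℓ a u c) : u.len = ENNReal.ofReal ℓ := by
  have hc : Continuous CI.len := continuous_fst.comp (continuous_snd.comp (continuous_snd.comp
    (continuous_fst.comp continuous_snd)))
  refine tendsto_nhds_unique ((hc.tendsto u).comp h.tI)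
    (((ENNReal.continuous_ofReal.tendsto _).comp h.ok.len).congr fun k => ?_)
  show ENNReal.ofReal (b.δ k ^ 2 * per ((r k).W H (b.δ k) α)) =
    ENNReal.ofReal (b.δ k ^ 2) * (per ((r k).W H (b.δ k) α) : ℝ≥0∞)
  rw [ENNReal.ofReal_mul (by positivity), ENNReal.ofReal_natCast]

theorem locdet_area (h : LocNet b r H α g E ρ ℓ a u c) : u.area = ENNReal.ofReal a := by
  have hc : Continuous CI.area := continuous_snd.comp (continuous_snd.comp (continuous_snd.comp
    (continuous_fst.comp continuous_snd)))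
  refine tendsto_nhds_unique ((hc.tendsto u).comp h.tI)
    (((ENNReal.continuous_ofReal.tendsto _).comp h.ok.area).congr fun k => ?_)
  show ENNReal.ofReal (b.δ k ^ 4 * size ((r k).W H (b.δ k) α)) =
    ENNReal.ofReal (b.δ k ^ 4) * (size ((r k).W H (b.δ k) α) : ℝ≥0∞)
  rw [ENNReal.ofReal_mul (by positivity), ENNReal.ofReal_natCast]

theorem locdet_cont_ev : Continuous CI.ev := continuous_fst.comp (continuous_fst.comp continuous_snd)

theorem locdet_ev (h : LocNet b r H α g E ρ ℓ a u c) : u.ev = 1 := by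
  classical
  refine tendsto_nhds_unique ((locdet_cont_ev.tendsto u).comp h.tI)
    (tendsto_const_nhds.congr' (h.ok.ev.mono fun k hk => ?_))
  show (1 : ℝ≥0∞) = if (r k).ev (b.δ k) α then 1 else 0
  rw [if_pos hk]

theorem locdet_g (h : LocNet b r H α g E ρ ℓ a u c) (x : GIdx) :
    Tendsto (fun k => gcode (b.δ k) ((r k).W H (b.δ k) α) ((r k).inn H (b.δ k) α) x) b.U
      (𝓝 (c.1 x)) :=
  (((continuous_apply x).comp continuous_fst).tendsto c).comp h.tO

theorem locdet_d (h : LocNet b r H α g E ρ ℓ a u c) (i j : ℕ) :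
    c.1 (.d i j) = (Gam g α ρ).2.1 i j :=
  tendsto_nhds_unique (locdet_g h (.d i j)) (h.ok.dist i j)

theorem locdet_balls_map {R R' : Type} (f : ℕ × R → ℕ × R') (j : BDat R) :
    (j.map f).balls = j.balls.map f := by
  simp only [BDat.balls, BDat.map, List.map_append, List.flatMap_map, List.map_flatMap]

theorem locdet_toN_map (δ : ℝ) (f : ℕ → ℕ) (j : BDat ℚ) :
    ((j.toN δ).map fun c => (f c.1, c.2)) = BDat.toN δ (j.map fun c => (f c.1, c.2)) := by
  simp only [BDat.toN, BDat.map, List.map_map, Function.comp_def]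

theorem locdet_cut_le (s : ℚ) (f : ℝ) : cut s f ≤ 1 := by
  unfold cut
  split_ifs
  · exact ENNReal.ofReal_le_one.2 (min_le_left _ _)
  · exact zero_le_one

theorem locdet_cut_cont (s : ℚ) : Continuous (cut s) := by
  unfold cut
  by_cases h : 0 < s
  · simp only [h, if_true]
    exact ENNReal.continuous_ofReal.comp (by fun_prop)
  · simp only [h, if_false]
    exact continuous_const

theorem locdet_cut_pos {s : ℚ} {f : ℝ} (h : cut s f ≠ 0) : (0 : ℝ) < s ∧ 2 * (s : ℝ) < f := by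
  unfold cut at h
  split_ifs at h with hs
  · have hs' : (0 : ℝ) < s := by exact_mod_cast hs
    refine ⟨hs', ?_⟩
    have h1 : 0 < min 1 ((f - 2 * s) / s) := by
      by_contra h2
      exact h (ENNReal.ofReal_eq_zero.2 (not_lt.1 h2))
    have h2 := (div_pos_iff_of_pos_right hs').1 (h1.trans_le (min_le_right _ _))
    linarith
  · exact absurd rfl h

theorem locdet_prod_le {T : Type} (l : List T) {f : T → ℝ≥0∞} (hf : ∀ c, f c ≤ 1) :
    (l.map f).prod ≤ 1 := by
  induction l with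
  | nil => simp
  | cons c l ih =>
    rw [List.map_cons, List.prod_cons]
    exact mul_le_one' (hf c) ih

theorem locdet_prod_lim {T X : Type} {F : Filter X} (l : List T) {f : X → T → ℝ≥0∞}
    {f' : T → ℝ≥0∞} (hf : ∀ c, f' c ≤ 1) (hl : ∀ c, Tendsto (fun k => f k c) F (𝓝 (f' c))) :
    Tendsto (fun k => (l.map (f k)).prod) F (𝓝 (l.map f').prod) := by
  induction l with
  | nil => simpa using tendsto_const_nhds
  | cons c l ih =>
    simp only [List.map_cons, List.prod_cons]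
    exact ENNReal.Tendsto.mul (hl c)
      (Or.inr (ne_top_of_le_ne_top ENNReal.one_ne_top (locdet_prod_le l hf))) ih
      (Or.inr (ne_top_of_le_ne_top ENNReal.one_ne_top (hf c)))

theorem locdet_squash_le (x : ℝ≥0∞) : squash x ≤ 1 := tsub_le_self

theorem locdet_fB_fin (h : LocNet b r H α g E ρ ℓ a u c) (i : ℕ) : fB g.2 α.1 ρ i ≠ ⊤ := by
  obtain ⟨e, he⟩ := List.exists_mem_of_ne_nil _ h.evI.1
  exact ne_top_of_le_ne_top (h.fin i e.1) ((iInf₂_le e he).trans tsub_le_self)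

theorem locdet_dB (h : LocNet b r H α g E ρ ℓ a u c) (i : ℕ) :
    Tendsto (fun k => b.δ k * dB ((r k).W H (b.δ k) α) ((r k).inn H (b.δ k) α i)) b.U
      (𝓝 (fB g.2 α.1 ρ (idx g.2 α ρ i)).toReal) := by
  refine ((ENNReal.tendsto_toReal (locdet_fB_fin h _)).comp (h.ok.bdry i)).congr fun k => ?_
  exact ENNReal.toReal_ofReal (mul_nonneg (b.δ_pos k).le (Nat.cast_nonneg _))

theorem locdet_floor {δ s : ℝ} (hδ : 0 < δ) (hs : 0 < s) {m : ℕ} (h : s + 3 * δ < δ * m) :
    ⌊s / δ⌋₊ + 3 < m := by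
  have h1 : (⌊s / δ⌋₊ : ℝ) ≤ s / δ := Nat.floor_le (div_pos hs hδ).le
  rw [le_div_iff₀ hδ] at h1
  have h2 : ((⌊s / δ⌋₊ + 3 : ℕ) : ℝ) < m := by
    push_cast
    refine lt_of_mul_lt_mul_left ?_ hδ.le
    nlinarith
  exact_mod_cast h2

theorem locdet_far (h : LocNet b r H α g E ρ ℓ a u c) (hB : BallStmt) {i : ℕ} {s : ℝ}
    (hs : 0 < s) (hg : ∀ a, inW g.2 α ρ a → ENNReal.ofReal (2 * s) ≤ g.2 i a) :
    ∀ᶠ k in (b.U : Filter ℕ), ∀ y ∈ (r k).A (b.δ k) α,
      ⌊s / b.δ k⌋₊ + 3 < (r k).q.graph.dist ((r k).S i) y := by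
  obtain ⟨N, hN⟩ := h.ok.cover (s / 4) (by positivity)
  have h1 : ∀ j ∈ Iic N, ∀ᶠ k in (b.U : Filter ℕ),
      (r k).ι H (b.δ k) α ((r k).inn H (b.δ k) α j) = (r k).S (idx g.2 α ρ j) ∧
      7 * s / 4 < b.δ k * (r k).q.graph.dist ((r k).S i) ((r k).S (idx g.2 α ρ j)) := by
    intro j _
    refine (h.ok.inn j).and ?_
    have h2 : Tendsto (fun k => ENNReal.ofReal (b.δ k * (r k).q.graph.dist ((r k).S i)
        ((r k).S (idx g.2 α ρ j)))) b.U (𝓝 (g.2 i (idx g.2 α ρ j))) :=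
      ((show Continuous fun z : GC => z.2 i (idx g.2 α ρ j) by fun_prop).tendsto g).comp h.tg
    have h3 : ENNReal.ofReal (7 * s / 4) < g.2 i (idx g.2 α ρ j) :=
      ((ENNReal.ofReal_lt_ofReal_iff (by positivity)).2 (by linarith)).trans_le
        (hg _ (Nat.nth_mem_of_infinite h.ok.inf j))
    filter_upwards [h2.eventually (lt_mem_nhds h3)] with k hk
    exact (ENNReal.ofReal_lt_ofReal_iff_of_nonneg (by positivity)).1 hk
  filter_upwards [hN, (eventually_all_finite (finite_Iic N)).2 h1, locdet_sub (H := H) h.ok.ev,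
    b.δ_lim.eventually (gt_mem_nhds (show (0 : ℝ) < s / 6 by positivity))] with k h2 h3 h4 h5 y hy
  rw [← h4.ι_range] at hy
  obtain ⟨v, rfl⟩ := hy
  obtain ⟨j, hj, h6⟩ := h2 v
  obtain ⟨h7, h8⟩ := h3 j hj
  have h9 := (hB _ _ _ _ _ h4).2.1 v ((r k).inn H (b.δ k) α j)
  rw [h7] at h9
  have h10 := ((graph_connected (r k).q).dist_triangle (u := (r k).S i)
    (v := (r k).ι H (b.δ k) α v) (w := (r k).S (idx g.2 α ρ j))).trans (Nat.add_le_add_left h9 _)
  have h11 : (((r k).q.graph.dist ((r k).S i) ((r k).S (idx g.2 α ρ j)) : ℕ) : ℝ) ≤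
      (r k).q.graph.dist ((r k).S i) ((r k).ι H (b.δ k) α v) +
        dW ((r k).W H (b.δ k) α) v ((r k).inn H (b.δ k) α j) := by exact_mod_cast h10
  refine locdet_floor (b.δ_pos k) hs ?_
  have h12 := mul_le_mul_of_nonneg_left h11 (b.δ_pos k).le
  rw [mul_add] at h12
  linarith

theorem LocNet.chi_eq (h : LocNet b r H α g E ρ ℓ a u c) : u.chi = 1 := by
  unfold CI.chi
  rw [locdet_len h, locdet_area h, locdet_ev h, if_pos ⟨ENNReal.ofReal_pos.2 h.ok.len_pos,
    ENNReal.ofReal_lt_top, ENNReal.ofReal_pos.2 h.ok.area_pos, ENNReal.ofReal_lt_top⟩, min_self]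

theorem LocNet.rho_eq (h : LocNet b r H α g E ρ ℓ a u c) : u.rho = ρ := by
  exact tendsto_nhds_unique ((continuous_fst.tendsto u).comp h.tI) h.ok.rho

theorem LocNet.dense3 (h : LocNet b r H α g E ρ ℓ a u c) : Dense3 c.1 := by
  refine ⟨fun x => ?_, fun i j => ?_⟩
  · refine le_antisymm (ENNReal.le_of_forall_pos_le_add fun ε hε _ => ?_) zero_le
    obtain ⟨N, hN⟩ := h.ok.cover ε hε
    have h1 : ∀ᶠ k in (b.U : Filter ℕ), ∃ i ∈ Iic N,
        gcode (b.δ k) ((r k).W H (b.δ k) α) ((r k).inn H (b.δ k) α) (.b i x) ≤ ε := by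
      filter_upwards [hN, locdet_sub (H := H) h.ok.ev] with k h2 h3
      obtain ⟨i, hi, h4⟩ := h2 (bv _ (bpos (per ((r k).W H (b.δ k) α)) x))
      refine ⟨i, hi, ?_⟩
      rw [M2.dW_comm h3.ok] at h4
      exact (ENNReal.ofReal_le_ofReal h4).trans ENNReal.ofReal_coe_nnreal.le
    obtain ⟨i, -, hi⟩ := (Ultrafilter.eventually_exists_mem_iff (finite_Iic N)).1 h1
    rw [zero_add]
    exact (iInf_le _ i).trans (le_of_tendsto (locdet_g h (.b i x)) hi)
  · rw [locdet_d h]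
    exact h.ok.dist_fin i j

theorem LocNet.g0_eq (h : LocNet b r H α g E ρ ℓ a u c) : g0 c.1 = Gam g α ρ := by
  refine Prod.ext ?_ (Prod.ext (funext fun i => funext fun j => locdet_d h i j)
    (funext fun i => tendsto_nhds_unique (locdet_g h (.f i)) (h.ok.bdry i)))
  rw [← h.ok.area_eq]
  exact tendsto_nhds_unique (locdet_g h .area)
    ((ENNReal.continuous_ofReal.tendsto _).comp h.ok.area)

theorem LocNet.inE_eq (h : LocNet b r H α g E ρ ℓ a u c) (hB : BallStmt) :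
    c.2 = inE g E α ρ := by
  funext x
  have h0 : Tendsto (fun k => ecode (b.δ k) (b.κ k) ((r k).W H (b.δ k) α)
      ((r k).inn H (b.δ k) α) x) b.U (𝓝 (c.2 x)) :=
    (((continuous_apply x).comp continuous_snd).tendsto c).comp h.tO
  refine tendsto_nhds_unique h0 ?_
  have h1 := locdet_prod_lim (F := (b.U : Filter ℕ)) x.2.balls
    (f := fun k e => cut e.2 (b.δ k * dB ((r k).W H (b.δ k) α) ((r k).inn H (b.δ k) α e.1)))
    (f' := fun e => cut e.2 (fB g.2 α.1 ρ (idx g.2 α ρ e.1)).toReal)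
    (fun e => locdet_cut_le _ _) fun e => ((locdet_cut_cont e.2).tendsto _).comp (locdet_dB h e.1)
  unfold inE
  by_cases hP : (x.2.balls.map fun e =>
      cut e.2 (fB g.2 α.1 ρ (idx g.2 α ρ e.1)).toReal).prod = 0
  · rw [hP] at h1
    rw [hP, zero_mul]
    exact tendsto_of_tendsto_of_tendsto_of_le_of_le tendsto_const_nhds h1 (fun _ => zero_le)
      fun k => mul_le_of_le_one_right' (locdet_squash_le _)
  have h2 : ∀ e ∈ {e | e ∈ x.2.balls}, ∀ᶠ k in (b.U : Filter ℕ),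
      (r k).S (idx g.2 α ρ e.1) = (r k).ι H (b.δ k) α ((r k).inn H (b.δ k) α e.1) ∧
      ⌊(e.2 : ℝ) / b.δ k⌋₊ + 3 < dB ((r k).W H (b.δ k) α) ((r k).inn H (b.δ k) α e.1) := by
    intro e he
    obtain ⟨h3, h4⟩ := locdet_cut_pos (s := e.2)
      (f := (fB g.2 α.1 ρ (idx g.2 α ρ e.1)).toReal) fun h5 =>
        hP (List.prod_eq_zero (List.mem_map.2 ⟨e, he, h5⟩))
    filter_upwards [h.ok.inn e.1, (locdet_dB h e.1).eventually (lt_mem_nhds h4),
      b.δ_lim.eventually (gt_mem_nhds (show (0 : ℝ) < e.2 / 3 by positivity))] with k h5 h6 h7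
    exact ⟨h5.symm, locdet_floor (b.δ_pos k) h3 (by linarith)⟩
  have h3 : Tendsto (fun k => ecd0 (b.δ k) (b.κ k) (r k)
      (x.1, x.2.map fun e => (idx g.2 α ρ e.1, e.2))) b.U
      (𝓝 (E (x.1, x.2.map fun e => (idx g.2 α ρ e.1, e.2)))) :=
    ((continuous_apply _).tendsto E).comp h.tE
  refine (ENNReal.Tendsto.mul h1
    (Or.inr (ne_top_of_le_ne_top ENNReal.one_ne_top (locdet_squash_le _)))
    ((continuous_squash.tendsto _).comp h3) (Or.inr (ne_top_of_le_ne_top ENNReal.one_ne_top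
      (locdet_prod_le _ fun e => locdet_cut_le _ _)))).congr' ?_
  filter_upwards [(eventually_all_finite (List.finite_toSet x.2.balls)).2 h2,
    locdet_sub (H := H) h.ok.ev] with k h4 h5
  have h6 := (hB _ _ _ _ _ h5).2.2.2 ((r k).inn H (b.δ k) α) (r k).S (idx g.2 α ρ) x.1
    (x.2.toN (b.δ k)) fun e he => by
      rw [BDat.toN, locdet_balls_map] at he
      obtain ⟨e', he', rfl⟩ := List.mem_map.1 he
      exact h4 e' he'
  rw [locdet_toN_map] at h6
  unfold ecode
  rw [h6]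
  rfl

theorem LocNet.outE_eq (h : LocNet b r H α g E ρ ℓ a u c) (hB : BallStmt) :
    outE g u.en α ρ = outE g E α ρ := by
  classical
  funext x
  unfold outE
  split_ifs with hg
  · have hc : Continuous fun v : CI => v.en x := (continuous_apply x).comp
      (continuous_snd.comp (continuous_snd.comp (continuous_snd.comp continuous_snd)))
    refine tendsto_nhds_unique ((hc.tendsto u).comp h.tI)
      ((((continuous_apply x).tendsto E).comp h.tE).congr' ?_)
    have h2 : ∀ e ∈ {e | e ∈ x.2.balls}, ∀ᶠ k in (b.U : Filter ℕ), ∀ y ∈ (r k).A (b.δ k) α,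
        ⌊(e.2 : ℝ) / b.δ k⌋₊ + 3 < (r k).q.graph.dist ((r k).S e.1) y := fun e he =>
      locdet_far h hB (by exact_mod_cast (hg e he).1) (hg e he).2
    filter_upwards [(eventually_all_finite (List.finite_toSet x.2.balls)).2 h2] with k h3
    show nrm (b.κ k) x.1 * (gmQ (r k).q).ballE (r k).S x.1 (x.2.toN (b.δ k)) =
      nrm (b.κ k) x.1 * (H.1 (r k).n).icode (r k).q ((r k).A (b.δ k) α) (r k).S
        (.en x.1 (x.2.toN (b.δ k)))
    refine congrArg _ (if_pos fun e he => ?_).symm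
    rw [BDat.toN, locdet_balls_map] at he
    obtain ⟨e', he', rfl⟩ := List.mem_map.1 he
    exact h3 e' he'
  · rfl

theorem chi_eq_zero (hev : ∀ᶠ k in (b.U : Filter ℕ), ¬ (r k).ev (b.δ k) α)
    (tI : Tendsto (fun k => (r k).cI H (b.δ k) (b.κ k) α) b.U (𝓝 u)) : u.chi = 0 := by
  classical
  have h1 : u.ev = 0 := by
    refine tendsto_nhds_unique ((locdet_cont_ev.tendsto u).comp tI)
      (tendsto_const_nhds.congr' (hev.mono fun k hk => ?_))
    show (0 : ℝ≥0∞) = if (r k).ev (b.δ k) α then 1 else 0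
    rw [if_neg hk]
  unfold CI.chi
  rw [h1]
  split_ifs
  · exact min_eq_left zero_le_one
  · rfl

end Pool.Agent.QL.LC
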