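import Pool.Agent.P.MP_7a6434d8_pr.QL.C.LocGlueA

open MeasureTheory ProbabilityTheory Set Filter Topology Metric
open scoped ENNReal unitInterval

namespace Pool.Agent.QL.LC

open Pool.Agent.LGD Pool.Agent.P.MP_7a6434d8_pr Pool.Agent.P.MP_7a6434d8_pr.Mp

section Abstract

variable {K : Type} {f : Filter K} {U : K → CI} {C : K → GIdx → ℝ≥0∞} {u : CI}
  {c : GIdx → ℝ≥0∞}

theorem locgb_pat (hU : Tendsto U f (𝓝 u)) (hp : ∀ k i, (U k).pat i = 0 ∨ (U k).pat i = 1)
    (i : ℕ) : ∀ᶠ k in f, ((U k).pat i = 1 ↔ u.pat i = 1) := by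
  have h : Tendsto (fun k => (U k).pat i) f (𝓝 (u.pat i)) :=
    ((show Continuous fun v : CI => v.2.2.1 i by fun_prop).tendsto u).comp hU
  by_cases h1 : u.pat i = 1
  · filter_upwards [h.eventually_ne (show u.pat i ≠ 0 by rw [h1]; exact one_ne_zero)] with k hk
    exact ⟨fun _ => h1, fun _ => (hp k i).resolve_left hk⟩
  · filter_upwards [h.eventually_ne h1] with k hk
    exact ⟨fun h => absurd h hk, fun h => absurd h h1⟩

theorem locgb_rk (hU : Tendsto U f (𝓝 u)) (hp : ∀ k i, (U k).pat i = 0 ∨ (U k).pat i = 1)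
    (a : ℕ) : ∀ᶠ k in f, rk (U k).pat a = rk u.pat a := by
  induction a with
  | zero => exact Eventually.of_forall fun k => by simp [rk]
  | succ a ih =>
    filter_upwards [ih, locgb_pat hU hp a] with k h1 h2
    unfold rk at h1 ⊢
    rw [Nat.count_succ, Nat.count_succ, h1, if_congr h2 rfl rfl]

theorem locgb_inC_eq (hU : Tendsto U f (𝓝 u)) (hp : ∀ k i, (U k).pat i = 0 ∨ (U k).pat i = 1)
    (M : ℕ) (y y' : Nd) : ∀ᶠ k in f, inC u.pat (C k) M y y' = inC (U k).pat (C k) M y y' := by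
  rcases y with a | v <;> rcases y' with a' | v'
  · filter_upwards [locgb_pat hU hp a, locgb_pat hU hp a', locgb_rk hU hp a, locgb_rk hU hp a']
      with k h1 h2 h3 h4
    simp only [inC, h1, h2, h3, h4]
  · filter_upwards [locgb_pat hU hp a, locgb_rk hU hp a] with k h1 h3
    simp only [inC, h1, h3]
  · filter_upwards [locgb_pat hU hp a', locgb_rk hU hp a'] with k h1 h3
    simp only [inC, h1, h3]
  · exact Eventually.of_forall fun k => rfl

theorem locgb_inC (hC : Tendsto C f (𝓝 c)) (pat : ℕ → ℝ≥0∞) (M : ℕ) (y y' : Nd) :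
    Tendsto (fun k => inC pat (C k) M y y') f (𝓝 (inC pat c M y y')) := by
  have h := tendsto_pi_nhds.1 hC
  rcases y with a | v <;> rcases y' with a' | v' <;> simp only [inC]
  · split_ifs
    · exact h _
    · exact tendsto_const_nhds
  · split_ifs
    · exact h _
    · exact tendsto_const_nhds
  · split_ifs
    · exact h _
    · exact tendsto_const_nhds
  · exact h _

theorem locgb_stp (hU : Tendsto U f (𝓝 u)) (hC : Tendsto C f (𝓝 c))
    (hp : ∀ k i, (U k).pat i = 0 ∨ (U k).pat i = 1) (M : ℕ) (y y' : Nd) :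
    Tendsto (fun k => stp (U k) (C k) M y y') f (𝓝 (stp u c M y y')) := by
  have h : Tendsto (fun k => (U k).out M y y') f (𝓝 (u.out M y y')) :=
    ((show Continuous fun v : CI => v.2.2.2.1 M y y' by fun_prop).tendsto u).comp hU
  exact h.min ((locgb_inC hC u.pat M y y').congr' (locgb_inC_eq hU hp M y y'))

theorem locgb_chn (hU : Tendsto U f (𝓝 u)) (hC : Tendsto C f (𝓝 c))
    (hp : ∀ k i, (U k).pat i = 0 ∨ (U k).pat i = 1) (M : ℕ) (l : List ℕ) (y y' : Nd) :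
    Tendsto (fun k => chn (U k) (C k) M y l y') f (𝓝 (chn u c M y l y')) := by
  induction l generalizing y with
  | nil => exact locgb_stp hU hC hp M y y'
  | cons v l ih => exact (locgb_stp hU hC hp M y (.inr v)).add (ih _)

end Abstract

theorem locgb_small (n : ℕ) {η : NNReal} (hη : 0 < η) :
    ∃ ε : ℝ, 0 < ε ∧ ((n : ℝ≥0∞) + 1) * ENNReal.ofReal (2 * ε) ≤ η := by
  have h0 : (0 : ℝ) < η := hη
  refine ⟨η / (2 * (n + 1)), by positivity, le_of_eq ?_⟩
  rw [show ((n : ℝ≥0∞) + 1) = ENNReal.ofReal ((n : ℝ) + 1) by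
    rw [ENNReal.ofReal_add (by positivity) zero_le_one, ENNReal.ofReal_natCast, ENNReal.ofReal_one],
    ← ENNReal.ofReal_mul (by positivity), ← ENNReal.ofReal_coe_nnreal]
  congr 1
  field_simp

theorem locgb_finite (n M : ℕ) : {l : List ℕ | l.length ≤ n ∧ ∀ v ∈ l, v < M}.Finite := by
  refine ((List.finite_length_le (Fin M) n).image (List.map Fin.val)).subset ?_
  rintro l ⟨h1, h2⟩
  refine ⟨l.pmap (fun v hv => (⟨v, hv⟩ : Fin M)) h2, ?_, ?_⟩
  · simpa using h1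
  · simp [List.map_pmap]

variable {b : Base} {r : ℕ → RZ} {H : HS} {α : Rg} {g : GC} {E : EC} {ρ : I} {ℓ a : ℝ} {u : CI}
  {c : OCode}

theorem locgb_arc (h : HoleOK b r H α g ρ ℓ a) {ε : ℝ} (hε : 0 < ε) :
    ∀ᶠ M : ℕ in atTop, 0 < M ∧ ∀ᶠ k in (b.U : Filter ℕ), ArcOK (r k) H (b.δ k) α M ε := by
  obtain ⟨θ, hθ, h1⟩ := h.e1 ε hε
  have hl := h.len_pos
  have h2 : Tendsto (fun k => b.δ k ^ 2) b.U (𝓝 0) := by simpa using b.δ_lim.pow 2
  filter_upwards [eventually_gt_atTop 0,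
    (tendsto_natCast_atTop_atTop (R := ℝ)).eventually_ge_atTop (4 / θ)] with M hM hM'
  refine ⟨hM, ?_⟩
  filter_upwards [h1, h.len.eventually (lt_mem_nhds (half_lt_self hl)),
    h2.eventually (ge_mem_nhds (show (0 : ℝ) < θ * ℓ / 4 by positivity))] with k a1 a2 a3
  intro p p' hp hp' hle
  refine a1 p p' hp hp' ?_
  generalize per ((r k).W H (b.δ k) α) = L at a2 hle ⊢
  have b0 : (0 : ℝ) < M := by exact_mod_cast hM
  have b1 : ((p' : ℝ) - p) * M ≤ 2 * L + M := by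
    rw [← Nat.cast_sub hp]; exact_mod_cast hle
  have b2 : (0 : ℝ) ≤ L := Nat.cast_nonneg L
  have b3 : 2 ≤ θ * L := by
    have := mul_le_mul_of_nonneg_right a3 b2
    refine le_of_mul_le_mul_right ?_ hl
    linarith
  rw [div_le_iff₀ hθ] at hM'
  refine le_of_mul_le_mul_right (b1.trans ?_) b0
  nlinarith [mul_le_mul_of_nonneg_right hM' b2, mul_le_mul_of_nonneg_right b3 b0.le]

theorem LocNet.locgb_chn (h : LocNet b r H α g E ρ ℓ a u c) (M : ℕ) (l : List ℕ) (y y' : Nd) :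
    Tendsto (fun k => chn ((r k).cI H (b.δ k) (b.κ k) α) ((r k).cO H (b.δ k) (b.κ k) α).1 M y l y')
      b.U (𝓝 (chn u c.1 M y l y')) := by
  refine LC.locgb_chn h.tI ((continuous_fst.tendsto c).comp h.tO) (fun k i => ?_) M l y y'
  simp only [RZ.cI, cIof, CI.pat, HoleSys.icode]
  split_ifs
  · exact Or.inr rfl
  · exact Or.inl rfl

theorem LocNet.locgb_dist (h : LocNet b r H α g E ρ ℓ a u c) (i j : ℕ) :
    Tendsto (fun k => ENNReal.ofReal (b.δ k * (r k).q.graph.dist ((r k).S i) ((r k).S j))) b.U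
      (𝓝 (g.2 i j)) :=
  ((show Continuous fun v : GC => v.2 i j by fun_prop).tendsto g).comp h.tg

theorem LocNet.locgb_le (h : LocNet b r H α g E ρ ℓ a u c) (hB : BallStmt) (i j n : ℕ) :
    g.2 i j ≤ liminf (fun M => glN u c.1 n M i j) atTop := by
  refine ENNReal.le_of_forall_pos_le_add fun η hη _ => ?_
  obtain ⟨ε, hε, hle⟩ := locgb_small n hη
  rw [← tsub_le_iff_right]
  refine le_liminf_of_le (by isBoundedDefault) ?_
  filter_upwards [locgb_arc h.ok hε] with M ⟨hM, hA⟩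
  refine le_iInf fun l => le_iInf₂ fun h1 h2 => ?_
  rw [tsub_le_iff_right]
  refine le_of_tendsto_of_tendsto (h.locgb_dist i j)
    ((h.locgb_chn M l (.inl i) (.inl j)).add_const (η : ℝ≥0∞)) ?_
  filter_upwards [hA, h.ok.ev] with k a1 a2
  refine (loc_le_chn (κ := b.κ k) hB (b.δ_pos k) a2 hM a1 i j l h2).trans
    (add_le_add le_rfl (le_trans ?_ hle))
  gcongr

theorem LocNet.locgb_ncr (h : LocNet b r H α g E ρ ℓ a u c) {N : ℕ → ℕ → ℝ≥0∞}
    (hN : ∀ i j, N i j ≠ ⊤) (tN : Tendsto (fun k => (r k).cN (b.δ k) α) b.U (𝓝 N)) (i j : ℕ) :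
    ∃ n : ℕ, ∀ᶠ k in (b.U : Filter ℕ),
      ncr (r k).q (r k).S (Jd (b.δ k) (r k).ρ α.1) i j ≤ n := by
  have h1 : Tendsto (fun k => (r k).cN (b.δ k) α i j) b.U (𝓝 (N i j)) :=
    ((show Continuous fun v : ℕ → ℕ → ℝ≥0∞ => v i j by fun_prop).tendsto N).comp tN
  obtain ⟨n, hn⟩ := ENNReal.exists_nat_gt (r := (N i j + 1) * (1 + (g.2 i j + 1)))
    (ENNReal.mul_ne_top (by simp [hN i j]) (by simp [h.fin i j]))
  refine ⟨n, ?_⟩
  filter_upwards [h1.eventually (ge_mem_nhds (ENNReal.lt_add_right (hN i j) one_ne_zero)),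
    (h.locgb_dist i j).eventually (ge_mem_nhds (ENNReal.lt_add_right (h.fin i j) one_ne_zero))]
    with k a1 a2
  rw [RZ.cN, ENNReal.div_le_iff (by simp) (by simp)] at a1
  have a3 := (a1.trans (mul_le_mul_right (add_le_add_right a2 1) _)).trans hn.le
  exact_mod_cast a3

theorem LocNet.locgb_ge (h : LocNet b r H α g E ρ ℓ a u c) {i j n : ℕ} (hpos : g.2 i j ≠ 0)
    (hn : ∀ᶠ k in (b.U : Filter ℕ), ncr (r k).q (r k).S (Jd (b.δ k) (r k).ρ α.1) i j ≤ n) :
    liminf (fun M => glN u c.1 (2 * n) M i j) atTop ≤ g.2 i j := by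
  refine ENNReal.le_of_forall_pos_le_add fun η hη _ => ?_
  obtain ⟨ε, hε, hle⟩ := locgb_small (2 * n) hη
  refine liminf_le_of_frequently_le' (Eventually.frequently ?_)
  filter_upwards [locgb_arc h.ok hε] with M ⟨hM, hA⟩
  have h1 : ∀ᶠ k in (b.U : Filter ℕ), ∃ l ∈ {l : List ℕ | l.length ≤ 2 * n ∧ ∀ v ∈ l, v < M},
      chn ((r k).cI H (b.δ k) (b.κ k) α) ((r k).cO H (b.δ k) (b.κ k) α).1 M (.inl i) l (.inl j) ≤
        ENNReal.ofReal (b.δ k * (r k).q.graph.dist ((r k).S i) ((r k).S j)) + η := by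
    filter_upwards [hA, h.ok.ev, hn, (h.locgb_dist i j).eventually_ne hpos] with k a1 a2 a3 a4
    have a5 : (r k).S i ≠ (r k).S j := fun e => a4 (by simp [e])
    obtain ⟨l, b1, b2, b3⟩ := loc_chn_le (κ := b.κ k) (b.δ_pos k) a2 hM a1 a5
    have b4 : l.length ≤ 2 * n := by omega
    refine ⟨l, ⟨b4, b2⟩, b3.trans (add_le_add le_rfl (le_trans ?_ hle))⟩
    gcongr
  obtain ⟨l, ⟨b1, b2⟩, hl⟩ := (Ultrafilter.eventually_exists_mem_iff (locgb_finite (2 * n) M)).1 h1
  refine (iInf_le_of_le l (iInf₂_le b1 b2)).trans ?_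
  exact le_of_tendsto_of_tendsto (h.locgb_chn M l (.inl i) (.inl j))
    ((h.locgb_dist i j).add_const (η : ℝ≥0∞)) hl

/-- The gluing formula. -/
theorem LocNet.glG_eq (h : LocNet b r H α g E ρ ℓ a u c) (hB : BallStmt)
    (hpos : ∀ i j, i ≠ j → g.2 i j ≠ 0) {N : ℕ → ℕ → ℝ≥0∞} (hN : ∀ i j, N i j ≠ ⊤)
    (tN : Tendsto (fun k => (r k).cN (b.δ k) α) b.U (𝓝 N)) : glG u c.1 = g := by
  refine Prod.ext ?_ (funext fun i => funext fun j => ?_)
  · exact tendsto_nhds_unique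
      (((show Continuous fun v : CI => v.2.1.2.1 by fun_prop).tendsto u).comp h.tI)
      ((continuous_fst.tendsto g).comp h.tg)
  · change glue u c.1 i j = g.2 i j
    unfold glue
    split_ifs with e
    · subst e
      refine tendsto_nhds_unique ?_ (h.locgb_dist i i)
      simp
    · obtain ⟨n, hn⟩ := h.locgb_ncr hN tN i j
      exact le_antisymm ((iInf_le _ (2 * n)).trans (h.locgb_ge (hpos i j e) hn))
        (le_iInf fun n => h.locgb_le hB i j n)

end Pool.Agent.QL.LC
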