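import Pool.Agent.P.MP_7a6434d8_pr.QL.C.LocPlugB
import Pool.Agent.P.MP_7a6434d8_pr.QL.C.LocGlueB
import Pool.Agent.P.MP_7a6434d8_pr.QL.C.LocDet

/-! Block LOC: assembly. -/

open MeasureTheory ProbabilityTheory Set Filter Topology Metric
open scoped ENNReal unitInterval

namespace Pool.Agent.QL.LC

open Pool.Agent.LGD Pool.Agent.P.MP_7a6434d8_pr Pool.Agent.P.MP_7a6434d8_pr.Mp

/-- The extended code space. -/
abbrev LocY : Type := C0 × I × (ℕ → ℝ≥0∞) × CI × OCode × (ℕ → ℕ → ℝ≥0∞)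

set_option synthInstance.maxSize 1024 in
instance loc_polish_X : PolishSpace (CI × OCode × (ℕ → ℕ → ℝ≥0∞)) := inferInstance
set_option synthInstance.maxSize 1024 in
instance loc_borel_X : BorelSpace (CI × OCode × (ℕ → ℕ → ℝ≥0∞)) := inferInstance
set_option synthInstance.maxSize 2048 in
instance loc_polish_Y : PolishSpace LocY := inferInstance
set_option synthInstance.maxSize 2048 in
instance loc_borel_Y : BorelSpace LocY := inferInstance

open Classical in
/-- What holds at almost every point of the extended world. -/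
structure LocPt (α : Rg) (y : LocY) : Prop where
  chi : y.2.2.2.1.chi = if EvI y.1.1.2 α y.2.1 then 1 else 0
  rho : EvI y.1.1.2 α y.2.1 → y.2.2.2.1.rho = y.2.1
  dense : EvI y.1.1.2 α y.2.1 → Dense3 y.2.2.2.2.1.1
  gam : EvI y.1.1.2 α y.2.1 → g0 y.2.2.2.2.1.1 = Gam y.1.1 α y.2.1
  inE : EvI y.1.1.2 α y.2.1 → y.2.2.2.2.1.2 = inE y.1.1 y.1.2.1 α y.2.1
  outE : EvI y.1.1.2 α y.2.1 → outE y.1.1 y.2.2.2.1.en α y.2.1 = outE y.1.1 y.1.2.1 α y.2.1
  glG : EvI y.1.1.2 α y.2.1 → glG y.2.2.2.1 y.2.2.2.2.1.1 = y.1.1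

theorem loc_fact {b : Base} {D : DiscLim b} {K : Kernel G0 EC} [IsMarkovKernel K] (hK : D.Fact K)
    (μ : Measure (CI × OCode))
    (hP : ∀ Ψ : CI × OCode → ℝ≥0∞, Measurable Ψ →
      ∫⁻ z, z.1.chi * Ψ z ∂μ = ∫⁻ z, z.1.chi * ∫⁻ c, Ψ (z.1, c) ∂D.Λ z.1.par ∂μ)
    (hd : ∫⁻ z, z.1.chi * {c | Dense3 c}ᶜ.indicator 1 z.2.1 ∂μ = 0)
    {Ξ : CI × (GIdx → ℝ≥0∞) → ℝ≥0∞} {G : EC → ℝ≥0∞} (hΞ : Measurable Ξ) (hG : Measurable G) :
    ∫⁻ z, z.1.chi * (Ξ (z.1, z.2.1) * G z.2.2) ∂μ =
      ∫⁻ z, z.1.chi * (Ξ (z.1, z.2.1) * ∫⁻ e, G e ∂K (g0 z.2.1)) ∂μ := by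
  have := D.markov
  have m0 : Measurable fun z : CI × OCode => Ξ (z.1, z.2.1) :=
    hΞ.comp (measurable_fst.prodMk measurable_snd.fst)
  have m1 : Measurable fun z : CI × OCode => ({c | Dense3 c}ᶜ.indicator 1 z.2.1 : ℝ≥0∞) :=
    (measurable_one.indicator measurableSet_dense3.compl).comp measurable_snd.fst
  have m2 : Measurable fun g : G0 => ∫⁻ e, G e ∂K g := hG.lintegral_kernel
  refine (hP _ (m0.mul (hG.comp measurable_snd.snd))).trans (Eq.trans ?_
    (hP _ (m0.mul (m2.comp (measurable_g0.comp measurable_snd.fst)))).symm)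
  rw [hP _ m1, lintegral_eq_zero_iff] at hd
  · refine lintegral_congr_ae (hd.mono fun z hz => ?_)
    by_cases h0 : z.1.chi = 0
    · simp only [h0, zero_mul]
    have h1 : 0 < z.1.len ∧ z.1.len < ⊤ ∧ 0 < z.1.area ∧ z.1.area < ⊤ := by
      by_contra h
      exact h0 (if_neg h)
    have h2 := (mul_eq_zero.1 hz).resolve_left h0
    replace h2 := (lintegral_eq_zero_iff (m1.comp measurable_prodMk_left)).1 h2
    have h3 : ∀ᵐ c ∂D.Λ z.1.par, Dense3 c.1 := h2.mono fun c hc => by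
      by_contra h
      simp [h] at hc
    refine congrArg (z.1.chi * ·) ?_
    exact hK z.1.par (ENNReal.toReal_pos h1.1.ne' h1.2.1.ne)
      (ENNReal.toReal_pos h1.2.2.1.ne' h1.2.2.2.ne) h3 (fun c => Ξ (z.1, c)) G
      (hΞ.comp measurable_prodMk_left) hG
  · refine (measurable_chi.comp measurable_fst).mul ?_
    exact (Measurable.lintegral_kernel_prod_right' (κ := (D.Λ).comap CI.par measurable_par)
      m1).comp measurable_fst

theorem loc_ae (S : Setup) (hA : HoleAE S) (hG : GHStmt S) (hB : BallStmt) (H : HS) {b : Base}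
    (w : World b) (α : Rg) (hα : ∀ c ∈ α.1, 0 < c.2) (Q : Measure C0) [IsProbabilityMeasure Q]
    (hQ : w.Lim (code0 b) Q) : ∃ (Z : Type) (_ : MeasurableSpace Z) (P : Measure Z) (y : Z → LocY),
      Measurable y ∧ (∀ᵐ z ∂P, LocPt α (y z)) ∧
      P.map (fun z => ((y z).1, (y z).2.1)) = Q.prod volume ∧
      IsProbabilityMeasure (P.map fun z => ((y z).2.2.2.1, (y z).2.2.2.2.1)) ∧
      w.Lim (fun k r => (r.cI H (b.δ k) (b.κ k) α, r.cO H (b.δ k) (b.κ k) α))
        (P.map fun z => ((y z).2.2.2.1, (y z).2.2.2.2.1)) := by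
  obtain ⟨hc, hc1, hc2⟩ := hA H b w α
  let ξ : ℕ → RZ → CI × OCode × (ℕ → ℕ → ℝ≥0∞) := fun k r =>
    (r.cI H (b.δ k) (b.κ k) α, r.cO H (b.δ k) (b.κ k) α, r.cN (b.δ k) α)
  have hξ : ∀ k, Measurable (ξ k) := fun k =>
    (measurable_cI H _ _ α).prodMk ((measurable_cO H _ _ α).prodMk (measurable_cN _ α))
  have hf : ∀ k, Measurable fun r : RZ => ((code0 b k r, r.ρ, hc k r, ξ k r) : LocY) := fun k =>
    (measurable_code0 b k).prodMk (measurable_rho.prodMk ((hc1 k).prodMk (hξ k)))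
  obtain ⟨Q', hp, hQ'⟩ := w.exists_lim hf
  have hae := hc2 _ ξ hξ Q' hQ'
  have hπ : Measurable fun y : LocY => y.1.1 := measurable_fst.fst
  have p1 : IsProbabilityMeasure (Q'.map Prod.fst) :=
    Measure.isProbabilityMeasure_map measurable_fst.aemeasurable
  have e1 : Q'.map Prod.fst = Q := (hQ'.map continuous_fst).unique hQ
  have hm : Q'.map (fun y : LocY => y.1.1) = (S.M w.ϑ).map S.ginf := by
    rw [← (hG b w Q hQ).1, ← e1, Measure.map_map measurable_fst measurable_fst]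
    rfl
  have e2 := S.hat_snd w.ϑ Q' hπ hm
  have c1 : Continuous fun y : LocY => (y.1, y.2.1) := by fun_prop
  have c2 : Continuous fun y : LocY => (y.2.2.2.1, y.2.2.2.2.1) := by fun_prop
  have p2 : IsProbabilityMeasure (Q'.map fun y : LocY => (y.1, y.2.1)) :=
    Measure.isProbabilityMeasure_map c1.measurable.aemeasurable
  have e3 : ∀ {T : Type} [MeasurableSpace T] {φ : LocY → T}, Measurable φ →
      (S.hat w.ϑ Q' fun y : LocY => y.1.1).map (fun z => φ z.2) = Q'.map φ := fun hφ => by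
    conv_rhs => rw [← e2, Measure.map_map hφ measurable_snd]
    rfl
  have hN : ∀ᵐ y ∂Q', ∀ i j, y.2.2.2.2.2 i j ≠ ⊤ := by
    obtain ⟨C, hC, h⟩ := loc_cN_le w α hα
    refine ae_all_iff.2 fun i => ae_all_iff.2 fun j => ?_
    have c3 : Continuous fun y : LocY => y.2.2.2.2.2 i j := by fun_prop
    have h1 := (hQ'.lsc_le hf c3.lowerSemicontinuous).trans
      (liminf_le_of_frequently_le' (Frequently.of_forall fun k => h k i j))
    exact (ae_lt_top c3.measurable (ne_top_of_le_ne_top hC h1)).mono fun y hy => hy.ne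
  refine ⟨_, inferInstance, S.hat w.ϑ Q' fun y : LocY => y.1.1, Prod.snd, measurable_snd, ?_, ?_, ?_,
    ?_⟩
  · filter_upwards [hae, S.ae_hat_of_ae_snd w.ϑ Q' hπ hm hN,
      S.ae_hat_of_ae w.ϑ Q' (π := fun y : LocY => y.1.1) (loc_inj S w.ϑ)] with z hz h1 h2
    obtain ⟨g1, g2, r, p, ht, -, h3, h4⟩ := hz
    have tI : Tendsto (fun k => (r k).cI H (b.δ k) (b.κ k) α) b.U (𝓝 z.2.2.2.2.1) :=
      ((by fun_prop : Continuous fun y : LocY => y.2.2.2.1).tendsto _).comp ht
    have hD : ∀ i j, z.2.1.1.2 i j = ex (gam / 4 * z.1.1.1) *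
        ENNReal.ofReal (S.d z.1.1.2 (z.1.2 i) (z.1.2 j)) := fun i j => by
      rw [g2.g, ← g1.dJ]; rfl
    have key : EvI z.2.1.1.2 α z.2.2.1 → ∃ ℓ a, LocNet b r H α z.2.1.1 z.2.1.2.1 z.2.2.1 ℓ a
        z.2.2.2.2.1 z.2.2.2.2.2.1 := fun h => by
      obtain ⟨ℓ, a, h5⟩ := h3 h
      exact ⟨ℓ, a, h5, h, fun i j => by
          rw [hD]; exact ENNReal.mul_ne_top ENNReal.ofReal_ne_top ENNReal.ofReal_ne_top,
        ((by fun_prop : Continuous fun y : LocY => y.1.1).tendsto _).comp ht,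
        ((by fun_prop : Continuous fun y : LocY => y.1.2.1).tendsto _).comp ht, tI,
        ((by fun_prop : Continuous fun y : LocY => y.2.2.2.2.1).tendsto _).comp ht⟩
    refine ⟨?_, fun h => ?_, fun h => ?_, fun h => ?_, fun h => ?_, fun h => ?_, fun h => ?_⟩
    · split_ifs with h
      · obtain ⟨ℓ, a, h5⟩ := key h
        exact h5.chi_eq
      · exact chi_eq_zero (h4 hα h) tI
    all_goals obtain ⟨ℓ, a, h5⟩ := key h
    exacts [h5.rho_eq, h5.dense3, h5.g0_eq, h5.inE_eq hB, h5.outE_eq hB,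
      h5.glG_eq hB (fun i j hij => by
        rw [hD]
        refine mul_ne_zero (ENNReal.ofReal_pos.2 (Real.exp_pos _)).ne' fun h0 => hij (h2 ?_)
        have h6 := g1.geo.isMet.nonneg (z.1.2 i) (z.1.2 j)
        exact OnePoint.coe_injective ((g1.geo.eq_iff _ _).1
          (le_antisymm (ENNReal.ofReal_eq_zero.1 h0) h6))) h1
        (((by fun_prop : Continuous fun y : LocY => y.2.2.2.2.2).tendsto _).comp ht)]
  · rw [e3 c1.measurable]
    exact (hQ'.map c1).unique (hQ.prod_rho (measurable_code0 b) fun _ _ _ _ _ _ => rfl)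
  · rw [e3 c2.measurable]
    exact Measure.isProbabilityMeasure_map c2.measurable.aemeasurable
  · rw [e3 c2.measurable]
    exact hQ'.map c2

/-- Block LOC. -/
theorem loc_stmt (S : Setup) (hH : HoleStmt) (hA : HoleAE S) (hG : GHStmt S) (hB : BallStmt) :
    LocStmt := by
  classical
  intro b D K hK hF w Q _ hQ α Φ F G hΦ hFm hGm
  by_cases hα : ∀ c ∈ α.1, 0 < c.2
  swap
  · have h : ∀ z : C0 × I, ¬ EvI z.1.1.2 α z.2 := fun z hz => hα hz.2.1
    simp only [h, if_false]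
  let H : HS := ⟨fun n => (hH n).choose, fun n => (hH n).choose_spec⟩
  obtain ⟨Z, _, P, y, hy, hae, e1, p1, hL⟩ := loc_ae S hA hG hB H w α hα Q hQ
  have m1 : Measurable fun z => ((y z).1, (y z).2.1) := hy.fst.prodMk hy.snd.fst
  have m2 : Measurable fun z => ((y z).2.2.2.1, (y z).2.2.2.2.1) :=
    hy.snd.snd.snd.fst.prodMk hy.snd.snd.snd.snd.fst
  let Ξ : CI × (GIdx → ℝ≥0∞) → ℝ≥0∞ := fun z =>
    Φ (glG z.1 z.2, z.1.rho) * F (outE (glG z.1 z.2) z.1.en α z.1.rho)
  have hΞ : Measurable Ξ :=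
    (hΦ.comp (measurable_glG.prodMk measurable_fst.fst)).mul (hFm.comp ((measurable_outE α).comp
      (measurable_glG.prodMk (measurable_fst.snd.snd.snd.snd.prodMk measurable_fst.fst))))
  have mc : Measurable fun z : CI × OCode => z.1.chi := measurable_chi.comp measurable_fst
  have m0 : Measurable fun z : CI × OCode => Ξ (z.1, z.2.1) :=
    hΞ.comp (measurable_fst.prodMk measurable_snd.fst)
  have mK : Measurable fun g : G0 => ∫⁻ e, G e ∂K g := hGm.lintegral_kernel
  have key := loc_fact hF _ (loc_plug H w α D _ hL) (by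
    refine (lintegral_map (mc.mul ((measurable_one.indicator measurableSet_dense3.compl).comp
      measurable_snd.fst)) m2).trans ?_
    refine (lintegral_congr_ae (hae.mono fun z hz => ?_)).trans lintegral_zero
    simp only [hz.chi, Pi.mul_apply, Function.comp]
    split_ifs with h
    · simp [hz.dense h]
    · simp) hΞ hGm
  replace key := (lintegral_map (mc.mul (m0.mul (hGm.comp measurable_snd.snd))) m2).symm.trans
    (key.trans
      (lintegral_map (mc.mul (m0.mul (mK.comp (measurable_g0.comp measurable_snd.fst)))) m2))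
  have mE : MeasurableSet {z : C0 × I | EvI z.1.1.2 α z.2} :=
    (measurable_fst.fst.snd.prodMk measurable_snd) (measurableSet_EvI α)
  have m3 : Measurable fun z : C0 × I => (z.1.1, z.1.2.1, z.2) := by fun_prop
  have m4 : Measurable fun z : C0 × I => (z.1.1, z.2) := by fun_prop
  have m5 : Measurable fun z : C0 × I => Φ (z.1.1, z.2) * F (outE z.1.1 z.1.2.1 α z.2) :=
    (hΦ.comp m4).mul (hFm.comp ((measurable_outE α).comp m3))
  rw [← e1]
  refine (lintegral_map (Measurable.ite mE (m5.mul (hGm.comp ((measurable_inE α).comp m3)))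
      measurable_const) m1).trans (Eq.trans ?_
    (lintegral_map (Measurable.ite mE (m5.mul (mK.comp ((measurable_Gam α).comp m4)))
      measurable_const) m1).symm)
  refine (lintegral_congr_ae (hae.mono fun z hz => ?_)).trans
    (key.trans (lintegral_congr_ae (hae.mono fun z hz => ?_)))
  · simp only [hz.chi, Ξ, Pi.mul_apply, Function.comp]
    split_ifs with h
    · rw [hz.glG h, hz.rho h, hz.outE h, hz.inE h, one_mul]
    · rw [zero_mul]
  · simp only [hz.chi, Ξ, Pi.mul_apply, Function.comp]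
    split_ifs with h
    · rw [hz.glG h, hz.rho h, hz.outE h, hz.gam h, one_mul]
    · rw [zero_mul]

end Pool.Agent.QL.LC
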