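import Pool.Agent.P.MP_7a6434d8_pr.QL.C.HoleP2
import Pool.Agent.P.MP_7a6434d8_pr.QL.C.Hat

/-! Block HOLE: the hole of a small ball is macroscopic. -/

open MeasureTheory ProbabilityTheory Set Filter Topology Metric
open scoped ENNReal unitInterval

namespace Pool.Agent.QL.LC

open Pool.Agent.LGD Pool.Agent.P.MP_7a6434d8_pr Pool.Agent.P.MP_7a6434d8_pr.Mp

theorem hlp_ne (S : Setup) (ϑ : Measure ℝ) [IsProbabilityMeasure ϑ] :
    ∀ᵐ m ∂S.M ϑ, (S.ginf m).2 0 1 ≠ 0 := by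
  have hm : MeasurableSet {m : S.X | m.2 0 = m.2 1} :=
    measurableSet_eq_fun (by fun_prop) (by fun_prop)
  have h1 : S.M ϑ {m : S.X | m.2 0 = m.2 1} = 0 := by
    rw [← lintegral_indicator_one hm, S.lintegral_M ϑ (measurable_one.indicator hm)]
    refine (lintegral_congr_ae ?_).trans lintegral_zero
    have h2 : ∀ᵐ p ∂ϑ.prod S.P, ∀ z, S.O.κ p.2 {z} = 0 := by
      refine Measure.quasiMeasurePreserving_snd.ae (p := fun ω => ∀ z, S.O.κ ω {z} = 0) ?_
      filter_upwards [S.O.κ_eq, S.atomless] with ω k1 k2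
      rwa [k1]
    filter_upwards [h2] with p hp
    have m2 : Measurable fun x : ℕ → ℂ => (x 0, x 1) := by fun_prop
    have hd : MeasurableSet {z : ℂ × ℂ | z.1 = z.2} :=
      measurableSet_eq_fun measurable_fst measurable_snd
    have h3 : (iid (S.O.κ p.2)).map (fun x => (x 0, x 1)) = (S.O.κ p.2).prod (S.O.κ p.2) :=
      Measure.infinitePi_map_eval_prod (P := fun _ : ℕ => S.O.κ p.2) zero_ne_one
    refine (lintegral_indicator_one (m2 hd)).trans ?_
    rw [← Measure.map_apply m2 hd, h3, Measure.prod_apply hd]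
    refine (lintegral_congr fun x => ?_).trans lintegral_zero
    rw [← hp x]
    congr 1
    ext y
    exact eq_comm
  filter_upwards [S.ae_goodPt ϑ, measure_eq_zero_iff_ae_notMem.1 h1] with m hg hne h0
  refine hne ?_
  have h4 : ex (gam / 4 * m.1.1) * S.O.dJ m.1.2 (m.2 0) (m.2 1) = 0 := h0
  rcases mul_eq_zero.1 h4 with h | h
  · exact absurd h (ENNReal.ofReal_pos.2 (Real.exp_pos _)).ne'
  · rw [hg.dJ, ENNReal.ofReal_eq_zero] at h
    have h5 := hg.geo.triangle (m.2 0) (m.2 1) (m.2 0)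
    rw [(hg.geo.eq_iff _ _).2 rfl, hg.geo.symm (m.2 1)] at h5
    exact OnePoint.coe_injective ((hg.geo.eq_iff _ _).1 (by linarith))

theorem hlp_small (S : Setup) (ϑ : Measure ℝ) [IsProbabilityMeasure ϑ] {η : ℝ≥0∞} (hη : 0 < η) :
    ∃ r₀ : ℚ, 0 < r₀ ∧
      (S.M ϑ).map S.ginf {g | g.2 0 1 ≤ ENNReal.ofReal (3 * (r₀ : ℝ))} < η := by
  have := Measure.isProbabilityMeasure_map (μ := S.M ϑ) S.measurable_ginf.aemeasurable
  set E : ℕ → Set GC := fun j => {g | g.2 0 1 ≤ ENNReal.ofReal (1 / ((j : ℝ) + 1))} with hE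
  have mE : ∀ j, MeasurableSet (E j) := fun j => measurableSet_le (by fun_prop) measurable_const
  have aE : Antitone E := fun j j' h g hg => le_trans hg (ENNReal.ofReal_le_ofReal
    (Nat.one_div_le_one_div h))
  have h1 := tendsto_measure_iInter_atTop (μ := (S.M ϑ).map S.ginf)
    (fun j => (mE j).nullMeasurableSet) aE ⟨0, measure_ne_top _ _⟩
  have h2 : (S.M ϑ).map S.ginf (⋂ j, E j) = 0 := by
    rw [Measure.map_apply S.measurable_ginf (MeasurableSet.iInter mE)]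
    refine measure_eq_zero_iff_ae_notMem.2 ?_
    filter_upwards [hlp_ne S ϑ] with m hm h
    obtain ⟨j, hj⟩ := (hlp_ev_small hm).exists
    exact absurd (mem_iInter.1 h j) (not_le.2 hj)
  rw [h2] at h1
  obtain ⟨j, hj⟩ := (h1.eventually (gt_mem_nhds hη)).exists
  refine ⟨1 / (3 * ((j : ℚ) + 1)), by positivity, ?_⟩
  have e : 3 * ((1 / (3 * ((j : ℚ) + 1)) : ℚ) : ℝ) = 1 / ((j : ℝ) + 1) := by
    push_cast
    field_simp
  rw [e]
  exact hj

theorem hlp_cn_four {n : ℕ} (hn : 1 ≤ n) : cn n ^ 4 * n = 9 / 8 := by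
  have h : (0 : ℝ) < n := by exact_mod_cast hn
  unfold cn
  rw [← Real.rpow_natCast, ← Real.rpow_mul (by positivity)]
  norm_num
  field_simp

theorem hlp_mbox_mono {B B' δ : ℝ} {L m : ℕ} (hB : 0 < B) (h : B ≤ B') (hb : MBox B δ L m) :
    MBox B' δ L m :=
  have h1 : 1 / B' ≤ 1 / B := one_div_le_one_div_of_le hB h
  ⟨h1.trans hb.1, hb.2.1.trans h, h1.trans hb.2.2.1, hb.2.2.2.trans h⟩

theorem hlp_hbox {H : HS} {b : Base} {α : Rg} {r : ℕ → RZ} {g : GC} {ρ : I} {ℓ a : ℝ}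
    (K : HoleOK b r H α g ρ ℓ a) {h : ℕ → ℝ≥0∞}
    (ht : Tendsto (fun k => hlC H b α k (r k)) b.U (𝓝 h)) : HBox h := by
  have t := fun i j => ((continuous_hx i j).tendsto h).comp ht
  simp only [Function.comp_def, hx_hlC] at t
  have h0 : hx h 0 0 = 1 := tendsto_nhds_unique (t 0 0) (tendsto_const_nhds.congr'
    (K.ev.mono fun k hk => (if_pos hk).symm))
  have h1 : hx h 1 0 = ENNReal.ofReal ℓ :=
    tendsto_nhds_unique (t 1 0) (ENNReal.tendsto_ofReal K.len)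
  have h2 : hx h 2 0 = ENNReal.ofReal a :=
    tendsto_nhds_unique (t 2 0) (ENNReal.tendsto_ofReal K.area)
  rw [HBox, h0, h1, h2]
  exact ⟨one_ne_zero, (ENNReal.ofReal_pos.2 K.len_pos).ne', ENNReal.ofReal_ne_top,
    (ENNReal.ofReal_pos.2 K.area_pos).ne', ENNReal.ofReal_ne_top⟩

theorem hlp_evI {𝒟 : ℕ → ℕ → ℝ≥0∞} {r₀ : ℚ} (hr : 0 < r₀) (ρ : I)
    (h : ENNReal.ofReal (3 * (r₀ : ℝ)) < 𝒟 0 1) : EvI 𝒟 (one r₀) ρ := by
  refine ⟨List.cons_ne_nil _ _, fun c hc => ?_, fun c hc c' hc' => ?_, ?_⟩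
  · rw [List.mem_singleton.1 hc]
    exact hr
  · rw [List.mem_singleton.1 hc, List.mem_singleton.1 hc']
  · have h1 : rd ρ (1, r₀) < 𝒟 0 1 := lt_of_le_of_lt (ENNReal.ofReal_le_ofReal (by
      have h2 : (0 : ℝ) < r₀ := by exact_mod_cast hr
      have h3 := ρ.2.2
      show (r₀ : ℝ) * (1 + ρ) ≤ _
      nlinarith)) h
    refine (tsub_pos_of_lt h1).trans_le (le_iInf₂ fun c hc => ?_)
    rw [List.mem_singleton.1 hc]
    exact le_rfl

set_option synthInstance.maxSize 1024 in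
theorem pb (S : Setup) (hH : HoleAE S) (hG : GHStmt S) : PBStmt := by
  intro H η hη
  by_contra hn
  obtain ⟨r₀, hr, h0⟩ := hlp_small S (Measure.dirac 0) hη
  have h1 : ∀ B : ℕ, ∃ n : ℕ, B + 1 ≤ n ∧ η < lawN n {z | ¬ (3 * (r₀ : ℝ) <
      cn n * z.q.graph.dist (z.S 0) (z.S 1) ∧ z.ev (cn n) (one r₀) ∧
      MBox (B + 1) (cn n) (per (z.W H (cn n) (one r₀))) (size (z.W H (cn n) (one r₀))))} := by
    intro B
    by_contra h
    refine hn ⟨r₀, B + 1, hr, by simp, ?_⟩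
    filter_upwards [eventually_ge_atTop (B + 1)] with n hn'
    exact not_lt.1 fun h' => h ⟨n, hn', h'⟩
  choose n hn1 hn2 using h1
  have hn3 : ∀ k, 1 ≤ n k := fun k => le_trans (by omega) (hn1 k)
  have hU : (Ultrafilter.of (atTop : Filter ℕ) : Filter ℕ) ≤ atTop := Ultrafilter.of_le _
  let b : Base :=
    { U := Ultrafilter.of atTop
      δ := fun k => cn (n k)
      κ := fun _ => 1
      δ_pos := fun k => Real.rpow_pos_of_pos (by have := hn3 k; positivity) _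
      κ_pos := fun _ => one_pos
      δ_lim := (cn_tendsto.comp (tendsto_atTop_mono (fun k => (Nat.le_succ k).trans (hn1 k))
        tendsto_id)).mono_left hU }
  obtain ⟨w, hw, hw'⟩ := exists_fixWorld b n hn3 0 (by
    refine tendsto_const_nhds.congr fun k => ?_
    rw [mul_zero, Real.exp_zero, mul_one]
    exact (hlp_cn_four (hn3 k)).symm)
  obtain ⟨hc, mhc, h2⟩ := hH H b w (one r₀)
  have mξ := measurable_hlC H b (one r₀)
  have mf : ∀ k, Measurable fun r : RZ => (code0 b k r, r.ρ, hc k r, hlC H b (one r₀) k r) :=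
    fun k => (measurable_code0 b k).prodMk (measurable_rho.prodMk ((mhc k).prodMk (mξ k)))
  obtain ⟨Q, hQp, hQ⟩ := w.exists_lim mf
  have hQ1 := Measure.isProbabilityMeasure_map (μ := Q) measurable_fst.aemeasurable
  have hm : Q.map (fun y => y.1.1) = (S.M w.ϑ).map S.ginf := by
    rw [← (hG b w _ (hQ.map continuous_fst)).1, Measure.map_map measurable_fst measurable_fst]
    rfl
  have mπ : Measurable fun y : C0 × I × (ℕ → ℝ≥0∞) × (ℕ → ℝ≥0∞) => y.1.1 := measurable_fst.fst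
  set O : ℕ → Set (C0 × I × (ℕ → ℝ≥0∞) × (ℕ → ℝ≥0∞)) := fun B =>
    {y | ENNReal.ofReal (3 * (r₀ : ℝ)) < y.1.1.2 0 1 ∧ y.2.2.2 ∈ hlpBx (B + 1)} with hO
  have c1 : Continuous fun y : C0 × I × (ℕ → ℝ≥0∞) × (ℕ → ℝ≥0∞) => y.1.1.2 0 1 := by fun_prop
  have oO : ∀ B, IsOpen (O B) := fun B => (isOpen_lt continuous_const c1).inter
    ((hlpBx_open (B + 1)).preimage continuous_snd.snd.snd)
  have h3 : ∀ B, η ≤ Q (O B)ᶜ := fun B => by
    refine hQ.le_closed mf (oO B).isClosed_compl ?_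
    filter_upwards [hU (eventually_ge_atTop B)] with k hk
    rw [hw']
    refine (hn2 k).le.trans (measure_mono fun z hz hz' => hz ?_)
    obtain ⟨a1, a2⟩ := hlp_box_of hz'.2
    exact ⟨hlp_lt_of hz'.1, a1, hlp_mbox_mono (by positivity)
      (by exact_mod_cast Nat.succ_le_succ hk) a2⟩
  set D : ℕ → Set (C0 × I × (ℕ → ℝ≥0∞) × (ℕ → ℝ≥0∞)) := fun j => ⋃ B, ⋃ _ : j ≤ B, (O B)ᶜ
    with hD
  have mD : ∀ j, MeasurableSet (D j) := fun j => MeasurableSet.iUnion fun B =>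
    MeasurableSet.iUnion fun _ => (oO B).measurableSet.compl
  have aD : Antitone D := fun j j' h => iUnion_mono fun B =>
    iUnion_subset fun hB => subset_iUnion (fun _ : j ≤ B => (O B)ᶜ) (h.trans hB)
  have h4 : η ≤ Q (⋂ j, D j) := ge_of_tendsto' (tendsto_measure_iInter_atTop
    (fun j => (mD j).nullMeasurableSet) aD ⟨0, measure_ne_top _ _⟩) fun j =>
    (h3 j).trans (measure_mono (subset_iUnion₂ (s := fun B (_ : j ≤ B) => (O B)ᶜ) j le_rfl))
  have mF : MeasurableSet {g : GC | g.2 0 1 ≤ ENNReal.ofReal (3 * (r₀ : ℝ))} :=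
    measurableSet_le (by fun_prop) measurable_const
  rw [← hw, ← hm, Measure.map_apply mπ mF] at h0
  refine absurd (h4.trans ?_) (not_le.2 h0)
  rw [← S.hat_snd w.ϑ Q mπ hm, Measure.map_apply measurable_snd (MeasurableSet.iInter mD),
    Measure.map_apply measurable_snd (mπ mF)]
  refine measure_mono_ae ?_
  filter_upwards [h2 _ _ mξ Q hQ] with z hz hz'
  obtain ⟨-, -, r, p, t, -, k1, -⟩ := hz
  by_contra hlt
  have hlt' : ENNReal.ofReal (3 * (r₀ : ℝ)) < z.2.1.1.2 0 1 := not_le.1 hlt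
  obtain ⟨ℓ, a, K⟩ := k1 (hlp_evI hr _ hlt')
  have hb := hlp_hbox K (((continuous_snd.snd.snd).tendsto z.2).comp t)
  obtain ⟨j, hj⟩ := eventually_atTop.1 hb.hlp_ev
  obtain ⟨B, hB⟩ := mem_iUnion.1 (mem_iInter.1 hz' j)
  obtain ⟨hB1, hB2⟩ := mem_iUnion.1 hB
  exact hB2 ⟨hlt', hj B hB1⟩

end Pool.Agent.QL.LC
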