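import Pool.Agent.P.MP_7a6434d8_pr.QL.C.Stmts

/-! Block N1: slow variation of the resistance scale. -/

open Set Filter Topology

namespace Pool.Agent.QL.LC

theorem n1_sv_chain {u : ℝ → ℝ} {B m t₀ : ℝ} (hm : 0 < m)
    (h : ∀ t, t₀ ≤ t → ∀ s, |s - t| ≤ m → |u s - u t| ≤ B) (j : ℕ) :
    ∀ s t, t₀ ≤ s → t₀ ≤ t → |s - t| ≤ (j + 1) * m → |u s - u t| ≤ (j + 1) * B := by
  induction j with
  | zero => exact fun s t _ ht hst => by simpa using h t ht s (by simpa using hst)
  | succ j ih =>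
    have key : ∀ s t, t₀ ≤ s → s ≤ t → t - s ≤ (j + 1 + 1) * m →
        |u s - u t| ≤ (j + 1 + 1) * B := by
      intro s t hs hst h1
      have hj : (0 : ℝ) ≤ j := j.cast_nonneg
      have h2 := ih s (max s (t - m)) hs (hs.trans (le_max_left _ _)) (by
        rw [abs_sub_comm, abs_of_nonneg (sub_nonneg.2 (le_max_left _ _)), sub_le_iff_le_add]
        exact max_le (by nlinarith) (by linarith))
      have h3 := h t (hs.trans hst) (max s (t - m)) (by
        rw [abs_sub_comm, abs_of_nonneg (sub_nonneg.2 (max_le hst (by linarith)))]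
        linarith [le_max_right s (t - m)])
      linarith [abs_sub_le (u s) (u (max s (t - m))) (u t)]
    intro s t hs ht hst
    push_cast at hst ⊢
    rcases le_total s t with h1 | h1
    · exact key s t hs h1 (by linarith [(abs_le.1 hst).1])
    · rw [abs_sub_comm]
      exact key t s ht h1 (abs_le.1 hst).2

theorem n1_lev : Tendsto (fun a : ℕ => 2 * Real.log a / gam) atTop atTop :=
  ((Real.tendsto_log_atTop.comp tendsto_natCast_atTop_atTop).const_mul_atTop
    two_pos).atTop_div_const gam_pos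

theorem sv : SVStmt := by
  rintro u ⟨-, B, hB⟩
  refine ⟨fun _ => Real.exp_pos _, fun lam hl => ?_⟩
  have hg := gam_pos
  have hB0 : 0 ≤ B := by
    obtain ⟨t, ht⟩ := (hB 0).exists
    simpa using ht t (by simp)
  set m : ℝ := 2 * B / (gam * lam) + 1 with hm
  have hm0 : 0 < m := by positivity
  obtain ⟨t₀, h0⟩ := eventually_atTop.1 (hB m)
  obtain ⟨a₀, h1⟩ := eventually_atTop.1 ((n1_lev.eventually_ge_atTop t₀).and
    (eventually_ge_atTop 1))
  refine ⟨Real.exp B, a₀, fun a a' ha ha' => ?_⟩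
  have p1 : (0 : ℝ) < a := by exact_mod_cast (h1 a ha).2
  have p2 : (0 : ℝ) < a' := by exact_mod_cast (h1 a' ha').2
  set M : ℝ := max ((a : ℝ) / a') ((a' : ℝ) / a) with hM
  have hM0 : 0 < M := lt_max_of_lt_left (by positivity)
  set s : ℝ := 2 * Real.log a / gam
  set t : ℝ := 2 * Real.log a' / gam
  have h2 : |s - t| ≤ 2 * Real.log M / gam := by
    have e1 : Real.log a - Real.log a' ≤ Real.log M := by
      rw [← Real.log_div p1.ne' p2.ne']
      exact Real.log_le_log (by positivity) (le_max_left _ _)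
    have e2 : Real.log a' - Real.log a ≤ Real.log M := by
      rw [← Real.log_div p2.ne' p1.ne']
      exact Real.log_le_log (by positivity) (le_max_right _ _)
    rw [← sub_div, abs_div, abs_of_pos hg]
    exact div_le_div_of_nonneg_right (abs_le.2 ⟨by linarith, by linarith⟩) hg.le
  have h3 := n1_sv_chain hm0 h0 ⌊|s - t| / m⌋₊ s t (h1 a ha).1 (h1 a' ha').1
    ((div_le_iff₀ hm0).1 (Nat.lt_floor_add_one _).le)
  have h4 : (⌊|s - t| / m⌋₊ : ℝ) * m ≤ |s - t| :=
    (le_div_iff₀ hm0).1 (Nat.floor_le (by positivity))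
  have h5 : (⌊|s - t| / m⌋₊ : ℝ) * B ≤ Real.log M * lam := by
    have e1 : 2 * B ≤ m * (gam * lam) := by
      rw [hm, add_mul, div_mul_cancel₀ _ (by positivity)]
      nlinarith [mul_pos hg hl]
    have e2 := (le_div_iff₀ hg).1 (h4.trans h2)
    have e3 : (0 : ℝ) ≤ ⌊|s - t| / m⌋₊ := Nat.cast_nonneg _
    nlinarith [mul_le_mul_of_nonneg_left e1 e3, mul_le_mul_of_nonneg_right e2 hl.le]
  rw [kapOf, kapOf, Real.rpow_def_of_pos hM0, ← Real.exp_add, ← Real.exp_add, Real.exp_le_exp]
  linarith [(abs_le.1 h3).2]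

end Pool.Agent.QL.LC
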