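import Pool.Agent.P.MP_7a6434d8_pr.QL.C.N1Det
import Pool.Agent.P.MP_7a6434d8_pr.QL.C.N1SV
import Pool.Agent.P.MP_7a6434d8_pr.QL.C.HoleP4

/-! Block N1: the one-scale crossing estimate. -/

open MeasureTheory Set Filter Topology
open scoped ENNReal unitInterval

namespace Pool.Agent.QL.LC

open Pool.Agent.LGD Pool.Agent.P.MP_7a6434d8_pr Pool.Agent.P.MP_7a6434d8_pr.Mp

theorem n1_meas (H : HS) (δ : ℝ) (α : Rg) (φ : Mp → Prop) :
    MeasurableSet {r : RZ | r.ev δ α ∧ φ (r.W H δ α)} :=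
  (measurableSet_ev δ α).inter (measurableSet_setOfPred.2
    (hlp_measurable_W H δ α (fun t _ => φ t) fun _ => measurable_const))

open Classical in
/-- A lower bound for discs of given perimeter and size passes to the hole. -/
theorem n1_prob (H : HS) (δ : ℝ) (α : Rg) (n : ℕ) (P : ℕ → ℕ → Prop) (φ : Mp → Prop) (η : ℝ≥0∞)
    (h : ∀ L m, P L m → η ≤ AV L m fun t => if φ t then 1 else 0) :
    η * lawN n {r | r.ev δ α ∧ P (per (r.W H δ α)) (size (r.W H δ α))} ≤
      lawN n {r | r.ev δ α ∧ P (per (r.W H δ α)) (size (r.W H δ α)) ∧ φ (r.W H δ α)} := by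
  set F : (IIdx → ℝ≥0∞) → ℝ≥0∞ := fun c =>
    if ∃ L m : ℕ, P L m ∧ c .per = L ∧ c .size = m then 1 else 0 with hF
  have mF : Measurable F := by
    refine Measurable.ite ?_ measurable_const measurable_const
    simp only [ofPred_exists]
    exact MeasurableSet.iUnion fun L => MeasurableSet.iUnion fun m =>
      (MeasurableSet.const _).inter ((measurableSet_eq_fun (measurable_pi_apply _)
        measurable_const).inter (measurableSet_eq_fun (measurable_pi_apply _) measurable_const))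
  have eF : ∀ (q : Quad n) A S, F ((H.1 n).icode q A S) =
      if P (per ((H.1 n).W q A)) (size ((H.1 n).W q A)) then 1 else 0 := by
    intro q A S
    refine if_congr ⟨?_, fun h => ⟨_, _, h, rfl, rfl⟩⟩ rfl rfl
    rintro ⟨L, m, h1, h2, h3⟩
    have h2' : ((per ((H.1 n).W q A) : ℕ) : ℝ≥0∞) = L := h2
    have h3' : ((size ((H.1 n).W q A) : ℕ) : ℝ≥0∞) = m := h3
    rw [Nat.cast_injective h2', Nat.cast_injective h3']
    exact h1
  have m1 := n1_meas H δ α fun t => P (per t) (size t)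
  have m2 := n1_meas H δ α fun t => P (per t) (size t) ∧ φ t
  rw [← lintegral_indicator_const m1, ← lintegral_indicator_one m2,
    lintegral_lawN n (measurable_const.indicator m1),
    lintegral_lawN n (measurable_one.indicator m2)]
  refine lintegral_mono fun ρ => ?_
  have h2 := (H.2 n).plug (Jd δ ρ α.1) α.2 F (fun t _ => if φ t then 1 else 0) mF
    fun _ => measurable_const
  simp only [eF, hlp_AVS_const] at h2
  refine (hlp_EQS_mono n fun q S => ?_).trans (h2.symm.le.trans (hlp_EQS_mono n fun q S => ?_))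
  · refine indicator_apply_le' (fun k => ?_) fun _ => zero_le
    have k2 : P (per ((H.1 n).W q (VO q S (Jd δ ρ α.1) α.2)))
      (size ((H.1 n).W q (VO q S (Jd δ ρ α.1) α.2))) := k.2
    rw [if_pos (show Ev q S (Jd δ ρ α.1) α.2 from k.1), if_pos k2, one_mul]
    exact h _ _ k2
  · split_ifs with k1 k2 k3
    · exact (one_mul _).le.trans (indicator_of_mem (s := {r : RZ | r.ev δ α ∧ _ ∧ _})
        (a := RZ.mk' q (ρ, S)) ⟨k1, k2, k3⟩ 1).ge
    all_goals simp

open Classical in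
theorem n1_AV {L m : ℕ} {φ : Mp → Prop} {ψ : ℕ → Mp → Prop} (e : ∀ t, φ t ↔ ψ (per t) t) {η : ℝ}
    (h : η * cnt L m (fun _ => True) < cnt L m (ψ L)) :
    ENNReal.ofReal η ≤ AV L m fun t => if φ t then 1 else 0 := by
  have h1 : ∑ t ∈ countaT L m, (if φ t then (1 : ℝ≥0∞) else 0) = cnt L m (ψ L) := by
    rw [counta_cnt, Finset.sum_boole]
    congr 2
    exact Finset.filter_congr fun t ht => by rw [e, ((counta_mem L m t).1 ht).2.1]
  have h2 : (countaT L m).card ≠ 0 := fun h0 => by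
    rw [counta_cnt_true, counta_cnt, Finset.card_eq_zero.1 h0] at h
    simp at h
  rw [AV, h1, ENNReal.le_div_iff_mul_le (.inl (by exact_mod_cast h2)) (.inl (by simp)),
    ← counta_cnt_true, ← ENNReal.ofReal_natCast, ← ENNReal.ofReal_natCast (cnt L m (ψ L)),
    ← ENNReal.ofReal_mul' (Nat.cast_nonneg _)]
  exact ENNReal.ofReal_le_ofReal h.le

theorem n1_box {B a L m : ℕ} (hB : 1 ≤ B) {δ : ℝ} (hδ : δ ^ 2 * (100 * B * a) = 3 / 4)
    (h : MBox B δ L m) : 100 * a ≤ L ∧ L ≤ 200 * B ^ 3 * a ∧ L ^ 2 ≤ 200 * B ^ 3 * m ∧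
      m ≤ 200 * B ^ 3 * L ^ 2 := by
  obtain ⟨h1, h2, h3, h4⟩ := h
  have hB' : (1 : ℝ) ≤ B := by exact_mod_cast hB
  have ha : (0 : ℝ) ≤ a := a.cast_nonneg
  have hL : (0 : ℝ) ≤ L := L.cast_nonneg
  have h0 : 0 < δ ^ 4 := by
    have : δ ≠ 0 := fun e => by norm_num [e] at hδ
    positivity
  rw [div_le_iff₀ (by linarith)] at h1 h3
  have k1 : (100 : ℝ) * a ≤ L := by nlinarith [mul_le_mul_of_nonneg_left h1 ha]
  have k2 : (L : ℝ) ≤ 200 * B ^ 2 * a := by
    nlinarith [mul_le_mul_of_nonneg_left h2 (show (0 : ℝ) ≤ 100 * B * a by positivity)]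
  have k3 : (L : ℝ) ^ 2 ≤ B ^ 3 * m := by
    refine le_of_mul_le_mul_left ?_ h0
    nlinarith [pow_le_pow_left₀ (by positivity) h2 2,
      mul_le_mul_of_nonneg_left h3 (sq_nonneg (B : ℝ))]
  have k4 : (m : ℝ) ≤ B ^ 3 * L ^ 2 := by
    refine le_of_mul_le_mul_left ?_ h0
    nlinarith [mul_le_mul_of_nonneg_left (one_le_pow₀ (n := 2) h1) (show (0 : ℝ) ≤ B by linarith)]
  have k5 : B ^ 2 ≤ B ^ 3 := Nat.pow_le_pow_right hB (by norm_num)
  have k2' : L ≤ 200 * B ^ 2 * a := by exact_mod_cast k2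
  have k3' : L ^ 2 ≤ B ^ 3 * m := by exact_mod_cast k3
  have k4' : m ≤ B ^ 3 * L ^ 2 := by exact_mod_cast k4
  exact ⟨by exact_mod_cast k1, k2'.trans (by gcongr), by nlinarith, by nlinarith⟩

theorem n1_cn {B a : ℕ} (hB : 1 ≤ B) (ha : 1 ≤ a) :
    cn (2 * (100 * B * a) ^ 2) ^ 2 * (100 * B * a) = 3 / 4 := by
  have h := hlp_cn_four (n := 2 * (100 * B * a) ^ 2) (Nat.succ_le_of_lt (by positivity))
  push_cast at h
  refine (pow_left_inj₀ (by positivity) (by norm_num) two_ne_zero).1 ?_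
  linarith

theorem n1_D (S : Setup) {m : S.X} {c : C0} (h : S.GoodPt m) (h' : S.GoodC m c) (i j : ℕ) :
    c.1.2 i j = ENNReal.ofReal (S.D m (m.2 i) (m.2 j)) := by
  rw [h'.g, Setup.D, ENNReal.ofReal_mul (Real.exp_pos _).le, ← h.dJ]
  rfl

set_option synthInstance.maxSize 1024 in
theorem n1_stmt (S : Setup) (hH : HoleStmt) (hG : GHStmt S) (hA : HoleAE S) (hPB : PBStmt)
    (hSys : SysStmt) (hFin : FinStmt) : N1Stmt S := by
  rintro u ⟨⟨-, B₁, hs⟩, hT⟩
  obtain ⟨H⟩ : Nonempty HS := ⟨⟨fun n => (hH n).choose, fun n => (hH n).choose_spec⟩⟩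
  obtain ⟨r₀, B', hr, hB', hpb⟩ := hPB H 2⁻¹ (by simp)
  obtain ⟨n₀, hn₀⟩ := eventually_atTop.1 hpb
  obtain ⟨B, hB, hBB⟩ : ∃ B : ℕ, 1 ≤ B ∧ B' ≤ B :=
    ⟨⌈B'⌉₊, Nat.one_le_ceil_iff.2 (by linarith), Nat.le_ceil _⟩
  refine ⟨200 * B ^ 3, Nat.succ_le_of_lt (by positivity), fun r hr0 η hη => ?_⟩
  by_contra hn
  push Not at hn
  choose a ha b' hb hF using fun k : ℕ => hn (k + 1) (by positivity) (k + 5 + n₀)
  have ha1 : ∀ k, 1 ≤ a k := fun k => by linarith [ha k]
  obtain ⟨n, hn'⟩ : ∃ n : ℕ → ℕ, ∀ k, n k = 2 * (100 * B * a k) ^ 2 := ⟨_, fun _ => rfl⟩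
  have han : ∀ k, a k ≤ n k := fun k => by
    have : a k ≤ 100 * B * a k := Nat.le_mul_of_pos_left _ (by omega)
    rw [hn']
    nlinarith [ha1 k]
  have hn1 : ∀ k, 1 ≤ n k := fun k => (ha1 k).trans (han k)
  have hU : (Ultrafilter.of (atTop : Filter ℕ) : Filter ℕ) ≤ atTop := Ultrafilter.of_le _
  have ht : Tendsto (fun k => Real.log (n k) / gam) (Ultrafilter.of (atTop : Filter ℕ)) atTop :=
    ((Real.tendsto_log_atTop.comp (tendsto_natCast_atTop_atTop.comp (tendsto_atTop_mono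
      (fun k => by linarith [ha k, han k, id_eq k]) tendsto_id))).atTop_div_const
        gam_pos).mono_left hU
  obtain ⟨a₁, a₂, p1, p2, hT'⟩ := hT _ _ ht
  set b := mkBase _ (fun k => u (Real.log (n k) / gam)) _ ht with hb0
  have hδ : ∀ k, b.δ k = cn (n k) := fun k => del_log (hn1 k)
  have hδ2 : ∀ k, b.δ k ^ 2 * (100 * B * a k) = 3 / 4 := fun k => by
    rw [hδ, hn']
    exact n1_cn hB (ha1 k)
  obtain ⟨w, -, hw⟩ := exists_fixWorld b n hn1 0 (by
    refine tendsto_const_nhds.congr fun k => ?_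
    rw [mul_zero, Real.exp_zero, mul_one, hδ]
    exact (hlp_cn_four (hn1 k)).symm)
  obtain ⟨hc, mhc, h2⟩ := hA H b w (one r₀)
  set E : ℕ → Set RZ := fun k => {z | z.ev (b.δ k) (one r₀) ∧
    MBox B (b.δ k) (per (z.W H (b.δ k) (one r₀))) (size (z.W H (b.δ k) (one r₀))) ∧
    ND.Fail (z.W H (b.δ k) (one r₀)) (per (z.W H (b.δ k) (one r₀)) - 3 * a k) (b' k) (a k)
      ⌊r * √(a k : ℝ)⌋₊ √((k + 1) * kapOf u (a k))} with hE
  have mE : ∀ k, MeasurableSet (E k) := fun k => n1_meas H _ _ fun t =>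
    MBox B (b.δ k) (per t) (size t) ∧ ND.Fail t (per t - 3 * a k) (b' k) (a k) _ _
  have mξ : ∀ k, Measurable ((E k).indicator (1 : RZ → ℝ≥0∞)) := fun k =>
    measurable_one.indicator (mE k)
  have mf : ∀ k, Measurable fun z : RZ =>
      (code0 b k z, z.ρ, hc k z, (E k).indicator (1 : RZ → ℝ≥0∞) z) :=
    fun k => (measurable_code0 b k).prodMk (measurable_rho.prodMk ((mhc k).prodMk (mξ k)))
  obtain ⟨Q, hQp, hQ⟩ := w.exists_lim mf
  have hQ1 := Measure.isProbabilityMeasure_map (μ := Q) measurable_fst.aemeasurable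
  have hm : Q.map (fun y => y.1.1) = (S.M w.ϑ).map S.ginf := by
    rw [← (hG b w _ (hQ.map continuous_fst)).1, Measure.map_map measurable_fst measurable_fst]
    rfl
  have mπ : Measurable fun y : C0 × I × (ℕ → ℝ≥0∞) × ℝ≥0∞ => y.1.1 := measurable_fst.fst
  have cO : IsClosed {y : C0 × I × (ℕ → ℝ≥0∞) × ℝ≥0∞ | y.2.2.2 = 1} :=
    isClosed_eq continuous_snd.snd.snd continuous_const
  have h3 : ENNReal.ofReal η * 2⁻¹ ≤ Q {y | y.2.2.2 = 1} := by
    refine hQ.le_closed mf cO (.of_forall fun k => ?_)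
    have := lawN_prob (hn1 k)
    rw [hw]
    refine le_trans ?_ ((n1_prob H (b.δ k) (one r₀) (n k) (MBox B (b.δ k))
      (fun t => ND.Fail t (per t - 3 * a k) (b' k) (a k) ⌊r * √(a k : ℝ)⌋₊
        √((k + 1) * kapOf u (a k))) (ENNReal.ofReal η)
      fun L m hb => ?_).trans (measure_mono fun z hz => indicator_of_mem (s := E k) hz 1))
    · refine mul_le_mul_right ((ENNReal.add_le_add_iff_right (a := 2⁻¹) (by simp)).1 ?_) _
      rw [ENNReal.inv_two_add_inv_two, ← measure_univ (μ := lawN (n k))]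
      refine (measure_univ_le_add_compl _).trans (add_le_add_right ((measure_mono ?_).trans
        (hn₀ (n k) (by linarith [ha k, han k]))) _)
      rw [hδ]
      exact fun z hz hz' => hz ⟨hz'.2.1, hlp_mbox_mono (by linarith) hBB hz'.2.2⟩
    · obtain ⟨k1, k2, k3, k4⟩ := n1_box hB (hδ2 k) hb
      exact n1_AV (ψ := fun L t => ND.Fail t (L - 3 * a k) (b' k) (a k) _ _) (fun _ => Iff.rfl)
        (hF k L m k1 k2 k3 k4)
  have h4 : ∀ᵐ z ∂S.hat w.ϑ Q fun y => y.1.1, ∀ F : Fr, F.Adm →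
      Homog a₁ a₂ (pull F (S.sysOf z.1 z.2.1)) := by
    have := hT' w _ (hQ.map continuous_fst)
    rw [← S.hat_map w.ϑ Q mπ hm measurable_fst measurable_fst fun _ => rfl] at this
    exact ae_of_ae_map (measurable_id.prodMap measurable_fst).aemeasurable this
  refine absurd h3 (not_le.2 (lt_of_le_of_lt (le_of_eq ?_) (ENNReal.mul_pos
    (ENNReal.ofReal_pos.2 hη).ne' (by simp))))
  rw [← S.hat_snd w.ϑ Q mπ hm, Measure.map_apply measurable_snd cO.measurableSet,
    measure_eq_zero_iff_ae_notMem]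
  filter_upwards [h2 _ _ mξ Q hQ, h4] with z hz hH hz'
  obtain ⟨g1, g2, ρ, p, t, hP, k1, k2⟩ := hz
  have t1 : ∀ᶠ k in (b.U : Filter ℕ), ρ k ∈ E k :=
    ((continuous_snd.snd.snd.tendsto z.2).comp t).eventually
      (isOpen_ne.mem_nhds ((show z.2.2.2.2 = 1 from hz') ▸ one_ne_zero)) |>.mono
      fun k hk => mem_of_indicator_ne_zero hk
  obtain ⟨ℓ, a₀, K⟩ := k1 (by
    by_contra h
    obtain ⟨k, k3, k4⟩ := ((k2 (by simpa [one] using hr) h).and t1).exists
    exact k3 k4.1)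
  have hD := n1_D S g1 g2
  have hR := hSys b ρ _ _ p hP _ _ hD ((continuous_fst.snd.fst.tendsto z.2).comp t)
  have hB0 : (0 : ℝ) < B := by exact_mod_cast hB
  have hc0 : 0 < r * √(3 / (400 * B)) / 2 := by positivity
  obtain ⟨C, hC⟩ := n1_det hr hP hD K (n1_tube hP hR fun F hF => by
    obtain ⟨j, hj⟩ := exists_eq_ciSup_of_finite
      (f := fun j : Fin 4 => Rp (pull (F.comp (rotF j)) (S.sysOf z.1 z.2.1)).1)
    refine hj.symm.trans_lt ?_
    rw [pull_comp]
    exact hFin _ _ _ p1 p2 (Realized.pull ⟨_, hR⟩ F) (hH F hF) _ (mapsTo_rotF j)) (B := 200 * B ^ 3) (Nat.succ_le_of_lt (by positivity)) hc0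
  obtain ⟨k, k3, k4, k5, k6, k7⟩ := (hC.and (t1.and ((n1_small b hc0).and ((ht.eventually
    (hs (Real.log (2 * (100 * B) ^ 2) / gam))).and (hU (tendsto_natCast_atTop_atTop.eventually
      (eventually_ge_atTop (|C| * Real.exp B₁)))))))).exists
  obtain ⟨m1, m2, -⟩ := n1_box hB (hδ2 k) k4.2.1
  have ha0 : (0 : ℝ) < a k := by exact_mod_cast ha1 k
  have hκ : 0 < kapOf u (a k) := Real.exp_pos _
  have m3 := k3 _ _ _ _ m1 m2 (hb k) (by linarith [ha k]) (Real.sqrt_nonneg _) (by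
    have e : b.δ k * √(a k : ℝ) = √(3 / (400 * B)) := by
      rw [← Real.sqrt_sq (b.δ_pos k).le, ← Real.sqrt_mul (sq_nonneg _)]
      congr 1
      rw [eq_div_iff (by positivity)]
      linarith [hδ2 k]
    have := mul_lt_mul_of_pos_left (Nat.lt_floor_add_one (r * √(a k : ℝ))) (b.δ_pos k)
    rw [mul_left_comm, e] at this
    linarith) k4.2.2
  have m4 : b.κ k ≤ Real.exp B₁ * kapOf u (a k) := by
    rw [kapOf, ← Real.exp_add]
    refine Real.exp_le_exp.2 ?_
    have e : Real.log (n k) = Real.log (2 * (100 * B) ^ 2) + 2 * Real.log (a k) := by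
      rw [hn', ← Real.log_rpow ha0, ← Real.log_mul (by positivity) (by positivity)]
      congr 1
      push_cast
      rw [Real.rpow_two]
      ring
    have := k6 (2 * Real.log (a k) / gam) (by
      rw [e, ← sub_div, abs_div, abs_of_pos gam_pos, sub_add_cancel_right, abs_neg,
        abs_of_nonneg (Real.log_nonneg (by nlinarith [show (1 : ℝ) ≤ B by exact_mod_cast hB]))])
    linarith [(abs_le.1 this).1]
  rw [Real.sq_sqrt (by positivity)] at m3
  have m5 := m3.trans ((mul_le_mul_of_nonneg_right (le_abs_self C) (b.κ_pos k).le).trans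
    (mul_le_mul_of_nonneg_left m4 (abs_nonneg C)))
  rw [← mul_assoc, mul_le_mul_iff_left₀ hκ] at m5
  have k8 : |C| * Real.exp B₁ ≤ k := k7
  linarith

end Pool.Agent.QL.LC
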