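import Pool.Agent.P.MP_7a6434d8_pr.QL.C.Api
import Pool.Agent.P.MP_7a6434d8_pr.QL.C.Meas
import Pool.Agent.P.MP_7a6434d8_pr.QL.Net.Lim

/-! Positions, comparison of ball data with planar data, the net realises the system. -/

open MeasureTheory ProbabilityTheory Set Filter Topology Metric
open scoped ENNReal unitInterval

namespace Pool.Agent.QL.LC

open Pool.Agent.LGD Pool.Agent.P.MP_7a6434d8_pr Pool.Agent.P.MP_7a6434d8_pr.Mp

theorem net_tri {n : ℕ} (q : Quad n) (u v w : q.Vertex) :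
    ((q.graph.dist u w : ℕ) : ℝ) ≤ q.graph.dist u v + q.graph.dist v w := by
  exact_mod_cast (graph_connected q).dist_triangle

theorem net_real {U : Filter ℕ} {f : ℕ → ℝ} {a : ℝ} (hf : ∀ k, 0 ≤ f k) (ha : 0 ≤ a)
    (h : Tendsto (fun k => ENNReal.ofReal (f k)) U (𝓝 (ENNReal.ofReal a))) :
    Tendsto f U (𝓝 a) := by
  have h1 := (ENNReal.tendsto_toReal ENNReal.ofReal_ne_top).comp h
  rw [ENNReal.toReal_ofReal ha] at h1
  exact h1.congr fun k => ENNReal.toReal_ofReal (hf k)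

theorem net_diag {U : Filter ℕ} (hU : U ≤ atTop) {A : ℕ → ℕ → Prop} (hA : ∀ j, ∀ᶠ k in U, A j k) :
    ∃ m : ℕ → ℕ, ∀ j, ∀ᶠ k in U, j ≤ m k ∧ A (m k) k := by
  classical
  refine ⟨fun k => Nat.findGreatest (fun j => A j k) k, fun j => ?_⟩
  filter_upwards [hA j, hU (eventually_ge_atTop j)] with k h1 h2
  exact ⟨Nat.le_findGreatest h2 h1, Nat.findGreatest_spec (P := fun j => A j k) h2 h1⟩

theorem pos_stmt : PosStmt := by
  intro b r D x c hD hx hc hcov hl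
  have hd : ∀ i j, Tendsto (fun k => b.δ k * ((r k).q.graph.dist ((r k).S i) ((r k).S j) : ℝ))
      b.U (𝓝 (D (x i) (x j))) := fun i j => by
    refine net_real (fun k => mul_nonneg (b.δ_pos k).le (Nat.cast_nonneg _)) (hD.nonneg _ _) ?_
    rw [← hc]
    exact (Continuous.tendsto (f := fun c : C0 => c.1.2 i j) (by fun_prop) c).comp hl
  have hN : ∀ j : ℕ, ∃ N, j ≤ N ∧ ∀ᶠ k in (b.U : Filter ℕ), ∀ v, ∃ i ≤ N,
      b.δ k * ((r k).q.graph.dist ((r k).S i) v : ℝ) ≤ 1 / (j + 1) := fun j => by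
    have h0 : (0 : ℝ) < 1 / (j + 1) := by positivity
    obtain ⟨N, h1⟩ := iInf_lt_iff.1 (hcov.trans_lt (ENNReal.ofReal_pos.2 h0))
    refine ⟨max j N, le_max_left _ _, ?_⟩
    filter_upwards [((Continuous.tendsto (f := fun c : C0 => c.2.2 (.inl N)) (by fun_prop) c).comp
      hl).eventually (gt_mem_nhds h1)] with k hk v
    have h2 : ⨅ (i : ℕ) (_ : i ≤ N), ENNReal.ofReal
        (b.δ k * (r k).q.graph.dist ((r k).S i) v) < ENNReal.ofReal (1 / (j + 1)) :=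
      lt_of_le_of_lt (le_iSup (fun v => ⨅ (i : ℕ) (_ : i ≤ N), ENNReal.ofReal
        (b.δ k * (r k).q.graph.dist ((r k).S i) v)) v) hk
    obtain ⟨i, h3⟩ := iInf_lt_iff.1 h2
    obtain ⟨hi, h4⟩ := iInf_lt_iff.1 h3
    exact ⟨i, hi.trans (le_max_right _ _), ((ENNReal.ofReal_lt_ofReal_iff h0).1 h4).le⟩
  choose N hN1 hN2 using hN
  obtain ⟨m, hm⟩ := net_diag b.le_atTop (A := fun j k => (∀ v, ∃ i ≤ N j,
      b.δ k * ((r k).q.graph.dist ((r k).S i) v : ℝ) ≤ 1 / (j + 1)) ∧ ∀ i ∈ Iic (N j),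
      ∀ i' ∈ Iic (N j), |b.δ k * ((r k).q.graph.dist ((r k).S i) ((r k).S i') : ℝ) -
        D (x i) (x i')| ≤ 1 / (j + 1)) fun j => (hN2 j).and
    ((eventually_all_finite (finite_Iic _)).2 fun i _ => (eventually_all_finite (finite_Iic _)).2
      fun i' _ => by
        filter_upwards [(hd i i').eventually (closedBall_mem_nhds _
          (show (0 : ℝ) < 1 / (j + 1) by positivity))] with k hk
        exact hk)
  let ι : ∀ k, (r k).q.Vertex → ℕ := fun k v => Classical.epsilon fun i => i ≤ N (m k) ∧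
    b.δ k * ((r k).q.graph.dist ((r k).S i) v : ℝ) ≤ 1 / (m k + 1)
  have hι : ∀ k v, (∃ i ≤ N (m k), b.δ k * ((r k).q.graph.dist ((r k).S i) v : ℝ) ≤
      1 / (m k + 1)) → ι k v ≤ N (m k) ∧
      b.δ k * ((r k).q.graph.dist ((r k).S (ι k v)) v : ℝ) ≤ 1 / (m k + 1) :=
    fun k v h => Classical.epsilon_spec h
  have hsm : ∀ ε : ℝ, 0 < ε → ∃ j₀ : ℕ, ∀ j : ℕ, j₀ ≤ j → 1 / ((j : ℝ) + 1) ≤ ε := fun ε hε => by
    obtain ⟨j₀, h⟩ := exists_nat_one_div_lt hε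
    exact ⟨j₀, fun j hj => (Nat.one_div_le_one_div hj).trans h.le⟩
  refine ⟨fun k v => x (ι k v), hD, hx, fun ε hε => ?_, fun i => ?_⟩
  · obtain ⟨j₀, h0⟩ := hsm (ε / 3) (by positivity)
    filter_upwards [hm j₀] with k ⟨h1, h2, h3⟩ v v'
    obtain ⟨h4, h5⟩ := hι k v (h2 v)
    obtain ⟨h6, h7⟩ := hι k v' (h2 v')
    have h8 := abs_le.1 (h3 _ h4 _ h6)
    have h9 := h0 _ h1
    have hδ := (b.δ_pos k).le
    have t1 := mul_le_mul_of_nonneg_left (net_tri (r k).q v ((r k).S (ι k v)) v') hδ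
    have t2 := mul_le_mul_of_nonneg_left
      (net_tri (r k).q ((r k).S (ι k v)) ((r k).S (ι k v')) v') hδ
    have t3 := mul_le_mul_of_nonneg_left
      (net_tri (r k).q ((r k).S (ι k v)) v ((r k).S (ι k v'))) hδ
    have t4 := mul_le_mul_of_nonneg_left (net_tri (r k).q v v' ((r k).S (ι k v'))) hδ
    rw [SimpleGraph.dist_comm (u := v) (v := (r k).S (ι k v))] at t1
    rw [SimpleGraph.dist_comm (u := v') (v := (r k).S (ι k v'))] at t4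
    rw [mul_add] at t1 t2 t3 t4
    exact abs_le.2 ⟨by linarith [h8.1], by linarith [h8.2]⟩
  · refine tendsto_order.2 ⟨fun a ha => Eventually.of_forall fun k =>
      ha.trans_le (hD.nonneg _ _), fun ε hε => ?_⟩
    obtain ⟨j₀, h0⟩ := hsm (ε / 3) (by positivity)
    filter_upwards [hm (max j₀ i)] with k ⟨h1, h2, h3⟩
    obtain ⟨h4, h5⟩ := hι k _ (h2 ((r k).S i))
    have h6 := abs_le.1 (h3 _ h4 i (((le_max_right _ _).trans h1).trans (hN1 _)))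
    have h7 := h0 _ ((le_max_left _ _).trans h1)
    rw [hD.symm]
    linarith [h6.1]

/-- Integer radii at a comparable edge length. -/
theorem tendsto_floor_radius (b : Base) {δ' : ℕ → ℝ} (h0 : ∀ k, 0 < δ' k) {l : ℝ}
    (hl : Tendsto (fun k => b.δ k / δ' k) b.U (𝓝 l)) {c : ℝ} (hc : 0 ≤ c) :
    Tendsto (fun k => b.δ k * (⌊c / δ' k⌋₊ : ℝ)) b.U (𝓝 (l * c)) := by
  have h1 := hl.mul_const c
  have h2 := h1.sub b.δ_lim
  rw [sub_zero] at h2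
  refine tendsto_of_tendsto_of_tendsto_of_le_of_le h2 h1 (fun k => ?_) fun k => ?_
  · have h3 := mul_le_mul_of_nonneg_left (Nat.lt_floor_add_one (c / δ' k)).le (b.δ_pos k).le
    have e : b.δ k / δ' k * c = b.δ k * (c / δ' k) := by ring
    simp only [e]
    linarith
  · have h3 := mul_le_mul_of_nonneg_left (Nat.floor_le (div_nonneg hc (h0 k).le)) (b.δ_pos k).le
    have e : b.δ k / δ' k * c = b.δ k * (c / δ' k) := by ring
    simp only [e]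
    exact h3

theorem tendsto_floor_self (b : Base) {c : ℝ} (hc : 0 ≤ c) :
    Tendsto (fun k => b.δ k * (⌊c / b.δ k⌋₊ : ℝ)) b.U (𝓝 c) := by
  have h := tendsto_floor_radius b b.δ_pos (l := 1)
    (tendsto_const_nhds.congr fun k => (div_self (b.δ_pos k).ne').symm) hc
  rwa [one_mul] at h

theorem dEg_mono {T : Type} [Fintype T] (a π : T → T) {K K' : Set T} {C C' : List (Set T × ℝ × ℝ)}
    (hK : K ⊆ K') (hC : ∀ c ∈ C, ∃ c' ∈ C', c.1 ⊆ c'.1 ∧ c.2.1 ≤ c'.2.1 ∧ c'.2.2 ≤ c.2.2) :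
    dEg a π K C ≤ dEg a π K' C' := by
  refine le_iInf fun f => le_iInf fun h1 => le_iInf fun h2 => iInf_le_of_le f (iInf_le_of_le h1
    (iInf_le_of_le (fun c hc d hd => ?_) (ENNReal.ofReal_le_ofReal ?_)))
  · obtain ⟨c', hc', h3, h4, h5⟩ := hC c hc
    exact ⟨h4.trans (h2 c' hc' d (h3 hd)).1, (h2 c' hc' d (h3 hd)).2.trans h5⟩
  · refine mul_le_mul_of_nonneg_left (Finset.sum_le_sum fun d _ => ?_) (by norm_num)
    by_cases hd : d ∈ K ∧ a d ∈ K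
    · rw [if_pos hd, if_pos ⟨hK hd.1, hK hd.2⟩]
    · rw [if_neg hd]
      split_ifs
      exacts [sq_nonneg _, le_rfl]

/-- Primal or dual energy of planar data read through the positions. -/
noncomputable def datE (r : RZ) (p : r.q.Vertex → ℂ) (pr : Bool) (y : Data) : ℝ≥0∞ :=
  dEg r.q.α (if pr then fun d => r.q.φ (r.q.α d) else r.q.φ)
    (y.pre fun e => p (r.q.tail e)).1 (y.pre fun e => p (r.q.tail e)).2

namespace Pos

variable {b : Base} {r : ℕ → RZ} {D : Sph → Sph → ℝ} {x : ℕ → ℂ}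
  {p : ∀ k, (r k).q.Vertex → ℂ} (h : Pos b r D x p)

theorem limE_true (y : Data) : h.toF.limE y =
    liminf (fun k => nrm (b.κ k) true * datE (r k) (p k) true y) b.U := rfl

theorem limE_false (y : Data) : h.toF.dual.limE y =
    liminf (fun k => nrm (b.κ k) false * datE (r k) (p k) false y) b.U := rfl

include h

theorem smp_dist (i : ℕ) {ε : ℝ} (hε : 0 < ε) : ∀ᶠ k in (b.U : Filter ℕ), ∀ v,
    |b.δ k * (r k).q.graph.dist ((r k).S i) v - D (x i) (p k v)| ≤ ε := by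
  filter_upwards [h.dist _ (half_pos hε), (h.smp i).eventually (ge_mem_nhds (half_pos hε))]
    with k h1 h2 v
  have h3 := abs_le.1 (h1 ((r k).S i) v)
  have h4 := h.met.triangle (x i) (p k ((r k).S i)) (p k v)
  have h5 := h.met.triangle (p k ((r k).S i)) (x i) (p k v)
  rw [h.met.symm _ (x i)] at h5
  exact abs_le.2 ⟨by linarith [h3.1], by linarith [h3.2]⟩

theorem ball_up (i : ℕ) {ρ : ℕ → ℕ} {R s : ℝ}
    (hρ : Tendsto (fun k => b.δ k * (ρ k : ℝ)) b.U (𝓝 R)) (hs : R < s) :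
    ∀ᶠ k in (b.U : Filter ℕ), ∀ v, (r k).q.graph.dist ((r k).S i) v ≤ ρ k →
      D (x i) (p k v) < s := by
  filter_upwards [h.smp_dist i (half_pos (sub_pos.2 hs)),
    hρ.eventually (gt_mem_nhds (show R < (R + s) / 2 by linarith))] with k h1 h2 v hv
  have h3 := mul_le_mul_of_nonneg_left (Nat.cast_le (α := ℝ).2 hv) (b.δ_pos k).le
  linarith [(abs_le.1 (h1 v)).1]

theorem ball_down (i : ℕ) {ρ : ℕ → ℕ} {R s : ℝ}
    (hρ : Tendsto (fun k => b.δ k * (ρ k : ℝ)) b.U (𝓝 R)) (hs : s < R) :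
    ∀ᶠ k in (b.U : Filter ℕ), ∀ v, D (x i) (p k v) ≤ s →
      (r k).q.graph.dist ((r k).S i) v ≤ ρ k := by
  filter_upwards [h.smp_dist i (half_pos (sub_pos.2 hs)),
    hρ.eventually (lt_mem_nhds (show (R + s) / 2 < R by linarith))] with k h1 h2 v hv
  have h3 : b.δ k * ((r k).q.graph.dist ((r k).S i) v : ℝ) ≤ b.δ k * ρ k := by
    linarith [(abs_le.1 (h1 v)).2]
  exact Nat.cast_le (α := ℝ).1 (le_of_mul_le_mul_left h3 (b.δ_pos k))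

theorem bset_up {ρ : ℕ → ℕ × ℚ → ℕ} {R : ℕ × ℚ → ℝ} {l : List (ℕ × ℚ)} {K : Set ℂ}
    (hρ : ∀ c ∈ l, Tendsto (fun k => b.δ k * (ρ k c : ℝ)) b.U (𝓝 (R c)))
    (hK : ∀ c ∈ l, ∃ s, R c < s ∧ ∀ z : ℂ, D (x c.1) z < s → z ∈ K) :
    ∀ᶠ k in (b.U : Filter ℕ), (gmQ (r k).q).bset (r k).S (l.map fun c => (c.1, ρ k c)) ⊆
      (fun e => p k ((r k).q.tail e)) ⁻¹' K := by
  have h1 : ∀ᶠ k in (b.U : Filter ℕ), ∀ c ∈ {c | c ∈ l}, ∀ v,
      (r k).q.graph.dist ((r k).S c.1) v ≤ ρ k c → p k v ∈ K :=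
    (eventually_all_finite l.finite_toSet).2 fun c hc => by
      obtain ⟨s, h2, h3⟩ := hK c hc
      exact (h.ball_up c.1 (hρ c hc) h2).mono fun k hk v hv => h3 _ (hk v hv)
  filter_upwards [h1] with k hk e ⟨c', hc', he⟩
  obtain ⟨c, hc, rfl⟩ := List.mem_map.1 hc'
  exact hk c hc _ he

theorem bset_down {ρ : ℕ → ℕ × ℚ → ℕ} {R s : ℕ × ℚ → ℝ} {l : List (ℕ × ℚ)} {K : Set ℂ}
    (hρ : ∀ c ∈ l, Tendsto (fun k => b.δ k * (ρ k c : ℝ)) b.U (𝓝 (R c)))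
    (hs : ∀ c ∈ l, s c < R c) (hK : ∀ z ∈ K, ∃ c ∈ l, D (x c.1) z ≤ s c) :
    ∀ᶠ k in (b.U : Filter ℕ), (fun e => p k ((r k).q.tail e)) ⁻¹' K ⊆
      (gmQ (r k).q).bset (r k).S (l.map fun c => (c.1, ρ k c)) := by
  have h1 : ∀ᶠ k in (b.U : Filter ℕ), ∀ c ∈ {c | c ∈ l}, ∀ v, D (x c.1) (p k v) ≤ s c →
      (r k).q.graph.dist ((r k).S c.1) v ≤ ρ k c :=
    (eventually_all_finite l.finite_toSet).2 fun c hc => h.ball_down c.1 (hρ c hc) (hs c hc)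
  filter_upwards [h1] with k hk e he
  obtain ⟨c, hc, h2⟩ := hK _ he
  exact ⟨_, List.mem_map.2 ⟨c, hc, rfl⟩, hk c hc _ h2⟩

/-- Ball data inside planar data. -/
theorem sand_up {ρ : ℕ → ℕ × ℚ → ℕ} {R : ℕ × ℚ → ℝ} {j : BDat ℚ} {y : Data}
    (hρ : ∀ c ∈ j.balls, Tendsto (fun k => b.δ k * (ρ k c : ℝ)) b.U (𝓝 (R c)))
    (h1 : ∀ c ∈ j.1, ∃ s, R c < s ∧ ∀ z : ℂ, D (x c.1) z < s → z ∈ y.1)
    (h2 : ∀ e ∈ j.2, ∃ e' ∈ y.2, (∀ c ∈ e.1, ∃ s, R c < s ∧ ∀ z : ℂ, D (x c.1) z < s → z ∈ e'.1) ∧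
      (e.2.1 : ℝ) ≤ e'.2.1 ∧ e'.2.2 ≤ (e.2.2 : ℝ)) :
    ∀ᶠ k in (b.U : Filter ℕ), ∀ pr, (gmQ (r k).q).ballE (r k).S pr
      (j.map fun c => (c.1, ρ k c)) ≤ datE (r k) (p k) pr y := by
  have h3 : ∀ᶠ k in (b.U : Filter ℕ), ∀ e ∈ {e | e ∈ j.2}, ∃ e' ∈ y.2,
      (gmQ (r k).q).bset (r k).S (e.1.map fun c => (c.1, ρ k c)) ⊆
        (fun d => p k ((r k).q.tail d)) ⁻¹' e'.1 ∧ (e.2.1 : ℝ) ≤ e'.2.1 ∧ e'.2.2 ≤ (e.2.2 : ℝ) :=
    (eventually_all_finite j.2.finite_toSet).2 fun e he => by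
      obtain ⟨e', he', h4, h5⟩ := h2 e he
      exact (h.bset_up (fun c hc => hρ c (mem_balls_right he hc)) h4).mono
        fun k hk => ⟨e', he', hk, h5⟩
  filter_upwards [h.bset_up (fun c hc => hρ c (mem_balls_left hc)) h1, h3] with k h4 h5 pr
  refine dEg_mono (T := Fin (4 * (r k).n)) _ _ h4 fun c hc => ?_
  obtain ⟨c', hc', rfl⟩ := List.mem_map.1 hc
  obtain ⟨e, he, rfl⟩ := List.mem_map.1 hc'
  obtain ⟨e', he', h6⟩ := h5 e he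
  exact ⟨_, List.mem_map.2 ⟨e', he', rfl⟩, h6⟩

/-- Planar data covered by ball data. -/
theorem sand_down {ρ : ℕ → ℕ × ℚ → ℕ} {R s : ℕ × ℚ → ℝ} {j : BDat ℚ} {y : Data}
    (hρ : ∀ c ∈ j.balls, Tendsto (fun k => b.δ k * (ρ k c : ℝ)) b.U (𝓝 (R c)))
    (hs : ∀ c ∈ j.balls, s c < R c) (h1 : ∀ z ∈ y.1, ∃ c ∈ j.1, D (x c.1) z ≤ s c)
    (h2 : ∀ e' ∈ y.2, ∃ e ∈ j.2, (∀ z ∈ e'.1, ∃ c ∈ e.1, D (x c.1) z ≤ s c) ∧
      e'.2.1 ≤ (e.2.1 : ℝ) ∧ (e.2.2 : ℝ) ≤ e'.2.2) :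
    ∀ᶠ k in (b.U : Filter ℕ), ∀ pr, datE (r k) (p k) pr y ≤
      (gmQ (r k).q).ballE (r k).S pr (j.map fun c => (c.1, ρ k c)) := by
  have h3 : ∀ᶠ k in (b.U : Filter ℕ), ∀ e' ∈ {e | e ∈ y.2}, ∃ e ∈ j.2,
      (fun d => p k ((r k).q.tail d)) ⁻¹' e'.1 ⊆
        (gmQ (r k).q).bset (r k).S (e.1.map fun c => (c.1, ρ k c)) ∧
      e'.2.1 ≤ (e.2.1 : ℝ) ∧ (e.2.2 : ℝ) ≤ e'.2.2 :=
    (eventually_all_finite y.2.finite_toSet).2 fun e' he' => by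
      obtain ⟨e, he, h4, h5⟩ := h2 e' he'
      exact (h.bset_down (fun c hc => hρ c (mem_balls_right he hc))
        (fun c hc => hs c (mem_balls_right he hc)) h4).mono fun k hk => ⟨e, he, hk, h5⟩
  filter_upwards [h.bset_down (fun c hc => hρ c (mem_balls_left hc))
    (fun c hc => hs c (mem_balls_left hc)) h1, h3] with k h4 h5 pr
  refine dEg_mono (T := Fin (4 * (r k).n)) _ _ h4 fun c hc => ?_
  obtain ⟨e', he', rfl⟩ := List.mem_map.1 hc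
  obtain ⟨e, he, h6⟩ := h5 e' he'
  exact ⟨_, List.mem_map.2 ⟨_, List.mem_map.2 ⟨e, he, rfl⟩, rfl⟩, h6⟩

end Pos

section Balls

variable {D : Sph → Sph → ℝ} {x : ℕ → ℂ} {𝒟 : ℕ → ℕ → ℝ≥0∞}

theorem isOpen_dball (hD : IsMet D) (y : Sph) (s : ℝ) : IsOpen {z : ℂ | D y z < s} :=
  isOpen_lt ((hD.cont_right y).comp OnePoint.continuous_coe) continuous_const

/-- The whole ball of radius `4 r` is inside. -/
theorem InB.mem (hD : IsMet D) (hx : DenseRange x)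
    (h𝒟 : ∀ i j, 𝒟 i j = ENNReal.ofReal (D (x i) (x j))) {K : Set ℂ} {c : ℕ × ℚ}
    (h : InB x 𝒟 K c) {z : ℂ} (hz : D (x c.1) z < 4 * c.2) : z ∈ K := by
  obtain ⟨h0, η, h1, h2⟩ := inB_iff.1 h
  obtain ⟨a, h3, h4⟩ := hx.exists_mem_open ((isOpen_dball hD (x c.1) (4 * c.2)).inter
    (isOpen_ball (x := z) (ε := η))) ⟨z, hz, mem_ball_self h1⟩
  refine h2 a ?_ (mem_ball_comm.1 h4)
  rw [h𝒟, ENNReal.ofReal_lt_ofReal_iff (by positivity)]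
  exact h3

/-- A compact set inside an open set is covered by small balls that are inside. -/
theorem exists_cover (hD : IsMet D) (hx : DenseRange x)
    (h𝒟 : ∀ i j, 𝒟 i j = ENNReal.ofReal (D (x i) (x j))) {K O : Set ℂ} (hK : IsCompact K)
    (hO : IsOpen O) (hKO : K ⊆ O) {t : ℝ} (ht : 0 < t) :
    ∃ l : List (ℕ × ℚ), (∀ c ∈ l, InB x 𝒟 O c) ∧ ∀ z ∈ K, ∃ c ∈ l, D (x c.1) z < t * c.2 := by
  obtain ⟨η, h0, h1⟩ := hK.exists_thickening_subset_open hO hKO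
  obtain ⟨R, hR⟩ := hK.isBounded.exists_norm_le
  obtain ⟨θ, h2, h3⟩ := hD.to_eucl (R + η / 3) (η := η / 3) (by positivity)
  obtain ⟨s, h4, h5⟩ := exists_rat_btwn (show (0 : ℝ) < θ / 4 by positivity)
  have h6 : ∀ z : ℂ, ∃ a, D z (x a) < t * s ∧ x a ∈ ball z (η / 3) := fun z =>
    hx.exists_mem_open ((isOpen_dball hD z (t * s)).inter isOpen_ball)
      ⟨z, show D z z < t * s by rw [hD.self]; positivity, mem_ball_self (by positivity)⟩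
  choose a h7 h8 using h6
  obtain ⟨T, h9, h10⟩ := hK.elim_nhds_subcover (fun z => {w : ℂ | D (x (a z)) w < t * s})
    fun z _ => (isOpen_dball hD _ _).mem_nhds (show D _ _ < _ by rw [hD.symm]; exact h7 z)
  refine ⟨T.toList.map fun z => (a z, s), fun c hc => ?_, fun w hw => ?_⟩
  · obtain ⟨z, hz, rfl⟩ := List.mem_map.1 hc
    have hzK := h9 z (Finset.mem_toList.1 hz)
    refine inB_iff.2 ⟨by exact_mod_cast h4, η / 3, by positivity, fun i hi w hw => h1 ?_⟩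
    rw [h𝒟, ENNReal.ofReal_lt_ofReal_iff (by positivity)] at hi
    have e1 := mem_ball.1 (h8 z)
    have e2 : ‖x (a z)‖ ≤ R + η / 3 := by
      have := norm_le_norm_add_norm_sub' (x (a z)) z
      rw [← dist_eq_norm] at this
      linarith [hR z hzK]
    have e3 := h3 _ (x i) e2 (by linarith)
    rw [← dist_eq_norm] at e3
    refine mem_thickening_iff.2 ⟨z, hzK, ?_⟩
    linarith [dist_triangle4 w (x i) (x (a z)) z, mem_ball.1 hw]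
  · obtain ⟨z, hz, h11⟩ := mem_iUnion₂.1 (h10 hw)
    exact ⟨_, List.mem_map.2 ⟨z, Finset.mem_toList.2 hz, rfl⟩, h11⟩

theorem isOpen_isQU {K : Set ℂ} (h : IsQU K) : IsOpen K := by
  obtain ⟨s, hs, rfl⟩ := h
  refine isOpen_biUnion fun T hT => ?_
  obtain ⟨c, r, -, -, -, rfl⟩ := hs T hT
  exact isOpen_ball

/-- Ball data between compactly nested planar data. -/
theorem exists_between (hD : IsMet D) (hx : DenseRange x)
    (h𝒟 : ∀ i j, 𝒟 i j = ENNReal.ofReal (D (x i) (x j))) {y y' : Data} (h : y.Sub y')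
    (hO : IsOpen y'.1)
    (hC : ∀ e ∈ y'.2, IsOpen e.1 ∧ (∃ q : ℚ, e.2.1 = q) ∧ ∃ q : ℚ, e.2.2 = q) {t : ℝ}
    (ht : 0 < t) : ∃ j : BDat ℚ, Ins x 𝒟 y' j ∧
      (∀ z ∈ closure y.1, ∃ c ∈ j.1, D (x c.1) z < t * c.2) ∧
      ∀ e' ∈ y.2, ∃ e ∈ j.2, (∀ z ∈ closure e'.1, ∃ c ∈ e.1, D (x c.1) z < t * c.2) ∧
        e'.2.1 ≤ (e.2.1 : ℝ) ∧ (e.2.2 : ℝ) ≤ e'.2.2 := by
  obtain ⟨l, h1, h2⟩ := exists_cover hD hx h𝒟 h.1.isCompact_closure hO h.2.1 ht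
  have h3 : ∀ e' : {e // e ∈ y.2}, ∃ e : List (ℕ × ℚ) × ℚ × ℚ, (∃ e'' ∈ y'.2,
      (∀ c ∈ e.1, InB x 𝒟 (e''.1 ∩ y'.1) c) ∧ (e.2.1 : ℝ) ≤ e''.2.1 ∧ e''.2.2 ≤ (e.2.2 : ℝ)) ∧
      (∀ z ∈ closure e'.1.1, ∃ c ∈ e.1, D (x c.1) z < t * c.2) ∧
        e'.1.2.1 ≤ (e.2.1 : ℝ) ∧ (e.2.2 : ℝ) ≤ e'.1.2.2 := fun e' => by
    obtain ⟨h4, e'', h5, h6, h7, h8⟩ := h.2.2 e'.1 e'.2
    obtain ⟨h9, ⟨u, hu⟩, v, hv⟩ := hC e'' h5
    obtain ⟨l', h10, h11⟩ := exists_cover hD hx h𝒟 h4.isCompact_closure (h9.inter hO) h6 ht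
    exact ⟨(l', u, v), ⟨e'', h5, h10, hu.ge, hv.le⟩, h11, h7.trans hu.le, hv.ge.trans h8⟩
  choose g h4 h5 using h3
  refine ⟨(l, y.2.attach.map g), ⟨h1, fun e he => ?_⟩, h2, fun e' he' =>
    ⟨g ⟨e', he'⟩, List.mem_map.2 ⟨_, List.mem_attach _ _, rfl⟩, h5 ⟨e', he'⟩⟩⟩
  obtain ⟨e', -, rfl⟩ := List.mem_map.1 he
  exact h4 e'

theorem Ins.pos {y : Data} {j : BDat ℚ} (h : Ins x 𝒟 y j) {c : ℕ × ℚ} (hc : c ∈ j.balls) :
    0 < c.2 := by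
  rcases List.mem_append.1 hc with hc | hc
  · exact (h.1 c hc).1
  · obtain ⟨e, he, hc⟩ := List.mem_flatMap.1 hc
    obtain ⟨_, -, h1, -⟩ := h.2 e he
    exact (h1 c hc).1

end Balls

namespace Pos

variable {b : Base} {r : ℕ → RZ} {D : Sph → Sph → ℝ} {x : ℕ → ℂ}
  {p : ∀ k, (r k).q.Vertex → ℂ} (h : Pos b r D x p) {𝒟 : ℕ → ℕ → ℝ≥0∞}
  (h𝒟 : ∀ i j, 𝒟 i j = ENNReal.ofReal (D (x i) (x j)))

include h h𝒟

/-- Comparison for data that are inside, with radii less than four times the nominal ones. -/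
theorem ins_up {ρ : ℕ → ℕ × ℚ → ℕ} {R : ℕ × ℚ → ℝ} {j : BDat ℚ} {y : Data} (hj : Ins x 𝒟 y j)
    (hρ : ∀ c ∈ j.balls, Tendsto (fun k => b.δ k * (ρ k c : ℝ)) b.U (𝓝 (R c)))
    (hR : ∀ c ∈ j.balls, R c < 4 * c.2) :
    ∀ᶠ k in (b.U : Filter ℕ), ∀ pr, (gmQ (r k).q).ballE (r k).S pr
      (j.map fun c => (c.1, ρ k c)) ≤ datE (r k) (p k) pr y := by
  refine h.sand_up hρ (fun c hc => ⟨_, hR c (mem_balls_left hc), fun z hz =>
    (hj.1 c hc).mem h.met h.dense h𝒟 hz⟩) fun e he => ?_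
  obtain ⟨e', he', h1, h2⟩ := hj.2 e he
  exact ⟨e', he', fun c hc => ⟨_, hR c (mem_balls_right he hc), fun z hz =>
    ((h1 c hc).mem h.met h.dense h𝒟 hz).1⟩, h2⟩

theorem real_aux {E : EC} (hE : Tendsto (fun k => ecd0 (b.δ k) (b.κ k) (r k)) b.U (𝓝 E))
    (pr : Bool) : (∀ (y : Data) (j : BDat ℚ), Ins x 𝒟 y j → E (pr, j) ≤
      liminf (fun k => nrm (b.κ k) pr * datE (r k) (p k) pr y) b.U) ∧
    ∀ (y : Data) (i : Idx), y.Sub i.1 → ∃ j, Ins x 𝒟 i.1 j ∧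
      liminf (fun k => nrm (b.κ k) pr * datE (r k) (p k) pr y) b.U ≤ E (pr, j) := by
  have h1 : ∀ j : BDat ℚ, liminf (fun k => nrm (b.κ k) pr *
      (gmQ (r k).q).ballE (r k).S pr (j.toN (b.δ k))) b.U = E (pr, j) := fun j =>
    (tendsto_pi_nhds.1 hE (pr, j)).liminf_eq
  have h2 : ∀ (y : Data) (j : BDat ℚ), Ins x 𝒟 y j → ∀ c ∈ j.balls,
      Tendsto (fun k => b.δ k * (⌊(c.2 : ℝ) / b.δ k⌋₊ : ℝ)) b.U (𝓝 c.2) := fun y j hj c hc =>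
    tendsto_floor_self b (by exact_mod_cast (hj.pos hc).le)
  refine ⟨fun y j hj => ?_, fun y i hy => ?_⟩
  · rw [← h1]
    refine liminf_le_liminf ((h.ins_up h𝒟 (ρ := fun k c => ⌊(c.2 : ℝ) / b.δ k⌋₊) hj (h2 y j hj)
      fun c hc => ?_).mono fun k hk => mul_le_mul_right (hk pr) _)
    have : (0 : ℝ) < c.2 := by exact_mod_cast hj.pos hc
    linarith
  · obtain ⟨j, hj, h3, h4⟩ := exists_between h.met h.dense h𝒟 hy (isOpen_isQU i.2.1)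
      (fun e he => ⟨isOpen_isQU (i.2.2 e he).1, (i.2.2 e he).2⟩) (t := 1 / 2) (by norm_num)
    refine ⟨j, hj, ?_⟩
    rw [← h1]
    refine liminf_le_liminf ((h.sand_down (ρ := fun k c => ⌊(c.2 : ℝ) / b.δ k⌋₊)
      (s := fun c => 1 / 2 * c.2) (h2 _ j hj) (fun c hc => ?_) (fun z hz => ?_)
      fun e' he' => ?_).mono fun k hk => mul_le_mul_right (hk pr) _)
    · have : (0 : ℝ) < c.2 := by exact_mod_cast hj.pos hc
      linarith
    · obtain ⟨c, hc, h5⟩ := h3 z (subset_closure hz)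
      exact ⟨c, hc, h5.le⟩
    · obtain ⟨e, he, h5, h6⟩ := h4 e' he'
      refine ⟨e, he, fun z hz => ?_, h6⟩
      obtain ⟨c, hc, h7⟩ := h5 z (subset_closure hz)
      exact ⟨c, hc, h7.le⟩

end Pos

theorem sys_stmt : SysStmt := by
  intro b r D x p h 𝒟 E h𝒟 hE
  refine ⟨⟨fun i => ?_, fun y i hy => ?_⟩, fun i => ?_, fun y i hy => ?_⟩
  · rw [h.limE_true]
    exact iSup₂_le fun j hj => (h.real_aux h𝒟 hE true).1 _ j hj
  · obtain ⟨j, hj, h1⟩ := (h.real_aux h𝒟 hE true).2 y i hy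
    rw [h.limE_true]
    exact h1.trans (le_iSup₂ (f := fun j (_ : Ins x 𝒟 i.1 j) => E (true, j)) j hj)
  · rw [h.limE_false]
    exact iSup₂_le fun j hj => (h.real_aux h𝒟 hE false).1 _ j hj
  · obtain ⟨j, hj, h1⟩ := (h.real_aux h𝒟 hE false).2 y i hy
    rw [h.limE_false]
    exact h1.trans (le_iSup₂ (f := fun j (_ : Ins x 𝒟 i.1 j) => E (false, j)) j hj)

end Pool.Agent.QL.LC
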