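import Pool.Agent.P.MP_7a6434d8_pr.QL.C.NetA

/-! Convergence of the metric measure spaces along a net. -/

open MeasureTheory ProbabilityTheory Set Filter Topology Metric
open scoped ENNReal unitInterval

namespace Pool.Agent.QL.LC

open Pool.Agent.LGD Pool.Agent.P.MP_7a6434d8_pr Pool.Agent.P.MP_7a6434d8_pr.Mp

theorem net_card {n : ℕ} (q : Quad n) : Nat.card q.Vertex = n + 2 := by
  have h1 : Nat.card q.Vertex + n = 2 * n + 2 := q.euler
  omega

theorem net_exp {a b : ℝ} (ha : 0 ≤ a) (hb : 0 ≤ b) :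
    |Real.exp (-a) - Real.exp (-b)| ≤ |a - b| := by
  have key : ∀ a b : ℝ, 0 ≤ a → Real.exp (-a) - Real.exp (-b) ≤ |a - b| := fun a b ha => by
    have h1 := Real.add_one_le_exp (a - b)
    have h2 : Real.exp (-b) = Real.exp (-a) * Real.exp (a - b) := by
      rw [← Real.exp_add]; congr 1; ring
    have h3 : Real.exp (-a) ≤ 1 := Real.exp_le_one_iff.2 (by linarith)
    have h4 := Real.exp_pos (-a)
    have h5 := neg_abs_le (a - b)
    have h6 := abs_nonneg (a - b)
    nlinarith
  refine abs_le.2 ⟨?_, key a b ha⟩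
  have := key b a hb
  rw [abs_sub_comm] at this
  linarith

theorem net_prod {f g : ℕ → ℝ} {ε : ℝ} (hf : ∀ i, f i ∈ Icc (0 : ℝ) 1)
    (hg : ∀ i, g i ∈ Icc (0 : ℝ) 1) (l : List ℕ) (h : ∀ i ∈ l, |f i - g i| ≤ ε) :
    (l.map g).prod ∈ Icc (0 : ℝ) 1 ∧ |(l.map f).prod - (l.map g).prod| ≤ l.length * ε := by
  induction l with
  | nil => simp
  | cons i l ih =>
    obtain ⟨h1, h2⟩ := ih fun j hj => h j (List.mem_cons_of_mem _ hj)
    simp only [List.map_cons, List.prod_cons, List.length_cons]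
    refine ⟨⟨mul_nonneg (hg i).1 h1.1, mul_le_one₀ (hg i).2 h1.1 h1.2⟩, ?_⟩
    have e : f i * (l.map f).prod - g i * (l.map g).prod =
        f i * ((l.map f).prod - (l.map g).prod) + (f i - g i) * (l.map g).prod := by ring
    rw [e]
    refine (abs_add_le _ _).trans ?_
    rw [abs_mul, abs_mul, abs_of_nonneg (hf i).1, abs_of_nonneg h1.1]
    have h3 := mul_le_mul (hf i).2 h2 (abs_nonneg _) zero_le_one
    have h4 := mul_le_mul (h i List.mem_cons_self) h1.2 h1.1
      ((abs_nonneg _).trans (h i List.mem_cons_self))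
    push_cast
    linarith

theorem net_avg {T : Type} [Fintype T] [Nonempty T] {f g : T → ℝ} {ε : ℝ}
    (h : ∀ v, |f v - g v| ≤ ε) :
    |(∑ v, f v) / Nat.card T - (∑ v, g v) / Nat.card T| ≤ ε := by
  have h0 : (0 : ℝ) < Nat.card T := by exact_mod_cast Nat.card_pos
  rw [← sub_div, ← Finset.sum_sub_distrib, abs_div, abs_of_pos h0, div_le_iff₀ h0]
  refine (Finset.abs_sum_le_sum_abs _ _).trans ((Finset.sum_le_sum fun v _ => h v).trans ?_)
  rw [Finset.sum_const, Finset.card_univ, nsmul_eq_mul, Nat.card_eq_fintype_card, mul_comm]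

theorem net_int (μ : Measure ℂ) [IsFiniteMeasure μ] (g : C(Sph, ℝ)) :
    Integrable (fun z : ℂ => g z) μ :=
  Integrable.of_bound (g.continuous.comp OnePoint.continuous_coe).aestronglyMeasurable ‖g‖
    (Eventually.of_forall fun z => g.norm_coe_le_norm z)

theorem denseRange_sph {x : ℕ → ℂ} (hx : DenseRange x) : DenseRange fun i => (x i : Sph) :=
  OnePoint.denseRange_coe.comp hx OnePoint.continuous_coe

theorem exists_near {D : Sph → Sph → ℝ} (hD : IsMet D) {x : ℕ → ℂ} (hx : DenseRange x) (z : Sph)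
    {ε : ℝ} (hε : 0 < ε) : ∃ i, D (x i) z < ε := by
  obtain ⟨i, hi⟩ := (denseRange_sph hx).exists_mem_open
    (isOpen_lt (hD.cont_right z) (continuous_const (y := ε))) ⟨z, show D z z < ε by rwa [hD.self]⟩
  exact ⟨i, hD.symm _ _ ▸ hi⟩

theorem exists_net {D : Sph → Sph → ℝ} (hD : IsMet D) {x : ℕ → ℂ} (hx : DenseRange x)
    {ε : ℝ} (hε : 0 < ε) : ∃ s : Finset ℕ, ∀ z, ∃ i ∈ s, D (x i) z < ε := by
  obtain ⟨s, hs⟩ := isCompact_univ.elim_finite_subcover (fun i => {z | D (x i) z < ε})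
    (fun i => isOpen_lt (hD.cont_right _) continuous_const)
    fun z _ => mem_iUnion.2 (exists_near hD hx z hε)
  exact ⟨s, fun z => by simpa using hs (mem_univ z)⟩

namespace Pos

variable {b : Base} {r : ℕ → RZ} {D : Sph → Sph → ℝ} {x : ℕ → ℂ}
  {p : ∀ k, (r k).q.Vertex → ℂ} (h : Pos b r D x p)

include h

/-- The uniform measures on the vertices converge weakly. -/
theorem avg_tendsto (μ : Measure ℂ) [IsProbabilityMeasure μ]
    (hm : ∀ l : List ℕ, Tendsto (fun k => aux0 (b.δ k) (r k) (.inr l)) b.U (𝓝 (∫⁻ z : ℂ,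
      ENNReal.ofReal (l.map fun i => Real.exp (-D (x i) z)).prod ∂μ))) (g : C(Sph, ℝ)) :
    Tendsto (fun k => (∑ v, g (p k v)) / Nat.card (r k).q.Vertex) b.U (𝓝 (∫ z : ℂ, g z ∂μ)) := by
  let e : ℕ → C(Sph, ℝ) := fun i => ⟨fun z => Real.exp (-D (x i) z),
    Real.continuous_exp.comp (h.met.cont_right _).neg⟩
  have he : ∀ (l : List ℕ) (z : Sph),
      (l.map e).prod z = (l.map fun i => Real.exp (-D (x i) z)).prod := fun l z => by
    induction l with
    | nil => rfl
    | cons i l ih => simp only [List.map_cons, List.prod_cons, ContinuousMap.mul_apply, ih]; rfl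
  have hI : ∀ a : ℝ, 0 ≤ a → Real.exp (-a) ∈ Icc (0 : ℝ) 1 := fun a ha =>
    ⟨(Real.exp_pos _).le, Real.exp_le_one_iff.2 (by linarith)⟩
  have hpos : ∀ (l : List ℕ) (f : ℕ → ℝ), 0 ≤ (l.map fun i => Real.exp (f i)).prod :=
    fun l f => List.prod_nonneg fun a ha => by
      obtain ⟨i, -, rfl⟩ := List.mem_map.1 ha
      exact (Real.exp_pos _).le
  have h1 : ∀ l : List ℕ, Tendsto (fun k => (∑ v, (l.map e).prod (p k v)) /
      Nat.card (r k).q.Vertex) b.U (𝓝 (∫ z : ℂ, (l.map e).prod z ∂μ)) := fun l => by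
    have h2 := hm l
    have hp : ∀ z : ℂ, 0 ≤ (l.map e).prod z := fun z => by rw [he]; exact hpos _ _
    simp only [← he] at h2
    rw [← ofReal_integral_eq_lintegral_ofReal (net_int μ _) (Eventually.of_forall hp)] at h2
    have h3 := net_real (fun k => div_nonneg (Finset.sum_nonneg fun v _ => hpos _ _)
      (Nat.cast_nonneg _)) (integral_nonneg hp) h2
    refine h3.congr_dist (tendsto_order.2 ⟨fun a ha => Eventually.of_forall fun k =>
      ha.trans_le dist_nonneg, fun ε hε => ?_⟩)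
    have h0 : 0 < ε / (l.length + 1) := by positivity
    filter_upwards [(eventually_all_finite l.finite_toSet).2 fun i _ => h.smp_dist i h0] with k hk
    rw [Real.dist_eq]
    refine lt_of_le_of_lt (net_avg (ε := l.length * (ε / (l.length + 1))) fun v => ?_) ?_
    · rw [he]
      have hδ : ∀ i, 0 ≤ b.δ k * ((r k).q.graph.dist ((r k).S i) v : ℝ) := fun i =>
        mul_nonneg (b.δ_pos k).le (Nat.cast_nonneg _)
      exact (net_prod (fun i => hI _ (hδ i)) (fun i => hI _ (h.met.nonneg _ _)) l fun i hi =>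
        (net_exp (hδ i) (h.met.nonneg _ _)).trans (hk i hi v)).2
    · rw [← mul_div_assoc, div_lt_iff₀ (by positivity)]
      linarith
  have h2 : ∀ g ∈ Algebra.adjoin ℝ (range e), Tendsto (fun k => (∑ v, g (p k v)) /
      Nat.card (r k).q.Vertex) b.U (𝓝 (∫ z : ℂ, g z ∂μ)) := fun g hg => by
    rw [← Subalgebra.mem_toSubmodule, Algebra.adjoin_eq_span] at hg
    induction hg using Submodule.span_induction with
    | mem g hg =>
      have h3 : ∃ l : List ℕ, (l.map e).prod = g := by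
        induction hg using Submonoid.closure_induction with
        | mem g hg =>
          obtain ⟨i, rfl⟩ := hg
          exact ⟨[i], by simp⟩
        | one => exact ⟨[], rfl⟩
        | mul g g' _ _ ih ih' =>
          obtain ⟨l, rfl⟩ := ih
          obtain ⟨l', rfl⟩ := ih'
          exact ⟨l ++ l', by simp⟩
      obtain ⟨l, rfl⟩ := h3
      exact h1 l
    | zero => simp
    | add g g' _ _ ih ih' =>
      simp only [ContinuousMap.add_apply, Finset.sum_add_distrib, add_div,
        integral_add (net_int μ g) (net_int μ g')]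
      exact ih.add ih'
    | smul a g _ ih =>
      simp only [ContinuousMap.smul_apply, smul_eq_mul, ← Finset.mul_sum, mul_div_assoc,
        integral_const_mul]
      exact ih.const_mul a
  have h3 : (Algebra.adjoin ℝ (range e)).SeparatesPoints := fun y y' hy => by
    have h4 : 0 < D y y' := (h.met.nonneg _ _).lt_of_ne' fun e => hy ((h.met.eq_iff _ _).1 e)
    obtain ⟨i, hi⟩ := exists_near h.met h.dense y (half_pos h4)
    refine ⟨_, ⟨e i, Algebra.subset_adjoin ⟨i, rfl⟩, rfl⟩, fun h5 => ?_⟩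
    have h6 : -D (x i) y = -D (x i) y' := Real.exp_injective h5
    have h7 := h.met.triangle y (x i) y'
    rw [h.met.symm y (x i)] at h7
    linarith
  refine Metric.tendsto_nhds.2 fun ε hε => ?_
  obtain ⟨g', hg'⟩ := ContinuousMap.exists_mem_subalgebra_near_continuousMap_of_separatesPoints
    _ h3 g (ε / 3) (by positivity)
  have h4 : ∀ z, |g'.1 z - g z| ≤ ε / 3 := fun z => ((g'.1 - g).norm_coe_le_norm z).trans hg'.le
  filter_upwards [Metric.tendsto_nhds.1 (h2 g'.1 g'.2) (ε / 3) (by positivity)] with k hk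
  have h5 := abs_le.1 (net_avg (T := (r k).q.Vertex) fun v => h4 (p k v))
  have h6 : |∫ z : ℂ, g'.1 z ∂μ - ∫ z : ℂ, g z ∂μ| ≤ ε / 3 := by
    rw [← integral_sub (net_int μ _) (net_int μ _)]
    simpa using norm_integral_le_of_norm_le_const (μ := μ) (f := fun z : ℂ => g'.1 z - g z)
      (Eventually.of_forall fun z => h4 z)
  rw [Real.dist_eq, abs_lt] at hk ⊢
  constructor <;> linarith [(abs_le.1 h6).1, (abs_le.1 h6).2]

end Pos

theorem size_tendsto {b : Base} {r : ℕ → RZ} {c : C0} {s : ℝ} (hc : c.1.1 = 9 / 8 * ex (gam * s))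
    (hl : Tendsto (fun k => code0 b k (r k)) b.U (𝓝 c)) :
    Tendsto (fun k => b.δ k ^ 4 * ((r k).n : ℝ)) b.U (𝓝 (9 / 8 * Real.exp (gam * s))) := by
  refine net_real (fun k => mul_nonneg (pow_nonneg (b.δ_pos k).le _) (Nat.cast_nonneg _))
    (by positivity) ?_
  have e : ENNReal.ofReal (9 / 8 * Real.exp (gam * s)) = c.1.1 := by
    rw [hc, ENNReal.ofReal_mul (by norm_num), ENNReal.ofReal_div_of_pos (by norm_num)]
    simp [ex]
  rw [e]
  exact (Continuous.tendsto (f := fun c : C0 => c.1.1) (by fun_prop) c).comp hl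

theorem n_tendsto {b : Base} {n : ℕ → ℕ} {l : ℝ} (h0 : 0 < l)
    (h : Tendsto (fun k => b.δ k ^ 4 * (n k : ℝ)) b.U (𝓝 l)) : Tendsto n b.U atTop := by
  have h1 : Tendsto (fun k => b.δ k ^ 4) b.U (𝓝[>] 0) :=
    tendsto_nhdsWithin_iff.2 ⟨by simpa using b.δ_lim.pow 4,
      Eventually.of_forall fun k => pow_pos (b.δ_pos k) 4⟩
  refine tendsto_natCast_atTop_iff.1 ((h.pos_mul_atTop h0 (tendsto_inv_nhdsGT_zero.comp h1)).congr
    fun k => ?_)
  have := (b.δ_pos k).ne'
  simp only [Function.comp]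
  field_simp

theorem cn_ratio {b : Base} {n : ℕ → ℕ} {s : ℝ}
    (h : Tendsto (fun k => b.δ k ^ 4 * (n k : ℝ)) b.U (𝓝 (9 / 8 * Real.exp (gam * s)))) :
    Tendsto (fun k => cn (n k) / b.δ k) b.U (𝓝 (Real.exp (gam / 4 * s))⁻¹) := by
  have h1 := ((tendsto_const_nhds (x := (9 / 8 : ℝ))).div h (by positivity)).rpow_const
    (p := 1 / 4) (Or.inr (by norm_num))
  have e : (9 / 8 / (9 / 8 * Real.exp (gam * s))) ^ (1 / 4 : ℝ) = (Real.exp (gam / 4 * s))⁻¹ := by
    rw [div_mul_cancel_left₀ (by norm_num), ← Real.exp_neg, ← Real.exp_mul, ← Real.exp_neg]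
    congr 1
    ring
  rw [e] at h1
  refine h1.congr fun k => ?_
  have h2 := b.δ_pos k
  have e2 : (b.δ k ^ 4) ^ (1 / 4 : ℝ) = b.δ k := by
    have := Real.pow_rpow_inv_natCast h2.le (n := 4) (by norm_num)
    simpa using this
  simp only [Pi.div_apply]
  rw [mul_comm, ← div_div, Real.div_rpow (by positivity) (by positivity), e2, cn]

theorem geo_stmt (S : Setup) : GeoStmt S := by
  intro b r m c p hm hc hl h a
  have hd := hm.geo.isMet
  have h1 := size_tendsto (r := r) (s := m.1.1) (by rw [hc.g]; rfl) hl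
  have h2 := n_tendsto (by positivity) h1
  have h3 := cn_ratio h1
  obtain ⟨A, hA, hA0⟩ : ∃ A, Real.exp (gam / 4 * m.1.1) = A ∧ 0 < A := ⟨_, rfl, Real.exp_pos _⟩
  have hD : ∀ y y', S.D m y y' = A * S.d m.1.2 y y' := fun y y' => by rw [← hA]; rfl
  rw [hA] at h3
  refine ⟨h2, fun ε hε => ?_, fun ε hε => ?_, fun g => ?_⟩
  · obtain ⟨C, hC⟩ := hd.bdd
    have hC0 : 0 ≤ C := (hd.nonneg (m.2 0) (m.2 0)).trans (hC _ _)
    have h4 := h3.mul_const A
    rw [inv_mul_cancel₀ hA0.ne'] at h4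
    filter_upwards [h.dist (ε / 2 / (A⁻¹ + 1)) (by positivity),
      h3.eventually (ge_mem_nhds (lt_add_one _)),
      h4.eventually (closedBall_mem_nhds _ (show 0 < ε / 2 / (C + 1) by positivity))]
      with k h5 h6 h7 v v'
    have h8 := h5 v v'
    have hδ := b.δ_pos k
    have h9 : 0 ≤ cn (r k).n / b.δ k := div_nonneg (Real.rpow_nonneg (by positivity) _) hδ.le
    rw [hD] at h8
    change |cn (r k).n * ((r k).q.graph.dist v v' : ℝ) - S.d m.1.2 (p k v) (p k v')| ≤ ε
    have e : cn (r k).n * ((r k).q.graph.dist v v' : ℝ) - S.d m.1.2 (p k v) (p k v') =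
        cn (r k).n / b.δ k * (b.δ k * (r k).q.graph.dist v v' - A * S.d m.1.2 (p k v) (p k v')) +
          (cn (r k).n / b.δ k * A - 1) * S.d m.1.2 (p k v) (p k v') := by
      field_simp
      ring
    rw [e]
    refine (abs_add_le _ _).trans ?_
    rw [abs_mul, abs_mul, abs_of_nonneg h9, abs_of_nonneg (hd.nonneg _ _)]
    have h10 := mul_le_mul h6 h8 (abs_nonneg _) (by positivity)
    have h11 := mul_le_mul (show |cn (r k).n / b.δ k * A - 1| ≤ ε / 2 / (C + 1) from h7)
      ((hC (p k v) (p k v')).trans (lt_add_one C).le) (hd.nonneg _ _) (by positivity)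
    rw [mul_div_cancel₀ _ (by positivity)] at h10
    rw [div_mul_cancel₀ _ (by positivity)] at h11
    linarith
  · obtain ⟨s, hs⟩ := exists_net hd h.dense (half_pos hε)
    filter_upwards [(eventually_all_finset s).2 fun i _ =>
      (h.smp i).eventually (ge_mem_nhds (mul_pos hA0 (half_pos hε)))] with k hk z
    obtain ⟨i, hi, h4⟩ := hs z
    refine ⟨(r k).S i, ?_⟩
    have h5 := hk i hi
    rw [hD] at h5
    have h6 := le_of_mul_le_mul_left h5 hA0
    have h7 := hd.triangle z (m.2 i) (p k ((r k).S i))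
    rw [hd.symm z (m.2 i)] at h7
    change S.d m.1.2 z (p k ((r k).S i)) ≤ ε
    linarith
  · have := hm.prob
    have h4 := h.avg_tendsto (S.μ m.1.2) (fun l => by
      rw [← hc.mass]
      exact (Continuous.tendsto (f := fun c : C0 => c.2.2 (.inr l)) (by fun_prop) c).comp hl) g
    have h5 := ((tendsto_inv_atTop_zero.comp
      (tendsto_natCast_atTop_atTop (R := ℝ) |>.comp h2)).const_mul 2).const_add 1
    have h6 := h5.mul h4
    rw [mul_zero, add_zero, one_mul] at h6
    refine h6.congr' ?_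
    filter_upwards [h2.eventually (eventually_gt_atTop 0)] with k hk
    have h7 : (0 : ℝ) < (r k).n := by exact_mod_cast hk
    change _ = ((r k).n : ℝ)⁻¹ * ∑ᶠ v : (r k).q.Vertex, g (p k v)
    rw [finsum_eq_sum_of_fintype, net_card]
    simp only [Function.comp]
    push_cast
    field_simp

end Pool.Agent.QL.LC
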