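import Pool.Agent.P.MP_7a6434d8_pr.QL.C.NetB
import Pool.Agent.P.MP_7a6434d8_pr.QL.C.Hat

/-! A measurable set of realised systems carries the law of the system. -/

open MeasureTheory ProbabilityTheory Set Filter Topology Metric
open scoped ENNReal unitInterval

namespace Pool.Agent.QL.LC

open Pool.Agent.LGD Pool.Agent.P.MP_7a6434d8_pr Pool.Agent.P.MP_7a6434d8_pr.Mp

/-- The image of a set of full measure contains a measurable set that carries the image law. -/
theorem exists_meas_image {X Y : Type} [t : TopologicalSpace X] [hP : PolishSpace X]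
    [MeasurableSpace X] [hB : BorelSpace X] [TopologicalSpace Y] [T2Space Y]
    [SecondCountableTopology Y] [MeasurableSpace Y] [OpensMeasurableSpace Y] (μ : Measure X)
    [IsFiniteMeasure μ] {φ : X → Y} (hφ : Measurable φ) {T : Set X} (hT : MeasurableSet T)
    (h : ∀ᵐ x ∂μ, x ∈ T) : ∃ R : Set Y, MeasurableSet R ∧ R ⊆ φ '' T ∧ ∀ᵐ x ∂μ, φ x ∈ R := by
  obtain ⟨t', h1, h2, h3⟩ := hφ.exists_continuous
  have h4 : @BorelSpace X t' _ :=
    @BorelSpace.mk X t' _ ((@BorelSpace.measurable_eq X t _ hB).trans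
      (borel_eq_borel_of_le h3 hP h1).symm)
  have h5 : ∀ n : ℕ, ∃ K : Set X, K ⊆ T ∧ IsCompact (φ '' K) ∧ μ (T \ K) < (n : ℝ≥0∞)⁻¹ := by
    intro n
    let _ := t'
    obtain ⟨K, h6, h7, h8⟩ := hT.exists_isCompact_sdiff_lt (measure_ne_top μ T)
      (ε := (n : ℝ≥0∞)⁻¹) (ENNReal.inv_ne_zero.2 (ENNReal.natCast_ne_top n))
    exact ⟨K, h6, h7.image h2, h8⟩
  choose K h6 h7 h8 using h5
  refine ⟨⋃ n, φ '' K n, MeasurableSet.iUnion fun n => (h7 n).isClosed.measurableSet,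
    iUnion_subset fun n => image_mono (h6 n), ?_⟩
  have h9 : μ (T \ ⋃ n, K n) = 0 := le_antisymm (ge_of_tendsto' ENNReal.tendsto_inv_nat_nhds_zero
    fun n => (measure_mono (sdiff_subset_sdiff_right (subset_iUnion K n))).trans (h8 n).le) bot_le
  filter_upwards [h, measure_eq_zero_iff_ae_notMem.1 h9] with x h10 h11
  obtain ⟨n, hn⟩ := mem_iUnion.1 (not_not.1 fun h12 => h11 ⟨h10, h12⟩)
  exact mem_iUnion.2 ⟨n, x, hn, rfl⟩

/-- The distance matrix `d` is uniformly equivalent to the chordal distances of `x`. -/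
def Ext (x : ℕ → ℂ) (d : ℕ → ℕ → ℝ) : Prop :=
  (∀ i j, d i j = d j i) ∧ (∀ i j k, d i k ≤ d i j + d j k) ∧
  (∀ m : ℕ, ∃ n : ℕ, ∀ i j, chord (x i) (x j) ≤ 1 / (n + 1) → d i j ≤ 1 / (m + 1)) ∧
  (∀ m : ℕ, ∃ n : ℕ, ∀ i j, d i j ≤ 1 / (n + 1) → chord (x i) (x j) ≤ 1 / (m + 1)) ∧
  ∀ i j, 0 ≤ d i j

theorem IsMet.ext {D : Sph → Sph → ℝ} (hD : IsMet D) (x : ℕ → ℂ) :
    Ext x fun i j => D (x i) (x j) := by
  have key : ∀ {d d' : Sph → Sph → ℝ}, IsMet d → IsMet d' → ∀ m : ℕ, ∃ n : ℕ, ∀ y y',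
      d y y' ≤ 1 / (n + 1) → d' y y' ≤ 1 / (m + 1) := fun h h' m => by
    obtain ⟨θ, h1, h2⟩ := h.unif h' (ε := 1 / (m + 1)) (by positivity)
    obtain ⟨n, hn⟩ := exists_nat_one_div_lt h1
    exact ⟨n, fun y y' h3 => h2 y y' (h3.trans hn.le)⟩
  exact ⟨fun _ _ => hD.symm _ _, fun _ _ _ => hD.triangle _ _ _,
    fun m => (key isMet_chord hD m).imp fun _ h _ _ => h _ _,
    fun m => (key hD isMet_chord m).imp fun _ h _ _ => h _ _, fun _ _ => hD.nonneg _ _⟩

theorem Ext.exists_met {x : ℕ → ℂ} {d : ℕ → ℕ → ℝ} (h : Ext x d) (hx : DenseRange x) :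
    ∃ D, IsMet D ∧ ∀ i j, D (x i) (x j) = d i j := by
  obtain ⟨h1, h2, h3, h4, h5⟩ := h
  have hc := isMet_chord
  have h6 : ∀ ε : ℝ, 0 < ε → ∃ θ > 0, ∀ (y y' : Sph) i j i' j', chord (x i) y ≤ θ →
      chord (x i') y ≤ θ → chord (x j) y' ≤ θ → chord (x j') y' ≤ θ → |d i j - d i' j'| ≤ ε := by
    intro ε hε
    obtain ⟨m, hm⟩ := exists_nat_one_div_lt (half_pos hε)
    obtain ⟨n, hn⟩ := h3 m
    have h7 : ∀ (y : Sph) i i', chord (x i) y ≤ 1 / (n + 1) / 2 →
        chord (x i') y ≤ 1 / (n + 1) / 2 → d i i' ≤ ε / 2 := fun y i i' a b => by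
      refine (hn i i' ?_).trans hm.le
      have := hc.triangle (x i) y (x i')
      rw [hc.symm y] at this
      linarith
    refine ⟨1 / (n + 1) / 2, by positivity, fun y y' i j i' j' a b c e => abs_le.2 ⟨?_, ?_⟩⟩
    · linarith [h2 i' i j', h2 i j j', h7 y i' i b a, h7 y' j j' c e]
    · linarith [h2 i i' j, h2 i' j' j, h7 y i i' a b, h7 y' j' j e c]
  have h7 : ∀ (y : Sph) (m : ℕ), ∃ i, chord (x i) y < 1 / (m + 1) := fun y m =>
    exists_near hc hx y (by positivity)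
  choose a ha using h7
  have h8 : ∀ θ : ℝ, 0 < θ → ∃ N : ℕ, ∀ m ≥ N, ∀ y, chord (x (a y m)) y ≤ θ := fun θ hθ => by
    obtain ⟨N, hN⟩ := exists_nat_one_div_lt hθ
    exact ⟨N, fun m hm y => (ha y m).le.trans ((Nat.one_div_le_one_div hm).trans hN.le)⟩
  have h9 : ∀ y y', ∃ l, Tendsto (fun m => d (a y m) (a y' m)) atTop (𝓝 l) := fun y y' => by
    refine cauchySeq_tendsto_of_complete (Metric.cauchySeq_iff.2 fun ε hε => ?_)
    obtain ⟨θ, h10, h11⟩ := h6 _ (half_pos hε)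
    obtain ⟨N, hN⟩ := h8 θ h10
    exact ⟨N, fun m hm n hn => (h11 y y' _ _ _ _ (hN m hm y) (hN n hn y) (hN m hm y')
      (hN n hn y')).trans_lt (half_lt_self hε)⟩
  choose D hD using h9
  have key : ∀ ε : ℝ, 0 < ε → ∃ θ > 0, ∀ (y y' : Sph) i j, chord (x i) y ≤ θ →
      chord (x j) y' ≤ θ → |D y y' - d i j| ≤ ε := fun ε hε => by
    obtain ⟨θ, h10, h11⟩ := h6 _ hε
    obtain ⟨N, hN⟩ := h8 θ h10
    exact ⟨θ, h10, fun y y' i j b c => le_of_tendsto ((hD y y').sub_const _).abs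
      (eventually_atTop.2 ⟨N, fun m hm => h11 y y' _ _ _ _ (hN m hm y) b (hN m hm y') c⟩)⟩
  refine ⟨D, ⟨fun y y' => tendsto_nhds_unique (hD y y') ((hD y' y).congr fun m => h1 _ _),
    fun y y' y'' => le_of_tendsto_of_tendsto' (hD y y'') ((hD y y').add (hD y' y''))
      fun m => h2 _ _ _, fun y y' => ⟨fun h10 => ?_, ?_⟩, ?_⟩, fun i j => ?_⟩
  · refine (hc.eq_iff _ _).1 (le_antisymm (le_of_forall_pos_le_add fun ε hε => ?_) (hc.nonneg _ _))
    obtain ⟨m, hm⟩ := exists_nat_one_div_lt (show 0 < ε / 3 by positivity)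
    obtain ⟨n, hn⟩ := h4 m
    obtain ⟨N, hN⟩ := h8 (ε / 3) (by positivity)
    obtain ⟨k, h11, h12⟩ := (((h10 ▸ hD y y').eventually (ge_mem_nhds
      (show (0 : ℝ) < 1 / (n + 1) by positivity))).and (eventually_ge_atTop N)).exists
    have h13 := hc.triangle y (x (a y k)) y'
    rw [hc.symm y (x (a y k))] at h13
    linarith [hc.triangle (x (a y k)) (x (a y' k)) y', hn _ _ h11, hN k h12 y, hN k h12 y']
  · rintro rfl
    refine tendsto_nhds_unique (hD y y) (tendsto_const_nhds.congr fun m => ?_)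
    refine le_antisymm (h5 _ _) (le_of_forall_pos_le_add fun ε hε => ?_)
    obtain ⟨k, hk⟩ := exists_nat_one_div_lt hε
    obtain ⟨n, hn⟩ := h3 k
    have := hn (a y m) (a y m) (by rw [hc.self]; positivity)
    linarith
  · refine continuous_iff_continuousAt.2 fun z => Metric.tendsto_nhds.2 fun ε hε => ?_
    obtain ⟨θ, h10, h11⟩ := key (ε / 3) (by positivity)
    obtain ⟨i, hi⟩ := exists_near hc hx z.1 h10
    obtain ⟨j, hj⟩ := exists_near hc hx z.2 h10
    filter_upwards [(isOpen_lt ((hc.cont_right (x i)).comp continuous_fst)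
      continuous_const).mem_nhds hi, (isOpen_lt ((hc.cont_right (x j)).comp continuous_snd)
      continuous_const).mem_nhds hj] with w h12 h13
    have h14 := abs_le.1 (h11 _ _ i j hi.le hj.le)
    have h15 := abs_le.1 (h11 w.1 w.2 i j (le_of_lt h12) (le_of_lt h13))
    rw [Real.dist_eq, abs_lt]
    constructor <;> linarith [h14.1, h14.2, h15.1, h15.2]
  · refine sub_eq_zero.1 (abs_nonpos_iff.1 (le_of_forall_pos_le_add fun ε hε => ?_))
    obtain ⟨θ, h10, h11⟩ := key ε hε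
    rw [zero_add]
    exact h11 _ _ i j (by rw [hc.self]; exact h10.le) (by rw [hc.self]; exact h10.le)

theorem meas_Ext {Ω : Type} [MeasurableSpace Ω] {x : Ω → ℕ → ℂ} {d : Ω → ℕ → ℕ → ℝ}
    (hx : Measurable x) (hd : Measurable d) : Measurable fun z => Ext (x z) (d z) := by
  have h1 : ∀ i j, Measurable fun z => d z i j := fun i j => by fun_prop
  have h2 : ∀ i j, Measurable fun z => chord (x z i) (x z j) := fun i j =>
    (isMet_chord.cont.comp (OnePoint.continuous_coe.prodMap OnePoint.continuous_coe)).measurable.comp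
      (f := fun z => (x z i, x z j)) (by fun_prop)
  have h3 : ∀ {f g : Ω → ℝ}, Measurable f → Measurable g → Measurable fun z => f z ≤ g z :=
    fun hf hg => measurableSet_setOfPred.1 (measurableSet_le hf hg)
  refine Measurable.and (.forall fun i => .forall fun j => measurableSet_setOfPred.1
    (measurableSet_eq_fun (h1 i j) (h1 j i))) (.and (.forall fun i => .forall fun j =>
    .forall fun k => h3 (h1 _ _) ((h1 _ _).add (h1 _ _))) (.and ?_ (.and ?_
    (.forall fun i => .forall fun j => h3 measurable_const (h1 i j)))))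
  · exact .forall fun m => .exists fun n => .forall fun i => .forall fun j =>
      (h3 (h2 i j) measurable_const).imp (h3 (h1 i j) measurable_const)
  · exact .forall fun m => .exists fun n => .forall fun i => .forall fun j =>
      (h3 (h1 i j) measurable_const).imp (h3 (h2 i j) measurable_const)

/-- The matrix of the code is the matrix of a metric on the sphere, the samples cover. -/
def MetC (x : ℕ → ℂ) (c : C0) : Prop :=
  DenseRange x ∧ (∀ i j, c.1.2 i j ≠ ⊤) ∧ Ext x (fun i j => (c.1.2 i j).toReal) ∧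
    ⨅ N, c.2.2 (.inl N) = 0

theorem measurableSet_metC : MeasurableSet {z : (ℕ → ℂ) × C0 | MetC z.1 z.2} := by
  refine measurableSet_setOfPred.2 (Measurable.and (measurableSet_setOfPred.1
    (measurable_fst measurableSet_denseRange)) (.and (.forall fun i => .forall fun j => .not ?_)
    (.and (meas_Ext measurable_fst (by fun_prop)) ?_)))
  · exact measurableSet_setOfPred.1 (measurableSet_eq_fun (by fun_prop) measurable_const)
  · exact measurableSet_setOfPred.1 (measurableSet_eq_fun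
      (Measurable.iInf fun N => by fun_prop) measurable_const)

theorem MetC.exists_met {x : ℕ → ℂ} {c : C0} (h : MetC x c) :
    ∃ D, IsMet D ∧ ∀ i j, c.1.2 i j = ENNReal.ofReal (D (x i) (x j)) := by
  obtain ⟨D, h1, h2⟩ := h.2.2.1.exists_met h.1
  exact ⟨D, h1, fun i j => by rw [h2, ENNReal.ofReal_toReal (h.2.1 i j)]⟩

theorem Setup.GoodPt.isMet_D {S : Setup} {m : S.X} (h : S.GoodPt m) : IsMet (S.D m) := by
  have h1 := h.geo.isMet
  have h2 := Real.exp_pos (gam / 4 * m.1.1)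
  refine ⟨fun y y' => by rw [Setup.D, Setup.D, h1.symm], fun y y' y'' => ?_, fun y y' => ?_,
    continuous_const.mul h1.cont⟩
  · simp only [Setup.D, ← mul_add]
    exact mul_le_mul_of_nonneg_left (h1.triangle _ _ _) h2.le
  · rw [Setup.D, mul_eq_zero, or_iff_right h2.ne', h1.eq_iff]

theorem Setup.GoodC.dist_eq {S : Setup} {m : S.X} {c : C0} (h : S.GoodC m c) (hm : S.GoodPt m)
    (i j : ℕ) : c.1.2 i j = ENNReal.ofReal (S.D m (m.2 i) (m.2 j)) := by
  rw [h.g, Setup.D, ENNReal.ofReal_mul (Real.exp_pos _).le, ← hm.dJ]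
  rfl

theorem Setup.GoodC.metC {S : Setup} {m : S.X} {c : C0} (h : S.GoodC m c) (hm : S.GoodPt m) :
    MetC m.2 c := by
  refine ⟨hm.dense, fun i j => by rw [h.dist_eq hm]; exact ENNReal.ofReal_ne_top, ?_, h.cov⟩
  simp only [h.dist_eq hm, ENNReal.toReal_ofReal (hm.isMet_D.nonneg _ _)]
  exact IsMet.ext hm.isMet_D m.2

/-- A limit of codes with a metric matrix gives a realised system. -/
theorem MetC.realized {b : Base} {r : ℕ → RZ} {x : ℕ → ℂ} {c : C0} (h : MetC x c)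
    (hl : Tendsto (fun k => code0 b k (r k)) b.U (𝓝 c)) : Realized (sys x c.1.2 c.2.1) := by
  obtain ⟨D, h1, h2⟩ := h.exists_met
  obtain ⟨p, hp⟩ := pos_stmt b r D x c h1 h.1 h2 h.2.2.2 hl
  exact ⟨hp.toF, sys_stmt b r D x p hp _ _ h2
    ((Continuous.tendsto (f := fun c : C0 => c.2.1) (by fun_prop) c).comp hl)⟩

theorem real_stmt (S : Setup) (hG : GHStmt S) : RealStmt S := by
  intro b w Q _ hQ F
  obtain ⟨h1, h2⟩ := hG b w Q hQ
  obtain ⟨C, h3, h4, h5⟩ := hQ.supp_closed (measurable_code0 b)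
  have h6 : Measurable fun z : S.X × C0 => (z.1.2, z.2) := by fun_prop
  have h7 : Measurable fun z : (ℕ → ℂ) × C0 => pull F (sys z.1 z.2.1.2 z.2.2.1) :=
    (measurable_pull F).comp (measurable_sys.comp
      (f := fun z : (ℕ → ℂ) × C0 => (z.1, z.2.1.2, z.2.2.1)) (by fun_prop))
  have h8 : MeasurableSet {z : (ℕ → ℂ) × C0 | MetC z.1 z.2 ∧ z.2 ∈ C} :=
    measurableSet_metC.inter (measurable_snd h3.measurableSet)
  have h12 : ∀ᵐ z ∂(S.hat w.ϑ Q Prod.fst).map fun z : S.X × C0 => (z.1.2, z.2),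
      MetC z.1 z.2 ∧ z.2 ∈ C := (ae_map_iff h6.aemeasurable h8).2 (by
    filter_upwards [h2, S.ae_hat_of_ae_snd w.ϑ Q measurable_fst h1
      (show ∀ᵐ y ∂Q, y ∈ C from h4)] with z h9 h10
    exact ⟨h9.2.metC h9.1, h10⟩)
  have : BorelSpace ((ℕ → ℂ) × C0) := Prod.borelSpace
  obtain ⟨R, h9, h10, h11⟩ := exists_meas_image _ h7 h8 h12
  refine ⟨R, h9, fun s hs => ?_, ae_of_ae_map h6.aemeasurable h11⟩
  obtain ⟨z, hz, rfl⟩ := h10 hs
  obtain ⟨r, hr⟩ := h5 _ hz.2
  exact (MetC.realized hz.1 hr).pull F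

end Pool.Agent.QL.LC
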