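import Pool.Agent.P.MP_7a6434d8_pr.QL.C.RegDefs

/-! Block REG: invariance under permutations of the samples. -/

open MeasureTheory ProbabilityTheory Set Filter Topology Metric
open scoped ENNReal unitInterval

namespace Pool.Agent.QL.LC

open Pool.Agent.LGD Pool.Agent.P.MP_7a6434d8_pr Pool.Agent.P.MP_7a6434d8_pr.Mp

theorem rgp_inB (π : Equiv.Perm ℕ) (x : ℕ → ℂ) (𝒟 : ℕ → ℕ → ℝ≥0∞) (K : Set ℂ) (c : ℕ × ℚ) :
    InB (fun i => x (π i)) (fun i j => 𝒟 (π i) (π j)) K c ↔ InB x 𝒟 K (rl π c) :=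
  and_congr_right fun _ => exists_congr fun m => (π.surjective.forall (p := fun a =>
    𝒟 (π c.1) a < ENNReal.ofReal (4 * c.2) → ball (x a) (1 / (m + 1)) ⊆ K)).symm

theorem rgp_ins (π : Equiv.Perm ℕ) (x : ℕ → ℂ) (𝒟 : ℕ → ℕ → ℝ≥0∞) (y : Data) (j : BDat ℚ) :
    Ins (fun i => x (π i)) (fun i j => 𝒟 (π i) (π j)) y j ↔ Ins x 𝒟 y (j.map (rl π)) := by
  simp only [Ins, BDat.map, List.forall_mem_map, rgp_inB]

theorem rgp_surj (π : Equiv.Perm ℕ) : Function.Surjective fun j : BDat ℚ => j.map (rl π) := by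
  intro j
  have e : rl π ∘ rl π.symm = id := funext fun c => Prod.ext (π.apply_symm_apply _) rfl
  refine ⟨j.map (rl π.symm), ?_⟩
  simp only [BDat.map, List.map_map, e, List.map_id, Function.comp_def]
  simp

theorem rg_sys_perm (π : Equiv.Perm ℕ) (x : ℕ → ℂ) (𝒟 : ℕ → ℕ → ℝ≥0∞) (E : EC) :
    sys (fun i => x (π i)) (fun i j => 𝒟 (π i) (π j)) (fun y => E (y.1, y.2.map (rl π))) =
      sys x 𝒟 E := by
  have h : ∀ (pr : Bool) (i : Idx), ⨆ (j : BDat ℚ) (_ : Ins (fun i => x (π i))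
      (fun i j => 𝒟 (π i) (π j)) i.1 j), E (pr, j.map (rl π)) =
      ⨆ (j : BDat ℚ) (_ : Ins x 𝒟 i.1 j), E (pr, j) := fun pr i => by
    simp only [rgp_ins]
    exact (rgp_surj π).iSup_comp fun j => ⨆ (_ : Ins x 𝒟 i.1 j), E (pr, j)
  exact Prod.ext (funext (h true)) (funext (h false))

theorem rgp_ker {A B : Type} [MeasurableSpace A] [MeasurableSpace B]
    [MeasurableSpace.CountablyGenerated B] (ν : Measure A) [IsProbabilityMeasure ν]
    (k : Kernel A B) [IsMarkovKernel k] {T T' : A → A} {U : B → B} (hT : Measurable T)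
    (hT' : Measurable T') (hU : Measurable U) (e : ∀ a, T' (T a) = a)
    (h : (ν ⊗ₘ k).map (Prod.map T U) = ν ⊗ₘ k) :
    ν.map T = ν ∧ ∀ᵐ g ∂ν, k (T g) = (k g).map U := by
  have h1 : ν.map T = ν := by
    have h2 := congrArg (Measure.map Prod.fst) h
    rw [Measure.map_map measurable_fst (hT.prodMap hU)] at h2
    have h3 : (ν ⊗ₘ k).map Prod.fst = ν := Measure.fst_compProd _ _
    rw [h3, show Prod.fst ∘ Prod.map T U = T ∘ Prod.fst from rfl,
      ← Measure.map_map hT measurable_fst, h3] at h2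
    exact h2
  refine ⟨h1, ?_⟩
  have := Kernel.IsMarkovKernel.map k hU
  have h4 : ν ⊗ₘ k.comap T hT = ν ⊗ₘ k.map U := by
    refine Measure.ext_prod fun {s t} hs ht => ?_
    have e1 : T ⁻¹' (T' ⁻¹' s) = s := by ext a; simp [e]
    have h5 : (ν ⊗ₘ k).map (Prod.map T U) ((T' ⁻¹' s) ×ˢ t) = (ν ⊗ₘ k) ((T' ⁻¹' s) ×ˢ t) := by
      rw [h]
    rw [Measure.map_apply (hT.prodMap hU) ((hT' hs).prod ht), Set.preimage_prod_map_prod, e1,
      Measure.compProd_apply_prod hs (hU ht), Measure.compProd_apply_prod (hT' hs) ht] at h5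
    rw [Measure.compProd_apply_prod hs ht, Measure.compProd_apply_prod hs ht]
    simp only [Kernel.comap_apply, Kernel.map_apply' _ hU _ ht]
    rw [h5]
    conv_rhs => rw [← h1]
    rw [setLIntegral_map (hT' hs) (k.measurable_coe ht) hT, e1]
  filter_upwards [Kernel.ae_eq_of_compProd_eq h4] with g hg
  rw [← Kernel.map_apply _ hU, ← hg, Kernel.comap_apply]

/-- Relabelling of the distance matrix. -/
def rgpG (π : ℕ → ℕ) (g : GC) : GC := (g.1, fun i j => g.2 (π i) (π j))

/-- Relabelling of the energies. -/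
def rgpE (π : ℕ → ℕ) (E : EC) : EC := fun y => E (y.1, y.2.map (rl π))

theorem rgp_contG (π : ℕ → ℕ) : Continuous (rgpG π) := by unfold rgpG; fun_prop

theorem rgp_contE (π : ℕ → ℕ) : Continuous (rgpE π) := by unfold rgpE; fun_prop

theorem rgp_ballE (G : GM) (S : ℕ → G.X) (π : ℕ → ℕ) (δ : ℝ) (pr : Bool) (j : BDat ℚ) :
    G.ballE S pr ((j.map (rl π)).toN δ) = G.ballE (fun i => S (π i)) pr (j.toN δ) := by
  have h : ∀ l : List (ℕ × ℚ), G.bset S (l.map
      fun c : ℕ × ℚ => ((rl π c).1, ⌊((rl π c).2 : ℝ) / δ⌋₊)) =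
      G.bset (fun i => S (π i)) (l.map fun c : ℕ × ℚ => (c.1, ⌊(c.2 : ℝ) / δ⌋₊)) := fun l => by
    ext d
    simp only [GM.bset, mem_ofPred_eq, List.mem_map, exists_exists_and_eq_and, rl]
  simp only [GM.ballE, BDat.toN, BDat.map, List.map_map, Function.comp_def, h]

theorem rgp_inv {b : Base} (w : World b) (Q : Measure C0) [IsProbabilityMeasure Q]
    (hQ : w.Lim (code0 b) Q) (π : Equiv.Perm ℕ) :
    (Q.map fun c => (c.1, c.2.1)).map (Prod.map (rgpG π) (rgpE π)) =
      Q.map fun c => (c.1, c.2.1) := by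
  have hφ : Continuous fun c : C0 => (c.1, c.2.1) := by fun_prop
  have hT := (rgp_contG π).prodMap (rgp_contE π)
  have := Measure.isProbabilityMeasure_map (μ := Q) hφ.measurable.aemeasurable
  have := Measure.isProbabilityMeasure_map (μ := Q.map fun c : C0 => (c.1, c.2.1))
    hT.measurable.aemeasurable
  refine ((hQ.map hφ).map hT).unique fun G hG => ?_
  refine (hQ.map hφ G hG).congr fun k => ?_
  have m1 : Measurable fun r => G ((code0 b k r).1, (code0 b k r).2.1) :=
    G.continuous.measurable.comp (hφ.measurable.comp (measurable_code0 b k))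
  have m2 : Measurable fun r => G (Prod.map (rgpG π) (rgpE π)
      ((code0 b k r).1, (code0 b k r).2.1)) :=
    G.continuous.measurable.comp (hT.measurable.comp (hφ.measurable.comp (measurable_code0 b k)))
  rw [w.lintegral_law k m1, w.lintegral_law k m2]
  refine lintegral_congr fun s => ?_
  rw [lintegral_lawN _ m1, lintegral_lawN _ m2]
  refine lintegral_congr fun ρ => ?_
  unfold EQS
  congr 1
  refine tsum_congr fun q => ?_
  have m3 : Measurable fun S : ℕ → q.Vertex => G ((code0 b k (RZ.mk' q (ρ, S))).1,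
      (code0 b k (RZ.mk' q (ρ, S))).2.1) :=
    m1.comp ((measurable_mk' q).comp measurable_prodMk_left)
  have e : (smpl q.Vertex).map (fun S i => S (π i)) = smpl q.Vertex :=
    iid_comp_inj (uniformOn univ) π.injective
  conv_lhs => rw [← e]
  rw [lintegral_map m3 (by fun_prop)]
  refine lintegral_congr fun S => congrArg G (Prod.ext rfl (funext fun y => ?_))
  exact congrArg (nrm (b.κ k) y.1 * ·) (rgp_ballE (gmQ q) S π (b.δ k) y.1 y.2).symm

theorem rg_perm (S : Setup) {b : Base} (w : World b) (Q : Measure C0) [IsProbabilityMeasure Q]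
    (hQ : w.Lim (code0 b) Q) (hm : Q.map Prod.fst = (S.M w.ϑ).map S.ginf) (F : Fr) {E : Set Sys}
    (hE : MeasurableSet E) (π : Equiv.Perm ℕ) :
    ∀ᵐ m ∂S.M w.ϑ, S.chi Q F E (m.1, fun i => m.2 (π i)) = S.chi Q F E m := by
  have hY : Measurable fun c : C0 => c.2.1 := by fun_prop
  have := Measure.isProbabilityMeasure_map (μ := Q) measurable_fst.aemeasurable
  have h0 : Q.map Prod.fst ⊗ₘ condDistrib (fun c : C0 => c.2.1) Prod.fst Q =
      Q.map fun c => (c.1, c.2.1) := compProd_map_condDistrib hY.aemeasurable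
  have hS : ∀ (x : ℕ → ℂ) (𝒟 : ℕ → ℕ → ℝ≥0∞), MeasurableSet {e | pull F (sys x 𝒟 e) ∈ E} :=
    fun x 𝒟 => ((measurable_pull F).comp (measurable_sys.comp
      (f := fun e : EC => (x, 𝒟, e)) (by fun_prop))) hE
  obtain ⟨h1, h2⟩ := rgp_ker (Q.map Prod.fst) (condDistrib (fun c : C0 => c.2.1) Prod.fst Q)
    (rgp_contG π).measurable (rgp_contG π.symm).measurable (rgp_contE π).measurable
    (fun g => Prod.ext rfl (by funext i j; simp [rgpG])) (by rw [h0]; exact rgp_inv w Q hQ π)
  have h3 : ∀ᵐ g ∂Q.map Prod.fst, ∀ x : ℕ → ℂ, condDistrib id Prod.fst Q g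
      {c | pull F (sys x c.1.2 c.2.1) ∈ E} = condDistrib (fun c : C0 => c.2.1) Prod.fst Q g
        {e | pull F (sys x g.2 e) ∈ E} := by
    have h4 : ∀ᵐ g ∂Q.map Prod.fst, ∀ᵐ c ∂condDistrib id Prod.fst Q g, c.1 = g := by
      refine Measure.ae_ae_of_ae_compProd (p := fun z : GC × C0 => z.2.1 = z.1) ?_
      rw [compProd_map_condDistrib aemeasurable_id]
      exact (ae_map_iff (measurable_fst.prodMk measurable_id).aemeasurable
        (measurableSet_eq_fun measurable_snd.fst measurable_fst)).2 (.of_forall fun _ => rfl)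
    filter_upwards [h4, condDistrib_comp (μ := Q) Prod.fst aemeasurable_id hY] with g hg hg' x
    erw [hg']
    rw [Kernel.map_apply _ hY, Measure.map_apply hY (hS _ _)]
    refine measure_congr ?_
    filter_upwards [hg] with c hc
    subst hc
    rfl
  have h5 := h3
  rw [← h1] at h5
  replace h5 := ae_of_ae_map (rgp_contG π).measurable.aemeasurable h5
  rw [hm] at h2 h3 h5
  filter_upwards [ae_of_ae_map S.measurable_ginf.aemeasurable h2,
    ae_of_ae_map S.measurable_ginf.aemeasurable h3,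
    ae_of_ae_map S.measurable_ginf.aemeasurable h5] with m a2 a3 a5
  refine (a5 fun i => m.2 (π i)).trans (Eq.trans ?_ (a3 m.2).symm)
  rw [a2, Measure.map_apply (rgp_contE π).measurable (hS _ _)]
  congr 1
  ext e
  exact Iff.of_eq (congrArg (fun s => pull F s ∈ E) (rg_sys_perm π m.2 (S.ginf m).2 e))

end Pool.Agent.QL.LC
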