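import Pool.Agent.P.MP_7a6434d8_pr.QL.C.RegDefs

/-! Block REG: construction of the regime. -/

open MeasureTheory ProbabilityTheory Set Filter Topology Metric
open scoped ENNReal unitInterval

namespace Pool.Agent.QL.LC

open Pool.Agent.LGD Pool.Agent.P.MP_7a6434d8_pr Pool.Agent.P.MP_7a6434d8_pr.Mp

/-- a fixed admissible frame -/
def rgreg_F : Fr := ⟨(((10 : ℕ) : ℂ), 1), isQ_natCast 10, isQ_one, one_ne_zero⟩

theorem rgreg_adm : rgreg_F.Adm := by
  have h : ∀ y ∈ rgreg_F.map '' closedBall 0 4, 6 ≤ y.re := by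
    rintro _ ⟨x, hx, rfl⟩
    have h1 := (abs_le.1 ((Complex.abs_re_le_norm x).trans (mem_closedBall_zero_iff.1 hx))).1
    have h2 : rgreg_F.map x = 1 * x + ((10 : ℕ) : ℂ) := rfl
    rw [h2]
    simp only [one_mul, Complex.add_re, Complex.natCast_re]
    push_cast
    linarith
  exact ⟨fun h0 => by have := h _ h0; norm_num at this,
    fun h0 => by have := h _ h0; norm_num at this⟩

theorem rgreg_fld (S : Setup) (F : Fr) : Measurable (S.fld F) :=
  measurable_lev.comp (((S.O.kt_meas F).comp measurable_snd).prodMk measurable_fst)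

theorem rgreg_sys (S : Setup) (F : Fr) :
    Measurable fun z : S.X × C0 => pull F (S.sysOf z.1 z.2) :=
  (measurable_pull F).comp S.measurable_sysOf

section

variable (S : Setup) (ϑ : Measure ℝ) [IsProbabilityMeasure ϑ] (Q : Measure C0)
  [IsProbabilityMeasure Q] (F : Fr)

theorem rgreg_univ (m : S.X) : S.chi Q F univ m = 1 := by
  simp [Setup.chi]

theorem rgreg_hat {Φ : S.X → ℝ≥0∞} (hΦ : Measurable Φ) {E : Set Sys} (hE : MeasurableSet E) :
    ∫⁻ z, Φ z.1 * E.indicator 1 (pull F (S.sysOf z.1 z.2)) ∂S.hat ϑ Q Prod.fst =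
      ∫⁻ m, Φ m * S.chi Q F E m ∂S.M ϑ := by
  have e : ∀ z : S.X × C0, E.indicator (1 : Sys → ℝ≥0∞) (pull F (S.sysOf z.1 z.2)) =
      {z : S.X × C0 | pull F (S.sysOf z.1 z.2) ∈ E}.indicator 1 z := fun z => by
    by_cases hc : pull F (S.sysOf z.1 z.2) ∈ E <;> simp [hc]
  have hs := S.measurableSet_sysEv F hE
  have hc : ∀ m, S.chi Q F E m = condDistrib id Prod.fst Q (S.ginf m)
      (Prod.mk m ⁻¹' {z : S.X × C0 | pull F (S.sysOf z.1 z.2) ∈ E}) := fun _ => rfl
  simp only [e, hc]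
  generalize {z : S.X × C0 | pull F (S.sysOf z.1 z.2) ∈ E} = T at hs
  have m1 : Measurable fun z : S.X × C0 => T.indicator (1 : S.X × C0 → ℝ≥0∞) z :=
    measurable_one.indicator hs
  have m0 : Measurable fun z : S.X × C0 => Φ z.1 * T.indicator (1 : S.X × C0 → ℝ≥0∞) z :=
    (hΦ.comp measurable_fst).mul m1
  rw [S.lintegral_hat ϑ Q m0]
  refine lintegral_congr fun m => ?_
  rw [← lintegral_indicator_one (measurable_prodMk_left hs)]
  exact lintegral_const_mul (Φ m) (f := fun y => T.indicator 1 (m, y))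
    (m1.comp measurable_prodMk_left)

/-- the conditional law of the system given the field -/
noncomputable def rgreg_K : Kernel Dist Sys :=
  condDistrib (fun z : S.X × C0 => pull F (S.sysOf z.1 z.2)) (fun z => S.fld F z.1.1)
    (S.hat ϑ Q Prod.fst)

instance rgreg_markov : IsMarkovKernel (rgreg_K S ϑ Q F) := by
  unfold rgreg_K; infer_instance

theorem rgreg_law : (S.hat ϑ Q Prod.fst).map (fun z => S.fld F z.1.1) =
    (ϑ.prod S.P).map (S.fld F) := by
  rw [← S.M_fst ϑ, ← S.hat_fst ϑ Q (π := Prod.fst), Measure.map_map measurable_fst measurable_fst,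
    Measure.map_map (rgreg_fld S F) (measurable_fst.comp measurable_fst)]
  rfl

theorem rgreg_int {g : Dist → ℝ≥0∞} (hg : Measurable g) {E : Set Sys} (hE : MeasurableSet E) :
    ∫⁻ k, g k * rgreg_K S ϑ Q F k E ∂(ϑ.prod S.P).map (S.fld F) =
      ∫⁻ m, g (S.fld F m.1) * S.chi Q F E m ∂S.M ϑ := by
  have mX : Measurable fun z : S.X × C0 => S.fld F z.1.1 := (rgreg_fld S F).comp measurable_fst.fst
  have m1 : Measurable fun p : Dist × Sys => g p.1 * E.indicator (1 : Sys → ℝ≥0∞) p.2 :=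
    (hg.comp measurable_fst).mul ((measurable_one.indicator hE).comp measurable_snd)
  rw [← rgreg_hat S ϑ Q F (Φ := fun m => g (S.fld F m.1))
    (hg.comp ((rgreg_fld S F).comp measurable_fst)) hE, ← rgreg_law S ϑ Q F]
  have e := lintegral_map (μ := S.hat ϑ Q Prod.fst) m1 (mX.prodMk (rgreg_sys S F))
  rw [← compProd_map_condDistrib (rgreg_sys S F).aemeasurable, Measure.lintegral_compProd m1] at e
  rw [← e]
  refine lintegral_congr fun k => ?_
  rw [← lintegral_indicator_one hE]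
  exact (lintegral_const_mul _ (measurable_one.indicator hE)).symm

theorem rgreg_cd {E₁ E₂ : Set Sys} (h₁ : MeasurableSet E₁) (h₂ : MeasurableSet E₂)
    {G : Dist → ℝ≥0∞} (hG : Measurable G)
    (h : ∀ᵐ m ∂S.M ϑ, S.chi Q F E₁ m = G (S.fld F m.1) * S.chi Q F E₂ m) :
    ∀ᵐ k ∂(ϑ.prod S.P).map (S.fld F), rgreg_K S ϑ Q F k E₁ = G k * rgreg_K S ϑ Q F k E₂ := by
  refine ae_eq_of_forall_setLIntegral_eq_of_sigmaFinite (Kernel.measurable_coe _ h₁)
    (hG.mul (Kernel.measurable_coe _ h₂)) fun s hs _ => ?_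
  have i : ∀ f : Dist → ℝ≥0∞, ∫⁻ u in s, f u ∂(ϑ.prod S.P).map (S.fld F) =
      ∫⁻ u, s.indicator 1 u * f u ∂(ϑ.prod S.P).map (S.fld F) := fun f => by
    rw [← lintegral_indicator hs]
    refine lintegral_congr fun u => ?_
    by_cases hu : u ∈ s <;> simp [hu]
  rw [i, i, rgreg_int S ϑ Q F (measurable_one.indicator hs) h₁]
  simp only [← mul_assoc]
  rw [rgreg_int S ϑ Q F (g := fun k => s.indicator 1 k * G k)
    ((measurable_one.indicator hs).mul hG) h₂]
  refine lintegral_congr_ae (h.mono fun m hm => ?_)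
  simp only [hm, mul_assoc]

end

theorem rgreg_ac (S : Setup) {F : Fr} (hF : F.Adm) :
    nuh S.O.ν ≪ ((gaussianReal 0 1).prod S.P).map (S.fld F) := by
  have h := S.O.eq_ac' F hF
  have m : Measurable fun p : S.Ω × ℝ => lev (S.O.kt F p.1) p.2 :=
    measurable_lev.comp (((S.O.kt_meas F).comp measurable_fst).prodMk measurable_snd)
  rw [← Measure.prod_swap, Measure.map_map m measurable_swap] at h
  exact h

theorem rg_regime (S : Setup) (hGH : GHStmt S) (hR : RealStmt S) (b : Base)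
    (hC : ∀ U, Nice U → ∀ E, MeasurableSet[SS U] E → S.CoreAE b U E) :
    ∃ R : Regime S.O.ν, Transfer S b R := by
  obtain ⟨w, hw⟩ := exists_world b (gaussianReal 0 1)
  obtain ⟨Q, hQ, hL⟩ := w.exists_lim (measurable_code0 b)
  have ac : nuh S.O.ν ≪ (w.ϑ.prod S.P).map (S.fld rgreg_F) := hw ▸ rgreg_ac S rgreg_adm
  have one : ∀ {E : Set Sys}, MeasurableSet E → ∀ {G : Dist → ℝ≥0∞}, Measurable G →
      (∀ᵐ m ∂S.M w.ϑ, S.chi Q rgreg_F E m = G (S.fld rgreg_F m.1)) →
      ∀ᵐ k ∂nuh S.O.ν, rgreg_K S w.ϑ Q rgreg_F k E = G k := fun {E} hE G hG h => by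
    have h1 := ac.ae_le (rgreg_cd S w.ϑ Q rgreg_F hE MeasurableSet.univ hG
      (h.mono fun m hm => by rw [hm, rgreg_univ, mul_one]))
    filter_upwards [h1] with k hk
    rw [hk, measure_univ, mul_one]
  have core : ∀ {U : Set ℂ} {E : Set Sys} {G : Dist → ℝ≥0∞},
      (∀ (w : World b) (Q : Measure C0) [IsProbabilityMeasure Q], w.Lim (code0 b) Q →
      ∀ F : Fr, F.Adm → ∀ V : Set ℂ, Disjoint U V → ∀ E', MeasurableSet[SS V] E' →
        ∀ᵐ m ∂S.M w.ϑ, S.chi Q F (E ∩ E') m = G (S.fld F m.1) * S.chi Q F E' m) →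
      ∀ (w : World b) (Q : Measure C0) [IsProbabilityMeasure Q], w.Lim (code0 b) Q →
      ∀ F : Fr, F.Adm → ∀ᵐ m ∂S.M w.ϑ, S.chi Q F E m = G (S.fld F m.1) :=
    fun h w Q _ hL F hF => (h w Q hL F hF ∅ (disjoint_empty _) univ
      (@MeasurableSet.univ _ (SS ∅))).mono fun m hm => by
        rwa [inter_univ, rgreg_univ, mul_one] at hm
  refine ⟨⟨rgreg_K S w.ϑ Q rgreg_F, inferInstance, ?_, fun F hF E hE => ?_, fun U hU E hE => ?_,
    fun U V hU hUV E E' hE hE' => ?_⟩, fun E hE => ?_⟩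
  · obtain ⟨R, h1, h2, h3⟩ := hR b w Q hL rgreg_F
    have h4 := one h1.compl (G := fun _ => 0) measurable_const ((S.ae_kc h3).mono fun m hm => hm)
    filter_upwards [h4] with k hk
    filter_upwards [show ∀ᵐ s ∂rgreg_K S w.ϑ Q rgreg_F k, s ∈ R from hk] with s hs using h2 s hs
  · obtain ⟨G, h1, h2⟩ := hC U0 U0_nice E hE
    obtain ⟨h3, h4⟩ := S.O.comp rgreg_F F (rgreg_F.comp F) rgreg_adm hF (Fr.comp_map _ _)
    have h5 := (absF_qmp S.O.canon F).ae
      (one (SS_le _ _ hE) h1.measurable (core h2 w Q hL _ rgreg_adm))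
    have h6 := one (measurable_pull F (SS_le _ _ hE)) (h1.measurable.comp (measurable_absF F))
      ((core h2 w Q hL _ h3).mono fun m hm => by
        have e : S.chi Q rgreg_F (pull F ⁻¹' E) m = S.chi Q (rgreg_F.comp F) E m := by
          simp only [Setup.chi, mem_preimage, pull_comp]
        rw [e, hm]
        refine h1.eq_of_agree fun φ hφ => ?_
        simp only [Setup.fld, absF_lev', lev_apply, h4 _ φ hφ])
    filter_upwards [h5, h6] with k h7 h8
    rw [h7, h8]
    rfl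
  · obtain ⟨G, h1, h2⟩ := hC U hU E hE
    exact ⟨G, h1, one (SS_le _ _ hE) h1.measurable (core h2 w Q hL _ rgreg_adm)⟩
  · obtain ⟨G, h1, h2⟩ := hC U hU E hE
    filter_upwards [one (SS_le _ _ hE) h1.measurable (core h2 w Q hL _ rgreg_adm),
      ac.ae_le (rgreg_cd S w.ϑ Q rgreg_F ((SS_le _ _ hE).inter (SS_le _ _ hE')) (SS_le _ _ hE')
        h1.measurable (h2 w Q hL _ rgreg_adm V hUV E' hE'))] with k h3 h4
    rw [h3, h4]
  · obtain ⟨G, h1, h2⟩ := hC U0 U0_nice E hE
    refine ⟨G, h1, one (SS_le _ _ hE) h1.measurable (core h2 w Q hL _ rgreg_adm),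
      fun w' Q' _ hL' F hF Φ hΦ => ?_⟩
    have m1 : Measurable fun p => Φ p * G (S.fld F p) :=
      hΦ.mul (h1.measurable.comp (rgreg_fld S F))
    rw [rgreg_hat S w'.ϑ Q' F (Φ := fun m => Φ m.1) (hΦ.comp measurable_fst) (SS_le _ _ hE),
      ← S.M_fst w'.ϑ, lintegral_map m1 measurable_fst]
    refine lintegral_congr_ae ((core h2 w' Q' hL' F hF).mono fun m hm => ?_)
    simp only [hm]

end Pool.Agent.QL.LC
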