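import Pool.Agent.P.MP_7a6434d8_pr.QL.C.RegKey
import Pool.Agent.P.MP_7a6434d8_pr.QL.C.RegPerm
import Pool.Agent.P.MP_7a6434d8_pr.QL.C.RegReg

/-! Block REG: locality and conditional independence, and the regime. -/

open MeasureTheory ProbabilityTheory Set Filter Topology Metric
open scoped ENNReal unitInterval

namespace Pool.Agent.QL.LC

open Pool.Agent.LGD Pool.Agent.P.MP_7a6434d8_pr Pool.Agent.P.MP_7a6434d8_pr.Mp

theorem rgc_univ (S : Setup) (Q : Measure C0) [IsProbabilityMeasure Q] (F : Fr) (m : S.X) :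
    S.chi Q F univ m = 1 := measure_univ

theorem rgc_law (S : Setup) {F : Fr} (hF : F.Adm) {U : Set ℂ} (hU : Nice U) (hne : U.Nonempty) :
    ∀ᵐ ω ∂S.P, ∀ s : ℝ, (iid (S.O.κ ω)).map (fun x => thinIn U (S.xF F ((s, ω), x))) =
      iid (S.O.jk U (S.fld F (s, ω))) := by
  filter_upwards [S.O.κ_eq, S.O.prob, S.O.supp, S.O.jk_eq] with ω h1 h2 h3 h4 s
  have mF : Measurable F.inv := F.continuous_inv.measurable
  have := Measure.isProbabilityMeasure_map (μ := S.μ ω) mF.aemeasurable
  have h0 : (S.μ ω).map F.inv U ≠ 0 := by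
    rw [Measure.map_apply mF hU.1.measurableSet]
    refine (h3 _ (hU.1.preimage F.continuous_inv) ?_).ne'
    rw [← F.image_eq]
    exact hne.image _
  change _ = iid (S.O.jk U (lev (S.O.kt F ω) s))
  rw [h4 F hF U hU.1 hne hU.2.2 s, ← thin_law _ hU.1.measurableSet h0, ← iid_map _ mF, h1,
    Measure.map_map (measurable_thinIn hU.1.measurableSet) (by fun_prop)]
  rfl

theorem rgc_ring (S : Setup) (hGH : GHStmt S) {b : Base} {K : Kernel G0 EC} [IsMarkovKernel K]
    (hL : LocA b K) {U C O : Set ℂ} (hU : Nice U) (hR : Ring C O U) {E : Set Sys}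
    (hE : MeasurableSet[SS C] E) : S.CoreAE b U E := by
  have hne : U.Nonempty := hR.iC.mono (interior_subset.trans hR.CU)
  have mE := SS_le C _ hE
  have mP := rg_meas_psi K hR.cC.measurableSet mE
  have hG := rg_loc S U mP
  refine ⟨_, hG, fun w Q _ hQ F hF V hV E' hE' => ?_⟩
  have hm := (hGH b w Q hQ).1
  have mE' := SS_le V _ hE'
  refine S.ae_M_of_iter (measurableSet_eq_fun (S.measurable_chi Q F (mE.inter mE'))
    ((hG.measurable.comp ((S.measurable_fld F).comp measurable_fst)).mul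
      (S.measurable_chi Q F mE'))) ?_
  have h1 := rg_key S hL w Q hQ hm hF hU hR hV hE hE'
  have h2 := rg_key S hL w Q hQ hm hF hU hR (disjoint_empty U) hE MeasurableSet.univ
  have h3 := S.ae_M_iter ((ae_ball_iff hs_countable).2 fun π _ => rg_perm S w Q hQ hm F mE π)
  have h4 := (Measure.quasiMeasurePreserving_snd (μ := w.ϑ) (ν := S.P)).ae (rgc_law S hF hU hne)
  simp only [inter_univ, rgc_univ, mul_one] at h2
  filter_upwards [h1, h2, h3, h4] with q h1 h2 h3 h4
  have mf : Measurable fun x => S.chi Q F E (q, x) :=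
    (S.measurable_chi Q F mE).comp measurable_prodMk_left
  have h5 := hs_lintegral (S.O.κ q.2) mf fun π hπ => h3.mono fun x hx => hx π hπ
  have my : Measurable (S.yk U (S.fld F q)) :=
    ((rg_meas_yk S U).mono (sup_le_sup_right (MeasurableSpace.comap_mono (field_le U)) _)
      le_rfl).comp measurable_prodMk_left
  have mI : Measurable fun x => ∫⁻ ρ : I, rgPsi K C E (S.yk U (S.fld F q) x, ρ) :=
    Measurable.lintegral_prod_right' (f := fun z : (ℕ → ℂ) × I =>
      rgPsi K C E (S.yk U (S.fld F q) z.1, z.2)) (mP.comp (my.prodMap measurable_id))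
  have mx : Measurable fun x => thinIn U (S.xF F (q, x)) :=
    (measurable_thinIn hU.1.measurableSet).comp (measurable_pi_lambda _ fun a =>
      F.continuous_inv.measurable.comp (measurable_pi_apply a))
  have h6 : ∫⁻ x, S.chi Q F E (q, x) ∂iid (S.O.κ q.2) = ∫⁻ x, ∫⁻ ρ : I,
      rgPsi K C E (S.yk U (S.fld F q) x, ρ) ∂volume ∂iid (S.O.jk U (S.fld F q)) := by
    rw [← h4 q.1, lintegral_map mI mx]
    refine lintegral_congr_ae (h2.mono fun x hx => ?_)
    dsimp only
    rw [← lintegral_congr_ae hx, lintegral_const, measure_univ, mul_one]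
  filter_upwards [h1, h2, h5] with x h1 h2 h5
  obtain ⟨ρ, h7, h8⟩ := (h1.and h2).exists
  rw [h7, ← h8, h5, h6]

theorem rgc_empty (S : Setup) (hGH : GHStmt S) (b : Base) {E : Set Sys}
    (hE : MeasurableSet[SS ∅] E) : S.CoreAE b ∅ E := by
  refine ⟨fun _ => E.indicator 1 (0, 0), measurable_const, fun w Q _ hQ F hF V hV E' hE' => ?_⟩
  have hm := (hGH b w Q hQ).1
  filter_upwards [S.ae_kc (S.hat_ae_eq w.ϑ Q measurable_fst hm), S.ae_goodPt w.ϑ,
    S.ae_kc (S.ae_hat_of_ae_snd w.ϑ Q measurable_fst hm (rg_zero w Q hQ))] with m h1 h2 h3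
  obtain ⟨D, hD, -, e1, -⟩ := rg_frame S h2 F ∅
  have h0 : ∀ a, (S.ginf m).2 a a = 0 := fun a => by
    rw [e1]
    simp only [hD.sph_self, ENNReal.ofReal_zero]
  have h4 : ∀ᵐ c ∂condDistrib id Prod.fst Q (S.ginf m),
      sys (S.xF F m) (S.ginf m).2 c.2.1 ∈ E ↔ ((0, 0) : Sys) ∈ E :=
    h3.mono fun c hc => rg_agree hE fun i hi => rg_sys_empty h0 hc i hi
  rw [rgk_chi S Q F _ h1, rgk_chi S Q F _ h1]
  by_cases h : ((0, 0) : Sys) ∈ E
  · rw [indicator_of_mem h, Pi.one_apply, one_mul]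
    exact measure_congr (h4.mono fun c hc => propext ⟨fun h5 => h5.2, fun h5 => ⟨hc.2 h, h5⟩⟩)
  · rw [indicator_of_notMem h, zero_mul]
    exact measure_eq_zero_iff_ae_notMem.2 (h4.mono fun c hc h5 => h (hc.1 h5.1))

theorem rgc_compact (i : Idx) : IsCompact (closure i.1.1) := by
  obtain ⟨s, hs, e⟩ := i.2.1
  refine Bornology.IsBounded.isCompact_closure ?_
  rw [e]
  refine (Bornology.isBounded_biUnion_finset s).2 fun T hT => ?_
  obtain ⟨c, r, -, -, -, rfl⟩ := hs T hT
  exact isBounded_ball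

theorem rgc_tsum {A : Type} {m : MeasurableSpace A} {G : ℕ → A → ℝ≥0∞}
    (h : ∀ n, Measurable (G n)) : Measurable fun k => ∑' n, G n k := Measurable.tsum h

theorem rg_core (S : Setup) (hGH : GHStmt S) {b : Base} {K : Kernel G0 EC} [IsMarkovKernel K]
    (hL : LocA b K) (U : Set ℂ) (hU : Nice U) (E : Set Sys) (hE : MeasurableSet[SS U] E) :
    S.CoreAE b U E := by
  rcases U.eq_empty_or_nonempty with rfl | hne
  · exact rgc_empty S hGH b hE
  obtain ⟨C, hC, hR, hK⟩ := rg_gauge hU hne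
  have e : SS U = MeasurableSpace.generateFrom (⋃ n, {t | MeasurableSet[SS (C n)] t}) := by
    refine Eq.trans ?_ (MeasurableSpace.generateFrom_iUnion_measurableSet fun n => SS (C n)).symm
    refine le_antisymm (iSup₂_le fun i hi => ?_) (iSup_le fun n => ?_)
    · obtain ⟨n, hn⟩ := hK _ (rgc_compact i) hi
      exact le_iSup_of_le n (measurable_SS_pair hn).comap_le
    · obtain ⟨O, hO⟩ := hR n
      exact SS_mono hO.CU
  refine MeasurableSpace.induction_on_inter (m := SS U) (C := fun E _ => S.CoreAE b U E) e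
    (isPiSystem_iUnion_of_monotone (fun n => {t | MeasurableSet[SS (C n)] t})
      (fun n => @MeasurableSpace.isPiSystem_measurableSet _ (SS (C n)))
      fun n n' h t ht => SS_mono (hC h) _ ht) ?_ ?_ ?_ ?_ E hE
  · refine ⟨fun _ => 0, measurable_const, fun w Q _ hQ F hF V hV E' hE' => .of_forall fun m => ?_⟩
    rw [empty_inter, zero_mul]
    exact measure_empty
  · intro t ht
    obtain ⟨n, hn⟩ := mem_iUnion.1 ht
    obtain ⟨O, hO⟩ := hR n
    exact rgc_ring S hGH hL hU hO hn
  · rintro t ht ⟨G, hG, h⟩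
    refine ⟨fun k => 1 - G k, hG.const_sub 1, fun w Q _ hQ F hF V hV E' hE' => ?_⟩
    filter_upwards [h w Q hQ F hF V hV E' hE'] with m hm
    have hf : ∀ T, S.chi Q F T m ≠ ⊤ := fun T => measure_ne_top _ _
    rw [ENNReal.sub_mul fun _ _ => hf _, one_mul, ← hm]
    refine ENNReal.eq_sub_of_add_eq (hf _) ?_
    rw [add_comm, inter_comm t, inter_comm tᶜ]
    exact measure_inter_add_sdiff _ (S.measurableSet_sysEv' F (SS_le U _ ht) m)
  · intro f hd hf h
    choose G hG h using h
    refine ⟨fun k => ∑' n, G n k, rgc_tsum hG, fun w Q _ hQ F hF V hV E' hE' => ?_⟩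
    filter_upwards [ae_all_iff.2 fun n => h n w Q hQ F hF V hV E' hE'] with m hm
    rw [← ENNReal.tsum_mul_right, ← tsum_congr hm, iUnion_inter]
    have h1 := measure_iUnion (μ := condDistrib id Prod.fst Q (S.ginf m))
      (f := fun n => {c | pull F (S.sysOf m c) ∈ f n ∩ E'})
      (fun n n' hn => Set.disjoint_left.2 fun c h2 h3 => Set.disjoint_left.1 (hd hn) h2.1 h3.1)
      fun n => S.measurableSet_sysEv' F ((SS_le U _ (hf n)).inter (SS_le V _ hE')) m
    refine Eq.trans ?_ h1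
    unfold Setup.chi
    congr 1
    ext c
    simp only [mem_iUnion, mem_ofPred_eq]

theorem reg_stmt (S : Setup) (hGH : GHStmt S) (hR : RealStmt S) : RegStmt S :=
  fun b _ _ hL => rg_regime S hGH hR b (rg_core S hGH hL)

end Pool.Agent.QL.LC
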