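import Pool.Agent.P.MP_7a6434d8_pr.QL.C.Stmts
import Pool.Agent.P.MP_7a6434d8_pr.QL.W.Final

/-! From the data of the statement to a setup. -/

open MeasureTheory ProbabilityTheory Set Filter Topology Metric
open scoped ENNReal NNReal

namespace Pool.Agent.QL.LC

open Pool.Agent.LGD Pool.Agent.P.MP_7a6434d8_pr

theorem lqg_atomless {γ ξ c₀ : ℝ} (hγ : 0 < γ) (hγ2 : γ < 2) (hξ : 0 < ξ) (hc : 0 < c₀)
    {D : Dist → ℂ → ℂ → ℝ} (hD : IsLQGMetric γ ξ D) {θ : Test} {Θ : ℝ → ℂ → Test}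
    (hθ : IsMollifier θ Θ) {Ω : Type} [MeasurableSpace Ω] (P : Measure Ω) [IsProbabilityMeasure P]
    {h : Ω → Dist} (hh : IsGFF P h) {μ : Ω → Measure ℂ} (hμ : IsLQGMeasure P h γ c₀ Θ μ) :
    ∀ᵐ ω ∂P, ∀ x, μ ω {x} = 0 := by
  obtain ⟨Ω', _, S, g, X₀, rfl, rfl, hg, -, -, hml⟩ :=
    exists_setup γ ξ c₀ hγ hγ2 hξ hc D hD θ Θ hθ P h hh μ hμ
  filter_upwards [hml, hg.quasiMeasurePreserving.ae S.no_atoms] with ω hm1 hat x
  refine nonpos_iff_eq_zero.1 (ENNReal.le_of_forall_pos_le_add fun e he _ => ?_)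
  obtain ⟨r, hr, h⟩ := hat (ex (-(S.γ * X₀ ω)) * e)
    (ENNReal.mul_pos (ex_ne_zero _) (ENNReal.coe_pos.2 he).ne') (‖x‖ + 1)
  obtain ⟨T, hT, hx, -, hth⟩ := exists_isQBall_small isOpen_univ (mem_univ x) hr
  have h1 := h T hT ⟨x, hx, by rw [mem_ball_zero_iff]; linarith⟩ hth
  rw [zero_add]
  refine (measure_mono (singleton_subset_iff.2 hx)).trans ?_
  rw [hm1 T hT]
  refine (mul_le_mul_right h1 _).trans ?_
  rw [← mul_assoc, ex_mul_neg, one_mul]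

theorem target_of_setup (hs : SphStmt2) (H : ∀ S : Setup, Inputs S.P S.d S.μ) : Target := by
  refine target_of_inputs ?_
  intro c₀ hc D hD θ Θ hθ Ω mΩ P₀ P _ hP1 hP hP' h hh μ₀ hμ₀ f hf d hd μ hS hconv
  obtain ⟨O⟩ := hs c₀ hc D hD θ Θ hθ Ω P₀ P hP hP' h hh μ₀ hμ₀ f hf d hd μ hS
  have hγ : (0 : ℝ) < √(8 / 3) := Real.sqrt_pos.2 (by norm_num)
  have hγ2 : √(8 / 3 : ℝ) < 2 := by
    rw [Real.sqrt_lt' (by norm_num)]; norm_num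
  have hat := hP.ae_le (lqg_atomless hγ hγ2 (by positivity) hc hD hθ P₀ hh hμ₀)
  refine H ⟨Ω, mΩ, P, hP1, d, μ, hd, O, ?_, hconv⟩
  filter_upwards [hS, hat] with ω h1 h2 z
  obtain ⟨-, -, c, hc, -⟩ := h1
  have hac : μ ω ≪ μ₀ ω := hc ▸ withDensity_absolutelyContinuous _ _
  exact hac (h2 z)

end Pool.Agent.QL.LC
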