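import Pool.Agent.P.MP_7a6434d8_pr.QL.C.Tame
import Pool.Agent.P.MP_7a6434d8_pr.QL.C.Setup
import Pool.Agent.P.MP_7a6434d8_pr.QL.C.GH
import Pool.Agent.P.MP_7a6434d8_pr.QL.C.NetA
import Pool.Agent.P.MP_7a6434d8_pr.QL.C.NetB
import Pool.Agent.P.MP_7a6434d8_pr.QL.C.NetC
import Pool.Agent.P.MP_7a6434d8_pr.QL.C.Disc1
import Pool.Agent.P.MP_7a6434d8_pr.QL.C.Disc2
import Pool.Agent.P.MP_7a6434d8_pr.QL.C.DInv
import Pool.Agent.P.MP_7a6434d8_pr.QL.C.DClock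
import Pool.Agent.P.MP_7a6434d8_pr.QL.C.HoleMain
import Pool.Agent.P.MP_7a6434d8_pr.QL.C.LocMain
import Pool.Agent.P.MP_7a6434d8_pr.QL.C.RegCore
import Pool.Agent.P.MP_7a6434d8_pr.QL.C.N1Main
import Pool.Agent.P.MP_7a6434d8_pr.QL.C.N1SV
import Pool.Agent.P.MP_7a6434d8_pr.QL.C.Fin
import Pool.Agent.P.MP_7a6434d8_pr.QL.C.Inp
import Pool.Agent.P.MP_7a6434d8_pr.QL.C.Link
import Pool.Agent.P.MP_7a6434d8_pr.QL.NT.Final
import Pool.Agent.P.MP_7a6434d8_pr.QL.ND.Final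
import Pool.Agent.P.MP_7a6434d8_pr.QL.M1.E12
import Pool.Agent.P.MP_7a6434d8_pr.QL.M1.QV
import Pool.Agent.P.MP_7a6434d8_pr.QL.M2.Cross
import Pool.Agent.P.MP_7a6434d8_pr.QL.M2.SH
import Pool.Agent.P.MP_7a6434d8_pr.QL.M2.E1
import Pool.Agent.P.MP_7a6434d8_pr.QL.M2.E2
import Pool.Agent.P.MP_7a6434d8_pr.QL.M2.SymS
import Pool.Agent.P.MP_7a6434d8_pr.QL.M2.Ball
import Pool.Agent.P.MP_7a6434d8_pr.QL.Rsw.Final
import Pool.Agent.P.MP_7a6434d8_pr.QL.I.One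
import Pool.Agent.P.MP_7a6434d8_pr.QL.Sph.Main

/-! Assembly of all blocks. -/

namespace Pool.Agent.QL.LC

theorem target : Target := by
  refine target_of_setup sphOut2 fun S => ?_
  have hG := gh_stmt S
  have hN := netAE S hG pos_stmt
  have hA := holeAE S hN hG Ho.cross M2.e1Stmt M2.e2Stmt M1.qv
  have hP := pb S hA hG
  have hI := inv_stmt symStmt
  exact inputs_of S (disc1 M2.shStmt) (disc2_of (good_stmt M2.e1Stmt M2.e2Stmt M1.qv hI) hI)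
    (loc_stmt S Ho.hole hA hG ballStmt) (reg_stmt S hG (real_stmt S hG)) (link_stmt S hG)
    (rsw S.O.canon (ar S.O.canon)) (ident S.O.canon) sv
    (n1_stmt S Ho.hole hG hA hP sys_stmt fin_stmt)
    (fun kap h1 h2 => ND.nd kap h1 M1.e2u M1.cntBd M1.tailV h2)
    (NT.ndq_stmt Ho.hole hP M1.qv) (inp_stmt S hG pos_stmt sys_stmt (geo_stmt S))

end Pool.Agent.QL.LC
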