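import Pool.Agent.P.MP_7a6434d8_pr.QL.C.Thin

/-! Comparison of integrals through a relation with a marriage-type condition. -/

open MeasureTheory ProbabilityTheory Set Filter Topology
open scoped ENNReal

namespace Pool.Agent.QL.LC

variable {X Y : Type} [MeasurableSpace X] [MeasurableSpace Y]

/-- Every set is almost dominated by the set of its partners. -/
def Hall (u : Measure X) (μ : Measure Y) (R : X → Y → Prop) (ε : ℝ≥0∞) : Prop :=
  ∀ A : Set X, MeasurableSet A → u A ≤ μ {y | ∃ x ∈ A, R x y} + ε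

theorem gh_layer (u : Measure X) {f : X → ℝ≥0∞} (hf : Measurable f) (h1 : ∀ x, f x ≤ 1) :
    ∫⁻ x, f x ∂u = ∫⁻ t in Ioi (0 : ℝ), u {x | t < (f x).toReal} := by
  rw [← lintegral_eq_lintegral_meas_lt u (Eventually.of_forall fun _ => ENNReal.toReal_nonneg)
    hf.ennreal_toReal.aemeasurable]
  exact lintegral_congr fun x =>
    (ENNReal.ofReal_toReal (ne_top_of_le_ne_top ENNReal.one_ne_top (h1 x))).symm

theorem Hall.one {u : Measure X} {μ : Measure Y} [IsProbabilityMeasure μ] {R : X → Y → Prop}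
    {ε : ℝ≥0∞} (h : Hall u μ R ε) {f : X → ℝ≥0∞} {g : Y → ℝ≥0∞} (hf : Measurable f)
    (hg : Measurable g) (h1 : ∀ x, f x ≤ 1) {η : ℝ≥0∞} (hfg : ∀ x y, R x y → f x ≤ g y + η) :
    ∫⁻ x, f x ∂u ≤ ∫⁻ y, g y ∂μ + η + ε := by
  have hg' : Measurable fun y => min (g y + η) 1 := (hg.add_const η).min measurable_const
  have e1 : ∫⁻ y, min (g y + η) 1 ∂μ ≤ ∫⁻ y, g y ∂μ + η := by
    calc _ ≤ ∫⁻ y, g y + η ∂μ := lintegral_mono fun y => min_le_left _ _
      _ = _ := by rw [lintegral_add_right _ measurable_const]; simp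
  refine le_trans ?_ (add_le_add e1 le_rfl)
  rw [gh_layer u hf h1, gh_layer μ hg' fun y => min_le_right _ _]
  have e2 : ∫⁻ t in Ioi (0 : ℝ), (Iio (1 : ℝ)).indicator (fun _ => ε) t = ε := by
    rw [lintegral_indicator measurableSet_Iio, Measure.restrict_restrict measurableSet_Iio,
      inter_comm, Ioi_inter_Iio]
    simp
  conv_rhs => rw [← e2]
  rw [← lintegral_add_right _ (measurable_const.indicator measurableSet_Iio)]
  refine lintegral_mono fun t => ?_
  by_cases ht : t < 1
  · rw [indicator_of_mem (show t ∈ Iio (1 : ℝ) from ht)]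
    refine (h _ (measurableSet_lt measurable_const hf.ennreal_toReal)).trans
      (add_le_add (measure_mono ?_) le_rfl)
    rintro y ⟨x, hx, hR⟩
    refine lt_of_lt_of_le hx (ENNReal.toReal_mono ?_ (le_min (hfg x y hR) (h1 x)))
    exact ne_top_of_le_ne_top ENNReal.one_ne_top (min_le_right _ _)
  · have : {x | t < (f x).toReal} = ∅ := by
      refine eq_empty_of_forall_notMem fun x hx => ht (lt_of_lt_of_le hx ?_)
      simpa using ENNReal.toReal_mono ENNReal.one_ne_top (h1 x)
    rw [this, measure_empty]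
    exact bot_le

theorem gh_compl {Z : Type} [MeasurableSpace Z] (ν : Measure Z) [IsProbabilityMeasure ν]
    {f : Z → ℝ≥0∞} (hf : Measurable f) (h1 : ∀ x, f x ≤ 1) :
    ∫⁻ x, 1 - f x ∂ν + ∫⁻ x, f x ∂ν = 1 := by
  rw [← lintegral_add_right _ hf]
  simp only [tsub_add_cancel_of_le (h1 _)]
  simp

theorem gh_flip {a a' b b' c : ℝ≥0∞} (ha : a' + a = 1) (hb : b' + b = 1) (h : a' ≤ b' + c) :
    b ≤ a + c := by
  have h1 : b' ≠ ⊤ := ne_top_of_le_ne_top ENNReal.one_ne_top (hb ▸ le_self_add)
  refine (ENNReal.add_le_add_iff_left h1).1 ?_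
  calc b' + b = a' + a := by rw [ha, hb]
    _ ≤ b' + c + a := add_le_add h le_rfl
    _ = b' + (a + c) := by ring

theorem Hall.one' {u : Measure X} {μ : Measure Y} [IsProbabilityMeasure u]
    [IsProbabilityMeasure μ] {R : X → Y → Prop}
    {ε : ℝ≥0∞} (h : Hall u μ R ε) {f : X → ℝ≥0∞} {g : Y → ℝ≥0∞} (hf : Measurable f)
    (hg : Measurable g) (h1 : ∀ x, f x ≤ 1) (h2 : ∀ y, g y ≤ 1) {η : ℝ≥0∞}
    (hfg : ∀ x y, R x y → g y ≤ f x + η) : ∫⁻ y, g y ∂μ ≤ ∫⁻ x, f x ∂u + η + ε := by
  have h3 := h.one (f := fun x => 1 - f x) (g := fun y => 1 - g y) (hf.const_sub 1)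
    (hg.const_sub 1) (fun _ => tsub_le_self) (η := η) fun x y hR =>
      gh_flip (a' := g y) (b' := f x) (add_tsub_cancel_of_le (h2 y))
        (add_tsub_cancel_of_le (h1 x)) (hfg x y hR)
  rw [add_assoc] at h3 ⊢
  exact gh_flip (gh_compl u hf h1) (gh_compl μ hg h2) h3

/-- a sequence with a new first term -/
def scons {Z : Type} (p : Z × (ℕ → Z)) : ℕ → Z
  | 0 => p.1
  | n + 1 => p.2 n

theorem measurable_scons : Measurable (scons (Z := X)) :=
  measurable_pi_lambda _ fun n => by
    cases n with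
    | zero => exact measurable_fst
    | succ n => exact (measurable_pi_apply n).comp measurable_snd

theorem iid_scons (μ : Measure X) [IsProbabilityMeasure μ] :
    (μ.prod (iid μ)).map scons = iid μ := by
  classical
  refine Measure.eq_infinitePi (fun _ : ℕ => μ) fun s t ht => ?_
  obtain ⟨N, hN⟩ := s.exists_nat_subset_range
  have hN' : s ⊆ Finset.range (N + 1) := hN.trans (Finset.range_mono (Nat.le_succ N))
  obtain ⟨t', ht'⟩ : ∃ t' : ℕ → Set X, t' = fun i => if i ∈ s then t i else univ := ⟨_, rfl⟩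
  have hm : ∀ i, MeasurableSet (t' i) := fun i => by
    rw [ht']; dsimp only; split_ifs
    · exact ht i
    · exact MeasurableSet.univ
  have hs : MeasurableSet (Set.pi (s : Set ℕ) t) := .pi s.countable_toSet fun _ _ => ht _
  have e1 : scons ⁻¹' Set.pi (s : Set ℕ) t =
      t' 0 ×ˢ Set.pi (Finset.range N : Set ℕ) fun i => t' (i + 1) := by
    ext p
    simp only [mem_preimage, Set.mem_pi, Finset.mem_coe, mem_prod, Finset.mem_range, ht']
    constructor
    · intro h
      refine ⟨?_, fun i _ => ?_⟩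
      · split_ifs with h0
        · exact h 0 h0
        · trivial
      · split_ifs with h0
        · exact h (i + 1) h0
        · trivial
    · rintro ⟨h1, h2⟩ i hi
      cases i with
      | zero => rwa [if_pos hi] at h1
      | succ i =>
        have := h2 i (by simpa using hN' hi)
        rwa [if_pos hi] at this
  rw [Measure.map_apply measurable_scons hs, e1, Measure.prod_prod, iid,
    Measure.infinitePi_pi _ fun i _ => hm (i + 1), mul_comm,
    ← Finset.prod_range_succ' fun i => μ (t' i), ← Finset.prod_subset hN']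
  · exact Finset.prod_congr rfl fun i hi => by simp [ht', hi]
  · intro i _ hi
    simp [ht', hi]

theorem lintegral_iid_scons (μ : Measure X) [IsProbabilityMeasure μ] {F : (ℕ → X) → ℝ≥0∞}
    (hF : Measurable F) : ∫⁻ S, F S ∂iid μ = ∫⁻ x, ∫⁻ S, F (scons (x, S)) ∂iid μ ∂μ := by
  conv_lhs => rw [← iid_scons μ]
  rw [lintegral_map hF measurable_scons]
  exact lintegral_prod _ (hF.comp measurable_scons).aemeasurable

theorem Hall.many {u : Measure X} {μ : Measure Y} [IsProbabilityMeasure u]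
    [IsProbabilityMeasure μ] {R : X → Y → Prop} {ε : ℝ≥0∞} (h : Hall u μ R ε) {η : ℝ≥0∞}
    (N : ℕ) : ∀ {F : (ℕ → X) → ℝ≥0∞} {G : (ℕ → Y) → ℝ≥0∞}, Measurable F → Measurable G →
      (∀ S, F S ≤ 1) → (∀ S x, (∀ i < N, R (S i) (x i)) → F S ≤ G x + η) →
      ∫⁻ S, F S ∂iid u ≤ ∫⁻ x, G x ∂iid μ + η + N * ε := by
  induction N with
  | zero =>
    intro F G _ _ _ h2
    have h3 : ∀ S, F S ≤ ∫⁻ x, G x ∂iid μ + η := fun S => by
      calc F S = ∫⁻ _, F S ∂iid μ := by simp
        _ ≤ ∫⁻ x, G x + η ∂iid μ := lintegral_mono fun x => h2 S x fun i hi => absurd hi (by simp)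
        _ = _ := by rw [lintegral_add_right _ measurable_const]; simp
    calc _ ≤ ∫⁻ _, ∫⁻ x, G x ∂iid μ + η ∂iid u := lintegral_mono h3
      _ = _ := by simp
  | succ N ih =>
    intro F G hF hG h1 h2
    rw [lintegral_iid_scons u hF, lintegral_iid_scons μ hG]
    have h3 := h.one (f := fun x => ∫⁻ S, F (scons (x, S)) ∂iid u)
      (g := fun y => ∫⁻ S, G (scons (y, S)) ∂iid μ)
      (hF.comp measurable_scons).lintegral_prod_right'
      (hG.comp measurable_scons).lintegral_prod_right'
      (fun x => (lintegral_mono fun S => h1 _).trans (by simp)) (η := η + N * ε) fun x y hR => by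
        rw [← add_assoc]
        refine ih (hF.comp (measurable_scons.comp measurable_prodMk_left))
          (hG.comp (measurable_scons.comp measurable_prodMk_left)) (fun _ => h1 _)
          fun S S' hS => h2 _ _ fun i hi => ?_
        cases i with
        | zero => exact hR
        | succ i => exact hS i (Nat.lt_of_succ_lt_succ hi)
    refine h3.trans (le_of_eq ?_)
    push_cast
    ring

/-- strong law of large numbers for bounded functions of independent samples -/
theorem iid_slln (μ : Measure X) [IsProbabilityMeasure μ] {f : X → ℝ} (hf : Measurable f) {C : ℝ}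
    (hC : ∀ x, |f x| ≤ C) : ∀ᵐ S ∂iid μ,
      Tendsto (fun M : ℕ => (∑ a ∈ Finset.range M, f (S a)) / M) atTop (𝓝 (∫ x, f x ∂μ)) := by
  have hp := fun i => measurePreserving_eval_infinitePi (fun _ : ℕ => μ) i
  have hm : ∀ i, Measurable fun S : ℕ → X => f (S i) := fun i => hf.comp (measurable_pi_apply i)
  have hmap : ∀ i, (iid μ).map (fun S : ℕ → X => f (S i)) = μ.map f := fun i => by
    conv_rhs => rw [← (hp i).map_eq, Measure.map_map hf (measurable_pi_apply i)]
    rfl
  have h := strong_law_ae_real (μ := iid μ) (fun i S => f (S i))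
    (Integrable.of_bound (hm 0).aestronglyMeasurable C (Eventually.of_forall fun S => hC _))
    (fun i j hij => (iIndepFun_infinitePi (P := fun _ : ℕ => μ) fun _ => hf).indepFun hij)
    fun i => ⟨(hm i).aemeasurable, (hm 0).aemeasurable, by rw [hmap, hmap]⟩
  have e : ∫ S, f (S 0) ∂iid μ = ∫ x, f x ∂μ := by
    conv_rhs => rw [← (hp 0).map_eq, integral_map (measurable_pi_apply 0).aemeasurable
      hf.aestronglyMeasurable]
    rfl
  rw [e] at h
  exact h

/-- products of exponentials are Lipschitz -/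
theorem gh_prod_mem (l : List ℕ) {a : ℕ → ℝ} (ha : ∀ i, 0 ≤ a i) :
    0 ≤ (l.map fun i => Real.exp (-a i)).prod ∧ (l.map fun i => Real.exp (-a i)).prod ≤ 1 := by
  induction l with
  | nil => simp
  | cons i l ih =>
    rw [List.map_cons, List.prod_cons]
    have h1 : Real.exp (-a i) ≤ 1 := Real.exp_le_one_iff.2 (neg_nonpos.2 (ha i))
    exact ⟨mul_nonneg (Real.exp_pos _).le ih.1, mul_le_one₀ h1 ih.1 ih.2⟩

theorem gh_exp_le {a b θ : ℝ} (ha : 0 ≤ a) (hθ : 0 ≤ θ) (h : b ≤ a + θ) :
    Real.exp (-a) ≤ Real.exp (-b) + θ := by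
  have h1 : Real.exp (-a) ≤ 1 := Real.exp_le_one_iff.2 (neg_nonpos.2 ha)
  have h2 : Real.exp (-a) * Real.exp (-θ) ≤ Real.exp (-b) := by
    rw [← Real.exp_add]; exact Real.exp_le_exp.2 (by linarith)
  have h3 := Real.add_one_le_exp (-θ)
  nlinarith [Real.exp_pos (-a)]

theorem gh_prod_le (l : List ℕ) {a b : ℕ → ℝ} (ha : ∀ i, 0 ≤ a i) (hb : ∀ i, 0 ≤ b i) {θ : ℝ}
    (hθ : 0 ≤ θ) (h : ∀ i ∈ l, b i ≤ a i + θ) :
    (l.map fun i => Real.exp (-a i)).prod ≤ (l.map fun i => Real.exp (-b i)).prod + l.length * θ := by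
  induction l with
  | nil => simp
  | cons i l ih =>
    simp only [List.map_cons, List.prod_cons, List.length_cons, Nat.cast_succ]
    have h1 := gh_exp_le (ha i) hθ (h i List.mem_cons_self)
    have h2 := ih fun j hj => h j (List.mem_cons_of_mem _ hj)
    have h3 := gh_prod_mem l ha
    have h4 : Real.exp (-b i) ≤ 1 := Real.exp_le_one_iff.2 (neg_nonpos.2 (hb i))
    have h5 : (0 : ℝ) ≤ l.length * θ := by positivity
    have h6 := Real.exp_pos (-b i)
    nlinarith [mul_le_mul_of_nonneg_right h1 h3.1, mul_le_mul_of_nonneg_left h2 h6.le,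
      mul_le_mul_of_nonneg_right h4 h5, mul_le_mul_of_nonneg_left h3.2 hθ]

theorem gh_meas_prod {Z : Type} [MeasurableSpace Z] (l : List ℕ) {a : ℕ → Z → ℝ}
    (ha : ∀ i, Measurable (a i)) : Measurable fun z => (l.map fun i => Real.exp (-a i z)).prod := by
  induction l with
  | nil => simp
  | cons i l ih =>
    simp only [List.map_cons, List.prod_cons]
    exact (Real.measurable_exp.comp (ha i).neg).mul ih

end Pool.Agent.QL.LC
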