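import Pool.Agent.P.MP_7a6434d8_pr.QL.C.Stmts
import Pool.Agent.P.MP_7a6434d8_pr.QL.C.GHA
import Pool.Agent.P.MP_7a6434d8_pr.QL.W.GMd
import Pool.Agent.P.MP_7a6434d8_pr.QL.W.GRer
import Pool.Agent.P.MP_7a6434d8_pr.QL.W.Top

/-! Correspondences between a map and the sphere, closeness of codes. -/

open MeasureTheory ProbabilityTheory Set Filter Topology Metric
open scoped ENNReal unitInterval

namespace Pool.Agent.QL.LC

open Pool.Agent.LGD Pool.Agent.P.MP_7a6434d8_pr Pool.Agent.P.MP_7a6434d8_pr.Mp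

/-- A correspondence of small distortion that almost matches the measures. -/
structure Corr {n : ℕ} (q : Quad n) (δ : ℝ) (D : Sph → Sph → ℝ) (μ : Measure ℂ) (ε : ℝ)
    (R : q.Vertex → Sph → Prop) : Prop where
  dis : ∀ v v' z z', R v z → R v' z' → |δ * q.graph.dist v v' - D z z'| ≤ ε
  left : ∀ v, ∃ z, R v z
  right : ∀ z, ∃ v, R v z
  hall : Hall (uniformOn univ) μ (fun v (z : ℂ) => R v z) (ENNReal.ofReal ε)

variable {n : ℕ}

theorem gh_card (q : Quad n) : Nat.card q.Vertex = n + 2 := by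
  have h1 : Nat.card q.Vertex + n = 2 * n + 2 := q.euler
  omega

theorem gh_cont_sph {W : Type} [MetricSpace W] {d : Sph → Sph → ℝ} (hd : IsMet d) {ι : Sph → W}
    (h : ∀ x y, dist (ι x) (ι y) = d x y) : Continuous ι := by
  refine continuous_iff_continuousAt.2 fun x => tendsto_iff_dist_tendsto_zero.2 ?_
  simp only [dist_comm _ (ι x), h]
  rw [← hd.self x]
  exact (hd.cont_right x).tendsto x

theorem gh_unif_le (q : Quad n) {W : Type} [MetricSpace W] [MeasurableSpace W] [BorelSpace W]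
    {ι : Pt n → W} (h : ∀ x y, dist (ι x) (ι y) = mdist q x y) (A : Set q.Vertex) :
    (uniformOn univ : Measure q.Vertex) A ≤
      (vmeas q).map ι ((fun v : q.Vertex => ι (Quotient.out v, 0)) '' A) := by
  have hc : ∀ e : Fin (4 * n), Continuous fun t : I => ι (e, t) := fun e => by
    refine (LipschitzWith.of_dist_le_mul (K := (cn n).toNNReal) fun s t => ?_).continuous
    rw [h, Real.coe_toNNReal _ gmd_cn]
    exact mdist_same q e s t
  have hm : Measurable ι := measurable_from_prod_countable_right fun e => (hc e).measurable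
  have hB : MeasurableSet ((fun v : q.Vertex => ι (Quotient.out v, 0)) '' A) :=
    ((Set.toFinite A).image _).measurableSet
  rw [Measure.map_apply hm hB, vmeas, Measure.smul_apply, smul_eq_mul,
    Measure.sum_apply _ (hm hB), uniformOn_univ, ENNReal.div_eq_inv_mul]
  refine mul_le_mul' ?_ ?_
  · rw [← Nat.card_eq_fintype_card, gh_card]
    exact ENNReal.inv_le_inv.2 (by exact_mod_cast Nat.le_add_right n 2)
  · rw [Measure.count, Measure.sum_apply _ (Set.toFinite A).measurableSet]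
    refine ENNReal.tsum_le_tsum fun v => ?_
    by_cases hv : v ∈ A
    · rw [Measure.dirac_apply_of_mem hv, Measure.dirac_apply_of_mem]
      exact ⟨v, hv, rfl⟩
    · rw [Measure.dirac_apply' _ (Set.toFinite A).measurableSet, indicator_of_notMem hv]
      exact bot_le

theorem corr_of_gh (q : Quad n) {d : Sph → Sph → ℝ} (hd : IsMet d) (μ : Measure ℂ) {e : ℝ}
    (he : 0 < e)
    (h : gh (mdist q) (vmeas q) d (μ.map (↑)) (fun _ => 0) < ENNReal.ofReal e) :
    ∃ R, Corr q (cn n) d μ (2 * e + 6 * cn n) R := by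
  simp only [gh, iInf_lt_iff] at h
  obtain ⟨W, _, _, _, ι, ι', h1, h2, h3⟩ := h
  rw [add_zero] at h3
  have hH := lt_of_le_of_lt le_self_add h3
  have hP := lt_of_le_of_lt le_add_self h3
  have hc : 0 ≤ cn n := gmd_cn
  have hm' : Measurable ι' := (gh_cont_sph hd h2).measurable
  refine ⟨fun v z => dist (ι (Quotient.out v, 0)) (ι' z) < e + 2 * cn n, ?_, fun v => ?_,
    fun z => ?_, fun A _ => ?_⟩
  · intro v v' z z' a b
    have h4 := mdist_tail q (Quotient.out v, 0) (Quotient.out v', 0)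
    simp only [tail_out] at h4
    rw [← h1] at h4
    rw [← h2]
    have h5 := dist_dist_dist_le (ι (Quotient.out v, 0)) (ι (Quotient.out v', 0)) (ι' z) (ι' z')
    rw [Real.dist_eq] at h5
    rw [abs_le] at h4 h5 ⊢
    constructor <;> linarith [h4.1, h4.2, h5.1, h5.2]
  · obtain ⟨_, ⟨z, rfl⟩, hz⟩ := exists_edist_lt_of_hausdorffEDist_lt
      (mem_range_self (f := ι) (Quotient.out v, 0)) hH
    rw [edist_dist, ENNReal.ofReal_lt_ofReal_iff he] at hz
    exact ⟨z, by linarith⟩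
  · rw [hausdorffEDist_comm] at hH
    obtain ⟨_, ⟨x, rfl⟩, hx⟩ := exists_edist_lt_of_hausdorffEDist_lt (mem_range_self (f := ι') z) hH
    rw [edist_dist, ENNReal.ofReal_lt_ofReal_iff he, dist_comm] at hx
    have h4 := mdist_tail q (Quotient.out (q.tail x.1), 0) x
    simp only [tail_out, SimpleGraph.dist_self, Nat.cast_zero, mul_zero, sub_zero] at h4
    rw [← h1] at h4
    exact ⟨q.tail x.1, by
      linarith [dist_triangle (ι (Quotient.out (q.tail x.1), 0)) (ι x) (ι' z), (abs_le.1 h4).2]⟩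
  · refine (gh_unif_le q h1 A).trans ((left_measure_le_of_levyProkhorovEDist_lt hP
      ((Set.toFinite A).image _).measurableSet).trans (add_le_add ?_
        (ENNReal.ofReal_le_ofReal (by linarith))))
    rw [Measure.map_map hm' measurable_coe_sph, Measure.map_apply (hm'.comp measurable_coe_sph)
      isOpen_thickening.measurableSet, ENNReal.toReal_ofReal he.le]
    refine measure_mono fun z hz => ?_
    obtain ⟨_, ⟨v, hv, rfl⟩, h5⟩ := mem_thickening_iff.1 hz
    rw [dist_comm] at h5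
    exact ⟨v, hv, lt_of_lt_of_le h5 (by linarith)⟩

theorem Corr.iso {q q' : Quad n} (hq : Quad.Iso q q') {δ ε : ℝ} {D : Sph → Sph → ℝ}
    {μ : Measure ℂ} {R : q'.Vertex → Sph → Prop} (h : Corr q' δ D μ ε R) :
    ∃ R', Corr q δ D μ ε R' := by
  obtain ⟨ψ, h1, h2, -⟩ := hq
  obtain ⟨e, he⟩ : ∃ e : q.Vertex ≃ q'.Vertex, ∀ x y, q'.graph.dist (e x) (e y) = q.graph.dist x y :=
    ⟨xrerootV q q' ψ h1 h2, xreroot_dist (xrerootG q q' ψ h1 h2)⟩
  refine ⟨fun v z => R (e v) z, fun v v' z z' a b => he v v' ▸ h.dis _ _ _ _ a b,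
    fun v => h.left _, fun z => ?_, fun A _ => ?_⟩
  · obtain ⟨v, hv⟩ := h.right z
    exact ⟨e.symm v, by simpa using hv⟩
  · have h3 : (uniformOn univ : Measure q.Vertex) A =
        (uniformOn univ : Measure q'.Vertex) (e '' A) := by
      rw [uniformOn_univ, uniformOn_univ, Measure.count_apply (Set.toFinite _).measurableSet,
        Measure.count_apply (Set.toFinite _).measurableSet, e.injective.encard_image,
        Fintype.card_congr e]
    rw [h3]
    refine (h.hall _ (Set.toFinite _).measurableSet).trans (add_le_add (measure_mono ?_) le_rfl)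
    rintro z ⟨_, ⟨v, hv, rfl⟩, hz⟩
    exact ⟨v, hv, hz⟩

theorem Corr.scale {q : Quad n} {δ ε ε' c c' K : ℝ} {d : Sph → Sph → ℝ} {μ : Measure ℂ}
    {R : q.Vertex → Sph → Prop} (h : Corr q δ d μ ε R) (hc : 0 ≤ c) (h0 : ∀ x y, 0 ≤ d x y)
    (hK : ∀ x y, d x y ≤ K) (h1 : c * ε + |c - c'| * K ≤ ε') (h2 : ε ≤ ε') :
    Corr q (c * δ) (fun x y => c' * d x y) μ ε' R := by
  refine ⟨fun v v' z z' a b => ?_, h.left, h.right, fun A hA =>
    (h.hall A hA).trans (add_le_add le_rfl (ENNReal.ofReal_le_ofReal h2))⟩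
  have h3 := h.dis _ _ _ _ a b
  calc _ = |c * (δ * q.graph.dist v v' - d z z') + (c - c') * d z z'| := by congr 1; ring
    _ ≤ c * ε + |c - c'| * K := by
      refine (abs_add_le _ _).trans (add_le_add ?_ ?_)
      · rw [abs_mul, abs_of_nonneg hc]
        exact mul_le_mul_of_nonneg_left h3 hc
      · rw [abs_mul, abs_of_nonneg (h0 _ _)]
        exact mul_le_mul_of_nonneg_left (hK _ _) (abs_nonneg _)
    _ ≤ ε' := h1

/-- the geometric part of the basic code -/
abbrev YY : Type := GC × (ℕ ⊕ List ℕ → ℝ≥0∞)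

/-- two-sided closeness -/
def GNear (τ a b : ℝ≥0∞) : Prop := a ≤ b + τ ∧ b ≤ a + τ

/-- closeness of the first coordinates -/
structure GCl (N : ℕ) (τ : ℝ≥0∞) (y y' : YY) : Prop where
  lam : GNear τ y.1.1 y'.1.1
  dist : ∀ i ≤ N, ∀ j ≤ N, GNear τ (y.1.2 i j) (y'.1.2 i j)
  cov : ∀ M ≤ N, GNear τ (y.2 (.inl M)) (y'.2 (.inl M))
  mass : ∀ l : List ℕ, l.length ≤ N → (∀ i ∈ l, i ≤ N) → GNear τ (y.2 (.inr l)) (y'.2 (.inr l))

theorem GNear.mono {τ τ' a b : ℝ≥0∞} (h : GNear τ a b) (hτ : τ ≤ τ') : GNear τ' a b :=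
  ⟨h.1.trans (add_le_add le_rfl hτ), h.2.trans (add_le_add le_rfl hτ)⟩

theorem near_ofReal {a b ε : ℝ} (h : |a - b| ≤ ε) :
    GNear (ENNReal.ofReal ε) (ENNReal.ofReal a) (ENNReal.ofReal b) :=
  ⟨(ENNReal.ofReal_le_ofReal (by linarith [(abs_le.1 h).2])).trans ENNReal.ofReal_add_le,
    (ENNReal.ofReal_le_ofReal (by linarith [(abs_le.1 h).1])).trans ENNReal.ofReal_add_le⟩

theorem near_eq {a b : ℝ≥0∞} (M : ℕ) (h : ∀ N, M ≤ N → GNear ((N : ℝ≥0∞) + 1)⁻¹ a b) : a = b := by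
  have key : ∀ {a b : ℝ≥0∞}, (∀ N, M ≤ N → a ≤ b + ((N : ℝ≥0∞) + 1)⁻¹) → a ≤ b := by
    intro a b h
    have h1 : Tendsto (fun N : ℕ => b + ((N : ℝ≥0∞) + 1)⁻¹) atTop (𝓝 (b + 0)) := by
      refine tendsto_const_nhds.add ?_
      have := ENNReal.tendsto_inv_nat_nhds_zero.comp (tendsto_add_atTop_nat 1)
      simpa [Function.comp_def] using this
    rw [add_zero] at h1
    exact ge_of_tendsto h1 ((eventually_ge_atTop M).mono h)
  exact le_antisymm (key fun N hN => (h N hN).1) (key fun N hN => (h N hN).2)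

theorem isClosed_near {Z : Type} [TopologicalSpace Z] (τ : ℝ≥0∞) {f g : Z → ℝ≥0∞}
    (hf : Continuous f) (hg : Continuous g) : IsClosed {z | GNear τ (f z) (g z)} :=
  (isClosed_le hf (hg.add continuous_const)).inter (isClosed_le hg (hf.add continuous_const))

theorem exists_cl (G : C(YY, ℝ≥0∞)) (h1 : ∀ y, G y ≤ 1) {η : ℝ≥0∞} (hη : 0 < η) :
    ∃ N : ℕ, ∀ y y', GCl N ((N : ℝ≥0∞) + 1)⁻¹ y y' → G y ≤ G y' + η := by
  by_contra hne
  push Not at hne
  let K : ℕ → Set (YY × YY) := fun N =>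
    {p | GCl N ((N : ℝ≥0∞) + 1)⁻¹ p.1 p.2} ∩ {p | G p.2 + η ≤ G p.1}
  have hcl : ∀ N, IsClosed (K N) := fun N => by
    refine IsClosed.inter ?_ (isClosed_le (by fun_prop) (by fun_prop))
    have : {p : YY × YY | GCl N ((N : ℝ≥0∞) + 1)⁻¹ p.1 p.2} =
        {p | GNear ((N : ℝ≥0∞) + 1)⁻¹ p.1.1.1 p.2.1.1} ∩
        ((⋂ i ≤ N, ⋂ j ≤ N, {p | GNear ((N : ℝ≥0∞) + 1)⁻¹ (p.1.1.2 i j) (p.2.1.2 i j)}) ∩
        ((⋂ M ≤ N, {p | GNear ((N : ℝ≥0∞) + 1)⁻¹ (p.1.2 (.inl M)) (p.2.2 (.inl M))}) ∩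
        ⋂ (l : List ℕ) (_ : l.length ≤ N) (_ : ∀ i ∈ l, i ≤ N),
          {p | GNear ((N : ℝ≥0∞) + 1)⁻¹ (p.1.2 (.inr l)) (p.2.2 (.inr l))})) := by
      ext p
      simp only [mem_ofPred_eq, mem_inter_iff, mem_iInter]
      exact ⟨fun h => ⟨h.1, h.2, h.3, h.4⟩, fun h => ⟨h.1, h.2.1, h.2.2.1, h.2.2.2⟩⟩
    rw [this]
    refine (isClosed_near _ (by fun_prop) (by fun_prop)).inter (IsClosed.inter ?_
      (IsClosed.inter ?_ ?_))
    · exact isClosed_iInter fun i => isClosed_iInter fun _ => isClosed_iInter fun j =>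
        isClosed_iInter fun _ => isClosed_near _ (by fun_prop) (by fun_prop)
    · exact isClosed_iInter fun i => isClosed_iInter fun _ =>
        isClosed_near _ (by fun_prop) (by fun_prop)
    · exact isClosed_iInter fun i => isClosed_iInter fun _ => isClosed_iInter fun _ =>
        isClosed_near _ (by fun_prop) (by fun_prop)
  have hτ : ∀ N : ℕ, (((N + 1 : ℕ) : ℝ≥0∞) + 1)⁻¹ ≤ ((N : ℝ≥0∞) + 1)⁻¹ := fun N =>
    ENNReal.inv_le_inv.2 (by push_cast; exact le_self_add)
  obtain ⟨p, hp⟩ := IsCompact.nonempty_iInter_of_sequence_nonempty_isCompact_isClosed K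
    (fun N p hp => ⟨⟨hp.1.1.mono (hτ N),
      fun i hi j hj => (hp.1.2 i (hi.trans N.le_succ) j (hj.trans N.le_succ)).mono (hτ N),
      fun M hM => (hp.1.3 M (hM.trans N.le_succ)).mono (hτ N),
      fun l h h' => (hp.1.4 l (h.trans N.le_succ) fun i hi => (h' i hi).trans N.le_succ).mono
        (hτ N)⟩, hp.2⟩)
    (fun N => by
      obtain ⟨y, y', h2, h3⟩ := hne N
      exact ⟨(y, y'), h2, h3.le⟩) (hcl 0).isCompact hcl
  rw [mem_iInter] at hp
  have e : p.1 = p.2 := by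
    refine Prod.ext (Prod.ext (near_eq 0 fun N _ => (hp N).1.1) ?_) ?_
    · funext i j
      exact near_eq (max i j) fun N hN =>
        (hp N).1.2 i ((le_max_left _ _).trans hN) j ((le_max_right _ _).trans hN)
    · funext a
      rcases a with M | l
      · exact near_eq M fun N hN => (hp N).1.3 M hN
      · exact near_eq (l.length + l.sum) fun N hN => (hp N).1.4 l (by omega) fun i hi => by
          have := List.le_sum_of_mem hi
          omega
  have h2 : G p.2 + η ≤ G p.1 := (hp 0).2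
  rw [e] at h2
  exact absurd h2 (not_le.2 (ENNReal.lt_add_right
    (ne_top_of_le_ne_top ENNReal.one_ne_top (h1 _)) hη.ne'))

end Pool.Agent.QL.LC
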