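import Pool.Agent.P.MP_7a6434d8_pr.QL.C.GHB
import Pool.Agent.P.MP_7a6434d8_pr.QL.C.Hat

/-! The limit of the geometric code. -/

open MeasureTheory ProbabilityTheory Set Filter Topology Metric
open scoped ENNReal unitInterval

namespace Pool.Agent.QL.LC

open Pool.Agent.LGD Pool.Agent.P.MP_7a6434d8_pr Pool.Agent.P.MP_7a6434d8_pr.Mp

/-- a dense sequence of the plane -/
noncomputable def zq : ℕ → ℂ := TopologicalSpace.denseSeq ℂ

theorem dense_zq : DenseRange zq := TopologicalSpace.denseRange_denseSeq ℂ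

theorem gh_near_seq {D : Sph → Sph → ℝ} (h : IsMet D) {x : ℕ → ℂ} (hx : DenseRange x) (z : Sph)
    {ε : ℝ} (hε : 0 < ε) : ∃ j, D z (x j) < ε :=
  (OnePoint.denseRange_coe.comp hx OnePoint.continuous_coe).exists_mem_open
    (isOpen_lt (h.cont_right z) (continuous_const (y := ε))) ⟨z, show D z z < ε by rwa [h.self]⟩

/-- covering radii and masses of a sampled sphere -/
noncomputable def daux (D : Sph → Sph → ℝ) (μ : Measure ℂ) (x : ℕ → ℂ) : ℕ ⊕ List ℕ → ℝ≥0∞
  | .inl N => ⨆ j, ⨅ (i : ℕ) (_ : i ≤ N), ENNReal.ofReal (D (x i) (zq j))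
  | .inr l => ∫⁻ z : ℂ, ENNReal.ofReal (l.map fun i => Real.exp (-D (x i) z)).prod ∂μ

/-- the code of a sampled sphere -/
noncomputable def dcode (lam : ℝ) (D : Sph → Sph → ℝ) (μ : Measure ℂ) (x : ℕ → ℂ) : YY :=
  ((ENNReal.ofReal lam, fun i j => ENNReal.ofReal (D (x i) (x j))), daux D μ x)

theorem gh_avg {V : Type} [Fintype V] [Nonempty V] [MeasurableSpace V] [DiscreteMeasurableSpace V]
    {f : V → ℝ} (hf : ∀ v, 0 ≤ f v) : ENNReal.ofReal ((∑ v, f v) / Nat.card V) =
      ∫⁻ v, ENNReal.ofReal (f v) ∂(uniformOn univ : Measure V) := by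
  have h : (uniformOn univ : Measure V) = (Fintype.card V : ℝ≥0∞)⁻¹ • Measure.count := by
    simp [uniformOn, ProbabilityTheory.cond]
  rw [h, lintegral_smul_measure, lintegral_count, tsum_fintype, Nat.card_eq_fintype_card,
    ENNReal.ofReal_div_of_pos (by exact_mod_cast Fintype.card_pos),
    ENNReal.ofReal_sum_of_nonneg fun v _ => hf v, ENNReal.ofReal_natCast, smul_eq_mul,
    ENNReal.div_eq_inv_mul]

theorem gh_inf_le {N : ℕ} {a b : ℕ → ℝ≥0∞} {τ : ℝ≥0∞} (h : ∀ i ≤ N, a i ≤ b i + τ) :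
    ⨅ (i : ℕ) (_ : i ≤ N), a i ≤ (⨅ (i : ℕ) (_ : i ≤ N), b i) + τ := by
  simp only [ENNReal.iInf_add]
  exact iInf₂_mono h

theorem gh_meas_D {D : Sph → Sph → ℝ} (hD : IsMet D) (y : Sph) : Measurable fun z : ℂ => D y z :=
  ((hD.cont_right y).comp OnePoint.continuous_coe).measurable

theorem Corr.cl {n : ℕ} {q : Quad n} {δ ε lam : ℝ} {D : Sph → Sph → ℝ} {μ : Measure ℂ}
    [IsProbabilityMeasure μ] {R : q.Vertex → Sph → Prop} (h : Corr q δ D μ ε R) (hD : IsMet D)
    (hδ : 0 ≤ δ) (hε : 0 < ε) (hl : |δ ^ 4 * n - lam| ≤ ε) (N : ℕ) (p : I × (ℕ → q.Vertex))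
    (x : ℕ → ℂ) (hS : ∀ i < N + 1, R (p.2 i) (x i)) :
    GCl N (ENNReal.ofReal ((N + 2) * ε)) (gcd0 δ (RZ.mk' q p), aux0 δ (RZ.mk' q p))
      (dcode lam D μ x) := by
  have hN : (0 : ℝ) ≤ N * ε := by positivity
  have h1 : ε ≤ (N + 2) * ε := by linarith
  have hS' : ∀ i ≤ N, R (p.2 i) (x i) := fun i hi => hS i (Nat.lt_succ_of_le hi)
  refine ⟨near_ofReal (hl.trans h1), fun i hi j hj =>
    near_ofReal ((h.dis _ _ _ _ (hS' i hi) (hS' j hj)).trans h1), fun M hM => ⟨?_, ?_⟩,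
    fun l hl' hl'' => ?_⟩
  · refine iSup_le fun v => ?_
    obtain ⟨z, hz⟩ := h.left v
    obtain ⟨j, hj⟩ := gh_near_seq hD dense_zq z hε
    refine le_trans (gh_inf_le fun i hi => ?_) (add_le_add (le_iSup (fun j =>
      ⨅ (i : ℕ) (_ : i ≤ M), ENNReal.ofReal (D (x i) (zq j))) j) le_rfl)
    refine (ENNReal.ofReal_le_ofReal ?_).trans ENNReal.ofReal_add_le
    have h2 := (abs_le.1 (h.dis _ _ _ _ (hS' i (hi.trans hM)) hz)).2
    have h3 := hD.triangle (x i) (zq j) z
    rw [hD.symm (zq j)] at h3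
    show δ * q.graph.dist (p.2 i) v ≤ _
    linarith
  · refine iSup_le fun j => ?_
    obtain ⟨v, hv⟩ := h.right (zq j)
    refine le_trans (gh_inf_le fun i hi => ?_) (add_le_add (le_iSup (fun v =>
      ⨅ (i : ℕ) (_ : i ≤ M), ENNReal.ofReal (δ * q.graph.dist (p.2 i) v)) v) le_rfl)
    exact (near_ofReal ((h.dis _ _ _ _ (hS' i (hi.trans hM)) hv).trans h1)).2
  · have ha : ∀ v i, 0 ≤ δ * q.graph.dist (p.2 i) v := fun v i => by positivity
    have e : aux0 δ (RZ.mk' q p) (.inr l) = ∫⁻ v, ENNReal.ofReal (l.map fun i =>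
        Real.exp (-(δ * q.graph.dist (p.2 i) v))).prod ∂(uniformOn univ : Measure q.Vertex) :=
      gh_avg (V := q.Vertex) fun v => (gh_prod_mem l (ha v)).1
    have hm : Measurable fun z : ℂ =>
        ENNReal.ofReal (l.map fun i => Real.exp (-D (x i) z)).prod :=
      (gh_meas_prod l fun i => gh_meas_D hD _).ennreal_ofReal
    have hf1 : ∀ v, ENNReal.ofReal (l.map fun i =>
        Real.exp (-(δ * q.graph.dist (p.2 i) v))).prod ≤ 1 := fun v =>
      ENNReal.ofReal_le_one.2 (gh_prod_mem l (ha v)).2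
    have hg1 : ∀ z : ℂ, ENNReal.ofReal (l.map fun i => Real.exp (-D (x i) z)).prod ≤ 1 := fun z =>
      ENNReal.ofReal_le_one.2 (gh_prod_mem l fun i => hD.nonneg _ _).2
    have hτ : ENNReal.ofReal (l.length * ε) + ENNReal.ofReal ε ≤ ENNReal.ofReal ((N + 2) * ε) := by
      rw [← ENNReal.ofReal_add (by positivity) hε.le]
      have : (l.length : ℝ) ≤ N := by exact_mod_cast hl'
      exact ENNReal.ofReal_le_ofReal (by nlinarith)
    show GNear _ (aux0 δ (RZ.mk' q p) (.inr l)) (∫⁻ z : ℂ, ENNReal.ofReal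
      (l.map fun i => Real.exp (-D (x i) z)).prod ∂μ)
    rw [e]
    constructor
    · refine (h.hall.one (measurable_of_finite _) hm hf1
        (η := ENNReal.ofReal (l.length * ε)) fun v z hR => ?_).trans ?_
      · refine (ENNReal.ofReal_le_ofReal (gh_prod_le l (ha v) (fun i => hD.nonneg _ _) hε.le
          fun i hi => ?_)).trans ENNReal.ofReal_add_le
        linarith [(abs_le.1 (h.dis _ _ _ _ (hS' i (hl'' i hi)) hR)).1]
      · rw [add_assoc]
        exact add_le_add le_rfl hτ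
    · refine (h.hall.one' (measurable_of_finite _) hm hf1 hg1
        (η := ENNReal.ofReal (l.length * ε)) fun v z hR => ?_).trans ?_
      · refine (ENNReal.ofReal_le_ofReal (gh_prod_le l (fun i => hD.nonneg _ _) (ha v) hε.le
          fun i hi => ?_)).trans ENNReal.ofReal_add_le
        linarith [(abs_le.1 (h.dis _ _ _ _ (hS' i (hl'' i hi)) hR)).2]
      · rw [add_assoc]
        exact add_le_add le_rfl hτ

theorem daux_cov {D : Sph → Sph → ℝ} (hD : IsMet D) (μ : Measure ℂ) {x : ℕ → ℂ}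
    (hx : DenseRange x) : ⨅ N, daux D μ x (.inl N) = 0 := by
  refine le_antisymm (ENNReal.le_of_forall_pos_le_add fun ε hε _ => ?_) bot_le
  have hε' : (0 : ℝ) < ε / 2 := half_pos hε
  obtain ⟨s, hs⟩ := hD.net hε'
  choose j hj using fun z => gh_near_seq hD hx z hε'
  refine iInf_le_of_le (s.sup j) (iSup_le fun a => ?_)
  obtain ⟨z, hz, h1⟩ := hs (zq a)
  refine iInf₂_le_of_le (j z) (Finset.le_sup hz) ?_
  rw [zero_add, ← ENNReal.ofReal_coe_nnreal]
  refine ENNReal.ofReal_le_ofReal ?_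
  have h2 := hD.triangle (x (j z)) z (zq a)
  rw [hD.symm _ z] at h2
  linarith [hj z]

/-- empirical masses -/
noncomputable def emp (l : List ℕ) (g : GC) : ℝ≥0∞ :=
  limsup (fun M : ℕ => ENNReal.ofReal ((∑ a ∈ Finset.range M,
    (l.map fun i => Real.exp (-(g.2 i a).toReal)).prod) / M)) atTop

theorem measurable_emp (l : List ℕ) : Measurable (emp l) :=
  Measurable.limsup fun _ => ((Finset.measurable_sum _ fun a _ => gh_meas_prod l fun i =>
    (show Measurable fun g : GC => g.2 i a by fun_prop).ennreal_toReal).div_const _).ennreal_ofReal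

theorem daux_emp {D : Sph → Sph → ℝ} (hD : IsMet D) (μ : Measure ℂ) [IsProbabilityMeasure μ]
    (lam : ℝ) : ∀ᵐ x ∂iid μ, ∀ l, daux D μ x (.inr l) = emp l (dcode lam D μ x).1 := by
  obtain ⟨f, hf⟩ : ∃ f : List ℕ → (ℕ → ℂ) → ℂ → ℝ,
      f = fun l y z => (l.map fun i => Real.exp (-D (y i) z)).prod := ⟨_, rfl⟩
  have hm : ∀ l y, Measurable (f l y) := fun l y => by
    rw [hf]; exact gh_meas_prod l fun i => gh_meas_D hD _
  have h01 : ∀ l y z, 0 ≤ f l y z ∧ f l y z ≤ 1 := fun l y z => by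
    rw [hf]; exact gh_prod_mem l fun i => hD.nonneg _ _
  have hb : ∀ l y z, |f l y z| ≤ 1 := fun l y z => abs_le.2 ⟨by linarith [(h01 l y z).1],
    (h01 l y z).2⟩
  have hi : ∀ l y, Integrable (f l y) μ := fun l y =>
    Integrable.of_bound (hm l y).aestronglyMeasurable 1 (Eventually.of_forall (hb l y))
  filter_upwards [ae_all_iff.2 fun l => iid_slln μ (hm l zq) (hb l zq)] with x hx l
  have key : Tendsto (fun M : ℕ => (∑ a ∈ Finset.range M, f l x (x a)) / M) atTop
      (𝓝 (∫ z, f l x z ∂μ)) := by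
    refine Metric.tendsto_atTop.2 fun ε hε => ?_
    have hθ : 0 < ε / (4 * (l.length + 1)) := by positivity
    choose j hj using fun i => gh_near_seq hD dense_zq (x i) hθ
    have h1 : ∀ z, |f l x z - f (l.map j) zq z| ≤ ε / 4 := fun z => by
      have e : f (l.map j) zq z = (l.map fun i => Real.exp (-D (zq (j i)) z)).prod := by
        rw [hf]; simp only [List.map_map]; rfl
      have h2 := gh_prod_le l (a := fun i => D (x i) z) (b := fun i => D (zq (j i)) z)
        (fun _ => hD.nonneg _ _) (fun _ => hD.nonneg _ _) hθ.le fun i _ => by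
          have := hD.triangle (zq (j i)) (x i) z
          rw [hD.symm _ (x i)] at this
          linarith [hj i]
      have h3 := gh_prod_le l (b := fun i => D (x i) z) (a := fun i => D (zq (j i)) z)
        (fun _ => hD.nonneg _ _) (fun _ => hD.nonneg _ _) hθ.le fun i _ => by
          linarith [hj i, hD.triangle (x i) (zq (j i)) z]
      have h4 : (l.length : ℝ) * (ε / (4 * (l.length + 1))) ≤ ε / 4 := by
        rw [← mul_div_assoc, div_le_div_iff₀ (by positivity) (by norm_num)]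
        nlinarith
      rw [e, hf, abs_le]
      constructor <;> linarith
    obtain ⟨M₀, hM₀⟩ := Metric.tendsto_atTop.1 (hx (l.map j)) (ε / 4) (by positivity)
    refine ⟨M₀ + 1, fun M hM => ?_⟩
    have hM' : (0 : ℝ) < M := by exact_mod_cast lt_of_lt_of_le (Nat.succ_pos _) hM
    have h2 := hM₀ M (by omega)
    have h3 : |(∑ a ∈ Finset.range M, f l x (x a)) / M -
        (∑ a ∈ Finset.range M, f (l.map j) zq (x a)) / M| ≤ ε / 4 := by
      rw [← sub_div, ← Finset.sum_sub_distrib, abs_div, abs_of_pos hM', div_le_iff₀ hM']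
      refine (Finset.abs_sum_le_sum_abs _ _).trans ((Finset.sum_le_sum fun a _ => h1 _).trans ?_)
      simp [mul_comm]
    have h4 : |∫ z, f l x z ∂μ - ∫ z, f (l.map j) zq z ∂μ| ≤ ε / 4 := by
      rw [← integral_sub (hi _ _) (hi _ _)]
      simpa using norm_integral_le_of_norm_le_const (μ := μ) (C := ε / 4)
        (f := fun z => f l x z - f (l.map j) zq z) (Eventually.of_forall h1)
    rw [Real.dist_eq, abs_lt] at h2 ⊢
    rw [abs_le] at h3 h4
    constructor <;> linarith [h2.1, h2.2, h3.1, h3.2, h4.1, h4.2]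
  have e1 : daux D μ x (.inr l) = ENNReal.ofReal (∫ z, f l x z ∂μ) := by
    rw [ofReal_integral_eq_lintegral_ofReal (hi _ _) (Eventually.of_forall fun z => (h01 _ _ z).1),
      hf]
    rfl
  rw [e1, ← (ENNReal.tendsto_ofReal key).limsup_eq, hf]
  simp only [emp, dcode, ENNReal.toReal_ofReal (hD.nonneg _ _)]

namespace Setup

variable (S : Setup)

/-- measurable version of the covering radii and masses -/
noncomputable def ainf (m : S.X) : ℕ ⊕ List ℕ → ℝ≥0∞
  | .inl N => ⨆ j, ⨅ (i : ℕ) (_ : i ≤ N), ex (gam / 4 * m.1.1) * S.O.dJ m.1.2 (m.2 i) (zq j)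
  | .inr l => ∫⁻ z : ℂ, ENNReal.ofReal (l.map fun i =>
      Real.exp (-(ex (gam / 4 * m.1.1) * S.O.dJ m.1.2 (m.2 i) z).toReal)).prod ∂S.O.κ m.1.2

/-- the limit code -/
noncomputable def yinf (m : S.X) : YY := (S.ginf m, S.ainf m)

theorem measurable_yinf : Measurable S.yinf := by
  have h1 : Measurable fun m : S.X => ex (gam / 4 * m.1.1) :=
    (Real.measurable_exp.comp (measurable_fst.fst.const_mul _)).ennreal_ofReal
  refine S.measurable_ginf.prodMk (measurable_pi_lambda _ fun a => ?_)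
  rcases a with N | l
  · exact Measurable.iSup fun j => Measurable.iInf fun i => Measurable.iInf fun _ => h1.mul
      (S.O.dJ_meas.comp (f := fun m : S.X => (m.1.2, m.2 i, zq j)) (by fun_prop))
  · refine Measurable.lintegral_kernel_prod_right'
      (κ := S.O.κ.comap (fun m : S.X => m.1.2) measurable_fst.snd)
      (f := fun p : S.X × ℂ => ENNReal.ofReal (l.map fun i => Real.exp
        (-(ex (gam / 4 * p.1.1.1) * S.O.dJ p.1.1.2 (p.1.2 i) p.2).toReal)).prod) ?_
    exact (gh_meas_prod l fun i => ((h1.comp measurable_fst).mul (S.O.dJ_meas.comp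
      (f := fun p : S.X × ℂ => (p.1.1.2, p.1.2 i, p.2)) (by fun_prop))).ennreal_toReal).ennreal_ofReal

/-- good spheres -/
structure GoodO (ω : S.Ω) : Prop where
  met : IsMet (S.d ω)
  prob : IsProbabilityMeasure (S.μ ω)
  ker : S.O.κ ω = S.μ ω
  dJ : ∀ x y : ℂ, S.O.dJ ω x y = ENNReal.ofReal (S.d ω x y)

theorem ae_goodO : ∀ᵐ ω ∂S.P, S.GoodO ω := by
  filter_upwards [S.O.geoM, S.O.prob, S.O.κ_eq, S.O.dJ_eq] with ω h1 h2 h3 h4
  exact ⟨h1.isMet, h2, h3, h4⟩

variable {S}

theorem isMet_D {m : S.X} (h : IsMet (S.d m.1.2)) : IsMet (S.D m) := by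
  have hc := Real.exp_pos (gam / 4 * m.1.1)
  refine ⟨fun x y => by simp only [D, h.symm x y], fun x y z => ?_, fun x y => ?_,
    continuous_const.mul h.cont⟩
  · simp only [D, ← mul_add]
    exact mul_le_mul_of_nonneg_left (h.triangle x y z) hc.le
  · simp only [D, mul_eq_zero, hc.ne', false_or, h.eq_iff]

theorem ex_mul_dJ {m : S.X} (h : ∀ x y : ℂ, S.O.dJ m.1.2 x y = ENNReal.ofReal (S.d m.1.2 x y))
    (x y : ℂ) : ex (gam / 4 * m.1.1) * S.O.dJ m.1.2 x y = ENNReal.ofReal (S.D m x y) := by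
  rw [h, ex, ← ENNReal.ofReal_mul (Real.exp_pos _).le]
  rfl

theorem yinf_eq {m : S.X} (h : S.GoodO m.1.2) :
    S.yinf m = dcode (9 / 8 * Real.exp (gam * m.1.1)) (S.D m) (S.μ m.1.2) m.2 := by
  refine Prod.ext (Prod.ext ?_ ?_) ?_
  · show 9 / 8 * ex _ = ENNReal.ofReal _
    rw [ENNReal.ofReal_mul (by norm_num), ENNReal.ofReal_div_of_pos (by norm_num)]
    simp [ex]
  · funext i j
    exact ex_mul_dJ h.dJ _ _
  · funext a
    rcases a with N | l
    · simp only [yinf, ainf, dcode, daux, ex_mul_dJ h.dJ]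
    · simp only [yinf, ainf, dcode, daux, ex_mul_dJ h.dJ, h.ker,
        ENNReal.toReal_ofReal ((isMet_D h.met).nonneg _ _)]

end Setup

end Pool.Agent.QL.LC
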