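import Pool.Agent.P.MP_7a6434d8_pr.QL.C.Thin

/-! The zero-one law of Hewitt and Savage. -/

open MeasureTheory ProbabilityTheory Set Filter Topology
open scoped ENNReal symmDiff

namespace Pool.Agent.QL

variable {X : Type} [MeasurableSpace X]

/-- exchange of two blocks of length `N` -/
def hsSwap (N : ℕ) : Equiv.Perm ℕ :=
  Function.Involutive.toPerm (fun i => if i < N then i + N else if i < 2 * N then i - N else i)
    (fun i => by
      by_cases h1 : i < N
      · have h2 : ¬ (i + N < N) := by omega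
        have h3 : i + N < 2 * N := by omega
        simp [h1, h2, h3]
      · by_cases h2 : i < 2 * N
        · have h3 : i - N < N := by omega
          simp only [h1, h2, h3, if_true, if_false]
          omega
        · simp [h1, h2])

theorem hsSwap_fin (N : ℕ) : {i | hsSwap N i ≠ i}.Finite := by
  refine (Set.finite_lt_nat (2 * N)).subset fun i hi => ?_
  by_contra h
  have h2 : ¬ i < 2 * N := h
  have h1 : ¬ i < N := by omega
  exact hi (by simp [hsSwap, h1, h2])

theorem hsSwap_lt {N i : ℕ} (h : i < N) : hsSwap N i = i + N := by simp [hsSwap, h]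

theorem hs_set (μ : Measure X) [IsProbabilityMeasure μ] {A : Set (ℕ → X)} (hA : MeasurableSet A)
    (h : ∀ π : Equiv.Perm ℕ, {i | π i ≠ i}.Finite →
      ∀ᵐ x ∂iid μ, (fun i => x (π i)) ∈ A ↔ x ∈ A) : iid μ A = 0 ∨ iid μ A = 1 := by
  have key : ∀ ε : ℝ, 0 < ε → |(iid μ).real A - (iid μ).real A ^ 2| ≤ 4 * ε := by
    intro ε hε
    obtain ⟨C, hC, hlt⟩ := exists_measure_symmDiff_lt_of_generateFrom_isSetRing (μ := iid μ)
      (isSetRing_measurableCylinders (α := fun _ : ℕ => X))
      ⟨{univ}, countable_singleton _,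
        singleton_subset_iff.2 (univ_mem_measurableCylinders _), by simp⟩
      generateFrom_measurableCylinders.symm hA (ε := ENNReal.ofReal ε) (ENNReal.ofReal_pos.2 hε)
    obtain ⟨s, S, hS, rfl⟩ := (mem_measurableCylinders _).1 hC
    obtain ⟨N, hN⟩ := s.exists_nat_subset_range
    set π := hsSwap N with hπ
    set T : (ℕ → X) → ℕ → X := fun x i => x (π i) with hT
    have hTm : Measurable T := by fun_prop
    have hTp : MeasurePreserving T (iid μ) (iid μ) := ⟨hTm, iid_comp_inj μ π.injective⟩
    set C : Set (ℕ → X) := cylinder (α := fun _ : ℕ => X) s S with hCdef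
    have hCm : MeasurableSet C := hS.cylinder s
    have hdisj : Disjoint s (s.image π) := by
      rw [Finset.disjoint_left]
      intro i hi hi'
      obtain ⟨j, hj, rfl⟩ := Finset.mem_image.1 hi'
      have h1 := Finset.mem_range.1 (hN hj)
      have h2 := Finset.mem_range.1 (hN hi)
      rw [hπ, hsSwap_lt h1] at h2
      omega
    have hind := (iIndepFun_infinitePi (P := fun _ : ℕ => μ) (X := fun _ x => x)
      fun _ => measurable_id).indepFun_finset s (s.image π) hdisj
        fun i => measurable_pi_apply i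
    have hφ : Measurable fun (y : s.image π → X) (i : s) =>
        y ⟨π i, Finset.mem_image_of_mem π i.2⟩ := by fun_prop
    have e1 : iid μ (C ∩ T ⁻¹' C) = iid μ C * iid μ (T ⁻¹' C) :=
      (indepFun_iff_measure_inter_preimage_eq_mul.1 hind) S _ hS (hφ hS)
    rw [hTp.measure_preimage hCm.nullMeasurableSet] at e1
    have e2 : (iid μ).real (C ∩ T ⁻¹' C) = (iid μ).real C ^ 2 := by
      rw [Measure.real, e1, ENNReal.toReal_mul, sq]; rfl
    have e3 : (iid μ).real (C ∆ A) ≤ ε := ENNReal.toReal_le_of_le_ofReal hε.le hlt.le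
    have e4 : |(iid μ).real C - (iid μ).real A| ≤ ε :=
      (abs_measureReal_sub_le_measureReal_symmDiff hCm.nullMeasurableSet
        hA.nullMeasurableSet).trans e3
    have e5 : (iid μ).real ((C ∩ T ⁻¹' C) ∆ A) ≤ 2 * ε := by
      have h1 : ((C ∩ T ⁻¹' C) ∆ A : Set (ℕ → X)) ≤ᵐ[iid μ]
          ((C ∆ A) ∪ T ⁻¹' (C ∆ A) : Set (ℕ → X)) := by
        filter_upwards [h π (hsSwap_fin N)] with x hx
        have hx' : T x ∈ A ↔ x ∈ A := hx
        show x ∈ (C ∩ T ⁻¹' C) ∆ A → x ∈ (C ∆ A) ∪ T ⁻¹' (C ∆ A)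
        simp only [mem_symmDiff, mem_inter_iff, mem_preimage, mem_union, hx']
        tauto
      have h2 : (iid μ).real (T ⁻¹' (C ∆ A)) = (iid μ).real (C ∆ A) := by
        rw [Measure.real, hTp.measure_preimage (hCm.symmDiff hA).nullMeasurableSet]; rfl
      calc _ ≤ (iid μ).real ((C ∆ A) ∪ T ⁻¹' (C ∆ A)) :=
            ENNReal.toReal_mono (measure_ne_top _ _) (measure_mono_ae h1)
        _ ≤ _ := measureReal_union_le _ _
        _ ≤ 2 * ε := by rw [h2]; linarith
    have e6 : |(iid μ).real (C ∩ T ⁻¹' C) - (iid μ).real A| ≤ 2 * ε :=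
      (abs_measureReal_sub_le_measureReal_symmDiff (hCm.inter (hTm hCm)).nullMeasurableSet
        hA.nullMeasurableSet).trans e5
    rw [e2] at e6
    have b1 : (iid μ).real C ≤ 1 := measureReal_le_one
    have b2 : (iid μ).real A ≤ 1 := measureReal_le_one
    have b3 : 0 ≤ (iid μ).real C := measureReal_nonneg
    have b4 : 0 ≤ (iid μ).real A := measureReal_nonneg
    rw [abs_le] at e4 e6 ⊢
    constructor <;> nlinarith [e4.1, e4.2, e6.1, e6.2]
  have h0 : (iid μ).real A - (iid μ).real A ^ 2 = 0 := by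
    rw [← abs_nonpos_iff]
    refine le_of_forall_pos_le_add fun ε hε => ?_
    have := key (ε / 4) (by positivity)
    linarith
  have h1 : (iid μ).real A * (1 - (iid μ).real A) = 0 := by rw [← h0]; ring
  rcases mul_eq_zero.1 h1 with h2 | h2
  · left
    exact (measureReal_eq_zero_iff (measure_ne_top _ _)).1 h2
  · right
    rw [← ofReal_measureReal (measure_ne_top (iid μ) A), ← sub_eq_zero.1 h2, ENNReal.ofReal_one]

/-- A symmetric function of independent samples is almost surely constant. -/
theorem hs_const (μ : Measure X) [IsProbabilityMeasure μ] {Y : Type} [MeasurableSpace Y]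
    [MeasurableSpace.CountablySeparated Y] [Nonempty Y] {f : (ℕ → X) → Y} (hf : Measurable f)
    (h : ∀ π : Equiv.Perm ℕ, {i | π i ≠ i}.Finite →
      ∀ᵐ x ∂iid μ, f (fun i => x (π i)) = f x) : ∃ y, ∀ᵐ x ∂iid μ, f x = y := by
  refine Filter.exists_eventuallyEq_const_of_forall_separating (l := ae (iid μ)) (f := f)
    MeasurableSet fun U hU => ?_
  rcases hs_set μ (hf hU) (fun π hπ => (h π hπ).mono fun x hx => by
    simp only [mem_preimage, hx]) with h0 | h1
  · right
    exact measure_eq_zero_iff_ae_notMem.1 h0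
  · left
    exact (mem_ae_iff_prob_eq_one (hf hU)).2 h1

theorem hs_lintegral (μ : Measure X) [IsProbabilityMeasure μ] {f : (ℕ → X) → ℝ≥0∞}
    (hf : Measurable f) (h : ∀ π : Equiv.Perm ℕ, {i | π i ≠ i}.Finite →
      ∀ᵐ x ∂iid μ, f (fun i => x (π i)) = f x) : ∀ᵐ x ∂iid μ, f x = ∫⁻ y, f y ∂iid μ := by
  obtain ⟨y, hy⟩ := hs_const μ hf h
  rw [lintegral_congr_ae hy, lintegral_const, measure_univ, mul_one]
  exact hy

/-- The permutations of finite support are countably many. -/
theorem hs_countable : {π : Equiv.Perm ℕ | {i | π i ≠ i}.Finite}.Countable := by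
  have h : ∀ N : ℕ, {π : Equiv.Perm ℕ | ∀ i, N ≤ i → π i = i}.Countable := fun N => by
    refine MapsTo.countable_of_injOn (f := fun (π : Equiv.Perm ℕ) (i : Fin N) => π i)
      (mapsTo_univ _ _) (fun π h1 π' h2 he => Equiv.ext fun i => ?_) countable_univ
    by_cases hi : i < N
    · exact congrFun he ⟨i, hi⟩
    · rw [h1 i (not_lt.1 hi), h2 i (not_lt.1 hi)]
  refine (countable_iUnion h).mono fun π hπ => ?_
  obtain ⟨N, hN⟩ := Set.Finite.bddAbove hπ
  refine mem_iUnion.2 ⟨N + 1, fun i hi => ?_⟩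
  by_contra hne
  have := hN hne
  omega

end Pool.Agent.QL
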