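import Mathlib

/-! Factorisation through fibres of a Borel map, and averaging over a family of symmetries. -/

open MeasureTheory ProbabilityTheory Set Filter Topology
open scoped ENNReal

namespace Pool.Agent.QL

/-- A Borel function that is constant on the fibres of a Borel map, on a Borel set, is a Borel
function of that map. -/
theorem haar_blackwell {G R Z : Type} [MeasurableSpace G] [StandardBorelSpace G]
    [MeasurableSpace R] [MeasurableSpace.CountablySeparated R] [MeasurableSpace Z]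
    [StandardBorelSpace Z] [Nonempty Z] {red : G → R} (hred : Measurable red) {S : Set G}
    (hS : MeasurableSet S) {k : G → Z} (hk : Measurable k)
    (h : ∀ g ∈ S, ∀ g' ∈ S, red g = red g' → k g = k g') :
    ∃ f : R → Z, Measurable f ∧ ∀ g ∈ S, k g = f (red g) := by
  have := hS.standardBorel
  have hr : Measurable fun g : S => red g := hred.comp measurable_subtype_coe
  have hm : Measurable[MeasurableSpace.comap (fun g : S => red g) inferInstance]
      fun g : S => k g := by
    intro T hT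
    have e : (fun g : S => k g) ⁻¹' T =
        (fun g : S => red g) ⁻¹' ((fun g : S => red g) '' ((fun g : S => k g) ⁻¹' T)) := by
      ext g
      refine ⟨fun hg => ⟨g, hg, rfl⟩, ?_⟩
      rintro ⟨g', hg', he⟩
      have : k g = k g' := h g g.2 g' g'.2 he.symm
      show k g ∈ T
      rw [this]
      exact hg'
    have h1 : MeasurableSet ((fun g : S => k g) ⁻¹' T) := hk.comp measurable_subtype_coe hT
    rw [e] at h1 ⊢
    have : MeasurableSpace.CountablySeparated (range fun g : S => red g) :=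
      MeasurableSpace.Subtype.countablySeparated
    obtain ⟨B, hB, hBe⟩ := hr.measurableSet_preimage_iff_preimage_val.1 h1
    refine ⟨B, hB, ?_⟩
    ext g
    exact Set.ext_iff.1 hBe ⟨red g, g, rfl⟩
  obtain ⟨f, hf, he⟩ := hm.exists_eq_measurable_comp
  exact ⟨f, hf, fun g hg => congrFun he ⟨g, hg⟩⟩

theorem haar_two_mul_le (a b : ℝ≥0∞) (ha : a ≤ 1) (hb : b ≤ 1) :
    2 * (a * b) ≤ a * a + b * b ∧ (2 * (a * b) = a * a + b * b → a = b) := by
  lift a to NNReal using ne_top_of_le_ne_top ENNReal.one_ne_top ha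
  lift b to NNReal using ne_top_of_le_ne_top ENNReal.one_ne_top hb
  norm_cast
  rw [← NNReal.coe_le_coe, ← NNReal.coe_inj, ← NNReal.coe_inj]
  push_cast
  refine ⟨by nlinarith [sq_nonneg ((a : ℝ) - b)], fun h => ?_⟩
  have : ((a : ℝ) - b) ^ 2 = 0 := by nlinarith
  exact sub_eq_zero.1 (pow_eq_zero_iff two_ne_zero |>.1 this)

/-- A conditional expectation given the first coordinate is invariant under a symmetry. -/
theorem haar_inv {G E : Type} [MeasurableSpace G] [MeasurableSpace E] (Λ : Measure (G × E))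
    [IsFiniteMeasure Λ] {T : G → G} (hT : Measurable T)
    (hinv : Λ.map (fun p => (T p.1, p.2)) = Λ) {φ : G × E → ℝ≥0∞} (hφ : Measurable φ)
    (hφT : ∀ᵐ p ∂Λ, φ (T p.1, p.2) = φ p) {k : G → ℝ≥0∞} (hk : Measurable k) (hk1 : ∀ g, k g ≤ 1)
    (hc : ∀ F : G → ℝ≥0∞, Measurable F → ∫⁻ p, F p.1 * φ p ∂Λ = ∫⁻ p, F p.1 * k p.1 ∂Λ) :
    ∀ᵐ p ∂Λ, k (T p.1) = k p.1 := by
  have hm : Measurable fun p : G × E => (T p.1, p.2) := by fun_prop
  have h1 : Measurable fun p : G × E => k p.1 := hk.comp measurable_fst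
  have h2 : Measurable fun p : G × E => k (T p.1) := hk.comp (hT.comp measurable_fst)
  have h11 : Measurable fun p : G × E => k p.1 * k p.1 := h1.mul h1
  have h21 : Measurable fun p : G × E => k (T p.1) * k p.1 := h2.mul h1
  have h22 : Measurable fun p : G × E => k (T p.1) * k (T p.1) := h2.mul h2
  have h1φ : Measurable fun p : G × E => k p.1 * φ p := h1.mul hφ
  have e1 : ∫⁻ p, k (T p.1) * k (T p.1) ∂Λ = ∫⁻ p, k p.1 * k p.1 ∂Λ := by
    conv_rhs => rw [← hinv]
    rw [lintegral_map h11 hm]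
  have e2 : ∫⁻ p, k (T p.1) * k p.1 ∂Λ = ∫⁻ p, k p.1 * k p.1 ∂Λ := by
    rw [← hc (fun g => k (T g)) (hk.comp hT), ← hc k hk]
    conv_rhs => rw [← hinv]
    rw [lintegral_map h1φ hm]
    refine lintegral_congr_ae ?_
    filter_upwards [hφT] with p hp
    rw [hp]
  have hfin : ∫⁻ p, k (T p.1) * k p.1 ∂Λ ≠ ∞ := by
    refine ne_top_of_le_ne_top (measure_ne_top Λ univ) ?_
    rw [← lintegral_one]
    exact lintegral_mono fun p => mul_le_one' (hk1 _) (hk1 _)
  have key := ae_eq_of_ae_le_of_lintegral_le (μ := Λ)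
    (f := fun p => 2 * (k (T p.1) * k p.1))
    (g := fun p => k (T p.1) * k (T p.1) + k p.1 * k p.1)
    (Eventually.of_forall fun p => (haar_two_mul_le _ _ (hk1 _) (hk1 _)).1)
    (by
      rw [lintegral_const_mul _ h21]
      exact ENNReal.mul_ne_top ENNReal.ofNat_ne_top hfin)
    (h22.add h11).aemeasurable
    (by rw [lintegral_const_mul _ h21, lintegral_add_left h22, e1, e2, two_mul])
  filter_upwards [key] with p hp
  exact (haar_two_mul_le _ _ (hk1 _) (hk1 _)).2 hp

/-- Conditional expectation of a function bounded by one, given the first coordinate. -/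
theorem haar_cond {G E : Type} [MeasurableSpace G] [MeasurableSpace E] (Λ : Measure (G × E))
    [IsFiniteMeasure Λ] {φ : G × E → ℝ≥0∞} (hφ : Measurable φ) (hφ1 : ∀ p, φ p ≤ 1) :
    ∃ k : G → ℝ≥0∞, Measurable k ∧ (∀ g, k g ≤ 1) ∧
      ∀ F : G → ℝ≥0∞, Measurable F → ∫⁻ p, F p.1 * φ p ∂Λ = ∫⁻ p, F p.1 * k p.1 ∂Λ := by
  have hle : Λ.withDensity φ ≤ Λ := by
    conv_rhs => rw [← withDensity_one (μ := Λ)]
    exact withDensity_mono (Eventually.of_forall hφ1)
  have : IsFiniteMeasure (Λ.withDensity φ) := isFiniteMeasure_of_le Λ hle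
  have hle' : (Λ.withDensity φ).fst ≤ Λ.fst := Measure.fst_mono hle
  set r := ((Λ.withDensity φ).fst).rnDeriv Λ.fst with hr
  have hr1 : r ≤ᵐ[Λ.fst] 1 := Measure.rnDeriv_le_one_of_le hle'
  have hrm : Measurable r := Measure.measurable_rnDeriv _ _
  refine ⟨fun g => min (r g) 1, hrm.min measurable_const, fun g => min_le_right _ _,
    fun F hF => ?_⟩
  have e1 : ∫⁻ p, F p.1 * φ p ∂Λ = ∫⁻ g, F g ∂(Λ.withDensity φ).fst := by
    have hF1 : Measurable fun p : G × E => F p.1 := hF.comp measurable_fst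
    rw [Measure.fst, lintegral_map hF measurable_fst,
      lintegral_withDensity_eq_lintegral_mul _ hφ hF1]
    simp only [Pi.mul_apply, mul_comm]
  have e2 : ∫⁻ p, F p.1 * min (r p.1) 1 ∂Λ = ∫⁻ g, F g * min (r g) 1 ∂Λ.fst := by
    have hF1 : Measurable fun g => F g * min (r g) 1 := hF.mul (hrm.min measurable_const)
    rw [Measure.fst, lintegral_map hF1 measurable_fst]
  rw [e1, e2, ← Measure.withDensity_rnDeriv_eq _ _ (Measure.absolutelyContinuous_of_le hle'),
    lintegral_withDensity_eq_lintegral_mul _ hrm hF]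
  refine lintegral_congr_ae ?_
  filter_upwards [hr1] with g hg
  rw [min_eq_left (show r g ≤ 1 from hg), Pi.mul_apply, mul_comm]

/-- If the law is invariant under a random symmetry of the first coordinate whose orbits fill the
fibres of `red`, the conditional expectation given the first coordinate is a function of `red`. -/
theorem haar_factor {G E R Θ : Type} [MeasurableSpace G] [StandardBorelSpace G]
    [MeasurableSpace E] [MeasurableSpace R] [MeasurableSpace.CountablySeparated R]
    [MeasurableSpace Θ] (Λ : Measure (G × E)) [IsFiniteMeasure Λ] (m : Measure Θ)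
    [IsProbabilityMeasure m] {act : Θ → G → G} (hact : Measurable (Function.uncurry act))
    (hinv : ∀ᵐ θ ∂m, Λ.map (fun p => (act θ p.1, p.2)) = Λ) {red : G → R} (hred : Measurable red)
    {S : Set G} (hS : MeasurableSet S) (hΛ : ∀ᵐ p ∂Λ, p.1 ∈ S)
    (hrig : ∀ g ∈ S, ∀ g' ∈ S, red g = red g' →
      m.map (fun θ => act θ g) = m.map fun θ => act θ g')
    {φ : G × E → ℝ≥0∞} (hφ : Measurable φ) (hφ1 : ∀ p, φ p ≤ 1)
    (hφT : ∀ θ, ∀ᵐ p ∂Λ, φ (act θ p.1, p.2) = φ p) :
    ∃ h : R → ℝ≥0∞, Measurable h ∧ (∀ r, h r ≤ 1) ∧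
      ∀ F : G → ℝ≥0∞, Measurable F → ∫⁻ p, F p.1 * φ p ∂Λ = ∫⁻ p, F p.1 * h (red p.1) ∂Λ := by
  obtain ⟨k, hk, hk1, hc⟩ := haar_cond Λ hφ hφ1
  have hθ : ∀ θ, Measurable (act θ) := fun θ => hact.comp measurable_prodMk_left
  have hg : ∀ g, Measurable fun θ => act θ g := fun g => hact.comp measurable_prodMk_right
  have h1 : ∀ᵐ θ ∂m, ∀ᵐ p ∂Λ, k (act θ p.1) = k p.1 := by
    filter_upwards [hinv] with θ hi
    exact haar_inv Λ (hθ θ) hi hφ (hφT θ) hk hk1 hc
  have hm1 : Measurable fun q : Θ × G × E => k (act q.1 q.2.1) :=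
    hk.comp (hact.comp (measurable_fst.prodMk (measurable_fst.comp measurable_snd)))
  have hm2 : Measurable fun q : Θ × G × E => k q.2.1 :=
    hk.comp (measurable_fst.comp measurable_snd)
  have h2 : ∀ᵐ p ∂Λ, ∀ᵐ θ ∂m, k (act θ p.1) = k p.1 :=
    (Measure.ae_ae_comm (p := fun θ (p : G × E) => k (act θ p.1) = k p.1)
      (measurableSet_eq_fun hm1 hm2)).1 h1
  have hkb : Measurable fun g => ∫⁻ θ, k (act θ g) ∂m :=
    Measurable.lintegral_prod_left' (f := fun q : Θ × G => k (act q.1 q.2)) (hk.comp hact)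
  obtain ⟨f, hf, he⟩ := haar_blackwell hred hS hkb fun g hg1 g' hg2 hr => by
    rw [← lintegral_map hk (hg g), hrig g hg1 g' hg2 hr, lintegral_map hk (hg g')]
  refine ⟨fun r => min (f r) 1, hf.min measurable_const, fun r => min_le_right _ _,
    fun F hF => ?_⟩
  rw [hc F hF]
  refine lintegral_congr_ae ?_
  filter_upwards [h2, hΛ] with p hp hpS
  have : f (red p.1) = k p.1 := by
    rw [← he _ hpS, lintegral_congr_ae hp, lintegral_const, measure_univ, mul_one]
  rw [this, min_eq_left (hk1 _)]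

end Pool.Agent.QL
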