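import Pool.Agent.P.MP_7a6434d8_pr.QL.C.HoleDefs

/-! Block HOLE: basic lemmas. -/

open MeasureTheory ProbabilityTheory Set Filter Topology Metric
open scoped ENNReal unitInterval

namespace Pool.Agent.QL.LC

open Pool.Agent.LGD Pool.Agent.P.MP_7a6434d8_pr Pool.Agent.P.MP_7a6434d8_pr.Mp Pool.Agent.QL.M2

/-! ### graphs -/

theorem hl_tri {n : ℕ} (q : Quad n) (u v w : q.Vertex) :
    q.graph.dist u w ≤ q.graph.dist u v + q.graph.dist v w := (graph_connected q).dist_triangle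

theorem hl_mid {n : ℕ} (q : Quad n) (u v : q.Vertex) (s : ℕ) :
    ∃ z, q.graph.dist u z ≤ s ∧ q.graph.dist z v ≤ q.graph.dist u v - s := by
  obtain ⟨w, hw⟩ := (graph_connected q).exists_walk_length_eq_dist u v
  refine ⟨w.getVert s, (SimpleGraph.dist_le (w.take s)).trans ?_,
    (SimpleGraph.dist_le (w.drop s)).trans ?_⟩
  · simp
  · simp [hw]

theorem hl_head {n : ℕ} (q : Quad n) (e : Fin (4 * n)) :
    q.head e = q.tail e ∨ q.graph.Adj (q.tail e) (q.head e) := by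
  by_cases h : q.head e = q.tail e
  · exact Or.inl h
  · exact Or.inr ((SimpleGraph.fromRel_adj _ _ _).2 ⟨Ne.symm h, Or.inl ⟨e, rfl, rfl⟩⟩)

theorem hl_head_dist {n : ℕ} (q : Quad n) (e : Fin (4 * n)) :
    q.graph.dist (q.tail e) (q.head e) ≤ 1 := by
  rcases hl_head q e with h | h
  · rw [h, SimpleGraph.dist_self]; exact Nat.zero_le _
  · exact (SimpleGraph.dist_eq_one_iff_adj.2 h).le

theorem hl_card {n : ℕ} (q : Quad n) : Nat.card q.Vertex = n + 2 := by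
  have h1 : Nat.card q.Vertex + n = 2 * n + 2 := q.euler
  omega

theorem hl_split {t : Mp} {s n : ℕ} {x y : V t} (h : Within t (s + n) x y) :
    ∃ z, Within t s x z ∧ Within t n z y := by
  induction n generalizing y with
  | zero => exact ⟨y, h, rfl⟩
  | succ n ih =>
    rcases h with h | ⟨z, h, h'⟩
    · obtain ⟨z, h1, h2⟩ := ih h
      exact ⟨z, h1, Or.inl h2⟩
    · obtain ⟨z', h1, h2⟩ := ih h
      exact ⟨z', h1, Or.inr ⟨z, h2, h'⟩⟩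

theorem hl_bv_add {t : Mp} (ht : ok t) (h1 : 1 ≤ per t) {p : ℕ} (hp : p ≤ 2 * per t) (i : ℕ) :
    dW t (bv t p) (bv t ((p + i) % (2 * per t))) ≤ i := by
  induction i with
  | zero => rw [Nat.add_zero, m2c_bv_mod t ht p hp, dW_self]
  | succ i ih =>
    have h2 : (p + i) % (2 * per t) < 2 * per t := Nat.mod_lt _ (by omega)
    have h3 := dW_step ht (bv t p) (adj_bv t ht _ h2)
    rw [← m2c_bv_mod t ht ((p + i) % (2 * per t) + 1) h2, Nat.mod_add_mod] at h3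
    exact h3.trans (Nat.add_le_add_right ih 1)

/-! ### one realisation -/

/-- integer radius -/
noncomputable def rN (δ : ℝ) (ρ : I) (c : ℕ × ℚ) : ℕ := ⌊(c.2 : ℝ) * (1 + (ρ : ℝ)) / δ⌋₊

/-- real radius -/
noncomputable def rR (ρ : I) (c : ℕ × ℚ) : ℝ := c.2 * (1 + (ρ : ℝ))

theorem rd_eq (ρ : I) (c : ℕ × ℚ) : rd ρ c = ENNReal.ofReal (rR ρ c) := rfl

theorem rR_pos (ρ : I) {c : ℕ × ℚ} (hc : 0 < c.2) : 0 < rR ρ c :=
  mul_pos (by exact_mod_cast hc) (by linarith [ρ.2.1])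

theorem mem_Jd {δ : ℝ} {ρ : I} {J : List (ℕ × ℚ)} {a : ℕ × ℕ} :
    a ∈ Jd δ ρ J ↔ ∃ c ∈ J, (c.1, rN δ ρ c) = a := List.mem_map

namespace RZ

variable (r : RZ) {H : HS} {δ : ℝ} {α : Rg}

theorem sd_nonneg (hδ : 0 ≤ δ) (v v' : r.q.Vertex) : 0 ≤ r.sd δ v v' :=
  mul_nonneg hδ (Nat.cast_nonneg _)

theorem sd_comm (v v' : r.q.Vertex) : r.sd δ v v' = r.sd δ v' v := by
  rw [sd, sd, SimpleGraph.dist_comm]

theorem sd_self (v : r.q.Vertex) : r.sd δ v v = 0 := by simp [sd]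

theorem sd_tri (hδ : 0 ≤ δ) (u v w : r.q.Vertex) : r.sd δ u w ≤ r.sd δ u v + r.sd δ v w := by
  rw [sd, sd, sd, ← mul_add]
  exact mul_le_mul_of_nonneg_left (by exact_mod_cast hl_tri r.q u v w) hδ

theorem inBall_iff {v : r.q.Vertex} : InBall r.q r.S (Jd δ r.ρ α.1) v ↔
    ∃ c ∈ α.1, r.q.graph.dist (r.S c.1) v ≤ rN δ r.ρ c := by
  constructor
  · rintro ⟨a, ha, h⟩
    obtain ⟨c, hc, rfl⟩ := mem_Jd.1 ha
    exact ⟨c, hc, h⟩
  · rintro ⟨c, hc, h⟩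
    exact ⟨_, mem_Jd.2 ⟨c, hc, rfl⟩, h⟩

variable {r}

theorem lt_of_mem {v : r.q.Vertex} (hv : v ∈ r.A δ α) {c : ℕ × ℚ} (hc : c ∈ α.1) :
    rN δ r.ρ c < r.q.graph.dist (r.S c.1) v := by
  refine not_le.1 fun h => ?_
  have h1 := r.inBall_iff.2 ⟨c, hc, h⟩
  obtain ⟨h2, h3⟩ := hv
  rcases h3.cases_tail with rfl | ⟨u, -, h4⟩
  · exact h2 h1
  · exact h4.2 h1

theorem ev.sub (h : r.ev δ α) (H : HS) : SubQ r.q (r.A δ α) (r.W H δ α)
    ((H.1 r.n).θ r.q (r.A δ α)) (r.ι H δ α) := (H.2 r.n).sub _ _ _ _ h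

theorem ev.ok (h : r.ev δ α) (H : HS) : ok (r.W H δ α) := (h.sub H).ok

theorem ev.target (h : r.ev δ α) : r.S α.2 ∈ r.A δ α := by
  obtain ⟨-, -, d, h1, -⟩ := h
  exact ⟨h1.1, Relation.ReflTransGen.refl⟩

theorem ev.ne_nil (h : r.ev δ α) : α.1 ≠ [] := fun h0 => h.1 (by simp [Jd, h0])

theorem ev.dB_lt (h : r.ev δ α) (x : V (r.W H δ α)) {c : ℕ × ℚ} (hc : c ∈ α.1) :
    dB _ x + rN δ r.ρ c < r.q.graph.dist (r.S c.1) (r.ι H δ α x) := by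
  obtain ⟨z, h1, h2⟩ := hl_mid r.q (r.S c.1) (r.ι H δ α x) (rN δ r.ρ c)
  refine not_le.1 fun h3 => ?_
  obtain ⟨y, h4, -⟩ := (h.sub H).lift_dist x z (by rw [SimpleGraph.dist_comm]; omega)
  exact absurd (lt_of_mem (h4 ▸ (h.sub H).mem y) hc) (not_lt.2 h1)

theorem ev.ex_near (h : r.ev δ α) (x : V (r.W H δ α)) :
    ∃ c ∈ α.1, r.q.graph.dist (r.S c.1) (r.ι H δ α x) ≤ rN δ r.ρ c + dB _ x + 5 := by
  obtain ⟨p, hp, h1⟩ := dB_ex x
  obtain ⟨i, hi, e, h2, h3⟩ := (h.sub H).bd_out p hp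
  have h4 : r.q.tail e ∈ r.A δ α := h2 ▸ (h.sub H).mem _
  have h5 : InBall r.q r.S (Jd δ r.ρ α.1) (r.q.head e) := by
    by_contra h5
    rcases hl_head r.q e with h6 | h6
    · exact h3 (h6 ▸ h4)
    · exact h3 ⟨h4.1, h4.2.tail ⟨h6, h5⟩⟩
  obtain ⟨c, hc, h6⟩ := r.inBall_iff.1 h5
  refine ⟨c, hc, ?_⟩
  have h7 := hl_head_dist r.q e
  have h8 := hl_tri r.q (r.S c.1) (r.q.head e) (r.ι H δ α x)
  have h9 := hl_tri r.q (r.q.head e) (r.q.tail e) (r.ι H δ α x)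
  have h10 := (h.sub H).dist_le (bv _ ((p + i) % (2 * per (r.W H δ α)))) x
  have h11 := hl_bv_add (h.ok H) (h.sub H).per_pos hp i
  have h12 := dW_tri (h.ok H) x (bv _ p) (bv _ ((p + i) % (2 * per (r.W H δ α))))
  rw [dW_comm (h.ok H)] at h10
  rw [SimpleGraph.dist_comm] at h7
  rw [← h2] at h10
  omega

open Classical in
theorem ev.inn_count (h : r.ev δ α) (H : HS) {a : ℕ} (ha : r.S a ∈ r.A δ α) :
    r.ι H δ α (r.inn H δ α (Nat.count (fun i => r.S i ∈ r.A δ α) a)) = r.S a := by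
  have h1 : Nat.nth (fun i => r.S i ∈ r.A δ α) (Nat.count (fun i => r.S i ∈ r.A δ α) a) = a :=
    Nat.nth_count ha
  have h2 : r.inn H δ α (Nat.count (fun i => r.S i ∈ r.A δ α) a) =
    Function.invFun (r.ι H δ α) (r.S a) := congrArg (fun i => Function.invFun (r.ι H δ α) (r.S i)) h1
  rw [h2]
  exact Function.invFun_eq ((h.sub H).ex ha)

theorem ev.sd_le (h : r.ev δ α) (hδ : 0 ≤ δ) (x y : V (r.W H δ α)) :
    r.sd δ (r.ι H δ α x) (r.ι H δ α y) ≤ δ * dW _ x y :=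
  mul_le_mul_of_nonneg_left (by exact_mod_cast (h.sub H).dist_le x y) hδ

theorem ev.lift (h : r.ev δ α) (hδ : 0 < δ) (x : V (r.W H δ α)) (z : r.q.Vertex)
    (hz : r.sd δ (r.ι H δ α x) z ≤ δ * dB _ x) :
    ∃ y, r.ι H δ α y = z ∧ δ * dW _ x y = r.sd δ (r.ι H δ α x) z := by
  obtain ⟨y, h1, h2⟩ := (h.sub H).lift_dist x z (by exact_mod_cast le_of_mul_le_mul_left hz hδ)
  exact ⟨y, h1, by rw [h2]; rfl⟩

end RZ

theorem hl_dW_tri {t : Mp} (ht : ok t) {δ : ℝ} (hδ : 0 ≤ δ) (x y z : V t) :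
    δ * dW t x z ≤ δ * dW t x y + δ * dW t y z := by
  rw [← mul_add]
  exact mul_le_mul_of_nonneg_left (by exact_mod_cast dW_tri ht x y z) hδ

/-! ### the limit objects -/

section Lim

variable {𝒟 : ℕ → ℕ → ℝ≥0∞} {f f' : ℕ → ℝ≥0∞} {J : List (ℕ × ℚ)} {ρ : I}

theorem fB_le {c : ℕ × ℚ} (hc : c ∈ J) (a : ℕ) : fB 𝒟 J ρ a ≤ 𝒟 a c.1 - rd ρ c :=
  iInf₂_le c hc

theorem fB_ex (hJ : J ≠ []) (a : ℕ) : ∃ c ∈ J, fB 𝒟 J ρ a = 𝒟 a c.1 - rd ρ c := by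
  obtain ⟨c, hc, h⟩ := Set.exists_min_image _ (fun c => 𝒟 a c.1 - rd ρ c) J.finite_toSet
    (List.exists_mem_of_ne_nil J hJ)
  exact ⟨c, hc, le_antisymm (fB_le hc a) (le_iInf₂ h)⟩

theorem cd_self (a : ℕ) : cd 𝒟 f a a = 0 :=
  le_antisymm (iInf_le_of_le [] (by simp [cost])) zero_le

theorem cd_step {a i : ℕ} (h : 𝒟 a i < f a) (a' : ℕ) : cd 𝒟 f a a' ≤ 𝒟 a i + cd 𝒟 f i a' := by
  rw [cd, cd, ENNReal.add_iInf]
  exact le_iInf fun l => iInf_le_of_le (i :: l) (by simp [cost, h])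

theorem cd_one {a i : ℕ} (h : 𝒟 a i < f a) : cd 𝒟 f a i ≤ 𝒟 a i := by
  simpa [cd_self] using cd_step h i

theorem cd_tri (a i a' : ℕ) : cd 𝒟 f a a' ≤ cd 𝒟 f a i + cd 𝒟 f i a' := by
  have key : ∀ (l : List ℕ) (a : ℕ), cd 𝒟 f a a' ≤ cost 𝒟 f a l i + cd 𝒟 f i a' := by
    intro l
    induction l with
    | nil =>
      intro a
      by_cases h : a = i
      · simp [cost, h]
      · simp [cost, h]
    | cons j l ih =>
      intro a
      by_cases h : 𝒟 a j < f a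
      · simp only [cost, h, if_true, add_assoc]
        exact (cd_step h a').trans (add_le_add le_rfl (ih j))
      · simp [cost, h]
  conv_rhs => rw [cd, ENNReal.iInf_add]
  exact le_iInf fun l => key l a

end Lim

/-! ### nets -/

namespace NC

variable {b : Base} {r : ℕ → RZ} {𝒟 : ℕ → ℕ → ℝ≥0∞} {ρ : I} (h : NC b r 𝒟 ρ)

include h

theorem symm (i j : ℕ) : 𝒟 i j = 𝒟 j i := by
  refine (ENNReal.toReal_eq_toReal_iff' (h.fin _ _) (h.fin _ _)).1 ?_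
  exact tendsto_nhds_unique (h.dist i j) (by simpa only [RZ.sd_comm] using h.dist j i)

theorem self (i : ℕ) : 𝒟 i i = 0 := by
  have h1 : (𝒟 i i).toReal = 0 :=
    tendsto_nhds_unique (h.dist i i) (by simpa only [RZ.sd_self] using tendsto_const_nhds)
  exact ((ENNReal.toReal_eq_zero_iff _).1 h1).resolve_right (h.fin _ _)

theorem tri (i j l : ℕ) : (𝒟 i l).toReal ≤ (𝒟 i j).toReal + (𝒟 j l).toReal :=
  le_of_tendsto_of_tendsto' (h.dist i l) ((h.dist i j).add (h.dist j l)) fun k =>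
    (r k).sd_tri (b.δ_pos k).le _ _ _

theorem near (N : ℕ) {e : ℝ} (he : 0 < e) : ∀ᶠ k in (b.U : Filter ℕ), ∀ i ≤ N, ∀ j ≤ N,
    |(r k).sd (b.δ k) ((r k).S i) ((r k).S j) - (𝒟 i j).toReal| ≤ e := by
  refine (eventually_all_finite (finite_le_nat N)).2 fun i _ =>
    (eventually_all_finite (finite_le_nat N)).2 fun j _ => ?_
  filter_upwards [(h.dist i j).eventually (closedBall_mem_nhds _ he)] with k hk
  exact hk

theorem rad {c : ℕ × ℚ} (hc : 0 < c.2) :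
    Tendsto (fun k => b.δ k * rN (b.δ k) (r k).ρ c) b.U (𝓝 (rR ρ c)) := by
  have h1 : Tendsto (fun k => rR (r k).ρ c) b.U (𝓝 (rR ρ c)) :=
    ((continuous_subtype_val.tendsto _).comp h.rho).const_add 1 |>.const_mul _
  refine tendsto_of_tendsto_of_tendsto_of_le_of_le (g := fun k => rR (r k).ρ c - b.δ k)
    (by simpa using h1.sub b.δ_lim) h1 (fun k => ?_) fun k => ?_
  · have h2 := Nat.lt_floor_add_one (rR (r k).ρ c / b.δ k)
    rw [div_lt_iff₀ (b.δ_pos k)] at h2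
    change _ ≤ b.δ k * (⌊rR (r k).ρ c / b.δ k⌋₊ : ℝ)
    nlinarith
  · have h2 := Nat.floor_le (div_pos (rR_pos (r k).ρ hc) (b.δ_pos k)).le
    rw [le_div_iff₀ (b.δ_pos k)] at h2
    change b.δ k * (⌊rR (r k).ρ c / b.δ k⌋₊ : ℝ) ≤ _
    linarith

theorem fB_ne_top {J : List (ℕ × ℚ)} (hJ : J ≠ []) (ρ' : I) (a : ℕ) : fB 𝒟 J ρ' a ≠ ⊤ := by
  obtain ⟨c, -, h1⟩ := fB_ex (𝒟 := 𝒟) (ρ := ρ') hJ a
  rw [h1]
  exact ENNReal.sub_ne_top (h.fin _ _)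

end NC

theorem Base.small (b : Base) {e : ℝ} (he : 0 < e) : ∀ᶠ k in (b.U : Filter ℕ), b.δ k ≤ e :=
  b.δ_lim.eventually (ge_mem_nhds he)

end Pool.Agent.QL.LC
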