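import Pool.Agent.P.MP_7a6434d8_pr.QL.C.Stmts
import Pool.Agent.P.MP_7a6434d8_pr.QL.M2.Dist
import Pool.Agent.P.MP_7a6434d8_pr.QL.M2.Ball
import Pool.Agent.P.MP_7a6434d8_pr.QL.M2.Class

/-! Block HOLE: coordinates of the hole and the intermediate statements. -/

open MeasureTheory ProbabilityTheory Set Filter Topology Metric
open scoped ENNReal unitInterval

namespace Pool.Agent.QL.LC

open Pool.Agent.LGD Pool.Agent.P.MP_7a6434d8_pr Pool.Agent.P.MP_7a6434d8_pr.Mp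

/-- modulus of continuity of the boundary -/
noncomputable def hlOm (δ : ℝ) (M : ℕ) (t : Mp) : ℝ≥0∞ :=
  ⨆ (p : ℕ) (p' : ℕ) (_ : p ≤ p' ∧ p' ≤ 2 * per t ∧ (p' : ℝ) - p ≤ 1 / (M + 1) * per t),
    ENNReal.ofReal (δ * dW t (bv t p) (bv t p'))

/-- least distance of far boundary positions -/
noncomputable def hlInj (δ : ℝ) (M : ℕ) (t : Mp) : ℝ≥0∞ :=
  ⨅ (p : ℕ) (p' : ℕ) (_ : p ≤ p' ∧ p' ≤ 2 * per t ∧ 1 / (M + 1) * (per t : ℝ) ≤ (p' : ℝ) - p ∧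
    (p' : ℝ) - p ≤ (2 - 1 / (M + 1)) * per t), ENNReal.ofReal (δ * dW t (bv t p) (bv t p'))

/-- range of the distances from a vertex to the boundary -/
noncomputable def hlRng (δ : ℝ) (t : Mp) (v : V t) : ℝ≥0∞ :=
  ⨆ (p : ℕ) (p' : ℕ) (_ : p ≤ 2 * per t ∧ p' ≤ 2 * per t),
    ENNReal.ofReal (δ * dW t v (bv t p') - δ * dW t v (bv t p))

open Classical in
/-- coordinates of the hole: kind and index -/
noncomputable def hlI (H : HS) (δ : ℝ) (α : Rg) (r : RZ) : ℕ → ℕ → ℝ≥0∞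
  | 0, _ => if r.ev δ α then 1 else 0
  | 1, _ => ENNReal.ofReal (δ ^ 2 * per (r.W H δ α))
  | 2, _ => ENNReal.ofReal (δ ^ 4 * size (r.W H δ α))
  | 3, M => hlOm δ M (r.W H δ α)
  | 4, M => hlInj δ M (r.W H δ α)
  | 5, i => hlRng δ (r.W H δ α) (r.inn H δ α i)
  | 6, a => if r.S a ∈ r.A δ α then 1 else 0
  | _, _ => (Nat.card (r.A δ α) : ℝ≥0∞) / Nat.card r.q.Vertex

/-- the code of the hole -/
noncomputable def hlC (H : HS) (b : Base) (α : Rg) (k : ℕ) (r : RZ) (n : ℕ) : ℝ≥0∞ :=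
  hlI H (b.δ k) α r n.unpair.1 n.unpair.2

/-- a coordinate of a code -/
def hx (h : ℕ → ℝ≥0∞) (i j : ℕ) : ℝ≥0∞ := h (Nat.pair i j)

theorem hx_hlC (H : HS) (b : Base) (α : Rg) (k : ℕ) (r : RZ) (i j : ℕ) :
    hx (hlC H b α k r) i j = hlI H (b.δ k) α r i j := by
  simp only [hx, hlC, Nat.unpair_pair]

theorem continuous_hx (i j : ℕ) : Continuous fun h => hx h i j := continuous_apply _

/-- The hole exists and is macroscopic. -/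
def HBox (h : ℕ → ℝ≥0∞) : Prop :=
  hx h 0 0 ≠ 0 ∧ hx h 1 0 ≠ 0 ∧ hx h 1 0 ≠ ⊤ ∧ hx h 2 0 ≠ 0 ∧ hx h 2 0 ≠ ⊤

/-- Almost sure properties of the limit of the codes of the holes. -/
structure HGood (h : ℕ → ℝ≥0∞) : Prop where
  om : HBox h → ⨅ M, hx h 3 M = 0
  inj : HBox h → ∀ M, hx h 4 M ≠ 0
  cross : hx h 0 0 ≠ 0 → hx h 2 0 ≠ 0 → hx h 1 0 ≠ ⊤
  rng : hx h 0 0 ≠ 0 → hx h 1 0 = 0 → ∀ i, hx h 5 i = 0
  freq : ∀ j : ℕ, ∃ M₀ : ℕ, ∀ M : ℕ, M₀ ≤ M →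
    ∑ a ∈ Finset.range M, hx h 6 a ≤ M * (hx h 7 0 + (j + 1 : ℝ≥0∞)⁻¹) ∧
    M * hx h 7 0 ≤ ∑ a ∈ Finset.range M, hx h 6 a + M * (j + 1 : ℝ≥0∞)⁻¹

/-- The dilation is generic. -/
structure RGood (𝒟 : ℕ → ℕ → ℝ≥0∞) (α : Rg) (ρ : I) : Prop where
  pos : 0 < ρ
  tie : ∀ a, ∀ c ∈ α.1, 0 < c.2 → 𝒟 a c.1 ≠ rd ρ c
  lc : ∀ a a' t, (∀ ρ' < ρ, cd 𝒟 (fB 𝒟 α.1 ρ') a a' ≤ t) → cd 𝒟 (fB 𝒟 α.1 ρ) a a' ≤ t
  lf : ∀ a a', (∀ ρ' < ρ, cd 𝒟 (fB 𝒟 α.1 ρ') a a' < ⊤) → cd 𝒟 (fB 𝒟 α.1 ρ) a a' < ⊤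

/-- Probabilistic part, codes of the holes. -/
def HGoodAE : Prop :=
  ∀ (H : HS) (b : Base) (w : World b) (α : Rg) (Q : Measure (ℕ → ℝ≥0∞)) [IsProbabilityMeasure Q],
    w.Lim (hlC H b α) Q → ∀ᵐ h ∂Q, HGood h

/-- Probabilistic part, dilation. -/
def RGoodAE : Prop :=
  ∀ (α : Rg), (∀ c ∈ α.1, 0 < c.2) → ∀ (Q : Measure (ℕ → ℕ → ℝ≥0∞)) [IsProbabilityMeasure Q],
    ∀ᵐ z ∂Q.prod (volume : Measure I), RGood z.1 α z.2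

/-- scaled distance in the map -/
noncomputable def RZ.sd (r : RZ) (δ : ℝ) (v v' : r.q.Vertex) : ℝ := δ * r.q.graph.dist v v'

/-- A net whose distances converge. -/
structure NC (b : Base) (r : ℕ → RZ) (𝒟 : ℕ → ℕ → ℝ≥0∞) (ρ : I) : Prop where
  fin : ∀ i j, 𝒟 i j ≠ ⊤
  dist : ∀ i j, Tendsto (fun k => (r k).sd (b.δ k) ((r k).S i) ((r k).S j)) b.U
    (𝓝 (𝒟 i j).toReal)
  cov : ∀ e > 0, ∃ N : ℕ, ∀ᶠ k in (b.U : Filter ℕ), ∀ v, ∃ i ≤ N,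
    (r k).sd (b.δ k) ((r k).S i) v ≤ e
  rho : Tendsto (fun k => (r k).ρ) b.U (𝓝 ρ)

/-- Balls have a positive fraction of the vertices. -/
def BallMass (b : Base) (r : ℕ → RZ) : Prop :=
  ∀ (a : ℕ) (e : ℝ), 0 < e → ∃ β : ℝ, 0 < β ∧ ∀ᶠ k in (b.U : Filter ℕ),
    β * Nat.card (r k).q.Vertex ≤ Nat.card {v | (r k).sd (b.δ k) ((r k).S a) v ≤ e}

/-- No point disconnects the limit. -/
def NoCut (b : Base) (r : ℕ → RZ) (𝒟 : ℕ → ℕ → ℝ≥0∞) : Prop :=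
  ∀ (v : ∀ k, (r k).q.Vertex) (a a' : ℕ) (e : ℝ), 0 < e →
    (∀ᶠ k in (b.U : Filter ℕ), e ≤ (r k).sd (b.δ k) ((r k).S a) (v k)) →
    (∀ᶠ k in (b.U : Filter ℕ), e ≤ (r k).sd (b.δ k) ((r k).S a') (v k)) →
    ∃ η : ℝ, 0 < η ∧ Relation.ReflTransGen (fun i j => (𝒟 i j).toReal < η ∧
      ∀ᶠ k in (b.U : Filter ℕ), 2 * η ≤ (r k).sd (b.δ k) ((r k).S i) (v k)) a a'

/-- Deterministic part. -/
def HoleDet : Prop :=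
  ∀ (H : HS) (b : Base) (r : ℕ → RZ) (α : Rg) (g : GC) (ρ : I) (h : ℕ → ℝ≥0∞),
    NC b r g.2 ρ → BallMass b r → NoCut b r g.2 → g.1 ≠ 0 → g.1 ≠ ⊤ →
    Tendsto (fun k => ENNReal.ofReal (b.δ k ^ 4 * (r k).n)) b.U (𝓝 g.1) →
    Tendsto (fun k => hlC H b α k (r k)) b.U (𝓝 h) → HGood h → RGood g.2 α ρ →
    EvI g.2 α ρ → ∃ ℓ a, HoleOK b r H α g ρ ℓ a

/-- The boundary of a disc with an equicontinuous injective boundary is approached by inner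
vertices. -/
def ThickStmt : Prop :=
  ∀ (t : Mp), ok t → ∀ (δ θ ε₁ ε₂ ε₃ ε e : ℝ), 0 < δ → 0 < θ → θ ≤ 1 / 8 → 1 ≤ θ * per t →
    0 ≤ e → 2 * ε₁ + 4 * δ + e < ε → ε + 4 * δ + e ≤ ε₃ → 2 * e + 2 * δ ≤ ε₂ →
    (∀ p p' : ℕ, p ≤ p' → p' ≤ 2 * per t → (p' : ℝ) - p ≤ 2 * θ * per t →
      δ * dW t (bv t p) (bv t p') ≤ ε₁) →
    (∀ p p' : ℕ, p ≤ p' → p' ≤ 2 * per t → θ * per t ≤ (p' : ℝ) - p →
      (p' : ℝ) - p ≤ (2 - θ) * per t → ε₂ < δ * dW t (bv t p) (bv t p')) →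
    (∀ p p' : ℕ, p ≤ p' → p' ≤ 2 * per t → 1 / 4 * per t ≤ (p' : ℝ) - p →
      (p' : ℝ) - p ≤ (2 - 1 / 4) * per t → ε₃ < δ * dW t (bv t p) (bv t p')) →
    ∀ p₀ ≤ 2 * per t, ∃ w, δ * dW t (bv t p₀) w ≤ ε + 4 * δ ∧ e < δ * dB t w

end Pool.Agent.QL.LC
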