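import Pool.Agent.P.MP_7a6434d8_pr.QL.C.HoleBase

/-! Block HOLE: comparison of the chain distance with the distance in the hole. -/

open MeasureTheory ProbabilityTheory Set Filter Topology Metric
open scoped ENNReal unitInterval

namespace Pool.Agent.QL.LC

open Pool.Agent.LGD Pool.Agent.P.MP_7a6434d8_pr Pool.Agent.P.MP_7a6434d8_pr.Mp Pool.Agent.QL.M2

/-- One realisation is close to the limit data. -/
structure Snap (r : RZ) (δ : ℝ) (α : Rg) (𝒟 : ℕ → ℕ → ℝ≥0∞) (f : ℕ → ℝ≥0∞) (N : ℕ) (e η : ℝ) :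
    Prop where
  ev : r.ev δ α
  cov : ∀ v, ∃ i ≤ N, r.sd δ (r.S i) v ≤ e
  dist : ∀ i ≤ N, ∀ j ≤ N, 𝒟 i j ≤ ENNReal.ofReal (r.sd δ (r.S i) (r.S j) + e)
  far : ∀ i ≤ N, ∀ v ∈ r.A δ α, r.sd δ (r.S i) v ≤ e → ENNReal.ofReal η ≤ f i

namespace Snap

variable {r : RZ} {δ : ℝ} {α : Rg} {𝒟 : ℕ → ℕ → ℝ≥0∞} {f : ℕ → ℝ≥0∞} {N : ℕ} {e η : ℝ}
  (h : Snap r δ α 𝒟 f N e η) (hδ : 0 < δ) (he : 0 < e)

include h hδ he

theorem step {i j : ℕ} (hi : i ≤ N) (hj : j ≤ N) {v v' : r.q.Vertex} (hv : v ∈ r.A δ α)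
    (h1 : r.sd δ (r.S i) v ≤ e) (h2 : r.sd δ (r.S j) v' ≤ e) {s : ℝ} (h3 : r.sd δ v v' ≤ s)
    (h4 : s + 3 * e < η) : cd 𝒟 f i j ≤ ENNReal.ofReal (s + 3 * e) := by
  have h5 : 𝒟 i j ≤ ENNReal.ofReal (s + 3 * e) := by
    refine (h.dist i hi j hj).trans (ENNReal.ofReal_le_ofReal ?_)
    have h6 := r.sd_tri hδ.le (r.S i) v (r.S j)
    have h7 := r.sd_tri hδ.le v v' (r.S j)
    rw [r.sd_comm] at h2
    linarith
  have h6 := r.sd_nonneg hδ.le v v'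
  refine (cd_one (h5.trans_lt (lt_of_lt_of_le ?_ (h.far i hi v hv h1)))).trans h5
  exact (ENNReal.ofReal_lt_ofReal_iff (by linarith)).2 h4

theorem chain (H : HS) {s : ℕ} (hs : δ * s + 3 * e < η) (m : ℕ) :
    ∀ (x y : V (r.W H δ α)) (i j : ℕ), i ≤ N → j ≤ N → r.sd δ (r.S i) (r.ι H δ α x) ≤ e →
      r.sd δ (r.S j) (r.ι H δ α y) ≤ e → dW _ x y ≤ m * s →
      cd 𝒟 f i j ≤ ENNReal.ofReal (δ * dW _ x y + 3 * e * (m + 1)) := by
  have one : ∀ (x y : V (r.W H δ α)) (i j : ℕ), i ≤ N → j ≤ N → r.sd δ (r.S i) (r.ι H δ α x) ≤ e →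
      r.sd δ (r.S j) (r.ι H δ α y) ≤ e → dW _ x y ≤ s →
      cd 𝒟 f i j ≤ ENNReal.ofReal (δ * dW _ x y + 3 * e) := fun x y i j hi hj h1 h2 h3 => by
    refine h.step hδ he hi hj ((h.ev.sub H).mem x) h1 h2 (h.ev.sd_le hδ.le x y) ?_
    have : δ * dW _ x y ≤ δ * s := mul_le_mul_of_nonneg_left (by exact_mod_cast h3) hδ.le
    linarith
  induction m with
  | zero =>
    intro x y i j hi hj h1 h2 h3
    simpa using one x y i j hi hj h1 h2 (by omega)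
  | succ m ih =>
    intro x y i j hi hj h1 h2 h3
    rcases le_total (dW _ x y) s with h4 | h4
    · refine (one x y i j hi hj h1 h2 h4).trans (ENNReal.ofReal_le_ofReal ?_)
      have : (0 : ℝ) ≤ m := Nat.cast_nonneg m
      push_cast
      nlinarith
    · obtain ⟨n, hn⟩ := Nat.exists_eq_add_of_le h4
      obtain ⟨z, h5, h6⟩ := hl_split (hn ▸ dW_within (h.ev.ok H) x y)
      obtain ⟨l, hl, h7⟩ := h.cov (r.ι H δ α z)
      have h8 := dW_le h5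
      have h9 := dW_le h6
      refine (cd_tri i l j).trans ((add_le_add (one x z i l hi hl h1 h7 h8)
        (ih z y l j hl hj h7 h2 (by rw [Nat.succ_mul] at h3; omega))).trans ?_)
      rw [← ENNReal.ofReal_add (by positivity) (by positivity)]
      refine ENNReal.ofReal_le_ofReal ?_
      have h10 : (dW _ x z : ℝ) + dW _ z y ≤ dW _ x y := by exact_mod_cast (by omega)
      push_cast
      nlinarith

end Snap

namespace NC

variable {H : HS} {b : Base} {r : ℕ → RZ} {𝒟 : ℕ → ℕ → ℝ≥0∞} {ρ : I} {α : Rg} (h : NC b r 𝒟 ρ)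
  (hpos : ∀ c ∈ α.1, 0 < c.2) (hev : ∀ᶠ k in (b.U : Filter ℕ), (r k).ev (b.δ k) α)

include h hpos hev

theorem f_low (H : HS) (a : ℕ) {s : ℝ} (hs : s < (fB 𝒟 α.1 ρ a).toReal) :
    ∀ᶠ k in (b.U : Filter ℕ), ∀ x, (r k).ι H (b.δ k) α x = (r k).S a → s ≤ b.δ k * dB _ x := by
  rcases le_or_gt s 0 with h0 | h0
  · exact Eventually.of_forall fun k x _ => h0.trans (mul_nonneg (b.δ_pos k).le (Nat.cast_nonneg _))
  have h1 : ∀ᶠ k in (b.U : Filter ℕ), ∀ c ∈ α.1, s ≤ (r k).sd (b.δ k) ((r k).S a) ((r k).S c.1) -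
      b.δ k * rN (b.δ k) (r k).ρ c - 5 * b.δ k := by
    refine (eventually_all_finite α.1.finite_toSet).2 fun c hc => ?_
    refine (((h.dist a c.1).sub (h.rad (hpos c hc))).sub (b.δ_lim.const_mul 5)).eventually
      (le_mem_nhds ?_)
    have h2 := hs.trans_le (ENNReal.toReal_mono (ENNReal.sub_ne_top (h.fin _ _)) (fB_le hc a))
    rw [← ENNReal.ofReal_toReal (h.fin a c.1), rd_eq,
      ← ENNReal.ofReal_sub _ (rR_pos ρ (hpos c hc)).le, ENNReal.toReal_ofReal', lt_max_iff] at h2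
    rcases h2 with h2 | h2 <;> linarith
  filter_upwards [h1, hev] with k h1 hk x hx
  obtain ⟨c, hc, h2⟩ := hk.ex_near x
  have h3 := h1 c hc
  rw [hx, SimpleGraph.dist_comm] at h2
  have h4 : (r k).sd (b.δ k) ((r k).S a) ((r k).S c.1) ≤
      b.δ k * (rN (b.δ k) (r k).ρ c + dB _ x + 5) :=
    mul_le_mul_of_nonneg_left (by exact_mod_cast h2) (b.δ_pos k).le
  linarith

theorem f_up (H : HS) (a : ℕ) {s : ℝ} (hs : (fB 𝒟 α.1 ρ a).toReal < s) :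
    ∀ᶠ k in (b.U : Filter ℕ), ∀ x, (r k).ι H (b.δ k) α x = (r k).S a → b.δ k * dB _ x ≤ s := by
  obtain ⟨c, hc, h1⟩ := fB_ex (𝒟 := 𝒟) (ρ := ρ) hev.exists.choose_spec.ne_nil a
  rw [h1, ← ENNReal.ofReal_toReal (h.fin a c.1), rd_eq,
    ← ENNReal.ofReal_sub _ (rR_pos ρ (hpos c hc)).le, ENNReal.toReal_ofReal', max_lt_iff] at hs
  filter_upwards [((h.dist a c.1).sub (h.rad (hpos c hc))).eventually (ge_mem_nhds hs.1), hev]
    with k h2 hk x hx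
  have h3 := (hk.dB_lt x hc).le
  rw [hx, SimpleGraph.dist_comm] at h3
  have h4 : b.δ k * (dB _ x + rN (b.δ k) (r k).ρ c) ≤
      (r k).sd (b.δ k) ((r k).S a) ((r k).S c.1) :=
    mul_le_mul_of_nonneg_left (by exact_mod_cast h3) (b.δ_pos k).le
  linarith

theorem lift (H : HS) (a a' : ℕ) {t : ℝ} (ht : cd 𝒟 (fB 𝒟 α.1 ρ) a a' < ENNReal.ofReal t) :
    ∀ᶠ k in (b.U : Filter ℕ), ∀ x, (r k).ι H (b.δ k) α x = (r k).S a →
      ∃ y, (r k).ι H (b.δ k) α y = (r k).S a' ∧ b.δ k * dW _ x y < t := by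
  obtain ⟨l, hl⟩ := iInf_lt_iff.1 ht
  clear ht
  induction l generalizing a t with
  | nil =>
    have h1 : a = a' := by
      by_contra h1
      simp [cost, h1] at hl
    refine Eventually.of_forall fun k x hx => ⟨x, h1 ▸ hx, ?_⟩
    simpa [dW_self] using ENNReal.ofReal_pos.1 (zero_le.trans_lt hl)
  | cons i l ih =>
    have h1 : 𝒟 a i < fB 𝒟 α.1 ρ a := by
      by_contra h1
      simp [cost, h1] at hl
    simp only [cost, h1, if_true] at hl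
    have h2 : cost 𝒟 (fB 𝒟 α.1 ρ) i l a' ≠ ⊤ := (le_add_self.trans_lt (hl.trans_le le_top)).ne
    have h3 := (ENNReal.lt_ofReal_iff_toReal_lt (hl.trans_le le_top).ne).1 hl
    rw [ENNReal.toReal_add (h.fin _ _) h2] at h3
    obtain ⟨s, h4, h5⟩ := exists_between ((ENNReal.toReal_lt_toReal (h.fin _ _)
      (h.fB_ne_top hev.exists.choose_spec.ne_nil ρ a)).2 h1)
    obtain ⟨u, h6, h7⟩ := exists_between (lt_sub_iff_add_lt.2 h3)
    filter_upwards [h.f_low hpos hev H a h5, (h.dist a i).eventually (gt_mem_nhds (lt_min h4 h6)),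
      ih i (t := t - u) ((ENNReal.lt_ofReal_iff_toReal_lt h2).2 (by linarith)), hev]
      with k h8 h9 h10 hk x hx
    obtain ⟨z, h11, h12⟩ := hk.lift (b.δ_pos k) x ((r k).S i)
      (by rw [hx]; exact ((h9.trans_le (min_le_left _ _)).le).trans (h8 x hx))
    obtain ⟨y, h13, h14⟩ := h10 z h11
    refine ⟨y, h13, (hl_dW_tri (hk.ok H) (b.δ_pos k).le x z y).trans_lt ?_⟩
    rw [h12, hx]
    linarith [h9.trans_le (min_le_right _ _)]

theorem snap {ρ' : I} (hρ : ρ' < ρ) : ∃ η : ℝ, 0 < η ∧ ∀ e : ℝ, 0 < e → e ≤ η → ∀ N₀ : ℕ,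
    ∃ N, N₀ ≤ N ∧ ∀ᶠ k in (b.U : Filter ℕ),
      Snap (r k) (b.δ k) α 𝒟 (fB 𝒟 α.1 ρ') N e (5 * η) := by
  have h1 : ∀ᶠ η : ℝ in 𝓝[>] 0, ∀ c ∈ α.1, rR ρ' c + 8 * η ≤ rR ρ c := by
    refine (eventually_all_finite α.1.finite_toSet).2 fun c hc => nhdsWithin_le_nhds ?_
    have h2 : rR ρ' c < rR ρ c :=
      mul_lt_mul_of_pos_left (by simpa using hρ) (by exact_mod_cast hpos c hc)
    have h3 : Continuous fun η : ℝ => rR ρ' c + 8 * η := by fun_prop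
    exact (h3.tendsto 0).eventually (ge_mem_nhds (by simpa using h2))
  obtain ⟨η, h2, h3⟩ := (h1.and self_mem_nhdsWithin).exists
  refine ⟨η, h3, fun e he heη N₀ => ?_⟩
  obtain ⟨N₁, h4⟩ := h.cov e he
  obtain ⟨N₂, h5⟩ := (α.1.finite_toSet.image Prod.fst).bddAbove
  refine ⟨max N₀ (max N₁ N₂), le_max_left _ _, ?_⟩
  have h6 : ∀ᶠ k in (b.U : Filter ℕ), ∀ c ∈ α.1, rR ρ c - e ≤ b.δ k * rN (b.δ k) (r k).ρ c :=
    (eventually_all_finite α.1.finite_toSet).2 fun c hc =>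
      (h.rad (hpos c hc)).eventually (le_mem_nhds (by linarith))
  filter_upwards [h4, h.near (max N₀ (max N₁ N₂)) he, h6, hev] with k h4 h7 h6 hk
  refine ⟨hk, fun v => ?_, fun i hi j hj => ?_, fun i hi v hv h8 => le_iInf₂ fun c hc => ?_⟩
  · obtain ⟨i, hi, h8⟩ := h4 v
    exact ⟨i, by omega, h8⟩
  · rw [← ENNReal.ofReal_toReal (h.fin i j)]
    exact ENNReal.ofReal_le_ofReal (by linarith [(abs_le.1 (h7 i hi j hj)).1])
  · have h9 : c.1 ≤ N₂ := h5 ⟨c, hc, rfl⟩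
    have h10 := (abs_le.1 (h7 i hi c.1 (by omega))).2
    have h11 : b.δ k * rN (b.δ k) (r k).ρ c ≤ (r k).sd (b.δ k) ((r k).S c.1) v :=
      mul_le_mul_of_nonneg_left (by exact_mod_cast (RZ.lt_of_mem hv hc).le) (b.δ_pos k).le
    have h12 := (r k).sd_tri (b.δ_pos k).le ((r k).S c.1) ((r k).S i) v
    rw [(r k).sd_comm ((r k).S c.1) ((r k).S i)] at h12
    rw [← ENNReal.ofReal_toReal (h.fin i c.1), rd_eq,
      ← ENNReal.ofReal_sub _ (rR_pos ρ' (hpos c hc)).le]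
    exact ENNReal.ofReal_le_ofReal (by linarith [h2 c hc, h6 c hc])

theorem low_fin (H : HS) {ρ' : I} (hρ : ρ' < ρ) (a a' : ℕ) :
    ∀ᶠ k in (b.U : Filter ℕ), ∀ x y, (r k).ι H (b.δ k) α x = (r k).S a →
      (r k).ι H (b.δ k) α y = (r k).S a' → cd 𝒟 (fB 𝒟 α.1 ρ') a a' < ⊤ := by
  obtain ⟨η, h1, h2⟩ := h.snap hpos hev hρ
  obtain ⟨N, h3, h4⟩ := h2 η h1 le_rfl (max a a')
  filter_upwards [h4, b.small h1] with k hk h5 x y hx hy
  refine (hk.chain (b.δ_pos k) h1 H (s := 1) (by push_cast; linarith) (dW _ x y) x y a a'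
    (by omega) (by omega) ?_ ?_ (by omega)).trans_lt ENNReal.ofReal_lt_top
  · rw [hx, RZ.sd_self]; exact h1.le
  · rw [hy, RZ.sd_self]; exact h1.le

theorem low (H : HS) {ρ' : I} (hρ : ρ' < ρ) (a a' : ℕ) (T : ℝ) {ε : ℝ} (hε : 0 < ε) :
    ∃ e : ℝ, 0 < e ∧ ∀ᶠ k in (b.U : Filter ℕ), ∀ x y v v', (r k).ι H (b.δ k) α x = (r k).S a →
      (r k).ι H (b.δ k) α y = (r k).S a' → b.δ k * dW _ x v ≤ T → b.δ k * dW _ v' y ≤ T →
      (r k).sd (b.δ k) ((r k).ι H (b.δ k) α v) ((r k).ι H (b.δ k) α v') ≤ e →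
      cd 𝒟 (fB 𝒟 α.1 ρ') a a' ≤ ENNReal.ofReal (b.δ k * dW _ x v + b.δ k * dW _ v' y + ε) := by
  obtain ⟨η, h1, h2⟩ := h.snap hpos hev hρ
  obtain ⟨m, hm⟩ := exists_nat_ge (2 * T / η)
  rw [div_le_iff₀ h1] at hm
  set e := min η (ε / (6 * m + 10)) with he
  have h3 : 0 < e := lt_min h1 (by positivity)
  have h4 : e ≤ η := min_le_left _ _
  have h5 : e * (6 * m + 10) ≤ ε := (le_div_iff₀ (by positivity)).1 (min_le_right _ _)
  obtain ⟨N, h6, h7⟩ := h2 e h3 h4 (max a a')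
  refine ⟨e, h3, ?_⟩
  filter_upwards [h7, b.small (half_pos h1)] with k hk h8 x y v v' hx hy h9 h10 h11
  have hδ := b.δ_pos k
  have h12 := Nat.floor_le (div_pos h1 hδ).le
  have h13 := Nat.lt_floor_add_one (η / b.δ k)
  rw [le_div_iff₀ hδ] at h12
  rw [div_lt_iff₀ hδ] at h13
  set s := ⌊η / b.δ k⌋₊
  have h14 : ∀ n : ℕ, b.δ k * n ≤ T → n ≤ m * s := fun n hn => by
    have h15 : b.δ k * n ≤ b.δ k * (m * s) := by
      have : (0 : ℝ) ≤ m := Nat.cast_nonneg m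
      nlinarith
    exact_mod_cast le_of_mul_le_mul_left h15 hδ
  obtain ⟨i, hi, h15⟩ := hk.cov ((r k).ι H (b.δ k) α v)
  obtain ⟨j, hj, h16⟩ := hk.cov ((r k).ι H (b.δ k) α v')
  have h17 := hk.chain hδ h3 H (s := s) (by linarith) m x v a i (by omega) hi
    (by rw [hx, RZ.sd_self]; exact h3.le) h15 (h14 _ h9)
  have h18 := hk.chain hδ h3 H (s := s) (by linarith) m v' y j a' hj (by omega) h16
    (by rw [hy, RZ.sd_self]; exact h3.le) (h14 _ h10)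
  have h19 := hk.step hδ h3 hi hj ((hk.ev.sub H).mem v) h15 h16 h11 (by linarith)
  refine (cd_tri a i a').trans ((add_le_add h17 ((cd_tri i j a').trans
    (add_le_add h19 h18))).trans ?_)
  rw [← ENNReal.ofReal_add (by positivity) (by positivity),
    ← ENNReal.ofReal_add (by positivity) (by positivity)]
  exact ENNReal.ofReal_le_ofReal (by linarith)

end NC

end Pool.Agent.QL.LC
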