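import Pool.Agent.P.MP_7a6434d8_pr.QL.C.HoleDefs
import Pool.Agent.P.MP_7a6434d8_pr.QL.C.Meas
import Pool.Agent.P.MP_7a6434d8_pr.QL.C.Api

/-! Block HOLE: measurability of the code of the hole, and resampling of the hole. -/

open MeasureTheory ProbabilityTheory Set Filter Topology Metric
open scoped ENNReal unitInterval

namespace Pool.Agent.QL.LC

open Pool.Agent.P.MP_7a6434d8_pr Pool.Agent.P.MP_7a6434d8_pr.Mp

instance hlp_smpl_prob (X : Type) [MeasurableSpace X] [Finite X] [Nonempty X] :
    IsProbabilityMeasure (smpl X) := by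
  unfold smpl
  infer_instance

theorem hlp_measurable_inner {n : ℕ} (H : HoleSys n) (q : Quad n) (A : Set q.Vertex) :
    Measurable (H.inner q A) :=
  measurable_pi_lambda _ fun i =>
    (Measurable.of_discrete (f := Function.invFun (H.ι q A))).comp
      ((measurable_pi_apply i).comp (measurable_thinIn (A := A) MeasurableSet.of_discrete))

theorem hlp_measurable_W (H : HS) (δ : ℝ) (α : Rg) {Y : Type} [MeasurableSpace Y]
    (G : (t : Mp) → (ℕ → V t) → Y) (hG : ∀ t, Measurable (G t)) :
    Measurable fun r : RZ => G (r.W H δ α) (r.inn H δ α) :=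
  measurable_hole δ α (fun n q A _ p => G ((H.1 n).W q A) ((H.1 n).inner q A p.2))
    fun n q A _ => (hG _).comp ((hlp_measurable_inner (H.1 n) q A).comp measurable_snd)

theorem measurable_hlI (H : HS) (δ : ℝ) (α : Rg) (i j : ℕ) :
    Measurable fun r => hlI H δ α r i j := by
  classical
  match i with
  | 0 => exact Measurable.ite (measurableSet_ev δ α) measurable_const measurable_const
  | 1 => exact hlp_measurable_W H δ α (fun t _ => ENNReal.ofReal (δ ^ 2 * per t))
            fun _ => measurable_const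
  | 2 => exact hlp_measurable_W H δ α (fun t _ => ENNReal.ofReal (δ ^ 4 * size t))
            fun _ => measurable_const
  | 3 => exact hlp_measurable_W H δ α (fun t _ => hlOm δ j t) fun _ => measurable_const
  | 4 => exact hlp_measurable_W H δ α (fun t _ => hlInj δ j t) fun _ => measurable_const
  | 5 => exact hlp_measurable_W H δ α (fun t s => hlRng δ t (s j)) fun t =>
            (Measurable.of_discrete (f := hlRng δ t)).comp (measurable_pi_apply j)
  | 6 => exact measurable_hole δ α (fun _ _ A _ p => if p.2 j ∈ A then (1 : ℝ≥0∞) else 0)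
            fun _ q A _ => (Measurable.of_discrete
              (f := fun x : q.Vertex => if x ∈ A then (1 : ℝ≥0∞) else 0)).comp
              ((measurable_pi_apply j).comp measurable_snd)
  | (i + 7) => exact measurable_hole δ α
                (fun _ q A _ _ => (Nat.card A : ℝ≥0∞) / Nat.card q.Vertex)
                fun _ _ _ _ => measurable_const

theorem measurable_hlC (H : HS) (b : Base) (α : Rg) (k : ℕ) : Measurable (hlC H b α k) :=
  measurable_pi_lambda _ fun _ => measurable_hlI H _ α _ _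

theorem hlp_EQS_mono (n : ℕ) {G G' : (q : Quad n) → (ℕ → q.Vertex) → ℝ≥0∞}
    (h : ∀ q S, G q S ≤ G' q S) : EQS n G ≤ EQS n G' :=
  ENNReal.div_le_div_right (ENNReal.tsum_le_tsum fun q => lintegral_mono (h q)) _

theorem hlp_EQS_le' (n : ℕ) {G : (q : Quad n) → (ℕ → q.Vertex) → ℝ≥0∞} {c : ℝ≥0∞}
    (h : ∀ q, ∫⁻ S, G q S ∂smpl q.Vertex ≤ c) : EQS n G ≤ c := by
  have : Finite (Quad n) := Finite.of_injective (fun q : Quad n => (q.α, q.φ, q.root)) (by
    rintro ⟨a, b, c, _, _, _, _, _⟩ ⟨a', b', c', _, _, _, _, _⟩ h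
    simp only [Prod.mk.injEq] at h
    obtain ⟨rfl, rfl, rfl⟩ := h
    rfl)
  have := Fintype.ofFinite (Quad n)
  unfold EQS
  refine ENNReal.div_le_of_le_mul ((ENNReal.tsum_le_tsum h).trans (le_of_eq ?_))
  rw [tsum_fintype, Finset.sum_const, nsmul_eq_mul, Nat.card_eq_fintype_card, mul_comm]
  rfl

theorem hlp_EQS_le (n : ℕ) {G : (q : Quad n) → (ℕ → q.Vertex) → ℝ≥0∞} {c : ℝ≥0∞}
    (h : ∀ q S, G q S ≤ c) : EQS n G ≤ c :=
  hlp_EQS_le' n fun q => (lintegral_mono (h q)).trans (by simp)

theorem hlp_AV_mono (L m : ℕ) {F F' : Mp → ℝ≥0∞}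
    (h : ∀ t, ok t → per t = L → size t = m → F t ≤ F' t) : AV L m F ≤ AV L m F' :=
  ENNReal.div_le_div_right (Finset.sum_le_sum fun t ht =>
    have h1 := (counta_mem L m t).1 ht
    h t h1.1 h1.2.1 h1.2.2) _

theorem hlp_AVS_const (L m : ℕ) (F : Mp → ℝ≥0∞) : AVS L m (fun t _ => F t) = AV L m F := by
  unfold AVS
  simp only [lintegral_const, measure_univ, mul_one]

open Classical in
/-- An estimate for discs of given perimeter and size passes to the hole. -/
theorem hlp_plug (H : HS) (δ : ℝ) (α : Rg) (n : ℕ) (P : ℕ → ℕ → Prop)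
    (B : (t : Mp) → (ℕ → V t) → Prop) (hB : ∀ t, MeasurableSet {s | B t s}) (η : ℝ≥0∞)
    (h : ∀ L m, 1 ≤ L → P L m → AVS L m (fun t s => if B t s then 1 else 0) ≤ η) :
    lawN n {r | r.ev δ α ∧ P (per (r.W H δ α)) (size (r.W H δ α)) ∧
      B (r.W H δ α) (r.inn H δ α)} ≤ η := by
  set G : (t : Mp) → (ℕ → V t) → ℝ≥0∞ := fun t s => if B t s then 1 else 0 with hG
  have mG : ∀ t, Measurable (G t) := fun t =>
    Measurable.ite (hB t) measurable_const measurable_const
  set F : (IIdx → ℝ≥0∞) → ℝ≥0∞ := fun c =>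
    if ∃ L m : ℕ, P L m ∧ c .per = L ∧ c .size = m then 1 else 0 with hF
  have mF : Measurable F := by
    refine Measurable.ite ?_ measurable_const measurable_const
    simp only [ofPred_exists]
    exact MeasurableSet.iUnion fun L => MeasurableSet.iUnion fun m =>
      (MeasurableSet.const _).inter ((measurableSet_eq_fun (measurable_pi_apply _)
        measurable_const).inter (measurableSet_eq_fun (measurable_pi_apply _) measurable_const))
  have eF : ∀ (q : Quad n) A S, F ((H.1 n).icode q A S) =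
      if P (per ((H.1 n).W q A)) (size ((H.1 n).W q A)) then 1 else 0 := by
    intro q A S
    refine if_congr ⟨?_, fun h => ⟨_, _, h, rfl, rfl⟩⟩ rfl rfl
    rintro ⟨L, m, h1, h2, h3⟩
    have h2' : ((per ((H.1 n).W q A) : ℕ) : ℝ≥0∞) = L := h2
    have h3' : ((size ((H.1 n).W q A) : ℕ) : ℝ≥0∞) = m := h3
    rw [Nat.cast_injective h2', Nat.cast_injective h3']
    exact h1
  set g : RZ → ℝ≥0∞ := fun r => if r.ev δ α then
    (if P (per (r.W H δ α)) (size (r.W H δ α)) then 1 else 0) * G (r.W H δ α) (r.inn H δ α)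
    else 0 with hg
  have mg : Measurable g := Measurable.ite (measurableSet_ev δ α)
    (hlp_measurable_W H δ α (fun t s => (if P (per t) (size t) then 1 else 0) * G t s)
      fun t => (mG t).const_mul _) measurable_const
  have h1 := mul_meas_ge_le_lintegral (μ := lawN n) mg 1
  rw [one_mul] at h1
  refine (measure_mono ?_).trans (h1.trans ?_)
  · rintro r ⟨k1, k2, k3⟩
    show 1 ≤ g r
    simp only [hg, hG, if_pos k1, if_pos k2, if_pos k3, mul_one, le_refl]
  rw [lintegral_lawN n mg]
  refine (lintegral_mono (g := fun _ => η) fun ρ => ?_).trans (by simp)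
  have h2 := (H.2 n).plug (Jd δ ρ α.1) α.2 F G mF mG
  simp only [eF] at h2
  refine (le_of_eq h2).trans (hlp_EQS_le n fun q S => ?_)
  by_cases k1 : Ev q S (Jd δ ρ α.1) α.2
  · rw [if_pos k1]
    split_ifs with k2
    · rw [one_mul]
      exact h _ _ ((H.2 n).sub q S _ _ k1).per_pos k2
    · simp
  · rw [if_neg k1]
    exact zero_le

theorem hlp_law_le {b : Base} (w : World b) (k : ℕ) {E : Set RZ} (hE : MeasurableSet E)
    (T : ℝ → Prop) {η η' : ℝ≥0∞} (hT : w.ϑ {s | ¬ T s} ≤ η')
    (h : ∀ s, T s → lawN (w.N k s) E ≤ η) : w.law k E ≤ η + η' := by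
  rw [← lintegral_indicator_one hE, w.lintegral_law k (measurable_one.indicator hE)]
  simp only [lintegral_indicator_one hE]
  refine (lintegral_mono (g := fun s => η + {s | ¬ T s}.indicator 1 s) fun s => ?_).trans ?_
  · by_cases hs : T s
    · exact (h s hs).trans le_self_add
    · have := lawN_prob (w.N_pos k s)
      show _ ≤ η + {s | ¬ T s}.indicator 1 s
      rw [indicator_of_mem (show s ∈ {s | ¬ T s} from hs)]
      exact prob_le_one.trans le_add_self
  · rw [lintegral_add_left measurable_const, lintegral_const, measure_univ, mul_one]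
    exact add_le_add le_rfl ((lintegral_indicator_one_le _).trans hT)

theorem hlp_law_le' {b : Base} (w : World b) (k : ℕ) {E : Set RZ} (hE : MeasurableSet E)
    {η : ℝ≥0∞} (h : ∀ n, 1 ≤ n → lawN n E ≤ η) : w.law k E ≤ η := by
  have := hlp_law_le w k hE (fun _ => True) (η := η) (η' := 0) (by simp)
    fun s _ => h _ (w.N_pos k s)
  rwa [add_zero] at this

end Pool.Agent.QL.LC
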