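import Pool.Agent.P.MP_7a6434d8_pr.QL.C.HoleP0

/-! Block HOLE: almost sure properties of the boundary of the hole. -/

open MeasureTheory ProbabilityTheory Set Filter Topology Metric
open scoped ENNReal unitInterval

namespace Pool.Agent.QL.LC

open Pool.Agent.P.MP_7a6434d8_pr Pool.Agent.P.MP_7a6434d8_pr.Mp

theorem hlp_null {b : Base} {w : World b} {Y : Type} [TopologicalSpace Y] [PolishSpace Y]
    [CompactSpace Y] [MeasurableSpace Y] [BorelSpace Y] {f : ℕ → RZ → Y} {Q : Measure Y}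
    [IsProbabilityMeasure Q] (h : w.Lim f Q) (hf : ∀ k, Measurable (f k)) (N : Set Y)
    (hN : ∀ η : ℝ≥0∞, 0 < η → ∃ O, IsOpen O ∧ N ⊆ O ∧
      ∀ᶠ k in (b.U : Filter ℕ), w.law k (f k ⁻¹' O) ≤ η) : ∀ᵐ y ∂Q, y ∉ N := by
  refine measure_eq_zero_iff_ae_notMem.1 (nonpos_iff_eq_zero.1
    (le_of_forall_gt_imp_ge_of_dense fun η hη => ?_))
  obtain ⟨O, h1, h2, h3⟩ := hN η hη
  exact (measure_mono h2).trans (h.open_le hf h1 h3)

/-- Macroscopic holes with constant `B`. -/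
def hlpBx (B : ℝ) : Set (ℕ → ℝ≥0∞) :=
  {h | 0 < hx h 0 0 ∧ ENNReal.ofReal (1 / B) < hx h 1 0 ∧ hx h 1 0 < ENNReal.ofReal B ∧
    ENNReal.ofReal (1 / B) < hx h 2 0 ∧ hx h 2 0 < ENNReal.ofReal B}

theorem hlp_open_lt (c : ℝ≥0∞) (i j : ℕ) : IsOpen {h : ℕ → ℝ≥0∞ | c < hx h i j} :=
  isOpen_lt continuous_const (continuous_hx i j)

theorem hlp_open_gt (c : ℝ≥0∞) (i j : ℕ) : IsOpen {h : ℕ → ℝ≥0∞ | hx h i j < c} :=
  isOpen_lt (continuous_hx i j) continuous_const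

theorem hlpBx_open (B : ℝ) : IsOpen (hlpBx B) :=
  (hlp_open_lt _ _ _).inter ((hlp_open_lt _ _ _).inter ((hlp_open_gt _ _ _).inter
    ((hlp_open_lt _ _ _).inter (hlp_open_gt _ _ _))))

theorem hlp_ev_small {x : ℝ≥0∞} (hx : x ≠ 0) :
    ∀ᶠ B : ℕ in atTop, ENNReal.ofReal (1 / ((B : ℝ) + 1)) < x := by
  have h := ENNReal.tendsto_ofReal (tendsto_one_div_add_atTop_nhds_zero_nat (𝕜 := ℝ))
  rw [ENNReal.ofReal_zero] at h
  exact h.eventually (gt_mem_nhds (pos_iff_ne_zero.2 hx))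

theorem hlp_ev_large {x : ℝ≥0∞} (hx : x ≠ ⊤) :
    ∀ᶠ B : ℕ in atTop, x < ENNReal.ofReal ((B : ℝ) + 1) :=
  (ENNReal.tendsto_ofReal_atTop.comp
    (tendsto_atTop_add_const_right _ 1 tendsto_natCast_atTop_atTop)).eventually
      (lt_mem_nhds (lt_top_iff_ne_top.2 hx))

theorem HBox.hlp_ev {h : ℕ → ℝ≥0∞} (hb : HBox h) : ∀ᶠ B : ℕ in atTop, h ∈ hlpBx (B + 1) := by
  obtain ⟨h0, h1, h2, h3, h4⟩ := hb
  filter_upwards [hlp_ev_small h1, hlp_ev_large h2, hlp_ev_small h3, hlp_ev_large h4]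
    with B k1 k2 k3 k4
  exact ⟨pos_iff_ne_zero.2 h0, k1, k2, k3, k4⟩

theorem hlp_lt_of {x y : ℝ} (h : ENNReal.ofReal x < ENNReal.ofReal y) : x < y :=
  lt_of_not_ge fun h' => absurd h (not_lt.2 (ENNReal.ofReal_le_ofReal h'))

variable {H : HS} {b : Base} {α : Rg}

theorem hlp_ev_of {k : ℕ} {r : RZ} (h : 0 < hx (hlC H b α k r) 0 0) : r.ev (b.δ k) α := by
  by_contra hn
  rw [hx_hlC] at h
  exact absurd h (not_lt.2 (if_neg hn).le)

theorem hlp_box_of {k : ℕ} {r : RZ} {B : ℝ} (h : hlC H b α k r ∈ hlpBx B) :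
    r.ev (b.δ k) α ∧ MBox B (b.δ k) (per (r.W H (b.δ k) α)) (size (r.W H (b.δ k) α)) := by
  obtain ⟨h0, h1, h2, h3, h4⟩ := h
  rw [hx_hlC] at h1 h2 h3 h4
  exact ⟨hlp_ev_of h0, (hlp_lt_of h1).le, (hlp_lt_of h2).le, (hlp_lt_of h3).le,
    (hlp_lt_of h4).le⟩

variable {w : World b} {Q : Measure (ℕ → ℝ≥0∞)} [IsProbabilityMeasure Q]

theorem hlp_om (h1 : E1Stmt) (hQ : w.Lim (hlC H b α) Q) :
    ∀ᵐ h ∂Q, HBox h → ⨅ M, hx h 3 M = 0 := by
  classical
  have key : ∀ B e : ℕ, ∀ᵐ h ∂Q, h ∉ {h | h ∈ hlpBx (B + 1) ∧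
      ∀ M, ENNReal.ofReal (1 / ((e : ℝ) + 1)) < hx h 3 M} := by
    intro B e
    refine hlp_null hQ (measurable_hlC H b α) _ fun η hη => ?_
    obtain ⟨θ, δ₀, hθ, hδ, h2⟩ := h1 (B + 1) (1 / ((e : ℝ) + 1)) η (by positivity) hη
    obtain ⟨M, hM⟩ := exists_nat_one_div_lt hθ
    have hO := (hlpBx_open (B + 1)).inter (hlp_open_lt (ENNReal.ofReal (1 / ((e : ℝ) + 1))) 3 M)
    refine ⟨_, hO, fun h hh => ⟨hh.1, hh.2 M⟩, ?_⟩
    filter_upwards [b.δ_lim.eventually (ge_mem_nhds hδ)] with k hk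
    refine hlp_law_le' w k (measurable_hlC H b α k hO.measurableSet) fun n _ => ?_
    refine (measure_mono ?_).trans (hlp_plug H (b.δ k) α n (MBox (B + 1) (b.δ k))
      (fun t _ => ENNReal.ofReal (1 / ((e : ℝ) + 1)) < hlOm (b.δ k) M t)
      (fun _ => MeasurableSet.const _) η fun L m _ hb => ?_)
    · rintro r ⟨k1, k2⟩
      have k3 : _ < hx (hlC H b α k r) 3 M := k2
      rw [hx_hlC] at k3
      exact ⟨(hlp_box_of k1).1, (hlp_box_of k1).2, k3⟩
    · rw [hlp_AVS_const]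
      refine (hlp_AV_mono L m fun t _ hL _ => ?_).trans (h2 _ (b.δ_pos k) hk L m hb)
      split_ifs with k1 k2
      · exact le_rfl
      · exfalso
        simp only [hlOm, lt_iSup_iff] at k1
        obtain ⟨p, p', ⟨a1, a2, a3⟩, a4⟩ := k1
        rw [hL] at a2 a3
        exact k2 ⟨p, p', a1, a2, a3.trans (mul_le_mul_of_nonneg_right hM.le (Nat.cast_nonneg L)),
          hlp_lt_of a4⟩
      · exact zero_le
      · exact le_rfl
  filter_upwards [ae_all_iff.2 fun B => ae_all_iff.2 (key B)] with h hh hb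
  by_contra hn
  obtain ⟨B, hB⟩ := hb.hlp_ev.exists
  obtain ⟨e, he⟩ := (hlp_ev_small hn).exists
  exact hh B e ⟨hB, fun M => he.trans_le (iInf_le _ M)⟩

theorem hlp_inj (h1 : E2Stmt) (hQ : w.Lim (hlC H b α) Q) :
    ∀ᵐ h ∂Q, HBox h → ∀ M, hx h 4 M ≠ 0 := by
  classical
  have key : ∀ B M : ℕ, ∀ᵐ h ∂Q, h ∉ {h | h ∈ hlpBx (B + 1) ∧ hx h 4 M = 0} := by
    intro B M
    refine hlp_null hQ (measurable_hlC H b α) _ fun η hη => ?_
    obtain ⟨ε, δ₀, hε, hδ, h2⟩ := h1 (B + 1) (1 / ((M : ℝ) + 1)) η (by positivity)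
      (by positivity) hη
    have hO := (hlpBx_open (B + 1)).inter (hlp_open_gt (ENNReal.ofReal ε) 4 M)
    refine ⟨_, hO, fun h hh => ⟨hh.1, ?_⟩, ?_⟩
    · show hx h 4 M < _
      rw [hh.2]
      exact ENNReal.ofReal_pos.2 hε
    filter_upwards [b.δ_lim.eventually (ge_mem_nhds hδ)] with k hk
    refine hlp_law_le' w k (measurable_hlC H b α k hO.measurableSet) fun n _ => ?_
    refine (measure_mono ?_).trans (hlp_plug H (b.δ k) α n (MBox (B + 1) (b.δ k))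
      (fun t _ => hlInj (b.δ k) M t < ENNReal.ofReal ε)
      (fun _ => MeasurableSet.const _) η fun L m _ hb => ?_)
    · rintro r ⟨k1, k2⟩
      have k3 : hx (hlC H b α k r) 4 M < _ := k2
      rw [hx_hlC] at k3
      exact ⟨(hlp_box_of k1).1, (hlp_box_of k1).2, k3⟩
    · rw [hlp_AVS_const]
      refine (hlp_AV_mono L m fun t _ hL _ => ?_).trans (h2 _ (b.δ_pos k) hk L m hb)
      split_ifs with k1 k2
      · exact le_rfl
      · exfalso
        simp only [hlInj, iInf_lt_iff] at k1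
        obtain ⟨p, p', ⟨a1, a2, a3, a4⟩, a5⟩ := k1
        rw [hL] at a2 a3 a4
        exact k2 ⟨p, p', a1, a2, a3, a4, (hlp_lt_of a5).le⟩
      · exact zero_le
      · exact le_rfl
  filter_upwards [ae_all_iff.2 fun B => ae_all_iff.2 (key B)] with h hh hb M hM
  obtain ⟨B, hB⟩ := hb.hlp_ev.exists
  exact hh B M ⟨hB, hM⟩

theorem hlp_rng (h1 : QVStmt) (hQ : w.Lim (hlC H b α) Q) :
    ∀ᵐ h ∂Q, hx h 0 0 ≠ 0 → hx h 1 0 = 0 → ∀ i, hx h 5 i = 0 := by
  classical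
  obtain ⟨C, hC, h2⟩ := h1
  have key : ∀ i e : ℕ, ∀ᵐ h ∂Q, h ∉ {h | 0 < hx h 0 0 ∧ hx h 1 0 = 0 ∧
      ENNReal.ofReal (1 / ((e : ℝ) + 1)) < hx h 5 i} := by
    intro i e
    refine hlp_null hQ (measurable_hlC H b α) _ fun η hη => ?_
    set ε : ℝ := 1 / ((e : ℝ) + 1) with hε
    have hε0 : 0 < ε := by positivity
    obtain ⟨j, hj⟩ := (hlp_ev_small hη.ne').exists
    set τ : ℝ := 1 / ((j : ℝ) + 1) * ε ^ 2 / C with hτ
    have hτ0 : 0 < τ := by positivity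
    have hO := (hlp_open_lt 0 0 0).inter ((hlp_open_gt (ENNReal.ofReal τ) 1 0).inter
      (hlp_open_lt (ENNReal.ofReal ε) 5 i))
    refine ⟨_, hO, fun h hh => ⟨hh.1, ?_, hh.2.2⟩, Eventually.of_forall fun k => ?_⟩
    · show hx h 1 0 < _
      rw [hh.2.1]
      exact ENNReal.ofReal_pos.2 hτ0
    refine hlp_law_le' w k (measurable_hlC H b α k hO.measurableSet) fun n _ => ?_
    have hδ := b.δ_pos k
    refine (measure_mono ?_).trans (hlp_plug H (b.δ k) α n (fun L _ => b.δ k ^ 2 * L < τ)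
      (fun t s => ENNReal.ofReal ε < hlRng (b.δ k) t (s i))
      (fun t => measurableSet_lt measurable_const ((Measurable.of_discrete
        (f := hlRng (b.δ k) t)).comp (measurable_pi_apply i))) η fun L m hL hb => ?_)
    · rintro r ⟨k1, k2, k3⟩
      have k4 : hx (hlC H b α k r) 1 0 < _ := k2
      have k5 : _ < hx (hlC H b α k r) 5 i := k3
      rw [hx_hlC] at k4 k5
      exact ⟨hlp_ev_of k1, hlp_lt_of k4, k5⟩
    · have hy : 1 ≤ ⌈ε / b.δ k⌉₊ := Nat.ceil_pos.2 (by positivity)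
      refine le_trans (hlp_AV_mono L m fun t _ hL' _ => lintegral_mono fun s => ?_)
        (((h2 L m hL).2 i _ hy).trans (le_trans (ENNReal.ofReal_le_ofReal ?_) hj.le))
      · dsimp only
        split_ifs with k1 k2
        · exact le_rfl
        · exfalso
          simp only [hlRng, lt_iSup_iff] at k1
          obtain ⟨p, p', ⟨a1, a2⟩, a3⟩ := k1
          rw [hL'] at a1 a2
          refine k2 ⟨p, p', a1, a2, ?_⟩
          have a4 := hlp_lt_of a3
          have a5 : ε / b.δ k < (dW t (s i) (bv t p') : ℝ) - dW t (s i) (bv t p) := by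
            rw [div_lt_iff₀ hδ]
            linarith
          have a6 : dW t (s i) (bv t p) ≤ dW t (s i) (bv t p') := by
            have : 0 < ε / b.δ k := by positivity
            exact_mod_cast (show (dW t (s i) (bv t p) : ℝ) ≤ dW t (s i) (bv t p') by linarith)
          have a7 : ⌈ε / b.δ k⌉₊ ≤ dW t (s i) (bv t p') - dW t (s i) (bv t p) :=
            Nat.ceil_le.2 (by rw [Nat.cast_sub a6]; exact a5.le)
          omega
        · exact zero_le
        · exact le_rfl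
      · have a1 : ε / b.δ k ≤ ⌈ε / b.δ k⌉₊ := Nat.le_ceil _
        have a2 : 0 < ε / b.δ k := by positivity
        calc C * L / (⌈ε / b.δ k⌉₊ : ℝ) ^ 2 ≤ C * L / (ε / b.δ k) ^ 2 := by gcongr
          _ = C * (b.δ k ^ 2 * L) / ε ^ 2 := by field_simp
          _ ≤ C * τ / ε ^ 2 := by gcongr
          _ = 1 / ((j : ℝ) + 1) := by rw [hτ]; field_simp
  filter_upwards [ae_all_iff.2 fun i => ae_all_iff.2 (key i)] with h hh h0 h1 i
  by_contra hn
  obtain ⟨e, he⟩ := (hlp_ev_small hn).exists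
  exact hh i e ⟨pos_iff_ne_zero.2 h0, h1, he⟩

theorem hlp_cross (h1 : CrossStmt) (hQ : w.Lim (hlC H b α) Q) :
    ∀ᵐ h ∂Q, hx h 0 0 ≠ 0 → hx h 2 0 ≠ 0 → hx h 1 0 ≠ ⊤ := by
  classical
  have key : ∀ e : ℕ, ∀ᵐ h ∂Q, h ∉ {h | 0 < hx h 0 0 ∧
      ENNReal.ofReal (1 / ((e : ℝ) + 1)) < hx h 2 0 ∧ hx h 1 0 = ⊤} := by
    intro e
    refine hlp_null hQ (measurable_hlC H b α) _ fun η hη => ?_
    set a : ℝ := 1 / ((e : ℝ) + 1) with ha
    have ha0 : 0 < a := by positivity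
    have hη2 : 0 < η / 2 := ENNReal.half_pos hη.ne'
    obtain ⟨B, hB, h2⟩ := w.size_tight hη2
    obtain ⟨j, hj⟩ := (hlp_ev_small hη2.ne').exists
    obtain ⟨M, hM⟩ := h1 (a / B) (1 / ((j : ℝ) + 1)) α.1.length (by positivity) (by positivity)
    obtain ⟨n₀, hn₀⟩ := eventually_atTop.1 hM
    have hO := (hlp_open_lt 0 0 0).inter ((hlp_open_lt (ENNReal.ofReal a) 2 0).inter
      (hlp_open_lt (ENNReal.ofReal (|M| * √B)) 1 0))
    refine ⟨_, hO, fun h hh => ⟨hh.1, hh.2.1, ?_⟩, ?_⟩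
    · show _ < hx h 1 0
      rw [hh.2.2]
      exact ENNReal.ofReal_lt_top
    have h3 : Tendsto (fun k => b.δ k ^ 4 * n₀) b.U (𝓝 0) := by
      simpa using (b.δ_lim.pow 4).mul_const (n₀ : ℝ)
    filter_upwards [h2, h3.eventually (ge_mem_nhds (show (0 : ℝ) < 1 / B by positivity))]
      with k k1 k2
    have hδ := b.δ_pos k
    have mE := measurable_hlC H b α k hO.measurableSet
    refine (hlp_law_le w k mE _ k1 (η := η / 2) fun s hs => ?_).trans (ENNReal.add_halves η).le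
    set n := w.N k s with hn
    have hn1 : n₀ ≤ n := by
      have : b.δ k ^ 4 * n₀ ≤ b.δ k ^ 4 * n := k2.trans hs.1
      exact_mod_cast le_of_mul_le_mul_left this (by positivity)
    rw [← lintegral_indicator_one mE, lintegral_lawN n (measurable_one.indicator mE)]
    refine (lintegral_mono (g := fun _ => η / 2) fun ρ => ?_).trans (by simp)
    refine le_trans (hlp_EQS_mono n fun q S => ?_)
      ((hn₀ n hn1 (H.1 n) (H.2 n) (Jd (b.δ k) ρ α.1) α.2 (by simp [Jd])).trans hj.le)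
    refine indicator_apply_le' (fun hr => ?_) fun _ => zero_le
    obtain ⟨a1, a2, a3⟩ := hr
    have a4 : _ < hx (hlC H b α k (RZ.mk' q (ρ, S))) 2 0 := a2
    have a5 : _ < hx (hlC H b α k (RZ.mk' q (ρ, S))) 1 0 := a3
    rw [hx_hlC] at a4 a5
    have a6 : a < b.δ k ^ 4 * size ((H.1 n).W q (VO q S (Jd (b.δ k) ρ α.1) α.2)) := hlp_lt_of a4
    have a7 : |M| * √B < b.δ k ^ 2 * per ((H.1 n).W q (VO q S (Jd (b.δ k) ρ α.1) α.2)) :=
      hlp_lt_of a5
    have a8 : Ev q S (Jd (b.δ k) ρ α.1) α.2 := hlp_ev_of a1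
    have hB0 : 0 < B := by linarith
    refine (if_pos ⟨a8, ?_, ?_⟩).ge
    · refine le_of_mul_le_mul_left (le_trans ?_ a6.le) (show 0 < b.δ k ^ 4 by positivity)
      calc b.δ k ^ 4 * (a / B * n) = a / B * (b.δ k ^ 4 * n) := by ring
        _ ≤ a / B * B := by gcongr; exact hs.2
        _ = a := by field_simp
    · refine le_of_mul_le_mul_left (le_trans ?_ a7.le) (show 0 < b.δ k ^ 2 by positivity)
      have a9 : b.δ k ^ 2 * √(n : ℝ) ≤ √B := by
        refine Real.le_sqrt_of_sq_le ?_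
        rw [mul_pow, Real.sq_sqrt (Nat.cast_nonneg n), ← pow_mul]
        exact hs.2
      calc b.δ k ^ 2 * (M * √(n : ℝ)) = M * (b.δ k ^ 2 * √(n : ℝ)) := by ring
        _ ≤ |M| * (b.δ k ^ 2 * √(n : ℝ)) := by gcongr; exact le_abs_self M
        _ ≤ |M| * √B := by gcongr
  filter_upwards [ae_all_iff.2 key] with h hh h0 h2 h1
  obtain ⟨e, he⟩ := (hlp_ev_small h2).exists
  exact hh e ⟨pos_iff_ne_zero.2 h0, he, h1⟩

end Pool.Agent.QL.LC
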