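import Pool.Agent.P.MP_7a6434d8_pr.QL.C.HoleLift

/-! Block HOLE: pattern, inner samples, distances, covering, injectivity. -/

open MeasureTheory ProbabilityTheory Set Filter Topology Metric
open scoped ENNReal unitInterval

namespace Pool.Agent.QL.LC

open Pool.Agent.LGD Pool.Agent.P.MP_7a6434d8_pr Pool.Agent.P.MP_7a6434d8_pr.Mp Pool.Agent.QL.M2

namespace NC

variable {H : HS} {b : Base} {r : ℕ → RZ} {𝒟 : ℕ → ℕ → ℝ≥0∞} {ρ : I} {α : Rg} (h : NC b r 𝒟 ρ)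
  (hpos : ∀ c ∈ α.1, 0 < c.2) (hev : ∀ᶠ k in (b.U : Filter ℕ), (r k).ev (b.δ k) α)

include h hpos hev

theorem from_target (H : HS) {a : ℕ} (ha : inW 𝒟 α ρ a) : ∃ T : ℝ, ∀ᶠ k in (b.U : Filter ℕ),
    ∃ x y, (r k).ι H (b.δ k) α x = (r k).S α.2 ∧ (r k).ι H (b.δ k) α y = (r k).S a ∧
      b.δ k * dW _ x y ≤ T := by
  refine ⟨(cd 𝒟 (fB 𝒟 α.1 ρ) α.2 a).toReal + 1, ?_⟩
  filter_upwards [h.lift hpos hev H α.2 a ((ENNReal.lt_ofReal_iff_toReal_lt ha.ne).2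
    (lt_add_one _)), hev] with k h1 hk
  obtain ⟨x, hx⟩ := (hk.sub H).ex hk.target
  obtain ⟨y, hy, h2⟩ := h1 x hx
  exact ⟨x, y, hx, hy, h2.le⟩

theorem cover (H : HS) (hT : ThickStmt) {ℓ : ℝ} (hℓ : 0 < ℓ)
    (hL : Tendsto (fun k => b.δ k ^ 2 * per ((r k).W H (b.δ k) α)) b.U (𝓝 ℓ))
    (e1 : ∀ ε > 0, ∃ θ > 0, ∀ᶠ k in (b.U : Filter ℕ), ∀ p p' : ℕ, p ≤ p' →
      p' ≤ 2 * per ((r k).W H (b.δ k) α) → (p' : ℝ) - p ≤ θ * per ((r k).W H (b.δ k) α) →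
      b.δ k * dW ((r k).W H (b.δ k) α) (bv _ p) (bv _ p') ≤ ε)
    (e2 : ∀ θ > 0, ∃ ε > 0, ∀ᶠ k in (b.U : Filter ℕ), ∀ p p' : ℕ, p ≤ p' →
      p' ≤ 2 * per ((r k).W H (b.δ k) α) → θ * per ((r k).W H (b.δ k) α) ≤ (p' : ℝ) - p →
      (p' : ℝ) - p ≤ (2 - θ) * per ((r k).W H (b.δ k) α) →
      ε < b.δ k * dW ((r k).W H (b.δ k) α) (bv _ p) (bv _ p')) (ε : ℝ) (hε : 0 < ε) :
    ∃ N : ℕ, ∀ᶠ k in (b.U : Filter ℕ), ∀ v, ∃ i ≤ N,
      b.δ k * dW ((r k).W H (b.δ k) α) v ((r k).inn H (b.δ k) α i) ≤ ε := by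
  classical
  obtain ⟨ε₃, h1, h2⟩ := e2 (1 / 4) (by norm_num)
  obtain ⟨ε', h3, h4, h5⟩ : ∃ ε' : ℝ, 0 < ε' ∧ 2 * ε' ≤ ε ∧ 2 * ε' ≤ ε₃ :=
    ⟨min ε ε₃ / 2, by positivity, by linarith [min_le_left ε ε₃], by linarith [min_le_right ε ε₃]⟩
  obtain ⟨θ₁, h6, h7⟩ := e1 (ε' / 4) (by positivity)
  obtain ⟨θ, h8, h9, h10⟩ : ∃ θ : ℝ, 0 < θ ∧ θ ≤ 1 / 8 ∧ 2 * θ ≤ θ₁ :=
    ⟨min (1 / 8) (θ₁ / 2), by positivity, min_le_left _ _, by linarith [min_le_right (1 / 8) (θ₁ / 2)]⟩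
  obtain ⟨ε₂, h11, h12⟩ := e2 θ h8
  obtain ⟨e, h13, h14, h15⟩ : ∃ e : ℝ, 0 < e ∧ 4 * e ≤ ε₂ ∧ 12 * e ≤ ε' :=
    ⟨min (ε₂ / 4) (ε' / 12), by positivity, by linarith [min_le_left (ε₂ / 4) (ε' / 12)],
      by linarith [min_le_right (ε₂ / 4) (ε' / 12)]⟩
  obtain ⟨N, hN⟩ := h.cov e h13
  refine ⟨N, ?_⟩
  have h16 : ∀ᶠ k in (b.U : Filter ℕ), b.δ k ^ 2 < θ * (b.δ k ^ 2 * per ((r k).W H (b.δ k) α)) :=
    (b.δ_lim.pow 2).eventually_lt (hL.const_mul θ) (by simpa using mul_pos h8 hℓ)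
  filter_upwards [h2, h7, h12, hN, h16, hev, b.small h13] with k h2 h7 h12 hN h16 hk h17 v
  have hδ := b.δ_pos k
  have deep : ∀ w, e ≤ b.δ k * dB _ w → ∃ i ≤ N,
      b.δ k * dW ((r k).W H (b.δ k) α) w ((r k).inn H (b.δ k) α i) ≤ e := fun w hw => by
    obtain ⟨i, hi, h18⟩ := hN ((r k).ι H (b.δ k) α w)
    rw [RZ.sd_comm] at h18
    obtain ⟨y, h19, h20⟩ := hk.lift hδ w _ (h18.trans hw)
    have h21 := hk.inn_count H (a := i) (h19 ▸ (hk.sub H).mem y)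
    rw [← (hk.sub H).ι_inj (h21.trans h19.symm)] at h20
    exact ⟨_, le_trans (Nat.count_le _) hi, h20.trans_le h18⟩
  rcases le_total e (b.δ k * dB _ v) with h18 | h18
  · obtain ⟨i, hi, h19⟩ := deep v h18
    exact ⟨i, hi, by linarith⟩
  obtain ⟨p, hp, h19⟩ := dB_ex v
  have h20 : (0 : ℝ) ≤ per ((r k).W H (b.δ k) α) := Nat.cast_nonneg _
  obtain ⟨w, h21, h22⟩ := hT _ (hk.ok H) (b.δ k) θ (ε' / 4) ε₂ ε₃ ε' e hδ h8 h9
    (le_of_mul_le_mul_left (by linarith) (pow_pos hδ 2)) h13.le (by linarith) (by linarith)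
    (by linarith) (fun p p' h1 h2 h3 => h7 p p' h1 h2 (h3.trans (by gcongr))) h12 h2 p hp
  obtain ⟨i, hi, h23⟩ := deep w h22.le
  refine ⟨i, hi, ?_⟩
  have h24 := hl_dW_tri (hk.ok H) hδ.le v (bv _ p) ((r k).inn H (b.δ k) α i)
  have h25 := hl_dW_tri (hk.ok H) hδ.le (bv _ p) w ((r k).inn H (b.δ k) α i)
  rw [h19] at h24
  linarith

variable (hR : RGood 𝒟 α ρ)

include hR

theorem cd_le (H : HS) {a a' : ℕ} {t : ℝ} (ht : ∀ᶠ k in (b.U : Filter ℕ), ∃ x y,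
    (r k).ι H (b.δ k) α x = (r k).S a ∧ (r k).ι H (b.δ k) α y = (r k).S a' ∧
      b.δ k * dW _ x y ≤ t) : cd 𝒟 (fB 𝒟 α.1 ρ) a a' ≤ ENNReal.ofReal t := by
  refine hR.lc a a' _ fun ρ' hρ => ENNReal.le_of_forall_pos_le_add fun ε hε _ => ?_
  obtain ⟨e, h1, h2⟩ := h.low hpos hev H hρ a a' t (ε := ε) hε
  obtain ⟨k, h3, x, y, hx, hy, h4⟩ := (h2.and ht).exists
  have h5 : 0 ≤ b.δ k * dW _ x y := mul_nonneg (b.δ_pos k).le (Nat.cast_nonneg _)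
  refine (h3 x y y y hx hy h4 (by simpa [dW_self] using h5.trans h4)
    (by rw [RZ.sd_self]; exact h1.le)).trans ?_
  rw [← ENNReal.ofReal_coe_nnreal, ← ENNReal.ofReal_add (h5.trans h4) ε.coe_nonneg]
  exact ENNReal.ofReal_le_ofReal (by simpa [dW_self] using h4)

theorem pat (i : ℕ) (H : HS) :
    ∀ᶠ k in (b.U : Filter ℕ), ((r k).S i ∈ (r k).A (b.δ k) α ↔ inW 𝒟 α ρ i) := by
  by_cases hi : inW 𝒟 α ρ i
  · obtain ⟨T, hT⟩ := h.from_target hpos hev H hi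
    filter_upwards [hT, hev] with k ⟨x, y, _, hy, _⟩ hk
    exact iff_of_true (hy ▸ (hk.sub H).mem y) hi
  · obtain ⟨ρ', h1⟩ := not_forall.1 fun h1 => hi (hR.lf α.2 i h1)
    rw [Classical.not_imp] at h1
    filter_upwards [h.low_fin hpos hev H h1.1 α.2 i, hev] with k h2 hk
    refine iff_of_false (fun h3 => ?_) hi
    obtain ⟨x, hx⟩ := (hk.sub H).ex hk.target
    obtain ⟨y, hy⟩ := (hk.sub H).ex h3
    exact h1.2 (h2 x y hx hy)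

variable (hinf : {i | inW 𝒟 α ρ i}.Infinite)

include hinf

theorem inn (H : HS) (i : ℕ) : ∀ᶠ k in (b.U : Filter ℕ),
    (r k).ι H (b.δ k) α ((r k).inn H (b.δ k) α i) = (r k).S (idx 𝒟 α ρ i) := by
  classical
  filter_upwards [(eventually_all_finite (finite_le_nat (idx 𝒟 α ρ i))).2
    fun a _ => h.pat hpos hev hR a H, hev] with k h1 hk
  have h2 := hk.inn_count H ((h1 _ le_rfl).2 (Nat.nth_mem_of_infinite hinf i))
  have h3 : Nat.count (fun a => (r k).S a ∈ (r k).A (b.δ k) α) (idx 𝒟 α ρ i) = i := by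
    refine Eq.trans ?_ (Nat.count_nth_of_infinite hinf i)
    rw [Nat.count_eq_card_filter_range, Nat.count_eq_card_filter_range]
    exact congrArg _ (Finset.filter_congr fun a ha => h1 a (Finset.mem_range.1 ha).le)
  rwa [h3] at h2

theorem up (H : HS) (i j : ℕ) {t : ℝ}
    (ht : cd 𝒟 (fB 𝒟 α.1 ρ) (idx 𝒟 α ρ i) (idx 𝒟 α ρ j) < ENNReal.ofReal t) :
    ∀ᶠ k in (b.U : Filter ℕ),
      b.δ k * dW _ ((r k).inn H (b.δ k) α i) ((r k).inn H (b.δ k) α j) < t := by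
  filter_upwards [h.lift hpos hev H _ _ ht, h.inn hpos hev hR hinf H i, h.inn hpos hev hR hinf H j,
    hev] with k h1 h2 h3 hk
  obtain ⟨y, hy, h4⟩ := h1 _ h2
  rwa [(hk.sub H).ι_inj (h3.trans hy.symm)]

theorem dist_fin (H : HS) (i j : ℕ) : cd 𝒟 (fB 𝒟 α.1 ρ) (idx 𝒟 α ρ i) (idx 𝒟 α ρ j) ≠ ⊤ := by
  obtain ⟨T, hT⟩ := h.from_target hpos hev H (Nat.nth_mem_of_infinite hinf i)
  obtain ⟨T', hT'⟩ := h.from_target hpos hev H (Nat.nth_mem_of_infinite hinf j)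
  refine ((h.cd_le hpos hev hR H (t := T + T') ?_).trans_lt ENNReal.ofReal_lt_top).ne
  filter_upwards [hT, hT', hev] with k ⟨x, y, hx, hy, h1⟩ ⟨x', y', hx', hy', h2⟩ hk
  obtain rfl := (hk.sub H).ι_inj (hx.trans hx'.symm)
  rw [dW_comm (hk.ok H)] at h1
  exact ⟨y, y', hy, hy', (hl_dW_tri (hk.ok H) (b.δ_pos k).le y x y').trans (add_le_add h1 h2)⟩

theorem dist_lim (H : HS) (i j : ℕ) : Tendsto (fun k => ENNReal.ofReal (b.δ k *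
    dW _ ((r k).inn H (b.δ k) α i) ((r k).inn H (b.δ k) α j))) b.U
    (𝓝 (cd 𝒟 (fB 𝒟 α.1 ρ) (idx 𝒟 α ρ i) (idx 𝒟 α ρ j))) := by
  refine tendsto_order.2 ⟨fun s hs => ?_, fun s hs => ?_⟩
  · by_contra h1
    rw [← Ultrafilter.eventually_not] at h1
    refine absurd hs (not_lt.2 ((h.cd_le hpos hev hR H (t := s.toReal) ?_).trans
      ENNReal.ofReal_toReal_le))
    filter_upwards [h1, h.inn hpos hev hR hinf H i, h.inn hpos hev hR hinf H j] with k h1 h2 h3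
    exact ⟨_, _, h2, h3, (ENNReal.ofReal_le_iff_le_toReal (hs.trans_le le_top).ne).1 (not_lt.1 h1)⟩
  · obtain ⟨t, -, h1, h2⟩ := ENNReal.lt_iff_exists_real_btwn.1 hs
    filter_upwards [h.up hpos hev hR hinf H i j h1] with k h3
    exact (ENNReal.ofReal_le_ofReal h3.le).trans_lt h2

theorem bdry (H : HS) (i : ℕ) : Tendsto (fun k => ENNReal.ofReal (b.δ k *
    dB _ ((r k).inn H (b.δ k) α i))) b.U (𝓝 (fB 𝒟 α.1 ρ (idx 𝒟 α ρ i))) := by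
  rw [← ENNReal.ofReal_toReal (h.fB_ne_top hev.exists.choose_spec.ne_nil ρ (idx 𝒟 α ρ i))]
  refine ENNReal.tendsto_ofReal (tendsto_order.2 ⟨fun s hs => ?_, fun s hs => ?_⟩)
  · obtain ⟨t, h1, h2⟩ := exists_between hs
    filter_upwards [h.f_low hpos hev H _ h2, h.inn hpos hev hR hinf H i] with k h3 h4
    exact h1.trans_le (h3 _ h4)
  · obtain ⟨t, h1, h2⟩ := exists_between hs
    filter_upwards [h.f_up hpos hev H _ h1, h.inn hpos hev hR hinf H i] with k h3 h4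
    exact (h3 _ h4).trans_lt h2

theorem inj (H : HS) (hc : ∀ ε > 0, ∃ N : ℕ, ∀ᶠ k in (b.U : Filter ℕ), ∀ v, ∃ i ≤ N,
      b.δ k * dW ((r k).W H (b.δ k) α) v ((r k).inn H (b.δ k) α i) ≤ ε) (ε : ℝ) (hε : 0 < ε) :
    ∃ η > 0, ∀ᶠ k in (b.U : Filter ℕ), ∀ v v',
      b.δ k * (r k).q.graph.dist ((r k).ι H (b.δ k) α v) ((r k).ι H (b.δ k) α v') ≤ η →
      b.δ k * dW ((r k).W H (b.δ k) α) v v' ≤ ε := by
  obtain ⟨N, hN⟩ := hc (ε / 10) (by positivity)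
  have key : ∀ i j, ∀ᶠ η : ℝ in 𝓝[>] 0, ∀ᶠ k in (b.U : Filter ℕ), ∀ v v',
      b.δ k * dW ((r k).W H (b.δ k) α) v ((r k).inn H (b.δ k) α i) ≤ ε / 10 →
      b.δ k * dW ((r k).W H (b.δ k) α) v' ((r k).inn H (b.δ k) α j) ≤ ε / 10 →
      (r k).sd (b.δ k) ((r k).ι H (b.δ k) α v) ((r k).ι H (b.δ k) α v') ≤ η →
      b.δ k * dW _ ((r k).inn H (b.δ k) α i) ((r k).inn H (b.δ k) α j) ≤ ε / 2 := by
    intro i j
    by_cases h1 : cd 𝒟 (fB 𝒟 α.1 ρ) (idx 𝒟 α ρ i) (idx 𝒟 α ρ j) ≤ ENNReal.ofReal (ε * 2 / 5)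
    · refine Eventually.of_forall fun η => ?_
      filter_upwards [h.up hpos hev hR hinf H i j (t := ε / 2) (h1.trans_lt
        ((ENNReal.ofReal_lt_ofReal_iff (by positivity)).2 (by linarith)))] with k h2 _ _ _ _ _
      exact h2.le
    · obtain ⟨ρ', h2⟩ := not_forall.1 fun h2 => h1 (hR.lc _ _ _ h2)
      rw [Classical.not_imp] at h2
      obtain ⟨e, h3, h4⟩ := h.low hpos hev H h2.1 (idx 𝒟 α ρ i) (idx 𝒟 α ρ j) (ε / 10)
        (ε := ε / 10) (by positivity)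
      filter_upwards [nhdsWithin_le_nhds (ge_mem_nhds h3)] with η hη
      filter_upwards [h4, h.inn hpos hev hR hinf H i, h.inn hpos hev hR hinf H j, hev]
        with k h4 h5 h6 hk v v' h7 h8 h9
      rw [dW_comm (hk.ok H)] at h7
      exact absurd ((h4 _ _ v v' h5 h6 h7 h8 (h9.trans hη)).trans
        (ENNReal.ofReal_le_ofReal (by linarith))) h2.2
  obtain ⟨η, h1, h2⟩ := (((eventually_all_finite (finite_le_nat N)).2 fun i _ =>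
    (eventually_all_finite (finite_le_nat N)).2 fun j _ => key i j).and self_mem_nhdsWithin).exists
  refine ⟨η, h2, ?_⟩
  filter_upwards [(eventually_all_finite (finite_le_nat N)).2 fun i hi =>
    (eventually_all_finite (finite_le_nat N)).2 fun j hj => h1 i hi j hj, hN, hev]
    with k h3 h4 hk v v' h5
  obtain ⟨i, hi, h6⟩ := h4 v
  obtain ⟨j, hj, h7⟩ := h4 v'
  have h8 := h3 i hi j hj v v' h6 h7 h5
  have h9 := hl_dW_tri (hk.ok H) (b.δ_pos k).le v ((r k).inn H (b.δ k) α i) v'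
  have h10 := hl_dW_tri (hk.ok H) (b.δ_pos k).le ((r k).inn H (b.δ k) α i)
    ((r k).inn H (b.δ k) α j) v'
  rw [dW_comm (hk.ok H)] at h7
  linarith

end NC

end Pool.Agent.QL.LC
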