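import Pool.Agent.P.MP_7a6434d8_pr.QL.W.GCoup

/-! Small cells of a compact space and the coupling by cells. -/

open MeasureTheory ProbabilityTheory Set Filter Topology Metric
open scoped ENNReal NNReal

namespace Pool.Agent.QL

theorem inp_pou {Y : Type} [PseudoMetricSpace Y] [CompactSpace Y] {θ : ℝ} (hθ : 0 < θ) :
    ∃ (k : ℕ) (φ : Fin k → C(Y, ℝ≥0∞)), (∀ y, ∑ i, φ i y = 1) ∧
      ∀ i y y', φ i y ≠ 0 → φ i y' ≠ 0 → dist y y' ≤ θ := by
  obtain ⟨t, -, tf, ht⟩ := finite_cover_balls_of_compact (isCompact_univ (X := Y)) (half_pos hθ)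
  obtain ⟨k, z, hz⟩ := tf.fin_param
  obtain ⟨f, hf⟩ := PartitionOfUnity.exists_isSubordinate isClosed_univ
    (fun i : Fin k => ball (z i) (θ / 2)) (fun _ => isOpen_ball) (by
      intro y _
      obtain ⟨x, hx, hy⟩ := mem_iUnion₂.1 (ht (mem_univ y))
      rw [← hz.2] at hx
      obtain ⟨i, rfl⟩ := hx
      exact mem_iUnion.2 ⟨i, hy⟩)
  refine ⟨k, fun i => ⟨fun y => ENNReal.ofReal (f i y),
    ENNReal.continuous_ofReal.comp (f i).continuous⟩, fun y => ?_, fun i y y' h h' => ?_⟩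
  · have h := f.sum_eq_one (mem_univ y)
    rw [finsum_eq_sum_of_fintype] at h
    simp only [ContinuousMap.coe_mk]
    rw [← ENNReal.ofReal_sum_of_nonneg fun i _ => f.nonneg i y, h, ENNReal.ofReal_one]
  · have g : ∀ y, ENNReal.ofReal (f i y) ≠ 0 → y ∈ ball (z i) (θ / 2) := fun y h =>
      hf i (subset_tsupport _ fun e => h (by rw [e, ENNReal.ofReal_zero]))
    have h1 := mem_ball.1 (g y h)
    have h2 := mem_ball.1 (g y' h')
    linarith [dist_triangle_right y y' (z i)]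

theorem inp_cells (Y : Type) [TopologicalSpace Y] [CompactSpace Y]
    [TopologicalSpace.MetrizableSpace Y] : ∃ R : ℕ → Y → Y → Prop,
    (∀ j, ∃ (k : ℕ) (φ : Fin k → C(Y, ℝ≥0∞)), (∀ y, ∑ i, φ i y = 1) ∧
      ∀ i y y', φ i y ≠ 0 → φ i y' ≠ 0 → R j y y') ∧
    ∀ (l : Filter ℕ) (j : ℕ → ℕ) (y y' : ℕ → Y) (z : Y), Tendsto j l atTop →
      (∀ m, R (j m) (y m) (y' m)) → Tendsto y' l (𝓝 z) → Tendsto y l (𝓝 z) := by
  let := TopologicalSpace.metrizableSpaceMetric Y
  refine ⟨fun j y y' => dist y y' ≤ 1 / ((j : ℝ) + 1), fun j => inp_pou (by positivity),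
    fun l j y y' z hj h h' => ?_⟩
  refine h'.congr_dist (squeeze_zero (fun _ => dist_nonneg) (fun m => ?_)
    (tendsto_one_div_add_atTop_nhds_zero_nat.comp hj))
  rw [dist_comm]
  exact h m

theorem inp_couple {C Ω Z : Type} [MeasurableSpace C] [MeasurableSpace Ω] [MeasurableSpace Z]
    (U : Measure C) [IsProbabilityMeasure U] (P : Measure Ω) [IsProbabilityMeasure P]
    (K : Kernel Ω Z) [IsMarkovKernel K] {k : ℕ} (a : Fin k → C → ℝ≥0∞)
    (ha : ∀ i, Measurable (a i)) (a1 : ∀ c, ∑ i, a i c = 1) (φ : Fin k → Z → ℝ≥0∞)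
    (hφ : ∀ i, Measurable (φ i)) (φ1 : ∀ z, ∑ i, φ i z = 1) :
    ∃ Γ : Measure (C × Ω), Γ.fst = U ∧ Γ.snd = P ∧ ∀ T : Set (Ω × Z), MeasurableSet T →
      Γ {p | ∃ i, a i p.1 ≠ 0 ∧ ∃ z, (p.2, z) ∈ T ∧ φ i z ≠ 0}ᶜ ≤
        ∑ i, (∫⁻ c, a i c ∂U - ∫⁻ p, φ i p.2 ∂P ⊗ₘ K) + (P ⊗ₘ K) Tᶜ := by
  have hb : ∀ i, Measurable fun ω => ∫⁻ z, φ i z ∂K ω := fun i => (hφ i).lintegral_kernel
  have hP : Measure.sum (fun i => U.withDensity (a i)) = U := by
    rw [← withDensity_tsum ha]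
    convert withDensity_one
    ext c
    rw [ENNReal.tsum_apply, tsum_fintype, a1]
    rfl
  have hL : Measure.sum (fun i => P.withDensity fun ω => ∫⁻ z, φ i z ∂K ω) = P := by
    rw [← withDensity_tsum hb]
    convert withDensity_one
    ext ω
    rw [ENNReal.tsum_apply, tsum_fintype, ← lintegral_finsetSum _ fun i _ => hφ i]
    simp [φ1]
  have : IsProbabilityMeasure (Measure.sum fun i => U.withDensity (a i)) := by
    rw [hP]; infer_instance
  have : IsProbabilityMeasure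
      (Measure.sum fun i => P.withDensity fun ω => ∫⁻ z, φ i z ∂K ω) := by
    rw [hL]; infer_instance
  obtain ⟨Γ, h1, h2, h3⟩ := exists_coupling (fun i => U.withDensity (a i))
    (fun i => P.withDensity fun ω => ∫⁻ z, φ i z ∂K ω)
  refine ⟨Γ, h1.trans hP, h2.trans hL, fun T hT => ?_⟩
  have m1 : ∀ i, Measurable (T.indicator fun p : Ω × Z => φ i p.2) := fun i =>
    ((hφ i).comp measurable_snd).indicator hT
  have m2 : ∀ i, Measurable (Tᶜ.indicator fun p : Ω × Z => φ i p.2) := fun i =>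
    ((hφ i).comp measurable_snd).indicator hT.compl
  have m3 : ∀ i, MeasurableSet
      {ω | ∫⁻ z, T.indicator (fun p : Ω × Z => φ i p.2) (ω, z) ∂K ω = 0} := fun i =>
    (m1 i).lintegral_kernel_prod_right' (measurableSet_singleton 0)
  refine (h3 _ (fun i => {c | a i c = 0})
    (fun i => {ω | ∫⁻ z, T.indicator (fun p : Ω × Z => φ i p.2) (ω, z) ∂K ω = 0}) ?_).trans ?_
  · intro i c ω hc hω hn
    refine hn ⟨i, hc, ?_⟩
    by_contra h
    refine hω ((lintegral_congr fun z => ?_).trans lintegral_zero)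
    by_cases hz : (ω, z) ∈ T
    · rw [indicator_of_mem hz]
      by_contra h0
      exact h ⟨z, hz, h0⟩
    · exact indicator_of_notMem hz _
  have e1 : ∀ i, U.withDensity (a i) {c | a i c = 0} = 0 := fun i => by
    have m : MeasurableSet {c | a i c = 0} := ha i (measurableSet_singleton 0)
    rw [withDensity_apply _ m, setLIntegral_congr_fun m (g := fun _ => 0) fun c hc => hc,
      lintegral_zero]
  have e2 : ∀ i, (P.withDensity fun ω => ∫⁻ z, φ i z ∂K ω)
      {ω | ∫⁻ z, T.indicator (fun p : Ω × Z => φ i p.2) (ω, z) ∂K ω = 0} ≤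
      ∫⁻ p, Tᶜ.indicator (fun p : Ω × Z => φ i p.2) p ∂P ⊗ₘ K := fun i => by
    rw [withDensity_apply _ (m3 i), Measure.lintegral_compProd (m2 i)]
    refine le_trans (setLIntegral_mono' (m3 i) fun ω hω => ?_) (setLIntegral_le_lintegral _ _)
    have h : ∫⁻ z, φ i z ∂K ω = ∫⁻ z, T.indicator (fun p : Ω × Z => φ i p.2) (ω, z) ∂K ω +
        ∫⁻ z, Tᶜ.indicator (fun p : Ω × Z => φ i p.2) (ω, z) ∂K ω := by
      rw [← lintegral_add_left ((m1 i).fun_comp measurable_prodMk_left)]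
      exact lintegral_congr fun z =>
        (indicator_self_add_compl_apply T (fun p : Ω × Z => φ i p.2) (ω, z)).symm
    rw [h, hω, zero_add]
  simp only [e1, tsum_fintype, Finset.sum_const_zero, add_zero]
  refine add_le_add (le_of_eq (Finset.sum_congr rfl fun i _ => ?_))
    ((Finset.sum_le_sum fun i _ => e2 i).trans (le_of_eq ?_))
  · rw [withDensity_apply _ .univ, withDensity_apply _ .univ, Measure.restrict_univ,
      Measure.restrict_univ, Measure.lintegral_compProd ((hφ i).fun_comp measurable_snd)]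
  · rw [← lintegral_finsetSum _ fun i _ => m2 i, ← lintegral_indicator_one hT.compl]
    refine lintegral_congr fun p => ?_
    by_cases hp : p ∈ Tᶜ
    · simp only [indicator_of_mem hp, φ1, Pi.one_apply]
    · simp only [indicator_of_notMem hp, Finset.sum_const_zero]

end Pool.Agent.QL
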