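import Pool.Agent.P.MP_7a6434d8_pr.QL.C.Api
import Pool.Agent.P.MP_7a6434d8_pr.QL.Net.Min

/-! Block LINK: energies of two-zone ball data. -/

open MeasureTheory ProbabilityTheory Set Filter Topology Metric
open scoped ENNReal unitInterval

namespace Pool.Agent.QL.LC

open Pool.Agent.LGD Pool.Agent.P.MP_7a6434d8_pr

theorem lk_ev {A B : Type} {F : Filter A} (l : List B) {p : B → A → Prop}
    (h : ∀ c ∈ l, ∀ᶠ x in F, p c x) : ∀ᶠ x in F, ∀ c ∈ l, p c x :=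
  (eventually_all_finite l.finite_toSet).2 h

theorem lk_ex_ne (x : ℝ) : ex x ≠ 0 := (ENNReal.ofReal_pos.2 (Real.exp_pos x)).ne'

theorem lk_ex_add (x y : ℝ) : ex (x + y) = ex x * ex y := by
  rw [ex, Real.exp_add, ENNReal.ofReal_mul (Real.exp_pos _).le]; rfl

/-- domain and two zones -/
abbrev T3 : Type := List (ℕ × ℚ) × List (ℕ × ℚ) × List (ℕ × ℚ)

/-- scaled radii -/
def scl (q : ℚ) (l : List (ℕ × ℚ)) : List (ℕ × ℚ) := l.map fun c => (c.1, q * c.2)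

/-- the ball data with scaled radii -/
def dat (q : ℚ) (j : T3) : BDat ℚ := (scl q j.1, [(scl q j.2.1, 0, 0), (scl q j.2.2, 1, 1)])

/-- darts in the balls -/
def vb (r : RZ) (δ : ℝ) (l : List (ℕ × ℚ)) : Set (Fin (4 * r.n)) :=
  {d | ∃ c ∈ l, r.q.graph.dist (r.S c.1) (r.q.tail d) ≤ ⌊(c.2 : ℝ) / δ⌋₊}

/-- the rotation that fixes the test functions -/
def prm {n : ℕ} (q : Quad n) (pr : Bool) : Equiv.Perm (Fin (4 * n)) := if pr then q.φ * q.α else q.φ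

/-- energy of ball data -/
noncomputable def bE (r : RZ) (δ : ℝ) (pr : Bool) (j : BDat ℚ) : ℝ≥0∞ :=
  (gmQ r.q).ballE r.S pr (j.toN δ)

theorem measurable_bE (δ : ℝ) (pr : Bool) (j : BDat ℚ) : Measurable fun r => bE r δ pr j := by
  have h := (measurable_pi_apply (pr, j)).comp (measurable_ecd0 δ 1)
  simpa [Function.comp_def, ecd0, nrm, bE] using h

theorem bE_eq (r : RZ) (δ : ℝ) (pr : Bool) (j : BDat ℚ) : bE r δ pr j = dEg r.q.α (prm r.q pr)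
    (vb r δ j.1) (j.2.map fun e => (vb r δ e.1, (e.2.1 : ℝ), (e.2.2 : ℝ))) := by
  have e : ∀ l : List (ℕ × ℚ), (gmQ r.q).bset r.S (l.map fun c => (c.1, ⌊(c.2 : ℝ) / δ⌋₊)) =
      vb r δ l := fun l => by
    ext d
    exact ⟨fun ⟨_, hc, hd⟩ => by
      obtain ⟨c, hc', rfl⟩ := List.mem_map.1 hc
      exact ⟨c, hc', hd⟩, fun ⟨c, hc, hd⟩ => ⟨_, List.mem_map_of_mem hc, hd⟩⟩
  simp only [bE, GM.ballE, BDat.toN, BDat.map, List.map_map, Function.comp_def, e]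
  cases pr <;> rfl

theorem bE_le {r : RZ} {δ δ' : ℝ} (pr : Bool) {j j' : BDat ℚ} (h1 : vb r δ j.1 ⊆ vb r δ' j'.1)
    (h2 : ∀ e ∈ j.2, ∃ e' ∈ j'.2, vb r δ e.1 ⊆ vb r δ' e'.1 ∧ e.2.1 ≤ e'.2.1 ∧ e'.2.2 ≤ e.2.2) :
    bE r δ pr j ≤ bE r δ' pr j' := by
  have h3 : ∀ c ∈ j.2.map fun e => (vb r δ e.1, (e.2.1 : ℝ), (e.2.2 : ℝ)),
      ∃ c' ∈ j'.2.map fun e => (vb r δ' e.1, (e.2.1 : ℝ), (e.2.2 : ℝ)),
        c.1 ⊆ c'.1 ∧ c.2.1 ≤ c'.2.1 ∧ c'.2.2 ≤ c.2.2 := by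
    intro c hc
    obtain ⟨e, he, rfl⟩ := List.mem_map.1 hc
    obtain ⟨e', he', h4, h5, h6⟩ := h2 e he
    exact ⟨_, List.mem_map_of_mem he', h4, Rat.cast_le.2 h5, Rat.cast_le.2 h6⟩
  rw [bE_eq, bE_eq]
  cases pr
  · exact FMap.dE_mono (M := (toFMap r.q).dual) h1 h3
  · exact FMap.dE_mono (M := toFMap r.q) h1 h3

theorem dat_mono (r : RZ) (pr : Bool) (j : T3) {q q' : ℚ} {δ δ' : ℝ} (h0 : 0 ≤ q / δ)
    (h : q / δ ≤ q' / δ') : bE r δ pr (dat q j) ≤ bE r δ' pr (dat q' j) := by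
  have h1 : ∀ l, vb r δ (scl q l) ⊆ vb r δ' (scl q' l) := by
    rintro l d ⟨_, hc, hd⟩
    obtain ⟨c, hc', rfl⟩ := List.mem_map.1 hc
    refine ⟨_, List.mem_map_of_mem hc', hd.trans ?_⟩
    simp only [Rat.cast_mul, mul_div_right_comm]
    rcases le_total 0 (c.2 : ℝ) with h2 | h2
    · exact Nat.floor_mono (mul_le_mul_of_nonneg_right h h2)
    · rw [Nat.floor_of_nonpos (mul_nonpos_of_nonneg_of_nonpos h0 h2)]
      exact Nat.zero_le _
  refine bE_le pr (h1 _) ?_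
  simp only [dat, List.mem_cons, List.not_mem_nil, or_false, forall_eq_or_imp, forall_eq,
    exists_eq_or_imp, exists_eq_left]
  exact ⟨Or.inl ⟨h1 _, le_rfl, le_rfl⟩, Or.inr ⟨h1 _, le_rfl, le_rfl⟩⟩

/-- The zones are apart and joined by a chain of balls. -/
def Op (j : T3) (𝒟 : ℕ → ℕ → ℝ≥0∞) : Prop :=
  (∀ c ∈ j.2.1, ∀ c' ∈ j.2.2, ENNReal.ofReal (2 * (c.2 + c'.2)) < 𝒟 c.1 c'.1) ∧
    ∃ c ∈ j.2.1, ∃ c' ∈ j.2.2, Relation.ReflTransGen
      (fun a b : ℕ × ℚ => a ∈ j.1 ∧ 𝒟 a.1 b.1 < ENNReal.ofReal (a.2 / 2)) c c'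

theorem isOpen_Op (j : T3) : IsOpen {g : GC | Op j g.2} := by
  have hc : ∀ a b, Continuous fun g : GC => g.2 a b := fun a b => by fun_prop
  refine isOpen_iff_mem_nhds.2 fun g ⟨h1, c, hc1, c', hc2, h2⟩ => ?_
  have h3 : ∀ᶠ g' in 𝓝 g, Relation.ReflTransGen
      (fun a b : ℕ × ℚ => a ∈ j.1 ∧ g'.2 a.1 b.1 < ENNReal.ofReal (a.2 / 2)) c c' := by
    clear hc2
    induction h2 with
    | refl => exact Eventually.of_forall fun _ => .refl
    | tail _ h4 ih =>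
      filter_upwards [ih, (hc _ _).continuousAt.eventually_lt continuousAt_const h4.2] with g' h5 h6
      exact h5.tail ⟨h4.1, h6⟩
  filter_upwards [h3, lk_ev _ fun c hc1 => lk_ev _ fun c' hc2 =>
    continuousAt_const.eventually_lt (hc _ _).continuousAt (h1 c hc1 c' hc2)] with g' h4 h5
  exact ⟨h5, c, hc1, c', hc2, h4⟩

/-- The edge length is small. -/
def Small (δ : ℝ) (j : T3) : Prop := ∀ c ∈ j.1 ++ j.2.1 ++ j.2.2, 4 * δ ≤ (c.2 : ℝ)

theorem scl_one (l : List (ℕ × ℚ)) : scl 1 l = l := by simp [scl]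

theorem dat_eq (r : RZ) (δ : ℝ) (pr : Bool) (j : T3) : bE r δ pr (dat 1 j) =
    dEg r.q.α (prm r.q pr) (vb r δ j.1) (zon (vb r δ j.1) (vb r δ j.2.1) (vb r δ j.2.2)).2 := by
  simp [bE_eq, dat, scl_one, zon]

theorem pos_fin {r : RZ} {δ : ℝ} (hδ : 0 < δ) (pr : Bool) {j : T3} (hs : Small δ j)
    (h : Op j (gcd0 δ r).2) : bE r δ pr (dat 1 j) ≠ 0 ∧ bE r δ pr (dat 1 j) ≠ ⊤ := by
  classical
  have hcon := graph_connected r.q
  have hfl : ∀ c ∈ j.1 ++ j.2.1 ++ j.2.2, δ * (⌊(c.2 : ℝ) / δ⌋₊ : ℝ) ≤ c.2 := fun c hc => by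
    have h1 := hs c hc
    rw [← le_div_iff₀' hδ]
    exact Nat.floor_le (div_nonneg (by linarith) hδ.le)
  have h0 : ∃ f : Fin (4 * r.n) → ℝ, Inv (prm r.q pr) f ∧ (∀ d ∈ vb r δ j.2.1, f d = 0) ∧
      ∀ d ∈ vb r δ j.2.2, f d = 1 := by
    refine ⟨fun d => if ∃ e ∈ vb r δ j.2.2, (prm r.q pr).SameCycle d e then 1 else 0,
      fun d => by simp only [Equiv.Perm.sameCycle_apply_left], ?_,
      fun d hd => if_pos ⟨d, hd, .refl _ _⟩⟩
    rintro d ⟨c, hc, hd⟩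
    refine if_neg ?_
    rintro ⟨e, ⟨c', hc', he⟩, hde⟩
    have h1 : r.q.graph.dist (r.q.tail d) (r.q.tail e) ≤ 2 := adj_dist _ (by
      cases pr
      exacts [Or.inr (Or.inl hde), Or.inr (Or.inr hde)])
    have h2 := hcon.dist_triangle (u := r.S c.1) (v := r.q.tail d) (w := r.S c'.1)
    have h3 := hcon.dist_triangle (u := r.q.tail d) (v := r.q.tail e) (w := r.S c'.1)
    rw [SimpleGraph.dist_comm] at he
    have h4 : (r.q.graph.dist (r.S c.1) (r.S c'.1) : ℝ) ≤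
        ⌊(c.2 : ℝ) / δ⌋₊ + 2 + ⌊(c'.2 : ℝ) / δ⌋₊ := by exact_mod_cast (by omega)
    refine absurd (h.1 c hc c' hc') (not_lt.2 (ENNReal.ofReal_le_ofReal ?_))
    have h5 := mul_le_mul_of_nonneg_left h4 hδ.le
    linarith [hfl c (by simp [hc]), hfl c' (by simp [hc']), hs c (by simp [hc]),
      hs c' (by simp [hc'])]
  obtain ⟨f, ⟨hf, hf0, hf1⟩, he⟩ : ∃ f : Fin (4 * r.n) → ℝ, (Inv (prm r.q pr) f ∧
      (∀ d ∈ vb r δ j.2.1, f d = 0) ∧ ∀ d ∈ vb r δ j.2.2, f d = 1) ∧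
      bE r δ pr (dat 1 j) = ENNReal.ofReal ((toFMap r.q).en (vb r δ j.1) f) := by
    obtain ⟨f, hf⟩ := h0
    rw [dat_eq]
    cases pr
    · obtain ⟨g, h1, h2, -⟩ := FMap.exists_min (M := (toFMap r.q).dual) (vb r δ j.1)
        ⟨f, (FMap.adm_zon (K := vb r δ j.1)).2 hf⟩
      exact ⟨g, FMap.adm_zon.1 h1, h2⟩
    · obtain ⟨g, h1, h2, -⟩ := FMap.exists_min (M := toFMap r.q) (vb r δ j.1)
        ⟨f, (FMap.adm_zon (K := vb r δ j.1)).2 hf⟩
      exact ⟨g, FMap.adm_zon.1 h1, h2⟩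
  refine ⟨fun h1 => ?_, he ▸ ENNReal.ofReal_ne_top⟩
  rw [he, ENNReal.ofReal_eq_zero, FMap.en] at h1
  have h2 := (Finset.sum_eq_zero_iff_of_nonneg fun d _ => by positivity).1
    (le_antisymm (nonpos_of_mul_nonpos_right h1 one_half_pos)
      (Finset.sum_nonneg fun d _ => by positivity))
  set P : r.q.Vertex → Prop := fun v => ∃ c ∈ j.1,
    r.q.graph.dist (r.S c.1) v + 2 ≤ ⌊(c.2 : ℝ) / δ⌋₊
  have h3 : ∀ d, P (r.q.tail d) → f (r.q.α d) = f d := by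
    rintro d ⟨c, hc, hd⟩
    have h4 := h2 d (Finset.mem_univ d)
    have h5 := adj_dist r.q (e := d) (e' := r.q.α d) (Or.inl rfl)
    have h6 := hcon.dist_triangle (u := r.S c.1) (v := r.q.tail d) (w := r.q.tail (r.q.α d))
    rw [if_pos ⟨⟨c, hc, by omega⟩, ⟨c, hc, h6.trans (by omega)⟩⟩] at h4
    exact sub_eq_zero.1 (pow_eq_zero_iff two_ne_zero |>.1 h4)
  have h4 : ∀ d d', P (r.q.tail d) → r.q.tail d = r.q.tail d' → f d' = f d := by
    intro d d' hd hdd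
    obtain ⟨i, -, rfl⟩ := Equiv.Perm.SameCycle.exists_pow_eq' (Quotient.exact hdd)
    clear hdd
    suffices r.q.tail (((r.q.φ * r.q.α) ^ i) d) = r.q.tail d ∧
      f (((r.q.φ * r.q.α) ^ i) d) = f d from this.2
    induction i with
    | zero => exact ⟨rfl, rfl⟩
    | succ i ih =>
      rw [pow_succ', Equiv.Perm.mul_apply]
      refine ⟨Eq.trans (Quotient.sound (Equiv.Perm.sameCycle_apply_left.2 (.refl _ _))) ih.1,
        Eq.trans ?_ ih.2⟩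
      cases pr
      · exact (hf _).trans (h3 _ (ih.1 ▸ hd))
      · exact hf _
  have h5 : ∀ x y (w : r.q.graph.Walk x y), (∀ z ∈ w.support, P z) → ∀ d d', r.q.tail d = x →
      r.q.tail d' = y → f d' = f d := by
    intro x y w
    induction w with
    | nil => exact fun hP d d' hd hd' => h4 d d' (hP _ (by simp [hd])) (hd.trans hd'.symm)
    | cons ha w ih =>
      intro hP d d' hd hd'
      obtain ⟨e, he1, he2⟩ := adj_dart r.q ha
      rw [ih (fun z hz => hP z (by simp [hz])) (r.q.α e) d' he2 hd', h3 e (hP _ (by simp [he1])),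
        h4 d e (hP _ (by simp [hd])) (hd.trans he1.symm)]
  obtain ⟨c, hc, c', hc', h6⟩ := h.2
  have h7 : f (Quotient.out (r.S c'.1)) = f (Quotient.out (r.S c.1)) := by
    clear hc'
    induction h6 with
    | refl => rfl
    | @tail a b _ h8 ih =>
      obtain ⟨w, hw⟩ := hcon.exists_walk_length_eq_dist (r.S a.1) (r.S b.1)
      refine (h5 _ _ w (fun z hz => ⟨a, h8.1, Nat.le_floor ?_⟩) _ _ (tail_out _ _)
        (tail_out _ _)).trans ih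
      have h9 : ((r.q.graph.dist (r.S a.1) z : ℕ) : ℝ) ≤ r.q.graph.dist (r.S a.1) (r.S b.1) := by
        rw [← hw]
        exact_mod_cast (SimpleGraph.dist_le _).trans (w.length_takeUntil_le_length hz)
      have h10 := ((ENNReal.ofReal_lt_ofReal_iff_of_nonneg (by positivity)).1 h8.2).le
      rw [le_div_iff₀' hδ]
      push_cast
      nlinarith [hs a (by simp [h8.1])]
  rw [hf0 (Quotient.out (r.S c.1)) ⟨c, hc, by simp [tail_out]⟩,
    hf1 (Quotient.out (r.S c'.1)) ⟨c', hc', by simp [tail_out]⟩] at h7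
  exact one_ne_zero h7

theorem val_bound (N : ℕ) : ∃ B : ℝ, ∀ r : RZ, r.n ≤ N → ∀ δ pr j y,
    (B ≤ y → (ex y * bE r δ pr (dat 1 j) < 1 ↔ bE r δ pr (dat 1 j) = 0)) ∧
    (y ≤ -B → (ex y * bE r δ pr (dat 1 j) < 1 ↔ bE r δ pr (dat 1 j) ≠ ⊤)) := by
  obtain ⟨B, hB⟩ := Finite.exists_le fun x : Σ n : Fin (N + 1), Quad n × Bool ×
      Set (Fin (4 * n)) × Set (Fin (4 * n)) × Set (Fin (4 * n)) =>
    |Real.log (dEg x.2.1.α (prm x.2.1 x.2.2.1) x.2.2.2.1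
      (zon x.2.2.2.1 x.2.2.2.2.1 x.2.2.2.2.2).2).toReal|
  refine ⟨B + 1, fun r hr δ pr j y => ?_⟩
  have h1 := hB ⟨⟨r.n, Nat.lt_succ_of_le hr⟩, r.q, pr, vb r δ j.1, vb r δ j.2.1, vb r δ j.2.2⟩
  simp only [← dat_eq] at h1
  generalize bE r δ pr (dat 1 j) = E at h1 ⊢
  rcases eq_or_ne E 0 with rfl | h0
  · simp
  rcases eq_or_ne E ⊤ with rfl | h2
  · simp [ENNReal.mul_top (lk_ex_ne y)]
  have e : ex y * E = ex (y + Real.log E.toReal) := by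
    rw [lk_ex_add, ex, ex, Real.exp_log (ENNReal.toReal_pos h0 h2), ENNReal.ofReal_toReal h2]
  rw [e]
  simp only [ex, ENNReal.ofReal_lt_one, Real.exp_lt_one_iff, h0, h2, iff_false, not_lt, ne_eq,
    not_false_eq_true, iff_true]
  exact ⟨fun _ => by linarith [(abs_le.1 h1).1], fun _ => by linarith [(abs_le.1 h1).2]⟩

/-- The balls `l` cover the balls `l'`. -/
def Cv (𝒟 : ℕ → ℕ → ℝ≥0∞) (l' l : List (ℕ × ℚ)) : Prop :=
  ∀ c' ∈ l', (0 : ℝ) < c'.2 ∧ ∀ a, 𝒟 c'.1 a < ENNReal.ofReal (4 * c'.2) →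
    ∃ c ∈ l, 𝒟 c.1 a < ENNReal.ofReal (c.2 / 2)

theorem ev_cover {b : Base} {r : ℕ → RZ} {c : C0}
    (h : Tendsto (fun k => code0 b k (r k)) b.U (𝓝 c)) (hcov : ⨅ N, c.2.2 (.inl N) = 0)
    {l' l : List (ℕ × ℚ)} (hl : Cv c.1.2 l' l) :
    ∀ᶠ k in (b.U : Filter ℕ), vb (r k) (b.δ k) l' ⊆ vb (r k) (b.δ k) l := by
  obtain ⟨η, ⟨h1, h2⟩, hη⟩ : ∃ η : ℝ, ((∀ e ∈ l', η ≤ e.2) ∧ ∀ e ∈ l, (0 : ℝ) < e.2 / 2 → η ≤ e.2 / 2) ∧
      0 < η := by
    refine (((lk_ev l' fun e he => ?_).and (lk_ev l fun e _ => ?_)).and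
      (self_mem_nhdsWithin (s := Ioi (0 : ℝ)) (a := 0))).exists
    · exact nhdsWithin_le_nhds (Iic_mem_nhds (hl e he).1)
    · exact eventually_imp_distrib_left.2 fun h => nhdsWithin_le_nhds (Iic_mem_nhds h)
  obtain ⟨N, hN⟩ := iInf_lt_iff.1 (hcov ▸ ENNReal.ofReal_pos.2 hη)
  have hd : ∀ i a, Tendsto (fun k => ENNReal.ofReal (b.δ k * (r k).q.graph.dist ((r k).S i)
      ((r k).S a))) b.U (𝓝 (c.1.2 i a)) := fun i a =>
    ((by fun_prop : Continuous fun c : C0 => c.1.2 i a).tendsto c).comp h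
  have h3 := (((by fun_prop : Continuous fun c : C0 => c.2.2 (.inl N)).tendsto c).comp
    h).eventually_lt_const hN
  have h4 : ∀ᶠ k in (b.U : Filter ℕ), ∀ a ∈ List.range (N + 1), ∀ e ∈ l',
      ENNReal.ofReal (4 * e.2) ≤ c.1.2 e.1 a → ENNReal.ofReal (2 * e.2) <
        ENNReal.ofReal (b.δ k * (r k).q.graph.dist ((r k).S e.1) ((r k).S a)) :=
    lk_ev _ fun a _ => lk_ev _ fun e he => eventually_imp_distrib_left.2 fun h5 =>
      (hd _ _).eventually_const_lt (lt_of_lt_of_le ((ENNReal.ofReal_lt_ofReal_iff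
        (by linarith [(hl e he).1])).2 (by linarith [(hl e he).1])) h5)
  have h5 : ∀ᶠ k in (b.U : Filter ℕ), ∀ a ∈ List.range (N + 1), ∀ e ∈ l,
      c.1.2 e.1 a < ENNReal.ofReal (e.2 / 2) → ENNReal.ofReal (b.δ k *
        (r k).q.graph.dist ((r k).S e.1) ((r k).S a)) < ENNReal.ofReal (e.2 / 2) :=
    lk_ev _ fun a _ => lk_ev _ fun e _ => eventually_imp_distrib_left.2 fun h5 =>
      (hd _ _).eventually_lt_const h5
  filter_upwards [h3, h4, h5] with k h3 h4 h5 d ⟨e', he', hd'⟩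
  have hδ := b.δ_pos k
  have hcon := graph_connected (r k).q
  obtain ⟨a, ha⟩ := iInf_lt_iff.1 ((le_iSup (fun v => ⨅ (i : ℕ) (_ : i ≤ N), ENNReal.ofReal
    (b.δ k * (r k).q.graph.dist ((r k).S i) v)) ((r k).q.tail d)).trans_lt h3)
  obtain ⟨haN, ha⟩ := iInf_lt_iff.1 ha
  replace ha := (ENNReal.ofReal_lt_ofReal_iff hη).1 ha
  have haN' : a ∈ List.range (N + 1) := List.mem_range.2 (Nat.lt_succ_of_le haN)
  have h6 : b.δ k * ((r k).q.graph.dist ((r k).S e'.1) ((r k).q.tail d) : ℝ) ≤ e'.2 := by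
    rw [← le_div_iff₀' hδ]
    exact (Nat.le_floor_iff (div_nonneg (hl e' he').1.le hδ.le)).1 hd'
  have h7 : ((r k).q.graph.dist ((r k).S e'.1) ((r k).S a) : ℝ) ≤ (r k).q.graph.dist ((r k).S e'.1)
      ((r k).q.tail d) + (r k).q.graph.dist ((r k).S a) ((r k).q.tail d) := by
    rw [SimpleGraph.dist_comm (u := (r k).S a)]
    exact_mod_cast hcon.dist_triangle
  obtain ⟨e, he, h8⟩ := (hl e' he').2 a (not_le.1 fun h8 => absurd (h4 a haN' e' he' h8)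
    (not_lt.2 (ENNReal.ofReal_le_ofReal (by nlinarith [h1 e' he']))))
  have h9 := (ENNReal.ofReal_lt_ofReal_iff_of_nonneg (by positivity)).1 (h5 a haN' e he h8)
  have h10 : ((r k).q.graph.dist ((r k).S e.1) ((r k).q.tail d) : ℝ) ≤ (r k).q.graph.dist
      ((r k).S e.1) ((r k).S a) + (r k).q.graph.dist ((r k).S a) ((r k).q.tail d) := by
    exact_mod_cast hcon.dist_triangle
  refine ⟨e, he, Nat.le_floor ((le_div_iff₀' hδ).2 ?_)⟩
  nlinarith [h2 e he (lt_of_le_of_lt (by positivity) h9)]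

end Pool.Agent.QL.LC
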