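import Pool.Agent.P.MP_7a6434d8_pr.QL.C.LinkD
import Pool.Agent.P.MP_7a6434d8_pr.QL.C.Meas
import Pool.Agent.P.MP_7a6434d8_pr.QL.Net.Frame
import Pool.Agent.P.MP_7a6434d8_pr.QL.Sph.Geo

/-! Block LINK: ball data between the two bars. -/

open MeasureTheory ProbabilityTheory Set Filter Topology Metric
open scoped ENNReal unitInterval

namespace Pool.Agent.QL.LC

open Pool.Agent.LGD Pool.Agent.P.MP_7a6434d8_pr

/-- primal or dual part -/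
def prj (pr : Bool) (s : Sys) : Idx → ℝ≥0∞ := bif pr then s.1 else s.2

theorem prj_sys (pr : Bool) (x : ℕ → ℂ) (𝒟 : ℕ → ℕ → ℝ≥0∞) (E : EC) :
    prj pr (sys x 𝒟 E) = fun i => ⨆ (j : BDat ℚ) (_ : Ins x 𝒟 i.1 j), E (pr, j) := by
  cases pr <;> rfl

/-- The samples in `A` are covered by the quarter balls. -/
def Cv4 (x : ℕ → ℂ) (𝒟 : ℕ → ℕ → ℝ≥0∞) (A : Set ℂ) (l : List (ℕ × ℚ)) : Prop :=
  ∀ a, x a ∈ A → ∃ c ∈ l, 𝒟 c.1 a < ENNReal.ofReal (c.2 / 4)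

/-- closed small bar -/
noncomputable def CB (a b : ℝ) : Set ℂ := crect a b (11 / 5) (23 / 10)

/-- The ball data are inside `y` and cover the smaller bar. -/
def Sand (y : Data) (x : ℕ → ℂ) (𝒟 : ℕ → ℕ → ℝ≥0∞) (j : T3) : Prop :=
  Ins x 𝒟 y (dat 2 j) ∧ Cv4 x 𝒟 (CB (-(27 / 10)) (27 / 10)) j.1 ∧
    Cv4 x 𝒟 (CB (-(27 / 10)) (-(13 / 5))) j.2.1 ∧ Cv4 x 𝒟 (CB (13 / 5) (27 / 10)) j.2.2 ∧
    Op j 𝒟 ∧ ∀ c ∈ j.1 ++ j.2.1 ++ j.2.2, 0 < c.2

theorem meas_Sand {Ω : Type} [MeasurableSpace Ω] {x : Ω → ℕ → ℂ} {g : Ω → GC}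
    (hx : Measurable x) (hg : Measurable g) (y : Data) (j : T3) :
    MeasurableSet {z | Sand y (x z) (g z).2 j} := by
  have h1 : ∀ a b l, Measurable fun z => Cv4 (x z) (g z).2 (CB a b) l := fun a b l =>
    Measurable.forall fun i => ((measurableSet_setOf.1 ((measurable_pi_apply i).comp hx
      (isCompact_crect _ _ _ _).measurableSet))).imp (Measurable.exists fun c =>
        measurable_const.and (meas_lt (by fun_prop) measurable_const))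
  exact measurableSet_setOf.2 ((meas_Ins hx hg.snd y _).and ((h1 _ _ _).and ((h1 _ _ _).and
    ((h1 _ _ _).and ((measurableSet_setOf.1 (hg (isOpen_Op j).measurableSet)).and
      measurable_const)))))

variable {x : ℕ → ℂ} {𝒟 : ℕ → ℕ → ℝ≥0∞} {j : T3} {τ : ℝ} {q : ℚ}

theorem sand_up {i : Idx} (hi : i.1.Sub Tp) (h : Sand i.1 x 𝒟 j) (h0 : 0 < q)
    (hq : (q : ℝ) ≤ 2 * Real.exp τ) (pr : Bool) (E : EC) :
    Rp (prj pr (sys x (fun a b => ex τ * 𝒟 a b) E)) ≤ (E (pr, dat q j))⁻¹ := by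
  have h1 : ∀ (K : Set ℂ) (l : List (ℕ × ℚ)), (∀ c ∈ scl 2 l, InB x 𝒟 K c) →
      ∀ c ∈ scl q l, InB x (fun a b => ex τ * 𝒟 a b) K c := by
    intro K l hl c hc
    obtain ⟨c, hc', rfl⟩ := List.mem_map.1 hc
    obtain ⟨h2, m, h3⟩ := hl _ (List.mem_map_of_mem hc')
    have h4 : 0 < c.2 := by simpa using h2
    refine ⟨mul_pos h0 h4, m, fun a ha => h3 a ?_⟩
    refine (ENNReal.mul_lt_mul_iff_right (lk_ex_ne τ) ENNReal.ofReal_ne_top).1 (ha.trans_le ?_)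
    rw [ex, ← ENNReal.ofReal_mul (Real.exp_pos _).le]
    refine ENNReal.ofReal_le_ofReal ?_
    have h5 : (0 : ℝ) < c.2 := by exact_mod_cast h4
    push_cast
    nlinarith
  rw [Rp_eq, ENNReal.inv_le_inv, prj_sys]
  refine le_trans ?_ (le_En _ hi)
  refine le_iSup₂_of_le (dat q j) ⟨h1 _ _ h.1.1, ?_⟩ le_rfl
  have h2 := h.1.2
  simp only [dat, List.mem_cons, List.not_mem_nil, or_false, forall_eq_or_imp, forall_eq] at h2 ⊢
  exact ⟨h2.1.imp fun e he => ⟨he.1, h1 _ _ he.2.1, he.2.2⟩,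
    h2.2.imp fun e he => ⟨he.1, h1 _ _ he.2.1, he.2.2⟩⟩

theorem sand_low {y : Data} (h : Sand y x 𝒟 j) (hq : Real.exp τ ≤ 2 * q) (pr : Bool) {b : Base}
    {r : ℕ → RZ} {c : C0} (hr : Tendsto (fun k => code0 b k (r k)) b.U (𝓝 c))
    (hcov : ⨅ N, c.2.2 (.inl N) = 0) (hc : c.1.2 = fun a b => ex τ * 𝒟 a b) :
    (c.2.1 (pr, dat q j))⁻¹ ≤ Rm (prj pr (sys x c.1.2 c.2.1)) := by
  have h1 : ∀ (K A : Set ℂ) (l' l : List (ℕ × ℚ)), (∀ e ∈ l', InB x c.1.2 K e) → K ⊆ A →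
      Cv4 x 𝒟 A l → ∀ᶠ k in (b.U : Filter ℕ), vb (r k) (b.δ k) l' ⊆ vb (r k) (b.δ k) (scl q l) := by
    intro K A l' l hl hK hA
    refine ev_cover hr hcov fun e he => ?_
    obtain ⟨h2, m, h3⟩ := hl e he
    refine ⟨by exact_mod_cast h2, fun a ha => ?_⟩
    obtain ⟨e', he', h4⟩ := hA a (hK (h3 a ha (mem_ball_self Nat.one_div_pos_of_nat)))
    refine ⟨_, List.mem_map_of_mem he', ?_⟩
    have h5 := ENNReal.ofReal_pos.1 (zero_le.trans_lt h4)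
    rw [hc]
    refine ((ENNReal.mul_lt_mul_iff_right (lk_ex_ne τ) ENNReal.ofReal_ne_top).2 h4).trans_le ?_
    rw [ex, ← ENNReal.ofReal_mul (Real.exp_pos _).le]
    refine ENNReal.ofReal_le_ofReal ?_
    push_cast
    nlinarith
  have h2 : ∀ j', Tendsto (fun k => nrm (b.κ k) pr * bE (r k) (b.δ k) pr j') b.U
      (𝓝 (c.2.1 (pr, j'))) := fun j' =>
    ((by fun_prop : Continuous fun c : C0 => c.2.1 (pr, j')).tendsto c).comp hr
  have h3 : ∀ z ∈ Tn.1, (-(27 / 10) ≤ z.re ∧ z.re ≤ 27 / 10) ∧ 11 / 5 ≤ z.im ∧ z.im ≤ 23 / 10 := by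
    rintro z ⟨h4, h5, h6⟩
    simp only [rot, pow_zero, one_mul] at h4 h5 h6
    exact ⟨abs_le.1 h4.le, h5.le, h6.le⟩
  rw [Rm_eq, ENNReal.inv_le_inv, prj_sys]
  refine iSup₂_le fun i hi => iSup₂_le fun j' hj => le_of_tendsto_of_tendsto (h2 _) (h2 _) ?_
  have h4 : ∀ᶠ k in (b.U : Filter ℕ), ∀ e ∈ j'.2, ∃ e' ∈ (dat q j).2,
      vb (r k) (b.δ k) e.1 ⊆ vb (r k) (b.δ k) e'.1 ∧ e.2.1 ≤ e'.2.1 ∧ e'.2.2 ≤ e.2.2 := by
    refine lk_ev _ fun e he => ?_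
    obtain ⟨e', he', h5, h6, h7⟩ := hj.2 e he
    obtain ⟨-, e'', he'', h8, h9, h10⟩ := hi.2.2 e' he'
    have h11 : e'.1 ∩ i.1.1 ⊆ e''.1 ∩ Tn.1 := inter_subset_left.trans (subset_closure.trans h8)
    simp only [Tn, bar, List.mem_cons, List.not_mem_nil, or_false] at he''
    rcases he'' with rfl | rfl
    · filter_upwards [h1 _ (CB _ _) _ _ h5 (fun z hz => ⟨⟨(h3 z (h11 hz).2).1.1, (h11 hz).1.2.le⟩,
        (h3 z (h11 hz).2).2⟩) h.2.2.1] with k hk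
      exact ⟨_, List.mem_cons_self, hk, (Rat.cast_le (K := ℝ)).1 (by simpa using h6.trans h9),
        (Rat.cast_le (K := ℝ)).1 (by simpa using h10.trans h7)⟩
    · filter_upwards [h1 _ (CB _ _) _ _ h5 (fun z hz => ⟨⟨(h11 hz).1.2.le, (h3 z (h11 hz).2).1.2⟩,
        (h3 z (h11 hz).2).2⟩) h.2.2.2.1] with k hk
      exact ⟨_, List.mem_cons_of_mem _ List.mem_cons_self, hk,
        (Rat.cast_le (K := ℝ)).1 (by simpa using h6.trans h9),
        (Rat.cast_le (K := ℝ)).1 (by simpa using h10.trans h7)⟩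
  filter_upwards [h4, h1 _ _ _ _ hj.1 (fun z hz => h3 z (hi.2.1 (subset_closure hz))) h.2.1]
    with k h5 h6
  exact mul_le_mul_right (bE_le pr h6 h5) _

theorem InB.mono {K K' : Set ℂ} {c : ℕ × ℚ} (h : InB x 𝒟 K c) (hK : K ⊆ K') : InB x 𝒟 K' c :=
  ⟨h.1, h.2.imp fun _ hm a ha => (hm a ha).trans hK⟩

section Ex

variable {d : ℂ → ℂ → ℝ} (hc : ∀ u, Continuous (d u)) (h0 : ∀ u, d u u = 0)
  (hs : ∀ u v, d u v = d v u) (ht : ∀ u v w, d u w ≤ d u v + d v w)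
  (he : ∀ R, ∀ η > 0, ∃ θ > 0, ∀ u v, ‖u‖ ≤ R → d u v ≤ θ → ‖v - u‖ ≤ η) (hx : DenseRange x)

include hc h0 hs ht he hx

theorem lk_cover {C V : Set ℂ} (hC : IsCompact C) (hV : IsOpen V) (h : C ⊆ V) :
    ∃ r₀ : ℝ, 0 < r₀ ∧ ∀ r : ℚ, 0 < r → r ≤ r₀ → ∃ l : List (ℕ × ℚ),
      (∀ c ∈ l, c.2 = r ∧ InB x (fun a b => ENNReal.ofReal (d (x a) (x b))) V (c.1, 2 * c.2)) ∧
      ∀ z ∈ C, ∃ c ∈ l, d (x c.1) z < r / 4 := by
  obtain ⟨δ, hδ, h1⟩ := hC.exists_cthickening_subset_open hV h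
  obtain ⟨R, hR⟩ := hC.isBounded.exists_norm_le
  obtain ⟨θ, hθ, h2⟩ := he R _ (half_pos hδ)
  refine ⟨θ / 9, by positivity, fun r hr hr0 => ?_⟩
  have hr' : (0 : ℝ) < r := by exact_mod_cast hr
  choose a ha using fun z => hx.exists_mem_open (isOpen_lt (hc z) (continuous_const (y := (r : ℝ) / 4)))
    ⟨z, show d z z < (r : ℝ) / 4 by rw [h0]; positivity⟩
  obtain ⟨t, ht1, ht2⟩ := hC.elim_nhds_subcover (fun z => {v | d (x (a z)) v < r / 4})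
    fun z _ => (isOpen_lt (hc _) continuous_const).mem_nhds (show d _ z < _ from hs z _ ▸ ha z)
  refine ⟨t.toList.map fun z => (a z, r), fun c hc => ?_, fun z hz => ?_⟩
  · obtain ⟨z, hz, rfl⟩ := List.mem_map.1 hc
    have hz' := ht1 z (Finset.mem_toList.1 hz)
    refine ⟨rfl, inB_iff.2 ⟨by positivity, δ / 2, half_pos hδ, fun a' ha' v hv => h1 ?_⟩⟩
    have h3 := (ENNReal.ofReal_lt_ofReal_iff (by positivity)).1 ha'
    have h4 : d z (x (a z)) < r / 4 := ha z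
    push_cast at h3
    have h5 := h2 z (x a') (hR z hz') (by linarith [ht z (x (a z)) (x a')])
    refine mem_cthickening_of_dist_le v z δ C hz' ?_
    rw [← dist_eq_norm] at h5
    linarith [dist_triangle v (x a') z, mem_ball.1 hv]
  · obtain ⟨w, hw, h3⟩ := mem_iUnion₂.1 (ht2 hz)
    exact ⟨_, List.mem_map_of_mem (Finset.mem_toList.2 hw), h3⟩

theorem exists_sand {K K₀ K₁ : Set ℂ} (hK : IsOpen K) (hK₀ : IsOpen K₀) (hK₁ : IsOpen K₁)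
    (h1 : CB (-(27 / 10)) (27 / 10) ⊆ K) (h2 : CB (-(27 / 10)) (-(13 / 5)) ⊆ K₀ ∩ K)
    (h3 : CB (13 / 5) (27 / 10) ⊆ K₁ ∩ K) (hd : Disjoint K₀ K₁) :
    ∃ j, Sand (zon K K₀ K₁) x (fun a b => ENNReal.ofReal (d (x a) (x b))) j := by
  obtain ⟨r₁, p1, H1⟩ := lk_cover hc h0 hs ht he hx (isCompact_crect _ _ _ _) hK h1
  obtain ⟨r₂, p2, H2⟩ := lk_cover hc h0 hs ht he hx (isCompact_crect _ _ _ _) (hK₀.inter hK) h2
  obtain ⟨r₃, p3, H3⟩ := lk_cover hc h0 hs ht he hx (isCompact_crect _ _ _ _) (hK₁.inter hK) h3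
  obtain ⟨r, hr, hr'⟩ := exists_rat_btwn (lt_min p1 (lt_min p2 p3))
  have hr0 : 0 < r := by exact_mod_cast hr
  simp only [lt_min_iff] at hr'
  obtain ⟨l, a1, b1⟩ := H1 r hr0 hr'.1.le
  obtain ⟨l₀, a2, b2⟩ := H2 r hr0 hr'.2.1.le
  obtain ⟨l₁, a3, b3⟩ := H3 r hr0 hr'.2.2.le
  have hl : ∀ c ∈ l ++ l₀ ++ l₁, c.2 = r ∧
      InB x (fun a b => ENNReal.ofReal (d (x a) (x b))) K (c.1, 2 * c.2) := fun c hc => by
    simp only [List.mem_append] at hc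
    rcases hc with (hc | hc) | hc
    exacts [a1 c hc, ⟨(a2 c hc).1, (a2 c hc).2.mono inter_subset_right⟩,
      ⟨(a3 c hc).1, (a3 c hc).2.mono inter_subset_right⟩]
  have hcv : ∀ (A : Set ℂ) (l' l'' : List (ℕ × ℚ)), (∀ c ∈ l', c ∈ l'' ∧ c.2 = r) →
      (∀ z ∈ A, ∃ c ∈ l', d (x c.1) z < r / 4) →
      Cv4 x (fun a b => ENNReal.ofReal (d (x a) (x b))) A l'' := fun A l' l'' h4 h5 a ha => by
    obtain ⟨c, h6, h7⟩ := h5 _ ha
    exact ⟨c, (h4 c h6).1, (ENNReal.ofReal_lt_ofReal_iff (by rw [(h4 c h6).2]; positivity)).2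
      (by rwa [(h4 c h6).2])⟩
  have hst : ∀ (z : ℂ) (c c' : ℕ × ℚ), c ∈ l ++ l₀ ++ l₁ → d (x c.1) z < r / 4 →
      d (x c'.1) z < r / 4 → c ∈ l ++ l₀ ++ l₁ ∧
        ENNReal.ofReal (d (x c.1) (x c'.1)) < ENNReal.ofReal (c.2 / 2) := fun z c c' h4 h5 h6 =>
    ⟨h4, (ENNReal.ofReal_lt_ofReal_iff (by rw [(hl c h4).1]; positivity)).2 (by
      rw [(hl c h4).1]; linarith [ht (x c.1) z (x c'.1), hs z (x c'.1)])⟩
  refine ⟨(l ++ l₀ ++ l₁, l₀, l₁), ⟨List.forall_mem_map.2 fun c hc => (hl c hc).2, ?_⟩,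
    hcv _ l _ (fun c hc => ⟨by simp [hc], (a1 c hc).1⟩) b1,
    hcv _ l₀ _ (fun c hc => ⟨hc, (a2 c hc).1⟩) b2, hcv _ l₁ _ (fun c hc => ⟨hc, (a3 c hc).1⟩) b3,
    ⟨fun c h4 c' h5 => not_le.1 fun h6 => ?_, ?_⟩, fun c hc => ?_⟩
  · simp only [dat, zon, List.mem_cons, List.not_mem_nil, or_false, forall_eq_or_imp, forall_eq,
      exists_eq_or_imp, exists_eq_left]
    exact ⟨Or.inl ⟨List.forall_mem_map.2 fun c hc => (a2 c hc).2, by simp, by simp⟩,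
      Or.inr ⟨List.forall_mem_map.2 fun c hc => (a3 c hc).2, by simp, by simp⟩⟩
  · obtain ⟨-, m, h7⟩ := (a2 c h4).2
    obtain ⟨-, m', h8⟩ := (a3 c' h5).2
    rw [(a2 c h4).1, (a3 c' h5).1] at *
    refine Set.disjoint_left.1 hd (h7 c'.1 (h6.trans_lt ((ENNReal.ofReal_lt_ofReal_iff
      (by positivity)).2 ?_)) (mem_ball_self Nat.one_div_pos_of_nat)).1
      (h8 c'.1 (by simpa [h0] using hr0) (mem_ball_self Nat.one_div_pos_of_nat)).1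
    push_cast
    linarith
  · obtain ⟨c, h4, h5⟩ := b2 ⟨-(27 / 10), 11 / 5⟩ (by norm_num [crect])
    obtain ⟨c', h6, h7⟩ := b3 ⟨27 / 10, 11 / 5⟩ (by norm_num [crect])
    obtain ⟨e, h8, e', h9, h10, h11⟩ := (convex_crect (-(27 / 10)) (27 / 10) (11 / 5)
      (23 / 10)).isPreconnected.induction₂' (fun z z' => ∃ e : ℕ × ℚ, d (x e.1) z < r / 4 ∧
        ∃ e' ∈ l ++ l₀ ++ l₁, d (x e'.1) z' < r / 4 ∧ Relation.ReflTransGen
        (fun a b : ℕ × ℚ => a ∈ l ++ l₀ ++ l₁ ∧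
          ENNReal.ofReal (d (x a.1) (x b.1)) < ENNReal.ofReal (a.2 / 2)) e e')
      (fun z hz => by
        obtain ⟨e, h8, h9⟩ := b1 z hz
        filter_upwards [nhdsWithin_le_nhds ((isOpen_lt (hc _) continuous_const).mem_nhds h9)]
          with z' h10
        exact ⟨⟨e, h9, e, by simp [h8], h10, .refl⟩, e, h10, e, by simp [h8], h9, .refl⟩)
      (fun _ z _ _ _ _ ⟨e, h8, e', h9, h10, h11⟩ ⟨f, h12, f', h13, h14, h15⟩ =>
        ⟨e, h8, f', h13, h14, (h11.tail (hst z e' f h9 h10 h12)).trans h15⟩)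
      (x := ⟨-(27 / 10), 11 / 5⟩) (y := ⟨27 / 10, 11 / 5⟩) (by norm_num [crect])
      (by norm_num [crect])
    exact ⟨c, h4, c', h6, .trans (.single (hst _ c e (by simp [h4]) h5 h8))
      (h11.tail (hst _ e' c' h9 h10 h7))⟩
  · simp only [List.mem_append] at hc hl
    rw [(hl c (by tauto)).1]
    exact hr0

end Ex

/-- Almost every sampled sphere has ball data between the bars. -/
theorem exists_idx (F : Fr) : ∃ i : Idx, i.1.Sub Tp ∧ ∀ (S : Setup) (m : S.X), S.GoodPt m →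
    ∃ j, Sand i.1 (fun a => F.inv (m.2 a)) (S.ginf m).2 j := by
  have ho := bar_opn (14 / 5) (21 / 10) (12 / 5) (5 / 2)
  have h0 : ∀ a b z, -(27 / 10) ≤ a → b ≤ 27 / 10 → z ∈ CB a b → z ∈ Tp.1 := fun a b z ha hb hz => by
    obtain ⟨⟨h1, h2⟩, h3, h4⟩ := hz
    simp only [Tp, bar, rect, rot, pow_zero, one_mul, mem_ofPred_eq, abs_lt]
    refine ⟨⟨?_, ?_⟩, ?_, ?_⟩ <;> linarith
  obtain ⟨K, a1, a2, a3⟩ := nframe_cover (isCompact_crect (-(27 / 10)) (27 / 10) _ _) ho.1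
    fun z hz => h0 _ _ z le_rfl le_rfl hz
  obtain ⟨K₀, b1, b2, b3⟩ := nframe_cover (isCompact_crect (-(27 / 10)) (-(13 / 5)) _ _)
    (nice_Tp.1.inter (isOpen_lt Complex.continuous_re (continuous_const (y := -(5 / 2)))))
    fun z hz => ⟨h0 _ _ z le_rfl (by norm_num) hz, hz.1.2.trans_lt (by norm_num)⟩
  obtain ⟨K₁, c1, c2, c3⟩ := nframe_cover (isCompact_crect (13 / 5) (27 / 10) _ _)
    (nice_Tp.1.inter (isOpen_lt (continuous_const (y := 5 / 2)) Complex.continuous_re))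
    fun z hz => ⟨h0 _ _ z (by norm_num) le_rfl hz, lt_of_lt_of_le (by norm_num) hz.1.1⟩
  refine ⟨⟨zon K K₀ K₁, a1, ?_⟩, ⟨nframe_bdd a1, a3, ?_⟩, fun S m hm => ?_⟩
  · simp only [zon, List.mem_cons, List.not_mem_nil, or_false, forall_eq_or_imp, forall_eq]
    exact ⟨⟨b1, ⟨0, by simp⟩, 0, by simp⟩, c1, ⟨1, by simp⟩, 1, by simp⟩
  · simp only [zon, List.mem_cons, List.not_mem_nil, or_false, forall_eq_or_imp, forall_eq]
    exact ⟨⟨nframe_bdd b1, _, List.mem_cons_self, fun z hz => ⟨b3 hz, (b3 hz).1⟩, le_rfl, le_rfl⟩,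
      nframe_bdd c1, _, List.mem_cons_of_mem _ List.mem_cons_self,
      fun z hz => ⟨c3 hz, (c3 hz).1⟩, le_rfl, le_rfl⟩
  have hD := hm.geo.isMet
  have hp := Real.exp_pos (gam / 4 * m.1.1)
  have e : (S.ginf m).2 = fun a b => ENNReal.ofReal (Real.exp (gam / 4 * m.1.1) *
      S.d m.1.2 (F.map (F.inv (m.2 a))) (F.map (F.inv (m.2 b)))) := by
    funext a b
    simp only [Setup.ginf, hm.dJ, F.map_inv, ENNReal.ofReal_mul hp.le, ex]
  rw [e]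
  refine exists_sand (d := fun u v => Real.exp (gam / 4 * m.1.1) * S.d m.1.2 (F.map u) (F.map v))
    (fun u => continuous_const.mul ((hm.geo.sph_cont _).comp
      (OnePoint.continuous_coe.comp F.continuous_map))) (fun u => by rw [hm.geo.sph_self, mul_zero])
    (fun u v => by rw [hD.symm]) (fun u v w => by nlinarith [hD.triangle (F.map u) (F.map v) (F.map w)])
    (fun R η hη => ?_) (DenseRange.comp (Function.RightInverse.surjective F.inv_map).denseRange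
      hm.dense F.continuous_inv) (nframe_open a1) (nframe_open b1) (nframe_open c1) a2
    (subset_inter b2 fun z hz => a2 ⟨⟨hz.1.1, hz.1.2.trans (by norm_num)⟩, hz.2⟩)
    (subset_inter c2 fun z hz => a2 ⟨⟨le_trans (by norm_num) hz.1.1, hz.1.2⟩, hz.2⟩)
    (Set.disjoint_left.2 fun z h1 h2 => by
      linarith [show z.re < -(5 / 2) from (b3 (subset_closure h1)).2,
        show 5 / 2 < z.re from (c3 (subset_closure h2)).2])
  obtain ⟨θ, hθ, h1⟩ := hD.to_eucl (‖F.z‖ + ‖F.a‖ * R) (mul_pos hη F.a_pos)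
  refine ⟨_, mul_pos hp hθ, fun u v hu huv => ?_⟩
  have h2 := (FNet.pull_sub F).2 (h1 (F.map u) (F.map v) (FNet.pull_norm F (by rwa [F.inv_map]))
    (le_of_mul_le_mul_left huv hp))
  rwa [F.inv_map, F.inv_map] at h2

end Pool.Agent.QL.LC
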