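import Pool.Agent.P.MP_7a6434d8_pr.QL.C.LinkW

/-! Block LINK: the quantile. -/

open MeasureTheory ProbabilityTheory Set Filter Topology Metric
open scoped ENNReal unitInterval

namespace Pool.Agent.QL.LC

open Pool.Agent.LGD Pool.Agent.P.MP_7a6434d8_pr

/-- size at a level -/
noncomputable def sz (τ : ℝ) : ℕ := ⌈Real.exp (gam * τ)⌉₊

/-- law of the map at a random level near `t` -/
noncomputable def lawT (t : ℝ) : Measure RZ := (gaussianReal 0 1).bind fun s => lawN (sz (t + s))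

theorem del_pow (t : ℝ) : del t ^ 4 = 9 / 8 * Real.exp (-(gam * t)) := by
  rw [del, mul_pow, ← Real.exp_nat_mul, ← Real.rpow_natCast, ← Real.rpow_mul (by norm_num)]
  congr 1
  · norm_num
  · congr 1
    push_cast
    ring

theorem exists_wld {t lk : ℕ → ℝ} {𝒰 : Ultrafilter ℕ} (ht : Tendsto t 𝒰 atTop) {t' : ℕ → ℝ}
    {c : ℝ} (h : Tendsto (fun k => t' k - t k) 𝒰 (𝓝 c)) : ∃ w : World (mkBase t lk 𝒰 ht),
      w.ϑ = (gaussianReal 0 1).map (· + c) ∧ ∀ k, w.law k = lawT (t' k) := by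
  have hm : ∀ k, Measurable fun s : ℝ => sz (t' k + (s - c)) := fun k =>
    Nat.measurable_ceil.comp (by fun_prop)
  let w : World (mkBase t lk 𝒰 ht) := ⟨(gaussianReal 0 1).map (· + c),
    Measure.isProbabilityMeasure_map (measurable_add_const c).aemeasurable,
    fun k s => sz (t' k + (s - c)), hm, fun k s => Nat.ceil_pos.2 (Real.exp_pos _), ?_⟩
  · refine ⟨w, rfl, fun k => ?_⟩
    have h1 := w.measurable_lawN k
    change Measure.join (Measure.map _ (Measure.map _ _)) = _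
    rw [Measure.map_map h1 (measurable_add_const c)]
    simp only [lawT, Measure.bind, w, Function.comp_def, add_sub_cancel_right]
  intro T ε hε
  have h0 : Tendsto (fun k => del (t k) ^ 4 + 9 / 8 * Real.exp (gam * T) *
      |Real.exp (gam * (t' k - t k - c)) - 1|) 𝒰 (𝓝 (0 ^ 4 + 9 / 8 * Real.exp (gam * T) *
        |Real.exp (gam * (c - c)) - 1|)) :=
    ((mkBase t lk 𝒰 ht).δ_lim.pow 4).add (((((h.sub_const c).const_mul gam).rexp.sub_const
      1).abs).const_mul _)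
  simp only [sub_self, mul_zero, Real.exp_zero, abs_zero, add_zero, zero_pow four_ne_zero] at h0
  filter_upwards [h0.eventually (ge_mem_nhds hε)] with k hk
  refine .of_forall fun s hs => le_trans ?_ hk
  have h1 : 0 < del (t k) ^ 4 := pow_pos (del_pos _) 4
  have h2 : del (t k) ^ 4 * Real.exp (gam * (t' k + (s - c))) =
      9 / 8 * Real.exp (gam * s) * Real.exp (gam * (t' k - t k - c)) := by
    rw [del_pow, mul_assoc, mul_assoc, ← Real.exp_add, ← Real.exp_add]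
    congr 2
    ring
  have h3 := Nat.le_ceil (Real.exp (gam * (t' k + (s - c))))
  have h4 := Nat.ceil_lt_add_one (Real.exp_pos (gam * (t' k + (s - c)))).le
  have h5 : Real.exp (gam * s) ≤ Real.exp (gam * T) :=
    Real.exp_le_exp.2 (mul_le_mul_of_nonneg_left (abs_le.1 hs).2 gam_pos.le)
  refine (abs_sub_le _ (del (t k) ^ 4 * Real.exp (gam * (t' k + (s - c)))) _).trans
    (add_le_add ?_ ?_)
  · change |del (t k) ^ 4 * _ - _| ≤ _
    rw [← mul_sub, abs_mul, abs_of_pos h1]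
    exact mul_le_of_le_one_right h1.le (abs_le.2 ⟨by unfold sz; linarith, by unfold sz; linarith⟩)
  · rw [h2, ← mul_sub_one, abs_mul, abs_of_pos (by positivity)]
    gcongr

theorem abs_sInf_le {f : ℝ → ℝ≥0∞} (hf : Antitone f) {B : ℝ} (h1 : ∀ y, B ≤ y → f B ≤ f y)
    (h2 : ∀ y, y ≤ -B → f y ≤ f (-B)) (a : ℝ≥0∞) : |sInf {y | f y ≤ a}| ≤ |B| := by
  by_cases h3 : f (-B) ≤ a
  · rw [Real.sInf_of_not_bddBelow, abs_zero]
    · exact abs_nonneg B
    · rintro ⟨l, hl⟩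
      linarith [hl (show f (min (l - 1) (-B)) ≤ a from (h2 _ (min_le_right _ _)).trans h3),
        min_le_left (l - 1) (-B)]
  have h4 : -B ∈ lowerBounds {y | f y ≤ a} := fun y hy =>
    not_lt.1 fun h => h3 ((hf h.le).trans hy)
  rcases eq_empty_or_nonempty {y | f y ≤ a} with h5 | ⟨y, hy⟩
  · rw [h5, Real.sInf_empty, abs_zero]
    exact abs_nonneg B
  · refine abs_le.2 ⟨(neg_le_neg (le_abs_self B)).trans (le_csInf ⟨y, hy⟩ h4),
      (csInf_le ⟨_, h4⟩ ?_).trans (le_abs_self B)⟩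
    exact ((h1 _ (le_max_left B y)).trans (hf (le_max_right B y))).trans hy

namespace Setup.Wts

variable {S : Setup} {ϑ : Measure ℝ} {Φ : S.X → ℝ≥0∞} {p : T3 → S.X → Prop} {η : ℝ≥0∞}
  (W : S.Wts ϑ Φ p η)

/-- weighted probability of the events `B` at level `t` -/
noncomputable def Ph (t : ℝ) (B : ℕ → Set RZ) : ℝ≥0∞ :=
  ∫⁻ r, ∑ n ∈ Finset.range W.N, W.w n (gcd0 (del t) r) * (B n).indicator 1 r ∂lawT t

/-- the resistance exceeds `exp y` -/
def Bs (pr : Bool) (t y : ℝ) (n : ℕ) : Set RZ := {r | ex y * bE r (del t) pr (dat 1 (W.j n)) < 1}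

/-- the quantile -/
noncomputable def uu (pr : Bool) (a : ℝ≥0∞) (t : ℝ) : ℝ := sInf {y | W.Ph t (W.Bs pr t y) ≤ a}

theorem sum_mono {t : ℝ} {B B' : ℕ → Set RZ} {r : RZ}
    (h : ∀ n < W.N, W.w n (gcd0 (del t) r) ≠ 0 → r ∈ B n → r ∈ B' n) :
    ∑ n ∈ Finset.range W.N, W.w n (gcd0 (del t) r) * (B n).indicator 1 r ≤
      ∑ n ∈ Finset.range W.N, W.w n (gcd0 (del t) r) * (B' n).indicator 1 r := by
  refine Finset.sum_le_sum fun n hn => ?_
  by_cases h1 : W.w n (gcd0 (del t) r) = 0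
  · simp [h1]
  by_cases h2 : r ∈ B n
  · simp [h2, h n (Finset.mem_range.1 hn) h1 h2]
  · simp [h2]

theorem Ph_mono {t : ℝ} {B B' : ℕ → Set RZ}
    (h : ∀ r, ∀ n < W.N, W.w n (gcd0 (del t) r) ≠ 0 → r ∈ B n → r ∈ B' n) :
    W.Ph t B ≤ W.Ph t B' := lintegral_mono fun r => W.sum_mono (h r)

theorem Ph_anti (pr : Bool) (t : ℝ) : Antitone fun y => W.Ph t (W.Bs pr t y) := fun _ _ h =>
  W.Ph_mono fun _ _ _ _ hr => lt_of_le_of_lt (mul_le_mul_left
    (ENNReal.ofReal_le_ofReal (Real.exp_le_exp.2 h)) _) hr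

theorem exists_B (T : ℝ) : ∃ B : ℝ, ∀ t ≤ T, ∀ r, ∀ n < W.N, W.w n (gcd0 (del t) r) ≠ 0 →
    ∀ pr y, (B ≤ y → (r ∈ W.Bs pr t y n ↔ bE r (del t) pr (dat 1 (W.j n)) = 0)) ∧
      (y ≤ -B → (r ∈ W.Bs pr t y n ↔ bE r (del t) pr (dat 1 (W.j n)) ≠ ⊤)) := by
  obtain ⟨B, hB⟩ := val_bound ⌈((Finset.range W.N).sup W.T : ℕ) / del T ^ 4⌉₊
  refine ⟨B, fun t ht r n hn h pr y => hB r ?_ _ pr _ y⟩
  have h1 : del t ^ 4 * r.n < W.T n := by
    have h2 := (W.supp n _ h).2.1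
    rwa [← ENNReal.ofReal_natCast, gcd0, ENNReal.ofReal_lt_ofReal_iff_of_nonneg
      (mul_nonneg (pow_pos (del_pos _) _).le (Nat.cast_nonneg _))] at h2
  have h2 : del T ^ 4 ≤ del t ^ 4 := by
    rw [del_pow, del_pow]
    gcongr
    exact gam_pos.le
  have h3 : (W.T n : ℝ) ≤ ((Finset.range W.N).sup W.T : ℕ) :=
    Nat.cast_le.2 (Finset.le_sup (Finset.mem_range.2 hn))
  refine Nat.cast_le (α := ℝ).1 (le_trans ?_ (Nat.le_ceil _))
  rw [le_div_iff₀ (pow_pos (del_pos _) _)]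
  nlinarith [Nat.cast_nonneg (α := ℝ) r.n]

theorem uu_bdd (pr : Bool) (a : ℝ≥0∞) (T : ℝ) : ∃ B : ℝ, ∀ t, |t| ≤ T → |W.uu pr a t| ≤ B := by
  obtain ⟨B, hB⟩ := W.exists_B T
  refine ⟨|B|, fun t ht => abs_sInf_le (W.Ph_anti pr t) (fun y hy => W.Ph_mono fun r n hn h => ?_)
    (fun y hy => W.Ph_mono fun r n hn h => ?_) a⟩
  · rw [(hB t (abs_le.1 ht).2 r n hn h pr _).1 le_rfl, (hB t (abs_le.1 ht).2 r n hn h pr _).1 hy]
    exact id
  · rw [(hB t (abs_le.1 ht).2 r n hn h pr _).2 le_rfl, (hB t (abs_le.1 ht).2 r n hn h pr _).2 hy]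
    exact id

theorem ev_small (pr : Bool) : ∀ᶠ t in atTop, ∀ n < W.N, ∀ r, W.w n (gcd0 (del t) r) ≠ 0 →
    bE r (del t) pr (dat 1 (W.j n)) ≠ 0 ∧ bE r (del t) pr (dat 1 (W.j n)) ≠ ⊤ := by
  have h0 : Tendsto (fun t => 4 * del t) atTop (𝓝 0) := by
    simpa [del] using ((Real.tendsto_exp_neg_atTop_nhds_zero.comp (tendsto_id.const_mul_atTop
      (div_pos gam_pos four_pos))).const_mul ((9 / 8 : ℝ) ^ (1 / 4 : ℝ))).const_mul 4
  refine (eventually_all_finite (finite_lt_nat W.N)).2 fun n _ => ?_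
  by_cases h : ∀ c ∈ (W.j n).1 ++ (W.j n).2.1 ++ (W.j n).2.2, 0 < c.2
  · filter_upwards [lk_ev _ fun c hc => h0.eventually (ge_mem_nhds (Rat.cast_pos.2 (h c hc)))]
      with t ht r hr
    exact pos_fin (del_pos t) pr ht (W.supp n _ hr).1
  · exact .of_forall fun t r hr => absurd (W.supp n _ hr).2.2 h

theorem meas_sum (t : ℝ) {B : ℕ → Set RZ} (hB : ∀ n, MeasurableSet (B n)) : Measurable fun r =>
    ∑ n ∈ Finset.range W.N, W.w n (gcd0 (del t) r) * (B n).indicator 1 r :=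
  Finset.measurable_sum _ fun n _ => ((W.cont n).measurable.comp (measurable_gcd0 _)).mul
    (measurable_one.indicator (hB n))

theorem Ph_le (pr : Bool) (a : ℝ≥0∞) :
    ∀ᶠ t in atTop, ∀ y, W.uu pr a t ≤ y → W.Ph t (W.Bs pr t y) ≤ a := by
  filter_upwards [W.ev_small pr] with t ht y hy
  obtain ⟨B, hB⟩ := W.exists_B t
  have h1 : W.Ph t (W.Bs pr t B) ≤ a := (W.Ph_mono (B' := fun _ => ∅) fun r n hn h hr =>
    (ht n hn r h).1 (((hB t le_rfl r n hn h pr B).1 le_rfl).1 hr)).trans (by simp [Ph])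
  have h2 : ∀ m : ℕ, W.Ph t (W.Bs pr t (y + 1 / (m + 1))) ≤ a := fun m => by
    obtain ⟨y', h3, h4⟩ := exists_lt_of_csInf_lt ⟨B, h1⟩
      (lt_add_of_le_of_pos hy Nat.one_div_pos_of_nat)
    exact (W.Ph_anti pr t h4.le).trans h3
  refine le_trans (lintegral_mono fun r => ?_) ((lintegral_liminf_le fun m : ℕ => W.meas_sum t
    (B := W.Bs pr t (y + 1 / (m + 1))) fun n =>
      measurableSet_lt ((measurable_bE _ _ _).const_mul _) measurable_const).trans
      (liminf_le_of_frequently_le' (Frequently.of_forall (f := atTop) h2)))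
  refine le_liminf_of_le (h := Eventually.mono ((eventually_all_finite (finite_lt_nat W.N)).2
    fun n _ => ?_) fun m hm => W.sum_mono fun n hn _ => hm n hn)
  by_cases h : r ∈ W.Bs pr t y n
  · have h3 : Tendsto (fun m : ℕ => ex (y + 1 / (m + 1))) atTop (𝓝 (ex y)) := by
      refine ENNReal.tendsto_ofReal (Tendsto.rexp ?_)
      simpa using tendsto_one_div_add_atTop_nhds_zero_nat.const_add y
    exact ((ENNReal.Tendsto.mul_const h3 (Or.inl (lk_ex_ne y))).eventually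
      (gt_mem_nhds h)).mono fun m hm _ => hm
  · exact .of_forall fun m hm => absurd hm h

theorem lt_Ph (pr : Bool) (a : ℝ≥0∞) : ∀ᶠ t in atTop, a < W.Ph t (fun _ => univ) →
    ∀ y, y < W.uu pr a t → a < W.Ph t (W.Bs pr t y) := by
  filter_upwards [W.ev_small pr] with t ht h1 y hy
  obtain ⟨B, hB⟩ := W.exists_B t
  refine not_le.1 fun h0 => notMem_of_lt_csInf hy ⟨-B, fun y' hy' => not_lt.1 fun h =>
    h1.not_ge ?_⟩ h0
  exact (W.Ph_mono fun r n hn h2 _ => ((hB t le_rfl r n hn h2 pr y').2 h.le).2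
    (ht n hn r h2).2).trans hy'

end Setup.Wts

end Pool.Agent.QL.LC
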