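import Pool.Agent.P.MP_7a6434d8_pr.QL.C.LinkS
import Pool.Agent.P.MP_7a6434d8_pr.QL.C.Hat
import Pool.Agent.P.MP_7a6434d8_pr.QL.GT.Lev

/-! Block LINK: weights. -/

open MeasureTheory ProbabilityTheory Set Filter Topology Metric
open scoped ENNReal unitInterval

namespace Pool.Agent.QL.LC

open Pool.Agent.LGD Pool.Agent.P.MP_7a6434d8_pr

theorem lk_approx (μ : Measure GC) [IsFiniteMeasure μ] {ψ : GC → ℝ≥0∞} (hψ : Measurable ψ)
    (hf : ∫⁻ x, ψ x ∂μ ≠ ⊤) {O : Set GC} (hO : IsOpen O) (h0 : ∫⁻ x in Oᶜ, ψ x ∂μ = 0)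
    {η : ℝ≥0∞} (hη : η ≠ 0) : ∃ w : GC → ℝ≥0∞, Continuous w ∧ (∃ C : ℝ≥0∞, C ≠ ⊤ ∧ ∀ x, w x ≤ C) ∧
      (∀ x, w x ≠ 0 → x ∈ O) ∧ ∫⁻ x, ψ x - w x ∂μ ≤ η ∧ ∫⁻ x, w x - ψ x ∂μ ≤ η := by
  have hη' := (ENNReal.half_pos hη).ne'
  obtain ⟨g, hg, -⟩ := (integrable_toReal_of_lintegral_ne_top hψ.aemeasurable
    hf).exists_boundedContinuous_lintegral_sub_le hη'
  have := isFiniteMeasure_withDensity hf
  obtain ⟨F, hF, hF', h1⟩ := hO.measurableSet.exists_isClosed_diff_lt
    (measure_ne_top (μ.withDensity ψ) O) hη'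
  obtain ⟨χ, h2, h3, h4⟩ := exists_continuous_zero_one_of_isClosed hO.isClosed_compl hF'
    (disjoint_compl_left_iff_subset.2 hF)
  have h5 : ∀ᵐ x ∂μ, ψ x - ENNReal.ofReal (g x) ≤ ‖(ψ x).toReal - g x‖ₑ ∧
      ENNReal.ofReal (g x) - ψ x ≤ ‖(ψ x).toReal - g x‖ₑ := by
    filter_upwards [ae_lt_top hψ hf] with x hx
    rw [← ofReal_norm_eq_enorm, tsub_le_iff_right, tsub_le_iff_right]
    conv => enter [1, 1]; rw [← ENNReal.ofReal_toReal hx.ne]
    conv => enter [2, 2, 2]; rw [← ENNReal.ofReal_toReal hx.ne]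
    constructor
    · refine le_trans (ENNReal.ofReal_le_ofReal (q := ‖(ψ x).toReal - g x‖ + max (g x) 0) ?_) ?_
      · linarith [le_abs_self ((ψ x).toReal - g x), le_max_left (g x) 0,
          Real.norm_eq_abs ((ψ x).toReal - g x)]
      · rw [ENNReal.ofReal_add (norm_nonneg _) (le_max_right _ _)]
        simp [ENNReal.ofReal_max]
    · rw [← ENNReal.ofReal_add (norm_nonneg _) ENNReal.toReal_nonneg]
      refine ENNReal.ofReal_le_ofReal ?_
      linarith [neg_abs_le ((ψ x).toReal - g x), Real.norm_eq_abs ((ψ x).toReal - g x)]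
  have h6 : ∀ x, ENNReal.ofReal (χ x) * ENNReal.ofReal (g x) ≤ ENNReal.ofReal (g x) := fun x =>
    mul_le_of_le_one_left' (ENNReal.ofReal_le_one.2 (h4 x).2)
  refine ⟨fun x => ENNReal.ofReal (χ x) * ENNReal.ofReal (g x),
    (ENNReal.continuous_ofReal.comp χ.continuous).ennreal_mul
      (ENNReal.continuous_ofReal.comp g.continuous) (fun _ => Or.inr ENNReal.ofReal_ne_top)
      fun _ => Or.inr ENNReal.ofReal_ne_top, ⟨ENNReal.ofReal ‖g‖, ENNReal.ofReal_ne_top, fun x =>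
      (h6 x).trans (ENNReal.ofReal_le_ofReal ((le_abs_self _).trans (g.norm_coe_le_norm x)))⟩,
    fun x hx => not_not.1 fun h => hx (by simp [h2 h]), ?_,
    ((lintegral_mono_ae (h5.mono fun x hx => (tsub_le_tsub_right (h6 x) _).trans hx.2)).trans
      hg).trans ENNReal.half_le_self⟩
  calc _ ≤ ∫⁻ x, Fᶜ.indicator ψ x + ‖(ψ x).toReal - g x‖ₑ ∂μ := by
        refine lintegral_mono_ae (h5.mono fun x hx => ?_)
        by_cases h : x ∈ F
        · simpa [h, h3 h] using hx.1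
        · exact tsub_le_self.trans (by simp [h])
    _ ≤ η / 2 + η / 2 := by
        rw [lintegral_add_left (hψ.indicator hF'.measurableSet.compl),
          lintegral_indicator hF'.measurableSet.compl, ← withDensity_apply _ hF'.measurableSet.compl]
        refine add_le_add ((measure_mono (t := O \ F ∪ Oᶜ) fun x hx => by
          by_cases h : x ∈ O <;> simp_all).trans ((measure_union_le _ _).trans ?_)) hg
        rw [withDensity_apply _ hO.measurableSet.compl, h0, add_zero]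
        exact h1.le
    _ = η := ENNReal.add_halves η

theorem lsc_ind {Y : Type} [TopologicalSpace Y] {w : Y → ℝ≥0∞} (hw : Continuous w) {s : Set Y}
    (hs : IsOpen s) : LowerSemicontinuous fun y => w y * s.indicator 1 y := by
  refine lowerSemicontinuous_iff_isOpen_preimage.2 fun a => ?_
  convert hs.inter ((isOpen_Ioi (a := a)).preimage hw) using 1
  ext y
  by_cases h : y ∈ s <;> simp [h]

theorem usc_ind {Y : Type} [TopologicalSpace Y] {w : Y → ℝ≥0∞} (hw : Continuous w) {s : Set Y}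
    (hs : IsClosed s) : UpperSemicontinuous fun y => w y * s.indicator 1 y := by
  refine upperSemicontinuous_iff_isOpen_preimage.2 fun a => ?_
  rcases eq_zero_or_pos a with rfl | ha
  · simp
  convert hs.isOpen_compl.union ((isOpen_Iio (a := a)).preimage hw) using 1
  ext y
  by_cases h : y ∈ s <;> simp [h, ha]

/-- change of level of the geometric code -/
noncomputable def resc (τ : ℝ) (g : GC) : GC :=
  (ex (gam * τ) * g.1, fun i j => ex (gam / 4 * τ) * g.2 i j)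

theorem continuous_resc : Continuous fun p : ℝ × GC => resc p.1 p.2 := by
  have h : ∀ c : ℝ, Continuous fun p : ℝ × GC => ex (c * p.1) := fun c =>
    ENNReal.continuous_ofReal.comp (by fun_prop)
  exact ((h _).ennreal_mul (by fun_prop) (fun _ => Or.inl (lk_ex_ne _))
    fun _ => Or.inr ENNReal.ofReal_ne_top).prodMk (continuous_pi fun i => continuous_pi fun j =>
      (h _).ennreal_mul (by fun_prop) (fun _ => Or.inl (lk_ex_ne _))
        fun _ => Or.inr ENNReal.ofReal_ne_top)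

theorem continuous_resc' (τ : ℝ) : Continuous (resc τ) :=
  continuous_resc.comp (Continuous.prodMk_right τ)

theorem ev_resc {w : GC → ℝ≥0∞} (hw : Continuous w) (h : ∀ g, w g ≠ ⊤) (τ : ℝ) {η : ℝ≥0∞}
    (hη : η ≠ 0) : ∀ᶠ τ' in 𝓝 τ, ∀ g, w (resc τ' g) < w (resc τ g) + η ∧
      w (resc τ g) < w (resc τ' g) + η := by
  have h1 : Continuous fun p : ℝ × GC => w (resc p.1 p.2) := hw.comp continuous_resc
  have h2 : Continuous fun p : ℝ × GC => w (resc τ p.2) :=
    hw.comp ((continuous_resc' τ).comp continuous_snd)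
  simpa using isCompact_univ.eventually_forall_of_forall_eventually (x₀ := τ)
    (P := fun τ' g => w (resc τ' g) < w (resc τ g) + η ∧ w (resc τ g) < w (resc τ' g) + η)
    fun g _ => (h1.continuousAt.eventually_lt (h2.add_const η).continuousAt
      (ENNReal.lt_add_right (h _) hη)).and (h2.continuousAt.eventually_lt
        (h1.add_const η).continuousAt (ENNReal.lt_add_right (h _) hη))

theorem del_eq (t t' : ℝ) : del t' = Real.exp (gam / 4 * (t - t')) * del t := by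
  rw [del, del, mul_left_comm, ← Real.exp_add]
  congr 2
  ring

theorem gcd0_resc (t t' : ℝ) (r : RZ) : gcd0 (del t') r = resc (t - t') (gcd0 (del t) r) := by
  have e : Real.exp (gam / 4 * (t - t')) ^ 4 = Real.exp (gam * (t - t')) := by
    rw [← Real.exp_nat_mul]
    congr 1
    push_cast
    ring
  simp only [gcd0, resc, ex, ← ENNReal.ofReal_mul (Real.exp_pos _).le, del_eq t t', mul_pow, e,
    mul_assoc]

namespace Setup

variable (S : Setup)

/-- change of level -/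
def sft (c : ℝ) (m : S.X) : S.X := ((m.1.1 + c, m.1.2), m.2)

theorem measurable_sft (c : ℝ) : Measurable (S.sft c) := by unfold sft; fun_prop

theorem ginf_sft (c : ℝ) (m : S.X) : S.ginf (S.sft c m) = resc c (S.ginf m) := by
  simp only [ginf, sft, resc, mul_add, lk_ex_add]
  refine Prod.ext (by ring) (funext₂ fun i j => by ring)

theorem lint_sft (ϑ : Measure ℝ) [IsProbabilityMeasure ϑ] (c : ℝ) {G : ℝ × S.Ω → ℝ≥0∞}
    (hG : Measurable G) :
    ∫⁻ p, G p ∂(ϑ.map (· + c)).prod S.P = ∫⁻ p, G (p.1 + c, p.2) ∂ϑ.prod S.P := by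
  conv_lhs => rw [← Measure.map_id (μ := S.P), Measure.map_prod_map _ _ (by fun_prop) measurable_id]
  exact lintegral_map hG (by fun_prop)

theorem hat_sft (ϑ : Measure ℝ) [IsProbabilityMeasure ϑ] (c : ℝ) (Q : Measure C0)
    [IsProbabilityMeasure Q] {H : C0 → ℝ≥0∞} (hH : Measurable H) (h1 : ∀ y, H y ≤ 1) :
    ∃ H' : GC → ℝ≥0∞, Measurable H' ∧ (∀ g, H' g ≤ 1) ∧ ∀ a : S.X → ℝ≥0∞, Measurable a →
      ∫⁻ z, a (S.sft (-c) z.1) * H z.2 ∂S.hat (ϑ.map (· + c)) Q Prod.fst =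
        ∫⁻ m, a m * H' (S.ginf m) ∂S.M ϑ := by
  have := Measure.isProbabilityMeasure_map (μ := ϑ) (measurable_add_const c).aemeasurable
  have h2 : Measurable fun g => ∫⁻ y, H y ∂condDistrib id Prod.fst Q (resc c g) :=
    hH.lintegral_kernel.comp (continuous_resc' c).measurable
  refine ⟨_, h2, fun g => (lintegral_mono h1).trans (by simp), fun a ha => ?_⟩
  have h3 : Measurable fun m => a (S.sft (-c) m) * ∫⁻ y, H y ∂condDistrib id Prod.fst Q (S.ginf m) :=
    (ha.comp (S.measurable_sft _)).mul (hH.lintegral_kernel.comp S.measurable_ginf)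
  rw [S.lintegral_hat _ _ (G := fun z => a (S.sft (-c) z.1) * H z.2)
    ((ha.comp ((S.measurable_sft _).comp measurable_fst)).mul (hH.comp measurable_snd))]
  simp only [lintegral_const_mul _ hH]
  rw [S.lintegral_M _ h3, S.lintegral_M _ (G := fun m => a m * ∫⁻ y, H y ∂condDistrib id Prod.fst Q
    (resc c (S.ginf m))) (ha.mul (h2.comp S.measurable_ginf)), S.lint_sft]
  · refine lintegral_congr fun p => lintegral_congr fun x => ?_
    rw [← S.ginf_sft]
    simp [sft]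
  · exact Measurable.lintegral_kernel_prod_right' (κ := (iidK S.O.κ).comap Prod.snd measurable_snd) h3

theorem exists_vp {F : Fr} (hF : F.Adm) : ∃ Φ : ℝ × S.Ω → ℝ≥0∞, Measurable Φ ∧
    ∀ G : Dist → ℝ≥0∞, Measurable G → ∫⁻ p, Φ p * G (S.fld F p) ∂(gaussianReal 0 1).prod S.P =
      ∫⁻ s in Icc (0 : ℝ) 1, ∫⁻ k, G (lev k s) ∂S.O.ν := by
  have := S.O.canon.prob
  have hf := S.measurable_fld F
  set m₀ := (S.O.ν.prod (volume.restrict (Icc (0 : ℝ) 1))).map fun p => lev p.1 p.2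
  have h1 : m₀ ≪ ((gaussianReal 0 1).prod S.P).map (S.fld F) := by
    refine ((Measure.AbsolutelyContinuous.rfl.prod (Measure.absolutelyContinuous_restrict.trans
      (gaussianReal_absolutelyContinuous' 0 one_ne_zero))).map measurable_lev).trans ?_
    rw [← Measure.prod_swap (μ := S.P), Measure.map_map hf measurable_swap]
    exact S.O.eq_ac' F hF
  refine ⟨_, (Measure.measurable_rnDeriv m₀ (((gaussianReal 0 1).prod S.P).map (S.fld F))).comp hf,
    fun G hG => ?_⟩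
  refine (lintegral_map ((Measure.measurable_rnDeriv _ _).mul hG) hf).symm.trans
    ((lintegral_rnDeriv_mul h1 hG.aemeasurable).trans ?_)
  rw [lintegral_map hG measurable_lev]
  exact lintegral_prod_symm' _ (hG.comp measurable_lev)

/-- Continuous weights of the geometry. -/
structure Wts (ϑ : Measure ℝ) (Φ : S.X → ℝ≥0∞) (p : T3 → S.X → Prop) (η : ℝ≥0∞) where
  N : ℕ
  j : ℕ → T3
  A : ℕ → Set S.X
  w : ℕ → GC → ℝ≥0∞
  T : ℕ → ℕ
  cont : ∀ n, Continuous (w n)
  bdd : ∀ n, ∃ C : ℝ≥0∞, C ≠ ⊤ ∧ ∀ g, w n g ≤ C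
  supp : ∀ n g, w n g ≠ 0 → Op (j n) g.2 ∧ g.1 < T n ∧
    ∀ c ∈ (j n).1 ++ (j n).2.1 ++ (j n).2.2, 0 < c.2
  meas : ∀ n, MeasurableSet (A n)
  disj : Pairwise (Function.onFun Disjoint A)
  sub : ∀ n, ∀ m ∈ A n, p (j n) m
  rest : ∫⁻ m in (⋃ n ∈ Finset.range N, A n)ᶜ, Φ m ∂S.M ϑ ≤ η
  cmp : ∀ n, ∀ H : GC → ℝ≥0∞, Measurable H → (∀ g, H g ≤ 1) →
    ∫⁻ m, w n (S.ginf m) * H (S.ginf m) ∂S.M ϑ ≤
      ∫⁻ m, (A n).indicator Φ m * H (S.ginf m) ∂S.M ϑ + η / N ∧
    ∫⁻ m, (A n).indicator Φ m * H (S.ginf m) ∂S.M ϑ ≤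
      ∫⁻ m, w n (S.ginf m) * H (S.ginf m) ∂S.M ϑ + η / N

theorem exists_wts (ϑ : Measure ℝ) [IsProbabilityMeasure ϑ] {Φ : S.X → ℝ≥0∞} (hΦ : Measurable Φ)
    (hf : ∫⁻ m, Φ m ∂S.M ϑ ≠ ⊤) (F : Fr) (y : Data)
    (h : ∀ m, S.GoodPt m → ∃ j, Sand y (fun a => F.inv (m.2 a)) (S.ginf m).2 j) {η : ℝ≥0∞}
    (hη : η ≠ 0) :
    Nonempty (S.Wts ϑ Φ (fun j m => Sand y (fun a => F.inv (m.2 a)) (S.ginf m).2 j) η) := by
  obtain ⟨e, he⟩ := exists_surjective_nat (T3 × ℕ)
  have hg := S.measurable_ginf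
  set B : ℕ → Set S.X := fun n => {m | Sand y (fun a => F.inv (m.2 a)) (S.ginf m).2 (e n).1} ∩
    {m | (S.ginf m).1 < (e n).2}
  have hB : ∀ n, MeasurableSet (B n) := fun n => (meas_Sand (measurable_pi_lambda _ fun a =>
    F.continuous_inv.measurable.comp (by fun_prop)) hg y _).inter
      (measurableSet_lt hg.fst measurable_const)
  have hA := MeasurableSet.disjointed hB
  have := isFiniteMeasure_withDensity hf
  have h1 : ((S.M ϑ).withDensity Φ) (⋂ N, (⋃ n ∈ Finset.range N, disjointed B n)ᶜ) = 0 := by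
    refine withDensity_absolutelyContinuous _ _ (measure_mono_null (fun m hm => ?_)
      (ae_iff.1 (S.ae_goodPt ϑ)))
    intro hm'
    obtain ⟨j, hj⟩ := h m hm'
    obtain ⟨T, hT⟩ := ENNReal.exists_nat_gt (r := (S.ginf m).1)
      (ENNReal.mul_ne_top (by finiteness) ENNReal.ofReal_ne_top)
    obtain ⟨n, hn⟩ := he (j, T)
    obtain ⟨n', hn'⟩ := mem_iUnion.1 (iUnion_disjointed (f := B) ▸
      mem_iUnion.2 ⟨n, show m ∈ B n by simp only [B, hn]; exact ⟨hj, hT⟩⟩)
    exact mem_iInter.1 hm (n' + 1) (mem_iUnion₂.2 ⟨n', Finset.self_mem_range_succ n', hn'⟩)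
  have hU : ∀ N, MeasurableSet (⋃ n ∈ Finset.range N, disjointed B n)ᶜ := fun N =>
    (Finset.measurableSet_biUnion _ fun n _ => hA n).compl
  obtain ⟨N, hN⟩ := ((h1 ▸ tendsto_measure_iInter_atTop (fun N => (hU N).nullMeasurableSet)
    (fun N N' h => compl_subset_compl.2 (biUnion_subset_biUnion_left (Finset.range_mono h)))
    ⟨0, measure_ne_top _ _⟩).eventually_lt_const (pos_iff_ne_zero.2 hη)).exists
  have h2 : ∀ n, ∃ w : GC → ℝ≥0∞, Continuous w ∧ (∃ C : ℝ≥0∞, C ≠ ⊤ ∧ ∀ x, w x ≤ C) ∧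
      (∀ g, w g ≠ 0 → Op (e n).1 g.2 ∧ g.1 < (e n).2 ∧
        ∀ c ∈ (e n).1.1 ++ (e n).1.2.1 ++ (e n).1.2.2, 0 < c.2) ∧
      ∀ H : GC → ℝ≥0∞, Measurable H → (∀ g, H g ≤ 1) →
        ∫⁻ m, w (S.ginf m) * H (S.ginf m) ∂S.M ϑ ≤
          ∫⁻ m, (disjointed B n).indicator Φ m * H (S.ginf m) ∂S.M ϑ + η / N ∧
        ∫⁻ m, (disjointed B n).indicator Φ m * H (S.ginf m) ∂S.M ϑ ≤
          ∫⁻ m, w (S.ginf m) * H (S.ginf m) ∂S.M ϑ + η / N := by
    intro n
    have hI := hΦ.indicator (hA n)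
    have hI' : ∫⁻ m, (disjointed B n).indicator Φ m ∂S.M ϑ ≠ ⊤ :=
      ne_top_of_le_ne_top hf (lintegral_mono fun m => indicator_le_self _ _ m)
    have := isFiniteMeasure_withDensity hI'
    have := Measure.isFiniteMeasure_map ((S.M ϑ).withDensity ((disjointed B n).indicator Φ)) S.ginf
    have := Measure.isFiniteMeasure_map (S.M ϑ) S.ginf
    obtain ⟨ψ, hψ, h3⟩ : ∃ ψ : GC → ℝ≥0∞, Measurable ψ ∧ ∀ H : GC → ℝ≥0∞, Measurable H →
        ∫⁻ g, ψ g * H g ∂(S.M ϑ).map S.ginf =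
          ∫⁻ m, (disjointed B n).indicator Φ m * H (S.ginf m) ∂S.M ϑ :=
      ⟨_, Measure.measurable_rnDeriv _ _, fun H hH => (lintegral_rnDeriv_mul
        ((withDensity_absolutelyContinuous _ _).map hg) hH.aemeasurable).trans
        ((lintegral_map hH hg).trans (lintegral_withDensity_eq_lintegral_mul _ hI (hH.comp hg)))⟩
    have hO : IsOpen {g : GC | Op (e n).1 g.2 ∧ g.1 < (e n).2 ∧
        ∀ c ∈ (e n).1.1 ++ (e n).1.2.1 ++ (e n).1.2.2, 0 < c.2} :=
      (isOpen_Op _).inter ((isOpen_lt continuous_fst continuous_const).inter isOpen_const)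
    obtain ⟨w, h4, h5, h6, h7, h8⟩ := lk_approx _ hψ (by
        have h4 := h3 _ (measurable_const (a := 1))
        simp only [mul_one] at h4
        rwa [h4]) hO (by
        rw [← lintegral_indicator hO.measurableSet.compl]
        refine (lintegral_congr fun g => ?_).trans ((h3 _ (measurable_one.indicator
          hO.measurableSet.compl)).trans ((lintegral_congr fun m => ?_).trans lintegral_zero))
        · rw [← indicator_mul_right, Pi.one_def]
          simp only [mul_one]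
        by_cases hm : m ∈ disjointed B n
        · have h4 := disjointed_subset B n hm
          refine mul_eq_zero_of_right _ (indicator_of_notMem ?_ _)
          exact fun h => h ⟨h4.1.2.2.2.2.1, h4.2, h4.1.2.2.2.2.2⟩
        · rw [indicator_of_notMem hm, zero_mul])
      (ENNReal.div_ne_zero.2 ⟨hη, ENNReal.natCast_ne_top N⟩)
    refine ⟨w, h4, h5, h6, fun H hH hH1 => ?_⟩
    have h9 : ∀ a b : GC → ℝ≥0∞, Measurable b → ∫⁻ g, a g - b g ∂(S.M ϑ).map S.ginf ≤ η / N →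
        ∫⁻ g, a g * H g ∂(S.M ϑ).map S.ginf ≤ ∫⁻ g, b g * H g ∂(S.M ϑ).map S.ginf + η / N :=
      fun a b hb h => by
        refine le_trans (lintegral_mono fun g => ?_) ((lintegral_add_left (hb.mul hH)
          fun g => a g - b g).le.trans (add_le_add le_rfl h))
        exact (mul_le_mul_left le_add_tsub _).trans ((add_mul _ _ _).le.trans
          (add_le_add le_rfl (mul_le_of_le_one_right' (hH1 g))))
    rw [← h3 H hH, ← lintegral_map (f := fun g => w g * H g) (h4.measurable.mul hH) hg]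
    exact ⟨h9 _ _ hψ h8, h9 _ _ h4.measurable h7⟩
  choose w h3 h4 h5 h6 using h2
  exact ⟨⟨N, fun n => (e n).1, disjointed B, w, fun n => (e n).2, h3, h4, h5, hA,
    disjoint_disjointed B, fun n m hm => (disjointed_subset B n hm).1,
    (withDensity_apply _ (hU N)).ge.trans hN.le, h6⟩⟩

end Setup

end Pool.Agent.QL.LC
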