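import Pool.Agent.P.MP_7a6434d8_pr.QL.C.Meas

/-! Block LOC: outer code, inner code, crossing counts, the gluing formula. -/

open MeasureTheory ProbabilityTheory Set Filter Topology Metric
open scoped ENNReal unitInterval

namespace Pool.Agent.QL.LC

open Pool.Agent.LGD Pool.Agent.P.MP_7a6434d8_pr Pool.Agent.P.MP_7a6434d8_pr.Mp

/-- samples and arcs -/
abbrev Nd : Type := ℕ ⊕ ℕ

/-- The outer code: dilation; flag, mass, length, area; pattern; outer distances; outer
energies. -/
abbrev CI : Type :=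
  I × (ℝ≥0∞ × ℝ≥0∞ × ℝ≥0∞ × ℝ≥0∞) × (ℕ → ℝ≥0∞) × (ℕ → Nd → Nd → ℝ≥0∞) × EC

set_option synthInstance.maxSize 1024 in
instance loc_polish_CI : PolishSpace CI := inferInstance
set_option synthInstance.maxSize 1024 in
instance loc_borel_CI : BorelSpace CI := inferInstance
instance loc_second_CI : SecondCountableTopology CI := inferInstance
instance loc_polish_OC : PolishSpace OCode := inferInstance
instance loc_borel_OC : BorelSpace OCode := inferInstance
instance loc_second_OC : SecondCountableTopology OCode := inferInstance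
set_option synthInstance.maxSize 1024 in
instance loc_polish_IO : PolishSpace (CI × OCode) := inferInstance
instance loc_borel_IO : BorelSpace (CI × OCode) := inferInstance

namespace CI

variable (u : CI)

/-- dilation -/
def rho : I := u.1
/-- the hole exists -/
def ev : ℝ≥0∞ := u.2.1.1
/-- total mass -/
def lam : ℝ≥0∞ := u.2.1.2.1
/-- boundary length -/
def len : ℝ≥0∞ := u.2.1.2.2.1
/-- area of the hole -/
def area : ℝ≥0∞ := u.2.1.2.2.2
/-- pattern of the samples in the hole -/
def pat : ℕ → ℝ≥0∞ := u.2.2.1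
/-- outer distances at resolution `M` -/
def out : ℕ → Nd → Nd → ℝ≥0∞ := u.2.2.2.1
/-- outer energies -/
def en : EC := u.2.2.2.2
/-- length and area -/
noncomputable def par : ℝ × ℝ := (u.len.toReal, u.area.toReal)

open Classical in
/-- the hole exists and is macroscopic -/
noncomputable def chi : ℝ≥0∞ :=
  if 0 < u.len ∧ u.len < ⊤ ∧ 0 < u.area ∧ u.area < ⊤ then min u.ev 1 else 0

end CI

/-- the nodes `z` of the sample or arc `y` at resolution `M`, for half-perimeter `L` -/
def IsNode (L : ℝ≥0∞) (M : ℕ) : Nd → Nd → Prop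
  | .inl a, z => z = .inl a
  | .inr u, z => ∃ p : ℕ, z = .inr p ∧ (p : ℝ≥0∞) < 2 * L ∧ u * (2 * L) ≤ p * M ∧
      (p : ℝ≥0∞) * M < (u + 1) * (2 * L)

/-- the scaled outer code -/
noncomputable def cIof (δ κ : ℝ) (n : ℕ) (ρ : I) (e : ℝ≥0∞) (c : IIdx → ℝ≥0∞) : CI :=
  (ρ, (e, ENNReal.ofReal (δ ^ 4 * n), ENNReal.ofReal (δ ^ 2) * c .per,
      ENNReal.ofReal (δ ^ 4) * c .size), fun a => c (.pat a),
    fun M y y' => ⨅ (z : Nd) (z' : Nd) (_ : IsNode (c .per) M y z) (_ : IsNode (c .per) M y' z'),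
      ENNReal.ofReal δ * c (.dist z z'),
    fun x => nrm κ x.1 * c (.en x.1 (x.2.toN δ)))

/-- a geodesic -/
noncomputable def geod {n : ℕ} (q : Quad n) (x x' : q.Vertex) : q.graph.Walk x x' :=
  ((graph_connected q).exists_walk_length_eq_dist x x').choose

theorem geod_length {n : ℕ} (q : Quad n) (x x' : q.Vertex) :
    (geod q x x').length = q.graph.dist x x' :=
  ((graph_connected q).exists_walk_length_eq_dist x x').choose_spec

open Classical in
/-- number of crossings of the boundary of the union of the balls -/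
noncomputable def ncr {n : ℕ} (q : Quad n) (S : ℕ → q.Vertex) (J : List (ℕ × ℕ)) (a a' : ℕ) : ℕ :=
  ((geod q (S a) (S a')).darts.filter fun e =>
    decide (InBall q S J e.fst ↔ ¬ InBall q S J e.snd)).length

namespace RZ

variable (r : RZ) (H : HS) (δ κ : ℝ) (α : Rg)

open Classical in
/-- outer code of a realisation -/
noncomputable def cI : CI :=
  cIof δ κ r.n r.ρ (if r.ev δ α then 1 else 0) ((H.1 r.n).icode r.q (r.A δ α) r.S)

/-- inner code of a realisation -/
noncomputable def cO : OCode := ocode δ κ (r.W H δ α) (r.inn H δ α)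

/-- normalised crossing counts -/
noncomputable def cN (a a' : ℕ) : ℝ≥0∞ :=
  (ncr r.q r.S (Jd δ r.ρ α.1) a a' : ℝ≥0∞) /
    (1 + ENNReal.ofReal (δ * r.q.graph.dist (r.S a) (r.S a')))

end RZ

open Classical in
/-- index of a sample among the samples in the hole -/
noncomputable def rk (pat : ℕ → ℝ≥0∞) (a : ℕ) : ℕ := Nat.count (fun i => pat i = 1) a

open Classical in
/-- cost of a step inside the hole -/
noncomputable def inC (pat : ℕ → ℝ≥0∞) (c : GIdx → ℝ≥0∞) (M : ℕ) : Nd → Nd → ℝ≥0∞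
  | .inl a, .inl a' => if pat a = 1 ∧ pat a' = 1 then c (.d (rk pat a) (rk pat a')) else ⊤
  | .inl a, .inr u => if pat a = 1 then c (.b (rk pat a) (u / M)) else ⊤
  | .inr u, .inl a => if pat a = 1 then c (.b (rk pat a) (u / M)) else ⊤
  | .inr u, .inr u' => c (.e (u / M) (u' / M))

/-- cost of a step -/
noncomputable def stp (u : CI) (c : GIdx → ℝ≥0∞) (M : ℕ) (y y' : Nd) : ℝ≥0∞ :=
  min (u.out M y y') (inC u.pat c M y y')

/-- cost of a chain of arcs -/
noncomputable def chn (u : CI) (c : GIdx → ℝ≥0∞) (M : ℕ) : Nd → List ℕ → Nd → ℝ≥0∞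
  | y, [], y' => stp u c M y y'
  | y, v :: l, y' => stp u c M y (.inr v) + chn u c M (.inr v) l y'

/-- least cost of a chain of at most `N` arcs -/
noncomputable def glN (u : CI) (c : GIdx → ℝ≥0∞) (N M a a' : ℕ) : ℝ≥0∞ :=
  ⨅ (l : List ℕ) (_ : l.length ≤ N) (_ : ∀ v ∈ l, v < M), chn u c M (.inl a) l (.inl a')

/-- The distance matrix read from the outer code and the inner geometry. -/
noncomputable def glue (u : CI) (c : GIdx → ℝ≥0∞) (a a' : ℕ) : ℝ≥0∞ :=
  if a = a' then 0 else ⨅ N, liminf (fun M => glN u c N M a a') atTop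

/-- Mass and distance matrix. -/
noncomputable def glG (u : CI) (c : GIdx → ℝ≥0∞) : GC := (u.lam, glue u c)

/-- A net with a hole and convergent codes. -/
structure LocNet (b : Base) (r : ℕ → RZ) (H : HS) (α : Rg) (g : GC) (E : EC) (ρ : I) (ℓ a : ℝ)
    (u : CI) (c : OCode) : Prop where
  ok : HoleOK b r H α g ρ ℓ a
  evI : EvI g.2 α ρ
  fin : ∀ i j, g.2 i j ≠ ⊤
  tg : Tendsto (fun k => gcd0 (b.δ k) (r k)) b.U (𝓝 g)
  tE : Tendsto (fun k => ecd0 (b.δ k) (b.κ k) (r k)) b.U (𝓝 E)
  tI : Tendsto (fun k => (r k).cI H (b.δ k) (b.κ k) α) b.U (𝓝 u)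
  tO : Tendsto (fun k => (r k).cO H (b.δ k) (b.κ k) α) b.U (𝓝 c)

end Pool.Agent.QL.LC
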