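import Pool.Agent.P.MP_7a6434d8_pr.QL.C.LocDefs
import Pool.Agent.P.MP_7a6434d8_pr.QL.M2.Dist

open MeasureTheory ProbabilityTheory Set Filter Topology Metric
open scoped ENNReal unitInterval

namespace Pool.Agent.QL.LC

open Pool.Agent.LGD Pool.Agent.P.MP_7a6434d8_pr Pool.Agent.P.MP_7a6434d8_pr.Mp

variable {r : RZ} {H : HS} {δ κ ε : ℝ} {α : Rg} {M : ℕ}

/-- The arcs of resolution `M` have diameter at most `ε`. -/
def ArcOK (r : RZ) (H : HS) (δ : ℝ) (α : Rg) (M : ℕ) (ε : ℝ) : Prop :=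
  ∀ p p' : ℕ, p ≤ p' → p' ≤ 2 * per (r.W H δ α) → (p' - p) * M ≤ 2 * per (r.W H δ α) + M →
    δ * dW (r.W H δ α) (bv _ p) (bv _ p') ≤ ε

theorem locga_bpos {L u : ℕ} (hu : u < M) : bpos L (u / M) = 2 * L * u / M := by
  have h0 : (0 : ℚ) < M := by exact_mod_cast (Nat.zero_le u).trans_lt hu
  have h1 : Int.fract ((u : ℚ) / M) = u / M :=
    Int.fract_eq_self.2 ⟨by positivity, (div_lt_one h0).2 (by exact_mod_cast hu)⟩
  rw [bpos, h1, ← Nat.floor_div_eq_div (K := ℚ)]
  congr 1
  push_cast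
  ring

theorem locga_nth {p p' : ℕ → Prop} [DecidablePred p'] (h : ∀ i, p' i ↔ p i) {a : ℕ} (ha : p a) :
    Nat.nth p (Nat.count p' a) = a := by
  obtain rfl : p' = p := funext fun i => propext (h i)
  exact Nat.nth_count ha

theorem locga_cast (hδ : 0 < δ) (k : ℕ) :
    ENNReal.ofReal δ * (k : ℝ≥0∞) = ENNReal.ofReal (δ * k) := by
  rw [ENNReal.ofReal_mul hδ.le, ENNReal.ofReal_natCast]

theorem locga_chn (u : CI) (c : GIdx → ℝ≥0∞) (M s : ℕ) : ∀ (Y : ℕ → Nd) (v : ℕ → ℕ),
    (∀ i, 0 < i → i < s + 1 → Y i = .inr (v i)) →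
    chn u c M (Y 0) ((List.range s).map fun i => v (i + 1)) (Y (s + 1)) =
      ∑ i ∈ Finset.range (s + 1), stp u c M (Y i) (Y (i + 1)) := by
  induction s with
  | zero => intro Y v _; simp [chn]
  | succ s ih =>
    intro Y v h
    have h1 := h 1 one_pos (by omega)
    have h2 := ih (fun i => Y (i + 1)) (fun i => v (i + 1)) fun i _ hi => h (i + 1) (by omega)
      (by omega)
    rw [Finset.sum_range_succ', ← h2, List.range_succ_eq_map, List.map_cons, List.map_map, chn,
      add_comm, zero_add, h1]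
    rfl

section

variable (r H δ κ α M)

/-- the node lies in the hole -/
def locga_in : Nd → Prop
  | .inl a => r.S a ∈ r.A δ α
  | .inr _ => True

/-- reference vertex in the hole -/
noncomputable def locga_rin : Nd → V (r.W H δ α)
  | .inl a => r.inn H δ α (rk (r.cI H δ κ α).pat a)
  | .inr u => bv _ (bpos (per (r.W H δ α)) (u / M))

/-- reference vertex in the map -/
noncomputable def locga_ref : Nd → r.q.Vertex
  | .inl a => r.S a
  | .inr u => r.ι H δ α (bv _ (bpos (per (r.W H δ α)) (u / M)))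

/-- vertex of a node -/
noncomputable def locga_vx (z : Nd) : r.q.Vertex :=
  (H.1 r.n).vx r.q (r.A δ α) (z.map r.S id)

end

theorem locga_sub (H : HS) (hev : r.ev δ α) :
    SubQ r.q (r.A δ α) (r.W H δ α) ((H.1 r.n).θ r.q _) (r.ι H δ α) :=
  (H.2 r.n).sub r.q r.S _ α.2 hev

theorem locga_pat (a : ℕ) : (r.cI H δ κ α).pat a = 1 ↔ r.S a ∈ r.A δ α := by
  classical
  have : (r.cI H δ κ α).pat a = if r.S a ∈ r.A δ α then 1 else 0 := by
    simp only [RZ.cI, cIof, CI.pat, HoleSys.icode]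
  rw [this]
  split_ifs with h <;> simp [h]

theorem locga_ι_rin (hev : r.ev δ α) {y : Nd} (hy : locga_in r δ α y) :
    r.ι H δ α (locga_rin r H δ κ α M y) = locga_ref r H δ α M y := by
  rcases y with a | u
  · have h1 : Nat.nth (fun a => r.S a ∈ r.A δ α) (rk (r.cI H δ κ α).pat a) = a := by
      unfold rk
      exact @locga_nth _ _ _ (locga_pat (H := H) (κ := κ)) _ hy
    have h2 : r.S a ∈ range (r.ι H δ α) := by rw [(locga_sub H hev).ι_range]; exact hy
    change r.ι H δ α (Function.invFun (r.ι H δ α)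
      (r.S (Nat.nth (fun a => r.S a ∈ r.A δ α) (rk (r.cI H δ κ α).pat a)))) = r.S a
    rw [h1]
    exact Function.invFun_eq h2
  · rfl

open Classical in
theorem locga_inC (hev : r.ev δ α) (y y' : Nd) :
    inC (r.cI H δ κ α).pat (r.cO H δ κ α).1 M y y' =
      if locga_in r δ α y ∧ locga_in r δ α y' then ENNReal.ofReal
        (δ * dW (r.W H δ α) (locga_rin r H δ κ α M y) (locga_rin r H δ κ α M y')) else ⊤ := by
  rcases y with a | u <;> rcases y' with a' | u'
  · exact if_congr (and_congr (locga_pat a) (locga_pat a')) rfl rfl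
  · exact if_congr ((locga_pat a).trans (and_iff_left trivial).symm) rfl rfl
  · rw [M2.dW_comm (locga_sub H hev).ok]
    exact if_congr ((locga_pat a').trans (and_iff_right trivial).symm) rfl rfl
  · exact (if_pos ⟨trivial, trivial⟩).symm

theorem locga_out (y y' : Nd) : (r.cI H δ κ α).out M y y' =
    ⨅ (z : Nd) (z' : Nd) (_ : IsNode (per (r.W H δ α)) M y z)
      (_ : IsNode (per (r.W H δ α)) M y' z'),
      ENNReal.ofReal δ * (H.1 r.n).dI r.q (r.A δ α) (z.map r.S id) (z'.map r.S id) := by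
  have key : ∀ z z' : Nd, (H.1 r.n).icode r.q (r.A δ α) r.S (.dist z z') =
      (H.1 r.n).dI r.q (r.A δ α) (z.map r.S id) (z'.map r.S id) := fun z z' => by
    simp only [HoleSys.icode]
    split_ifs with h
    · rfl
    · rw [not_and_or] at h
      rcases h with h | h <;> simp only [not_forall, not_not] at h
      · obtain ⟨a, rfl, ha⟩ := h
        exact ((H.2 r.n).dI_in r.q _ _ _ ha).1.symm
      · obtain ⟨a, rfl, ha⟩ := h
        exact ((H.2 r.n).dI_in r.q _ _ _ ha).2.symm
  simp only [← key]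
  rfl

theorem locga_eps (h : ArcOK r H δ α M ε) : 0 ≤ ε := by
  simpa [M2.dW_self] using h 0 0 le_rfl (Nat.zero_le _) (by simp)

theorem locga_node (hev : r.ev δ α) (h : ArcOK r H δ α M ε) {y z : Nd}
    (hy : ∀ u, y = .inr u → u < M) (hz : IsNode (per (r.W H δ α)) M y z) {x : V (r.W H δ α)}
    (hx : r.ι H δ α x = locga_vx r H δ α z) :
    locga_in r δ α y ∧ δ * dW (r.W H δ α) (locga_rin r H δ κ α M y) x ≤ ε := by
  have hs := locga_sub H hev
  rcases y with a | u
  · obtain rfl : z = .inl a := hz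
    have h1 : locga_in r δ α (.inl a) := by
      change r.S a ∈ r.A δ α
      rw [← hs.ι_range]
      exact ⟨x, hx⟩
    have h2 : locga_rin r H δ κ α M (.inl a) = x := hs.ι_inj ((locga_ι_rin hev h1).trans hx.symm)
    refine ⟨h1, ?_⟩
    rw [h2, M2.dW_self, Nat.cast_zero, mul_zero]
    exact locga_eps h
  · obtain ⟨p, rfl, h1, h2, h3⟩ := hz
    have hu := hy u rfl
    obtain rfl : x = bv _ p := hs.ι_inj hx
    refine ⟨trivial, ?_⟩
    change δ * dW (r.W H δ α) (bv _ (bpos (per (r.W H δ α)) (u / M))) (bv _ p) ≤ ε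
    rw [locga_bpos hu]
    generalize hL : per (r.W H δ α) = L at h1 h2 h3
    have k1 : p < 2 * L := by exact_mod_cast h1
    have k2 : u * (2 * L) ≤ p * M := by exact_mod_cast h2
    have k3 : p * M < (u + 1) * (2 * L) := by exact_mod_cast h3
    have k4 := Nat.lt_div_mul_add (a := 2 * L * u) ((Nat.zero_le u).trans_lt hu)
    refine h _ p (Nat.div_le_of_le_mul (by linarith)) (by omega) ?_
    rw [hL, Nat.sub_mul]
    have k5 : (u + 1) * (2 * L) = 2 * L * u + 2 * L := by ring
    omega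

theorem locga_near (hB : BallStmt) (hδ : 0 < δ) (hev : r.ev δ α) (h : ArcOK r H δ α M ε)
    {y z : Nd} (hy : ∀ u, y = .inr u → u < M) (hz : IsNode (per (r.W H δ α)) M y z) :
    δ * r.q.graph.dist (locga_ref r H δ α M y) (locga_vx r H δ α z) ≤ ε := by
  rcases y with a | u
  · obtain rfl : z = .inl a := hz
    change δ * r.q.graph.dist (r.S a) (r.S a) ≤ ε
    rw [SimpleGraph.dist_self, Nat.cast_zero, mul_zero]
    exact locga_eps h
  · obtain ⟨p, rfl, -⟩ := id hz
    refine le_trans (mul_le_mul_of_nonneg_left ?_ hδ.le)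
      (locga_node (κ := 1) hev h hy hz (x := bv _ p) rfl).2
    exact_mod_cast (hB r.q _ _ _ _ (locga_sub H hev)).2.1 _ _

theorem locga_step1 (hB : BallStmt) (hδ : 0 < δ) (hev : r.ev δ α) (h : ArcOK r H δ α M ε)
    {y y' : Nd} (hy : ∀ u, y = .inr u → u < M) (hy' : ∀ u, y' = .inr u → u < M) :
    ENNReal.ofReal (δ * r.q.graph.dist (locga_ref r H δ α M y) (locga_ref r H δ α M y')) ≤
      stp (r.cI H δ κ α) (r.cO H δ κ α).1 M y y' + ENNReal.ofReal (2 * ε) := by
  rw [← tsub_le_iff_right]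
  refine le_min ?_ ?_
  · rw [locga_out]
    refine le_iInf₂ fun z z' => le_iInf₂ fun hz hz' => ?_
    refine le_trans ?_ (mul_le_mul_right ((H.2 r.n).dI_ge r.q r.S _ α.2 hev _ _) _)
    rw [tsub_le_iff_right, locga_cast hδ]
    refine le_trans (ENNReal.ofReal_le_ofReal ?_) (ENNReal.ofReal_add (by positivity)
      (mul_nonneg zero_le_two (locga_eps h))).le
    have h1 := locga_near hB hδ hev h hy hz
    have h2 := locga_near hB hδ hev h hy' hz'
    rw [SimpleGraph.dist_comm] at h2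
    have hc := graph_connected r.q
    have h3 : (r.q.graph.dist (locga_ref r H δ α M y) (locga_ref r H δ α M y') : ℝ) ≤
        r.q.graph.dist (locga_ref r H δ α M y) (locga_vx r H δ α z) +
          (r.q.graph.dist (locga_vx r H δ α z) (locga_vx r H δ α z') +
            r.q.graph.dist (locga_vx r H δ α z') (locga_ref r H δ α M y')) := by
      exact_mod_cast hc.dist_triangle.trans (Nat.add_le_add_left hc.dist_triangle _)
    have h4 := mul_le_mul_of_nonneg_left h3 hδ.le
    change _ ≤ δ * r.q.graph.dist (locga_vx r H δ α z) (locga_vx r H δ α z') + 2 * ε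
    linarith
  · rw [locga_inC hev]
    split_ifs with hi
    · refine tsub_le_self.trans (ENNReal.ofReal_le_ofReal (mul_le_mul_of_nonneg_left ?_ hδ.le))
      rw [← locga_ι_rin (κ := κ) hev hi.1, ← locga_ι_rin (κ := κ) hev hi.2]
      exact_mod_cast (hB r.q _ _ _ _ (locga_sub H hev)).2.1 _ _
    · exact le_top

theorem locga_step2 (hδ : 0 < δ) (hev : r.ev δ α) (h : ArcOK r H δ α M ε) {y y' z z' : Nd}
    (hy : ∀ u, y = .inr u → u < M) (hy' : ∀ u, y' = .inr u → u < M)
    (hz : IsNode (per (r.W H δ α)) M y z) (hz' : IsNode (per (r.W H δ α)) M y' z') :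
    stp (r.cI H δ κ α) (r.cO H δ κ α).1 M y y' ≤
      ENNReal.ofReal δ * (H.1 r.n).step r.q (r.A δ α) (z.map r.S id) (z'.map r.S id) +
        ENNReal.ofReal (2 * ε) := by
  have h0 : ENNReal.ofReal δ ≠ 0 := (ENNReal.ofReal_pos.2 hδ).ne'
  rw [← tsub_le_iff_right, HoleSys.step, mul_min]
  refine le_min (tsub_le_self.trans ((min_le_left _ _).trans ?_)) ?_
  · rw [locga_out]
    exact iInf₂_le_of_le z z' (iInf₂_le hz hz')
  · simp only [ENNReal.mul_iInf_of_ne h0 ENNReal.ofReal_ne_top]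
    refine le_iInf₂ fun (x x' : V (r.W H δ α)) => le_iInf₂ fun hx hx' => ?_
    obtain ⟨h1, h2⟩ := locga_node (κ := κ) hev h hy hz hx
    obtain ⟨h3, h4⟩ := locga_node (κ := κ) hev h hy' hz' hx'
    rw [tsub_le_iff_right, locga_cast hδ]
    refine (min_le_right _ _).trans ?_
    rw [locga_inC hev, if_pos ⟨h1, h3⟩]
    refine le_trans (ENNReal.ofReal_le_ofReal ?_) (ENNReal.ofReal_add (by positivity)
      (mul_nonneg zero_le_two (locga_eps h))).le
    have ho := (locga_sub H hev).ok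
    rw [M2.dW_comm ho] at h4
    have h5 : (dW (r.W H δ α) (locga_rin r H δ κ α M y) (locga_rin r H δ κ α M y') : ℝ) ≤
        dW (r.W H δ α) (locga_rin r H δ κ α M y) x +
          (dW (r.W H δ α) x x' + dW (r.W H δ α) x' (locga_rin r H δ κ α M y')) := by
      exact_mod_cast (M2.dW_tri ho _ x _).trans (Nat.add_le_add_left (M2.dW_tri ho x x' _) _)
    have h6 := mul_le_mul_of_nonneg_left h5 hδ.le
    change _ ≤ δ * dW (r.W H δ α) x x' + 2 * ε
    linarith

theorem locga_le_chn (hB : BallStmt) (hδ : 0 < δ) (hev : r.ev δ α) (h : ArcOK r H δ α M ε)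
    {y' : Nd} (hy' : ∀ u, y' = .inr u → u < M) (l : List ℕ) (hl : ∀ v ∈ l, v < M) :
    ∀ y : Nd, (∀ u, y = .inr u → u < M) →
    ENNReal.ofReal (δ * r.q.graph.dist (locga_ref r H δ α M y) (locga_ref r H δ α M y')) ≤
      chn (r.cI H δ κ α) (r.cO H δ κ α).1 M y l y' + (l.length + 1) * ENNReal.ofReal (2 * ε) := by
  induction l with
  | nil =>
    intro y hy
    simpa [chn] using locga_step1 hB hδ hev h hy hy'
  | cons v l ih =>
    intro y hy
    have hv : ∀ u, (Sum.inr v : Nd) = .inr u → u < M := fun u hu => by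
      rw [← Sum.inr.inj hu]; exact hl v List.mem_cons_self
    have h1 := locga_step1 (κ := κ) hB hδ hev h hy hv
    have h2 := ih (fun w hw => hl w (List.mem_cons_of_mem _ hw)) _ hv
    have h3 : (r.q.graph.dist (locga_ref r H δ α M y) (locga_ref r H δ α M y') : ℝ) ≤
        r.q.graph.dist (locga_ref r H δ α M y) (locga_ref r H δ α M (.inr v)) +
          r.q.graph.dist (locga_ref r H δ α M (.inr v)) (locga_ref r H δ α M y') := by
      exact_mod_cast (graph_connected r.q).dist_triangle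
    refine (ENNReal.ofReal_le_ofReal (mul_le_mul_of_nonneg_left h3 hδ.le)).trans ?_
    rw [mul_add]
    refine ENNReal.ofReal_add_le.trans ((add_le_add h1 h2).trans (le_of_eq ?_))
    rw [chn, List.length_cons]
    push_cast
    ring

/-- chains are not much shorter than the distance -/
theorem loc_le_chn (hB : BallStmt) (hδ : 0 < δ) (hev : r.ev δ α) (hM : 0 < M)
    (h : ArcOK r H δ α M ε) (a a' : ℕ) (l : List ℕ) (hl : ∀ v ∈ l, v < M) :
    ENNReal.ofReal (δ * r.q.graph.dist (r.S a) (r.S a')) ≤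
      chn (r.cI H δ κ α) (r.cO H δ κ α).1 M (.inl a) l (.inl a') +
        (l.length + 1) * ENNReal.ofReal (2 * ε) :=
  locga_le_chn hB hδ hev h (y' := .inl a') (fun _ hu => nomatch hu) l hl (.inl a)
    fun _ hu => nomatch hu

/-- some short chain is not much longer than the distance -/
theorem loc_chn_le (hδ : 0 < δ) (hev : r.ev δ α) (hM : 0 < M) (h : ArcOK r H δ α M ε)
    {a a' : ℕ} (hne : r.S a ≠ r.S a') : ∃ l : List ℕ,
      l.length ≤ 2 * ncr r.q r.S (Jd δ r.ρ α.1) a a' ∧ (∀ v ∈ l, v < M) ∧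
      chn (r.cI H δ κ α) (r.cO H δ κ α).1 M (.inl a) l (.inl a') ≤
        ENNReal.ofReal (δ * r.q.graph.dist (r.S a) (r.S a')) +
          (l.length + 1) * ENNReal.ofReal (2 * ε) := by
  obtain ⟨s, y, h1, h2, h3, h4, h5⟩ :=
    (H.2 r.n).glue r.q r.S _ α.2 hev _ _ (geod r.q (r.S a) (r.S a'))
  obtain ⟨s, rfl⟩ : ∃ s', s = s' + 1 := Nat.exists_eq_succ_of_ne_zero (by
    rintro rfl
    exact hne (Sum.inl.inj (h2.symm.trans h3)))
  have hL := (locga_sub H hev).per_pos
  let P : ℕ → ℕ := fun i => (y i).elim (fun _ => 0) id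
  let v : ℕ → ℕ := fun i => P i * M / (2 * per (r.W H δ α))
  let Y : ℕ → Nd := fun i => if i = 0 then .inl a else if i = s + 1 then .inl a' else .inr (v i)
  let Z : ℕ → Nd := fun i => if i = 0 then .inl a else if i = s + 1 then .inl a' else .inr (P i)
  have hP : ∀ i, 0 < i → i < s + 1 → P i < 2 * per (r.W H δ α) ∧ y i = .inr (P i) := by
    intro i k1 k2
    obtain ⟨p, k3, k4⟩ := h4 i k1 k2
    have k5 : P i = p := by simp only [P, k4, Sum.elim_inr, id]
    rw [k5]
    exact ⟨k3, k4⟩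
  have hv : ∀ i, 0 < i → i < s + 1 → v i < M := fun i k1 k2 =>
    Nat.div_lt_of_lt_mul (Nat.mul_lt_mul_of_pos_right (hP i k1 k2).1 hM)
  have hY : ∀ i, 0 < i → i < s + 1 → Y i = .inr (v i) := fun i k1 k2 => by
    simp only [Y, if_neg k1.ne', if_neg k2.ne]
  have key : ∀ i, i ≤ s + 1 → (∀ u, Y i = .inr u → u < M) ∧
      IsNode (per (r.W H δ α)) M (Y i) (Z i) ∧ (Z i).map r.S id = y i := by
    intro i hi
    by_cases k1 : i = 0
    · simp only [Y, Z, if_pos k1]
      exact ⟨fun _ hu => (nomatch hu), rfl, by rw [k1, h2]; rfl⟩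
    by_cases k2 : i = s + 1
    · simp only [Y, Z, if_neg k1, if_pos k2]
      exact ⟨fun _ hu => (nomatch hu), rfl, by rw [k2, h3]; rfl⟩
    have k3 : 0 < i := Nat.pos_of_ne_zero k1
    have k4 : i < s + 1 := lt_of_le_of_ne hi k2
    simp only [Y, Z, if_neg k1, if_neg k2]
    refine ⟨fun u hu => Sum.inr.inj hu ▸ hv i k3 k4, ⟨P i, rfl, ?_, ?_, ?_⟩, (hP i k3 k4).2.symm⟩
    · exact_mod_cast (hP i k3 k4).1
    · exact_mod_cast Nat.div_mul_le_self (P i * M) (2 * per (r.W H δ α))
    · have k5 := Nat.lt_div_mul_add (a := P i * M) (b := 2 * per (r.W H δ α)) (by omega)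
      have k6 : P i * M < (v i + 1) * (2 * per (r.W H δ α)) := by rw [add_mul, one_mul]; exact k5
      exact_mod_cast k6
  refine ⟨(List.range s).map fun i => v (i + 1), ?_, fun w hw => ?_, ?_⟩
  · rw [List.length_map, List.length_range]
    exact Nat.le_of_succ_le_succ h1
  · obtain ⟨i, hi, rfl⟩ := List.mem_map.1 hw
    exact hv _ (Nat.succ_pos i) (Nat.succ_lt_succ (List.mem_range.1 hi))
  · have e := locga_chn (r.cI H δ κ α) (r.cO H δ κ α).1 M s Y v hY
    have e0 : Y 0 = .inl a := if_pos rfl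
    have e1 : Y (s + 1) = .inl a' := by simp only [Y, if_neg (Nat.succ_ne_zero s), if_true]
    rw [e0, e1] at e
    rw [e, List.length_map, List.length_range]
    refine (Finset.sum_le_sum fun i hi => ?_ : _ ≤ ∑ i ∈ Finset.range (s + 1),
      (ENNReal.ofReal δ * (H.1 r.n).step r.q (r.A δ α) (y i) (y (i + 1)) +
        ENNReal.ofReal (2 * ε))).trans ?_
    · have k1 := key i (Finset.mem_range.1 hi).le
      have k2 := key (i + 1) (Finset.mem_range.1 hi)
      rw [← k1.2.2, ← k2.2.2]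
      exact locga_step2 hδ hev h k1.1 k2.1 k1.2.1 k2.2.1
    · rw [Finset.sum_add_distrib, ← Finset.mul_sum, Finset.sum_const, Finset.card_range,
        nsmul_eq_mul, Nat.cast_succ, ← locga_cast hδ, ← geod_length]
      exact add_le_add (mul_le_mul_right h5 _) le_rfl

end Pool.Agent.QL.LC
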