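import Pool.Agent.P.MP_7a6434d8_pr.QL.C.LocDefs
import Pool.Agent.P.MP_7a6434d8_pr.QL.C.Api
import Pool.Agent.P.MP_7a6434d8_pr.QL.C.Meas

open MeasureTheory ProbabilityTheory Set Filter Topology Metric
open scoped ENNReal unitInterval

namespace Pool.Agent.QL.LC

open Pool.Agent.LGD Pool.Agent.P.MP_7a6434d8_pr Pool.Agent.P.MP_7a6434d8_pr.Mp

theorem locmeas_iInf {Ω : Type} [MeasurableSpace Ω] {p : Ω → Prop} {f : Ω → ℝ≥0∞}
    (hp : Measurable p) (hf : Measurable f) : Measurable fun z => ⨅ _ : p z, f z := by
  classical
  simp only [iInf_eq_if]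
  exact Measurable.ite (measurableSet_setOfPred.2 hp) hf measurable_const

theorem locmeas_node {Ω : Type} [MeasurableSpace Ω] {L : Ω → ℝ≥0∞} (hL : Measurable L) (M : ℕ)
    (y z : Nd) : Measurable fun ω => IsNode (L ω) M y z := by
  rcases y with a | u
  · exact measurable_const
  · exact Measurable.exists fun p => measurable_const.and ((meas_lt measurable_const
      (hL.const_mul _)).and ((meas_le ((hL.const_mul _).const_mul _) measurable_const).and
        (meas_lt measurable_const ((hL.const_mul _).const_mul _))))

theorem measurable_cIof (δ κ : ℝ) (n : ℕ) (e : ℝ≥0∞) :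
    Measurable fun z : I × (IIdx → ℝ≥0∞) => cIof δ κ n z.1 e z.2 := by
  have h : ∀ i, Measurable fun z : I × (IIdx → ℝ≥0∞) => z.2 i := fun i =>
    (measurable_pi_apply i).comp measurable_snd
  exact measurable_fst.prodMk ((measurable_const.prodMk (measurable_const.prodMk
    (((h _).const_mul _).prodMk ((h _).const_mul _)))).prodMk
      ((measurable_pi_lambda _ fun a => h _).prodMk ((measurable_pi_lambda _ fun M =>
        measurable_pi_lambda _ fun y => measurable_pi_lambda _ fun y' =>
          Measurable.iInf fun z => Measurable.iInf fun z' =>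
            locmeas_iInf (locmeas_node (h _) M y z) (locmeas_iInf (locmeas_node (h _) M y' z')
              ((h _).const_mul _))).prodMk
        (measurable_pi_lambda _ fun x => (h _).const_mul _))))

theorem measurable_icode {n : ℕ} (H : HoleSys n) (q : Quad n) (A : Set q.Vertex) :
    Measurable (H.icode q A) := by
  classical
  refine measurable_pi_lambda _ fun c => ?_
  cases c with
  | per => exact measurable_const
  | size => exact measurable_const
  | pat a =>
    refine api_dep [a] fun S S' h => ?_
    simp only [HoleSys.icode]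
    rw [h a List.mem_cons_self]
  | dist y y' =>
    refine api_dep [y.elim id id, y'.elim id id] fun S S' h => ?_
    have h1 : ∀ a, y = .inl a → S a = S' a := fun a e => h a (by simp [e])
    have h2 : ∀ a, y' = .inl a → S a = S' a := fun a e => h a (by simp [e])
    have h3 : ∀ z : ℕ ⊕ ℕ, (∀ a, z = .inl a → S a = S' a) → z.map S id = z.map S' id := by
      rintro (a | a) e
      · exact congrArg Sum.inl (e a rfl)
      · rfl
    simp only [HoleSys.icode]
    rw [h3 y h1, h3 y' h2]
    exact if_congr (and_congr (forall₂_congr fun a e => by rw [h1 a e])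
      (forall₂_congr fun a e => by rw [h2 a e])) rfl rfl
  | en pr j =>
    refine api_dep (j.balls.map Prod.fst) fun S S' h => ?_
    have h1 : ∀ c ∈ j.balls, S c.1 = S' c.1 := fun c hc => h _ (List.mem_map_of_mem hc)
    simp only [HoleSys.icode]
    rw [api_ballE (gmQ q) pr h1]
    exact @if_congr _ _ _ (_) (_) _ _ _ _ (forall₂_congr fun c hc => by rw [h1 c hc]) rfl rfl

theorem measurable_inner {n : ℕ} (H : HoleSys n) (q : Quad n) (A : Set q.Vertex) :
    Measurable (H.inner q A) := by
  refine measurable_pi_lambda _ fun i => (measurable_of_countable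
    (Function.invFun (H.ι q A))).comp (measurable_at measurable_id (measurable_nth
      (p := fun (S : ℕ → q.Vertex) a => S a ∈ A) (fun a => ?_) i))
  exact measurable_pi_apply a (MeasurableSet.of_discrete (s := A))

theorem measurable_cI (H : HS) (δ κ : ℝ) (α : Rg) : Measurable fun r : RZ => r.cI H δ κ α := by
  classical
  have h : ∀ e : ℝ≥0∞, Measurable fun r : RZ =>
      cIof δ κ r.n r.ρ e ((H.1 r.n).icode r.q (r.A δ α) r.S) := fun e =>
    measurable_hole δ α (fun n q A _ z => cIof δ κ n z.1 e ((H.1 n).icode q A z.2))
      fun n q A _ => (measurable_cIof δ κ n e).comp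
        (measurable_fst.prodMk ((measurable_icode _ q A).comp measurable_snd))
  convert Measurable.ite (measurableSet_ev δ α) (h 1) (h 0) using 2 with r
  exact apply_ite (fun e => cIof δ κ r.n r.ρ e ((H.1 r.n).icode r.q (r.A δ α) r.S)) _ _ _

theorem measurable_cO (H : HS) (δ κ : ℝ) (α : Rg) : Measurable fun r : RZ => r.cO H δ κ α := by
  exact measurable_hole δ α (fun n q A _ z => ocode δ κ ((H.1 n).W q A) ((H.1 n).inner q A z.2))
    fun n q A _ => (measurable_ocode δ κ _).comp ((measurable_inner _ q A).comp measurable_snd)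

theorem measurable_cN (δ : ℝ) (α : Rg) : Measurable fun r : RZ => r.cN δ α := by
  refine measurable_pi_lambda _ fun a => measurable_pi_lambda _ fun a' =>
    measurable_hole δ α (fun _ q _ J z => (ncr q z.2 J a a' : ℝ≥0∞) /
      (1 + ENNReal.ofReal (δ * q.graph.dist (z.2 a) (z.2 a')))) fun n q _ J => ?_
  refine (api_dep (a :: a' :: J.map Prod.fst) (f := fun S : ℕ → q.Vertex =>
    (ncr q S J a a' : ℝ≥0∞) / (1 + ENNReal.ofReal (δ * q.graph.dist (S a) (S a'))))
      fun S S' h => ?_).comp measurable_snd
  have e : InBall q S J = InBall q S' J := funext fun x => propext (exists_congr fun c =>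
    and_congr_right fun hc => by
      rw [h c.1 (List.mem_cons_of_mem _ (List.mem_cons_of_mem _ (List.mem_map_of_mem hc)))])
  simp only [ncr]
  rw [e, h a List.mem_cons_self, h a' (List.mem_cons_of_mem _ List.mem_cons_self)]

theorem locmeas_len : Measurable CI.len := measurable_snd.fst.snd.snd.fst

theorem locmeas_area : Measurable CI.area := measurable_snd.fst.snd.snd.snd

theorem measurable_chi : Measurable CI.chi := by
  refine Measurable.ite (measurableSet_setOfPred.2 ?_)
    (measurable_snd.fst.fst.min measurable_const) measurable_const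
  exact (meas_lt measurable_const locmeas_len).and ((meas_lt locmeas_len measurable_const).and
    ((meas_lt measurable_const locmeas_area).and (meas_lt locmeas_area measurable_const)))

theorem measurable_par : Measurable CI.par := by
  exact locmeas_len.ennreal_toReal.prodMk locmeas_area.ennreal_toReal

theorem locmeas_inC (M : ℕ) (y y' : Nd) :
    Measurable fun z : (ℕ → ℝ≥0∞) × (GIdx → ℝ≥0∞) => inC z.1 z.2 M y y' := by
  have h1 : ∀ a, MeasurableSet {z : (ℕ → ℝ≥0∞) × (GIdx → ℝ≥0∞) | z.1 a = 1} := fun a =>
    measurableSet_eq_fun ((measurable_pi_apply a).comp measurable_fst) measurable_const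
  have h2 : ∀ a, Measurable fun z : (ℕ → ℝ≥0∞) × (GIdx → ℝ≥0∞) => rk z.1 a := fun a => by
    convert measurable_count h1 a using 2
    exact congrArg (fun i => @Nat.count _ i a) (Subsingleton.elim _ _)
  have h3 : ∀ i, Measurable fun z : (ℕ → ℝ≥0∞) × (GIdx → ℝ≥0∞) => z.2 i := fun i =>
    (measurable_pi_apply i).comp measurable_snd
  have h4 : ∀ a (x : ℚ), Measurable fun z : (ℕ → ℝ≥0∞) × (GIdx → ℝ≥0∞) =>
      z.2 (.b (rk z.1 a) x) := fun a x =>
    measurable_at (S := fun z i => z.2 (.b i x)) (measurable_pi_lambda _ fun _ => h3 _) (h2 a)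
  rcases y with a | u <;> rcases y' with a' | u'
  · exact Measurable.ite ((h1 a).inter (h1 a')) (measurable_at
      (S := fun z j => z.2 (.d (rk z.1 a) j)) (measurable_at (S := fun z i j => z.2 (.d i j))
        (measurable_pi_lambda _ fun _ => measurable_pi_lambda _ fun _ => h3 _) (h2 a)) (h2 a'))
      measurable_const
  · exact Measurable.ite (h1 a) (h4 a _) measurable_const
  · exact Measurable.ite (h1 a') (h4 a' _) measurable_const
  · exact h3 _

theorem locmeas_stp (M : ℕ) (y y' : Nd) :
    Measurable fun z : CI × (GIdx → ℝ≥0∞) => stp z.1 z.2 M y y' :=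
  ((measurable_pi_apply y').comp ((measurable_pi_apply y).comp ((measurable_pi_apply M).comp
    measurable_fst.snd.snd.snd.fst))).min
      ((locmeas_inC M y y').comp (measurable_fst.snd.snd.fst.prodMk measurable_snd))

theorem locmeas_chn (M : ℕ) (y : Nd) (l : List ℕ) (y' : Nd) :
    Measurable fun z : CI × (GIdx → ℝ≥0∞) => chn z.1 z.2 M y l y' := by
  induction l generalizing y with
  | nil => exact locmeas_stp M y y'
  | cons v l ih => exact (locmeas_stp M y _).add (ih _)

theorem measurable_glG : Measurable fun z : CI × (GIdx → ℝ≥0∞) => glG z.1 z.2 := by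
  refine measurable_fst.snd.fst.snd.fst.prodMk (measurable_pi_lambda _ fun a =>
    measurable_pi_lambda _ fun a' => ?_)
  unfold glue
  split_ifs
  · exact measurable_const
  · exact Measurable.iInf fun N => Measurable.liminf fun M => Measurable.iInf fun l =>
      Measurable.iInf fun _ => Measurable.iInf fun _ => locmeas_chn M _ l _

end Pool.Agent.QL.LC
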