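import Pool.Agent.P.MP_7a6434d8_pr.QL.C.LocMeas
import Pool.Agent.P.MP_7a6434d8_pr.QL.C.Hat

open MeasureTheory ProbabilityTheory Set Filter Topology Metric
open scoped ENNReal unitInterval

namespace Pool.Agent.QL.LC

open Pool.Agent.LGD Pool.Agent.P.MP_7a6434d8_pr Pool.Agent.P.MP_7a6434d8_pr.Mp

theorem locpa_filter {X E : Type} [MeasurableSpace X] (μ : Measure X) (p : X → E → Bool)
    {B : ℝ≥0∞} (h : ∀ e, μ {x | p x e} ≤ B) (l : List E) :
    ∫⁻ x, ((l.filter (p x)).length : ℝ≥0∞) ∂μ ≤ l.length * B := by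
  induction l with
  | nil => simp
  | cons e l ih =>
    have hm := measurableSet_toMeasurable μ {x | p x e}
    calc _ ≤ ∫⁻ x, (toMeasurable μ {x | p x e}).indicator 1 x +
            ((l.filter (p x)).length : ℝ≥0∞) ∂μ := lintegral_mono fun x => by
          by_cases hx : p x e
          · rw [indicator_of_mem (subset_toMeasurable μ _ hx), List.filter_cons_of_pos hx]
            simp [add_comm]
          · rw [List.filter_cons_of_neg hx]
            exact le_add_self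
      _ ≤ B + l.length * B := by
          rw [lintegral_add_left (measurable_one.indicator hm), lintegral_indicator_one hm,
            measure_toMeasurable]
          exact add_le_add (h e) ih
      _ = _ := by rw [List.length_cons, Nat.cast_succ, add_mul, one_mul, add_comm]

theorem locpa_floor {x δ : ℝ} (hx : 0 < x) (hδ : 0 < δ) (m : ℕ) :
    volume {ρ : I | ⌊x * (1 + (ρ : ℝ)) / δ⌋₊ = m} ≤ ENNReal.ofReal (δ * (1 / x)) := by
  rw [unitInterval.volume_apply]
  refine (measure_mono (t := Icc (m * δ / x - 1) ((m + 1) * δ / x - 1)) ?_).trans ?_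
  · rintro _ ⟨ρ, hρ, rfl⟩
    have h0 := ρ.2.1
    obtain ⟨h1, h2⟩ := (Nat.floor_eq_iff (by positivity)).1 hρ
    rw [le_div_iff₀ hδ] at h1
    rw [div_lt_iff₀ hδ] at h2
    constructor
    · rw [sub_le_iff_le_add, div_le_iff₀ hx]; linarith
    · rw [le_sub_iff_add_le, le_div_iff₀ hx]; linarith
  · rw [Real.volume_Icc]
    exact ENNReal.ofReal_le_ofReal (le_of_eq (by ring))

theorem locpa_cross {n : ℕ} (q : Quad n) (S : ℕ → q.Vertex) (J : List (ℕ × ℕ)) {x y : q.Vertex}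
    (h : q.graph.Adj x y) (hx : InBall q S J x) (hy : ¬ InBall q S J y) :
    ∃ c ∈ J, c.2 = min (q.graph.dist (S c.1) x) (q.graph.dist (S c.1) y) := by
  obtain ⟨c, hc, h1⟩ := hx
  have h2 : c.2 < q.graph.dist (S c.1) y := not_le.1 fun e => hy ⟨c, hc, e⟩
  have h3 := (graph_connected q).dist_triangle (u := S c.1) (v := x) (w := y)
  rw [SimpleGraph.dist_eq_one_iff_adj.2 h] at h3
  exact ⟨c, hc, by omega⟩

theorem locpa_rho {n : ℕ} (q : Quad n) (S : ℕ → q.Vertex) {δ : ℝ} (hδ : 0 < δ) (α : Rg)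
    (hα : ∀ c ∈ α.1, 0 < c.2) (a a' : ℕ) : ∫⁻ ρ : I, (RZ.mk' q (ρ, S)).cN δ α a a' ≤
      ∑ c ∈ α.1.toFinset, ENNReal.ofReal (1 / (c.2 : ℝ)) := by
  classical
  have h1 : ∫⁻ ρ : I, (ncr q S (Jd δ ρ α.1) a a' : ℝ≥0∞) ≤ (geod q (S a) (S a')).darts.length *
      ∑ c ∈ α.1.toFinset, ENNReal.ofReal (δ * (1 / (c.2 : ℝ))) := by
    refine locpa_filter volume _ (fun e => ?_) _
    refine le_trans (measure_mono (t := ⋃ c ∈ α.1.toFinset, {ρ : I | ⌊(c.2 : ℝ) * (1 + (ρ : ℝ)) / δ⌋₊ =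
      min (q.graph.dist (S c.1) e.fst) (q.graph.dist (S c.1) e.snd)}) fun ρ hρ => ?_)
      ((measure_biUnion_finset_le _ _).trans (Finset.sum_le_sum fun c hc =>
        locpa_floor (by exact_mod_cast hα c (List.mem_toFinset.1 hc)) hδ _))
    have h2 := of_decide_eq_true hρ
    obtain ⟨_, hc, h3⟩ : ∃ c ∈ Jd δ ρ α.1,
        c.2 = min (q.graph.dist (S c.1) e.fst) (q.graph.dist (S c.1) e.snd) := by
      by_cases h4 : InBall q S (Jd δ ρ α.1) e.fst
      · exact locpa_cross q S _ e.adj h4 (h2.1 h4)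
      · simpa only [min_comm] using locpa_cross q S _ e.adj.symm (not_not.1 (mt h2.2 h4)) h4
    obtain ⟨c, hc', rfl⟩ := List.mem_map.1 hc
    exact mem_biUnion (List.mem_toFinset.2 hc') h3
  rw [SimpleGraph.Walk.length_darts, geod_length] at h1
  simp only [ENNReal.ofReal_mul hδ.le, ← Finset.mul_sum, ← mul_assoc] at h1
  change ∫⁻ ρ : I, (ncr q S (Jd δ ρ α.1) a a' : ℝ≥0∞) *
    (1 + ENNReal.ofReal (δ * q.graph.dist (S a) (S a')))⁻¹ ≤ _
  rw [lintegral_mul_const' _ _ (by simp), ← div_eq_mul_inv]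
  refine ENNReal.div_le_of_le_mul' (h1.trans (mul_le_mul_left ?_ _))
  rw [ENNReal.ofReal_mul hδ.le, ENNReal.ofReal_natCast, mul_comm]
  exact le_add_self

theorem locpa_iid (m : Measure ℂ) [IsProbabilityMeasure m] (h : ∀ z, m {z} = 0) {i j : ℕ}
    (hij : i ≠ j) : ∀ᵐ x ∂iid m, x i ≠ x j := by
  have hs : MeasurableSet {p : ℂ × ℂ | p.1 ≠ p.2} :=
    (measurableSet_eq_fun measurable_fst measurable_snd).compl
  refine ae_of_ae_map (f := fun x : ℕ → ℂ => (x i, x j)) (p := fun p : ℂ × ℂ => p.1 ≠ p.2)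
    (by fun_prop) ?_
  rw [iid, Measure.infinitePi_map_eval_prod hij]
  refine (Measure.ae_prod_iff_ae_ae hs).2 (.of_forall fun z => ?_)
  simpa [ae_iff] using h z

/-- The spatial Markov property for the scaled codes. -/
theorem loc_plug_law (H : HS) {b : Base} (w : World b) (α : Rg) (k : ℕ) (F : CI → ℝ≥0∞)
    (G : OCode → ℝ≥0∞) (hF : Measurable F) (hG : Measurable G) (h0 : ∀ u, u.ev = 0 → F u = 0) :
    ∫⁻ r, F (r.cI H (b.δ k) (b.κ k) α) * G (r.cO H (b.δ k) (b.κ k) α) ∂w.law k =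
      ∫⁻ r, F (r.cI H (b.δ k) (b.κ k) α) * AVS (per (r.W H (b.δ k) α)) (size (r.W H (b.δ k) α))
        (fun t s => G (ocode (b.δ k) (b.κ k) t s)) ∂w.law k := by
  classical
  have m1 := hF.comp (measurable_cI H (b.δ k) (b.κ k) α)
  have m2 := m1.mul (measurable_hole (b.δ k) α (fun n q A _ _ => AVS (per ((H.1 n).W q A))
    (size ((H.1 n).W q A)) fun t s => G (ocode (b.δ k) (b.κ k) t s)) fun _ _ _ _ => measurable_const)
  have m3 := m1.mul (hG.comp (measurable_cO H (b.δ k) (b.κ k) α))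
  refine (w.lintegral_law k m3).trans (Eq.trans (lintegral_congr fun s => ?_)
    (w.lintegral_law k m2).symm)
  rw [lintegral_lawN _ m3, lintegral_lawN _ m2]
  refine lintegral_congr fun ρ => ?_
  have e : ∀ (q : Quad (w.N k s)) (S : ℕ → q.Vertex) (X : ℝ≥0∞),
      F ((RZ.mk' q (ρ, S)).cI H (b.δ k) (b.κ k) α) * X = if Ev q S (Jd (b.δ k) ρ α.1) α.2 then
        F (cIof (b.δ k) (b.κ k) _ ρ 1 ((H.1 _).icode q (VO q S (Jd (b.δ k) ρ α.1) α.2) S)) * X
      else 0 := fun q S X => by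
    split_ifs with h
    · exact congrArg (fun z => F (cIof _ _ _ _ z _) * X) (if_pos h)
    · rw [h0 ((RZ.mk' q (ρ, S)).cI H (b.δ k) (b.κ k) α) (if_neg h), zero_mul]
  refine (congrArg _ (funext₂ fun q S => e q S _)).trans (Eq.trans ?_
    (congrArg _ (funext₂ fun q S => e q S _)).symm)
  exact (H.2 _).plug (Jd (b.δ k) ρ α.1) α.2 (fun c => F (cIof (b.δ k) (b.κ k) _ ρ 1 c))
    (fun t s => G (ocode (b.δ k) (b.κ k) t s))
    (hF.comp ((measurable_cIof _ _ _ 1).comp measurable_prodMk_left))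
    fun t => hG.comp (measurable_ocode _ _ t)

/-- The mean number of crossings is bounded. -/
theorem loc_cN_le {b : Base} (w : World b) (α : Rg) (hα : ∀ c ∈ α.1, 0 < c.2) :
    ∃ C : ℝ≥0∞, C ≠ ⊤ ∧ ∀ k a a', ∫⁻ r, r.cN (b.δ k) α a a' ∂w.law k ≤ C := by
  refine ⟨∑ c ∈ α.1.toFinset, ENNReal.ofReal (1 / (c.2 : ℝ)),
    ENNReal.sum_ne_top.2 fun _ _ => ENNReal.ofReal_ne_top, fun k a a' => ?_⟩
  have m : Measurable fun r : RZ => r.cN (b.δ k) α a a' :=
    measurable_pi_iff.1 (measurable_pi_iff.1 (measurable_cN (b.δ k) α) a) a'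
  rw [w.lintegral_law k m]
  refine lintegral_le_const (.of_forall fun s => ?_)
  have := lawN_prob (w.N_pos k s)
  refine le_trans ?_ (lintegral_le_const (μ := lawN (w.N k s)) (.of_forall fun _ => le_rfl))
  rw [lintegral_lawN' _ m, lintegral_lawN' _ measurable_const]
  refine ENNReal.tsum_le_tsum fun q => mul_le_mul_right ?_ _
  rw [lintegral_const, measure_univ, mul_one]
  exact (lintegral_prod_symm' _ (m.comp (measurable_mk' q))).trans_le
    (lintegral_le_const (.of_forall fun S => locpa_rho q S (b.δ_pos k) α hα a a'))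

/-- The samples are distinct. -/
theorem loc_inj (S : Setup) (ϑ : Measure ℝ) [IsProbabilityMeasure ϑ] :
    ∀ᵐ m ∂S.M ϑ, Function.Injective m.2 := by
  have h : ∀ i j, i ≠ j → ∀ᵐ m ∂S.M ϑ, m.2 i ≠ m.2 j := fun i j hij => by
    refine Measure.ae_compProd_of_ae_ae
      (measurableSet_eq_fun (f := fun m : S.X => m.2 i) (g := fun m => m.2 j) (by fun_prop)
        (by fun_prop)).compl ?_
    have h0 : ∀ᵐ ω ∂S.P, ∀ᵐ x ∂iid (S.O.κ ω), x i ≠ x j := by
      filter_upwards [S.O.κ_eq, S.atomless] with ω h1 h2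
      exact locpa_iid _ (by rwa [h1]) hij
    exact (Measure.quasiMeasurePreserving_snd (μ := ϑ)).ae h0
  filter_upwards [ae_all_iff.2 fun i => ae_all_iff.2 fun j => ae_all_iff.2 (h i j)] with m hm i j e
  exact by_contra fun hij => hm i j hij e

end Pool.Agent.QL.LC
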