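import Pool.Agent.P.MP_7a6434d8_pr.QL.C.LocPlugA

open MeasureTheory ProbabilityTheory Set Filter Topology Metric
open scoped ENNReal unitInterval

namespace Pool.Agent.QL.LC

open Pool.Agent.LGD Pool.Agent.P.MP_7a6434d8_pr Pool.Agent.P.MP_7a6434d8_pr.Mp

theorem locpb_scale {Z : Type} [TopologicalSpace Z] (f : BoundedContinuousFunction Z NNReal) :
    ∃ (c : ℝ≥0∞) (F : Z → ℝ≥0∞), c ≠ ⊤ ∧ Continuous F ∧ (∀ z, F z ≤ 1) ∧
      ∀ z, (f z : ℝ≥0∞) = c * F z := by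
  obtain ⟨c, hc, hb⟩ : ∃ c : ℝ≥0∞, c ≠ ⊤ ∧ ∀ z, (f z : ℝ≥0∞) ≤ c := ⟨_, ENNReal.coe_ne_top,
    fun z => ENNReal.coe_le_coe.2 (BoundedContinuousFunction.NNReal.upper_bound f z)⟩
  have h0 : c + 1 ≠ 0 := by simp
  have h1 : c + 1 ≠ ⊤ := by simpa
  refine ⟨c + 1, fun z => (c + 1)⁻¹ * f z, h1, (ENNReal.continuous_const_mul
    (ENNReal.inv_ne_top.2 h0)).comp (ENNReal.continuous_coe.comp f.continuous), fun z => ?_,
    fun z => by rw [← mul_assoc, ENNReal.mul_inv_cancel h0 h1, one_mul]⟩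
  exact (mul_le_mul_right ((hb z).trans le_self_add) _).trans_eq (ENNReal.inv_mul_cancel h0 h1)

theorem locpb_ext {Z T : Type} [TopologicalSpace Z] [MeasurableSpace Z] [BorelSpace Z]
    [HasOuterApproxClosed Z] [TopologicalSpace T] [MeasurableSpace T] [BorelSpace T]
    [HasOuterApproxClosed T] {μ ν : Measure (Z × T)} [IsFiniteMeasure μ]
    (h : ∀ (F : Z → ℝ≥0∞) (G : T → ℝ≥0∞), Continuous F → Continuous G → (∀ z, F z ≤ 1) →
      (∀ z, G z ≤ 1) → ∫⁻ p, F p.1 * G p.2 ∂μ = ∫⁻ p, F p.1 * G p.2 ∂ν) : μ = ν := by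
  let e : (Z × T) ≃ᵐ ((Unit → Z) × (Unit → T)) :=
    .symm <| .prodCongr (.funUnique ..) (.funUnique ..)
  rw [← e.map_measurableEquiv_injective.eq_iff]
  refine Measure.ext_of_lintegral_prod_mul_prod_boundedContinuousFunction fun f g => ?_
  rw [lintegral_map_equiv, lintegral_map_equiv]
  obtain ⟨c, F, c1, F1, F2, F3⟩ := locpb_scale (f ())
  obtain ⟨d, G, d1, G1, G2, G3⟩ := locpb_scale (g ())
  have key : ∀ p : Z × T, (((∏ i, f i ((e p).1 i) : NNReal) : ℝ≥0∞) *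
      ((∏ j, g j ((e p).2 j) : NNReal) : ℝ≥0∞)) = c * d * (F p.1 * G p.2) := fun p => by
    rw [Fintype.prod_unique, Fintype.prod_unique]
    change (f () p.1 : ℝ≥0∞) * g () p.2 = _
    rw [F3, G3]
    ring
  simp only [key]
  rw [lintegral_const_mul' _ _ (ENNReal.mul_ne_top c1 d1),
    lintegral_const_mul' _ _ (ENNReal.mul_ne_top c1 d1), h F G F1 G1 F2 G2]

/-- cut-off in one variable -/
noncomputable def locpb_psi (n : ℕ) (x : ℝ≥0∞) : ℝ≥0∞ := min (n * x - 1) (n - x)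

/-- cut-off of the outer code -/
noncomputable def locpb_chi (n : ℕ) (u : CI) : ℝ≥0∞ :=
  min (min u.ev 1) (min (locpb_psi n u.len) (locpb_psi n u.area))

theorem locpb_psi_cont (n : ℕ) : Continuous (locpb_psi n) :=
  ((ENNReal.continuous_sub_right 1).comp (ENNReal.continuous_const_mul
    (ENNReal.natCast_ne_top n))).min (ENNReal.continuous_sub_left (ENNReal.natCast_ne_top n))

theorem locpb_len_cont : Continuous CI.len := by
  unfold CI.len
  fun_prop

theorem locpb_area_cont : Continuous CI.area := by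
  unfold CI.area
  fun_prop

theorem locpb_chi_cont (n : ℕ) : Continuous (locpb_chi n) := by
  have h : Continuous CI.ev := by
    unfold CI.ev
    fun_prop
  exact (h.min continuous_const).min (((locpb_psi_cont n).comp locpb_len_cont).min
    ((locpb_psi_cont n).comp locpb_area_cont))

theorem locpb_chi_le (n : ℕ) (u : CI) : locpb_chi n u ≤ 1 :=
  (min_le_left _ _).trans (min_le_right _ _)

theorem locpb_psi_ne {n : ℕ} {x : ℝ≥0∞} (h : locpb_psi n x ≠ 0) : 1 < n * x ∧ x < n := by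
  have := lt_min_iff.1 (pos_iff_ne_zero.2 h)
  exact ⟨tsub_pos_iff_lt.1 this.1, tsub_pos_iff_lt.1 this.2⟩

theorem locpb_chi_ne {n : ℕ} {u : CI} (h : locpb_chi n u ≠ 0) :
    (1 < n * u.len ∧ u.len < n) ∧ 1 < n * u.area ∧ u.area < n := by
  have := lt_min_iff.1 (lt_min_iff.1 (pos_iff_ne_zero.2 h)).2
  exact ⟨locpb_psi_ne this.1.ne', locpb_psi_ne this.2.ne'⟩

theorem locpb_chi_box {n : ℕ} {u : CI} (h : locpb_chi n u ≠ 0) :
    0 < u.len ∧ u.len < ⊤ ∧ 0 < u.area ∧ u.area < ⊤ := by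
  obtain ⟨⟨h1, h2⟩, h3, h4⟩ := locpb_chi_ne h
  refine ⟨pos_iff_ne_zero.2 fun e => ?_, h2.trans_le le_top, pos_iff_ne_zero.2 fun e => ?_,
    h4.trans_le le_top⟩
  · simp [e] at h1
  · simp [e] at h3

theorem locpb_psi_mono (x : ℝ≥0∞) : Monotone fun n => locpb_psi n x := fun _ _ h =>
  min_le_min (tsub_le_tsub_right (mul_le_mul_left (Nat.cast_le.2 h) _) _)
    (tsub_le_tsub_right (Nat.cast_le.2 h) _)

theorem locpb_chi_mono (u : CI) : Monotone fun n => locpb_chi n u := fun _ _ h =>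
  min_le_min le_rfl (min_le_min (locpb_psi_mono _ h) (locpb_psi_mono _ h))

theorem locpb_psi_ge {x : ℝ≥0∞} (h0 : 0 < x) (h1 : x < ⊤) : ∃ n, 1 ≤ locpb_psi n x := by
  obtain ⟨a, ha⟩ := ENNReal.exists_nat_gt (r := 2 / x) (ENNReal.div_ne_top (by simp) h0.ne')
  obtain ⟨c, hc⟩ := ENNReal.exists_nat_gt (r := 1 + x) (by simpa using h1.ne)
  refine ⟨max a c, le_min (ENNReal.le_sub_of_add_le_right ENNReal.one_ne_top ?_)
    (ENNReal.le_sub_of_add_le_right h1.ne (hc.le.trans (Nat.cast_le.2 (le_max_right _ _))))⟩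
  rw [one_add_one_eq_two]
  exact (ENNReal.div_le_iff h0.ne' h1.ne).1 (ha.le.trans (Nat.cast_le.2 (le_max_left _ _)))

theorem locpb_sup (u : CI) : ⨆ n, locpb_chi n u = u.chi := by
  unfold CI.chi
  split_ifs with h
  · obtain ⟨a, ha⟩ := locpb_psi_ge h.1 h.2.1
    obtain ⟨c, hc⟩ := locpb_psi_ge h.2.2.1 h.2.2.2
    refine le_antisymm (iSup_le fun n => min_le_left _ _) (le_iSup_of_le (max a c) (le_min le_rfl
      ((min_le_right _ _).trans (le_min (ha.trans (locpb_psi_mono _ (le_max_left _ _)))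
        (hc.trans (locpb_psi_mono _ (le_max_right _ _)))))))
  · exact ENNReal.iSup_eq_zero.2 fun n => not_not.1 fun e => h (locpb_chi_box e)

theorem locpb_real {n L : ℕ} {x : ℝ} (hx : 0 ≤ x) (h : 1 < n * (ENNReal.ofReal x * L) ∧
    ENNReal.ofReal x * L < n) : 1 / (n : ℝ) ≤ x * L ∧ x * L ≤ n := by
  rw [← ENNReal.ofReal_natCast L, ← ENNReal.ofReal_mul hx, ← ENNReal.ofReal_natCast n,
    ← ENNReal.ofReal_mul (Nat.cast_nonneg n), ENNReal.one_lt_ofReal,
    ENNReal.ofReal_lt_ofReal_iff_of_nonneg (by positivity)] at h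
  have h0 : (0 : ℝ) < n := lt_of_le_of_lt (by positivity) h.2
  exact ⟨(div_le_iff₀' h0).2 h.1.le, h.2.le⟩

theorem locpb_cont {b : Base} (D : DiscLim b) (n : ℕ) {F : CI → ℝ≥0∞} {G : OCode → ℝ≥0∞}
    (hF : Continuous F) (hG : Continuous G) (F1 : ∀ z, F z ≤ 1) (G1 : ∀ z, G z ≤ 1) :
    Continuous fun u => locpb_chi n u * F u * ∫⁻ c, G c ∂D.Λ u.par := by
  have := D.markov
  have hb : ∀ p, ∫⁻ c, G c ∂D.Λ p ≤ 1 := fun p => (lintegral_mono G1).trans (by simp)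
  have h1 : ∀ u, locpb_chi n u * F u ≤ locpb_chi n u := fun u => mul_le_of_le_one_right' (F1 u)
  have hc : Continuous fun u => locpb_chi n u * F u := (locpb_chi_cont n).ennreal_mul hF
    (fun u => .inr ((F1 u).trans_lt ENNReal.one_lt_top).ne)
    fun u => .inr ((locpb_chi_le n u).trans_lt ENNReal.one_lt_top).ne
  refine continuous_iff_continuousAt.2 fun u => ?_
  by_cases h : locpb_chi n u = 0
  · have h2 := (locpb_chi_cont n).tendsto u
    rw [h] at h2
    rw [ContinuousAt, h, zero_mul, zero_mul]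
    exact tendsto_of_tendsto_of_tendsto_of_le_of_le tendsto_const_nhds h2 (fun _ => zero_le)
      fun v => (mul_le_of_le_one_right' (hb _)).trans (h1 v)
  · obtain ⟨a1, a2, a3, a4⟩ := locpb_chi_box h
    have hp : ContinuousAt CI.par u :=
      ((ENNReal.tendsto_toReal a2.ne).comp (locpb_len_cont.tendsto u)).prodMk_nhds
        ((ENNReal.tendsto_toReal a4.ne).comp (locpb_area_cont.tendsto u))
    have h3 := ((D.cont ⟨G, hG⟩ G1).continuousAt ((isOpen_Ioi.prod isOpen_Ioi).mem_nhds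
      (x := u.par) ⟨ENNReal.toReal_pos a1.ne' a2.ne, ENNReal.toReal_pos a3.ne' a4.ne⟩)).comp hp
    exact ENNReal.Tendsto.mul (hc.tendsto u) (.inr ((hb _).trans_lt ENNReal.one_lt_top).ne) h3
      (.inr (((h1 u).trans (locpb_chi_le n u)).trans_lt ENNReal.one_lt_top).ne)

theorem locpb_test (H : HS) {b : Base} (w : World b) (α : Rg) (D : DiscLim b)
    (μ : Measure (CI × OCode))
    (h : w.Lim (fun k r => (r.cI H (b.δ k) (b.κ k) α, r.cO H (b.δ k) (b.κ k) α)) μ) (n : ℕ)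
    {F : CI → ℝ≥0∞} {G : OCode → ℝ≥0∞} (hF : Continuous F) (hG : Continuous G)
    (F1 : ∀ z, F z ≤ 1) (G1 : ∀ z, G z ≤ 1) :
    ∫⁻ z, locpb_chi n z.1 * F z.1 * G z.2 ∂μ =
      ∫⁻ z, locpb_chi n z.1 * F z.1 * ∫⁻ c, G c ∂D.Λ z.1.par ∂μ := by
  have := D.markov
  have hb : ∀ p, ∫⁻ c, G c ∂D.Λ p ≤ 1 := fun p => (lintegral_mono G1).trans (by simp)
  have h1 : ∀ u, locpb_chi n u * F u ≤ 1 := fun u => mul_le_one' (locpb_chi_le n u) (F1 u)
  have hc : Continuous fun u => locpb_chi n u * F u := (locpb_chi_cont n).ennreal_mul hF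
    (fun u => .inr ((F1 u).trans_lt ENNReal.one_lt_top).ne)
    fun u => .inr ((locpb_chi_le n u).trans_lt ENNReal.one_lt_top).ne
  have tA := h ⟨fun z => locpb_chi n z.1 * F z.1 * G z.2, (hc.comp continuous_fst).ennreal_mul
    (hG.comp continuous_snd) (fun u => .inr ((G1 _).trans_lt ENNReal.one_lt_top).ne)
    fun u => .inr ((h1 _).trans_lt ENNReal.one_lt_top).ne⟩ fun z => mul_le_one' (h1 _) (G1 _)
  have tB := h ⟨fun z => locpb_chi n z.1 * F z.1 * ∫⁻ c, G c ∂D.Λ z.1.par,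
    (locpb_cont D n hF hG F1 G1).comp continuous_fst⟩ fun z => mul_le_one' (h1 _) (hb _)
  simp only [ContinuousMap.coe_mk] at tA tB
  have pl := fun k => loc_plug_law H w α k (fun u => locpb_chi n u * F u) G hc.measurable
    hG.measurable fun u hu => by simp [locpb_chi, hu]
  simp only [pl] at tA
  have cmp : ∀ (k : ℕ) (η : ℝ≥0∞) (X Y : RZ → ℝ≥0∞),
      (∀ r, locpb_chi n (r.cI H (b.δ k) (b.κ k) α) ≠ 0 → X r ≤ Y r + η) →
      ∫⁻ r, locpb_chi n (r.cI H (b.δ k) (b.κ k) α) * F (r.cI H (b.δ k) (b.κ k) α) * X r ∂w.law k ≤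
      ∫⁻ r, locpb_chi n (r.cI H (b.δ k) (b.κ k) α) * F (r.cI H (b.δ k) (b.κ k) α) * Y r ∂w.law k
        + η := fun k η X Y hXY => by
    refine le_trans (lintegral_mono fun r => ?_)
      ((lintegral_add_right _ (g := fun _ => η) measurable_const).trans_le
        (add_le_add_right (by simp) _))
    by_cases e : locpb_chi n (r.cI H (b.δ k) (b.κ k) α) = 0
    · simp [e]
    · refine (mul_le_mul_right (hXY r e) _).trans ?_
      rw [mul_add]
      exact add_le_add_right (mul_le_of_le_one_left' (h1 _)) _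
  have box : ∀ (k : ℕ) (r : RZ), locpb_chi n (r.cI H (b.δ k) (b.κ k) α) ≠ 0 →
      MBox n (b.δ k) (per (r.W H (b.δ k) α)) (size (r.W H (b.δ k) α)) := fun k r e =>
    ⟨(locpb_real (by positivity) (locpb_chi_ne e).1).1,
      (locpb_real (by positivity) (locpb_chi_ne e).1).2,
      (locpb_real (by positivity) (locpb_chi_ne e).2).1,
      (locpb_real (by positivity) (locpb_chi_ne e).2).2⟩
  have par : ∀ (k : ℕ) (r : RZ), (r.cI H (b.δ k) (b.κ k) α).par =
      (b.δ k ^ 2 * per (r.W H (b.δ k) α), b.δ k ^ 4 * size (r.W H (b.δ k) α)) := fun k r => by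
    change ((ENNReal.ofReal _ * (per (r.W H (b.δ k) α) : ℝ≥0∞)).toReal,
      (ENNReal.ofReal _ * (size (r.W H (b.δ k) α) : ℝ≥0∞)).toReal) = _
    rw [ENNReal.toReal_mul, ENNReal.toReal_mul, ENNReal.toReal_ofReal (by positivity),
      ENNReal.toReal_ofReal (by positivity), ENNReal.toReal_natCast, ENNReal.toReal_natCast]
  refine le_antisymm (ENNReal.le_of_forall_pos_le_add fun η hη _ => ?_)
    (ENNReal.le_of_forall_pos_le_add fun η hη _ => ?_)
  · refine le_of_tendsto_of_tendsto tA (tB.add_const _) ?_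
    filter_upwards [D.lim ⟨G, hG⟩ n η G1 (ENNReal.coe_pos.2 hη)] with k hk
    exact cmp k η _ _ fun r e => par k r ▸ (hk _ _ (box k r e)).1
  · refine le_of_tendsto_of_tendsto tB (tA.add_const _) ?_
    filter_upwards [D.lim ⟨G, hG⟩ n η G1 (ENNReal.coe_pos.2 hη)] with k hk
    exact cmp k η _ _ fun r e => par k r ▸ (hk _ _ (box k r e)).2

/-- The spatial Markov property in the limit. -/
theorem loc_plug (H : HS) {b : Base} (w : World b) (α : Rg) (D : DiscLim b)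
    (μ : Measure (CI × OCode)) [IsProbabilityMeasure μ]
    (h : w.Lim (fun k r => (r.cI H (b.δ k) (b.κ k) α, r.cO H (b.δ k) (b.κ k) α)) μ)
    (Ψ : CI × OCode → ℝ≥0∞) (hΨ : Measurable Ψ) :
    ∫⁻ z, z.1.chi * Ψ z ∂μ = ∫⁻ z, z.1.chi * ∫⁻ c, Ψ (z.1, c) ∂D.Λ z.1.par ∂μ := by
  have := D.markov
  let K : Kernel CI OCode := D.Λ.comap CI.par measurable_par
  have mχ : ∀ n, Measurable (locpb_chi n) := fun n => (locpb_chi_cont n).measurable
  have mK : ∀ Φ : CI × OCode → ℝ≥0∞, Measurable Φ →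
      Measurable fun u => ∫⁻ c, Φ (u, c) ∂D.Λ u.par := fun Φ hΦ =>
    hΦ.lintegral_kernel_prod_right' (κ := K)
  have e1 : ∀ n (Φ : CI × OCode → ℝ≥0∞), Measurable Φ →
      ∫⁻ z, Φ z ∂μ.withDensity (fun z => locpb_chi n z.1) = ∫⁻ z, locpb_chi n z.1 * Φ z ∂μ :=
    fun n Φ hΦ => lintegral_withDensity_eq_lintegral_mul _ ((mχ n).comp measurable_fst) hΦ
  have e2 : ∀ n (Φ : CI × OCode → ℝ≥0∞), Measurable Φ →
      ∫⁻ z, Φ z ∂((μ.map Prod.fst).withDensity (locpb_chi n)) ⊗ₘ K =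
        ∫⁻ z, locpb_chi n z.1 * ∫⁻ c, Φ (z.1, c) ∂D.Λ z.1.par ∂μ := fun n Φ hΦ => by
    rw [Measure.lintegral_compProd hΦ]
    exact (lintegral_withDensity_eq_lintegral_mul _ (mχ n) (mK Φ hΦ)).trans
      (lintegral_map ((mχ n).mul (mK Φ hΦ)) measurable_fst)
  have e3 : ∀ n, ∫⁻ z, locpb_chi n z.1 * Ψ z ∂μ =
      ∫⁻ z, locpb_chi n z.1 * ∫⁻ c, Ψ (z.1, c) ∂D.Λ z.1.par ∂μ := fun n => by
    have : IsFiniteMeasure (μ.withDensity fun z => locpb_chi n z.1) :=
      isFiniteMeasure_withDensity (((lintegral_mono fun z : CI × OCode =>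
        locpb_chi_le n z.1).trans_lt (by simp)).ne)
    rw [← e1 n Ψ hΨ, ← e2 n Ψ hΨ]
    congr 1
    refine locpb_ext fun F G hF hG F1 G1 => ?_
    have m : Measurable fun p : CI × OCode => F p.1 * G p.2 :=
      (hF.measurable.comp measurable_fst).mul (hG.measurable.comp measurable_snd)
    rw [e1 n _ m, e2 n _ m]
    simp only [← mul_assoc, lintegral_const_mul _ hG.measurable]
    exact locpb_test H w α D μ h n hF hG F1 G1
  have e4 : ∀ Φ : CI × OCode → ℝ≥0∞, Measurable Φ →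
      ∫⁻ z, z.1.chi * Φ z ∂μ = ⨆ n, ∫⁻ z, locpb_chi n z.1 * Φ z ∂μ := fun Φ hΦ => by
    rw [← lintegral_iSup (f := fun n z => locpb_chi n z.1 * Φ z)
      (fun n => ((mχ n).comp measurable_fst).mul hΦ)
      fun a c hac z => mul_le_mul_left (locpb_chi_mono _ hac) _]
    exact lintegral_congr fun z => by rw [← locpb_sup, ENNReal.iSup_mul]
  exact (e4 Ψ hΨ).trans ((iSup_congr e3).trans (e4 _ ((mK Ψ hΨ).comp measurable_fst)).symm)

end Pool.Agent.QL.LC
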