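import Pool.Agent.P.MP_7a6434d8_pr.QL.C.N1Geo

/-! Block N1: paths along the boundary that stay away from the ball. -/

open Set Filter Topology Relation
open scoped ENNReal unitInterval

namespace Pool.Agent.QL.LC

open Pool.Agent.LGD Pool.Agent.P.MP_7a6434d8_pr Pool.Agent.P.MP_7a6434d8_pr.Mp

variable {b : Base} {r : ℕ → RZ} {H : HS} {r₀ : ℚ} {g : GC} {ρ : I} {ℓ a₀ : ℝ}
  {D : Sph → Sph → ℝ} {x : ℕ → ℂ} {p : ∀ k, (r k).q.Vertex → ℂ}

theorem n1_fB (𝒟 : ℕ → ℕ → ℝ≥0∞) (i : ℕ) : fB 𝒟 (one r₀).1 ρ i = 𝒟 i 1 - rd ρ (1, r₀) := by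
  simp [fB, one]

variable (hr : 0 < r₀) (hP : Pos b r D x p) (hg : ∀ i j, g.2 i j = ENNReal.ofReal (D (x i) (x j)))
  (h : HoleOK b r H (one r₀) g ρ ℓ a₀)

include hr hP hg h

/-- One step of a chain lifts. -/
theorem n1_one {i j : ℕ} (hij : g.2 i j < fB g.2 (one r₀).1 ρ i) {ε : ℝ} (hε : 0 < ε) :
    ∃ η > 0, ∀ᶠ k in (b.U : Filter ℕ), ∀ y₀, (r k).ι H (b.δ k) (one r₀) y₀ = (r k).S i →
      ∃ y, (r k).ι H (b.δ k) (one r₀) y = (r k).S j ∧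
        b.δ k * dW ((r k).W H (b.δ k) (one r₀)) y₀ y ≤ D (x i) (x j) + ε ∧
        ReflTransGen (fun u v => adj ((r k).W H (b.δ k) (one r₀)) u v ∧ (r₀ * (1 + (ρ : ℝ)) + η ≤
          b.δ k * (r k).q.graph.dist ((r k).S 1) ((r k).ι H (b.δ k) (one r₀) v) ∧
          b.δ k * dW ((r k).W H (b.δ k) (one r₀)) y₀ v ≤ D (x i) (x j) + ε)) y₀ y := by
  have h0 : (0 : ℝ) ≤ r₀ * (1 + (ρ : ℝ)) := by
    have := ρ.2.1
    positivity
  rw [n1_fB, hg, hg, rd, ← ENNReal.ofReal_sub _ h0,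
    ENNReal.ofReal_lt_ofReal_iff_of_nonneg (hP.met.nonneg _ _), hP.met.symm (x i) (x 1)] at hij
  obtain ⟨η, hη⟩ : ∃ η, η = (D (x 1) (x i) - r₀ * (1 + (ρ : ℝ)) - D (x i) (x j)) / 4 := ⟨_, rfl⟩
  have hη0 : 0 < η := by rw [hη]; linarith
  refine ⟨η, hη0, ?_⟩
  filter_upwards [n1_sub h, n1_rad hr h hη0, n1_smp hP 1 i hη0, n1_smp hP i j (lt_min hη0 hε)]
    with k h1 h2 h3 h4 y₀ hy
  have hδ := b.δ_pos k
  have k2 := (abs_le.1 h2).2
  have k3 := (abs_le.1 h3).1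
  have k4 := (abs_le.1 h4).2
  have k5 := min_le_left η ε
  have k6 := min_le_right η ε
  obtain ⟨y, e1, e2, e3⟩ := n1_lift h1 y₀ ((r k).S j) (by
    rw [hy, ← Nat.cast_lt (α := ℝ), ← mul_lt_mul_iff_right₀ hδ, Nat.cast_add, mul_add]
    linarith)
  rw [hy] at e2 e3
  have k7 : ∀ v, dW ((r k).W H (b.δ k) (one r₀)) y₀ v ≤
      (r k).q.graph.dist ((r k).S i) ((r k).S j) →
      b.δ k * dW ((r k).W H (b.δ k) (one r₀)) y₀ v ≤
        b.δ k * (r k).q.graph.dist ((r k).S i) ((r k).S j) := fun v hv =>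
    mul_le_mul_of_nonneg_left (Nat.cast_le.2 hv) hδ.le
  refine ⟨y, e1, by linarith [k7 y e2], n1_mono e3 fun v hv => ⟨?_, by linarith [k7 v hv]⟩⟩
  have k8 := n1_tri (r k).q ((r k).S 1) ((r k).ι H (b.δ k) (one r₀) v) ((r k).S i)
  have k9 := (h1.dist_le y₀ v).trans hv
  rw [hy, SimpleGraph.dist_comm] at k9
  have k10 := mul_le_mul_of_nonneg_left
    ((Nat.cast_le (α := ℝ)).2 (k8.trans (Nat.add_le_add_left k9 _))) hδ.le
  rw [Nat.cast_add, mul_add] at k10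
  linarith

/-- Chains lift. -/
theorem n1_chain (l : List ℕ) (i j : ℕ) (hl : cost g.2 (fB g.2 (one r₀).1 ρ) i l j ≠ ⊤) {ε : ℝ}
    (hε : 0 < ε) :
    ∃ η > 0, ∀ᶠ k in (b.U : Filter ℕ), ∀ y₀, (r k).ι H (b.δ k) (one r₀) y₀ = (r k).S i →
      ∃ y, (r k).ι H (b.δ k) (one r₀) y = (r k).S j ∧
        ReflTransGen (fun u v => adj ((r k).W H (b.δ k) (one r₀)) u v ∧ (r₀ * (1 + (ρ : ℝ)) + η ≤
          b.δ k * (r k).q.graph.dist ((r k).S 1) ((r k).ι H (b.δ k) (one r₀) v) ∧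
          b.δ k * dW ((r k).W H (b.δ k) (one r₀)) y₀ v ≤
            (cost g.2 (fB g.2 (one r₀).1 ρ) i l j).toReal + ε)) y₀ y := by
  induction l generalizing i ε with
  | nil =>
    have hij : i = j := by
      by_contra hn
      exact hl (by rw [cost, if_neg hn])
    exact ⟨1, one_pos, .of_forall fun k y₀ hy => ⟨y₀, hij ▸ hy, .refl⟩⟩
  | cons i' l ih =>
    have hi : g.2 i i' < fB g.2 (one r₀).1 ρ i := by
      by_contra hn
      exact hl (by rw [cost, if_neg hn])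
    rw [cost, if_pos hi] at hl ⊢
    have hl' := (ENNReal.add_ne_top.1 hl).2
    rw [ENNReal.toReal_add hi.ne_top hl', hg, ENNReal.toReal_ofReal (hP.met.nonneg _ _)]
    obtain ⟨η, h1, h2⟩ := n1_one hr hP hg h hi (half_pos hε)
    obtain ⟨η', h3, h4⟩ := ih i' hl' (half_pos hε)
    refine ⟨min η η', lt_min h1 h3, ?_⟩
    filter_upwards [h2, h4, n1_sub h] with k h5 h6 h7 y₀ hy
    obtain ⟨y, e1, e2, e3⟩ := h5 y₀ hy
    obtain ⟨y', e4, e5⟩ := h6 y e1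
    have k0 := ENNReal.toReal_nonneg (a := cost g.2 (fB g.2 (one r₀).1 ρ) i' l j)
    refine ⟨y', e4, (n1_mono e3 fun v hv => ⟨by linarith [hv.1, min_le_left η η'],
      by linarith [hv.2]⟩).trans (n1_mono e5 fun v hv =>
        ⟨by linarith [hv.1, min_le_right η η'], ?_⟩)⟩
    have k1 := mul_le_mul_of_nonneg_left
      ((Nat.cast_le (α := ℝ)).2 (M2.dW_tri h7.ok y₀ y v)) (b.δ_pos k).le
    rw [Nat.cast_add, mul_add] at k1
    linarith [hv.2]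

/-- Inner samples are joined by short paths away from the ball. -/
theorem n1_pair (i j : ℕ) {ε : ℝ} (hε : 0 < ε) : ∃ η > 0, ∀ᶠ k in (b.U : Filter ℕ),
    ReflTransGen (fun u v => adj ((r k).W H (b.δ k) (one r₀)) u v ∧ (r₀ * (1 + (ρ : ℝ)) + η ≤
      b.δ k * (r k).q.graph.dist ((r k).S 1) ((r k).ι H (b.δ k) (one r₀) v) ∧
      b.δ k * dW ((r k).W H (b.δ k) (one r₀)) ((r k).inn H (b.δ k) (one r₀) i) v ≤
        b.δ k * dW ((r k).W H (b.δ k) (one r₀)) ((r k).inn H (b.δ k) (one r₀) i)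
          ((r k).inn H (b.δ k) (one r₀) j) + ε))
      ((r k).inn H (b.δ k) (one r₀) i) ((r k).inn H (b.δ k) (one r₀) j) := by
  have hε3 : 0 < ε / 3 := by positivity
  have h1 := h.dist_fin i j
  obtain ⟨l, hl⟩ := iInf_lt_iff.1 (ENNReal.lt_add_right h1 (ENNReal.ofReal_pos.2 hε3).ne')
  obtain ⟨η, h2, h3⟩ := n1_chain hr hP hg h l _ _ hl.ne_top hε3
  have h4 := ENNReal.toReal_mono (ENNReal.add_ne_top.2 ⟨h1, ENNReal.ofReal_ne_top⟩) hl.le
  rw [ENNReal.toReal_add h1 ENNReal.ofReal_ne_top, ENNReal.toReal_ofReal hε3.le] at h4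
  refine ⟨η, h2, ?_⟩
  filter_upwards [h3, h.inn i, h.inn j, n1_sub h, (((ENNReal.tendsto_toReal h1).comp
    (h.dist i j)).eventually (lt_mem_nhds (sub_lt_self _ hε3)))] with k h5 h6 h7 h8 h9
  obtain ⟨y, e1, e2⟩ := h5 _ h6
  rw [h8.ι_inj (e1.trans h7.symm)] at e2
  have hδ := (b.δ_pos k).le
  rw [Function.comp_apply, ENNReal.toReal_ofReal (by positivity)] at h9
  exact n1_mono e2 fun v hv => ⟨hv.1, by linarith [hv.2]⟩

/-- Paths along the boundary. -/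
theorem n1_arc {ε : ℝ} (hε : 0 < ε) : ∃ η > 0, ∀ᶠ k in (b.U : Filter ℕ), ∀ y y' : ℕ, y ≤ y' →
    y' ≤ 2 * per ((r k).W H (b.δ k) (one r₀)) → ∃ s s',
      b.δ k * dW ((r k).W H (b.δ k) (one r₀)) (bv _ y) s ≤ ε ∧
      b.δ k * dW ((r k).W H (b.δ k) (one r₀)) (bv _ y') s' ≤ ε ∧
      ReflTransGen (fun u v => adj ((r k).W H (b.δ k) (one r₀)) u v ∧ (r₀ * (1 + (ρ : ℝ)) + η ≤
        b.δ k * (r k).q.graph.dist ((r k).S 1) ((r k).ι H (b.δ k) (one r₀) v) ∧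
        ∃ z, y ≤ z ∧ z ≤ y' ∧ b.δ k * dW ((r k).W H (b.δ k) (one r₀)) (bv _ z) v ≤ ε)) s s' := by
  have hε5 : 0 < ε / 5 := by positivity
  obtain ⟨N, hN⟩ := h.cover _ hε5
  choose η h1 h2 using fun c : Fin (N + 1) × Fin (N + 1) => n1_pair hr hP hg h c.1 c.2 hε5
  obtain ⟨c₀, h3⟩ := Finite.exists_min η
  refine ⟨η c₀, h1 c₀, ?_⟩
  filter_upwards [hN, eventually_all.2 h2, n1_sub h, n1_small b hε5] with k h4 h5 h6 h7 y y' hy hy'
  choose s hs hs' using fun z => h4 (bv _ z)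
  refine ⟨_, _, (hs' y).trans (by linarith), (hs' y').trans (by linarith), ?_⟩
  induction y', hy using Nat.le_induction with
  | base => exact .refl
  | succ y' hy ih =>
    refine (n1_mono (ih (by omega)) fun v hv => ⟨hv.1, hv.2.imp fun z hz =>
      ⟨hz.1, hz.2.1.trans y'.le_succ, hz.2.2⟩⟩).trans
      (n1_mono (h5 (⟨s y', Nat.lt_succ_of_le (hs y')⟩, ⟨s (y' + 1), Nat.lt_succ_of_le (hs _)⟩))
        fun v hv => ⟨by linarith [hv.1, h3 (⟨s y', Nat.lt_succ_of_le (hs y')⟩,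
          ⟨s (y' + 1), Nat.lt_succ_of_le (hs _)⟩)], y', hy, y'.le_succ, ?_⟩)
    have k1 := M2.dW_tri h6.ok (bv _ y') ((r k).inn H (b.δ k) (one r₀) (s y')) v
    have k2 := M2.dW_tri h6.ok ((r k).inn H (b.δ k) (one r₀) (s y')) (bv _ y')
      ((r k).inn H (b.δ k) (one r₀) (s (y' + 1)))
    have k3 := M2.dW_tri h6.ok (bv _ y') (bv _ (y' + 1))
      ((r k).inn H (b.δ k) (one r₀) (s (y' + 1)))
    have k4 := n1_dW_bv h6.ok (p := y') (j := 1) hy'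
    rw [M2.dW_comm h6.ok _ (bv _ y')] at k2
    have k5 := mul_le_mul_of_nonneg_left ((Nat.cast_le (α := ℝ)).2 k1) (b.δ_pos k).le
    have k6 := mul_le_mul_of_nonneg_left ((Nat.cast_le (α := ℝ)).2
      (k2.trans (Nat.add_le_add_left (k3.trans (Nat.add_le_add_right k4 _)) _))) (b.δ_pos k).le
    simp only [Nat.cast_add, mul_add, Nat.cast_one, mul_one] at k5 k6
    have k7 := hv.2
    simp only at k7
    linarith [hs' y', hs' (y' + 1)]

end Pool.Agent.QL.LC
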