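import Pool.Agent.P.MP_7a6434d8_pr.QL.C.N1Geo
import Pool.Agent.P.MP_7a6434d8_pr.QL.Net.RowsA

/-! Block N1: the resistance of a tube around a path. -/

open Set Filter Topology Relation Metric
open scoped ENNReal unitInterval

namespace Pool.Agent.QL.LC

open Pool.Agent.LGD Pool.Agent.P.MP_7a6434d8_pr Pool.Agent.P.MP_7a6434d8_pr.Mp

/-- The marked points. -/
def n1Pts : Set Sph := {((0 : ℂ) : Sph), ((1 : ℂ) : Sph), OnePoint.infty}

theorem n1_frame {w : ℂ} (h0 : w ≠ 0) (h1 : w ≠ 1) {θ : ℝ} (hθ : 0 < θ) :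
    ∃ F : Fr, F.Adm ∧ w ∈ F.core ∧ ‖F.a‖ ≤ θ := by
  have k0 := norm_pos_iff.2 h0
  have k1 := norm_pos_iff.2 (sub_ne_zero.2 h1)
  obtain ⟨a, ha, ha'⟩ := exists_rat_btwn
    (show 0 < min θ (min (‖w‖ / 5) (‖w - 1‖ / 5)) by positivity)
  rw [lt_min_iff, lt_min_iff] at ha'
  obtain ⟨z, hz, hz'⟩ := exists_isQ_near w ha
  have hn : ‖((a : ℝ) : ℂ)‖ = a := by rw [Complex.norm_real, Real.norm_of_nonneg ha.le]
  have key : ∀ c : ℂ, a < ‖w - c‖ / 5 → c ∉ aff z (a : ℝ) '' closedBall 0 4 := by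
    rintro _ hc ⟨y, hy, rfl⟩
    have e : w - aff z (a : ℝ) y = -(z - w) - ((a : ℝ) : ℂ) * y := by simp only [aff]; ring
    have h2 := norm_sub_le (-(z - w)) (((a : ℝ) : ℂ) * y)
    rw [← e, norm_neg, norm_mul, hn] at h2
    nlinarith [mem_closedBall_zero_iff.1 hy]
  refine ⟨⟨(z, (a : ℝ)), isFr_real hz (isQ_ofReal_iff.2 ⟨a, rfl⟩) ha⟩,
    ⟨key 0 (by rw [sub_zero]; exact ha'.2.1), key 1 ha'.2.2⟩, (Fr.mem_core _ _).2 ?_,
    hn.le.trans ha'.1.le⟩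
  exact (norm_sub_rev w z).trans_lt (hz'.trans_eq hn.symm)

theorem n1_cover {D : Sph → Sph → ℝ} (hD : IsMet D) {η₀ η : ℝ} (h0 : 0 < η₀) (hη : 0 < η) :
    ∃ T : Finset Fr, (∀ F ∈ T, F.Adm ∧ ∀ w w' : ℂ, ‖w - F.z‖ ≤ 5 * ‖F.a‖ →
      ‖w' - F.z‖ ≤ 5 * ‖F.a‖ → D w w' ≤ η) ∧
      ∀ w : ℂ, (∀ z ∈ n1Pts, η₀ ≤ D w z) → ∃ F ∈ T, w ∈ F.core := by
  classical
  have hne : ∀ y : Sph, (∀ z ∈ n1Pts, η₀ ≤ D y z) → y ∉ n1Pts := fun y hy h => by
    have := hy y h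
    rw [hD.self] at this
    linarith
  have hK : IsCompact ((fun z : ℂ => (z : Sph)) ⁻¹' {y | ∀ z ∈ n1Pts, η₀ ≤ D y z}) := by
    refine OnePoint.isOpenEmbedding_coe.isInducing.isCompact_preimage' (IsClosed.isCompact ?_)
      fun y hy => ?_
    · simp only [ofPred_forall]
      exact isClosed_iInter fun z => isClosed_iInter fun _ => isClosed_le continuous_const
        (hD.cont.comp (continuous_id.prodMk continuous_const))
    · induction y using OnePoint.rec with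
      | infty => exact absurd (.inr (.inr rfl)) (hne _ hy)
      | coe w => exact mem_range_self w
  have hb : ∀ w : ℂ, ∃ F : Fr, (∀ z ∈ n1Pts, η₀ ≤ D w z) → w ∈ F.core ∧ F.Adm ∧
      ∀ y y' : ℂ, ‖y - F.z‖ ≤ 5 * ‖F.a‖ → ‖y' - F.z‖ ≤ 5 * ‖F.a‖ → D y y' ≤ η := by
    intro w
    by_cases hw : ∀ z ∈ n1Pts, η₀ ≤ D w z
    · obtain ⟨θ, h1, h2⟩ := hD.of_eucl (‖w‖ + 1) hη
      obtain ⟨F, h3, h4, h5⟩ := n1_frame (w := w) (fun e => hne _ hw (.inl (by rw [e])))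
        (fun e => hne _ hw (.inr (.inl (by rw [e])))) (θ := min (θ / 10) (1 / 6)) (by positivity)
      rw [le_min_iff] at h5
      refine ⟨F, fun _ => ⟨h4, h3, fun y y' hy hy' => h2 _ _ ?_ ?_⟩⟩
      · have e1 := (F.mem_core w).1 h4
        have e2 := norm_sub_le_norm_sub_add_norm_sub y F.z w
        rw [norm_sub_rev F.z w] at e2
        linarith [norm_le_norm_add_norm_sub' y w, h5.2]
      · have e2 := norm_sub_le_norm_sub_add_norm_sub y' F.z y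
        rw [norm_sub_rev F.z y] at e2
        linarith [h5.1]
    · exact ⟨rotF 0, fun h => absurd h hw⟩
  choose F hF using hb
  obtain ⟨t, ht, hc⟩ := hK.elim_nhds_subcover (fun w => (F w).core) fun w hw => by
    refine IsOpen.mem_nhds ?_ (hF w hw).1
    rw [Fr.core_eq]
    exact isOpen_ball.preimage (F w).continuous_inv
  refine ⟨t.image F, fun G hG => ?_, fun w hw => ?_⟩
  · obtain ⟨w, hw, rfl⟩ := Finset.mem_image.1 hG
    exact (hF w (ht w hw)).2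
  · obtain ⟨y, hy, hy'⟩ := mem_iUnion₂.1 (hc hw)
    exact ⟨F y, Finset.mem_image_of_mem F hy, hy'⟩

variable {n : ℕ} {q : Quad n}

theorem n1_dart (w : q.Vertex) : ∃ d : (toFMap q).D, q.tail d = w := ⟨_, tail_out q w⟩

theorem n1_con {P : q.Vertex → Prop} {u v : q.Vertex}
    (h : ReflTransGen (fun x y => q.graph.Adj x y ∧ P y) u v) (hu : P u) {d e : (toFMap q).D}
    (hd : q.tail d = u) (he : q.tail e = v) :
    (toFMap q).Con ((toFMap q).ed {x | P (q.tail x)}) d e := by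
  induction h generalizing e with
  | refl => exact FMap.Con.of_same _ ((tail_eq_iff q).1 (hd.trans he.symm))
  | tail h0 h ih =>
    obtain ⟨c, h1, h2⟩ := adj_dart q h.1
    have h3 : c ∈ (toFMap q).ed {x | P (q.tail x)} :=
      ⟨show P (q.tail c) from h1 ▸ n1_last h0 hu, show P (q.head c) from h2 ▸ h.2⟩
    exact (ih h1).trans ((FMap.Con.alpha (.inl h3)).trans
      (FMap.Con.of_same _ ((tail_eq_iff q).1 (h2.trans he.symm))))

theorem n1_sweep (p : q.Vertex → ℂ) (T : Finset Fr) (Λ : Fr → ℝ) (j : ℕ)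
    (hG : ∀ F ∈ T, 0 ≤ Λ F ∧ (toFMap q).Good (fun e => p (q.tail e)) F (Λ F))
    (hN : ∀ F ∈ T, ∀ w w', ‖p w - F.z‖ ≤ 5 * ‖F.a‖ → ‖p w' - F.z‖ ≤ 5 * ‖F.a‖ →
      q.graph.dist w w' < j)
    {P : q.Vertex → Prop} (hP : ∀ w, P w → ∃ F ∈ T, p w ∈ F.core) {u v : q.Vertex} (hu : P u)
    (h : ReflTransGen (fun x y => q.graph.Adj x y ∧ P y) u v) (f : q.Vertex → ℝ)
    (hu' : ∀ w, q.graph.dist u w ≤ j → f w = f u) (hv' : ∀ w, q.graph.dist v w ≤ j → f w = f v) :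
    |f v - f u| ≤ ∑ F ∈ T, 4 * √(Λ F * (toFMap q).en
      {e | ∃ w, P w ∧ q.graph.dist w (q.tail e) ≤ j} fun e => f (q.tail e)) := by
  classical
  rcases le_total (q.graph.dist u v) j with huv | huv
  · rw [hu' v huv, sub_self, abs_zero]
    positivity
  obtain ⟨v₀, a1, -, a3⟩ := n1_geo u v huv
  have a2 : j ≤ q.graph.dist u v₀ := by linarith [n1_tri q u v₀ v]
  obtain ⟨d, rfl⟩ := n1_dart u
  obtain ⟨e, rfl⟩ := n1_dart v
  obtain ⟨d₀, rfl⟩ := n1_dart v₀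
  set K : Set (toFMap q).D := {e | ∃ w, P w ∧ q.graph.dist w (q.tail e) ≤ j} with hK
  have hex : ∀ F : Fr, ∃ (Γ : Set (toFMap q).D) (b : (toFMap q).D), F ∈ T →
      Γ ⊆ (toFMap q).ed ((fun e => F.inv (p (q.tail e))) ⁻¹' ann 0 2 4) ∧
      F.inv (p (q.tail b)) ∈ ann 0 2 4 ∧
      (toFMap q).wt ((toFMap q).grad K fun e => f (q.tail e)) Γ ≤
        4 * √(Λ F * (toFMap q).en K fun e => f (q.tail e)) ∧
      (toFMap q).Wall Γ b ((fun e => F.inv (p (q.tail e))) ⁻¹' inn)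
        ((fun e => F.inv (p (q.tail e))) ⁻¹' out) := by
    intro F
    by_cases hi : F ∈ T
    · obtain ⟨Γ, h1, b, h2, -, h3, h4⟩ := (hG F hi).2.1.wall (hG F hi).2.2
        (FMap.isW_grad K fun e => f (q.tail e))
      refine ⟨Γ, b, fun _ => ⟨h1, h2, h3.trans (mul_le_mul_of_nonneg_left (Real.sqrt_le_sqrt
        (mul_le_mul_of_nonneg_left ?_ (hG F hi).1)) (by norm_num)), h4⟩⟩
      exact (FMap.sq_le_of_supp (fun _ h => FMap.grad_of_not_mem h) _).trans (FMap.sq_grad _ _).le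
    · exact ⟨∅, q.root, fun h => absurd h hi⟩
  choose G b hb using hex
  have n1 : ∀ (F : Fr) (w : ℂ), F.inv w ∉ out → ‖w - F.z‖ ≤ 5 * ‖F.a‖ := fun F w hw =>
    nsweep_dist F ((nsweep_norm_of_not_out hw).trans (by norm_num))
  have n2 : ∀ (F : Fr) (w : ℂ), F.inv w ∈ ann 0 2 4 → ‖w - F.z‖ ≤ 5 * ‖F.a‖ := fun F w hw => by
    linarith [(F.mem_body w).1 (nsweep_body F hw), F.a_pos]
  set T' : Finset Fr := T.filter fun F => ∃ w, P w ∧ p w ∈ F.core with hT'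
  have hT : ∀ F ∈ T', F ∈ T := fun F hF => (Finset.mem_filter.1 hF).1
  have hs := FMap.sweep (M := toFMap q) T' (G := G) (b := b) (fun F hF => (hb F (hT F hF)).2.2.2)
    (Γ₀ := (toFMap q).ed {x | q.graph.dist (q.tail d) (q.tail x) ≤ j}) (fun F hF => ?_)
    (fun x hx => ?_) (n1_con h hu rfl rfl)
  · have hf : Inv (toFMap q).σ fun e => f (q.tail e) := fun e =>
      congrArg f ((tail_eq_iff q (e := e) (e' := (toFMap q).σ e)).2 ⟨1, by simp⟩).symm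
    have hw : (toFMap q).wt (fun x => |f (q.tail ((toFMap q).α x)) - f (q.tail x)|)
        ((toFMap q).ed {x | q.graph.dist (q.tail d) (q.tail x) ≤ j} ∪ ⋃ F ∈ T', G F) ≤
        ∑ F ∈ T, 4 * √(Λ F * (toFMap q).en K fun e => f (q.tail e)) := by
      refine (FMap.wt_union (fun _ => abs_nonneg _) _ _).trans ?_
      rw [FMap.wt_eq_zero fun x hx => by rw [hu' _ hx.1, hu' _ hx.2, sub_self, abs_zero], zero_add]
      refine (FMap.wt_biUnion (fun _ => abs_nonneg _) T' G).trans ((Finset.sum_le_sum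
        fun F hF => ?_).trans (Finset.sum_le_sum_of_subset_of_nonneg hT fun _ _ _ => by positivity))
      refine (FMap.wt_congr fun x hx => ?_).trans_le (hb F (hT F hF)).2.2.1
      obtain ⟨w, h1, h2⟩ := (Finset.mem_filter.1 hF).2
      have h3 : ‖p w - F.z‖ ≤ 5 * ‖F.a‖ := by linarith [(F.mem_core _).1 h2, F.a_pos]
      have h4 := (hb F (hT F hF)).1 hx
      exact (FMap.grad_of_mem (K := K) (f := fun e => f (q.tail e))
        ⟨⟨w, h1, (hN F (hT F hF) _ _ h3 (n2 F _ h4.1)).le⟩,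
          ⟨w, h1, (hN F (hT F hF) _ _ h3 (n2 F _ h4.2)).le⟩⟩).symm
    rcases hs with hs | ⟨F, hF, h1, h2⟩
    · exact (hs.lip hf).trans hw
    · rw [← hv' _ (hN F (hT F hF) _ _ (n1 F _ h2) (n2 F _ (hb F (hT F hF)).2.1)).le]
      exact (h1.lip hf).trans hw
  · by_cases h1 : F.inv (p (q.tail d)) ∈ out
    · exact ⟨d, h1, FMap.Con.refl _ _⟩
    · refine ⟨d₀, ?_, n1_con a3 (SimpleGraph.dist_self.trans_le j.zero_le) rfl rfl⟩
      by_contra h2
      exact absurd (hN F (hT F hF) _ _ (n1 F _ h1) (n1 F _ h2)) (not_lt.2 a2)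
  · obtain ⟨F, hF, h1⟩ := hP _ hx.1
    have h2 := nsweep_core F h1
    have h3 := (hG F hF).2.1.mesh x _ (h2.le.trans (by norm_num)) (.inl rfl)
    refine ⟨F, Finset.mem_filter.2 ⟨hF, _, hx.1, h1⟩, nsweep_inn (h2.trans one_lt_two),
      nsweep_inn ?_⟩
    linarith [norm_le_norm_add_norm_sub' (F.inv (p (q.tail ((toFMap q).α x))))
      (F.inv (p (q.tail x)))]

/-- Bounded resistance of tubes around paths that avoid the marked points. -/
def N1Tube (b : Base) (r : ℕ → RZ) (D : Sph → Sph → ℝ) (p : ∀ k, (r k).q.Vertex → ℂ) : Prop :=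
  ∀ η₀ > 0, ∀ η > 0, ∃ C : ℝ, 0 ≤ C ∧ ∀ᶠ k in (b.U : Filter ℕ),
    ∀ (P : (r k).q.Vertex → Prop) (u v : (r k).q.Vertex) (f : (r k).q.Vertex → ℝ),
    (∀ w, P w → ∀ z ∈ n1Pts, η₀ ≤ D (p k w) z) → P u →
    ReflTransGen (fun x y => (r k).q.graph.Adj x y ∧ P y) u v →
    (∀ w, b.δ k * (r k).q.graph.dist u w ≤ η → f w = f u) →
    (∀ w, b.δ k * (r k).q.graph.dist v w ≤ η → f w = f v) →
    (f v - f u) ^ 2 ≤ C * b.κ k * (toFMap (r k).q).en
      {e | (r k).q.tail e ∈ {y | ∃ w, P w ∧ b.δ k * (r k).q.graph.dist w y ≤ η}}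
      fun e => f ((r k).q.tail e)

theorem n1_tube {b : Base} {r : ℕ → RZ} {D : Sph → Sph → ℝ} {x : ℕ → ℂ}
    {p : ∀ k, (r k).q.Vertex → ℂ} (hP : Pos b r D x p) {s : Sys} (hs : hP.toF.Real s)
    (hL : ∀ F : Fr, F.Adm → Loop F s < ⊤) : N1Tube b r D p := by
  intro η₀ h0 η hη
  have hη4 : 0 < η / 4 := by positivity
  obtain ⟨T, h1, h2⟩ := n1_cover hP.met h0 hη4
  refine ⟨(∑ F ∈ T, 4 * √((Loop F s).toReal + 1)) ^ 2, by positivity, ?_⟩
  filter_upwards [hs.good (T := T) (F := id) (Λ := fun F => (Loop F s).toReal + 1) fun F hF => by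
    rw [ENNReal.ofReal_add ENNReal.toReal_nonneg zero_le_one,
      ENNReal.ofReal_toReal (hL F (h1 F hF).1).ne]
    exact ENNReal.lt_add_right (hL F (h1 F hF).1).ne (by simp), hP.dist _ hη4, n1_small b hη4]
    with k h3 h4 h5 P u v f hf hu h hu' hv'
  have hδ := b.δ_pos k
  have hκ := b.κ_pos k
  have e : ∀ m : ℕ, b.δ k * m ≤ η ↔ m ≤ ⌊η / b.δ k⌋₊ := fun m => by
    rw [Nat.le_floor_iff (by positivity), le_div_iff₀ hδ, mul_comm]
  simp only [e] at hu' hv' ⊢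
  have h6 := n1_sweep (p k) T (fun F => ((Loop F s).toReal + 1) * b.κ k) ⌊η / b.δ k⌋₊
    (fun F hF => ⟨by positivity, h3 F hF⟩) (fun F hF w w' hw hw' => by
      rw [Nat.lt_iff_add_one_le, ← e, Nat.cast_add, mul_add, Nat.cast_one]
      linarith [(h1 F hF).2 _ _ hw hw', (abs_le.1 (h4 w w')).2])
    (fun w hw => h2 _ (hf w hw)) hu h f hu' hv'
  obtain ⟨E, hE⟩ : ∃ E, E = (toFMap (r k).q).en {e | ∃ w, P w ∧
    (r k).q.graph.dist w ((r k).q.tail e) ≤ ⌊η / b.δ k⌋₊} fun e => f ((r k).q.tail e) := ⟨_, rfl⟩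
  have hE0 : 0 ≤ E := hE ▸ FMap.en_nonneg _ _
  refine le_of_le_of_eq ?_ (congrArg _ hE)
  rw [← hE] at h6
  have h7 : ∑ F ∈ T, 4 * √(((Loop F s).toReal + 1) * b.κ k * E) =
      (∑ F ∈ T, 4 * √((Loop F s).toReal + 1)) * √(b.κ k * E) := by
    rw [Finset.sum_mul]
    exact Finset.sum_congr rfl fun F _ => by
      rw [mul_assoc _ (b.κ k), Real.sqrt_mul (by positivity), mul_assoc]
  rw [mul_assoc, ← Real.sq_sqrt (show 0 ≤ b.κ k * E by positivity), ← mul_pow, ← h7, ← sq_abs]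
  exact pow_le_pow_left₀ (abs_nonneg _) h6 2

end Pool.Agent.QL.LC
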