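import Pool.Agent.P.MP_7a6434d8_pr.QL.C.N1Ext
import Pool.Agent.P.MP_7a6434d8_pr.QL.C.N1Link
import Pool.Agent.P.MP_7a6434d8_pr.QL.C.N1Tube

/-! Block N1: the deterministic crossing estimate along a net. -/

open Set Filter Topology Relation
open scoped ENNReal unitInterval

namespace Pool.Agent.QL.LC

open Pool.Agent.LGD Pool.Agent.P.MP_7a6434d8_pr Pool.Agent.P.MP_7a6434d8_pr.Mp

theorem n1_pick {D : Sph → Sph → ℝ} (hD : IsMet D) (c : ℕ → Sph) (y₀ s : ℕ) {e : ℝ}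
    (h : ∀ y y', y₀ + s ≤ y → y + s ≤ y' → y' ≤ y₀ + 4 * s → 2 * e ≤ D (c y) (c y')) :
    ∃ y, y₀ + s ≤ y ∧ y ≤ y₀ + 4 * s ∧ ∀ z ∈ n1Pts, e ≤ D (c y) z := by
  classical
  by_contra hn
  push Not at hn
  have k1 : ∀ i : Fin 4, y₀ + s ≤ y₀ + (i + 1) * s := fun i => by nlinarith [i.1.zero_le]
  have k2 : ∀ i : Fin 4, y₀ + (i + 1) * s ≤ y₀ + 4 * s := fun i => by nlinarith [i.2]
  choose z h1 h2 using fun i : Fin 4 => hn _ (k1 i) (k2 i)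
  have key : ∀ i j : Fin 4, i < j → z i ≠ z j := fun i j hij e => by
    have h3 := h _ _ (k1 i) (by nlinarith [Fin.lt_def.1 hij]) (k2 j)
    have h4 := hD.triangle (c (y₀ + (i + 1) * s)) (z i) (c (y₀ + (j + 1) * s))
    rw [hD.symm (z i)] at h4
    linarith [h2 i, e ▸ h2 j]
  obtain ⟨i, -, j, -, h3, h4⟩ := Finset.exists_ne_map_eq_of_card_lt_of_maps_to
    (s := Finset.univ) (t := {((0 : ℂ) : Sph), ((1 : ℂ) : Sph), OnePoint.infty}) (f := z)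
    (Finset.card_le_three.trans_lt (by simp)) fun i _ => by simpa [n1Pts] using h1 i
  exact (lt_or_gt_of_ne h3).elim (fun h => key i j h h4) fun h => key j i h h4.symm

theorem n1_gap (f : Sph → ℝ) (R : ℝ) : ∃ h > 0, ∀ z ∈ n1Pts, f z ≤ R ∨ R + h ≤ f z := by
  have key : ∀ c : ℝ, ∃ h > 0, c ≤ R ∨ R + h ≤ c := fun c => by
    rcases le_or_gt c R with h | h
    exacts [⟨1, one_pos, .inl h⟩, ⟨c - R, sub_pos.2 h, .inr (by linarith)⟩]
  choose g h1 h2 using key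
  refine ⟨min (g (f (0 : ℂ))) (min (g (f (1 : ℂ))) (g (f OnePoint.infty))),
    lt_min (h1 _) (lt_min (h1 _) (h1 _)), fun z hz => (h2 (f z)).imp_right (le_trans ?_)⟩
  rcases hz with rfl | rfl | rfl <;> simp

theorem n1_mul {δ : ℝ} (hδ : 0 < δ) {m m₁ m₂ : ℕ} (h : m ≤ m₁ + m₂) :
    δ * m ≤ δ * m₁ + δ * m₂ := by
  rw [← mul_add, ← Nat.cast_add]
  exact mul_le_mul_of_nonneg_left (Nat.cast_le.2 h) hδ.le

section Fin

variable {n : ℕ} {q : Quad n} {S : ℕ → q.Vertex} {ϱ : ℕ} {t : Mp} {θ : Dt t → Fin (4 * n)}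
  {ι : V t → q.Vertex} (H : SubQ q (VO q S [(1, ϱ)] 0) t θ ι) {δ h η : ℝ} (hδ : 0 < δ)

include H hδ

/-- The ends of the path. -/
theorem n1_end (h1 : h ≤ δ * ϱ) (h2 : 6 * δ + η ≤ h) (hη : 0 ≤ η) {y : ℕ}
    (hy : y + 4 < 2 * per t) {s : V t} (hs : δ * dW t (bv t y) s ≤ h) :
    ∃ u, δ * q.graph.dist (ι (bv t y)) u ≤ h ∧
      (∀ w, δ * q.graph.dist u w ≤ η → w ∉ VO q S [(1, ϱ)] 0) ∧
      ReflTransGen (fun x w => q.graph.Adj x w ∧ δ * q.graph.dist (ι (bv t y)) w ≤ h) u (ι s) := by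
  have e : ∀ m : ℕ, δ * m ≤ h ↔ m ≤ ⌊h / δ⌋₊ := fun m => by
    rw [Nat.le_floor_iff (div_nonneg (by linarith) hδ.le), le_div_iff₀ hδ, mul_comm]
  have k1 := n1_out (H.mem (bv t y))
  have k2 := n1_bd H hy
  have k3 : ⌊h / δ⌋₊ ≤ ϱ := by
    rw [← Nat.cast_le (α := ℝ), ← mul_le_mul_iff_right₀ hδ]
    exact ((e _).2 le_rfl).trans h1
  rw [SimpleGraph.dist_comm] at k1 k2
  obtain ⟨u, a1, a2, a3⟩ := n1_geo (ι (bv t y)) (S 1) (j := ⌊h / δ⌋₊) (by omega)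
  simp only [e] at hs ⊢
  refine ⟨u, a2, fun w hw hA => ?_,
    (n1_rev (fun _ _ h => h.symm) a3 (SimpleGraph.dist_self.trans_le (Nat.zero_le _))).trans
      (n1_mono (n1_geo' _ _) fun w hw => hw.trans ((H.dist_le _ _).trans hs))⟩
  have k4 := n1_out hA
  have k5 := n1_tri q (S 1) u w
  rw [SimpleGraph.dist_comm] at a1
  have k6 := n1_mul hδ (m := ⌊h / δ⌋₊ + 1) (m₁ := 5) (m₂ := q.graph.dist u w) (by omega)
  have k7 := n1_mul hδ (m := ⌊h / δ⌋₊ + 2) (m₁ := 6) (m₂ := q.graph.dist u w) (by omega)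
  have k8 := not_le.1 ((e (⌊h / δ⌋₊ + 1)).not.2 (by omega))
  push_cast at k6 k7 k8
  linarith

theorem n1_fin {D : Sph → Sph → ℝ} (hD : IsMet D) {p : q.Vertex → ℂ} {x₁ : Sph} {R₀ T c : ℝ}
    {a b R : ℕ} (hL : 100 * a ≤ per t) (hb : b ≤ a) (ha : 1 ≤ a) (hT : 0 ≤ T) (hc : 0 ≤ c)
    (hη : δ ≤ η / 2) (hh : 4 * η ≤ h) (hR₀ : 2 * h ≤ R₀) (hR : 2 * h ≤ δ * R)
    (sep : ∀ z ≤ 2 * per t, ∀ y, per t ≤ y + 2 * a → y ≤ per t + 3 * a →
      y + a / 5 ≤ z ∨ z + a / 5 ≤ y → 16 * h < δ * q.graph.dist (ι (bv t y)) (ι (bv t z)))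
    (inj : ∀ v v', δ * q.graph.dist (ι v) (ι v') ≤ 4 * h → dW t v v' ≤ R)
    (pos : ∀ v v', |δ * q.graph.dist v v' - D (p v) (p v')| ≤ η / 2)
    (ctr : ∀ w, |δ * q.graph.dist (S 1) w - D x₁ (p w)| ≤ η / 2) (rad : |δ * ϱ - R₀| ≤ η / 2)
    (gap : ∀ z ∈ n1Pts, D x₁ z ≤ R₀ ∨ R₀ + 3 * h ≤ D x₁ z)
    (arc : ∀ y y' : ℕ, y ≤ y' → y' ≤ 2 * per t → ∃ s s', δ * dW t (bv t y) s ≤ h ∧
      δ * dW t (bv t y') s' ≤ h ∧ ReflTransGen (fun u v => adj t u v ∧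
        (R₀ + 2 * η ≤ δ * q.graph.dist (S 1) (ι v) ∧
        ∃ z, y ≤ z ∧ z ≤ y' ∧ δ * dW t (bv t z) v ≤ h)) s s')
    (tube : ∀ (P : q.Vertex → Prop) (u v : q.Vertex) (f : q.Vertex → ℝ),
      (∀ w, P w → ∀ z ∈ n1Pts, η ≤ D (p w) z) → P u →
      ReflTransGen (fun x y => q.graph.Adj x y ∧ P y) u v →
      (∀ w, δ * q.graph.dist u w ≤ η → f w = f u) → (∀ w, δ * q.graph.dist v w ≤ η → f w = f v) →
      (f v - f u) ^ 2 ≤ c * (toFMap q).en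
        {e | q.tail e ∈ {y | ∃ w, P w ∧ δ * q.graph.dist w y ≤ η}} fun e => f (q.tail e))
    (hF : ND.Fail t (per t - 3 * a) b a R T) : T ^ 2 ≤ c := by
  obtain ⟨g, hg, g0, g1⟩ := hF
  have hη0 : 0 < η := by linarith
  have rad' := abs_le.1 rad
  have pick : ∀ y₀, per t ≤ y₀ + 2 * a → y₀ + a ≤ per t + 3 * a → ∃ y, y₀ + a / 5 ≤ y ∧
      y ≤ y₀ + 4 * (a / 5) ∧ ∀ w, δ * q.graph.dist (ι (bv t y)) w ≤ h →
        ∀ z ∈ n1Pts, η ≤ D (p w) z := by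
    intro y₀ h1 h2
    obtain ⟨y, k1, k2, k3⟩ := n1_pick hD (fun y => p (ι (bv t y))) y₀ (a / 5) (e := 4 * h)
      fun y y' k1 k2 k3 => by
        linarith [sep y' (by omega) y (by omega) (by omega) (.inl k2),
          (abs_le.1 (pos (ι (bv t y)) (ι (bv t y')))).2]
    refine ⟨y, k1, k2, fun w hw z hz => ?_⟩
    linarith [k3 z hz, hD.triangle (p (ι (bv t y))) (p w) z, (abs_le.1 (pos (ι (bv t y)) w)).1]
  obtain ⟨y₀, l1, l2, l3⟩ := pick (per t - 2 * a) (by omega) (by omega)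
  obtain ⟨y₁, r1, r2, r3⟩ := pick (per t + b + a) (by omega) (by omega)
  obtain ⟨s, s', a1, a2, a3⟩ := arc y₀ y₁ (by omega) (by omega)
  obtain ⟨u, u1, u2, u3⟩ := n1_end H hδ (h := h) (η := η) (by linarith) (by linarith) hη0.le
    (y := y₀) (by omega) a1
  obtain ⟨v, v1, v2, v3⟩ := n1_end H hδ (h := h) (η := η) (by linarith) (by linarith) hη0.le
    (y := y₁) (by omega) a2
  set P : q.Vertex → Prop := fun w => δ * q.graph.dist (ι (bv t y₀)) w ≤ h ∨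
    δ * q.graph.dist (ι (bv t y₁)) w ≤ h ∨ ∃ x, ι x = w ∧
      R₀ + 2 * η ≤ δ * q.graph.dist (S 1) (ι x) ∧
      ∃ z, y₀ ≤ z ∧ z ≤ y₁ ∧ δ * dW t (bv t z) x ≤ h with hP
  have hK : ∀ w, (∃ w', P w' ∧ δ * q.graph.dist w' w ≤ η) →
      δ * q.graph.dist (ι (bv t y₀)) w ≤ 2 * h ∨ δ * q.graph.dist (ι (bv t y₁)) w ≤ 2 * h ∨
      ∃ x, ι x = w ∧ ∃ z, y₀ ≤ z ∧ z ≤ y₁ ∧ dW t (bv t z) x ≤ R := by
    rintro w ⟨w', h1 | h1 | ⟨x, rfl, h1, z, h2, h3, h4⟩, hw⟩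
    · exact .inl (by linarith [n1_mul hδ (n1_tri q (ι (bv t y₀)) w' w)])
    · exact .inr (.inl (by linarith [n1_mul hδ (n1_tri q (ι (bv t y₁)) w' w)]))
    · obtain ⟨x', e1, e2, -⟩ := n1_lift H x w (by
        rw [← Nat.cast_lt (α := ℝ), ← mul_lt_mul_iff_right₀ hδ, Nat.cast_add, mul_add]
        linarith)
      refine .inr (.inr ⟨x', e1, z, h2, h3, ?_⟩)
      rw [← Nat.cast_le (α := ℝ), ← mul_le_mul_iff_right₀ hδ]
      linarith [n1_mul hδ ((M2.dW_tri H.ok (bv t z) x x').trans (Nat.add_le_add_left e2 _))]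
  have hN : ∀ z x, y₀ ≤ z → z ≤ y₁ → dW t (bv t z) x ≤ R →
      ND.Nbh t (per t - 3 * a) b a R x := fun z x h1 h2 h3 =>
    ⟨z - (per t - 3 * a), by omega, by omega, by
      rw [show per t - 3 * a + (z - (per t - 3 * a)) = z by omega]
      exact (M2.dW_le_iff H.ok).1 h3⟩
  have hZ : ∀ w (e : Fin (4 * n)), δ * q.graph.dist w (q.head e) ≤ 2 * h →
      δ * q.graph.dist w (q.tail e) ≤ 4 * h ∧ δ * q.graph.dist w (q.head e) ≤ 4 * h := by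
    intro w e he
    have k1 := n1_mul hδ ((n1_tri q w (q.head e) (q.tail e)).trans (Nat.add_le_add_left
      (SimpleGraph.dist_comm.trans_le (dist_tail_head q e)) _))
    rw [Nat.cast_one] at k1
    exact ⟨by linarith, by linarith⟩
  obtain ⟨f, f0, f1, hf⟩ := n1_ext H (ND.Nbh t (per t - 3 * a) b a R) g hT
    (K := {y | ∃ w, P w ∧ δ * q.graph.dist w y ≤ η})
    (Z₀ := {w | δ * q.graph.dist (ι (bv t y₀)) w ≤ 4 * h})
    (Z₁ := {w | δ * q.graph.dist (ι (bv t y₁)) w ≤ 4 * h})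
    (fun w h1 h2 => by
      have k1 := n1_mul hδ (n1_tri q (ι (bv t y₀)) w (ι (bv t y₁)))
      rw [SimpleGraph.dist_comm (u := w)] at k1
      rw [mem_ofPred_eq] at h1 h2
      linarith [sep y₁ (by omega) y₀ (by omega) (by omega) (.inl (by omega))])
    (fun x hx => by
      rcases hK _ hx with h1 | h1 | ⟨x', e, z, h1, h2, h3⟩
      · exact hN y₀ x le_rfl (by omega) (inj _ _ (by linarith))
      · exact hN y₁ x (by omega) le_rfl (inj _ _ (by linarith))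
      · exact hN z x h1 h2 (H.ι_inj e ▸ h3))
    (fun e he he' => by
      rcases hK _ he with h1 | h1 | ⟨x', e', -⟩
      exacts [.inl (hZ _ e h1), .inr (hZ _ e h1), absurd (e' ▸ H.mem x') he'])
    (fun z hz h1 => by
      have k1 := mt (sep z hz.le y₀ (by omega) (by omega))
        (not_lt.2 (le_trans h1 (by linarith)))
      have k2 := g0 (z - (per t - 3 * a)) (by omega) (by omega)
      rwa [show per t - 3 * a + (z - (per t - 3 * a)) = z by omega] at k2)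
    (fun z hz h1 => by
      have k1 := mt (sep z hz.le y₁ (by omega) (by omega))
        (not_lt.2 (le_trans h1 (by linarith)))
      have k2 := g1 (z - (per t - 3 * a)) (by omega) (by omega)
      rwa [show per t - 3 * a + (z - (per t - 3 * a)) = z by omega] at k2)
  have fu : ∀ w, δ * q.graph.dist u w ≤ η → f w = 0 := fun w hw => f0 w (u2 w hw) (by
    rw [mem_ofPred_eq]
    linarith [n1_mul hδ (n1_tri q (ι (bv t y₀)) u w)])
  have fv : ∀ w, δ * q.graph.dist v w ≤ η → f w = T := fun w hw => f1 w (v2 w hw) (by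
    rw [mem_ofPred_eq]
    linarith [n1_mul hδ (n1_tri q (ι (bv t y₁)) v w)])
  have fu' := fu u (by simpa using hη0.le)
  have fv' := fv v (by simpa using hη0.le)
  have key := tube P u v f ?_ (.inl u1) ((n1_mono u3 fun _ h => .inl h).trans
    ((ReflTransGen.lift ι (fun _ x h => ⟨(H.adj_iff _ _).1 h.1, .inr (.inr ⟨x, rfl, h.2⟩)⟩) _ _
      a3).trans (n1_mono (n1_rev (fun _ _ h => h.symm) v3 v1) fun _ h => .inr (.inl h))))
    (fun w hw => (fu w hw).trans fu'.symm) fun w hw => (fv w hw).trans fv'.symm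
  · rw [fu', fv', sub_zero] at key
    nlinarith [mul_le_mul_of_nonneg_left (hf.trans hg.le) hc]
  · rintro w (h1 | h1 | ⟨x, rfl, h1, y, h2, h3, h4⟩) z hz
    · exact l3 w h1 z hz
    · exact r3 w h1 z hz
    · have k1 := abs_le.1 (ctr (ι x))
      have k2 := n1_mul hδ (n1_bd H (p := y) (by omega))
      have k3 := n1_mul hδ ((n1_tri q (S 1) (ι (bv t y)) (ι x)).trans
        (Nat.add_le_add_left (H.dist_le _ _) _))
      have k4 := hD.triangle x₁ z (p (ι x))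
      have k5 := hD.triangle x₁ (p (ι x)) z
      rw [hD.symm z] at k4
      push_cast at k2
      rcases gap z hz with k6 | k6 <;> linarith [k1.1, k1.2]

end Fin

variable {b : Base} {r : ℕ → RZ} {H : HS} {r₀ : ℚ} {g : GC} {ρ : I} {ℓ a₀ : ℝ}
  {D : Sph → Sph → ℝ} {x : ℕ → ℂ} {p : ∀ k, (r k).q.Vertex → ℂ}

theorem n1_sep (h : HoleOK b r H (one r₀) g ρ ℓ a₀) {θ : ℝ} (hθ : 0 < θ) :
    ∃ η > 0, ∀ᶠ k in (b.U : Filter ℕ), ∀ y z : ℕ, y ≤ z →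
      z ≤ 2 * per ((r k).W H (b.δ k) (one r₀)) →
      θ * per ((r k).W H (b.δ k) (one r₀)) ≤ (z : ℝ) - y →
      (z : ℝ) - y ≤ (2 - θ) * per ((r k).W H (b.δ k) (one r₀)) →
      η < b.δ k * (r k).q.graph.dist ((r k).ι H (b.δ k) (one r₀) (bv _ y))
        ((r k).ι H (b.δ k) (one r₀) (bv _ z)) := by
  obtain ⟨ε, h1, h2⟩ := h.e2 θ hθ
  obtain ⟨η, h3, h4⟩ := h.inj ε h1
  refine ⟨η, h3, ?_⟩
  filter_upwards [h2, h4] with k h5 h6 y z k1 k2 k3 k4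
  exact not_le.1 fun h7 => absurd (h6 _ _ h7) (not_le.2 (h5 y z k1 k2 k3 k4))

/-- The crossing estimate along a net. -/
theorem n1_det (hr : 0 < r₀) (hP : Pos b r D x p)
    (hg : ∀ i j, g.2 i j = ENNReal.ofReal (D (x i) (x j))) (h : HoleOK b r H (one r₀) g ρ ℓ a₀)
    (hT : N1Tube b r D p) {B : ℕ} (hB : 1 ≤ B) {r' : ℝ} (hr' : 0 < r') :
    ∃ C : ℝ, ∀ᶠ k in (b.U : Filter ℕ), ∀ (a b' R : ℕ) (T : ℝ),
      100 * a ≤ per ((r k).W H (b.δ k) (one r₀)) → per ((r k).W H (b.δ k) (one r₀)) ≤ B * a →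
      b' ≤ a → 5 ≤ a → 0 ≤ T → r' ≤ b.δ k * R →
      ND.Fail ((r k).W H (b.δ k) (one r₀)) (per ((r k).W H (b.δ k) (one r₀)) - 3 * a) b' a R T →
      T ^ 2 ≤ C * b.κ k := by
  have hB' : (1 : ℝ) ≤ B := by exact_mod_cast hB
  have hR₀ : (0 : ℝ) < r₀ * (1 + (ρ : ℝ)) := by
    have := ρ.2.1
    positivity
  obtain ⟨h₁, p1, q1⟩ := n1_sep h (θ := 1 / (10 * B)) (by positivity)
  obtain ⟨h₂, p2, q2⟩ := h.inj r' hr'
  obtain ⟨h₃, p3, q3⟩ := n1_gap (D (x 1)) (r₀ * (1 + (ρ : ℝ)))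
  obtain ⟨e, he, e1, e2, e3, e4, e5⟩ : ∃ e > 0, 16 * e ≤ h₁ ∧ 4 * e ≤ h₂ ∧ 3 * e ≤ h₃ ∧
      2 * e ≤ r₀ * (1 + (ρ : ℝ)) ∧ 2 * e ≤ r' := by
    refine ⟨min (min h₁ h₂) (min h₃ (min (r₀ * (1 + (ρ : ℝ))) r')) / 16, by positivity, ?_⟩
    generalize hm : min (min h₁ h₂) (min h₃ (min (r₀ * (1 + (ρ : ℝ))) r')) = m
    have := hm.ge
    simp only [le_min_iff] at this
    obtain ⟨⟨k1, k2⟩, k3, k4, k5⟩ := this
    exact ⟨by linarith, by linarith, by linarith, by linarith, by linarith⟩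
  obtain ⟨η₁, p4, q4⟩ := n1_arc hr hP hg h he
  obtain ⟨η, hη, k1, k2⟩ : ∃ η > 0, 2 * η ≤ η₁ ∧ 4 * η ≤ e :=
    ⟨min η₁ e / 4, by positivity, by linarith [min_le_left η₁ e], by linarith [min_le_right η₁ e]⟩
  obtain ⟨C, hC, q5⟩ := hT η hη η hη
  refine ⟨C, ?_⟩
  filter_upwards [q1, q2, q4, q5, n1_sub h, n1_small b (half_pos hη), hP.dist _ (half_pos hη),
    n1_ctr hP 1 (half_pos hη), n1_rad hr h (half_pos hη)]
    with k q1 q2 q4 q5 q6 q7 q8 q9 q10 a b' R T hL hL' hb ha hT hR hF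
  have hδ := b.δ_pos k
  refine n1_fin q6 hδ hP.met hL hb (by omega) hT (mul_nonneg hC (b.κ_pos k).le) q7 k2 e4
    (by linarith) (fun z hz y h1 h2 h3 => ?_) (fun v v' hv => ?_) q8 q9 q10
    (fun z hz => (q3 z hz).imp_right fun h => by linarith) (fun y y' h1 h2 => ?_) q5 hF
  · generalize per ((r k).W H (b.δ k) (one r₀)) = L at q1 hL hL' hz h1 h2
    have m1 : 1 / (10 * (B : ℝ)) * L ≤ (a / 5 : ℕ) := by
      rw [one_div_mul_eq_div, div_le_iff₀ (by positivity)]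
      exact_mod_cast hL'.trans (by nlinarith [show a ≤ a / 5 * 10 by omega])
    have m2 : ∀ m : ℕ, 2 * m ≤ 3 * L → (m : ℝ) ≤ (2 - 1 / (10 * (B : ℝ))) * L := fun m hm => by
      have m3 : 1 / (10 * (B : ℝ)) ≤ 1 / 2 := one_div_le_one_div_of_le two_pos (by linarith)
      have m4 : (2 : ℝ) * m ≤ 3 * L := by exact_mod_cast hm
      nlinarith [L.cast_nonneg (α := ℝ)]
    refine lt_of_le_of_lt e1 ?_
    rcases h3 with h3 | h3
    · refine q1 y z (by omega) hz ?_ ?_ <;> rw [← Nat.cast_sub (by omega)]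
      exacts [m1.trans (Nat.cast_le.2 (by omega)), m2 _ (by omega)]
    · rw [SimpleGraph.dist_comm]
      refine q1 z y (by omega) (by omega) ?_ ?_ <;> rw [← Nat.cast_sub (by omega)]
      exacts [m1.trans (Nat.cast_le.2 (by omega)), m2 _ (by omega)]
  · rw [← Nat.cast_le (α := ℝ), ← mul_le_mul_iff_right₀ hδ]
    exact (q2 v v' (hv.trans e2)).trans hR
  · obtain ⟨s, s', m1, m2, m3⟩ := q4 y y' h1 h2
    exact ⟨s, s', m1, m2, n1_mono m3 fun v hv => ⟨by linarith [hv.1], hv.2⟩⟩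

end Pool.Agent.QL.LC
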