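import Pool.Agent.P.MP_7a6434d8_pr.QL.C.N1Geo

/-! Block N1: extension of a function on the hole to the map. -/

open Set

namespace Pool.Agent.QL.LC

open Pool.Agent.P.MP_7a6434d8_pr Pool.Agent.P.MP_7a6434d8_pr.Mp

theorem n1_clamp (T x y : ℝ) : (max 0 (min T x) - max 0 (min T y)) ^ 2 ≤ (y - x) ^ 2 := by
  rw [sq_le_sq, abs_sub_comm y x]
  refine (abs_max_sub_max_le_max _ _ _ _).trans (max_le (by simp) ?_)
  exact (abs_min_sub_min_le_max _ _ _ _).trans (max_le (by simp) le_rfl)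

theorem n1_ext {n : ℕ} {q : Quad n} {A : Set q.Vertex} {t : Mp} {θ : Dt t → Fin (4 * n)}
    {ι : V t → q.Vertex} (H : SubQ q A t θ ι) (N : V t → Prop) (g : V t → ℝ) {T : ℝ} (hT : 0 ≤ T)
    {K Z₀ Z₁ : Set q.Vertex} (hZ : ∀ w ∈ Z₀, w ∉ Z₁) (h1 : ∀ x, ι x ∈ K → N x)
    (h2 : ∀ e, q.head e ∈ K → q.head e ∉ A →
      (q.tail e ∈ Z₀ ∧ q.head e ∈ Z₀) ∨ (q.tail e ∈ Z₁ ∧ q.head e ∈ Z₁))
    (h3 : ∀ p < 2 * per t, ι (bv t p) ∈ Z₀ → g (bv t p) ≤ 0)
    (h4 : ∀ p < 2 * per t, ι (bv t p) ∈ Z₁ → T ≤ g (bv t p)) :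
    ∃ f : q.Vertex → ℝ, (∀ w ∉ A, w ∈ Z₀ → f w = 0) ∧ (∀ w ∉ A, w ∈ Z₁ → f w = T) ∧
      (toFMap q).en {e | q.tail e ∈ K} (fun e => f (q.tail e)) ≤ ND.lenergy t N g := by
  classical
  obtain ⟨f, hf, hf'⟩ : ∃ f : q.Vertex → ℝ, (∀ x, f (ι x) = max 0 (min T (g x))) ∧
      ∀ w ∉ A, f w = if w ∈ Z₀ then 0 else T :=
    ⟨Function.extend ι (fun x => max 0 (min T (g x))) fun w => if w ∈ Z₀ then 0 else T,
      fun x => H.ι_inj.extend_apply _ _ x, fun w hw => Function.extend_apply' _ _ _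
        fun ⟨x, hx⟩ => hw (hx ▸ H.mem x)⟩
  have f0 : ∀ w ∉ A, w ∈ Z₀ → f w = 0 := fun w hw h => by rw [hf' w hw, if_pos h]
  have f1 : ∀ w ∉ A, w ∈ Z₁ → f w = T := fun w hw h => by
    rw [hf' w hw, if_neg fun h' => hZ w h' h]
  have key : ∀ e, q.head e ∈ K → q.head e ∉ A → f (q.head e) = f (q.tail e) := by
    intro e he he'
    by_cases ht : q.tail e ∈ A
    · obtain ⟨p, hp, hp'⟩ := H.out_bd e ht he'
      rcases h2 e he he' with ⟨k1, k2⟩ | ⟨k1, k2⟩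
      · rw [f0 _ he' k2, hp', hf, max_eq_left ((min_le_right _ _).trans (h3 p hp (hp' ▸ k1)))]
      · rw [f1 _ he' k2, hp', hf, min_eq_left (h4 p hp (hp' ▸ k1)), max_eq_right hT]
    · rcases h2 e he he' with ⟨k1, k2⟩ | ⟨k1, k2⟩
      · rw [f0 _ he' k2, f0 _ ht k1]
      · rw [f1 _ he' k2, f1 _ ht k1]
  refine ⟨f, f0, f1, ?_⟩
  have e1 := Fintype.sum_of_injective θ H.θ_inj _
    (fun e => if q.tail e ∈ K ∧ q.head e ∈ K then (f (q.head e) - f (q.tail e)) ^ 2 else 0)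
    (fun e he => by
      split_ifs with h
      · rw [H.θ_range, not_and_or] at he
        rcases he with he | he
        · have := key (q.α e) (by rw [head_α]; exact h.1) (by rw [head_α]; exact he)
          rw [head_α, tail_α] at this
          rw [this, sub_self, zero_pow two_ne_zero]
        · rw [key e h.2 he, sub_self, zero_pow two_ne_zero]
      · rfl) fun _ => rfl
  have e2 : (toFMap q).en {e | q.tail e ∈ K} (fun e => f (q.tail e)) = 1 / 2 *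
      ∑ e, if q.tail e ∈ K ∧ q.head e ∈ K then (f (q.head e) - f (q.tail e)) ^ 2 else 0 := by
    unfold FMap.en
    congr
  rw [e2, ← e1, ND.lenergy, one_div_mul_eq_div]
  refine div_le_div_of_nonneg_right (Finset.sum_le_sum fun d _ => ?_) zero_le_two
  rw [H.tail, H.head]
  split_ifs with k1 k2
  · rw [hf, hf]
    exact n1_clamp _ _ _
  · exact absurd ⟨h1 _ k1.1, h1 _ k1.2⟩ k2
  · positivity
  · exact le_rfl

end Pool.Agent.QL.LC
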