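import Pool.Agent.P.MP_7a6434d8_pr.QL.C.Stmts
import Pool.Agent.P.MP_7a6434d8_pr.QL.M2.Ball
import Pool.Agent.P.MP_7a6434d8_pr.QL.M2.Dist

/-! Block N1: geodesics, the hole of one ball. -/

open Set Filter Topology Relation
open scoped ENNReal unitInterval

namespace Pool.Agent.QL.LC

open Pool.Agent.LGD Pool.Agent.P.MP_7a6434d8_pr Pool.Agent.P.MP_7a6434d8_pr.Mp

section Rel

variable {X : Type} {R : X → X → Prop} {P : X → Prop} {u v : X}

theorem n1_last (h : ReflTransGen (fun x y => R x y ∧ P y) u v) (hu : P u) : P v := by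
  induction h with
  | refl => exact hu
  | tail _ h _ => exact h.2

theorem n1_rev (hR : ∀ x y, R x y → R y x) (h : ReflTransGen (fun x y => R x y ∧ P y) u v)
    (hu : P u) : ReflTransGen (fun x y => R x y ∧ P y) v u := by
  induction h with
  | refl => exact .refl
  | tail h0 h ih => exact .head ⟨hR _ _ h.1, n1_last h0 hu⟩ ih

theorem n1_mono {Q : X → Prop} (h : ReflTransGen (fun x y => R x y ∧ P y) u v)
    (hQ : ∀ y, P y → Q y) : ReflTransGen (fun x y => R x y ∧ Q y) u v :=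
  ReflTransGen.mono (fun _ _ h => ⟨h.1, hQ _ h.2⟩) _ _ h

end Rel

variable {n : ℕ} {q : Quad n}

theorem n1_tri (q : Quad n) (x y z : q.Vertex) :
    q.graph.dist x z ≤ q.graph.dist x y + q.graph.dist y z := (graph_connected q).dist_triangle

theorem n1_adj {x y : q.Vertex} (h : q.graph.Adj x y) : q.graph.dist x y = 1 :=
  SimpleGraph.dist_eq_one_iff_adj.2 h

theorem n1_succ {u c : q.Vertex} {m : ℕ} (h : q.graph.dist u c = m + 1) :
    ∃ u', q.graph.Adj u u' ∧ q.graph.dist u' c = m := by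
  obtain ⟨w, hw⟩ := (graph_connected q).exists_walk_length_eq_dist u c
  cases w with
  | nil => simp at h
  | @cons _ u' _ ha w =>
    refine ⟨u', ha, le_antisymm ?_ ?_⟩
    · have := SimpleGraph.dist_le w
      rw [SimpleGraph.Walk.length_cons] at hw
      omega
    · have := n1_tri q u u' c
      rw [n1_adj ha] at this
      omega

/-- The point at distance `j` on a geodesic. -/
theorem n1_geo (w c : q.Vertex) {j : ℕ} (hj : j ≤ q.graph.dist w c) :
    ∃ u, q.graph.dist u c + j = q.graph.dist w c ∧ q.graph.dist w u ≤ j ∧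
      ReflTransGen (fun x y => q.graph.Adj x y ∧ q.graph.dist w y ≤ j) w u := by
  induction j with
  | zero => exact ⟨w, rfl, SimpleGraph.dist_self.le, .refl⟩
  | succ j ih =>
    obtain ⟨u, h1, h2, h3⟩ := ih (by omega)
    obtain ⟨u', h4, h5⟩ := n1_succ (u := u) (c := c) (m := q.graph.dist u c - 1) (by omega)
    have h6 := n1_tri q w u u'
    rw [n1_adj h4] at h6
    exact ⟨u', by omega, by omega,
      (n1_mono h3 fun _ h => h.trans j.le_succ).tail ⟨h4, by omega⟩⟩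

theorem n1_geo' (w c : q.Vertex) :
    ReflTransGen (fun x y => q.graph.Adj x y ∧ q.graph.dist w y ≤ q.graph.dist w c) w c := by
  obtain ⟨u, h1, -, h3⟩ := n1_geo w c le_rfl
  rwa [((graph_connected q).dist_eq_zero_iff (u := u) (v := c)).1 (by omega)] at h3

variable {S : ℕ → q.Vertex} {i ϱ t₀ : ℕ} {t : Mp} {θ : Dt t → Fin (4 * n)} {ι : V t → q.Vertex}

theorem n1_inBall {w : q.Vertex} : InBall q S [(i, ϱ)] w ↔ q.graph.dist (S i) w ≤ ϱ := by
  simp [InBall]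

theorem n1_out {w : q.Vertex} (h : w ∈ VO q S [(i, ϱ)] t₀) : ϱ < q.graph.dist (S i) w :=
  not_le.1 fun h' => n1_last (P := fun w => ¬ InBall q S [(i, ϱ)] w) h.2 h.1 (n1_inBall.2 h')

theorem n1_step {w w' : q.Vertex} (h : w ∈ VO q S [(i, ϱ)] t₀) (ha : q.graph.Adj w w')
    (h' : ϱ < q.graph.dist (S i) w') : w' ∈ VO q S [(i, ϱ)] t₀ :=
  ⟨h.1, h.2.tail ⟨ha, fun h1 => absurd (n1_inBall.1 h1) (not_le.2 h')⟩⟩

/-- Geodesics that cannot reach the ball lift to the hole. -/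
theorem n1_lift (H : SubQ q (VO q S [(i, ϱ)] t₀) t θ ι) (y₀ : V t) (w : q.Vertex)
    (h : ϱ + q.graph.dist (ι y₀) w < q.graph.dist (S i) (ι y₀)) :
    ∃ y, ι y = w ∧ dW t y₀ y ≤ q.graph.dist (ι y₀) w ∧
      ReflTransGen (fun x y => adj t x y ∧ dW t y₀ y ≤ q.graph.dist (ι y₀) w) y₀ y := by
  have key : ∀ j ≤ q.graph.dist (ι y₀) w, ∃ y, q.graph.dist (ι y) w + j = q.graph.dist (ι y₀) w ∧
      dW t y₀ y ≤ j ∧ ReflTransGen (fun x y => adj t x y ∧ dW t y₀ y ≤ j) y₀ y := by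
    intro j hj
    induction j with
    | zero => exact ⟨y₀, rfl, (M2.dW_self y₀).le, .refl⟩
    | succ j ih =>
      obtain ⟨y, h1, h2, h3⟩ := ih (by omega)
      obtain ⟨u', h4, h5⟩ := n1_succ (u := ι y) (c := w) (m := q.graph.dist (ι y) w - 1)
        (by omega)
      have h6 := n1_tri q (S i) u' (ι y₀)
      have h7 := n1_tri q (ι y₀) (ι y) u'
      have h8 := H.dist_le y₀ y
      rw [n1_adj h4, SimpleGraph.dist_comm] at h7
      obtain ⟨y', rfl⟩ := H.ex (n1_step (H.mem y) h4 (by omega))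
      have h9 := (H.adj_iff _ _).2 h4
      have h10 := M2.dW_step H.ok y₀ h9
      exact ⟨y', by omega, by omega,
        (n1_mono h3 fun _ h => h.trans j.le_succ).tail ⟨h9, by omega⟩⟩
  obtain ⟨y, h1, h2, h3⟩ := key _ le_rfl
  exact ⟨y, ((graph_connected q).dist_eq_zero_iff (u := ι y) (v := w)).1 (by omega), h2, h3⟩

theorem n1_dW_bv (ht : ok t) {p j : ℕ} (h : p + j ≤ 2 * per t) :
    dW t (bv t p) (bv t (p + j)) ≤ j := by
  induction j with
  | zero => exact (M2.dW_self _).le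
  | succ j ih =>
    exact (M2.dW_step ht _ (adj_bv t ht (p + j) (by omega))).trans
      (Nat.add_le_add_right (ih (by omega)) 1)

/-- Boundary vertices are close to the ball. -/
theorem n1_bd (H : SubQ q (VO q S [(i, ϱ)] t₀) t θ ι) {p : ℕ} (hp : p + 4 < 2 * per t) :
    q.graph.dist (S i) (ι (bv t p)) ≤ ϱ + 5 := by
  obtain ⟨j, hj, e, h1, h2⟩ := H.bd_out p (by omega)
  rw [Nat.mod_eq_of_lt (by omega)] at h1
  have h3 : q.tail e ∈ VO q S [(i, ϱ)] t₀ := h1 ▸ H.mem _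
  have h4 : q.graph.Adj (q.tail e) (q.head e) := agreen_adj q fun h => h2 (h ▸ h3)
  have h5 : q.graph.dist (S i) (q.head e) ≤ ϱ := not_lt.1 fun h => h2 (n1_step h3 h4 h)
  have h6 := (H.dist_le _ _).trans (n1_dW_bv H.ok (p := p) (j := j) (by omega))
  have h7 := n1_tri q (S i) (q.head e) (q.tail e)
  have h8 := n1_tri q (S i) (q.tail e) (ι (bv t p))
  rw [n1_adj h4.symm] at h7
  rw [← h1, SimpleGraph.dist_comm] at h6
  omega

section Net

variable {b : Base} {r : ℕ → RZ} {H : HS} {r₀ : ℚ} {g : GC} {ρ : I} {ℓ a₀ : ℝ}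
  {D : Sph → Sph → ℝ} {x : ℕ → ℂ} {p : ∀ k, (r k).q.Vertex → ℂ}

/-- The integer radius of the ball. -/
noncomputable def n1R (b : Base) (r : ℕ → RZ) (r₀ : ℚ) (k : ℕ) : ℕ :=
  ⌊(r₀ : ℝ) * (1 + ((r k).ρ : ℝ)) / b.δ k⌋₊

theorem n1_small (b : Base) {ε : ℝ} (hε : 0 < ε) : ∀ᶠ k in (b.U : Filter ℕ), b.δ k ≤ ε :=
  b.δ_lim.eventually (ge_mem_nhds hε)

theorem n1_rad (hr : 0 < r₀) (h : HoleOK b r H (one r₀) g ρ ℓ a₀) {ε : ℝ} (hε : 0 < ε) :
    ∀ᶠ k in (b.U : Filter ℕ), |b.δ k * n1R b r r₀ k - r₀ * (1 + (ρ : ℝ))| ≤ ε := by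
  have h1 : Tendsto (fun k => (r₀ : ℝ) * (1 + ((r k).ρ : ℝ))) b.U (𝓝 (r₀ * (1 + (ρ : ℝ)))) :=
    (((continuous_subtype_val.tendsto ρ).comp h.rho).const_add 1).const_mul _
  filter_upwards [n1_small b (half_pos hε), Metric.tendsto_nhds.1 h1 _ (half_pos hε)] with k h2 h3
  have hδ := b.δ_pos k
  have h0 : (0 : ℝ) ≤ r₀ * (1 + ((r k).ρ : ℝ)) / b.δ k := by
    have := (r k).ρ.2.1
    positivity
  have h4 := Nat.floor_le h0
  have h5 := Nat.lt_floor_add_one ((r₀ : ℝ) * (1 + ((r k).ρ : ℝ)) / b.δ k)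
  rw [le_div_iff₀ hδ] at h4
  rw [div_lt_iff₀ hδ] at h5
  rw [Real.dist_eq, abs_lt] at h3
  rw [abs_le, n1R]
  constructor <;> nlinarith [h3.1, h3.2]

theorem n1_sub (h : HoleOK b r H (one r₀) g ρ ℓ a₀) : ∀ᶠ k in (b.U : Filter ℕ),
    SubQ (r k).q (VO (r k).q (r k).S [(1, n1R b r r₀ k)] 0) ((r k).W H (b.δ k) (one r₀))
      ((H.1 (r k).n).θ (r k).q _) ((r k).ι H (b.δ k) (one r₀)) :=
  h.ev.mono fun k hk => (H.2 (r k).n).sub _ _ _ _ hk

theorem n1_ctr (hP : Pos b r D x p) (i : ℕ) {ε : ℝ} (hε : 0 < ε) : ∀ᶠ k in (b.U : Filter ℕ),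
    ∀ w, |b.δ k * (r k).q.graph.dist ((r k).S i) w - D (x i) (p k w)| ≤ ε := by
  filter_upwards [hP.dist _ (half_pos hε), (hP.smp i).eventually (ge_mem_nhds (half_pos hε))]
    with k h1 h2 w
  have h3 := abs_le.1 (h1 ((r k).S i) w)
  have h4 := hP.met.triangle (x i) (p k ((r k).S i)) (p k w)
  have h5 := hP.met.triangle (p k ((r k).S i)) (x i) (p k w)
  rw [hP.met.symm (p k ((r k).S i)) (x i)] at h5
  rw [abs_le]
  constructor <;> linarith [h3.1, h3.2]

theorem n1_smp (hP : Pos b r D x p) (i j : ℕ) {ε : ℝ} (hε : 0 < ε) : ∀ᶠ k in (b.U : Filter ℕ),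
    |b.δ k * (r k).q.graph.dist ((r k).S i) ((r k).S j) - D (x i) (x j)| ≤ ε := by
  filter_upwards [n1_ctr hP i (half_pos hε), (hP.smp j).eventually (ge_mem_nhds (half_pos hε))]
    with k h1 h2
  have h3 := abs_le.1 (h1 ((r k).S j))
  have h4 := hP.met.triangle (x i) (p k ((r k).S j)) (x j)
  have h5 := hP.met.triangle (x i) (x j) (p k ((r k).S j))
  rw [hP.met.symm (p k ((r k).S j)) (x j)] at h4
  rw [abs_le]
  constructor <;> linarith [h3.1, h3.2]

end Net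

end Pool.Agent.QL.LC
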