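import Pool.Agent.P.MP_7a6434d8_pr.QL.C.Api
import Pool.Agent.P.MP_7a6434d8_pr.QL.C.Hat
import Pool.Agent.P.MP_7a6434d8_pr.QL.C.Meas
import Pool.Agent.P.MP_7a6434d8_pr.QL.C.HS
import Pool.Agent.P.MP_7a6434d8_pr.QL.Sph.Geo

/-! Block REG: local data, rings of balls, conditional probabilities. -/

open MeasureTheory ProbabilityTheory Set Filter Topology Metric
open scoped ENNReal unitInterval

namespace Pool.Agent.QL.LC

open Pool.Agent.LGD Pool.Agent.P.MP_7a6434d8_pr Pool.Agent.P.MP_7a6434d8_pr.Mp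

/-- distances, distances to the complement, positions, mass -/
abbrev LD : Type := (ℕ → ℕ → ℝ≥0∞) × (ℕ → ℝ≥0∞) × (ℕ → ℂ) × ℝ≥0∞

/-- Relabelling of the centre of a ball. -/
def rl (g : ℕ → ℕ) (c : ℕ × ℚ) : ℕ × ℚ := (g c.1, c.2)

/-- Relabelling of a family of balls with its target. -/
def rgMap (g : ℕ → ℕ) (α : Rg) : Rg := (α.1.map (rl g), g α.2)

/-- The hole of `α` contains the samples in `C` and does not see distances beyond `e`. -/
structure Ev2 (𝒟 : ℕ → ℕ → ℝ≥0∞) (e : ℕ → ℝ≥0∞) (x : ℕ → ℂ) (C : Set ℂ) (α : Rg) (ρ : I) :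
    Prop where
  evI : EvI 𝒟 α ρ
  cen : ∀ c ∈ α.1, ∀ c' ∈ α.1, rd ρ c' ≤ e c.1
  far : ∀ a, inW 𝒟 α ρ a → ∀ c ∈ α.1, fB 𝒟 α.1 ρ a + rd ρ c < e a
  inn : ∀ a, x a ∈ C → inW 𝒟 α ρ a

/-- Distances of samples in a length space; `e` is at most the distance to the complement of
`U`. -/
structure SM (𝒟 : ℕ → ℕ → ℝ≥0∞) (e : ℕ → ℝ≥0∞) (x : ℕ → ℂ) (U : Set ℂ) : Prop where
  self : ∀ a, 𝒟 a a = 0
  symm : ∀ a b, 𝒟 a b = 𝒟 b a
  tri : ∀ a b c, 𝒟 a c ≤ 𝒟 a b + 𝒟 b c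
  fin : ∀ a b, 𝒟 a b ≠ ⊤
  mid : ∀ (a b : ℕ) (r r' : ℝ≥0∞), 0 < r → 0 < r' → 𝒟 a b < r + r' → ∃ c, 𝒟 a c < r ∧ 𝒟 c b < r'
  out : ∀ a j, 𝒟 a j < e a → x j ∈ U
  inf : {a | x a ∈ U}.Infinite

/-- Enumeration of the samples in `U`. -/
noncomputable def enU (x : ℕ → ℂ) (U : Set ℂ) : ℕ → ℕ := Nat.nth fun a => x a ∈ U

/-- Truncated distances of the samples in `U`. -/
noncomputable def locD (𝒟 : ℕ → ℕ → ℝ≥0∞) (e : ℕ → ℝ≥0∞) (x : ℕ → ℂ) (U : Set ℂ) (a b : ℕ) :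
    ℝ≥0∞ := min (𝒟 (enU x U a) (enU x U b)) (e (enU x U a))

/-- The event `Ev2` for the samples in `U`. -/
def EvL (𝒟 : ℕ → ℕ → ℝ≥0∞) (e : ℕ → ℝ≥0∞) (x : ℕ → ℂ) (U C : Set ℂ) (α : Rg) (ρ : I) : Prop :=
  Ev2 (locD 𝒟 e x U) (fun a => e (enU x U a)) (thinIn U x) C α ρ

open Classical in
/-- Energies of ball data read from the energy code of the hole. -/
noncomputable def Eloc (𝒟 : ℕ → ℕ → ℝ≥0∞) (α : Rg) (ρ : I) (e' : EC) : EC := fun x =>
  if ∀ c ∈ x.2.balls, inW 𝒟 α ρ c.1 ∧ ENNReal.ofReal (4 * c.2) ≤ fB 𝒟 α.1 ρ c.1 then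
    (1 - e' (x.1, x.2.map (rl (Nat.count (inW 𝒟 α ρ)))))⁻¹ - 1 else 0

/-- `C` is surrounded by the connected frontier of `O` inside `U`. -/
structure Ring (C O U : Set ℂ) : Prop where
  cC : IsCompact C
  pC : IsPreconnected C
  iC : (interior C).Nonempty
  oO : IsOpen O
  CO : C ⊆ O
  cO : IsCompact (closure O)
  OU : closure O ⊆ U
  pO : IsPreconnected (frontier O)
  oU : IsOpen U

theorem Ring.CU {C O U : Set ℂ} (h : Ring C O U) : C ⊆ U := h.CO.trans (subset_closure.trans h.OU)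

/-- The conditional probability of `E` read from local data. -/
noncomputable def rgPsi (K : Kernel G0 EC) (C : Set ℂ) (E : Set Sys) (z : LD × I) : ℝ≥0∞ :=
  ⨆ (α : Rg) (_ : Ev2 z.1.1 z.1.2.1 z.1.2.2.1 C α z.2),
    K (Gam (z.1.2.2.2, z.1.1) α z.2) {e | sys z.1.2.2.1 z.1.1 (Eloc z.1.1 α z.2 e) ∈ E}

namespace Setup

variable (S : Setup)

/-- Local data read from the field. -/
noncomputable def yk (U : Set ℂ) (k : Dist) (x : ℕ → ℂ) : LD :=
  (fun a b => S.O.jt U k (x a) (x b), fun a => S.O.je U k (x a), x, 9 / 8 * S.O.zm U k)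

/-- Positions in the frame. -/
noncomputable def xF (F : Fr) (m : S.X) (a : ℕ) : ℂ := F.inv (m.2 a)

/-- Distances to the complement of the image of `U`. -/
noncomputable def eF (F : Fr) (U : Set ℂ) (m : S.X) (a : ℕ) : ℝ≥0∞ :=
  ex (gam / 4 * m.1.1) * dOut (S.d m.1.2) (m.2 a) (F.map '' U)

/-- Conditional probability of an event of the system. -/
noncomputable def chi (Q : Measure C0) [IsFiniteMeasure Q] (F : Fr) (E : Set Sys) (m : S.X) :
    ℝ≥0∞ := condDistrib id Prod.fst Q (S.ginf m) {c | pull F (S.sysOf m c) ∈ E}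

/-- The event `E` has a conditional probability that is local in `U`, and is conditionally
independent of the events outside `U`. -/
def CoreAE (b : Base) (U : Set ℂ) (E : Set Sys) : Prop :=
  ∃ G : Dist → ℝ≥0∞, Loc U G ∧
    ∀ (w : World b) (Q : Measure C0) [IsProbabilityMeasure Q], w.Lim (code0 b) Q →
      ∀ F : Fr, F.Adm → ∀ V : Set ℂ, Disjoint U V → ∀ E', MeasurableSet[SS V] E' →
        ∀ᵐ m ∂S.M w.ϑ, S.chi Q F (E ∩ E') m = G (S.fld F m.1) * S.chi Q F E' m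

theorem measurableSet_sysEv (F : Fr) {E : Set Sys} (hE : MeasurableSet E) :
    MeasurableSet {z : S.X × C0 | pull F (S.sysOf z.1 z.2) ∈ E} :=
  ((measurable_pull F).comp S.measurable_sysOf) hE

theorem measurableSet_sysEv' (F : Fr) {E : Set Sys} (hE : MeasurableSet E) (m : S.X) :
    MeasurableSet {c : C0 | pull F (S.sysOf m c) ∈ E} :=
  measurable_prodMk_left (S.measurableSet_sysEv F hE)

theorem measurable_chi (Q : Measure C0) [IsFiniteMeasure Q] (F : Fr) {E : Set Sys}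
    (hE : MeasurableSet E) : Measurable (S.chi Q F E) :=
  Kernel.measurable_kernel_prodMk_left
    (κ := (condDistrib id Prod.fst Q).comap S.ginf S.measurable_ginf) (S.measurableSet_sysEv F hE)

theorem ae_M_iter {ϑ : Measure ℝ} [IsProbabilityMeasure ϑ] {p : S.X → Prop}
    (h : ∀ᵐ m ∂S.M ϑ, p m) : ∀ᵐ q ∂ϑ.prod S.P, ∀ᵐ x ∂iid (S.O.κ q.2), p (q, x) :=
  Measure.ae_ae_of_ae_compProd h

theorem ae_M_of_iter {ϑ : Measure ℝ} [IsProbabilityMeasure ϑ] {p : S.X → Prop}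
    (hp : MeasurableSet {m | p m}) (h : ∀ᵐ q ∂ϑ.prod S.P, ∀ᵐ x ∂iid (S.O.κ q.2), p (q, x)) :
    ∀ᵐ m ∂S.M ϑ, p m :=
  (Measure.ae_compProd_iff hp).2 h

theorem ae_kc {ϑ : Measure ℝ} [IsProbabilityMeasure ϑ] {Q : Measure C0} [IsProbabilityMeasure Q]
    {p : S.X × C0 → Prop} (h : ∀ᵐ z ∂S.hat ϑ Q Prod.fst, p z) :
    ∀ᵐ m ∂S.M ϑ, ∀ᵐ c ∂condDistrib id Prod.fst Q (S.ginf m), p (m, c) :=
  Measure.ae_ae_of_ae_compProd h

end Setup

theorem rg_agree {U : Set ℂ} {E : Set Sys} (hE : MeasurableSet[SS U] E) {s s' : Sys}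
    (h : ∀ i : Idx, closure i.1.1 ⊆ U → s.1 i = s'.1 i ∧ s.2 i = s'.2 i) : s ∈ E ↔ s' ∈ E := by
  have hm : @Measurable Bool Sys ⊥ (SS U) fun b => if b then s else s' :=
    measurable_toSS fun i hi => by
      have e : (fun b : Bool => ((if b then s else s').1 i, (if b then s else s').2 i)) =
          fun _ => (s.1 i, s.2 i) := by
        funext b
        cases b
        · exact Prod.ext (h i hi).1.symm (h i hi).2.symm
        · rfl
      rw [e]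
      exact measurable_const
  rcases MeasurableSpace.measurableSet_bot_iff.1 (hm hE) with e | e
  · exact iff_of_false (fun hk => (e ▸ hk : true ∈ (∅ : Set Bool)))
      fun hk => (e ▸ hk : false ∈ (∅ : Set Bool))
  · exact iff_of_true (e.ge (mem_univ true)) (e.ge (mem_univ false))

end Pool.Agent.QL.LC
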