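import Pool.Agent.P.MP_7a6434d8_pr.QL.C.RegDefs

/-! Block REG: frequencies. -/

open MeasureTheory ProbabilityTheory Set Filter Topology Metric
open scoped ENNReal unitInterval

namespace Pool.Agent.QL.LC

open Pool.Agent.LGD Pool.Agent.P.MP_7a6434d8_pr Pool.Agent.P.MP_7a6434d8_pr.Mp

open Classical in
theorem rg_slln {X : Type} [MeasurableSpace X] (μ : Measure X) [IsProbabilityMeasure μ]
    {A : Set X} (hA : MeasurableSet A) : ∀ᵐ x ∂iid μ,
    Tendsto (fun M : ℕ => (Nat.count (fun a => x a ∈ A) M : ℝ≥0∞) / M) atTop (𝓝 (μ A)) := by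
  set g : X → ℝ := A.indicator 1 with hg
  have hgm : Measurable g := measurable_one.indicator hA
  have hev : ∀ i : ℕ, MeasurePreserving (fun x : ℕ → X => x i) (iid μ) μ := fun i =>
    measurePreserving_eval_infinitePi (fun _ : ℕ => μ) i
  have hgi : Integrable g μ := (integrable_const 1).indicator hA
  have hind : iIndepFun (fun (i : ℕ) (x : ℕ → X) => g (x i)) (iid μ) :=
    iIndepFun_infinitePi (P := fun _ : ℕ => μ) (X := fun _ => g) fun _ => hgm
  have hid : ∀ i : ℕ, IdentDistrib (fun x : ℕ → X => g (x i)) g (iid μ) μ := fun i =>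
    IdentDistrib.comp (f := fun x : ℕ → X => x i) (g := id)
      ⟨(hev i).measurable.aemeasurable, aemeasurable_id, by rw [(hev i).map_eq, Measure.map_id]⟩
      hgm
  have h := strong_law_ae_real (μ := iid μ) (fun (i : ℕ) (x : ℕ → X) => g (x i))
    ((hid 0).integrable_iff.2 hgi) (fun i j hij => hind.indepFun hij)
    fun i => (hid i).trans (hid 0).symm
  have hint : ∫ x, g (x 0) ∂iid μ = μ.real A := by
    rw [(hid 0).integral_eq, hg, integral_indicator_one hA]
  filter_upwards [h] with x hx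
  rw [hint] at hx
  have h1 := ENNReal.tendsto_ofReal hx
  rw [ofReal_measureReal] at h1
  refine h1.congr' ?_
  filter_upwards [eventually_gt_atTop 0] with M hM
  have h2 : ∑ i ∈ Finset.range M, g (x i) = (Nat.count (fun a => x a ∈ A) M : ℝ) := by
    rw [Nat.count_eq_card_filter_range, Finset.card_filter]
    push_cast
    refine Finset.sum_congr rfl fun i _ => ?_
    simp [hg, indicator_apply]
  rw [h2, ENNReal.ofReal_div_of_pos (by exact_mod_cast hM), ENNReal.ofReal_natCast,
    ENNReal.ofReal_natCast]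

open Classical in
theorem rgfreq_count {P : ℕ → Prop} (hP : {a | P a}.Infinite) (p : ℕ → Prop) (M : ℕ) :
    Nat.count (fun j => ∃ b, Nat.nth P b = j ∧ p b) M = Nat.count p (Nat.count P M) := by
  induction M with
  | zero => simp
  | succ M ih =>
    rw [Nat.count_succ, Nat.count_succ P, ih]
    by_cases h : P M
    · rw [if_pos h, Nat.count_succ]
      congr 1
      refine if_congr ⟨?_, fun h' => ⟨_, Nat.nth_count h, h'⟩⟩ rfl rfl
      rintro ⟨b, rfl, hb⟩
      rwa [Nat.count_nth_of_infinite hP]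
    · rw [if_neg h, if_neg, add_zero, add_zero]
      rintro ⟨b, rfl, -⟩
      exact h (Nat.nth_mem_of_infinite hP b)

open Classical in
theorem rgfreq_map {P : ℕ → Prop} (hP : {a | P a}.Infinite) :
    map (Nat.count P) atTop = atTop := by
  refine le_antisymm (tendsto_atTop_atTop_of_monotone (Nat.count_monotone P) fun b =>
    ⟨Nat.nth P b, (Nat.count_nth_of_infinite hP b).ge⟩) ?_
  have h1 : Tendsto (Nat.nth P) atTop atTop := (Nat.nth_strictMono hP).tendsto_atTop
  have h2 : (Nat.count P) ∘ (Nat.nth P) = id := funext (Nat.count_nth_of_infinite hP)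
  calc (atTop : Filter ℕ) = map (Nat.count P) (map (Nat.nth P) atTop) := by
        rw [map_map, h2, map_id]
    _ ≤ _ := map_mono h1

theorem rgfreq_le (p : ℕ → Prop) [DecidablePred p] (M : ℕ) :
    (Nat.count p M : ℝ≥0∞) / M ≤ 1 :=
  ENNReal.div_le_of_le_mul (by rw [one_mul]; exact_mod_cast Nat.count_le p)

open Classical in
theorem rg_freq {P : ℕ → Prop} (hP : {a | P a}.Infinite) {u : ℝ≥0∞}
    (hu : Tendsto (fun M : ℕ => (Nat.count P M : ℝ≥0∞) / M) atTop (𝓝 u)) (p : ℕ → Prop) :
    freq (fun j => ∃ b, Nat.nth P b = j ∧ p b) = u * freq p := by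
  set a : ℕ → ℝ≥0∞ := fun M => (Nat.count P M : ℝ≥0∞) / M with ha
  set b : ℕ → ℝ≥0∞ := fun M => (Nat.count p (Nat.count P M) : ℝ≥0∞) / (Nat.count P M : ℕ)
    with hb
  have h1 : limsup b atTop = freq p := by
    unfold freq
    conv_rhs => rw [← rgfreq_map hP, ← limsup_comp]
    rfl
  have h2 : freq (fun j => ∃ b, Nat.nth P b = j ∧ p b) = limsup (b * a) atTop := by
    unfold freq
    refine limsup_congr ?_
    have h3 : Tendsto (Nat.count P) atTop atTop := (rgfreq_map hP).le
    filter_upwards [h3.eventually_gt_atTop 0] with M hM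
    rw [rgfreq_count hP]
    simp only [ha, hb, Pi.mul_apply, div_eq_mul_inv]
    rw [mul_assoc, ← mul_assoc _ (Nat.count P M : ℝ≥0∞),
      ENNReal.inv_mul_cancel (by exact_mod_cast hM.ne') (by simp), one_mul]
  have h4 : u ≠ ∞ := ne_top_of_le_ne_top ENNReal.one_ne_top
    (le_of_tendsto' hu fun M => rgfreq_le P M)
  have h5 : limsup b atTop ≠ ∞ := ne_top_of_le_ne_top ENNReal.one_ne_top
    (limsup_le_of_le (h := Eventually.of_forall fun M => rgfreq_le p _))
  rw [h2, mul_comm u, ← h1]
  refine le_antisymm ?_ ?_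
  · have := ENNReal.limsup_mul_le' (u := b) (v := a) (f := atTop)
      (Or.inr (by rwa [hu.limsup_eq])) (Or.inl h5)
    rwa [hu.limsup_eq] at this
  · have := ENNReal.le_limsup_mul (u := b) (v := a) (f := atTop)
    rwa [hu.liminf_eq] at this

end Pool.Agent.QL.LC
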