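import Pool.Agent.P.MP_7a6434d8_pr.QL.C.RegDefs

/-! Block REG: exhaustion of convex sets, samples in a geodesic sphere, frames. -/

open MeasureTheory ProbabilityTheory Set Filter Topology Metric
open scoped ENNReal unitInterval

namespace Pool.Agent.QL.LC

open Pool.Agent.LGD Pool.Agent.P.MP_7a6434d8_pr Pool.Agent.P.MP_7a6434d8_pr.Mp

theorem rggeo_ring {U : Set ℂ} (hU : IsOpen U) (h : ℂ ≃ₜ ℂ) (hh : h ⁻¹' ball 0 1 = U)
    {r R : ℝ} (h0 : 0 < r) (h1 : r < R) (h2 : R < 1) :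
    Ring (h ⁻¹' closedBall 0 r) (h ⁻¹' ball 0 R) U := by
  have hR : R ≠ 0 := (h0.trans h1).ne'
  have hc : closure (h ⁻¹' ball 0 R) = h ⁻¹' closedBall 0 R := by
    rw [← h.preimage_closure, closure_ball _ hR]
  refine ⟨h.isCompact_preimage.2 (isCompact_closedBall _ _),
    h.isPreconnected_preimage.2 (convex_closedBall _ _).isPreconnected, ?_,
    isOpen_ball.preimage h.continuous, preimage_mono (closedBall_subset_ball h1), ?_, ?_, ?_, hU⟩
  · rw [← h.preimage_interior, interior_closedBall _ h0.ne']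
    exact ⟨h.symm 0, by simpa using h0⟩
  · rw [hc]
    exact h.isCompact_preimage.2 (isCompact_closedBall _ _)
  · rw [hc, ← hh]
    exact preimage_mono (closedBall_subset_ball h2)
  · rw [← h.preimage_frontier, frontier_ball _ hR]
    exact h.isPreconnected_preimage.2
      (isPreconnected_sphere (Complex.rank_real_complex ▸ Nat.one_lt_ofNat) _ _)

theorem rg_gauge {U : Set ℂ} (hU : Nice U) (hne : U.Nonempty) : ∃ C : ℕ → Set ℂ, Monotone C ∧
    (∀ n, ∃ O, Ring (C n) O U) ∧ ∀ K, IsCompact K → K ⊆ U → ∃ n, K ⊆ C n := by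
  obtain ⟨h, h1, -, -⟩ := exists_homeomorph_image_interior_closure_frontier_eq_unitBall hU.2.1
    (by rwa [hU.1.interior_eq]) (isBounded_ball.subset hU.2.2)
  rw [hU.1.interior_eq] at h1
  have hh : h ⁻¹' ball 0 1 = U := by rw [← h1, h.injective.preimage_image]
  refine ⟨fun n => h ⁻¹' closedBall 0 (1 - 1 / ((n : ℝ) + 2)), fun m n hmn => ?_, fun n => ?_,
    fun K hK hKU => ?_⟩
  · refine preimage_mono (closedBall_subset_closedBall ?_)
    have : (m : ℝ) ≤ n := by exact_mod_cast hmn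
    have := one_div_le_one_div_of_le (by positivity : (0 : ℝ) < m + 2) (by linarith : (m : ℝ) + 2 ≤ n + 2)
    linarith
  · have hn : (0 : ℝ) ≤ n := Nat.cast_nonneg n
    refine ⟨_, rggeo_ring hU.1 h hh (R := 1 - 1 / ((n : ℝ) + 3)) ?_ ?_ ?_⟩
    · have := one_div_le_one_div_of_le (by norm_num : (0 : ℝ) < 2) (by linarith : 2 ≤ (n : ℝ) + 2)
      linarith
    · have := one_div_lt_one_div_of_lt (by positivity : (0 : ℝ) < n + 2)
        (by linarith : (n : ℝ) + 2 < n + 3)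
      linarith
    · have : 0 < 1 / ((n : ℝ) + 3) := by positivity
      linarith
  · rcases K.eq_empty_or_nonempty with rfl | hKn
    · exact ⟨0, empty_subset _⟩
    obtain ⟨z, hz, hm⟩ := hK.exists_isMaxOn hKn (h.continuous.norm).continuousOn
    have hz1 : ‖h z‖ < 1 := by
      have := hKU hz
      rw [← hh] at this
      exact mem_ball_zero_iff.1 this
    obtain ⟨n, hn⟩ := exists_nat_one_div_lt (sub_pos.2 hz1)
    refine ⟨n, fun y hy => mem_closedBall_zero_iff.2 ?_⟩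
    have h3 : ‖h y‖ ≤ ‖h z‖ := hm hy
    have := one_div_le_one_div_of_le (by positivity : (0 : ℝ) < n + 1)
      (by linarith : (n : ℝ) + 1 ≤ n + 2)
    linarith

theorem rg_inf {x : ℕ → ℂ} (hx : DenseRange x) {W : Set ℂ} (hW : IsOpen W) (hne : W.Nonempty) :
    {a | x a ∈ W}.Infinite := by
  intro hf
  have h1 : (x '' {a | x a ∈ W}).Finite := hf.image x
  obtain ⟨w, hw⟩ := hne
  have h2 : (W \ x '' {a | x a ∈ W}).Nonempty :=
    ((infinite_of_mem_nhds w (hW.mem_nhds hw)).sdiff h1).nonempty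
  obtain ⟨a, ha⟩ := hx.exists_mem_open (hW.sdiff h1.isClosed) h2
  exact ha.2 ⟨a, ha.1, rfl⟩

theorem rggeo_mid {D : Sph → Sph → ℝ} (hD : IsGeoMetric D) {x : ℕ → ℂ} (hx : DenseRange x)
    (a b : Sph) {u v : ℝ} (hu : 0 < u) (hv : 0 < v) (h : D a b < u + v) :
    ∃ c, D a (x c) < u ∧ D (x c) b < v := by
  obtain ⟨g, g0, g1, hg⟩ := hD.geo a b
  have hd : DenseRange ((fun z : ℂ => (z : Sph)) ∘ x) :=
    OnePoint.denseRange_coe.comp hx OnePoint.continuous_coe
  have ho : IsOpen ({y | D a y < u} ∩ {y | D b y < v}) :=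
    (isOpen_lt (hD.sph_cont a) continuous_const).inter (isOpen_lt (hD.sph_cont b) continuous_const)
  have huv : 0 < u + v := add_pos hu hv
  have t0 : 0 < u / (u + v) := div_pos hu huv
  have t1 : u / (u + v) < 1 := (div_lt_one huv).2 (by linarith)
  have ht : u / (u + v) ∈ Icc (0 : ℝ) 1 := ⟨t0.le, t1.le⟩
  have e1 : u / (u + v) * (u + v) = u := div_mul_cancel₀ _ huv.ne'
  obtain ⟨c, h1, h2⟩ := hd.exists_mem_open ho ⟨g (u / (u + v)), by
    have := hg 0 ⟨le_rfl, zero_le_one⟩ _ ht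
    rw [g0, zero_sub, abs_neg, abs_of_pos t0] at this
    show D a _ < u
    rw [this]
    nlinarith, by
    have := hg 1 ⟨zero_le_one, le_rfl⟩ _ ht
    rw [g1, abs_of_pos (sub_pos.2 t1)] at this
    show D b _ < v
    rw [this]
    nlinarith⟩
  exact ⟨c, h1, by rw [hD.symm]; exact h2⟩

theorem rg_sm {D : Sph → Sph → ℝ} {x : ℕ → ℂ} {U : Set ℂ} (hD : IsGeoMetric D) (hx : DenseRange x)
    (hU : IsOpen U) (hne : U.Nonempty) :
    SM (fun a b => ENNReal.ofReal (D (x a) (x b))) (fun a => dOut D (x a) U) x U := by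
  refine ⟨fun a => ?_, fun a b => ?_, fun a b c => ?_, fun a b => ENNReal.ofReal_ne_top,
    fun a b r r' hr hr' h => ?_, fun a j h => ?_, rg_inf hx hU hne⟩
  · rw [hD.sph_self, ENNReal.ofReal_zero]
  · rw [hD.symm]
  · exact (ENNReal.ofReal_le_ofReal (hD.triangle _ _ _)).trans ENNReal.ofReal_add_le
  · by_cases e1 : r = ⊤
    · refine ⟨b, e1 ▸ ENNReal.ofReal_lt_top, ?_⟩
      rwa [hD.sph_self, ENNReal.ofReal_zero]
    by_cases e2 : r' = ⊤
    · refine ⟨a, ?_, e2 ▸ ENNReal.ofReal_lt_top⟩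
      rwa [hD.sph_self, ENNReal.ofReal_zero]
    have k1 := ENNReal.toReal_pos hr.ne' e1
    have k2 := ENNReal.toReal_pos hr'.ne' e2
    have k3 : D (x a) (x b) < r.toReal + r'.toReal := by
      rw [← ENNReal.toReal_add e1 e2]
      exact (ENNReal.ofReal_lt_iff_lt_toReal (hD.sph_nonneg _ _) (ENNReal.add_ne_top.2 ⟨e1, e2⟩)).1 h
    obtain ⟨c, c1, c2⟩ := rggeo_mid hD hx _ _ k1 k2 k3
    exact ⟨c, (ENNReal.ofReal_lt_iff_lt_toReal (hD.sph_nonneg _ _) e1).2 c1,
      (ENNReal.ofReal_lt_iff_lt_toReal (hD.sph_nonneg _ _) e2).2 c2⟩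
  · by_contra hn
    have h2 : dOut D (x a) U ≤ ENNReal.ofReal (D (x a) (x j)) := by
      refine iInf₂_le ((x j : ℂ) : Sph) ?_
      rintro ⟨z, hz, e⟩
      exact hn (OnePoint.coe_injective e ▸ hz)
    exact absurd h (not_lt.2 h2)

theorem rggeo_pull {d : Sph → Sph → ℝ} (hd : IsGeoMetric d) (φ : Sph ≃ₜ Sph) {c : ℝ}
    (hc : 0 < c) : IsGeoMetric fun y y' => c * d (φ y) (φ y') := by
  refine ⟨fun y y' => by rw [hd.symm], fun y y' z => ?_, fun y y' => ?_, ?_, fun y y' => ?_⟩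
  · rw [← mul_add]
    exact mul_le_mul_of_nonneg_left (hd.triangle _ _ _) hc.le
  · rw [mul_eq_zero, or_iff_right hc.ne', hd.eq_iff, φ.injective.eq_iff]
  · exact continuous_const.mul (hd.cont.comp
      ((φ.continuous.comp continuous_fst).prodMk (φ.continuous.comp continuous_snd)))
  · obtain ⟨g, g0, g1, hg⟩ := hd.geo (φ y) (φ y')
    refine ⟨fun s => φ.symm (g s), by simp only [g0, φ.symm_apply_apply],
      by simp only [g1, φ.symm_apply_apply], fun s hs t ht => ?_⟩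
    simp only [φ.apply_symm_apply, hg s hs t ht]
    ring

/-- the sampled sphere seen in a frame -/
theorem rg_frame (S : Setup) {m : S.X} (h : S.GoodPt m) (F : Fr) (U : Set ℂ) :
    ∃ D : Sph → Sph → ℝ, IsGeoMetric D ∧ DenseRange (S.xF F m) ∧
      (S.ginf m).2 = (fun a b => ENNReal.ofReal (D (S.xF F m a) (S.xF F m b))) ∧
      S.eF F U m = fun a => dOut D (S.xF F m a) U := by
  obtain ⟨φ, hφ⟩ : ∃ φ : Sph ≃ₜ Sph, ∀ z : ℂ, φ z = ((F.map z : ℂ) : Sph) :=
    ⟨(affH F.z F.a F.a_ne).onePointCongr, fun _ => rfl⟩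
  have hx : ∀ a, φ (S.xF F m a) = ((m.2 a : ℂ) : Sph) := fun a => by
    rw [hφ, Setup.xF, F.map_inv]
  have hc := Real.exp_pos (gam / 4 * m.1.1)
  refine ⟨fun y y' => Real.exp (gam / 4 * m.1.1) * S.d m.1.2 (φ y) (φ y'),
    rggeo_pull h.geo φ hc, ?_, ?_, ?_⟩
  · exact (Function.RightInverse.surjective F.inv_map).denseRange.comp h.dense F.continuous_inv
  · funext a b
    show ex (gam / 4 * m.1.1) * S.O.dJ m.1.2 (m.2 a) (m.2 b) = _
    beta_reduce
    rw [h.dJ, hx, hx, ENNReal.ofReal_mul hc.le]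
    rfl
  · funext a
    have hm : ∀ y : Sph, φ y ∉ (fun z : ℂ => (z : Sph)) '' (F.map '' U) ↔
        y ∉ (fun z : ℂ => (z : Sph)) '' U := fun y => by
      refine not_congr ⟨?_, ?_⟩
      · rintro ⟨_, ⟨z, hz, rfl⟩, e⟩
        exact ⟨z, hz, φ.injective ((hφ z).trans e)⟩
      · rintro ⟨z, hz, rfl⟩
        exact ⟨_, ⟨z, hz, rfl⟩, (hφ z).symm⟩
    unfold Setup.eF dOut
    rw [← φ.surjective.iInf_comp, ENNReal.mul_iInf_of_ne (ex_ne_zero _) (ex_ne_top _)]
    refine iInf_congr fun y => ?_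
    rw [ENNReal.mul_iInf_of_ne (ex_ne_zero _) (ex_ne_top _)]
    refine iInf_congr_Prop (hm y) fun _ => ?_
    beta_reduce
    rw [hx, ENNReal.ofReal_mul hc.le]
    rfl

end Pool.Agent.QL.LC
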