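import Pool.Agent.P.MP_7a6434d8_pr.QL.C.RegDefs

/-! Block REG: the locality identity for the conditional law given the geometry. -/

open MeasureTheory ProbabilityTheory Set Filter Topology Metric
open scoped ENNReal unitInterval

namespace Pool.Agent.QL.LC

open Pool.Agent.LGD Pool.Agent.P.MP_7a6434d8_pr Pool.Agent.P.MP_7a6434d8_pr.Mp

/-- an identity on rectangles of a generating algebra gives the identity for all test functions -/
theorem rgk_ext {C E : Type} [MeasurableSpace C] [mE : MeasurableSpace E] (ν : Measure C)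
    [IsProbabilityMeasure ν] (κ : Measure E) [IsProbabilityMeasure κ] {o i : C → E}
    (ho : Measurable o) (hi : Measurable i) {𝒜 : Set (Set E)} (hA : IsSetAlgebra 𝒜)
    (hg : MeasurableSpace.generateFrom 𝒜 = mE)
    (h : ∀ B ∈ 𝒜, ∀ B' ∈ 𝒜,
      ∫⁻ c, B.indicator (1 : E → ℝ≥0∞) (o c) * B'.indicator (1 : E → ℝ≥0∞) (i c) ∂ν =
        ∫⁻ c, B.indicator (1 : E → ℝ≥0∞) (o c) * ∫⁻ e, B'.indicator (1 : E → ℝ≥0∞) e ∂κ ∂ν)
    {H : E × E → ℝ≥0∞} (hH : Measurable H) :
    ∫⁻ c, H (o c, i c) ∂ν = ∫⁻ c, ∫⁻ e, H (o c, e) ∂κ ∂ν := by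
  have hp : IsPiSystem 𝒜 := fun s hs t ht _ => hA.inter_mem hs ht
  have hs : IsCountablySpanning 𝒜 := ⟨fun _ => univ, fun _ => hA.univ_mem, iUnion_const _⟩
  have hm : ∀ B ∈ 𝒜, MeasurableSet B := fun B hB =>
    hg ▸ MeasurableSpace.measurableSet_generateFrom hB
  have i1 := Measure.isProbabilityMeasure_map (μ := ν) (ho.prodMk hi).aemeasurable
  have i2 := Measure.isProbabilityMeasure_map (μ := ν) ho.aemeasurable
  have e : ν.map (fun c => (o c, i c)) = (ν.map o).prod κ := by
    refine ext_of_generate_finite _ (generateFrom_eq_prod hg hg hs hs).symm (hp.prod hp) ?_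
      (by rw [measure_univ, measure_univ])
    rintro _ ⟨B, hB, B', hB', rfl⟩
    have h1 := h B hB B' hB'
    have m1 : Measurable (B.indicator (1 : E → ℝ≥0∞)) := measurable_one.indicator (hm B hB)
    have m2 : Measurable fun c => B.indicator (1 : E → ℝ≥0∞) (o c) := m1.comp ho
    rw [lintegral_mul_const _ m2, lintegral_indicator_one (hm B' hB'),
      ← lintegral_map m1 ho, lintegral_indicator_one (hm B hB)] at h1
    beta_reduce
    rw [Measure.prod_prod, ← h1, ← lintegral_indicator_one ((hm B hB).prod (hm B' hB')),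
      lintegral_map (measurable_one.indicator ((hm B hB).prod (hm B' hB'))) (ho.prodMk hi)]
    refine lintegral_congr fun c => ?_
    by_cases a1 : o c ∈ B <;> by_cases a2 : i c ∈ B' <;> simp [indicator, a1, a2]
  rw [← lintegral_map hH (ho.prodMk hi), e, lintegral_prod _ hH.aemeasurable,
    lintegral_map hH.lintegral_prod_right' ho]

open Classical in
theorem rgk_pair (S : Setup) {b : Base} {K : Kernel G0 EC} [IsMarkovKernel K] (hL : LocA b K)
    (w : World b) (Q : Measure C0) [IsProbabilityMeasure Q] (hQ : w.Lim (code0 b) Q)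
    (hm : Q.map Prod.fst = (S.M w.ϑ).map S.ginf) (α : Rg) {F G : EC → ℝ≥0∞} (hF : Measurable F)
    (hG : Measurable G) (hF1 : ∀ e, F e ≤ 1) (hG1 : ∀ e, G e ≤ 1) :
    ∀ᵐ u ∂(S.M w.ϑ).prod (volume : Measure I), EvI (S.ginf u.1).2 α u.2 →
      ∫⁻ c, F (outE (S.ginf u.1) c.2.1 α u.2) * G (inE (S.ginf u.1) c.2.1 α u.2)
          ∂condDistrib id Prod.fst Q (S.ginf u.1) =
        ∫⁻ c, F (outE (S.ginf u.1) c.2.1 α u.2) * ∫⁻ e, G e ∂K (Gam (S.ginf u.1) α u.2)
          ∂condDistrib id Prod.fst Q (S.ginf u.1) := by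
  have n0 : Measurable fun z : C0 × I => (z.1.1.2, z.2) :=
    measurable_fst.fst.snd.prodMk measurable_snd
  have m0 : MeasurableSet {z : C0 × I | EvI z.1.1.2 α z.2} := n0 (measurableSet_EvI α)
  have m1 : Measurable fun z : C0 × I => (z.1.1, z.1.2.1, z.2) :=
    measurable_fst.fst.prodMk (measurable_fst.snd.fst.prodMk measurable_snd)
  have n1 : Measurable fun z : C0 × I => (z.1.1, z.2) := measurable_fst.fst.prodMk measurable_snd
  have n2 := hF.comp ((measurable_outE α).comp m1)
  have n3 := hG.comp ((measurable_inE α).comp m1)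
  have n4 := (hG.lintegral_kernel (κ := K)).comp ((measurable_Gam α).comp n1)
  have m2 : Measurable fun z : C0 × I => F (outE z.1.1 z.1.2.1 α z.2) := n2
  have m3 : Measurable fun z : C0 × I => G (inE z.1.1 z.1.2.1 α z.2) := n3
  have m4 : Measurable fun z : C0 × I => ∫⁻ e, G e ∂K (Gam z.1.1 α z.2) := n4
  have h1 := S.hat_transfer w.ϑ Q measurable_fst hm (volume : Measure I)
    (A := fun z : C0 × I => if EvI z.1.1.2 α z.2 then
      F (outE z.1.1 z.1.2.1 α z.2) * G (inE z.1.1 z.1.2.1 α z.2) else 0)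
    (B := fun z : C0 × I => if EvI z.1.1.2 α z.2 then
      F (outE z.1.1 z.1.2.1 α z.2) * ∫⁻ e, G e ∂K (Gam z.1.1 α z.2) else 0)
    (Measurable.ite m0 (m2.mul m3) measurable_const)
    (Measurable.ite m0 (m2.mul m4) measurable_const)
    (fun z => by
      split_ifs
      · exact mul_le_one' (hF1 _) (hG1 _)
      · exact zero_le_one)
    (fun z => by
      split_ifs
      · refine mul_le_one' (hF1 _) ((lintegral_mono hG1).trans ?_)
        rw [lintegral_const, measure_univ, mul_one]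
      · exact zero_le_one)
    (fun Φ hΦ => by
      simp only [mul_ite, mul_zero, ← mul_assoc]
      exact hL w Q hQ α Φ F G hΦ hF hG)
  have h2 : ∀ᵐ m ∂S.M w.ϑ, ∀ᵐ c ∂condDistrib id Prod.fst Q (S.ginf m), c.1 = S.ginf m :=
    S.ae_kc (p := fun z => z.2.1 = S.ginf z.1) (S.hat_ae_eq w.ϑ Q measurable_fst hm)
  have h3 : ∀ᵐ u ∂(S.M w.ϑ).prod (volume : Measure I),
      ∀ᵐ c ∂condDistrib id Prod.fst Q (S.ginf u.1), c.1 = S.ginf u.1 :=
    Measure.quasiMeasurePreserving_fst.ae h2
  filter_upwards [h1, h3] with u a1 a2 a3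
  refine Eq.trans (lintegral_congr_ae ?_) (a1.trans (lintegral_congr_ae ?_))
  · filter_upwards [a2] with c hc
    rw [hc, if_pos a3]
  · filter_upwards [a2] with c hc
    rw [hc, if_pos a3]

theorem rg_locK (S : Setup) {b : Base} {K : Kernel G0 EC} [IsMarkovKernel K] (hL : LocA b K)
    (w : World b) (Q : Measure C0) [IsProbabilityMeasure Q] (hQ : w.Lim (code0 b) Q)
    (hm : Q.map Prod.fst = (S.M w.ϑ).map S.ginf) (α : Rg) :
    ∀ᵐ u ∂(S.M w.ϑ).prod (volume : Measure I), EvI (S.ginf u.1).2 α u.2 →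
      ∀ H : EC × EC → ℝ≥0∞, Measurable H →
        ∫⁻ c, H (outE (S.ginf u.1) c.2.1 α u.2, inE (S.ginf u.1) c.2.1 α u.2)
          ∂condDistrib id Prod.fst Q (S.ginf u.1) =
        ∫⁻ c, ∫⁻ e, H (outE (S.ginf u.1) c.2.1 α u.2, e) ∂K (Gam (S.ginf u.1) α u.2)
          ∂condDistrib id Prod.fst Q (S.ginf u.1) := by
  have hc := countable_generateSetAlgebra
    (MeasurableSpace.countable_countableGeneratingSet (α := EC))
  have hg : MeasurableSpace.generateFrom
      (generateSetAlgebra (MeasurableSpace.countableGeneratingSet EC)) = _ :=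
    generateFrom_generateSetAlgebra_eq.trans MeasurableSpace.generateFrom_countableGeneratingSet
  have hme : ∀ B ∈ generateSetAlgebra (MeasurableSpace.countableGeneratingSet EC),
      MeasurableSet B := fun B hB => hg ▸ MeasurableSpace.measurableSet_generateFrom hB
  have h1 : ∀ (B : Set EC) (e : EC), B.indicator (1 : EC → ℝ≥0∞) e ≤ 1 := fun B e =>
    indicator_le_self' (fun _ _ => zero_le_one) e
  have h := (ae_ball_iff hc).2 fun B hB => (ae_ball_iff hc).2 fun B' hB' =>
    rgk_pair S hL w Q hQ hm α (measurable_one.indicator (hme B hB))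
      (measurable_one.indicator (hme B' hB')) (h1 B) (h1 B')
  filter_upwards [h] with u hu a H hH
  have m1 : Measurable fun c : C0 => (S.ginf u.1, c.2.1, u.2) :=
    measurable_const.prodMk (measurable_snd.fst.prodMk measurable_const)
  have n2 := (measurable_outE α).comp m1
  have n3 := (measurable_inE α).comp m1
  have m2 : Measurable fun c : C0 => outE (S.ginf u.1) c.2.1 α u.2 := n2
  have m3 : Measurable fun c : C0 => inE (S.ginf u.1) c.2.1 α u.2 := n3
  exact rgk_ext _ _ m2 m3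
    isSetAlgebra_generateSetAlgebra hg (fun B hB B' hB' => hu B hB B' hB' a) hH

theorem rgk_ballE (G : GM) (S : ℕ → G.X) (pr : Bool) {j : BDat ℕ} (h : j.balls = []) :
    G.ballE S pr j = 0 := by
  obtain ⟨h1, h2⟩ := List.append_eq_nil_iff.1 h
  have h0 : G.bset S [] = ∅ := eq_empty_of_forall_notMem fun d ⟨_, hc, _⟩ => List.not_mem_nil hc
  refine le_antisymm ?_ zero_le
  unfold GM.ballE dEg
  refine iInf_le_of_le (fun _ => 0) (iInf_le_of_le (fun _ => rfl) (iInf_le_of_le ?_ (by simp)))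
  intro c hc d hd
  obtain ⟨e, he, rfl⟩ := List.mem_map.1 hc
  rw [List.flatMap_eq_nil_iff.1 h2 e he, h0] at hd
  exact hd.elim

/-- ball data without balls have no energy -/
theorem rg_zero {b : Base} (w : World b) (Q : Measure C0) [IsProbabilityMeasure Q]
    (hQ : w.Lim (code0 b) Q) :
    ∀ᵐ c ∂Q, ∀ y : Bool × BDat ℚ, y.2.balls = [] → c.2.1 y = 0 := by
  refine ae_all_iff.2 fun y => ?_
  by_cases hy : y.2.balls = []
  swap
  · exact .of_forall fun _ h => absurd h hy
  have hc : Continuous fun c : C0 => min 1 (c.2.1 y) := by fun_prop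
  have h1 := hQ ⟨_, hc⟩ fun c => min_le_left _ _
  have h2 : ∀ k r, (code0 b k r).2.1 y = 0 := fun k r => by
    change nrm _ _ * (gmQ r.q).ballE r.S y.1 (y.2.toN (b.δ k)) = 0
    rw [rgk_ballE, mul_zero]
    obtain ⟨a1, a2⟩ := List.append_eq_nil_iff.1 hy
    refine List.append_eq_nil_iff.2 ⟨List.map_eq_nil_iff.2 a1, List.flatMap_eq_nil_iff.2 ?_⟩
    intro c hc
    obtain ⟨e, he, rfl⟩ := List.mem_map.1 hc
    exact List.map_eq_nil_iff.2 (List.flatMap_eq_nil_iff.1 a2 e he)
  simp only [ContinuousMap.coe_mk, h2, zero_le, min_eq_right, lintegral_zero] at h1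
  have h3 := (lintegral_eq_zero_iff hc.measurable).1 (tendsto_nhds_unique h1 tendsto_const_nhds)
  filter_upwards [h3] with c hc _
  rcases min_eq_iff.1 hc with h | h
  · exact absurd h.1 one_ne_zero
  · exact h.1

end Pool.Agent.QL.LC
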