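import Pool.Agent.P.MP_7a6434d8_pr.QL.C.RegDefs

/-! Block REG: measurability. -/

open MeasureTheory ProbabilityTheory Set Filter Topology Metric
open scoped ENNReal unitInterval

namespace Pool.Agent.QL.LC

open Pool.Agent.LGD Pool.Agent.P.MP_7a6434d8_pr Pool.Agent.P.MP_7a6434d8_pr.Mp

theorem rgm_yk {A : Type} [MeasurableSpace A] {jt : A → ℂ → ℂ → ℝ≥0∞} {je : A → ℂ → ℝ≥0∞}
    {zm : A → ℝ≥0∞} (h1 : Measurable fun p : A × ℂ × ℂ => jt p.1 p.2.1 p.2.2)
    (h2 : Measurable fun p : A × ℂ => je p.1 p.2) (h3 : Measurable zm) :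
    Measurable fun p : A × (ℕ → ℂ) => ((fun a b => jt p.1 (p.2 a) (p.2 b), fun a => je p.1 (p.2 a),
      p.2, 9 / 8 * zm p.1) : LD) := by
  refine (measurable_pi_lambda _ fun a => measurable_pi_lambda _ fun b => ?_).prodMk
    ((measurable_pi_lambda _ fun a => ?_).prodMk
      (measurable_snd.prodMk ((h3.comp measurable_fst).const_mul _)))
  · exact h1.comp (f := fun p : A × (ℕ → ℂ) => (p.1, p.2 a, p.2 b)) (by fun_prop)
  · exact h2.comp (f := fun p : A × (ℕ → ℂ) => (p.1, p.2 a)) (by fun_prop)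

theorem rgm_loc {A : Type} [MeasurableSpace A] {m : A → Measure ℂ} (hm : Measurable m)
    (hp : ∀ a, IsProbabilityMeasure (m a)) {y : A → (ℕ → ℂ) → LD}
    (hy : Measurable fun p : A × (ℕ → ℂ) => y p.1 p.2) {Ψ : LD × I → ℝ≥0∞} (hΨ : Measurable Ψ) :
    Measurable fun a => ∫⁻ x, ∫⁻ ρ : I, Ψ (y a x, ρ) ∂volume ∂iid (m a) := by
  let κ : Kernel A (ℕ → ℂ) := ⟨fun a => iid (m a), measurable_iid hm hp⟩
  have : IsMarkovKernel κ := ⟨fun a => inferInstanceAs (IsProbabilityMeasure (iid (m a)))⟩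
  have h1 : Measurable fun p : A × (ℕ → ℂ) => ∫⁻ ρ : I, Ψ (y p.1 p.2, ρ) ∂volume :=
    Measurable.lintegral_prod_right' (f := fun q : (A × (ℕ → ℂ)) × I => Ψ (y q.1.1 q.1.2, q.2))
      (hΨ.comp ((hy.comp measurable_fst).prodMk measurable_snd))
  exact h1.lintegral_kernel_prod_right' (κ := κ)

theorem rg_meas_ev2 {C : Set ℂ} (hC : MeasurableSet C) (α : Rg) :
    MeasurableSet {z : LD × I | Ev2 z.1.1 z.1.2.1 z.1.2.2.1 C α z.2} := by
  have h : Measurable fun z : LD × I => (z.1.1, z.2) := by fun_prop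
  have e : {z : LD × I | Ev2 z.1.1 z.1.2.1 z.1.2.2.1 C α z.2} = {z : LD × I | EvI z.1.1 α z.2 ∧
      (∀ c ∈ α.1, ∀ c' ∈ α.1, rd z.2 c' ≤ z.1.2.1 c.1) ∧
      (∀ a, inW z.1.1 α z.2 a → ∀ c ∈ α.1, fB z.1.1 α.1 z.2 a + rd z.2 c < z.1.2.1 a) ∧
      ∀ a, z.1.2.2.1 a ∈ C → inW z.1.1 α z.2 a} :=
    Set.ext fun z => ⟨fun h => ⟨h.evI, h.cen, h.far, h.inn⟩, fun h => ⟨h.1, h.2.1, h.2.2.1, h.2.2.2⟩⟩
  have hW : ∀ a, Measurable fun z : LD × I => inW z.1.1 α z.2 a := fun a =>
    measurableSet_setOfPred.1 (h (measurableSet_inW α a))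
  have hr : ∀ c, Measurable fun z : LD × I => rd z.2 c := fun c =>
    (measurable_rd c).comp measurable_snd
  rw [e]
  refine measurableSet_setOfPred.2 ((measurableSet_setOfPred.1 (h (measurableSet_EvI α))).and
    (Measurable.and (Measurable.forall fun c => measurable_const.imp
      (Measurable.forall fun c' => measurable_const.imp (meas_le (hr c') (by fun_prop))))
    (Measurable.and (Measurable.forall fun a => (hW a).imp
      (Measurable.forall fun c => measurable_const.imp (meas_lt ?_ (by fun_prop))))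
      (Measurable.forall fun a => Measurable.imp ?_ (hW a)))))
  · exact ((measurable_pi_iff.1 (measurable_fB α.1) a).comp h).add (hr c)
  · exact measurableSet_setOfPred.1
      ((show Measurable fun z : LD × I => z.1.2.2.1 a by fun_prop) hC)

theorem rg_meas_eloc (α : Rg) :
    Measurable fun z : ((ℕ → ℕ → ℝ≥0∞) × I) × EC => Eloc z.1.1 α z.1.2 z.2 := by
  classical
  refine measurable_pi_lambda _ fun x => Measurable.ite (measurableSet_setOfPred.2
    (Measurable.forall fun c => measurable_const.imp (Measurable.and ?_ ?_))) ?_ measurable_const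
  · exact measurableSet_setOfPred.1 (measurable_fst (measurableSet_inW α c.1))
  · exact meas_le measurable_const
      ((measurable_pi_iff.1 (measurable_fB α.1) c.1).comp measurable_fst)
  · refine Measurable.sub_const (Measurable.inv (Measurable.const_sub ?_ 1)) 1
    exact meas_dep (finite_fst x.2.balls)
      (n := fun (z : ((ℕ → ℕ → ℝ≥0∞) × I) × EC) i => Nat.count (inW z.1.1 α z.1.2) i)
      (fun i => measurable_count (fun a => measurable_fst (measurableSet_inW α a)) i)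
      (F := fun z u => z.2 (x.1, x.2.map (rl u))) (fun u => by fun_prop)
      fun z u v huv => by
        rw [bdat_map_congr (g := rl u) (g' := rl v) fun c hc => by
          rw [rl, rl, huv c.1 ⟨c, hc, rfl⟩]]

theorem rg_meas_psi (K : Kernel G0 EC) [IsMarkovKernel K] {C : Set ℂ} (hC : MeasurableSet C)
    {E : Set Sys} (hE : MeasurableSet E) : Measurable (rgPsi K C E) := by
  refine Measurable.iSup fun α => meas_iSup_prop (rg_meas_ev2 hC α) ?_
  have h1 : Measurable fun z : LD × I => Gam (z.1.2.2.2, z.1.1) α z.2 :=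
    (measurable_Gam α).comp (f := fun z : LD × I => ((z.1.2.2.2, z.1.1), z.2)) (by fun_prop)
  have h2 : Measurable fun p : (LD × I) × EC => Eloc p.1.1.1 α p.1.2 p.2 :=
    (rg_meas_eloc α).comp (f := fun p : (LD × I) × EC => ((p.1.1.1, p.1.2), p.2)) (by fun_prop)
  have h3 : Measurable fun p : (LD × I) × EC =>
      sys p.1.1.2.2.1 p.1.1.1 (Eloc p.1.1.1 α p.1.2 p.2) :=
    measurable_sys.comp
      (f := fun p : (LD × I) × EC => (p.1.1.2.2.1, p.1.1.1, Eloc p.1.1.1 α p.1.2 p.2))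
      (Measurable.prodMk (by fun_prop) (Measurable.prodMk (by fun_prop) h2))
  exact Kernel.measurable_kernel_prodMk_left (κ := K.comap _ h1) (h3 hE)

theorem rg_meas_yk (S : Setup) (U : Set ℂ) : Measurable[(fieldSigma id U).prod inferInstance]
    fun p : Dist × (ℕ → ℂ) => S.yk U p.1 p.2 :=
  @rgm_yk Dist (fieldSigma id U) (S.O.jt U) (S.O.je U) (S.O.zm U) (S.O.jt_meas U) (S.O.je_meas U)
    (S.O.zm_loc U)

theorem rg_loc (S : Setup) (U : Set ℂ) {Ψ : LD × I → ℝ≥0∞} (hΨ : Measurable Ψ) :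
    Loc U fun k => ∫⁻ x, ∫⁻ ρ : I, Ψ (S.yk U k x, ρ) ∂volume ∂iid (S.O.jk U k) :=
  @rgm_loc Dist (fieldSigma id U) (S.O.jk U) (S.O.jk_meas U) (S.O.jk_prob U) (S.yk U)
    (rg_meas_yk S U) Ψ hΨ

end Pool.Agent.QL.LC
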