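import Pool.Agent.P.MP_7a6434d8_pr.QL.C.RegLG

/-! Block REG: the system read from the inner and from the outer energies. -/

open MeasureTheory ProbabilityTheory Set Filter Topology Metric
open scoped ENNReal unitInterval

namespace Pool.Agent.QL.LC

open Pool.Agent.LGD Pool.Agent.P.MP_7a6434d8_pr Pool.Agent.P.MP_7a6434d8_pr.Mp

variable {𝒟 : ℕ → ℕ → ℝ≥0∞} {e : ℕ → ℝ≥0∞} {x : ℕ → ℂ} {U C : Set ℂ} {α : Rg} {ρ : I}

theorem rgsys_balls {R R' : Type} (g : ℕ × R → ℕ × R') (j : BDat R) :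
    (j.map g).balls = j.balls.map g := by
  simp only [BDat.balls, BDat.map, List.map_append, List.flatMap_map, List.map_flatMap]

theorem rgsys_map_map {R : Type} (g g' : ℕ × R → ℕ × R) (j : BDat R) :
    (j.map g).map g' = j.map fun c => g' (g c) := by
  simp only [BDat.map, List.map_map, Function.comp_def]

theorem rgsys_map_id {R : Type} (j : BDat R) : (j.map fun c => c) = j := by
  simp [BDat.map]

theorem rgsys_ins {y : Data} {j : BDat ℚ} (hj : Ins x 𝒟 y j) {c : ℕ × ℚ} (hc : c ∈ j.balls) :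
    0 < c.2 ∧ ∀ a, 𝒟 c.1 a < ENNReal.ofReal (4 * c.2) → x a ∈ y.1 := by
  rcases List.mem_append.1 hc with k | k
  · obtain ⟨k1, m, k2⟩ := hj.1 c k
    exact ⟨k1, fun a ha => k2 a ha (mem_ball_self (by positivity))⟩
  · obtain ⟨d, hd, k⟩ := List.mem_flatMap.1 k
    obtain ⟨d', -, k3, -⟩ := hj.2 d hd
    obtain ⟨k1, m, k2⟩ := k3 c k
    exact ⟨k1, fun a ha => (k2 a ha (mem_ball_self (by positivity))).2⟩

theorem rgsys_pos {q : ℚ} (h : 0 < q) : 0 < ENNReal.ofReal (4 * q) :=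
  ENNReal.ofReal_pos.2 (by positivity)

theorem rgsys_ins_map {𝒟' : ℕ → ℕ → ℝ≥0∞} {x' : ℕ → ℂ} {g : ℕ × ℚ → ℕ × ℚ} {j : BDat ℚ}
    (hg : ∀ c ∈ j.balls, ∀ K, InB x' 𝒟' K c ↔ InB x 𝒟 K (g c)) (y : Data) :
    Ins x' 𝒟' y j ↔ Ins x 𝒟 y (j.map g) := by
  simp only [Ins, BDat.map, List.forall_mem_map]
  exact and_congr (forall₂_congr fun c hc => hg c (mem_balls_left hc) _)
    (forall₂_congr fun d hd => exists_congr fun d' => and_congr_right fun _ =>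
      and_congr_left fun _ => forall₂_congr fun c hc => hg c (mem_balls_right hd hc) _)

theorem rgsys_lt (hL : EvL 𝒟 e x U C α ρ) {a : ℕ} (ha : inW (locD 𝒟 e x U) α ρ a) :
    fB (locD 𝒟 e x U) α.1 ρ a < e (enU x U a) := by
  obtain ⟨c, hc⟩ := List.exists_mem_of_ne_nil _ hL.evI.1
  exact le_self_add.trans_lt (hL.far a ha c hc)

theorem rgsys_inB (h : SM 𝒟 e x U) (hL : EvL 𝒟 e x U C α ρ) {c : ℕ × ℚ}
    (h1 : inW (locD 𝒟 e x U) α ρ c.1)
    (h2 : ENNReal.ofReal (4 * c.2) ≤ fB (locD 𝒟 e x U) α.1 ρ c.1) (K : Set ℂ) :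
    InB (thinIn U x) (locD 𝒟 e x U) K c ↔ InB x 𝒟 K (rl (enU x U) c) := by
  classical
  have h3 := h2.trans_lt (rgsys_lt hL h1)
  refine and_congr_right fun _ => exists_congr fun m => ⟨fun k a ha => ?_, fun k b hb => ?_⟩
  · have e1 : enU x U (Nat.count (fun a => x a ∈ U) a) = a :=
      Nat.nth_count (h.out _ a (ha.trans h3))
    rw [← e1] at ha ⊢
    exact k _ ((min_le_left _ _).trans_lt ha)
  · exact k _ ((min_lt_iff.1 hb).resolve_right h3.not_gt)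

theorem rgsys_key (h : SM 𝒟 e x U) (hL : EvL 𝒟 e x U C α ρ)
    (hi : {a | inW (locD 𝒟 e x U) α ρ a}.Infinite) (l : ℝ≥0∞) (E : EC) (pr : Bool) {j : BDat ℚ}
    (h0 : ∀ c ∈ j.balls, 0 < c.2) (hj : ∀ c ∈ j.balls, inW (locD 𝒟 e x U) α ρ c.1 ∧
      ENNReal.ofReal (4 * c.2) ≤ fB (locD 𝒟 e x U) α.1 ρ c.1) :
    Eloc (locD 𝒟 e x U) α ρ (inE (l, 𝒟) E (rgMap (enU x U) α) ρ) (pr, j) =
      E (pr, j.map (rl (enU x U))) := by
  have e1 : ∀ c ∈ j.balls, idx 𝒟 (rgMap (enU x U) α) ρ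
      (@Nat.count (inW (locD 𝒟 e x U) α ρ) (fun _ => Classical.propDecidable _) c.1) =
      enU x U c.1 := fun c hc => by
    rw [rg_idx h hL hi, idx, @Nat.nth_count _ (fun _ => Classical.propDecidable _) _ (hj c hc).1]
  unfold Eloc inE
  rw [if_pos hj, rgsys_balls, rgsys_map_map, List.map_map, List.prod_eq_one, one_mul, squash_inv]
  · exact congrArg (fun t => E (pr, t)) (bdat_map_congr fun c hc => Prod.ext (e1 c hc) rfl)
  refine List.forall_mem_map.2 fun c hc => ?_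
  have k0 : (0 : ℝ) < c.2 := by exact_mod_cast h0 c hc
  have k1 := (ENNReal.ofReal_le_iff_le_toReal (rgsys_lt hL (hj c hc).1).ne_top).1 (hj c hc).2
  change cut c.2 (fB 𝒟 _ ρ
    (idx 𝒟 _ ρ (@Nat.count _ (fun _ => Classical.propDecidable _) c.1))).toReal = 1
  rw [e1 c hc, rg_fB hL (hj c hc).1, cut, if_pos (h0 c hc), min_eq_left, ENNReal.ofReal_one]
  rw [le_div_iff₀ k0]
  linarith

theorem rgsys_in (h : SM 𝒟 e x U) (hC : C ⊆ U) (hL : EvL 𝒟 e x U C α ρ)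
    (hi : {a | inW (locD 𝒟 e x U) α ρ a}.Infinite) (l : ℝ≥0∞) (E : EC) {y : Data}
    (hK : y.1 ⊆ C) (pr : Bool) :
    ⨆ (j : BDat ℚ) (_ : Ins x 𝒟 y j), E (pr, j) =
      ⨆ (j : BDat ℚ) (_ : Ins (thinIn U x) (locD 𝒟 e x U) y j),
        Eloc (locD 𝒟 e x U) α ρ (inE (l, 𝒟) E (rgMap (enU x U) α) ρ) (pr, j) := by
  classical
  have hG := rg_up h hC hL
  refine le_antisymm (iSup₂_le fun j hj => ?_) (iSup₂_le fun j hj => ?_)
  · have e0 : ∀ c ∈ j.balls, x c.1 ∈ C := fun c hc =>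
      hK ((rgsys_ins hj hc).2 _ ((h.self _).trans_lt (rgsys_pos (rgsys_ins hj hc).1)))
    have e1 : ∀ c ∈ j.balls, enU x U (Nat.count (fun a => x a ∈ U) c.1) = c.1 := fun c hc =>
      Nat.nth_count (hC (e0 c hc))
    have e2 : (j.map (rl (Nat.count fun a => x a ∈ U))).map (rl (enU x U)) = j := by
      rw [rgsys_map_map]
      exact Eq.trans (bdat_map_congr (g' := fun c => c) fun c hc => Prod.ext (e1 c hc) rfl)
        (rgsys_map_id j)
    have e3 : ∀ c ∈ (j.map (rl (Nat.count fun a => x a ∈ U))).balls,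
        inW (locD 𝒟 e x U) α ρ c.1 ∧ ENNReal.ofReal (4 * c.2) ≤ fB (locD 𝒟 e x U) α.1 ρ c.1 := by
      rw [rgsys_balls]
      refine List.forall_mem_map.2 fun c hc => ?_
      have k1 : inW (locD 𝒟 e x U) α ρ (Nat.count (fun a => x a ∈ U) c.1) :=
        hL.inn _ (show x (enU x U _) ∈ C by rw [e1 c hc]; exact e0 c hc)
      refine ⟨k1, le_trans ?_ (rg_fB hL k1).le⟩
      rw [e1 c hc]
      refine le_iInf₂ fun c0 hc0 => not_lt.1 fun k2 => ?_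
      have k3 : (0 : ℝ) < c0.2 := by exact_mod_cast hG.evI.2.1 c0 hc0
      obtain ⟨a, k4, k5⟩ := h.mid _ _ _ _ (rgsys_pos (rgsys_ins hj hc).1)
        (ENNReal.ofReal_pos.2 (mul_pos k3 (add_pos_of_pos_of_nonneg one_pos ρ.2.1)))
        (ENNReal.lt_add_of_sub_lt_right (.inl (h.fin _ _)) k2)
      exact (rg_inW_pos h hG.evI.2.2.2 (hG.inn a (hK ((rgsys_ins hj hc).2 a k4)))).not_ge
        ((iInf₂_le c0 hc0).trans (tsub_eq_zero_of_le k5.le).le)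
    have e4 := (rgsys_ins_map (fun c hc => rgsys_inB h hL (e3 c hc).1 (e3 c hc).2) y).2
      (e2.symm ▸ hj)
    refine le_iSup₂_of_le _ e4 (le_of_eq ?_)
    rw [rgsys_key h hL hi l E pr (fun c hc => (rgsys_ins e4 hc).1) e3, e2]
  · by_cases k : ∀ c ∈ j.balls, inW (locD 𝒟 e x U) α ρ c.1 ∧
        ENNReal.ofReal (4 * c.2) ≤ fB (locD 𝒟 e x U) α.1 ρ c.1
    · rw [rgsys_key h hL hi l E pr (fun c hc => (rgsys_ins hj hc).1) k]
      exact le_iSup₂_of_le _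
        ((rgsys_ins_map (fun c hc => rgsys_inB h hL (k c hc).1 (k c hc).2) y).1 hj) le_rfl
    · exact (if_neg k).trans_le zero_le

theorem rgsys_out (h : SM 𝒟 e x U) (hL : EvL 𝒟 e x U C α ρ) {V : Set ℂ} (hV : Disjoint U V)
    (l : ℝ≥0∞) (E : EC) {y : Data} (hK : y.1 ⊆ V) (pr : Bool) {j : BDat ℚ} (hj : Ins x 𝒟 y j) :
    E (pr, j) = outE (l, 𝒟) E (rgMap (enU x U) α) ρ (pr, j) := by
  refine (if_pos fun c hc => ⟨(rgsys_ins hj hc).1, fun a ha => not_lt.1 fun k => ?_⟩).symm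
  obtain ⟨b, rfl, -⟩ := (rg_inW h hL a).1 ha
  have k0 : (0 : ℝ) < c.2 := by exact_mod_cast (rgsys_ins hj hc).1
  exact disjoint_left.1 hV (Nat.nth_mem_of_infinite h.inf b) (hK ((rgsys_ins hj hc).2 _
    (k.trans_le (ENNReal.ofReal_le_ofReal (by linarith)))))

theorem rg_sys_in (h : SM 𝒟 e x U) (hC : C ⊆ U) (hL : EvL 𝒟 e x U C α ρ)
    (hi : {a | inW (locD 𝒟 e x U) α ρ a}.Infinite) (l : ℝ≥0∞) (E : EC) (i : Idx)
    (hK : closure i.1.1 ⊆ C) :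
    (sys x 𝒟 E).1 i = (sys (thinIn U x) (locD 𝒟 e x U) (Eloc (locD 𝒟 e x U) α ρ
      (inE (l, 𝒟) E (rgMap (enU x U) α) ρ))).1 i ∧
    (sys x 𝒟 E).2 i = (sys (thinIn U x) (locD 𝒟 e x U) (Eloc (locD 𝒟 e x U) α ρ
      (inE (l, 𝒟) E (rgMap (enU x U) α) ρ))).2 i :=
  ⟨rgsys_in h hC hL hi l E (subset_closure.trans hK) true,
    rgsys_in h hC hL hi l E (subset_closure.trans hK) false⟩

theorem rg_sys_out (h : SM 𝒟 e x U) (hL : EvL 𝒟 e x U C α ρ) {V : Set ℂ} (hV : Disjoint U V)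
    (l : ℝ≥0∞) (E : EC) (i : Idx) (hK : closure i.1.1 ⊆ V) :
    (sys x 𝒟 E).1 i = (sys x 𝒟 (outE (l, 𝒟) E (rgMap (enU x U) α) ρ)).1 i ∧
    (sys x 𝒟 E).2 i = (sys x 𝒟 (outE (l, 𝒟) E (rgMap (enU x U) α) ρ)).2 i :=
  ⟨iSup_congr fun _ => iSup_congr fun hj => rgsys_out h hL hV l E (subset_closure.trans hK) true hj,
    iSup_congr fun _ => iSup_congr fun hj =>
      rgsys_out h hL hV l E (subset_closure.trans hK) false hj⟩

theorem rg_sys_empty (h0 : ∀ a, 𝒟 a a = 0) {E : EC}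
    (hE : ∀ y : Bool × BDat ℚ, y.2.balls = [] → E y = 0) (i : Idx) (hK : closure i.1.1 ⊆ ∅) :
    (sys x 𝒟 E).1 i = 0 ∧ (sys x 𝒟 E).2 i = 0 := by
  have k : ∀ pr j, Ins x 𝒟 i.1 j → E (pr, j) ≤ 0 := fun pr j hj =>
    (hE _ (List.eq_nil_iff_forall_not_mem.2 fun c hc => hK (subset_closure
      ((rgsys_ins hj hc).2 _ ((h0 _).trans_lt (rgsys_pos (rgsys_ins hj hc).1)))))).le
  exact ⟨le_antisymm (iSup₂_le (k true)) zero_le, le_antisymm (iSup₂_le (k false)) zero_le⟩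

end Pool.Agent.QL.LC
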