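import Pool.Agent.P.MP_7a6434d8_pr.QL.C.RegRing
import Pool.Agent.P.MP_7a6434d8_pr.QL.C.RegGeo
import Pool.Agent.P.MP_7a6434d8_pr.QL.C.RegSys
import Pool.Agent.P.MP_7a6434d8_pr.QL.C.RegFreq
import Pool.Agent.P.MP_7a6434d8_pr.QL.C.RegLocK
import Pool.Agent.P.MP_7a6434d8_pr.QL.C.RegMeas

/-! Block REG: the conditional probability of an inner event is read from local data. -/

open MeasureTheory ProbabilityTheory Set Filter Topology Metric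
open scoped ENNReal unitInterval

namespace Pool.Agent.QL.LC

open Pool.Agent.LGD Pool.Agent.P.MP_7a6434d8_pr Pool.Agent.P.MP_7a6434d8_pr.Mp

theorem rgk_abs {Y Z : Type} [MeasurableSpace Y] [MeasurableSpace Z] (ν : Measure Y)
    (η : Measure Z) (o i : Y → Z) {A B : Set Z} (mA : MeasurableSet A) (mB : MeasurableSet B)
    {T T' : Set Y} (mT : MeasurableSet T) (mT' : MeasurableSet T') (e1 : ∀ c, c ∈ T' ↔ o c ∈ A)
    (e2 : ∀ c, c ∈ T ↔ i c ∈ B) (hK : ∀ H : Z × Z → ℝ≥0∞, Measurable H →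
      ∫⁻ c, H (o c, i c) ∂ν = ∫⁻ c, ∫⁻ e', H (o c, e') ∂η ∂ν) : ν (T ∩ T') = η B * ν T' := by
  have k := hK ((A ×ˢ B).indicator 1) (measurable_one.indicator (mA.prod mB))
  have l1 : ∀ c, (A ×ˢ B).indicator (1 : Z × Z → ℝ≥0∞) (o c, i c) = (T ∩ T').indicator 1 c :=
    fun c => by
      by_cases h1 : c ∈ T ∩ T'
      · rw [indicator_of_mem (mk_mem_prod ((e1 c).1 h1.2) ((e2 c).1 h1.1)), indicator_of_mem h1]
        rfl
      · rw [indicator_of_notMem (fun h2 => h1 ⟨(e2 c).2 h2.2, (e1 c).2 h2.1⟩),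
          indicator_of_notMem h1]
  have l2 : ∀ c, ∫⁻ e', (A ×ˢ B).indicator (1 : Z × Z → ℝ≥0∞) (o c, e') ∂η =
      T'.indicator (fun _ => η B) c := fun c => by
    by_cases h1 : c ∈ T'
    · rw [indicator_of_mem h1, ← lintegral_indicator_one mB]
      refine lintegral_congr fun e' => ?_
      by_cases h2 : e' ∈ B
      · rw [indicator_of_mem (mk_mem_prod ((e1 c).1 h1) h2), indicator_of_mem h2]
        rfl
      · rw [indicator_of_notMem (fun h3 => h2 h3.2), indicator_of_notMem h2]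
    · rw [indicator_of_notMem h1]
      refine (lintegral_congr fun e' => ?_).trans lintegral_zero
      exact indicator_of_notMem (fun h3 => h1 ((e1 c).2 h3.1)) _
  simp only [l1, l2] at k
  rwa [lintegral_indicator_one (mT.inter mT'), lintegral_indicator_const mT'] at k

theorem rgk_ms (x : ℕ → ℂ) (𝒟 : ℕ → ℕ → ℝ≥0∞) : Measurable (sys x 𝒟) :=
  measurable_sys.comp (f := fun E : EC => (x, 𝒟, E)) (by fun_prop)

theorem rgk_me (𝒟 : ℕ → ℕ → ℝ≥0∞) (α : Rg) (ρ : I) : Measurable (Eloc 𝒟 α ρ) :=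
  (rg_meas_eloc α).comp (f := fun E : EC => ((𝒟, ρ), E)) (by fun_prop)

theorem rgk_one {𝒟 : ℕ → ℕ → ℝ≥0∞} {e : ℕ → ℝ≥0∞} {x : ℕ → ℂ} {U C V : Set ℂ} {α : Rg} {ρ : I}
    (h : SM 𝒟 e x U) (hC : C ⊆ U) (hL : EvL 𝒟 e x U C α ρ) (hi : {a | x a ∈ C}.Infinite)
    (hV : Disjoint U V) {u : ℝ≥0∞}
    (hu : ∀ p : ℕ → Prop, freq (fun j => ∃ b, enU x U b = j ∧ p b) = u * freq p) (l : ℝ≥0∞)
    (K : Kernel G0 EC) (ν : Measure C0) {E E' : Set Sys} (hE : MeasurableSet[SS C] E)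
    (hE' : MeasurableSet[SS V] E')
    (hK : ∀ H : EC × EC → ℝ≥0∞, Measurable H →
      ∫⁻ c, H (outE (l, 𝒟) c.2.1 (rgMap (enU x U) α) ρ, inE (l, 𝒟) c.2.1 (rgMap (enU x U) α) ρ) ∂ν =
      ∫⁻ c, ∫⁻ e', H (outE (l, 𝒟) c.2.1 (rgMap (enU x U) α) ρ, e')
        ∂K (Gam (l, 𝒟) (rgMap (enU x U) α) ρ) ∂ν) :
    ν {c | sys x 𝒟 c.2.1 ∈ E ∩ E'} = K (Gam (l * u, locD 𝒟 e x U) α ρ)
      {e' | sys (thinIn U x) (locD 𝒟 e x U) (Eloc (locD 𝒟 e x U) α ρ e') ∈ E} *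
      ν {c | sys x 𝒟 c.2.1 ∈ E'} := by
  have hi' := rg_infL h hC hL hi
  have ms : Measurable fun c : C0 => sys x 𝒟 c.2.1 := (rgk_ms x 𝒟).comp measurable_snd.fst
  rw [← rg_gam h hL hi' hu l]
  exact rgk_abs ν _ _ _ (rgk_ms x 𝒟 (SS_le V _ hE'))
    (((rgk_ms _ _).comp (rgk_me _ α ρ)) (SS_le C _ hE)) (ms (SS_le C _ hE)) (ms (SS_le V _ hE'))
    (fun c => rg_agree hE' fun i hK => rg_sys_out h hL hV l c.2.1 i hK)
    (fun c => rg_agree hE fun i hK => rg_sys_in h hC hL hi' l c.2.1 i hK) hK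

theorem rgk_chi (S : Setup) (Q : Measure C0) [IsProbabilityMeasure Q] (F : Fr) (E : Set Sys)
    {m : S.X} (h : ∀ᵐ c ∂condDistrib id Prod.fst Q (S.ginf m), c.1 = S.ginf m) :
    S.chi Q F E m =
      condDistrib id Prod.fst Q (S.ginf m) {c | sys (S.xF F m) (S.ginf m).2 c.2.1 ∈ E} := by
  refine measure_congr ?_
  filter_upwards [h] with c hc
  change (pull F (sys m.2 c.1.2 c.2.1) ∈ E) = (sys (S.xF F m) (S.ginf m).2 c.2.1 ∈ E)
  rw [pull_sys, hc]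
  rfl

theorem rgk_yk (S : Setup) {F : Fr} (hF : F.Adm) {U : Set ℂ} (hU : Nice U) (hne : U.Nonempty) :
    ∀ᵐ ω ∂S.P, ∀ (s : ℝ) (x : ℕ → ℂ), S.GoodPt ((s, ω), x) →
      S.yk U (S.fld F (s, ω)) (thinIn U (S.xF F ((s, ω), x))) =
        (locD (S.ginf ((s, ω), x)).2 (S.eF F U ((s, ω), x)) (S.xF F ((s, ω), x)) U,
          fun a => S.eF F U ((s, ω), x) (enU (S.xF F ((s, ω), x)) U a),
          thinIn U (S.xF F ((s, ω), x)),
          (S.ginf ((s, ω), x)).1 * S.μ ω (F.inv ⁻¹' U)) := by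
  filter_upwards [S.O.je_eq F hF U hU.1 hU.2.2, S.O.jt_eq F hF U hU.1 hU.2.2, S.O.geo_m]
    with ω h1 h2 h3 s x hg
  obtain ⟨D, -, hd, -⟩ := rg_frame S hg F U
  have hin : ∀ a, thinIn U (S.xF F ((s, ω), x)) a ∈ U := fun a =>
    Nat.nth_mem_of_infinite (p := fun a => S.xF F ((s, ω), x) a ∈ U) (rg_inf hd hU.1 hne) a
  have hmap : ∀ a, F.map (thinIn U (S.xF F ((s, ω), x)) a) = x (enU (S.xF F ((s, ω), x)) U a) :=
    fun a => F.map_inv _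
  refine Prod.ext ?_ (Prod.ext ?_ (Prod.ext rfl ?_))
  · funext a b
    change S.O.jt U (lev (S.O.kt F ω) s) _ _ = min (ex _ * S.O.dJ ω _ _) (ex _ * _)
    rw [h2 s _ (hin a), hmap, hmap, hg.dJ, mul_min]
  · funext a
    change S.O.je U (lev (S.O.kt F ω) s) _ = ex _ * _
    rw [h1 s _ (hin a), hmap]
  · change 9 / 8 * S.O.zm U (lev (S.O.kt F ω) s) = 9 / 8 * ex _ * _
    rw [h3 F hF U hU.1 hU.2.2 s, F.image_eq, mul_assoc]

theorem rg_key (S : Setup) {b : Base} {K : Kernel G0 EC} [IsMarkovKernel K] (hL : LocA b K)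
    (w : World b) (Q : Measure C0) [IsProbabilityMeasure Q] (hQ : w.Lim (code0 b) Q)
    (hm : Q.map Prod.fst = (S.M w.ϑ).map S.ginf) {F : Fr} (hF : F.Adm) {U C O V : Set ℂ}
    (hU : Nice U) (hR : Ring C O U) (hV : Disjoint U V) {E E' : Set Sys}
    (hE : MeasurableSet[SS C] E) (hE' : MeasurableSet[SS V] E') :
    ∀ᵐ q ∂w.ϑ.prod S.P, ∀ᵐ x ∂iid (S.O.κ q.2), ∀ᵐ ρ : I, S.chi Q F (E ∩ E') (q, x) =
      rgPsi K C E (S.yk U (S.fld F q) (thinIn U (S.xF F (q, x))), ρ) * S.chi Q F E' (q, x) := by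
  have hne : U.Nonempty := hR.iC.mono (interior_subset.trans hR.CU)
  have mU : MeasurableSet (F.inv ⁻¹' U) := F.continuous_inv.measurable hU.1.measurableSet
  have h1 := S.ae_M_iter (Measure.ae_ae_of_ae_prod
    (ae_all_iff.2 fun α => rg_locK S hL w Q hQ hm α))
  have h2 := S.ae_M_iter (S.ae_kc (S.hat_ae_eq w.ϑ Q measurable_fst hm))
  have h3 := S.ae_M_iter (S.ae_goodPt w.ϑ)
  have h4 := (Measure.quasiMeasurePreserving_snd (μ := w.ϑ) (ν := S.P)).ae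
    ((rgk_yk S hF hU hne).and S.O.κ_eq)
  filter_upwards [h1, h2, h3, h4] with q h1 h2 h3 h4
  filter_upwards [h1, h2, h3, rg_slln (S.O.κ q.2) mU] with x h1 h2 h3 h5
  filter_upwards [h1] with ρ h1
  obtain ⟨D, hD, hd, e1, e2⟩ := rg_frame S h3 F U
  have hS : SM (S.ginf (q, x)).2 (S.eF F U (q, x)) (S.xF F (q, x)) U := by
    rw [e1, e2]
    exact rg_sm hD hd hU.1 hne
  have hi : {a | S.xF F (q, x) a ∈ C}.Infinite :=
    (rg_inf hd isOpen_interior hR.iC).mono fun a ha => interior_subset (s := C) ha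
  have hu := rg_freq (P := fun a => S.xF F (q, x) a ∈ U) hS.inf h5
  rw [h4.2] at hu
  have key : ∀ α, EvL (S.ginf (q, x)).2 (S.eF F U (q, x)) (S.xF F (q, x)) U C α ρ → _ :=
    fun α hα => rgk_one hS hR.CU hα hi hV hu (S.ginf (q, x)).1 K _ hE hE'
      (h1 _ (rg_up hS hR.CU hα).evI)
  obtain ⟨β, hβ⟩ := rg_ring hD hd hR ρ
  rw [← e1, ← e2] at hβ
  obtain ⟨α₀, hα₀⟩ := rg_down hS hβ
  rw [rgk_chi S Q F _ h2, rgk_chi S Q F _ h2, h4.1 q.1 x h3, rgPsi, ENNReal.iSup_mul]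
  simp only [ENNReal.iSup_mul]
  exact le_antisymm (le_iSup₂_of_le α₀ hα₀ (key α₀ hα₀).le) (iSup₂_le fun α hα => (key α hα).ge)

end Pool.Agent.QL.LC
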