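import Pool.Agent.P.MP_7a6434d8_pr.QL.C.RegDefs

/-! Block REG: local and global chains. -/

open MeasureTheory ProbabilityTheory Set Filter Topology Metric
open scoped ENNReal unitInterval

namespace Pool.Agent.QL.LC

open Pool.Agent.LGD Pool.Agent.P.MP_7a6434d8_pr Pool.Agent.P.MP_7a6434d8_pr.Mp

variable {𝒟 : ℕ → ℕ → ℝ≥0∞} {e : ℕ → ℝ≥0∞} {x : ℕ → ℂ} {U C : Set ℂ} {α : Rg} {ρ : I}

theorem rglg_step {D : ℕ → ℕ → ℝ≥0∞} {f : ℕ → ℝ≥0∞} {a b : ℕ} (hab : D a b < f a) (l : List ℕ) :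
    ∀ s, cost D f s l a < ⊤ → cost D f s (l ++ [b]) b < ⊤ := by
  induction l with
  | nil =>
    intro s hs
    have hsa : s = a := by
      by_contra hne
      simp [cost, hne] at hs
    subst hsa
    simp only [List.nil_append, cost, if_pos hab, if_true, add_zero]
    exact hab.trans_le le_top
  | cons i l ih =>
    intro s hs
    by_cases hi : D s i < f s
    · simp only [cost, List.cons_append, if_pos hi, ENNReal.add_lt_top] at hs ⊢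
      exact ⟨hs.1, ih i hs.2⟩
    · simp [cost, hi] at hs

theorem rglg_inW_step {D : ℕ → ℕ → ℝ≥0∞} {β : Rg} {a b : ℕ} (ha : inW D β ρ a)
    (hab : D a b < fB D β.1 ρ a) : inW D β ρ b := by
  obtain ⟨l, hl⟩ := iInf_lt_iff.1 ha
  exact iInf_lt_iff.2 ⟨l ++ [b], rglg_step hab l _ hl⟩

theorem rglg_inW_self (D : ℕ → ℕ → ℝ≥0∞) (β : Rg) (ρ : I) : inW D β ρ β.2 :=
  iInf_lt_iff.2 ⟨[], by simp [cost]⟩

theorem rglg_fB_lip (h : SM 𝒟 e x U) (J : List (ℕ × ℚ)) (s i : ℕ) :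
    fB 𝒟 J ρ s - 𝒟 s i ≤ fB 𝒟 J ρ i := by
  refine le_iInf₂ fun c hc => tsub_le_iff_left.2 ?_
  calc fB 𝒟 J ρ s ≤ 𝒟 s c.1 - rd ρ c := iInf₂_le c hc
    _ ≤ (𝒟 s i + 𝒟 i c.1) - rd ρ c := tsub_le_tsub_right (h.tri _ _ _) _
    _ ≤ _ := add_tsub_le_assoc

theorem rglg_mono (h : SM 𝒟 e x U) : StrictMono (enU x U) := Nat.nth_strictMono h.inf

theorem rglg_surj {j : ℕ} (hj : x j ∈ U) : ∃ b, enU x U b = j := by
  classical
  exact ⟨Nat.count (fun a => x a ∈ U) j, Nat.nth_count (p := fun a => x a ∈ U) hj⟩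

theorem rglg_fB_map (g : ℕ → ℕ) (J : List (ℕ × ℚ)) (j : ℕ) :
    fB 𝒟 (J.map (rl g)) ρ j = ⨅ (c : ℕ × ℚ) (_ : c ∈ J), 𝒟 j (g c.1) - rd ρ c := by
  refine le_antisymm (le_iInf₂ fun c hc => ?_) (le_iInf₂ fun c hc => ?_)
  · exact iInf₂_le (f := fun (c : ℕ × ℚ) (_ : c ∈ J.map (rl g)) => 𝒟 j c.1 - rd ρ c) (rl g c)
      (List.mem_map_of_mem hc)
  · obtain ⟨c', hc', rfl⟩ := List.mem_map.1 hc
    exact iInf₂_le (f := fun (c : ℕ × ℚ) (_ : c ∈ J) => 𝒟 j (g c.1) - rd ρ c) c' hc'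

theorem rglg_fB_le (J : List (ℕ × ℚ)) (a : ℕ) :
    fB (locD 𝒟 e x U) J ρ a ≤ fB 𝒟 (J.map (rl (enU x U))) ρ (enU x U a) := by
  rw [rglg_fB_map]
  exact iInf₂_mono fun c _ => tsub_le_tsub_right (min_le_left _ _) _

theorem rglg_fB {J : List (ℕ × ℚ)} (hJ : J ≠ []) {a : ℕ}
    (hf : ∀ c ∈ J, fB (locD 𝒟 e x U) J ρ a + rd ρ c < e (enU x U a)) :
    fB 𝒟 (J.map (rl (enU x U))) ρ (enU x U a) = fB (locD 𝒟 e x U) J ρ a := by
  refine le_antisymm ?_ (rglg_fB_le J a)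
  obtain ⟨c, hc, hm⟩ := Set.exists_min_image {c | c ∈ J}
    (fun c => locD 𝒟 e x U a c.1 - rd ρ c) (List.finite_toSet J) (List.exists_mem_of_ne_nil J hJ)
  have h1 : fB (locD 𝒟 e x U) J ρ a = locD 𝒟 e x U a c.1 - rd ρ c :=
    le_antisymm (iInf₂_le c hc) (le_iInf₂ hm)
  have h2 := hf c hc
  rw [h1] at h2
  have h3 : locD 𝒟 e x U a c.1 < e (enU x U a) := le_tsub_add.trans_lt h2
  have h4 : locD 𝒟 e x U a c.1 = 𝒟 (enU x U a) (enU x U c.1) := by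
    rcases le_total (𝒟 (enU x U a) (enU x U c.1)) (e (enU x U a)) with h5 | h5
    · exact min_eq_left h5
    · exact absurd (min_eq_right h5) h3.ne
  rw [h1, h4, rglg_fB_map]
  exact iInf₂_le (f := fun (c : ℕ × ℚ) (_ : c ∈ J) => 𝒟 (enU x U a) (enU x U c.1) - rd ρ c) c hc

section Chain

variable {f f' : ℕ → ℝ≥0∞} {P : ℕ → Prop}

theorem rglg_costA (h : SM 𝒟 e x U) (h1 : ∀ a, P a → f (enU x U a) = f' a)
    (h2 : ∀ a, P a → f' a ≤ e (enU x U a))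
    (h3 : ∀ a b, P a → 𝒟 (enU x U a) (enU x U b) < f (enU x U a) → P b) (b : ℕ) (l : List ℕ) :
    ∀ a, P a → cost (locD 𝒟 e x U) f' a l b =
      cost 𝒟 f (enU x U a) (l.map (enU x U)) (enU x U b) := by
  induction l with
  | nil =>
    intro a _
    simp only [cost, List.map_nil, (rglg_mono h).injective.eq_iff]
  | cons i l ih =>
    intro a ha
    by_cases hi : 𝒟 (enU x U a) (enU x U i) < f (enU x U a)
    · have e1 : locD 𝒟 e x U a i = 𝒟 (enU x U a) (enU x U i) :=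
        min_eq_left (hi.le.trans ((h1 a ha).le.trans (h2 a ha)))
      have hi' : locD 𝒟 e x U a i < f' a := by rw [e1, ← h1 a ha]; exact hi
      simp only [cost, List.map_cons, if_pos hi, if_pos hi']
      rw [e1, ih i (h3 a i ha hi)]
    · have hi' : ¬ locD 𝒟 e x U a i < f' a :=
        not_lt.2 (le_min (by rw [← h1 a ha]; exact not_lt.1 hi) (h2 a ha))
      simp only [cost, List.map_cons, if_neg hi, if_neg hi']

theorem rglg_costB (h : SM 𝒟 e x U) (h1 : ∀ a, P a → f (enU x U a) = f' a)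
    (h2 : ∀ a, P a → f' a ≤ e (enU x U a))
    (h3 : ∀ a b, P a → 𝒟 (enU x U a) (enU x U b) < f (enU x U a) → P b) (j : ℕ) (l : List ℕ) :
    ∀ a, P a → cost 𝒟 f (enU x U a) l j < ⊤ →
      ∃ (l' : List ℕ) (b : ℕ), l = l'.map (enU x U) ∧ enU x U b = j := by
  induction l with
  | nil =>
    intro a _ hs
    refine ⟨[], a, rfl, ?_⟩
    by_contra hne
    simp [cost, hne] at hs
  | cons i l ih =>
    intro a ha hs
    by_cases hi : 𝒟 (enU x U a) i < f (enU x U a)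
    · obtain ⟨i', rfl⟩ := rglg_surj (h.out _ _ (hi.trans_le ((h1 a ha).le.trans (h2 a ha))))
      simp only [cost, if_pos hi, ENNReal.add_lt_top] at hs
      obtain ⟨l', b, e1, e2⟩ := ih i' (h3 a i' ha hi) hs.2
      exact ⟨i' :: l', b, by rw [e1]; rfl, e2⟩
    · simp [cost, hi] at hs

theorem rglg_cd (h : SM 𝒟 e x U) (h1 : ∀ a, P a → f (enU x U a) = f' a)
    (h2 : ∀ a, P a → f' a ≤ e (enU x U a))
    (h3 : ∀ a b, P a → 𝒟 (enU x U a) (enU x U b) < f (enU x U a) → P b) {a : ℕ} (ha : P a)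
    (b : ℕ) : cd 𝒟 f (enU x U a) (enU x U b) = cd (locD 𝒟 e x U) f' a b := by
  refine le_antisymm (le_iInf fun l => ?_) (le_iInf fun l => ?_)
  · rw [rglg_costA h h1 h2 h3 b l a ha]
    exact iInf_le (fun l => cost 𝒟 f (enU x U a) l (enU x U b)) _
  · rcases eq_top_or_lt_top (cost 𝒟 f (enU x U a) l (enU x U b)) with ht | ht
    · rw [ht]; exact le_top
    · obtain ⟨l', -, rfl, -⟩ := rglg_costB h h1 h2 h3 _ l a ha ht
      rw [← rglg_costA h h1 h2 h3 b l' a ha]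
      exact iInf_le (fun l => cost (locD 𝒟 e x U) f' a l b) _

end Chain

theorem rglg_rtg {β γ : Type} {r : β → β → Prop} {r' : γ → γ → Prop} {S : β → Prop} (g : β → γ)
    (hS : ∀ a b, r a b → S b) (hr : ∀ a b, S a → r a b → r' (g a) (g b)) {a b : β}
    (h : Relation.ReflTransGen r a b) : S a → Relation.ReflTransGen r' (g a) (g b) := by
  induction h using Relation.ReflTransGen.head_induction_on with
  | refl => exact fun _ => .refl
  | head h1 _ ih => exact fun ha => .head (hr _ _ ha h1) (ih (hS _ _ h1))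

theorem rg_inW_pos (h : SM 𝒟 e x U) (h0 : 0 < fB 𝒟 α.1 ρ α.2) {a : ℕ} (ha : inW 𝒟 α ρ a) :
    0 < fB 𝒟 α.1 ρ a := by
  obtain ⟨l, hl⟩ := iInf_lt_iff.1 ha
  generalize α.2 = s at h0 hl
  induction l generalizing s with
  | nil =>
    have hsa : s = a := by
      by_contra hne
      simp [cost, hne] at hl
    exact hsa ▸ h0
  | cons i l ih =>
    by_cases hi : 𝒟 s i < fB 𝒟 α.1 ρ s
    · simp only [cost, if_pos hi, ENNReal.add_lt_top] at hl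
      exact ih i ((tsub_pos_of_lt hi).trans_le (rglg_fB_lip h _ s i)) hl.2
    · simp [cost, hi] at hl

theorem rg_fB (hL : EvL 𝒟 e x U C α ρ) {a : ℕ} (ha : inW (locD 𝒟 e x U) α ρ a) :
    fB 𝒟 (rgMap (enU x U) α).1 ρ (enU x U a) = fB (locD 𝒟 e x U) α.1 ρ a :=
  rglg_fB hL.evI.1 (hL.far a ha)

theorem rglg_h2 (hL : EvL 𝒟 e x U C α ρ) (a : ℕ) (ha : inW (locD 𝒟 e x U) α ρ a) :
    fB (locD 𝒟 e x U) α.1 ρ a ≤ e (enU x U a) := by
  obtain ⟨c, hc⟩ := List.exists_mem_of_ne_nil _ hL.evI.1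
  exact le_self_add.trans (hL.far a ha c hc).le

theorem rglg_h3 (hL : EvL 𝒟 e x U C α ρ) (a b : ℕ) (ha : inW (locD 𝒟 e x U) α ρ a)
    (hab : 𝒟 (enU x U a) (enU x U b) < fB 𝒟 (rgMap (enU x U) α).1 ρ (enU x U a)) :
    inW (locD 𝒟 e x U) α ρ b :=
  rglg_inW_step ha ((min_le_left _ _).trans_lt (hab.trans_eq (rg_fB hL ha)))

theorem rg_inW (h : SM 𝒟 e x U) (hL : EvL 𝒟 e x U C α ρ) (j : ℕ) :
    inW 𝒟 (rgMap (enU x U) α) ρ j ↔ ∃ b, enU x U b = j ∧ inW (locD 𝒟 e x U) α ρ b := by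
  have key : ∀ b, inW 𝒟 (rgMap (enU x U) α) ρ (enU x U b) ↔ inW (locD 𝒟 e x U) α ρ b := fun b =>
    Iff.of_eq (congrArg (· < ⊤) (rglg_cd h (fun a ha => rg_fB hL ha) (rglg_h2 hL) (rglg_h3 hL)
      (rglg_inW_self _ α ρ) b))
  constructor
  · intro hj
    obtain ⟨l, hl⟩ := iInf_lt_iff.1 hj
    obtain ⟨-, b, -, rfl⟩ := rglg_costB h (fun a ha => rg_fB hL ha) (rglg_h2 hL) (rglg_h3 hL) j l
      α.2 (rglg_inW_self _ α ρ) hl
    exact ⟨b, rfl, (key b).1 hj⟩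
  · rintro ⟨b, rfl, hb⟩
    exact (key b).2 hb

theorem rg_cd (h : SM 𝒟 e x U) (hL : EvL 𝒟 e x U C α ρ) {a : ℕ}
    (ha : inW (locD 𝒟 e x U) α ρ a) (b : ℕ) :
    cd 𝒟 (fB 𝒟 (rgMap (enU x U) α).1 ρ) (enU x U a) (enU x U b) =
      cd (locD 𝒟 e x U) (fB (locD 𝒟 e x U) α.1 ρ) a b :=
  rglg_cd h (fun _ ha => rg_fB hL ha) (rglg_h2 hL) (rglg_h3 hL) ha b

theorem rg_idx (h : SM 𝒟 e x U) (hL : EvL 𝒟 e x U C α ρ)
    (hi : {a | inW (locD 𝒟 e x U) α ρ a}.Infinite) (i : ℕ) :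
    idx 𝒟 (rgMap (enU x U) α) ρ i = enU x U (idx (locD 𝒟 e x U) α ρ i) := by
  have hm := rglg_mono h
  have e1 : (fun b => inW 𝒟 (rgMap (enU x U) α) ρ (enU x U b)) = inW (locD 𝒟 e x U) α ρ := by
    funext b
    rw [rg_inW h hL]
    exact propext ⟨fun ⟨b', e1, hb⟩ => hm.injective e1 ▸ hb, fun hb => ⟨b, rfl, hb⟩⟩
  have hinf : {j | inW 𝒟 (rgMap (enU x U) α) ρ j}.Infinite := by
    refine (hi.image hm.injective.injOn).mono ?_
    rintro _ ⟨b, hb, rfl⟩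
    exact (rg_inW h hL _).2 ⟨b, rfl, hb⟩
  have := Nat.nth_comp_of_strictMono (p := inW 𝒟 (rgMap (enU x U) α) ρ) (n := i) hm
    (fun k hk => by
      obtain ⟨b, e2, -⟩ := (rg_inW h hL k).1 hk
      exact ⟨b, e2⟩) (fun hf => absurd hf hinf)
  rw [e1] at this
  exact this.symm

theorem rg_infL (h : SM 𝒟 e x U) (hC : C ⊆ U) (hL : EvL 𝒟 e x U C α ρ)
    (hi : {a | x a ∈ C}.Infinite) : {a | inW (locD 𝒟 e x U) α ρ a}.Infinite := by
  have _ := h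
  refine Set.Infinite.of_image (enU x U) (hi.mono fun j hj => ?_)
  obtain ⟨b, rfl⟩ := rglg_surj (hC hj)
  exact ⟨b, hL.inn b hj, rfl⟩

theorem rg_up (h : SM 𝒟 e x U) (hC : C ⊆ U) (hL : EvL 𝒟 e x U C α ρ) :
    Ev2 𝒟 e x C (rgMap (enU x U) α) ρ := by
  obtain ⟨h1, h2, h3, h4⟩ := hL.evI
  refine ⟨⟨?_, ?_, ?_, ?_⟩, ?_, ?_, ?_⟩
  · exact fun hn => h1 (List.map_eq_nil_iff.1 hn)
  · intro d hd
    obtain ⟨c, hc, rfl⟩ := List.mem_map.1 hd
    exact h2 c hc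
  · intro d hd d' hd'
    obtain ⟨c, hc, rfl⟩ := List.mem_map.1 hd
    obtain ⟨c', hc', rfl⟩ := List.mem_map.1 hd'
    refine rglg_rtg (S := fun c => c ∈ α.1) (rl (enU x U)) (fun _ _ hr => hr.1)
      (fun a b ha hr => ⟨List.mem_map_of_mem hr.1, ?_⟩) (h3 c hc c' hc') hc
    refine hr.2.imp (fun hh => ?_) (fun hh => ?_)
    · exact (min_lt_iff.1 hh).resolve_right (hL.cen a ha a ha).not_gt
    · exact (min_lt_iff.1 hh).resolve_right (hL.cen a ha b hr.1).not_gt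
  · exact h4.trans_le (rglg_fB_le _ _)
  · intro d hd d' hd'
    obtain ⟨c, hc, rfl⟩ := List.mem_map.1 hd
    obtain ⟨c', hc', rfl⟩ := List.mem_map.1 hd'
    exact hL.cen c hc c' hc'
  · intro a ha d hd
    obtain ⟨c, hc, rfl⟩ := List.mem_map.1 hd
    obtain ⟨b, rfl, hb⟩ := (rg_inW h hL a).1 ha
    rw [rg_fB hL hb]
    exact hL.far b hb c hc
  · intro a ha
    obtain ⟨b, rfl⟩ := rglg_surj (hC ha)
    exact (rg_inW h hL _).2 ⟨b, rfl, hL.inn b ha⟩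

theorem rg_down (h : SM 𝒟 e x U) {β : Rg} (hG : Ev2 𝒟 e x C β ρ) :
    ∃ α, EvL 𝒟 e x U C α ρ := by
  classical
  obtain ⟨h1, h2, h3, h4⟩ := hG.evI
  have hm := rglg_mono h
  obtain ⟨α, rfl⟩ : ∃ α : Rg, rgMap (enU x U) α = β := by
    have hU : ∀ j, 0 < e j → enU x U (Nat.count (fun a => x a ∈ U) j) = j := fun j hj =>
      Nat.nth_count (p := fun a => x a ∈ U) (h.out j j (by rwa [h.self]))
    refine ⟨rgMap (Nat.count fun a => x a ∈ U) β, Prod.ext ?_ ?_⟩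
    · change (β.1.map _).map _ = β.1
      rw [List.map_map]
      refine (List.map_congr_left fun c hc => ?_).trans (List.map_id _)
      refine Prod.ext (hU c.1 (lt_of_lt_of_le ?_ (hG.cen c hc c hc))) rfl
      have h5 : (0 : ℝ) < c.2 := by exact_mod_cast h2 c hc
      have h6 := ρ.2.1
      exact ENNReal.ofReal_pos.2 (by positivity)
    · obtain ⟨c, hc⟩ := List.exists_mem_of_ne_nil _ h1
      exact hU β.2 (zero_le.trans_lt (hG.far _ (rglg_inW_self _ β ρ) c hc))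
  have h1' : α.1 ≠ [] := fun hn => h1 (List.map_eq_nil_iff.2 hn)
  have k0 : ∀ a, inW 𝒟 (rgMap (enU x U) α) ρ (enU x U a) → ∀ c ∈ α.1,
      fB (locD 𝒟 e x U) α.1 ρ a + rd ρ c < e (enU x U a) := fun a ha c hc =>
    (add_le_add (rglg_fB_le _ _) le_rfl).trans_lt
      (hG.far _ ha (rl (enU x U) c) (List.mem_map_of_mem hc))
  have key : ∀ b, inW 𝒟 (rgMap (enU x U) α) ρ (enU x U b) ↔ inW (locD 𝒟 e x U) α ρ b := fun b =>
    Iff.of_eq (congrArg (· < ⊤) (rglg_cd (P := fun a => inW 𝒟 (rgMap (enU x U) α) ρ (enU x U a)) h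
      (fun a ha => rglg_fB h1' (k0 a ha))
      (fun a ha => by
        obtain ⟨c, hc⟩ := List.exists_mem_of_ne_nil _ h1'
        exact le_self_add.trans (k0 a ha c hc).le)
      (fun a b ha hab => rglg_inW_step ha hab) (rglg_inW_self 𝒟 (rgMap (enU x U) α) ρ) b))
  have hc0 : ∀ c : ℕ × ℚ, rl (Nat.count fun a => x a ∈ U) (rl (enU x U) c) = c := fun c =>
    Prod.ext (Nat.count_nth_of_infinite h.inf c.1) rfl
  refine ⟨α, ⟨h1', fun c hc => h2 (rl (enU x U) c) (List.mem_map_of_mem hc), ?_, ?_⟩, ?_, ?_, ?_⟩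
  · intro c hc c' hc'
    have := rglg_rtg (S := fun c => c ∈ α.1.map (rl (enU x U)))
      (r' := fun a a' : ℕ × ℚ => a' ∈ α.1 ∧
        (locD 𝒟 e x U a.1 a'.1 < rd ρ a ∨ locD 𝒟 e x U a.1 a'.1 < rd ρ a'))
      (rl (Nat.count fun a => x a ∈ U)) (fun _ _ hr => hr.1) (fun a b ha hr => by
        obtain ⟨a, ha, rfl⟩ := List.mem_map.1 ha
        obtain ⟨b, hb, rfl⟩ := List.mem_map.1 hr.1
        rw [hc0, hc0]
        exact ⟨hb, hr.2.imp (min_le_left _ _).trans_lt (min_le_left _ _).trans_lt⟩)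
      (h3 (rl (enU x U) c) (List.mem_map_of_mem hc) (rl (enU x U) c') (List.mem_map_of_mem hc'))
      (List.mem_map_of_mem hc)
    rwa [hc0, hc0] at this
  · exact h4.trans_eq (rglg_fB h1' (k0 _ (rglg_inW_self 𝒟 (rgMap (enU x U) α) ρ)))
  · exact fun c hc c' hc' => hG.cen (rl (enU x U) c) (List.mem_map_of_mem hc) (rl (enU x U) c')
      (List.mem_map_of_mem hc')
  · exact fun a ha => k0 a ((key a).2 ha)
  · exact fun a ha => (key a).1 (hG.inn _ ha)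

theorem rg_gam (h : SM 𝒟 e x U) (hL : EvL 𝒟 e x U C α ρ)
    (hi : {a | inW (locD 𝒟 e x U) α ρ a}.Infinite) {u : ℝ≥0∞}
    (hu : ∀ p : ℕ → Prop, freq (fun j => ∃ b, enU x U b = j ∧ p b) = u * freq p) (l : ℝ≥0∞) :
    Gam (l, 𝒟) (rgMap (enU x U) α) ρ = Gam (l * u, locD 𝒟 e x U) α ρ := by
  have hw : ∀ i, inW (locD 𝒟 e x U) α ρ (idx (locD 𝒟 e x U) α ρ i) := fun i =>
    Nat.nth_mem_of_infinite hi i
  have e1 : inW 𝒟 (rgMap (enU x U) α) ρ =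
      fun j => ∃ b, enU x U b = j ∧ inW (locD 𝒟 e x U) α ρ b :=
    funext fun j => propext (rg_inW h hL j)
  refine Prod.ext ?_ (Prod.ext (funext₂ fun i j => ?_) (funext fun i => ?_))
  · change l * freq (inW 𝒟 (rgMap (enU x U) α) ρ) = l * u * freq (inW (locD 𝒟 e x U) α ρ)
    rw [e1, hu, mul_assoc]
  · change cd 𝒟 _ (idx 𝒟 (rgMap (enU x U) α) ρ i) (idx 𝒟 (rgMap (enU x U) α) ρ j) = _
    rw [rg_idx h hL hi, rg_idx h hL hi]
    exact rg_cd h hL (hw i) _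
  · change fB 𝒟 _ ρ (idx 𝒟 (rgMap (enU x U) α) ρ i) = _
    rw [rg_idx h hL hi]
    exact rg_fB hL (hw i)

end Pool.Agent.QL.LC
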