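import Pool.Agent.P.MP_7a6434d8_pr.QL.C.RegDefs

/-! Block REG: rings of balls exist. -/

open MeasureTheory ProbabilityTheory Set Filter Topology Metric
open scoped ENNReal unitInterval

namespace Pool.Agent.QL.LC

open Pool.Agent.LGD Pool.Agent.P.MP_7a6434d8_pr Pool.Agent.P.MP_7a6434d8_pr.Mp

variable {D : Sph → Sph → ℝ} {x : ℕ → ℂ} {C O U : Set ℂ}

/-- a geodesic leaving `O` meets its frontier -/
theorem rg_cross (hD : IsGeoMetric D) (hO : IsOpen O) (hc : IsCompact (closure O)) {z : ℂ}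
    (hz : z ∈ O) {y : Sph} (hy : y ∉ (fun u : ℂ => (u : Sph)) '' O) :
    ∃ u ∈ frontier O, D z y = D z u + D u y := by
  obtain ⟨g, h0, h1, hg⟩ := hD.geo z y
  have hT := isPreconnected_Icc.image g (hD.sph_geo_cont hg)
  have o1 : IsOpen ((fun u : ℂ => (u : Sph)) '' O) := OnePoint.isOpen_image_coe.2 hO
  have o2 : IsClosed ((fun u : ℂ => (u : Sph)) '' closure O) :=
    (hc.image OnePoint.continuous_coe).isClosed
  obtain ⟨t, ht, ⟨u, hu, e⟩, h2⟩ : ∃ t ∈ Icc (0 : ℝ) 1,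
      g t ∈ (fun u : ℂ => (u : Sph)) '' closure O ∧ g t ∉ (fun u : ℂ => (u : Sph)) '' O := by
    by_contra hn
    simp only [not_exists, not_and, not_not] at hn
    obtain ⟨w, -, h2, h3⟩ := hT _ _ o1 o2.isOpen_compl
      (by
        rintro _ ⟨t, ht, rfl⟩
        exact (em _).imp_left (hn t ht))
      ⟨_, ⟨0, left_mem_Icc.2 zero_le_one, h0⟩, z, hz, rfl⟩
      ⟨_, ⟨1, right_mem_Icc.2 zero_le_one, h1⟩,
        fun h => hy (h1 ▸ hn 1 (right_mem_Icc.2 zero_le_one) (h1.symm ▸ h))⟩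
    exact h3 (image_mono subset_closure h2)
  refine ⟨u, hO.frontier_eq ▸ ⟨hu, fun h => h2 ⟨u, h, e⟩⟩, ?_⟩
  have a := hg 0 (left_mem_Icc.2 zero_le_one) t ht
  have b := hg t ht 1 (right_mem_Icc.2 zero_le_one)
  rw [h0, ← e, zero_sub, abs_neg, abs_of_nonneg ht.1] at a
  rw [h1, ← e, abs_of_nonpos (sub_nonpos.2 ht.2)] at b
  rw [a, b]
  ring

theorem rgring_append {𝒟 : ℕ → ℕ → ℝ≥0∞} {f : ℕ → ℝ≥0∞} {b b' : ℕ} (h : 𝒟 b b' < f b)
    (l : List ℕ) : ∀ a, cost 𝒟 f a l b < ⊤ → cost 𝒟 f a (l ++ [b']) b' < ⊤ := by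
  induction l with
  | nil =>
    intro a ha
    rw [cost] at ha
    split_ifs at ha with e
    · rw [List.nil_append, cost, e, if_pos h, cost, if_pos rfl, add_zero]
      exact h.trans_le le_top
    · exact absurd ha (lt_irrefl _)
  | cons i l ih =>
    intro a ha
    rw [cost] at ha
    split_ifs at ha with e
    · rw [List.cons_append, cost, if_pos e]
      exact ENNReal.add_lt_top.2 ⟨e.trans_le le_top, ih i (ENNReal.add_lt_top.1 ha).2⟩
    · exact absurd ha (lt_irrefl _)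

theorem rgring_step {𝒟 : ℕ → ℕ → ℝ≥0∞} {α : Rg} {ρ : I} {b b' : ℕ} (hb : inW 𝒟 α ρ b)
    (h : 𝒟 b b' < fB 𝒟 α.1 ρ b) : inW 𝒟 α ρ b' := by
  obtain ⟨l, hl⟩ := iInf_lt_iff.1 hb
  exact iInf_lt_iff.2 ⟨_, rgring_append h l _ hl⟩

theorem rgring_ind {𝒟 : ℕ → ℕ → ℝ≥0∞} {f : ℕ → ℝ≥0∞} {P : ℕ → Prop}
    (h : ∀ i j, P i → 𝒟 i j < f i → P j) {b : ℕ} (l : List ℕ) :
    ∀ a, P a → cost 𝒟 f a l b < ⊤ → P b := by
  induction l with
  | nil =>
    intro a hP ha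
    rw [cost] at ha
    split_ifs at ha with e
    exacts [e ▸ hP, absurd ha (lt_irrefl _)]
  | cons i l ih =>
    intro a hP ha
    rw [cost] at ha
    split_ifs at ha with e
    exacts [ih i (h a i hP e) (ENNReal.add_lt_top.1 ha).2, absurd ha (lt_irrefl _)]

theorem rgring_gap (hD : IsGeoMetric D) {K K' : Set Sph} (hK : IsCompact K) (hK' : IsCompact K')
    (h : Disjoint K K') : ∃ η > 0, ∀ a ∈ K, ∀ b ∈ K', η ≤ D a b := by
  obtain ⟨η, h1, h2⟩ := (hK.prod hK').exists_forall_le' (a := 0) hD.cont.continuousOn fun p hp =>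
    (hD.sph_nonneg _ _).lt_of_ne' fun e =>
      disjoint_left.1 h hp.1 ((hD.eq_iff _ _).1 e ▸ hp.2)
  exact ⟨η, h1, fun a ha b hb => h2 (a, b) ⟨ha, hb⟩⟩

/-- a property spreads along an open cover of a connected set -/
theorem rgring_conn {ι : Type} {K : Set ℂ} (hK : IsPreconnected K) {B : ι → Set ℂ}
    (hB : ∀ i, IsOpen (B i)) {S P : ι → Prop} (cov : ∀ z ∈ K, ∃ i, S i ∧ z ∈ B i)
    (step : ∀ i j, S i → S j → P i → ∀ z ∈ K, z ∈ B i → z ∈ B j → P j) {i j : ι} (hi : S i)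
    (hj : S j) (hP : P i) (ni : (K ∩ B i).Nonempty) (nj : (K ∩ B j).Nonempty) : P j := by
  by_contra hn
  obtain ⟨z, hz, h1, h2⟩ := hK (⋃ i, ⋃ _ : S i ∧ P i, B i) (⋃ i, ⋃ _ : S i ∧ ¬ P i, B i)
    (isOpen_iUnion fun i => isOpen_iUnion fun _ => hB i)
    (isOpen_iUnion fun i => isOpen_iUnion fun _ => hB i)
    (fun z hz => by
      obtain ⟨i, h1, h2⟩ := cov z hz
      exact (em (P i)).imp (fun h => mem_iUnion₂.2 ⟨i, ⟨h1, h⟩, h2⟩)
        fun h => mem_iUnion₂.2 ⟨i, ⟨h1, h⟩, h2⟩)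
    (ni.mono (inter_subset_inter_right _ fun z hz => mem_iUnion₂.2 ⟨i, ⟨hi, hP⟩, hz⟩))
    (nj.mono (inter_subset_inter_right _ fun z hz => mem_iUnion₂.2 ⟨j, ⟨hj, hn⟩, hz⟩))
  obtain ⟨a, ha, h1⟩ := mem_iUnion₂.1 h1
  obtain ⟨b, hb, h2⟩ := mem_iUnion₂.1 h2
  exact hb.2 (step a b ha.1 hb.1 ha.2 z hz h1 h2)

theorem rgring_open (hD : IsGeoMetric D) (y : Sph) (r : ℝ) : IsOpen {w : ℂ | D y w < r} :=
  isOpen_lt ((hD.sph_cont y).comp OnePoint.continuous_coe) continuous_const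

theorem rgring_near (hD : IsGeoMetric D) (hx : DenseRange x) (z : ℂ) {r : ℝ} (hr : 0 < r) :
    ∃ a, D (x a) z < r := by
  obtain ⟨a, ha⟩ := hx.exists_mem_open (rgring_open hD z r)
    ⟨z, show D z z < r by rwa [hD.sph_self]⟩
  exact ⟨a, hD.symm _ _ ▸ ha⟩

/-- finitely many samples near a compact set -/
theorem rgring_net (hD : IsGeoMetric D) (hx : DenseRange x) {Γ : Set ℂ} (hΓ : IsCompact Γ) (q : ℚ)
    {r : ℝ} (hr : 0 < r) : ∃ J : List (ℕ × ℚ), (∀ j ∈ J, j.2 = q ∧ ∃ z ∈ Γ, D (x j.1) z < r) ∧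
      ∀ z ∈ Γ, ∃ j ∈ J, D (x j.1) z < r := by
  choose c hc using fun z => rgring_near hD hx z hr
  obtain ⟨t, h1, h2⟩ := hΓ.elim_nhds_subcover (fun z => {w : ℂ | D (x (c z)) w < r})
    fun z _ => (rgring_open hD _ r).mem_nhds (hc z)
  refine ⟨t.toList.map fun z => (c z, q), fun j hj => ?_, fun z hz => ?_⟩
  · obtain ⟨z, hz, rfl⟩ := List.mem_map.1 hj
    exact ⟨rfl, z, h1 z (Finset.mem_toList.1 hz), hc z⟩
  · obtain ⟨w, hw, h3⟩ := mem_iUnion₂.1 (h2 hz)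
    exact ⟨_, List.mem_map.2 ⟨w, Finset.mem_toList.2 hw, rfl⟩, h3⟩

theorem rg_ring (hD : IsGeoMetric D) (hx : DenseRange x) (h : Ring C O U) (ρ : I) :
    ∃ α, Ev2 (fun a b => ENNReal.ofReal (D (x a) (x b))) (fun a => dOut D (x a) U) x C α ρ := by
  have hΓ : IsCompact (frontier O) := h.cO.of_isClosed_subset isClosed_frontier
    frontier_subset_closure
  obtain ⟨η₁, e1, g1⟩ := rgring_gap hD (h.cC.image OnePoint.continuous_coe)
    (hΓ.image OnePoint.continuous_coe) (disjoint_image_of_injective OnePoint.coe_injective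
      (disjoint_left.2 fun z hz hz' => (h.oO.frontier_eq ▸ hz').2 (h.CO hz)))
  obtain ⟨η₂, e2, g2⟩ := rgring_gap hD (h.cO.image OnePoint.continuous_coe)
    (OnePoint.isOpen_image_coe.2 h.oU).isClosed_compl.isCompact
    (disjoint_compl_right.mono_left (image_mono h.OU))
  obtain ⟨q, q0, q1⟩ := exists_rat_btwn (show (0 : ℝ) < min η₁ η₂ / 4 by positivity)
  have q2 : 4 * (q : ℝ) ≤ η₁ := by linarith [min_le_left η₁ η₂]
  have q3 : 4 * (q : ℝ) ≤ η₂ := by linarith [min_le_right η₁ η₂]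
  obtain ⟨R, hR⟩ : ∃ R : ℝ, R = q * (1 + (ρ : ℝ)) := ⟨_, rfl⟩
  have r1 : (q : ℝ) ≤ R := by nlinarith [ρ.2.1]
  have r2 : R ≤ 2 * q := by nlinarith [ρ.2.2]
  have r0 : 0 < R := q0.trans_le r1
  obtain ⟨J, J1, J2⟩ := rgring_net hD hx hΓ q (half_pos q0)
  obtain ⟨t, ht⟩ := hx.exists_mem_open isOpen_interior h.iC
  replace ht := interior_subset ht
  have hrd : ∀ j ∈ J, rd ρ j = ENNReal.ofReal R := fun j hj => by rw [rd, (J1 j hj).1, hR]
  have f1 : ∀ a, ∀ j ∈ J, fB (fun a b => ENNReal.ofReal (D (x a) (x b))) J ρ a ≤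
      ENNReal.ofReal (D (x a) (x j.1) - R) := fun a j hj => by
    rw [ENNReal.ofReal_sub _ r0.le, ← hrd j hj]
    exact iInf₂_le j hj
  have f2 : ∀ z ∈ C, ∀ a, D (x a) z < q / 4 →
      ENNReal.ofReal q ≤ fB (fun a b => ENNReal.ofReal (D (x a) (x b))) J ρ a :=
    fun z hz a ha => le_iInf₂ fun j hj => by
      obtain ⟨u, hu, h1⟩ := (J1 j hj).2
      rw [hrd j hj, ← ENNReal.ofReal_sub _ r0.le]
      refine ENNReal.ofReal_le_ofReal ?_
      have h2 := g1 _ ⟨z, hz, rfl⟩ _ ⟨u, hu, rfl⟩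
      linarith [hD.triangle z (x a) u, hD.triangle (x a) (x j.1) u, hD.symm z (x a)]
  have f3 : ∀ a, D (x a) (x a) < q / 4 := fun a => by
    rw [hD.sph_self]
    positivity
  have hO : ∀ a, inW (fun a b => ENNReal.ofReal (D (x a) (x b))) (J, t) ρ a → x a ∈ O :=
    fun a ha => by
      obtain ⟨l, hl⟩ := iInf_lt_iff.1 ha
      refine rgring_ind (P := fun i => x i ∈ O) (fun i k hi hik => ?_) l _ (h.CO ht) hl
      by_contra hk
      obtain ⟨u, hu, h1⟩ := rg_cross hD h.oO h.cO hi (y := x k)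
        fun ⟨w, hw, e⟩ => hk (OnePoint.coe_injective e ▸ hw)
      obtain ⟨j, hj, h2⟩ := J2 u hu
      refine (hik.trans_le (f1 i j hj)).not_ge (ENNReal.ofReal_le_ofReal ?_)
      linarith [hD.triangle (x i) u (x j.1), hD.symm u (x j.1), hD.sph_nonneg u (x k)]
  refine ⟨(J, t), ⟨?_, fun j hj => ?_, fun j hj j' hj' => ?_, ?_⟩, fun j hj j' hj' => ?_,
    fun a ha j hj => ?_, fun a ha => ?_⟩
  · obtain ⟨u, hu, -⟩ := rg_cross hD h.oO h.cO (h.CO ht) (y := OnePoint.infty)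
      fun ⟨w, _, e⟩ => OnePoint.coe_ne_infty w e
    obtain ⟨j, hj, -⟩ := J2 u hu
    exact List.ne_nil_of_mem hj
  · rw [(J1 j hj).1]
    exact_mod_cast q0
  · refine rgring_conn h.pO (B := fun j : ℕ × ℚ => {w : ℂ | D (x j.1) w < q / 2})
      (fun i => rgring_open hD _ _) (S := fun j => j ∈ J) J2 (fun a b ha hb hP z _ h1 h2 =>
        hP.tail ⟨hb, .inl ?_⟩) hj hj' .refl (J1 j hj).2 (J1 j' hj').2
    rw [hrd a ha, ENNReal.ofReal_lt_ofReal_iff r0]
    replace h1 : D (x a.1) z < q / 2 := h1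
    replace h2 : D (x b.1) z < q / 2 := h2
    linarith [hD.triangle (x a.1) z (x b.1), hD.symm z (x b.1)]
  · exact (ENNReal.ofReal_pos.2 q0).trans_le (f2 _ ht t (f3 t))
  · rw [hrd j' hj']
    refine le_iInf₂ fun y hy => ENNReal.ofReal_le_ofReal ?_
    obtain ⟨u, hu, h1⟩ := (J1 j hj).2
    have h2 := g2 _ ⟨u, frontier_subset_closure hu, rfl⟩ y hy
    linarith [hD.triangle u (x j.1) y, hD.symm u (x j.1)]
  · rw [hrd j hj]
    refine (ENNReal.lt_add_right (ENNReal.add_ne_top.2 ⟨((f1 a j hj).trans_lt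
      ENNReal.ofReal_lt_top).ne, ENNReal.ofReal_ne_top⟩) (ENNReal.ofReal_pos.2 q0).ne').trans_le
      (le_iInf₂ fun y hy => ?_)
    obtain ⟨u, hu, h1⟩ := rg_cross hD h.oO h.cO (hO a ha)
      fun h1 => hy (image_mono (subset_closure.trans h.OU) h1)
    obtain ⟨k, hk, h2⟩ := J2 u hu
    have h3 := g2 _ ⟨u, frontier_subset_closure hu, rfl⟩ y hy
    refine (add_le_add_left (add_le_add_left ((f1 a k hk).trans
      (ENNReal.ofReal_le_ofReal (le_max_left _ 0))) _) _).trans ?_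
    rw [← ENNReal.ofReal_add (le_max_right _ _) r0.le,
      ← ENNReal.ofReal_add (add_nonneg (le_max_right _ _) r0.le) q0.le]
    refine ENNReal.ofReal_le_ofReal ?_
    have h4 : max (D (x a) (x k.1) - R) 0 ≤ D (x a) y - R - q := max_le
      (by linarith [hD.triangle (x a) u (x k.1), hD.symm u (x k.1)])
      (by linarith [hD.sph_nonneg (x a) u])
    linarith
  · refine rgring_conn h.pC (B := fun a : ℕ => {w : ℂ | D (x a) w < q / 4})
      (fun i => rgring_open hD _ _) (S := fun _ => True)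
      (P := inW (fun a b => ENNReal.ofReal (D (x a) (x b))) (J, t) ρ)
      (fun z _ => (rgring_near hD hx z (by positivity)).imp fun i hi => ⟨trivial, hi⟩)
      (fun i k _ _ hP z hz h1 h2 => rgring_step hP (lt_of_lt_of_le ?_ (f2 z hz i h1)))
      trivial trivial (i := t) (iInf_lt_iff.2 ⟨[], ?_⟩) ⟨_, ht, f3 t⟩ ⟨_, ha, f3 a⟩
    · rw [ENNReal.ofReal_lt_ofReal_iff q0]
      replace h1 : D (x i) z < q / 4 := h1
      replace h2 : D (x k) z < q / 4 := h2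
      linarith [hD.triangle (x i) z (x k), hD.symm z (x k)]
    · rw [cost, if_pos rfl]
      exact ENNReal.zero_lt_top

end Pool.Agent.QL.LC
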