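import Pool.Agent.P.MP_7a6434d8_pr.QL.C.Api
import Pool.Agent.P.MP_7a6434d8_pr.QL.C.Hat
import Pool.Agent.P.MP_7a6434d8_pr.QL.C.Meas
import Pool.Agent.P.MP_7a6434d8_pr.QL.I.Lin

/-! From regimes, quantiles and the identification to homogeneous limits. -/

open MeasureTheory ProbabilityTheory Set Filter Topology Metric
open scoped ENNReal unitInterval

namespace Pool.Agent.QL.LC

open Pool.Agent.LGD Pool.Agent.P.MP_7a6434d8_pr

/-- Statement of block ID. -/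
def IdStmt (ν : Measure Dist) : Prop :=
  ∃ ε : ℝ≥0∞, 0 < ε ∧ ∀ (R : Regime ν) (x y : ℝ),
    (∀ c ≤ 0, R.bet c {s | ex x < Rp s.1} ≤ ε) → (∀ c ≤ 0, R.bet c {s | ex y < Rp s.2} ≤ ε) →
    ∃ a b : ℝ, 0 < a ∧ 0 < b ∧ ∀ᵐ k ∂nuh ν, ∀ᵐ s ∂(R.K k), Homog a b s

theorem Transfer.ae {S : Setup} {b : Base} {R : Regime S.O.ν} (h : Transfer S b R) {E : Set Sys}
    (hE : MeasurableSet[SS U0] E) (h1 : ∀ᵐ k ∂nuh S.O.ν, ∀ᵐ s ∂(R.K k), s ∈ E) (w : World b)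
    (Q : Measure C0) [IsProbabilityMeasure Q] (hQ : w.Lim (code0 b) Q) {F : Fr} (hF : F.Adm) :
    ∀ᵐ z ∂S.hat w.ϑ Q Prod.fst, pull F (S.sysOf z.1 z.2) ∈ E := by
  obtain ⟨G, hG, h2, h3⟩ := h E hE
  have := R.markov
  have hE' : MeasurableSet E := SS_le U0 E hE
  have hN : MeasurableSet[fieldSigma id U0] {k | G k ≠ 1} :=
    (hG (measurableSet_singleton 1)).compl
  have hN0 : nuh S.O.ν {k | G k ≠ 1} = 0 := by
    have : ∀ᵐ k ∂nuh S.O.ν, G k = 1 := by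
      filter_upwards [h1, h2] with k h4 h5
      rw [← h5]
      exact (prob_compl_eq_zero_iff hE').1 h4
    exact this
  have h4 : ∀ᵐ p ∂w.ϑ.prod S.P, G (S.fld F p) = 1 := by
    refine (Measure.ae_prod_iff_ae_ae ?_).2 (Eventually.of_forall fun s => ?_)
    · exact (hG.measurable.comp (S.measurable_fld F)) (measurableSet_singleton 1)
    · filter_upwards [S.O.ac F hF s _ hN hN0] with ω hω
      exact not_not.1 hω
  have h5 := h3 w Q hQ F hF (fun _ => 1) measurable_const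
  simp only [one_mul] at h5
  rw [lintegral_congr_ae h4, lintegral_const, measure_univ, mul_one] at h5
  have hm : Measurable fun z : S.X × C0 => pull F (S.sysOf z.1 z.2) :=
    (measurable_pull F).comp S.measurable_sysOf
  have h6 : S.hat w.ϑ Q Prod.fst ((fun z : S.X × C0 => pull F (S.sysOf z.1 z.2)) ⁻¹' E) = 1 := by
    rw [← lintegral_indicator_one (hm hE'), ← h5]
    rfl
  exact (prob_compl_eq_zero_iff (hm hE')).2 h6

theorem tame (S : Setup) (hreg : ∀ b, ∃ R : Regime S.O.ν, Transfer S b R) (hlink : LinkStmt S)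
    (hrsw : RSWStmt S.O.ν) (hid : IdStmt S.O.ν) : ∃ u, TameU S u := by
  obtain ⟨ε, hε, hid⟩ := hid
  obtain ⟨ε₁, h1, h2, h3⟩ : ∃ ε₁ : ℝ, 0 < ε₁ ∧ ε₁ ≤ 1 / 10 ∧ ENNReal.ofReal (2 * ε₁) ≤ ε := by
    obtain ⟨r, hr, hr'⟩ := ENNReal.lt_iff_exists_nnreal_btwn.1 hε
    have hr0 : (0 : ℝ) < r := by exact_mod_cast hr
    refine ⟨min (r / 2) (1 / 10), lt_min (half_pos hr0) (by norm_num), min_le_right _ _, ?_⟩
    refine le_trans ?_ hr'.le
    rw [← ENNReal.ofReal_coe_nnreal]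
    exact ENNReal.ofReal_le_ofReal (by linarith [min_le_left ((r : ℝ) / 2) (1 / 10)])
  obtain ⟨ε₀, h4, h5, hflat⟩ := hrsw ε₁ h1
  obtain ⟨u, v, hb, hLk⟩ := hlink ε₀ h4 (h5.trans h2)
  have hε₀ : ENNReal.ofReal (2 * ε₀) ≤ ε :=
    (ENNReal.ofReal_le_ofReal (by linarith)).trans h3
  obtain ⟨B, hB⟩ := hflat u v ⟨hb, fun t lk 𝒰 ht => by
    obtain ⟨R, hR⟩ := hreg (mkBase t lk 𝒰 ht)
    exact ⟨R, hLk t lk 𝒰 ht R hR⟩⟩
  refine ⟨u, ⟨fun T => ?_, B, fun m => (hB m).mono fun t h s hs => (h s hs).1⟩, fun t 𝒰 ht => ?_⟩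
  · obtain ⟨B', h⟩ := hb T
    exact ⟨B', fun t ht => (h t ht).1⟩
  obtain ⟨R, hR⟩ := hreg (mkBase t (fun k => u (t k)) 𝒰 ht)
  obtain ⟨hu, hv⟩ := hLk t _ 𝒰 ht R hR
  have hev : ∀ c : ℝ, ∀ᶠ k in (𝒰 : Filter ℕ),
      |u (t k + c) - u (t k)| ≤ B ∧ |u (t k + c) + v (t k + c)| ≤ B := fun c =>
    (ht.eventually (hB |c|)).mono fun k h => h _ (by simp)
  have htd : ∀ c : ℝ, Tendsto (fun k => t k + c - t k) 𝒰 (𝓝 c) := fun c => by simp
  obtain ⟨a, a', ha, ha', hH⟩ := hid R B (2 * B)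
    (fun c _ => (hu.up (fun k => t k + c) c B (htd c)
      ((hev c).mono fun k h => (abs_le.1 h.1).2)).trans hε₀)
    (fun c _ => (hv.up (fun k => t k + c) c (2 * B) (htd c)
      ((hev c).mono fun k h => by linarith [(abs_le.1 h.1).1, (abs_le.1 h.2).2])).trans hε₀)
  refine ⟨a, a', ha, ha', fun w Q _ hQ => ?_⟩
  have := id_countable_fr
  refine ae_all_iff.2 fun F => ?_
  by_cases hF : F.Adm
  · exact (hR.ae (measurableSet_homog a a') hH w Q hQ hF).mono fun z hz _ => hz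
  · exact Eventually.of_forall fun z h => absurd h hF

/-- The assembly of the blocks. -/
theorem inputs_of (S : Setup) (hd1 : Disc1Stmt) (hd2 : Disc2Stmt) (hloc : LocStmt)
    (hreg : RegStmt S) (hlink : LinkStmt S) (hrsw : RSWStmt S.O.ν) (hid : IdStmt S.O.ν)
    (hsv : SVStmt) (hn1 : N1Stmt S)
    (hnd : ∀ kap, ND.SlowVar kap → ND.N1fix kap → ND.NDdisc kap) (hndq : NDQStmt)
    (hinp : InpStmt S) : Inputs S.P S.d S.μ := by
  obtain ⟨u, hu⟩ := tame S (fun b => by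
    obtain ⟨D⟩ := hd1 b
    obtain ⟨K, hK, hF⟩ := hd2 b D
    exact hreg b K hK (hloc b D K hK hF)) hlink hrsw hid
  exact hinp u hu (hndq u hu.1 (hnd _ (hsv u hu.1) (hn1 u hu)))

end Pool.Agent.QL.LC
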